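import Pool.Agent.LibRC12.Defs

/-!
Working definitions for MP_19886c_an (helper12).

* `Mn n A`: the C*-algebra `M_n(A)`, a copy of `CStarMatrix (Fin n) (Fin n) A` whose only
  instances come from `CStarAlgebra` (so that `cfc` and `rw` work). Go to and from matrices with
  `Mn.of`, `Mn.mat`.
* `CM Z E`: the C*-algebra `C(Z, E)`, a copy with the same purpose. Evaluation `ev z`, and
  `CM.mk`, `CM.fn`.
-/

open Filter Topology
open scoped ENNReal NNReal ComplexOrder

set_option linter.unusedSectionVars false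

namespace RC12

/-- `M_n(A)` as a C*-algebra. -/
def Mn (n : ℕ) (A : Type*) := CStarMatrix (Fin n) (Fin n) A

section Mn
variable {A : Type*} [CStarAlgebra A] [PartialOrder A] [StarOrderedRing A] {n : ℕ}

noncomputable instance : CStarAlgebra (Mn n A) :=
  inferInstanceAs (CStarAlgebra (CStarMatrix (Fin n) (Fin n) A))
noncomputable instance : PartialOrder (Mn n A) := CStarAlgebra.spectralOrder _
instance : StarOrderedRing (Mn n A) := CStarAlgebra.spectralOrderedRing _

/-- from matrices -/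
def Mn.of (a : Matrix (Fin n) (Fin n) A) : Mn n A := CStarMatrix.ofMatrix a
/-- to matrices -/
def Mn.mat (a : Mn n A) : Matrix (Fin n) (Fin n) A := CStarMatrix.ofMatrix.symm a

@[simp] theorem Mn.mat_of (a : Matrix (Fin n) (Fin n) A) : (Mn.of a).mat = a := rfl
@[simp] theorem Mn.of_mat (a : Mn n A) : Mn.of a.mat = a := rfl
theorem Mn.ext {a b : Mn n A} (h : a.mat = b.mat) : a = b := h
@[simp] theorem Mn.mat_mul (a b : Mn n A) : (a * b).mat = a.mat * b.mat := rfl
@[simp] theorem Mn.mat_add (a b : Mn n A) : (a + b).mat = a.mat + b.mat := rfl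
@[simp] theorem Mn.mat_sub (a b : Mn n A) : (a - b).mat = a.mat - b.mat := rfl
@[simp] theorem Mn.mat_neg (a : Mn n A) : (-a).mat = -a.mat := rfl
@[simp] theorem Mn.mat_star (a : Mn n A) : (star a).mat = star a.mat := rfl
@[simp] theorem Mn.mat_zero : (0 : Mn n A).mat = 0 := rfl
@[simp] theorem Mn.mat_one : (1 : Mn n A).mat = 1 := rfl
@[simp] theorem Mn.mat_smul (c : ℂ) (a : Mn n A) : (c • a).mat = c • a.mat := rfl
@[simp] theorem Mn.mat_smul_real (c : ℝ) (a : Mn n A) : (c • a).mat = (c : ℂ) • a.mat := rfl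
@[simp] theorem Mn.mat_pow (a : Mn n A) (k : ℕ) : (a ^ k).mat = a.mat ^ k := rfl

theorem Mn.norm_entry_le (a : Mn n A) (i j : Fin n) : ‖a.mat i j‖ ≤ ‖a‖ :=
  CStarMatrix.norm_entry_le_norm (M := (a : CStarMatrix (Fin n) (Fin n) A))

end Mn

/-- `C(Z, E)` as a C*-algebra. -/
def CM (Z E : Type*) [TopologicalSpace Z] [TopologicalSpace E] := C(Z, E)

section CM
variable {Z : Type*} [TopologicalSpace Z] [CompactSpace Z] {E : Type*} [CStarAlgebra E]

noncomputable instance : CStarAlgebra (CM Z E) := inferInstanceAs (CStarAlgebra C(Z, E))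

/-- from continuous maps -/
def CM.mk (f : C(Z, E)) : CM Z E := f
/-- to continuous maps -/
def CM.fn (f : CM Z E) : C(Z, E) := f

/-- evaluation at a point -/
def ev (z : Z) : CM Z E →⋆ₐ[ℂ] E where
  toFun f := f.fn z
  map_one' := rfl
  map_mul' _ _ := rfl
  map_zero' := rfl
  map_add' _ _ := rfl
  commutes' _ := rfl
  map_star' _ := rfl

@[simp] theorem ev_mk (f : C(Z, E)) (z : Z) : ev z (CM.mk f) = f z := rfl
theorem CM.ext {f g : CM Z E} (h : ∀ z, ev z f = ev z g) : f = g := ContinuousMap.ext h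
theorem continuous_ev (f : CM Z E) : Continuous fun z => ev z f := f.fn.continuous
theorem CM.norm_le {f : CM Z E} {c : ℝ} (hc : 0 ≤ c) : ‖f‖ ≤ c ↔ ∀ z, ‖ev z f‖ ≤ c :=
  ContinuousMap.norm_le f.fn hc
theorem CM.norm_ev_le (f : CM Z E) (z : Z) : ‖ev z f‖ ≤ ‖f‖ := f.fn.norm_coe_le_norm z
@[simp] theorem ev_star (f : CM Z E) (z : Z) : ev z (star f) = star (ev z f) := rfl
@[simp] theorem ev_smul_real (c : ℝ) (f : CM Z E) (z : Z) : ev z (c • f) = c • ev z f := rfl
theorem continuous_ev_right (z : Z) : Continuous (ev z : CM Z E → E) :=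
  (continuous_eval_const z : Continuous fun f : C(Z, E) => f z)

variable [PartialOrder E] [StarOrderedRing E]

noncomputable instance : PartialOrder (CM Z E) :=
  inferInstanceAs (PartialOrder C(Z, E))

theorem CM.le_def {f g : CM Z E} : f ≤ g ↔ ∀ z, ev z f ≤ ev z g := Iff.rfl
theorem CM.nonneg_iff {f : CM Z E} : 0 ≤ f ↔ ∀ z, 0 ≤ ev z f := Iff.rfl

instance : StarOrderedRing (CM Z E) := by
  refine StarOrderedRing.of_le_iff ?_
  intro f g
  constructor
  · rw [CM.le_def]
    intro h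
    have hc : Continuous fun x => CFC.sqrt (ev x g - ev x f) :=
      CFC.continuousOn_sqrt.comp_continuous ((continuous_ev g).sub (continuous_ev f))
        fun x => sub_nonneg.2 (h x)
    refine ⟨CM.mk ⟨_, hc⟩, ?_⟩
    refine CM.ext fun x => ?_
    have h0 : 0 ≤ ev x g - ev x f := sub_nonneg.2 (h x)
    have h1 : star (CFC.sqrt (ev x g - ev x f)) = CFC.sqrt (ev x g - ev x f) :=
      (IsSelfAdjoint.of_nonneg (CFC.sqrt_nonneg _)).star_eq
    simp [h1, CFC.sqrt_mul_sqrt_self _ h0]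
  · rintro ⟨p, rfl⟩ x
    have : ev x (f + star p * p) = ev x f + star (ev x p) * ev x p := by simp
    show ev x f ≤ ev x (f + star p * p)
    rw [this]
    exact le_add_of_nonneg_right (star_mul_self_nonneg _)

theorem ev_cfc (f : ℝ → ℝ) (hf : Continuous f) (a : CM Z E) (ha : IsSelfAdjoint a)
    (z : Z) : ev z (cfc f a) = cfc f (ev z a) :=
  StarAlgHomClass.map_cfc (ev (E := E) z) f a hf.continuousOn (continuous_ev_right z) ha
    (ha.map (ev (E := E) z))

end CM

section General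
variable {M : Type*} [CStarAlgebra M]

/-- Cuntz subequivalence in a C*-algebra -/
def Cu (a b : M) : Prop := ∀ ε : ℝ, 0 < ε → ∃ v : M, ‖star v * b * v - a‖ < ε

/-- `(a - ε)_+` -/
noncomputable def cut (ε : ℝ) (a : M) : M := cfc (fun t : ℝ => max (t - ε) 0) a

/-- `ψ_ε(a) = min(1, a/ε)` (used for `a ≥ 0`). -/
noncomputable def psi (ε : ℝ) (a : M) : M := cfc (fun t : ℝ => min 1 (t / ε)) a

/-- continuity of the functional calculus for a globally continuous function -/
theorem continuous_cfc_of_continuous {X : Type*} [TopologicalSpace X]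
    (f : ℝ → ℝ) (hf : Continuous f) {a : X → M} (ha : Continuous a)
    (hsa : ∀ x, IsSelfAdjoint (a x)) : Continuous fun x => cfc f (a x) :=
  Continuous.cfc_of_mem_nhdsSet (s := Set.univ) f Filter.univ_mem ha hsa hf.continuousOn

variable [PartialOrder M]

/-- A dimension function: monotone for `≾`, subadditive. -/
structure IsDim (d : M → ℝ) : Prop where
  nonneg : ∀ a, 0 ≤ a → 0 ≤ d a
  mono : ∀ a b, 0 ≤ a → 0 ≤ b → Cu a b → d a ≤ d b
  add_le : ∀ a b, 0 ≤ a → 0 ≤ b → d (a + b) ≤ d a + d b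

end General

section Quasi
variable {A : Type*} [CStarAlgebra A] [PartialOrder A] [StarOrderedRing A]

/-- The real part of a quasitrace, on `Mn n A`. -/
def QuasiTrace.t (τ : QuasiTrace A) {n : ℕ} (a : Mn n A) : ℝ := (τ.toFun n a.mat).re

/-- `d_τ(a) = sup_ε τ(ψ_ε(a))`. -/
noncomputable def QuasiTrace.dq (τ : QuasiTrace A) {n : ℕ} (a : Mn n A) : ℝ :=
  ⨆ k : ℕ, τ.t (psi (1 / ((k : ℝ) + 1)) a)

variable (A) in
/-- The common kernel of the characters. -/
def J0 : Set A := {a | ∀ φ : WeakDual.characterSpace ℂ A, φ a = 0}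

/-- block sum `a ⊕ b` -/
noncomputable def blk {n m : ℕ} (a : Mn n A) (b : Mn m A) : Mn (n + m) A :=
  Mn.of (Matrix.reindex finSumFinEquiv finSumFinEquiv (Matrix.fromBlocks a.mat 0 0 b.mat))

/-- `a ↦ a ⊕ 0` on `Mn`. -/
def cor {n : ℕ} (m : ℕ) (a : Mn n A) : Mn m A := Mn.of (corner m a.mat)

/-- evaluation of a matrix at a character -/
noncomputable def evc {n : ℕ} (φ : WeakDual.characterSpace ℂ A) : Mn n A →⋆ₐ[ℂ] Mn n ℂ where
  toFun a := Mn.of (a.mat.map φ)
  map_one' := Mn.ext (by simp [Matrix.map_one])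
  map_mul' a b := Mn.ext (by simp [Matrix.map_mul])
  map_zero' := Mn.ext (by simp)
  map_add' a b := Mn.ext (by simp [Matrix.map_add])
  commutes' c := by
    refine Mn.ext ?_
    ext i j
    by_cases h : i = j
    · subst h
      simp [Algebra.algebraMap_eq_smul_one]
    · simp [Algebra.algebraMap_eq_smul_one, Matrix.one_apply, h]
  map_star' a := by
    refine Mn.ext ?_
    ext i j
    simp [Matrix.star_apply, map_star]

theorem evc_mat {n : ℕ} (φ : WeakDual.characterSpace ℂ A) (a : Mn n A) (i j : Fin n) :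
    (evc φ a).mat i j = φ (a.mat i j) := rfl

end Quasi

/-- (helper19) maps to `E` can be perturbed to be nowhere zero -/
def Nz (E : Type*) [NormedAddCommGroup E] (Y : Type*) [TopologicalSpace Y] : Prop :=
  ∀ F : C(Y, E), ∀ e : ℝ, 0 < e → ∃ F' : C(Y, E), (∀ y, F' y ≠ 0) ∧ ∀ y, ‖F' y - F y‖ ≤ e

/-- (helper19) property `G_m`: for `β_i = (b_i, c_i) : Y → ℝ × ℂ = ℝ³` there are columns
`(s_i, t_i)` without common zero which lie in the `|β_i|`-eigenspace of `[[b, c̄], [c, -b]]` where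
`|β_i| ≥ 1/2`. -/
def GProp (m : ℕ) (Y : Type*) [TopologicalSpace Y] : Prop :=
  ∀ (b : Fin m → C(Y, ℝ)) (c : Fin m → C(Y, ℂ)), ∃ s t : Fin m → C(Y, ℂ),
    (∀ y, ∃ i, s i y ≠ 0 ∨ t i y ≠ 0) ∧
    ∀ i y, 1 / 2 ≤ √((b i y) ^ 2 + ‖c i y‖ ^ 2) →
      (b i y : ℂ) * s i y + (starRingEnd ℂ) (c i y) * t i y =
        (√((b i y) ^ 2 + ‖c i y‖ ^ 2) : ℂ) * s i y ∧
      c i y * s i y - (b i y : ℂ) * t i y = (√((b i y) ^ 2 + ‖c i y‖ ^ 2) : ℂ) * t i y

/-- (helper19) partitions of unity with at most `n` nonzero functions at each point, subordinate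
to every finite open cover -/
def POrd (n : ℕ) (Y : Type*) [TopologicalSpace Y] : Prop :=
  ∀ (k : ℕ) (U : Fin k → Set Y), (∀ i, IsOpen (U i)) → (⋃ i, U i) = Set.univ →
    ∃ φ : Fin k → C(Y, ℝ), (∀ i y, 0 ≤ φ i y) ∧ (∀ y, ∑ i, φ i y = 1) ∧
      (∀ i y, φ i y ≠ 0 → y ∈ U i) ∧ ∀ y, (Finset.univ.filter fun i => φ i y ≠ 0).card ≤ n

end RC12
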