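import Mathlib

/-!
# Radius of comparison of `C(X) ⊗ A`: the definitions used by the statement

`M_n(B)` is `Matrix (Fin n) (Fin n) B`, with star `x ↦ xᴴ` (the conjugate transpose). Norm
convergence in `M_n(B)` is convergence of the entries.
-/

open Filter Topology
open scoped ENNReal NNReal

namespace RC12

variable {B : Type*} [CStarAlgebra B]

/-- The positive elements of `M_n(B)`: those of the form `x* x`. -/
def IsPos {n : ℕ} (a : Matrix (Fin n) (Fin n) B) : Prop :=
  ∃ x : Matrix (Fin n) (Fin n) B, a = star x * x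

/-- The embedding `a ↦ a ⊕ 0` of `M_n(B)` in `M_m(B)` (for `n ≤ m`). -/
def corner {n : ℕ} (m : ℕ) (a : Matrix (Fin n) (Fin n) B) : Matrix (Fin m) (Fin m) B :=
  fun i j => if h : (i : ℕ) < n ∧ (j : ℕ) < n then a ⟨i, h.1⟩ ⟨j, h.2⟩ else 0

/-- Cuntz subequivalence `a ≾ b` for `a` in `M_n(B)` and `b` in `M_m(B)`: there are `n × m`
matrices `v_k` over `B` with `v_k b v_k* → a`. (Elements `v_k` of `M_∞(B)` may be replaced by
their `n × m` corners.) -/
def CuntzLE {n m : ℕ} (a : Matrix (Fin n) (Fin n) B) (b : Matrix (Fin m) (Fin m) B) : Prop :=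
  ∀ ε : ℝ, 0 < ε → ∃ v : Matrix (Fin n) (Fin m) B,
    ∀ i j, ‖(v * b * v.conjTranspose - a) i j‖ < ε

variable (B) in
/-- Normalised `2`-quasitraces of `B`, given together with their (unique) extensions to all matrix
algebras: `τ(x* x) = τ(x x*) ≥ 0`, `τ(a + i b) = τ(a) + i τ(b)` for self-adjoint `a, b`, `τ` is
real-linear on commuting self-adjoint elements, `τ(a ⊕ 0) = τ(a)` and `τ(1) = 1`. -/
structure QuasiTrace where
  /-- the function on `M_n(B)` -/
  toFun : (n : ℕ) → Matrix (Fin n) (Fin n) B → ℂ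
  nonneg : ∀ (n : ℕ) (x : Matrix (Fin n) (Fin n) B),
    0 ≤ (toFun n (star x * x)).re ∧ (toFun n (star x * x)).im = 0
  trace : ∀ (n : ℕ) (x : Matrix (Fin n) (Fin n) B), toFun n (star x * x) = toFun n (x * star x)
  add_I : ∀ (n : ℕ) (a b : Matrix (Fin n) (Fin n) B), star a = a → star b = b →
    toFun n (a + Complex.I • b) = toFun n a + Complex.I * toFun n b
  add : ∀ (n : ℕ) (a b : Matrix (Fin n) (Fin n) B), star a = a → star b = b → a * b = b * a →
    toFun n (a + b) = toFun n a + toFun n b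
  smul : ∀ (n : ℕ) (t : ℝ) (a : Matrix (Fin n) (Fin n) B), star a = a →
    toFun n ((t : ℂ) • a) = t * toFun n a
  corner : ∀ (n m : ℕ) (a : Matrix (Fin n) (Fin n) B), n ≤ m → toFun m (corner m a) = toFun n a
  one : toFun 1 1 = 1

open Classical in
/-- The positive `k`-th root of a positive element of `M_n(B)` (`0` if there is none). -/
noncomputable def root {n : ℕ} (k : ℕ) (a : Matrix (Fin n) (Fin n) B) :
    Matrix (Fin n) (Fin n) B :=
  if h : ∃ c, IsPos c ∧ c ^ k = a then h.choose else 0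

/-- `d_τ(a) = lim_k τ(a^{1/k})`. -/
noncomputable def QuasiTrace.d (τ : QuasiTrace B) {n : ℕ} (a : Matrix (Fin n) (Fin n) B) : ℝ :=
  limUnder atTop fun k : ℕ => (τ.toFun n (root (k + 1) a)).re

variable (B) in
/-- The property defining the radius of comparison: `d_τ(a) + r < d_τ(b)` for all normalised
quasitraces `τ` implies `a ≾ b`, for all positive `a, b` in matrix algebras over `B`. -/
def HasComparison (r : ℝ) : Prop :=
  ∀ (n m : ℕ) (a : Matrix (Fin n) (Fin n) B) (b : Matrix (Fin m) (Fin m) B), IsPos a → IsPos b →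
    (∀ τ : QuasiTrace B, τ.d a + r < τ.d b) → CuntzLE a b

variable (B) in
/-- The radius of comparison of `B`. -/
noncomputable def rc : ℝ≥0∞ := ⨅ (r : ℝ≥0) (_ : HasComparison B r), (r : ℝ≥0∞)

/-- Covering dimension at most `n`: every finite open cover has a finite open refinement such that
every point lies in at most `n + 1` of its members. -/
def CoverDimLE (X : Type*) [TopologicalSpace X] (n : ℕ) : Prop :=
  ∀ (ι : Type) [Finite ι] (U : ι → Set X), (∀ i, IsOpen (U i)) → ⋃ i, U i = Set.univ →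
    ∃ (κ : Type) (_ : Finite κ) (V : κ → Set X), (∀ k, IsOpen (V k)) ∧ ⋃ k, V k = Set.univ ∧
      (∀ k, ∃ i, V k ⊆ U i) ∧ ∀ x, {k | x ∈ V k}.ncard ≤ n + 1

/-- The covering dimension. -/
noncomputable def coverDim (X : Type*) [TopologicalSpace X] : ℕ∞ :=
  ⨅ (n : ℕ) (_ : CoverDimLE X n), (n : ℕ∞)

end RC12
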