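import Pool.Agent.LibRC12.S1All

/-!
The two properties of `A` used in the modules (sections 0 and 1 are imported).
-/

open Filter Topology WeakDual
open scoped ENNReal NNReal ComplexOrder

set_option linter.unusedSectionVars false

namespace RC12

variable (A : Type*) [CStarAlgebra A] [PartialOrder A] [StarOrderedRing A]

/-- comparison with gap `r` in the working notation -/
def HC (r : ℝ) : Prop :=
  ∀ (n : ℕ) (a b : Mn n A), 0 ≤ a → 0 ≤ b → (∀ τ : QuasiTrace A, τ.dq a + r < τ.dq b) → Cu a b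

/-- `P_J(Z, ρ)` -/
def PJ (Z : Type*) [TopologicalSpace Z] [CompactSpace Z] (ρ : ℝ) : Prop :=
  ∀ (n : ℕ) (a b : CM Z (Mn n A)), 0 ≤ a → 0 ≤ b → (∀ z i j, (ev z a).mat i j ∈ J0 A) →
    (∀ z (τ : QuasiTrace A), τ.dq (ev z a) + ρ < τ.dq (ev z b)) → Cu a b

end RC12
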