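import Pool.Agent.LibRC12.S2Defs

/-!
S2I: norm and topology of Mn n A. ‖single i j x‖ ≤ ‖x‖: (single i j x)* (single i j x) = single j j (x* x), and
x ↦ single j j x is a non-unital *-homomorphism A → Mn n A, hence contractive (`NonUnitalStarAlgHom.norm_apply_le`);
a = ∑ single i j (a i j) (`Matrix.matrix_eq_sum_single`). Continuity: `Mn.norm_entry_le` and `Mn.norm_le_sum`
(`continuous_iff_continuousAt`, `tendsto_iff_norm_sub_tendsto_zero`, `squeeze_zero`).
-/

open Filter Topology WeakDual
open scoped ENNReal NNReal ComplexOrder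

set_option autoImplicit false
set_option linter.unusedSectionVars false

namespace RC12

variable {A : Type*} [CStarAlgebra A] [PartialOrder A] [StarOrderedRing A] {n : ℕ}

private noncomputable def S2I_hom (j : Fin n) : A →⋆ₙₐ[ℂ] Mn n A where
  toFun x := Mn.of (Matrix.single j j x)
  map_smul' c x := Mn.ext (by
    simp only [Mn.mat_smul, Mn.mat_of, Matrix.smul_single]
    rfl)
  map_zero' := Mn.ext (by simp)
  map_add' x y := Mn.ext (by simp [Matrix.single_add])
  map_mul' x y := Mn.ext (by simp)
  map_star' x := Mn.ext (by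
    simp only [Mn.mat_star, Mn.mat_of]
    rw [Matrix.star_eq_conjTranspose, Matrix.conjTranspose_single])

theorem Mn.norm_single_le (i j : Fin n) (x : A) : ‖Mn.of (Matrix.single i j x)‖ ≤ ‖x‖ := by
  have h1 : star (Mn.of (Matrix.single i j x)) * Mn.of (Matrix.single i j x) =
      S2I_hom j (star x * x) := by
    refine Mn.ext ?_
    change star (Matrix.single i j x) * Matrix.single i j x = Matrix.single j j (star x * x)
    rw [Matrix.star_eq_conjTranspose, Matrix.conjTranspose_single, Matrix.single_mul_single_same]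
  have h2 : ‖S2I_hom j (star x * x)‖ ≤ ‖star x * x‖ :=
    NonUnitalStarAlgHom.norm_apply_le (S2I_hom j) (star x * x)
  rw [← h1, CStarRing.norm_star_mul_self, CStarRing.norm_star_mul_self] at h2
  exact (mul_self_le_mul_self_iff (norm_nonneg _) (norm_nonneg _)).mpr h2

private theorem S2I_mat_sum {ι : Type*} (s : Finset ι) (f : ι → Mn n A) :
    (∑ i ∈ s, f i).mat = ∑ i ∈ s, (f i).mat := by
  classical
  induction s using Finset.induction_on with
  | empty => simp
  | insert i s hi ih => rw [Finset.sum_insert hi, Finset.sum_insert hi, Mn.mat_add, ih]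

theorem Mn.norm_le_sum (a : Mn n A) : ‖a‖ ≤ ∑ i, ∑ j, ‖a.mat i j‖ := by
  have h1 : a = ∑ i, ∑ j, Mn.of (Matrix.single i j (a.mat i j)) := by
    refine Mn.ext ?_
    rw [S2I_mat_sum]
    simp only [S2I_mat_sum, Mn.mat_of]
    exact Matrix.matrix_eq_sum_single a.mat
  nth_rewrite 1 [h1]
  refine (norm_sum_le _ _).trans (Finset.sum_le_sum fun i _ => ?_)
  refine (norm_sum_le _ _).trans (Finset.sum_le_sum fun j _ => ?_)
  exact Mn.norm_single_le i j _

private theorem S2I_entry (i j : Fin n) : Continuous fun a : Mn n A => a.mat i j := by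
  rw [continuous_iff_continuousAt]
  intro a0
  unfold ContinuousAt
  rw [tendsto_iff_norm_sub_tendsto_zero]
  refine squeeze_zero (fun _ => norm_nonneg _) (g := fun a => ‖a - a0‖) (fun a => ?_) ?_
  · exact Mn.norm_entry_le (a - a0) i j
  · rw [← tendsto_iff_norm_sub_tendsto_zero]
    exact tendsto_id

theorem Mn.continuous_iff {X : Type*} [TopologicalSpace X] {f : X → Mn n A} :
    Continuous f ↔ ∀ i j, Continuous fun x => (f x).mat i j := by
  constructor
  · intro hf i j
    exact (S2I_entry i j).comp hf
  · intro h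
    rw [continuous_iff_continuousAt]
    intro x0
    unfold ContinuousAt
    rw [tendsto_iff_norm_sub_tendsto_zero]
    refine squeeze_zero (fun _ => norm_nonneg _)
      (g := fun x => ∑ i, ∑ j, ‖(f x).mat i j - (f x0).mat i j‖) (fun x => ?_) ?_
    · exact Mn.norm_le_sum (f x - f x0)
    · have h2 : (0 : ℝ) = ∑ _i : Fin n, ∑ _j : Fin n, (0 : ℝ) := by simp
      rw [h2]
      refine tendsto_finsetSum _ fun i _ => tendsto_finsetSum _ fun j _ => ?_
      rw [← tendsto_iff_norm_sub_tendsto_zero]
      exact (h i j).continuousAt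

end RC12
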