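import Pool.Agent.LibRC12.S2L
import Pool.Agent.LibRC12.S2I

/-!
S2M: the exported statements for matrices; entrywise from `continuous_pairing`, `pairing_dense` (with η / (N² + 1)) and
`Mn.continuous_iff`, `Mn.norm_le_sum`. ((evc φ a).mat i j = φ (a.mat i j) is `evc_mat`.)
-/

open Filter Topology WeakDual
open scoped ENNReal NNReal ComplexOrder

set_option autoImplicit false
set_option linter.unusedSectionVars false

namespace RC12

variable {A : Type*} [CStarAlgebra A] [PartialOrder A] [StarOrderedRing A]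

/-- (7.5) lifting -/
theorem lift_main {X : Type*} [TopologicalSpace X] [CompactSpace X] [T2Space X] {N : ℕ}
    (V : CM (X × characterSpace ℂ A) (Mn N ℂ)) {η : ℝ} (hη : 0 < η) :
    ∃ W : CM X (Mn N A), ∀ x φ, ‖evc φ (ev x W) - ev (x, φ) V‖ ≤ η := by
  have hN : (0 : ℝ) < (N : ℝ) * N + 1 := by positivity
  have hη' : 0 < η / ((N : ℝ) * N + 1) := div_pos hη hN
  have hVc : ∀ i j, Continuous fun p : X × characterSpace ℂ A => (ev p V).mat i j :=
    Mn.continuous_iff.1 (continuous_ev V)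
  choose G hG using fun (i j : Fin N) => pairing_dense (A := A) (X := X)
    (⟨_, hVc i j⟩ : C(X × characterSpace ℂ A, ℂ)) hη'
  have hWc : Continuous fun x : X => (Mn.of (Matrix.of fun i j => G i j x) : Mn N A) :=
    Mn.continuous_iff.2 fun i j => (G i j).continuous
  refine ⟨CM.mk ⟨_, hWc⟩, fun x φ => ?_⟩
  refine (Mn.norm_le_sum _).trans ?_
  have h1 : ∀ i j, ‖(evc φ (ev x (CM.mk ⟨_, hWc⟩)) - ev (x, φ) V).mat i j‖ ≤
      η / ((N : ℝ) * N + 1) := by
    intro i j
    have h2 := hG i j x φ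
    exact h2
  calc ∑ i, ∑ j, ‖(evc φ (ev x (CM.mk ⟨_, hWc⟩)) - ev (x, φ) V).mat i j‖
      ≤ ∑ _i : Fin N, ∑ _j : Fin N, η / ((N : ℝ) * N + 1) :=
        Finset.sum_le_sum fun i _ => Finset.sum_le_sum fun j _ => h1 i j
    _ = (N : ℝ) * N * (η / ((N : ℝ) * N + 1)) := by
        simp only [Finset.sum_const, Finset.card_univ, Fintype.card_fin, nsmul_eq_mul]
        ring
    _ ≤ ((N : ℝ) * N + 1) * (η / ((N : ℝ) * N + 1)) := by
        refine mul_le_mul_of_nonneg_right ?_ hη'.le
        linarith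
    _ = η := mul_div_cancel₀ _ hN.ne'

/-- evaluation of an element of `C(X, M_n(A))` on `X × characters` -/
theorem exists_evc {X : Type*} [TopologicalSpace X] [CompactSpace X] [T2Space X] {N : ℕ}
    (a : CM X (Mn N A)) : ∃ a' : CM (X × characterSpace ℂ A) (Mn N ℂ),
      ∀ x φ, ev (x, φ) a' = evc φ (ev x a) := by
  have hc : Continuous fun p : X × characterSpace ℂ A => (evc p.2 (ev p.1 a) : Mn N ℂ) := by
    refine Mn.continuous_iff.2 fun i j => ?_
    exact continuous_pairing (Mn.continuous_iff.1 (continuous_ev a) i j)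
  exact ⟨CM.mk ⟨_, hc⟩, fun x φ => rfl⟩

end RC12
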