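import Pool.Agent.LibRC12.Core

/-!
S2N: covering dimension ≤ d gives partitions of unity. Take V_κ, choose i(κ) : Fin k with V_κ ⊆ U_i(κ), W_i = ⋃_{i(κ) = i} V_κ (open cover,
W_i ⊆ U_i, #{i : x ∈ W_i} ≤ #{κ : x ∈ V_κ} ≤ d + 1), and a partition of unity subordinate to W
(`PartitionOfUnity.exists_isSubordinate isClosed_univ`, X is normal; `IsSubordinate`: tsupport ⊆ W i, `subset_tsupport`;
`PartitionOfUnity.sum_eq_one`, `finsum_eq_sum_of_fintype`).
-/

open Filter Topology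
open scoped ENNReal NNReal ComplexOrder

set_option autoImplicit false
set_option linter.unusedSectionVars false

namespace RC12

theorem pu_of_coverDimLE {X : Type*} [TopologicalSpace X] [CompactSpace X] [T2Space X] {d : ℕ}
    (h : CoverDimLE X d) : POrd (d + 1) X := by
  classical
  intro k U hU hUc
  obtain ⟨κ, hκ, V, hV, hVc, hVU, hcard⟩ := h (Fin k) U hU hUc
  choose i hi using hVU
  let W : Fin k → Set X := fun j => ⋃ (c : κ) (_ : i c = j), V c
  have hW : ∀ j, IsOpen (W j) := fun j => isOpen_iUnion fun c => isOpen_iUnion fun _ => hV c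
  have hWc : (Set.univ : Set X) ⊆ ⋃ j, W j := by
    intro x _
    have hx : x ∈ ⋃ c, V c := by rw [hVc]; trivial
    obtain ⟨c, hc⟩ := Set.mem_iUnion.1 hx
    exact Set.mem_iUnion.2 ⟨i c, Set.mem_iUnion.2 ⟨c, Set.mem_iUnion.2 ⟨rfl, hc⟩⟩⟩
  obtain ⟨f, hf⟩ := PartitionOfUnity.exists_isSubordinate isClosed_univ W hW hWc
  have hfW : ∀ j y, f j y ≠ 0 → y ∈ W j := fun j y hy => hf j (subset_tsupport _ hy)
  refine ⟨fun j => f j, fun j y => f.nonneg j y, fun y => ?_, fun j y hy => ?_, fun y => ?_⟩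
  · have := f.sum_eq_one (Set.mem_univ y)
    rwa [finsum_eq_sum_of_fintype] at this
  · obtain ⟨c, hc⟩ := Set.mem_iUnion.1 (hfW j y hy)
    obtain ⟨hc1, hc2⟩ := Set.mem_iUnion.1 hc
    rw [← hc1]
    exact hi c hc2
  · have h1 : ∀ j, f j y ≠ 0 → ∃ c, i c = j ∧ y ∈ V c := by
      intro j hj
      obtain ⟨c, hc⟩ := Set.mem_iUnion.1 (hfW j y hj)
      obtain ⟨hc1, hc2⟩ := Set.mem_iUnion.1 hc
      exact ⟨c, hc1, hc2⟩
    have h2 : ((Finset.univ.filter fun j => f j y ≠ 0 : Finset (Fin k)) : Set (Fin k)) ⊆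
        i '' {c | y ∈ V c} := by
      intro j hj
      rw [Finset.coe_filter] at hj
      obtain ⟨c, hc1, hc2⟩ := h1 j hj.2
      exact ⟨c, hc2, hc1⟩
    have h3 : ({c | y ∈ V c} : Set κ).Finite := Set.toFinite _
    calc (Finset.univ.filter fun j => f j y ≠ 0).card
        = ((Finset.univ.filter fun j => f j y ≠ 0 : Finset (Fin k)) : Set (Fin k)).ncard :=
          (Set.ncard_coe_finset _).symm
      _ ≤ (i '' {c | y ∈ V c}).ncard := Set.ncard_le_ncard h2 (h3.image _)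
      _ ≤ ({c | y ∈ V c} : Set κ).ncard := Set.ncard_image_le h3
      _ ≤ d + 1 := hcard y

end RC12
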