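import Pool.Agent.LibRC12.S4H

/-!
# [S4J] the map of `X` to a product of stars

`h_s(x) = max 0 (min_{l ∈ s} φ_l(x) - max_{l ∉ s} φ_l(x))`, `s` nonempty; for `|s| = |s'|`,
`s ≠ s'` the product `h_s h_s'` is `0`; for `s` the support of `φ(x)`, `h_s(x) > 0`.
`f x i s = h_s(x)` if `|s| = i + 1`, else `0`. To avoid `Finset.inf'`: one may use the product
formula `h_s = ∏_{l ∈ s, l' ∉ s} max 0 (φ_l - φ_l') * ∏_{l ∈ s} φ_l`, which is clamped to `[0,1]`,
has the same properties.
-/

open Filter Topology WeakDual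
open scoped ENNReal NNReal ComplexOrder

set_option linter.unusedSectionVars false

namespace RC12.S4

/-- The bump function of a finite set `s` of indices. -/
private noncomputable def S4J_h {X : Type*} [TopologicalSpace X] {k : ℕ} (φ : Fin k → C(X, ℝ))
    (s : Finset (Fin k)) (x : X) : ℝ :=
  (∏ l ∈ s, ∏ l' ∈ sᶜ, max 0 (φ l x - φ l' x)) * ∏ l ∈ s, φ l x

private theorem S4J_continuous {X : Type*} [TopologicalSpace X] {k : ℕ} (φ : Fin k → C(X, ℝ))
    (s : Finset (Fin k)) : Continuous (S4J_h φ s) := by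
  unfold S4J_h
  refine Continuous.mul ?_ ?_
  · refine continuous_finsetProd _ fun l _ => continuous_finsetProd _ fun l' _ => ?_
    exact continuous_const.max ((φ l).continuous.sub (φ l').continuous)
  · exact continuous_finsetProd _ fun l _ => (φ l).continuous

private theorem S4J_nonneg {X : Type*} [TopologicalSpace X] {k : ℕ} {φ : Fin k → C(X, ℝ)}
    (h0 : ∀ i x, 0 ≤ φ i x) (s : Finset (Fin k)) (x : X) : 0 ≤ S4J_h φ s x := by
  unfold S4J_h
  refine mul_nonneg ?_ ?_
  · exact Finset.prod_nonneg fun l _ => Finset.prod_nonneg fun l' _ => le_max_left _ _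
  · exact Finset.prod_nonneg fun l _ => h0 l x

private theorem S4J_le_one {X : Type*} [TopologicalSpace X] {k : ℕ} {φ : Fin k → C(X, ℝ)}
    (h0 : ∀ i x, 0 ≤ φ i x) (h1 : ∀ i x, φ i x ≤ 1) (s : Finset (Fin k)) (x : X) :
    S4J_h φ s x ≤ 1 := by
  unfold S4J_h
  refine mul_le_one₀ ?_ (Finset.prod_nonneg fun l _ => h0 l x) ?_
  · refine Finset.prod_le_one (fun l _ => Finset.prod_nonneg fun l' _ => le_max_left _ _)
      fun l _ => Finset.prod_le_one (fun l' _ => le_max_left _ _) fun l' _ => ?_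
    exact max_le zero_le_one (by linarith [h1 l x, h0 l' x])
  · exact Finset.prod_le_one (fun l _ => h0 l x) fun l _ => h1 l x

private theorem S4J_ne {X : Type*} [TopologicalSpace X] {k : ℕ} {φ : Fin k → C(X, ℝ)}
    {s : Finset (Fin k)} {x : X} (h : S4J_h φ s x ≠ 0) {l : Fin k} (hl : l ∈ s) :
    φ l x ≠ 0 := by
  unfold S4J_h at h
  exact Finset.prod_ne_zero_iff.1 (right_ne_zero_of_mul h) l hl

private theorem S4J_lt {X : Type*} [TopologicalSpace X] {k : ℕ} {φ : Fin k → C(X, ℝ)}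
    {s : Finset (Fin k)} {x : X} (h : S4J_h φ s x ≠ 0) {l l' : Fin k} (hl : l ∈ s)
    (hl' : l' ∉ s) : φ l' x < φ l x := by
  unfold S4J_h at h
  have h1 := Finset.prod_ne_zero_iff.1 (left_ne_zero_of_mul h) l hl
  have h2 := Finset.prod_ne_zero_iff.1 h1 l' (Finset.mem_compl.2 hl')
  by_contra h3
  exact h2 (max_eq_left (by linarith [not_lt.1 h3]))

private theorem S4J_disj {X : Type*} [TopologicalSpace X] {k : ℕ} {φ : Fin k → C(X, ℝ)}
    {s s' : Finset (Fin k)} (hc : s.card = s'.card) (hne : s ≠ s') (x : X) :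
    S4J_h φ s x = 0 ∨ S4J_h φ s' x = 0 := by
  by_contra hcon
  rw [not_or] at hcon
  obtain ⟨l, hl, hl'⟩ : ∃ l ∈ s, l ∉ s' := by
    by_contra h
    push Not at h
    exact hne (Finset.eq_of_subset_of_card_le h hc.symm.le)
  obtain ⟨m, hm, hm'⟩ : ∃ l ∈ s', l ∉ s := by
    by_contra h
    push Not at h
    exact hne (Finset.eq_of_subset_of_card_le h hc.le).symm
  exact lt_asymm (S4J_lt hcon.1 hl hm') (S4J_lt hcon.2 hm hl')

theorem exists_star_map {X : Type*} [TopologicalSpace X] {k d : ℕ} (φ : Fin k → C(X, ℝ))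
    (h0 : ∀ i x, 0 ≤ φ i x) (h1 : ∀ x, ∑ i, φ i x = 1)
    (hd : ∀ x, (Finset.univ.filter fun i => φ i x ≠ 0).card ≤ d + 1) :
    ∃ f : C(X, Fin (d + 1) → Tm (Finset (Fin k))),
      (∀ x i s l, l ∈ s → (f x i).1 s ≠ 0 → φ l x ≠ 0) ∧
      ∀ x, ∃ i s, s.Nonempty ∧ (f x i).1 s ≠ 0 := by
  classical
  have hle : ∀ i x, φ i x ≤ 1 := by
    intro i x
    rw [← h1 x]
    exact Finset.single_le_sum (f := fun i => φ i x) (fun j _ => h0 j x) (Finset.mem_univ i)
  have hT : ∀ (x : X) (i : Fin (d + 1)),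
      (∀ s : Finset (Fin k), 0 ≤ (if s.card = (i : ℕ) + 1 then S4J_h φ s x else 0) ∧
        (if s.card = (i : ℕ) + 1 then S4J_h φ s x else 0) ≤ 1) ∧
      ∀ s s' : Finset (Fin k), s ≠ s' →
        (if s.card = (i : ℕ) + 1 then S4J_h φ s x else 0) = 0 ∨
        (if s'.card = (i : ℕ) + 1 then S4J_h φ s' x else 0) = 0 := by
    intro x i
    refine ⟨fun s => ?_, fun s s' hs => ?_⟩
    · split_ifs
      · exact ⟨S4J_nonneg h0 s x, S4J_le_one h0 hle s x⟩
      · exact ⟨le_rfl, zero_le_one⟩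
    · by_cases hs1 : s.card = (i : ℕ) + 1
      · by_cases hs2 : s'.card = (i : ℕ) + 1
        · rw [if_pos hs1, if_pos hs2]
          exact S4J_disj (hs1.trans hs2.symm) hs x
        · right
          rw [if_neg hs2]
      · left
        rw [if_neg hs1]
  refine ⟨⟨fun x i => ⟨fun s => if s.card = (i : ℕ) + 1 then S4J_h φ s x else 0, hT x i⟩,
    continuous_pi fun i => continuous_mk (continuous_pi fun s => ?_)⟩, ?_, ?_⟩
  · change Continuous fun x => if s.card = (i : ℕ) + 1 then S4J_h φ s x else 0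
    split_ifs
    · exact S4J_continuous φ s
    · exact continuous_const
  · intro x i s l hl hne
    change (if s.card = (i : ℕ) + 1 then S4J_h φ s x else 0) ≠ 0 at hne
    by_cases hs : s.card = (i : ℕ) + 1
    · rw [if_pos hs] at hne
      exact S4J_ne hne hl
    · rw [if_neg hs] at hne
      exact absurd rfl hne
  · intro x
    set s : Finset (Fin k) := Finset.univ.filter fun i => φ i x ≠ 0 with hs
    have hsne : s.Nonempty := by
      by_contra h
      rw [Finset.not_nonempty_iff_eq_empty] at h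
      have h2 : ∀ i, φ i x = 0 := by
        intro i
        by_contra h3
        have : i ∈ s := by
          rw [hs]
          simp [h3]
        rw [h] at this
        simp at this
      have h3 := h1 x
      rw [Finset.sum_eq_zero fun i _ => h2 i] at h3
      exact zero_ne_one h3
    have hpos : 0 < s.card := Finset.card_pos.2 hsne
    have hcd : s.card ≤ d + 1 := hd x
    refine ⟨⟨s.card - 1, by omega⟩, s, hsne, ?_⟩
    change (if s.card = (s.card - 1) + 1 then S4J_h φ s x else 0) ≠ 0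
    rw [if_pos (by omega)]
    unfold S4J_h
    have hφ : ∀ l ∈ s, 0 < φ l x := fun l hl =>
      lt_of_le_of_ne (h0 l x) (Ne.symm (Finset.mem_filter.1 hl).2)
    refine mul_ne_zero ?_ ?_
    · refine Finset.prod_ne_zero_iff.2 fun l hl => Finset.prod_ne_zero_iff.2 fun l' hl' => ?_
      have h2 : φ l' x = 0 := by
        by_contra h3
        exact (Finset.mem_compl.1 hl') (Finset.mem_filter.2 ⟨Finset.mem_univ _, h3⟩)
      rw [h2, sub_zero, max_eq_right (h0 l x)]
      exact (hφ l hl).ne'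
    · exact Finset.prod_ne_zero_iff.2 fun l hl => (hφ l hl).ne'

/-- the functions `χ_l` on `Z = ∏ Tm`: continuous, `≥ 0`, sum `≤ 1` and `= 1` on `f(X)`,
`χ_l (f x) ≠ 0 → φ_l x ≠ 0`. (`ψ_l(z) = ∑_{i, s ∋ l} z_i(s)`, `Ψ = ∑ ψ_l`, `Ψ ≥ c > 0` on the compact set
`f(X)`; `χ_l = ψ_l / max(Ψ, c)`. If `X` is empty take `c = 1`.) -/
theorem exists_chi {X : Type*} [TopologicalSpace X] [CompactSpace X] {k d : ℕ}
    (φ : Fin k → C(X, ℝ)) (f : C(X, Fin (d + 1) → Tm (Finset (Fin k))))
    (hf1 : ∀ x i s l, l ∈ s → (f x i).1 s ≠ 0 → φ l x ≠ 0)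
    (hf2 : ∀ x, ∃ i s, s.Nonempty ∧ (f x i).1 s ≠ 0) :
    ∃ χ : Fin k → C(Fin (d + 1) → Tm (Finset (Fin k)), ℝ), (∀ l z, 0 ≤ χ l z) ∧
      (∀ z, ∑ l, χ l z ≤ 1) ∧ (∀ x, ∑ l, χ l (f x) = 1) ∧ ∀ l x, χ l (f x) ≠ 0 → φ l x ≠ 0 := by
  classical
  let ψ : Fin k → (Fin (d + 1) → Tm (Finset (Fin k))) → ℝ := fun l z =>
    ∑ i, ∑ s : Finset (Fin k), if l ∈ s then (z i).1 s else 0
  have hψc : ∀ l, Continuous (ψ l) := by
    intro l
    refine continuous_finsetSum _ fun i _ => continuous_finsetSum _ fun s _ => ?_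
    split_ifs
    · exact (continuous_apply s).comp (continuous_val.comp (continuous_apply i))
    · exact continuous_const
  have hterm : ∀ (l : Fin k) (z : Fin (d + 1) → Tm (Finset (Fin k))) (i : Fin (d + 1))
      (s : Finset (Fin k)), 0 ≤ (if l ∈ s then (z i).1 s else 0) := by
    intro l z i s
    split_ifs
    · exact ((z i).2.1 s).1
    · exact le_rfl
  have hψ0 : ∀ l z, 0 ≤ ψ l z := fun l z =>
    Finset.sum_nonneg fun i _ => Finset.sum_nonneg fun s _ => hterm l z i s
  let Ψ : (Fin (d + 1) → Tm (Finset (Fin k))) → ℝ := fun z => ∑ l, ψ l z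
  have hΨc : Continuous Ψ := continuous_finsetSum _ fun l _ => hψc l
  have hΨpos : ∀ x, 0 < Ψ (f x) := by
    intro x
    obtain ⟨i, s, ⟨l, hl⟩, hne⟩ := hf2 x
    refine Finset.sum_pos' (fun l _ => hψ0 l _) ⟨l, Finset.mem_univ _, ?_⟩
    refine Finset.sum_pos' (fun i _ => Finset.sum_nonneg fun s _ => hterm l _ i s)
      ⟨i, Finset.mem_univ _, ?_⟩
    refine Finset.sum_pos' (fun s _ => hterm l _ i s) ⟨s, Finset.mem_univ _, ?_⟩
    rw [if_pos hl]
    exact lt_of_le_of_ne ((f x i).2.1 s).1 (Ne.symm hne)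
  obtain ⟨c, hc, hcle⟩ : ∃ c : ℝ, 0 < c ∧ ∀ x, c ≤ Ψ (f x) := by
    rcases isEmpty_or_nonempty X with hX | hX
    · exact ⟨1, one_pos, fun x => (hX.false x).elim⟩
    · obtain ⟨x0, -, hx0⟩ := isCompact_univ.exists_isMinOn (s := (Set.univ : Set X))
        Set.univ_nonempty (hΨc.comp f.continuous).continuousOn
      exact ⟨Ψ (f x0), hΨpos x0, fun x => hx0 (Set.mem_univ x)⟩
  have hmax : ∀ z, 0 < max (Ψ z) c := fun z => lt_max_of_lt_right hc
  refine ⟨fun l => ⟨fun z => ψ l z / max (Ψ z) c,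
    (hψc l).div (hΨc.max continuous_const) fun z => (hmax z).ne'⟩, ?_, ?_, ?_, ?_⟩
  · intro l z
    exact div_nonneg (hψ0 l z) (hmax z).le
  · intro z
    change ∑ l, ψ l z / max (Ψ z) c ≤ 1
    rw [← Finset.sum_div, div_le_one (hmax z)]
    exact le_max_left _ _
  · intro x
    change ∑ l, ψ l (f x) / max (Ψ (f x)) c = 1
    rw [← Finset.sum_div, max_eq_left (hcle x)]
    exact div_self (hΨpos x).ne'
  · intro l x hne
    change ψ l (f x) / max (Ψ (f x)) c ≠ 0 at hne
    have h1 : ψ l (f x) ≠ 0 := fun h => hne (by rw [h, zero_div])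
    obtain ⟨i, -, hi⟩ := Finset.exists_ne_zero_of_sum_ne_zero h1
    obtain ⟨s, -, hs⟩ := Finset.exists_ne_zero_of_sum_ne_zero hi
    by_cases hl : l ∈ s
    · rw [if_pos hl] at hs
      exact hf1 x i s l hl hs
    · rw [if_neg hl] at hs
      exact absurd rfl hs

/-- a function vanishing exactly on the image: distance to `f(X)` in the ambient space of real
functions -/
theorem exists_G {X : Type*} [TopologicalSpace X] [CompactSpace X] {κ : Type*} [Fintype κ] {d : ℕ}
    (f : C(X, Fin d → Tm κ)) : ∃ G : C(Fin d → Tm κ, ℝ), (∀ z, 0 ≤ G z) ∧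
      (∀ x, G (f x) = 0) ∧ ∀ z, z ∉ Set.range f → 0 < G z := by
  rcases isEmpty_or_nonempty X with hX | hX
  · exact ⟨ContinuousMap.const _ 1, fun _ => zero_le_one, fun x => (hX.false x).elim,
      fun _ _ => one_pos⟩
  · let e : (Fin d → Tm κ) → (Fin d → κ → ℝ) := fun z i => (z i).1
    have he : Continuous e := continuous_pi fun i => continuous_val.comp (continuous_apply i)
    have hinj : Function.Injective e := by
      intro z z' h
      funext i
      exact Subtype.ext (congrFun h i)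
    have hcomp : IsCompact (Set.range fun x => e (f x)) := isCompact_range (he.comp f.continuous)
    have hne : (Set.range fun x => e (f x)).Nonempty := Set.range_nonempty _
    refine ⟨⟨fun z => Metric.infDist (e z) (Set.range fun x => e (f x)),
      (Metric.continuous_infDist_pt _).comp he⟩, fun z => Metric.infDist_nonneg, fun x => ?_,
      fun z hz => ?_⟩
    · exact Metric.infDist_zero_of_mem ⟨x, rfl⟩
    · change 0 < Metric.infDist (e z) (Set.range fun x => e (f x))
      rw [← hcomp.isClosed.notMem_iff_infDist_pos hne]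
      rintro ⟨x, hx⟩
      exact hz ⟨x, hinj hx⟩

end RC12.S4
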