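import Pool.Agent.LibRC12.S4E

/-!
# [S4K] tools for (4.6): covers, convex combinations, blocks, corners

The topology of `Mn n A` is the product topology of the entries (`CStarMatrix`), so continuity of
`z ↦ blk (a z) (b z)` is entrywise. `blk_nonneg`: `a = x* x`, `b = y* y` gives
`blk a b = (blk x y)* (blk x y)`. `norm_ul_le`: `ul v = ι* v ι`; in square matrices:
`‖ul m v‖ = ‖cor (n+m) (ul m v)‖ = ‖p v p‖ ≤ ‖v‖`, `p = blk 1 0`, and `‖blk a 0‖ = ‖a‖` because
`a ↦ blk a 0` is an injective (non-unital) `*`-homomorphism (`NonUnitalStarAlgHom.norm_map`).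
-/

open Filter Topology WeakDual
open scoped ENNReal NNReal ComplexOrder

set_option linter.unusedSectionVars false

namespace RC12.S4

variable {A : Type*} [CStarAlgebra A] [PartialOrder A] [StarOrderedRing A]

/-- `‖x - y‖ ≤ s` gives `(x - (s + t))_+ ≾ (y - t)_+` -/
theorem cu_cut_cut {M : Type*} [CStarAlgebra M] [PartialOrder M] [StarOrderedRing M] {x y : M}
    (hx : 0 ≤ x) (hy : 0 ≤ y) {s t : ℝ} (hs : 0 < s) (ht : 0 ≤ t) (h : ‖x - y‖ ≤ s) :
    Cu (cut (s + t) x) (cut t y) := by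
  have hc : 0 ≤ cut t y := cfc_nonneg fun _ _ => le_max_right _ _
  refine cu_cut hc hx (by linarith) ?_
  have h1 : x ≤ y + algebraMap ℝ M s :=
    le_add_of_norm_sub_le (IsSelfAdjoint.of_nonneg hx) (IsSelfAdjoint.of_nonneg hy) h
  have h2 : y ≤ cut t y + algebraMap ℝ M t := by
    refine le_add_of_norm_sub_le (IsSelfAdjoint.of_nonneg hy) (IsSelfAdjoint.of_nonneg hc) ?_
    rw [norm_sub_rev]
    exact norm_cut_sub_le ht hy
  refine h1.trans ((add_le_add_left h2 _).trans (le_of_eq ?_))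
  rw [map_add]
  abel

/-- the cover -/
theorem exists_cover {X : Type*} [TopologicalSpace X] [CompactSpace X] {E F : Type*}
    [NormedAddCommGroup E] [NormedAddCommGroup F] (a : C(X, E)) (b : C(X, F)) {ε δ : ℝ}
    (hε : 0 < ε) (hδ : 0 < δ) : ∃ (k : ℕ) (U : Fin k → Set X) (p : Fin k → X),
      (∀ i, IsOpen (U i)) ∧ (⋃ i, U i) = Set.univ ∧
      ∀ i, ∀ x ∈ U i, ‖a x - a (p i)‖ ≤ ε ∧ ‖b x - b (p i)‖ ≤ δ := by
  classical
  set U : X → Set X := fun q => {x | ‖a x - a q‖ < ε} ∩ {x | ‖b x - b q‖ < δ} with hU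
  have hUo : ∀ q, IsOpen (U q) := fun q =>
    (isOpen_lt (a.continuous.sub continuous_const).norm continuous_const).inter
      (isOpen_lt (b.continuous.sub continuous_const).norm continuous_const)
  have hUm : ∀ q, U q ∈ 𝓝 q := fun q => (hUo q).mem_nhds (by simp [hU, hε, hδ])
  obtain ⟨t, ht⟩ := CompactSpace.elim_nhds_subcover U hUm
  refine ⟨t.card, fun i => U (t.equivFin.symm i), fun i => (t.equivFin.symm i : X),
    fun i => hUo _, ?_, ?_⟩
  · refine Set.eq_univ_of_forall fun x => ?_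
    have hx : x ∈ ⋃ q ∈ t, U q := by
      rw [ht]
      exact Set.mem_univ x
    simp only [Set.mem_iUnion] at hx ⊢
    obtain ⟨q, hq, hx⟩ := hx
    exact ⟨t.equivFin ⟨q, hq⟩, by rw [Equiv.symm_apply_apply]; exact hx⟩
  · intro i x hx
    exact ⟨le_of_lt hx.1, le_of_lt hx.2⟩

/-- convex combinations -/
theorem norm_sum_sub_le {E : Type*} [NormedAddCommGroup E] [NormedSpace ℝ E] {k : ℕ}
    (c : Fin k → ℝ) (hc : ∀ i, 0 ≤ c i) (h1 : ∑ i, c i = 1) (x : Fin k → E) (y : E) {ε : ℝ}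
    (h : ∀ i, c i ≠ 0 → ‖y - x i‖ ≤ ε) : ‖∑ i, c i • x i - y‖ ≤ ε := by
  have h2 : ∑ i, c i • x i - y = ∑ i, c i • (x i - y) := by
    simp_rw [smul_sub, Finset.sum_sub_distrib, ← Finset.sum_smul]
    rw [h1, one_smul]
  rw [h2]
  calc ‖∑ i, c i • (x i - y)‖ ≤ ∑ i, ‖c i • (x i - y)‖ := norm_sum_le _ _
    _ ≤ ∑ i, c i * ε := by
        refine Finset.sum_le_sum fun i _ => ?_
        rw [norm_smul, Real.norm_of_nonneg (hc i)]
        by_cases h0 : c i = 0
        · rw [h0, zero_mul, zero_mul]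
        · refine mul_le_mul_of_nonneg_left ?_ (hc i)
          rw [norm_sub_rev]
          exact h i h0
    _ = ε := by rw [← Finset.sum_mul, h1, one_mul]

private theorem continuous_mat {n : ℕ} : Continuous (Mn.mat : Mn n A → Matrix (Fin n) (Fin n) A) :=
  continuous_id

private theorem continuous_of {n : ℕ} : Continuous (Mn.of : Matrix (Fin n) (Fin n) A → Mn n A) :=
  continuous_id

private theorem continuous_blkC {Z : Type*} [TopologicalSpace Z] [CompactSpace Z] {n m : ℕ}
    (a : CM Z (Mn n A)) (b : CM Z (Mn m A)) :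
    Continuous fun z => blk (ev z a) (ev z b) := by
  refine continuous_of.comp ?_
  refine Continuous.matrix_reindex ?_ _ _
  exact Continuous.matrix_fromBlocks (continuous_mat.comp (continuous_ev a)) continuous_const
    continuous_const (continuous_mat.comp (continuous_ev b))

/-- block matrices over `C(Z, ·)` -/
noncomputable def blkC {Z : Type*} [TopologicalSpace Z] [CompactSpace Z] {n m : ℕ}
    (a : CM Z (Mn n A)) (b : CM Z (Mn m A)) : CM Z (Mn (n + m) A) :=
  CM.mk ⟨fun z => blk (ev z a) (ev z b), continuous_blkC a b⟩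

@[simp] theorem ev_blkC {Z : Type*} [TopologicalSpace Z] [CompactSpace Z] {n m : ℕ}
    (a : CM Z (Mn n A)) (b : CM Z (Mn m A)) (z : Z) :
    ev z (blkC a b) = blk (ev z a) (ev z b) := rfl

private theorem blk_mul {n m : ℕ} (a a' : Mn n A) (b b' : Mn m A) :
    blk a b * blk a' b' = blk (a * a') (b * b') := by
  refine Mn.ext ?_
  rw [Mn.mat_mul]
  show Matrix.reindex finSumFinEquiv finSumFinEquiv (Matrix.fromBlocks a.mat 0 0 b.mat) *
    Matrix.reindex finSumFinEquiv finSumFinEquiv (Matrix.fromBlocks a'.mat 0 0 b'.mat) =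
    Matrix.reindex finSumFinEquiv finSumFinEquiv (Matrix.fromBlocks (a.mat * a'.mat) 0 0
      (b.mat * b'.mat))
  rw [Matrix.reindex_apply, Matrix.reindex_apply, Matrix.reindex_apply,
    Matrix.submatrix_mul_equiv, Matrix.fromBlocks_multiply]
  simp

private theorem blk_star {n m : ℕ} (a : Mn n A) (b : Mn m A) :
    star (blk a b) = blk (star a) (star b) := by
  refine Mn.ext ?_
  rw [Mn.mat_star]
  show star (Matrix.reindex finSumFinEquiv finSumFinEquiv (Matrix.fromBlocks a.mat 0 0 b.mat)) =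
    Matrix.reindex finSumFinEquiv finSumFinEquiv (Matrix.fromBlocks (star a.mat) 0 0 (star b.mat))
  rw [Matrix.reindex_apply, Matrix.reindex_apply, Matrix.star_eq_conjTranspose,
    Matrix.conjTranspose_submatrix, Matrix.fromBlocks_conjTranspose]
  simp [Matrix.star_eq_conjTranspose]

theorem blk_nonneg {n m : ℕ} {a : Mn n A} {b : Mn m A} (ha : 0 ≤ a) (hb : 0 ≤ b) :
    0 ≤ blk a b := by
  obtain ⟨x, rfl⟩ := CStarAlgebra.nonneg_iff_eq_star_mul_self.1 ha
  obtain ⟨y, rfl⟩ := CStarAlgebra.nonneg_iff_eq_star_mul_self.1 hb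
  rw [← blk_mul, ← blk_star]
  exact star_mul_self_nonneg _

/-- the upper left corner -/
def ul {n : ℕ} (m : ℕ) (v : Mn (n + m) A) : Mn n A :=
  Mn.of (fun i j => v.mat (Fin.castAdd m i) (Fin.castAdd m j))

private theorem blk_ll {n m : ℕ} (a : Mn n A) (b : Mn m A) (i j : Fin n) :
    (blk a b).mat (Fin.castAdd m i) (Fin.castAdd m j) = a.mat i j := by
  show Matrix.fromBlocks a.mat 0 0 b.mat (finSumFinEquiv.symm (Fin.castAdd m i))
    (finSumFinEquiv.symm (Fin.castAdd m j)) = a.mat i j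
  rw [finSumFinEquiv_symm_apply_castAdd, finSumFinEquiv_symm_apply_castAdd]
  rfl

private theorem blk_lr {n m : ℕ} (a : Mn n A) (b : Mn m A) (i : Fin n) (j : Fin m) :
    (blk a b).mat (Fin.castAdd m i) (Fin.natAdd n j) = 0 := by
  show Matrix.fromBlocks a.mat 0 0 b.mat (finSumFinEquiv.symm (Fin.castAdd m i))
    (finSumFinEquiv.symm (Fin.natAdd n j)) = 0
  rw [finSumFinEquiv_symm_apply_castAdd, finSumFinEquiv_symm_apply_natAdd]
  rfl

private theorem blk_rl {n m : ℕ} (a : Mn n A) (b : Mn m A) (i : Fin m) (j : Fin n) :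
    (blk a b).mat (Fin.natAdd n i) (Fin.castAdd m j) = 0 := by
  show Matrix.fromBlocks a.mat 0 0 b.mat (finSumFinEquiv.symm (Fin.natAdd n i))
    (finSumFinEquiv.symm (Fin.castAdd m j)) = 0
  rw [finSumFinEquiv_symm_apply_castAdd, finSumFinEquiv_symm_apply_natAdd]
  rfl

private theorem blk_rr {n m : ℕ} (a : Mn n A) (b : Mn m A) (i j : Fin m) :
    (blk a b).mat (Fin.natAdd n i) (Fin.natAdd n j) = b.mat i j := by
  show Matrix.fromBlocks a.mat 0 0 b.mat (finSumFinEquiv.symm (Fin.natAdd n i))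
    (finSumFinEquiv.symm (Fin.natAdd n j)) = b.mat i j
  rw [finSumFinEquiv_symm_apply_natAdd, finSumFinEquiv_symm_apply_natAdd]
  rfl

/-- the embedding `a ↦ a ⊕ 0` -/
private noncomputable def inc (n m : ℕ) : Mn n A →⋆ₙₐ[ℂ] Mn (n + m) A where
  toFun a := blk a 0
  map_smul' c a := Mn.ext (by
    ext i j
    refine Fin.addCases (fun i => ?_) (fun i => ?_) i <;>
      refine Fin.addCases (fun j => ?_) (fun j => ?_) j <;>
      simp [blk_ll, blk_lr, blk_rl, blk_rr])
  map_zero' := Mn.ext (by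
    ext i j
    refine Fin.addCases (fun i => ?_) (fun i => ?_) i <;>
      refine Fin.addCases (fun j => ?_) (fun j => ?_) j <;>
      simp [blk_ll, blk_lr, blk_rl, blk_rr])
  map_add' a b := Mn.ext (by
    ext i j
    refine Fin.addCases (fun i => ?_) (fun i => ?_) i <;>
      refine Fin.addCases (fun j => ?_) (fun j => ?_) j <;>
      simp [blk_ll, blk_lr, blk_rl, blk_rr])
  map_mul' a b := by
    rw [blk_mul, mul_zero]
  map_star' a := by
    rw [blk_star, star_zero]

private theorem ul_blk' {n m : ℕ} (a : Mn n A) (b : Mn m A) : ul m (blk a b) = a := by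
  refine Mn.ext ?_
  ext i j
  exact blk_ll a b i j

private theorem norm_blk_zero {n m : ℕ} (a : Mn n A) : ‖(blk a 0 : Mn (n + m) A)‖ = ‖a‖ := by
  refine NonUnitalStarAlgHom.norm_map (inc (A := A) n m) ?_ a
  intro x y hxy
  have h : (blk x 0 : Mn (n + m) A) = blk y 0 := hxy
  rw [← ul_blk' (m := m) x 0, h, ul_blk']

private theorem blk_ul {n m : ℕ} (v : Mn (n + m) A) :
    (blk (ul m v) 0 : Mn (n + m) A) = blk 1 0 * v * blk 1 0 := by
  refine Mn.ext ?_
  rw [Mn.mat_mul, Mn.mat_mul]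
  ext i j
  refine Fin.addCases (fun i => ?_) (fun i => ?_) i <;>
    refine Fin.addCases (fun j => ?_) (fun j => ?_) j <;>
    simp [Matrix.mul_apply, Fin.sum_univ_add, blk_ll, blk_lr, blk_rl, blk_rr, ul,
      Matrix.one_apply]

theorem norm_ul_le {n m : ℕ} (v : Mn (n + m) A) : ‖ul m v‖ ≤ ‖v‖ := by
  have hp : ‖(blk 1 0 : Mn (n + m) A)‖ ≤ 1 := by
    have h1 : star (blk 1 0 : Mn (n + m) A) * blk 1 0 = blk 1 0 := by
      rw [blk_star, blk_mul, star_one, star_zero, mul_one, mul_zero]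
    have h2 := CStarRing.norm_star_mul_self (x := (blk 1 0 : Mn (n + m) A))
    rw [h1] at h2
    by_contra h3
    push Not at h3
    nlinarith [norm_nonneg (blk 1 0 : Mn (n + m) A)]
  rw [← norm_blk_zero (m := m) (ul m v), blk_ul]
  calc ‖(blk 1 0 : Mn (n + m) A) * v * blk 1 0‖
      ≤ ‖(blk 1 0 : Mn (n + m) A)‖ * ‖v‖ * ‖(blk 1 0 : Mn (n + m) A)‖ :=
        (norm_mul_le _ _).trans (mul_le_mul_of_nonneg_right (norm_mul_le _ _) (norm_nonneg _))
    _ ≤ 1 * ‖v‖ * 1 := by gcongr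
    _ = ‖v‖ := by ring
theorem ul_sub {n m : ℕ} (v w : Mn (n + m) A) : ul m (v - w) = ul m v - ul m w := rfl
theorem ul_blk {n m : ℕ} (a : Mn n A) (b : Mn m A) : ul m (blk a b) = a := ul_blk' a b
/-- `(V* (b ⊕ 0) V)_{11} = V_{11}* b V_{11}` -/
theorem ul_conj {n m : ℕ} (b : Mn n A) (V : Mn (n + m) A) :
    ul m (star V * blk b 0 * V) = star (ul m V) * b * ul m V := by
  refine Mn.ext ?_
  ext i j
  show (star V * blk b 0 * V).mat (Fin.castAdd m i) (Fin.castAdd m j) = _
  simp [Matrix.mul_apply, Fin.sum_univ_add, blk_ll, blk_lr, blk_rl, blk_rr, ul,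
    Matrix.star_apply]

/-- composition with a continuous map -/
noncomputable def pull {Y Z : Type*} [TopologicalSpace Y] [CompactSpace Y] [TopologicalSpace Z] [CompactSpace Z]
    {E : Type*} [CStarAlgebra E] (f : C(Y, Z)) (a : CM Z E) : CM Y E := CM.mk (a.fn.comp f)

@[simp] theorem ev_pull {Y Z : Type*} [TopologicalSpace Y] [CompactSpace Y] [TopologicalSpace Z]
    [CompactSpace Z] {E : Type*} [CStarAlgebra E] (f : C(Y, Z)) (a : CM Z E) (y : Y) :
    ev y (pull f a) = ev (f y) a := rfl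

/-- composing with `f` and cutting the corner -/
theorem cu_corner {X Z : Type*} [TopologicalSpace X] [CompactSpace X] [TopologicalSpace Z]
    [CompactSpace Z] (f : C(X, Z)) {n m : ℕ} {a b : CM Z (Mn n A)} {g : CM Z (Mn m A)}
    (hg : ∀ x, ev (f x) g = 0) (h : Cu (blkC a 0) (blkC b g)) : Cu (pull f a) (pull f b) := by
  intro ε hε
  obtain ⟨V, hV⟩ := h ε hε
  have hc : Continuous fun x => ul m (ev (f x) V) := by
    refine continuous_of.comp (continuous_pi fun i => continuous_pi fun j => ?_)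
    have h1 : Continuous fun x => (ev (f x) V).mat :=
      continuous_mat.comp ((continuous_ev V).comp f.continuous)
    exact h1.matrix_elem _ _
  refine ⟨CM.mk ⟨_, hc⟩, ?_⟩
  refine lt_of_le_of_lt ((CM.norm_le (norm_nonneg _)).2 fun x => ?_) hV
  have h1 : ev x (star (CM.mk ⟨_, hc⟩) * pull f b * CM.mk ⟨_, hc⟩ - pull f a) =
      ul m (ev (f x) (star V * blkC b g * V - blkC a 0)) := by
    rw [map_sub, map_mul, map_mul, ev_star, ev_mk, ev_pull, ev_pull, map_sub, map_mul, map_mul,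
      ev_star, ev_blkC, ev_blkC, hg, ul_sub, ul_conj, ul_blk]
    rfl
  rw [h1]
  exact (norm_ul_le _).trans (CM.norm_ev_le _ _)

end RC12.S4
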