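import Pool.Agent.LibRC12.S4I
import Pool.Agent.LibRC12.S4J
import Pool.Agent.LibRC12.S4K

/-!
# [S4K2] (4.6)

Fix `ε > 0`; `δ` from `dq_uniform` for `ε`. Finite open cover `U_l ∋ x_l` of `X` with
`‖a(x) - a(x_l)‖ ≤ ε`, `‖b(x) - b(x_l)‖ ≤ δ/2` on `U_l` (`exists_cover`), partition of unity `φ` by
`POrd (d+1)`, `f`, `χ` from `S4J`. On `Z`: `a0(z) = ∑ χ_l(z) a(x_l)`, `b0(z) = ∑ χ_l(z) b(x_l)`,
`‖a0(f x) - a(x)‖ ≤ ε`, `‖b0(f x) - b(x)‖ ≤ δ/2`. `a' = cut (2 ε) a0 ⊕ 0_L`,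
`b' = cut (δ/2) b0 ⊕ G(z) 1_L`, `G(z) = dist(z, f(X))`, `L > n + ρ`.
Gap on `Z`: if `z = f x`: `cut (2ε) (a0 z) ≾ cut ε (a x)` (as `a x ≥ a0 z - ε`, so
`cut (2ε)(a0 z) ≾ cut ε (a x)` : `cu_cut_cut`), `cut δ (b x) ≾ cut (δ/2) (b0 z)` similarly;
if `z ∉ f(X)`: `dq (b' z) ≥ dq (G(z) 1_L) = L > n + ρ ≥ dq (a' z) + ρ` (`dq_blk`, `dq_le`, `dq_one`).
`PJ` on `Z` gives `V`, pull back by `f` and cut the corner (`corner_conj`).
-/

open Filter Topology WeakDual
open scoped ENNReal NNReal ComplexOrder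

set_option linter.unusedSectionVars false

namespace RC12.S4

variable {A : Type*} [CStarAlgebra A] [PartialOrder A] [StarOrderedRing A]

private theorem s4k2_cut_nonneg {M : Type*} [CStarAlgebra M] [PartialOrder M] [StarOrderedRing M]
    (e : ℝ) (a : M) : 0 ≤ cut e a := cfc_nonneg fun _ _ => le_max_right _ _

/-- convex combinations with continuous coefficients -/
private noncomputable def s4k2_comb {Z : Type*} [TopologicalSpace Z] [CompactSpace Z] {E : Type*}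
    [CStarAlgebra E] {k : ℕ} (χ : Fin k → C(Z, ℝ)) (x : Fin k → E) : CM Z E :=
  CM.mk ⟨fun z => ∑ l, χ l z • x l, by fun_prop⟩

private theorem s4k2_ev_comb {Z : Type*} [TopologicalSpace Z] [CompactSpace Z] {E : Type*}
    [CStarAlgebra E] {k : ℕ} (χ : Fin k → C(Z, ℝ)) (x : Fin k → E) (z : Z) :
    ev z (s4k2_comb χ x) = ∑ l, χ l z • x l := rfl

private theorem s4k2_inJ_blk {n m : ℕ} {a : Mn n A} (h : InJ a) :
    ∀ i j, (blk a (0 : Mn m A)).mat i j ∈ J0 A := by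
  intro i j φ
  have h1 := inJ_iff.1 h
  unfold blk
  rw [Mn.mat_of, Matrix.reindex_apply, Matrix.submatrix_apply]
  rcases finSumFinEquiv.symm i with i | i <;> rcases finSumFinEquiv.symm j with j | j
  · exact h1 i j φ
  · simp
  · simp
  · simp

private theorem s4k2_inJ_sum {n k : ℕ} {c : Fin k → ℝ} {x : Fin k → Mn n A}
    (h : ∀ l, InJ (x l)) : InJ (∑ l, c l • x l) := by
  intro φ
  rw [map_sum]
  exact Finset.sum_eq_zero fun l _ => (h l).smul (c l) φ

/-- (4.6) -/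
theorem pj_main {r : ℝ} (hr : HC A r) {X : Type*} [TopologicalSpace X] [CompactSpace X]
    [T2Space X] {d : ℕ} (hX : POrd (d + 1) X) : PJ A X (r + (d + 1) / 2) := by
  intro n a b ha hb hJ hgap
  refine cu_of_cut ha ?_
  intro η hη
  set ρ : ℝ := r + (d + 1) / 2 with hρ
  set ε : ℝ := η / 3 with hε
  have hε0 : 0 < ε := by positivity
  obtain ⟨δ, hδ0, hδ⟩ := dq_uniform a b ha hb ρ hgap hε0
  obtain ⟨k, U, p, hUo, hUc, hUab⟩ := exists_cover a.fn b.fn hε0 (half_pos hδ0)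
  obtain ⟨φ, hφ0, hφ1, hφU, hφd⟩ := hX k U hUo hUc
  obtain ⟨f, hf1, hf2⟩ := exists_star_map φ hφ0 hφ1 hφd
  obtain ⟨χ, hχ0, hχle, hχ1, hχφ⟩ := exists_chi φ f hf1 hf2
  obtain ⟨G, hG0, hGf, hGpos⟩ := exists_G f
  set a0 : CM (Fin (d + 1) → Tm (Finset (Fin k))) (Mn n A) :=
    s4k2_comb χ (fun l => ev (p l) a) with ha0
  set b0 : CM (Fin (d + 1) → Tm (Finset (Fin k))) (Mn n A) :=
    s4k2_comb χ (fun l => ev (p l) b) with hb0
  have ha0p : 0 ≤ a0 := CM.nonneg_iff.2 fun z => by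
    rw [ha0, s4k2_ev_comb]
    exact Finset.sum_nonneg fun l _ => smul_nonneg (hχ0 l z) (CM.nonneg_iff.1 ha (p l))
  have hb0p : 0 ≤ b0 := CM.nonneg_iff.2 fun z => by
    rw [hb0, s4k2_ev_comb]
    exact Finset.sum_nonneg fun l _ => smul_nonneg (hχ0 l z) (CM.nonneg_iff.1 hb (p l))
  have hna : ∀ x, ‖ev (f x) a0 - ev x a‖ ≤ ε := by
    intro x
    rw [ha0, s4k2_ev_comb]
    exact norm_sum_sub_le _ (fun l => hχ0 l (f x)) (hχ1 x) _ _
      fun l hl => (hUab l x (hφU l x (hχφ l x hl))).1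
  have hnb : ∀ x, ‖ev (f x) b0 - ev x b‖ ≤ δ / 2 := by
    intro x
    rw [hb0, s4k2_ev_comb]
    exact norm_sum_sub_le _ (fun l => hχ0 l (f x)) (hχ1 x) _ _
      fun l hl => (hUab l x (hφU l x (hχφ l x hl))).2
  obtain ⟨L, hL⟩ := exists_nat_gt ((n : ℝ) + ρ)
  set g : CM (Fin (d + 1) → Tm (Finset (Fin k))) (Mn L A) :=
    CM.mk ⟨fun z => G z • (1 : Mn L A), by fun_prop⟩ with hg
  have hgev : ∀ z, ev z g = G z • (1 : Mn L A) := fun z => rfl
  have hone : (0 : Mn L A) ≤ 1 := zero_le_one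
  have hgp : ∀ z, 0 ≤ ev z g := fun z => by
    rw [hgev]
    exact smul_nonneg (hG0 z) hone
  have hca : ∀ z, ev z (cut (2 * ε) a0) = cut (2 * ε) (ev z a0) := fun z => ev_cut z ha0p _
  have hcb : ∀ z, ev z (cut (δ / 2) b0) = cut (δ / 2) (ev z b0) := fun z => ev_cut z hb0p _
  have hpj : PJ A (Fin (d + 1) → Tm (Finset (Fin k))) ρ := by
    have := pj_pi (A := A) (κ := Finset (Fin k)) hr (d + 1)
    rw [hρ]
    push_cast at this
    exact this
  have hcu : Cu (blkC (cut (2 * ε) a0) (0 : CM _ (Mn L A))) (blkC (cut (δ / 2) b0) g) := by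
    refine hpj (n + L) _ _ ?_ ?_ ?_ ?_
    · refine CM.nonneg_iff.2 fun z => ?_
      rw [ev_blkC, hca]
      exact blk_nonneg (s4k2_cut_nonneg _ _) (by rw [map_zero])
    · refine CM.nonneg_iff.2 fun z => ?_
      rw [ev_blkC, hcb]
      exact blk_nonneg (s4k2_cut_nonneg _ _) (hgp z)
    · intro z i j
      rw [ev_blkC, hca, map_zero]
      refine s4k2_inJ_blk ?_ i j
      have h1 : InJ (ev z a0) := by
        rw [ha0, s4k2_ev_comb]
        exact s4k2_inJ_sum fun l => inJ_iff.2 (hJ (p l))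
      refine h1.cfc (IsSelfAdjoint.of_nonneg (CM.nonneg_iff.1 ha0p z))
        (f := fun t : ℝ => max (t - 2 * ε) 0) (by fun_prop) ?_
      exact max_eq_right (by linarith)
    · intro z τ
      rw [ev_blkC, ev_blkC, hca, hcb, map_zero, dq_blk τ (s4k2_cut_nonneg _ _) le_rfl,
        dq_blk τ (s4k2_cut_nonneg _ _) (hgp z), dq_zero, add_zero]
      by_cases hz : z ∈ Set.range f
      · obtain ⟨x, rfl⟩ := hz
        have h1 : Cu (cut (2 * ε) (ev (f x) a0)) (cut ε (ev x a)) := by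
          have := cu_cut_cut (CM.nonneg_iff.1 ha0p (f x)) (CM.nonneg_iff.1 ha x) hε0 hε0.le (hna x)
          rwa [← two_mul] at this
        have h2 : Cu (cut δ (ev x b)) (cut (δ / 2) (ev (f x) b0)) := by
          have := cu_cut_cut (CM.nonneg_iff.1 hb x) (CM.nonneg_iff.1 hb0p (f x)) (half_pos hδ0)
            (half_pos hδ0).le (by rw [norm_sub_rev]; exact hnb x)
          rwa [add_halves] at this
        have h3 := dq_mono τ (s4k2_cut_nonneg _ _) (s4k2_cut_nonneg _ _) h1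
        have h4 := dq_mono τ (s4k2_cut_nonneg _ _) (s4k2_cut_nonneg _ _) h2
        have h5 := hδ x τ
        have h6 := dq_nonneg τ (ev (f x) g) (hgp _)
        linarith
      · have h1 := dq_le τ (cut (2 * ε) (ev z a0)) (s4k2_cut_nonneg _ _)
        have h2 := dq_nonneg τ (cut (δ / 2) (ev z b0)) (s4k2_cut_nonneg _ _)
        have h3 : τ.dq (ev z g) = L := by
          rw [hgev, dq_smul τ hone (hGpos z hz), dq_one]
        rw [h3]
        linarith
  have hcx := cu_corner f (a := cut (2 * ε) a0) (b := cut (δ / 2) b0) (g := g)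
    (fun x => by rw [hgev, hGf, zero_smul]) hcu
  have hpa : pull f (cut (2 * ε) a0) = cut (2 * ε) (pull f a0) := by
    refine CM.ext fun x => ?_
    rw [ev_pull, hca, ev_cut x (CM.nonneg_iff.2 fun y => by
      rw [ev_pull]; exact CM.nonneg_iff.1 ha0p (f y)), ev_pull]
  have hb0x : 0 ≤ pull f b0 := CM.nonneg_iff.2 fun y => by
    rw [ev_pull]; exact CM.nonneg_iff.1 hb0p (f y)
  have ha0x : 0 ≤ pull f a0 := CM.nonneg_iff.2 fun y => by
    rw [ev_pull]; exact CM.nonneg_iff.1 ha0p (f y)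
  have hpb : pull f (cut (δ / 2) b0) = cut (δ / 2) (pull f b0) := by
    refine CM.ext fun x => ?_
    rw [ev_pull, hcb, ev_cut x hb0x, ev_pull]
  rw [hpa, hpb] at hcx
  have h1 : Cu (cut η a) (cut (2 * ε) (pull f a0)) := by
    have hn : ‖a - pull f a0‖ ≤ ε := by
      rw [CM.norm_le hε0.le]
      intro x
      rw [map_sub, ev_pull, norm_sub_rev]
      exact hna x
    have := cu_cut_cut ha ha0x hε0 (by positivity : (0 : ℝ) ≤ 2 * ε) hn
    have he : ε + 2 * ε = η := by rw [hε]; ring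
    rwa [he] at this
  have h2 : Cu (cut (δ / 2) (pull f b0)) b := by
    refine cu_cut hb hb0x (half_pos hδ0) ?_
    refine le_add_of_norm_sub_le (IsSelfAdjoint.of_nonneg hb0x) (IsSelfAdjoint.of_nonneg hb) ?_
    rw [CM.norm_le (half_pos hδ0).le]
    intro x
    rw [map_sub, ev_pull]
    exact hnb x
  exact cu_trans h1 (cu_trans hcx h2)

end RC12.S4
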