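import Pool.Agent.LibRC12.S5H4
import Pool.Agent.LibRC12.Iface

/-!
S5H: statement level.
-/

open Filter Topology WeakDual
open scoped ENNReal NNReal ComplexOrder

set_option linter.unusedSectionVars false

namespace RC12.S5

variable {A : Type*} [CStarAlgebra A] [PartialOrder A] [StarOrderedRing A]
variable {X : Type*} [TopologicalSpace X] [CompactSpace X]

theorem hc_of_hasComparison_thm {r : ℝ} (h : HasComparison A r) : HC A r := by
  intro n a b ha hb hgap
  refine Cu_of_CuntzLE (h n n a.mat b.mat ((isPos_mat_iff a).2 ha) ((isPos_mat_iff b).2 hb) ?_)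
  intro τ
  rw [d_eq_dq τ ha, d_eq_dq τ hb]
  exact hgap τ

/-- Cuntz subequivalence of padded matrices -/
theorem CuntzLE_of_corner {n m k : ℕ} (hn : n ≤ k) (hm : m ≤ k)
    {a : Matrix (Fin n) (Fin n) A} {b : Matrix (Fin m) (Fin m) A}
    (h : CuntzLE (corner k a) (corner k b)) : CuntzLE a b := by
  intro ε hε
  obtain ⟨v, hv⟩ := h ε hε
  obtain ⟨w, hw⟩ : ∃ w, w = v * Vf A (Fin.castLE hm) := ⟨_, rfl⟩
  refine ⟨w.submatrix (Fin.castLE hn) id, fun i j => ?_⟩
  have e1 : corner k b = Vf A (Fin.castLE hm) * b * (Vf A (Fin.castLE hm)).conjTranspose := by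
    have := congrArg Mn.mat (cor_eq_emb hm (Mn.of b))
    exact this
  have e2 : corner k a (Fin.castLE hn i) (Fin.castLE hn j) = a i j := by
    unfold corner
    rw [dif_pos ⟨i.2, j.2⟩]
    rfl
  have e3 : v * corner k b * v.conjTranspose = w * b * w.conjTranspose := by
    rw [e1, hw, Matrix.conjTranspose_mul]
    simp only [Matrix.mul_assoc]
  have h1 := hv (Fin.castLE hn i) (Fin.castLE hn j)
  rw [Matrix.sub_apply, e3, e2] at h1
  rw [Matrix.sub_apply]
  exact h1

theorem ev_toCM_corner {n k : ℕ} (hn : n ≤ k) (a : Matrix (Fin n) (Fin n) (CM X A)) (x : X) :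
    ev x (toCM (Mn.of (corner k a))) = cor k (ev x (toCM (Mn.of a))) := by
  refine Mn.ext ?_
  rw [ev_toCM]
  show (corner k a).map (ev x) = corner k (a.map (ev x))
  ext i j
  simp only [Matrix.map_apply, corner]
  split_ifs
  · rfl
  · exact map_zero _

theorem isPos_corner {n k : ℕ} (hn : n ≤ k) {a : Matrix (Fin n) (Fin n) A} (ha : IsPos a) :
    IsPos (corner k a) := by
  have h1 : 0 ≤ Mn.of a := (isPos_mat_iff (Mn.of a)).1 ha
  have h2 : 0 ≤ cor k (Mn.of a) := by
    rw [cor_eq_emb hn]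
    exact emb_nonneg _ _ h1
  exact (isPos_mat_iff _).2 h2

theorem hasComparison_CM {ρ : ℝ}
    (h : ∀ (n : ℕ) (a b : CM X (Mn n A)), 0 ≤ a → 0 ≤ b →
      (∀ x (τ : QuasiTrace A), τ.dq (ev x a) + ρ < τ.dq (ev x b)) → Cu a b) :
    HasComparison (CM X A) ρ := by
  intro n m a b ha hb hgap
  have hn : n ≤ n + m := Nat.le_add_right n m
  have hm : m ≤ n + m := Nat.le_add_left m n
  refine CuntzLE_of_corner hn hm ?_
  have ha1 : 0 ≤ Mn.of a := (isPos_mat_iff (Mn.of a)).1 ha
  have hb1 : 0 ≤ Mn.of b := (isPos_mat_iff (Mn.of b)).1 hb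
  have ha' : 0 ≤ Mn.of (corner (n + m) a) :=
    (isPos_mat_iff (Mn.of (corner (n + m) a))).1 (isPos_corner hn ha)
  have hb' : 0 ≤ Mn.of (corner (n + m) b) :=
    (isPos_mat_iff (Mn.of (corner (n + m) b))).1 (isPos_corner hm hb)
  have h1 := h (n + m) (toCM (Mn.of (corner (n + m) a))) (toCM (Mn.of (corner (n + m) b)))
    (map_nonneg toCM ha') (map_nonneg toCM hb')
    (fun x τ => by
      have h2 := hgap (qtEval τ x)
      rw [ev_toCM_corner hn, ev_toCM_corner hm,
        dq_cor τ hn (map_nonneg (ev x) (map_nonneg toCM ha1)),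
        dq_cor τ hm (map_nonneg (ev x) (map_nonneg toCM hb1)),
        ← qtEval_d τ x ha1, ← qtEval_d τ x hb1]
      exact h2)
  intro ε hε
  obtain ⟨v, hv⟩ := h1 ε hε
  obtain ⟨v', rfl⟩ := toCM_surjective v
  refine ⟨star v'.mat, fun i j => ?_⟩
  obtain ⟨a', ha'⟩ : ∃ a', a' = Mn.of (corner (n + m) a) := ⟨_, rfl⟩
  obtain ⟨b', hb'⟩ : ∃ b', b' = Mn.of (corner (n + m) b) := ⟨_, rfl⟩
  rw [← ha', ← hb'] at hv
  have h2 : star (toCM v') * toCM b' * toCM v' - toCM a' = toCM (star v' * b' * v' - a') := by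
    rw [map_sub, map_mul, map_mul, map_star]
  rw [h2] at hv
  refine lt_of_le_of_lt ?_ hv
  have h3 : (star v'.mat * corner (n + m) b * (star v'.mat).conjTranspose -
      corner (n + m) a) i j = (star v' * b' * v' - a').mat i j := by
    rw [ha', hb']
    simp only [Mn.mat_sub, Mn.mat_mul, Mn.mat_star, Mn.mat_of, Matrix.star_eq_conjTranspose,
      Matrix.conjTranspose_conjTranspose]
  rw [h3, CM.norm_le (norm_nonneg _)]
  intro x
  refine le_trans ?_ (CM.norm_ev_le _ x)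
  exact le_trans (le_of_eq rfl) (Mn.norm_entry_le (ev x (toCM (star v' * b' * v' - a'))) i j)

theorem hasComparison_CXA_thm {ρ : ℝ}
    (h : ∀ (n : ℕ) (a b : CM X (Mn n A)), 0 ≤ a → 0 ≤ b →
      (∀ x (τ : QuasiTrace A), τ.dq (ev x a) + ρ < τ.dq (ev x b)) → Cu a b) :
    HasComparison C(X, A) ρ := hasComparison_CM h

end RC12.S5
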