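import Pool.Agent.LibRC12.Defs

/-!
S5H5: arithmetic of the infimum.
-/

open Filter Topology
open scoped ENNReal NNReal ComplexOrder

set_option linter.unusedSectionVars false

namespace RC12.S5

/-- arithmetic of the infimum -/
theorem rc_arith (A : Type*) [CStarAlgebra A] (X : Type*) [TopologicalSpace X] [CompactSpace X]
    (h : ∀ (r : ℝ≥0) (d : ℕ), HasComparison A r → CoverDimLE X d →
      HasComparison C(X, A) (((r + d / 2 + 1 : ℝ≥0)) : ℝ)) :
    rc C(X, A) ≤ rc A + (coverDim X : ℝ≥0∞) / 2 + 1 := by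
  rcases eq_or_ne (coverDim X) ⊤ with hd | hd
  · rw [hd]
    have : ((⊤ : ℕ∞) : ℝ≥0∞) = ⊤ := rfl
    rw [this, ENNReal.top_div_of_ne_top (by simp)]
    simp
  have hdim : ∃ d : ℕ, CoverDimLE X d ∧ coverDim X = d := by
    obtain ⟨d, hd'⟩ := ENat.ne_top_iff_exists.1 hd
    by_cases hex : ∃ n, CoverDimLE X n
    · classical
      refine ⟨Nat.find hex, Nat.find_spec hex, ?_⟩
      unfold coverDim
      refine le_antisymm (iInf₂_le _ (Nat.find_spec hex)) ?_
      refine le_iInf₂ fun n hn => ?_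
      exact_mod_cast Nat.find_min' hex hn
    · exfalso
      apply hd
      unfold coverDim
      push Not at hex
      simp [hex]
  obtain ⟨d, hX, hdd⟩ := hdim
  rw [hdd]
  have key : ∀ r : ℝ≥0, HasComparison A r → rc C(X, A) ≤ (r : ℝ≥0∞) + (d : ℝ≥0∞) / 2 + 1 := by
    intro r hr
    have h1 := h r d hr hX
    have h4 : rc C(X, A) ≤ ((r + d / 2 + 1 : ℝ≥0) : ℝ≥0∞) := by
      unfold rc
      exact iInf₂_le (r + d / 2 + 1) h1
    refine h4.trans (le_of_eq ?_)
    rw [ENNReal.coe_add, ENNReal.coe_add, ENNReal.coe_div (by norm_num)]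
    simp
  have e1 : ((d : ℕ∞) : ℝ≥0∞) = (d : ℝ≥0∞) := rfl
  rw [e1]
  have h2 : rc C(X, A) ≤ rc A + ((d : ℝ≥0∞) / 2 + 1) := by
    have h3 : rc C(X, A) - ((d : ℝ≥0∞) / 2 + 1) ≤ rc A := by
      refine le_iInf₂ fun r hr => ?_
      have := key r hr
      rw [add_assoc] at this
      exact tsub_le_iff_right.2 this
    exact tsub_le_iff_right.1 h3
  rw [← add_assoc] at h2
  exact h2

end RC12.S5
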