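import Pool.Agent.LibRC12.T6Defs

namespace RC19

open scoped ComplexConjugate
open RC12

variable {Y : Type*} [TopologicalSpace Y]

/-- `(s,t) ↦ (|s|²-|t|², 2 conj(s) t)` -/
noncomputable def hopf (s t : ℂ) : ℝ × ℂ := (‖s‖ ^ 2 - ‖t‖ ^ 2, 2 * (conj s * t))

theorem hopf_zero {s t : ℂ} (h : hopf s t = 0) : s = 0 ∧ t = 0 := by
  have h1 : ‖s‖ ^ 2 - ‖t‖ ^ 2 = 0 := congrArg Prod.fst h
  have h2 : 2 * (conj s * t) = 0 := congrArg Prod.snd h
  have h3 : s = 0 ∨ t = 0 := by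
    rcases mul_eq_zero.mp h2 with h | h
    · exact absurd h two_ne_zero
    · rcases mul_eq_zero.mp h with h | h
      · exact Or.inl ((map_eq_zero _).mp h)
      · exact Or.inr h
  rcases h3 with h3 | h3
  · refine ⟨h3, ?_⟩
    rw [h3, norm_zero] at h1
    have : ‖t‖ ^ 2 = 0 := by linarith
    exact norm_eq_zero.mp (pow_eq_zero_iff two_ne_zero |>.mp this)
  · refine ⟨?_, h3⟩
    rw [h3, norm_zero] at h1
    have : ‖s‖ ^ 2 = 0 := by linarith
    exact norm_eq_zero.mp (pow_eq_zero_iff two_ne_zero |>.mp this)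

theorem hopf_InL {r b : ℝ} {c s t : ℂ} (hr : nrm b c = r) (h0 : 0 < r) (h : InL r b c s t) :
    hopf s t = ((‖s‖ ^ 2 + ‖t‖ ^ 2) / r * b, (((‖s‖ ^ 2 + ‖t‖ ^ 2) / r : ℝ) : ℂ) * c) := by
  obtain ⟨h1, h2⟩ := h
  have hs : conj s * s = (‖s‖ : ℂ) ^ 2 := Complex.conj_mul' s
  have ht : conj t * t = (‖t‖ : ℂ) ^ 2 := Complex.conj_mul' t
  have hr0 : (r : ℂ) ≠ 0 := by exact_mod_cast h0.ne'
  have h1' : (b : ℂ) * conj s + c * conj t = r * conj s := by
    have := congrArg conj h1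
    simpa only [map_add, map_mul, Complex.conj_ofReal, Complex.conj_conj] using this
  have e2 : 2 * (conj s * t) = (((‖s‖ ^ 2 + ‖t‖ ^ 2) / r : ℝ) : ℂ) * c := by
    push_cast
    rw [div_mul_eq_mul_div, eq_div_iff hr0, ← hs, ← ht]
    linear_combination -(conj s) * h2 - t * h1'
  have e1 : ‖s‖ ^ 2 - ‖t‖ ^ 2 = (‖s‖ ^ 2 + ‖t‖ ^ 2) / r * b := by
    have hX : c * s * conj t = conj (conj c * conj s * t) := by
      simp only [map_mul, Complex.conj_conj]
    have h3 : (b : ℂ) * ((‖s‖ : ℂ) ^ 2 + (‖t‖ : ℂ) ^ 2) +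
        (conj c * conj s * t - conj (conj c * conj s * t)) =
        r * ((‖s‖ : ℂ) ^ 2 - (‖t‖ : ℂ) ^ 2) := by
      rw [← hX, ← hs, ← ht]
      linear_combination conj s * h1 - conj t * h2
    have h4 := congrArg Complex.re h3
    rw [Complex.add_re, Complex.sub_re, Complex.conj_re, sub_self, add_zero] at h4
    have h5 : ((b : ℂ) * ((‖s‖ : ℂ) ^ 2 + (‖t‖ : ℂ) ^ 2)).re = b * (‖s‖ ^ 2 + ‖t‖ ^ 2) := by
      rw [show (b : ℂ) * ((‖s‖ : ℂ) ^ 2 + (‖t‖ : ℂ) ^ 2) =
        ((b * (‖s‖ ^ 2 + ‖t‖ ^ 2) : ℝ) : ℂ) by push_cast; ring, Complex.ofReal_re]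
    have h6 : ((r : ℂ) * ((‖s‖ : ℂ) ^ 2 - (‖t‖ : ℂ) ^ 2)).re = r * (‖s‖ ^ 2 - ‖t‖ ^ 2) := by
      rw [show (r : ℂ) * ((‖s‖ : ℂ) ^ 2 - (‖t‖ : ℂ) ^ 2) =
        ((r * (‖s‖ ^ 2 - ‖t‖ ^ 2) : ℝ) : ℂ) by push_cast; ring, Complex.ofReal_re]
    rw [h5, h6] at h4
    rw [div_mul_eq_mul_div, eq_div_iff h0.ne']
    linarith
  exact Prod.ext e1 e2


/-- `T(j,1)` from `GProp (j+1)` -/
theorem base [CompactSpace Y] [T2Space Y] {j : ℕ} (hG : GProp (j + 1) Y) : TTr 1 j 1 Y := by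
  intro V hV f hf hS w hw
  -- extensions
  have hext : ∀ a, ∃ F : C(Y, ℝ × ℂ), ∀ y ∈ V, F y = f a y := by
    intro a
    obtain ⟨F, hF⟩ := ContinuousMap.exists_restrict_eq hV
      (⟨V.domRestrict (f a), (hf a).domRestrict⟩ : C(V, ℝ × ℂ))
    refine ⟨F, fun y hy => ?_⟩
    exact congrArg (fun g : C(V, ℝ × ℂ) => g ⟨y, hy⟩) hF
  choose F hF using hext
  obtain ⟨W, hW⟩ : ∃ W : C(Y, ℝ × (Fin 1 → ℂ)), ∀ y ∈ V, W y = w y := by
    obtain ⟨W, hW⟩ := ContinuousMap.exists_restrict_eq hV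
      (⟨V.domRestrict w, hw.domRestrict⟩ : C(V, ℝ × (Fin 1 → ℂ)))
    refine ⟨W, fun y hy => ?_⟩
    exact congrArg (fun g : C(V, ℝ × (Fin 1 → ℂ)) => g ⟨y, hy⟩) hW
  let B : Fin (j + 1) → C(Y, ℝ) := Fin.cons ⟨fun y => (W y).1, by fun_prop⟩
    (fun a => ⟨fun y => (F a y).1, by fun_prop⟩)
  let C' : Fin (j + 1) → C(Y, ℂ) := Fin.cons ⟨fun y => (W y).2 0, by fun_prop⟩
    (fun a => ⟨fun y => (F a y).2, by fun_prop⟩)
  obtain ⟨s, t, hne, hst⟩ := hG B C'
  let θ : Y → ℝ := fun y => max 0 (min 1 (2 * nrm (W y).1 ((W y).2 0) - 1))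
  let H : Y → ℝ × (Fin 1 → ℂ) := fun y =>
    ((hopf (s 0 y) (t 0 y)).1, fun _ => (hopf (s 0 y) (t 0 y)).2)
  have hWc : Continuous W := W.continuous
  have hθc : Continuous θ := by
    show Continuous fun y => max 0 (min 1 (2 * √((W y).1 ^ 2 + ‖(W y).2 0‖ ^ 2) - 1))
    fun_prop
  have hHc : Continuous H := by
    have h1 : Continuous fun y => (hopf (s 0 y) (t 0 y)).1 := by
      show Continuous fun y => ‖s 0 y‖ ^ 2 - ‖t 0 y‖ ^ 2
      fun_prop
    have h2 : Continuous fun y => (hopf (s 0 y) (t 0 y)).2 := by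
      show Continuous fun y => 2 * (conj (s 0 y) * t 0 y)
      fun_prop
    exact h1.prodMk (continuous_pi fun _ => h2)
  have hθ0 : ∀ y, 0 ≤ θ y := fun y => le_max_left _ _
  have hθ1 : ∀ y, θ y ≤ 1 := fun y => max_le zero_le_one (min_le_left _ _)
  refine ⟨fun a y => (s a.succ y, t a.succ y), fun y => (1 - θ y) • H y + θ y • W y,
    fun a => ?_, ?_, ?_, ?_, ?_⟩
  · exact Continuous.continuousOn (by fun_prop)
  · exact Continuous.continuousOn (by fun_prop)
  · intro a y hy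
    have h1 := hst a.succ y
    have e1 : B a.succ y = (f a y).1 := by
      show (F a y).1 = _
      rw [hF a y hy]
    have e2 : C' a.succ y = (f a y).2 := by
      show (F a y).2 = _
      rw [hF a y hy]
    rw [e1, e2] at h1
    have h2 : √((f a y).1 ^ 2 + ‖(f a y).2‖ ^ 2) = 1 := by
      rw [show (f a y).1 ^ 2 + ‖(f a y).2‖ ^ 2 = 1 from hS a y hy, Real.sqrt_one]
    rw [h2] at h1
    have h3 := h1 (by norm_num)
    rw [Complex.ofReal_one, one_mul, one_mul] at h3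
    exact h3
  · intro y hy
    by_cases hψ : ∃ a : Fin j, ((s a.succ y, t a.succ y) : ℂ × ℂ) ≠ 0
    · exact Or.inl hψ
    · right
      push Not at hψ
      have h0 : s 0 y ≠ 0 ∨ t 0 y ≠ 0 := by
        obtain ⟨i, hi⟩ := hne y
        rcases Fin.eq_zero_or_eq_succ i with rfl | ⟨a, rfl⟩
        · exact hi
        · have h1 := hψ a
          rw [Prod.mk_eq_zero] at h1
          rcases hi with hi | hi
          · exact absurd h1.1 hi
          · exact absurd h1.2 hi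
      have hH0 : H y ≠ 0 := by
        intro h1
        have h2 : hopf (s 0 y) (t 0 y) = 0 := by
          have e1 := congrArg Prod.fst h1
          have e2 := congrFun (congrArg Prod.snd h1) 0
          exact Prod.ext e1 e2
        obtain ⟨h3, h4⟩ := hopf_zero h2
        rcases h0 with h0 | h0
        · exact h0 h3
        · exact h0 h4
      intro hz
      replace hz : (1 - θ y) • H y + θ y • W y = 0 := hz
      by_cases hn : nrm (W y).1 ((W y).2 0) ≤ 1 / 2
      · have hθ : θ y = 0 := by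
          show max 0 (min 1 (2 * nrm (W y).1 ((W y).2 0) - 1)) = 0
          exact max_eq_left ((min_le_right _ _).trans (by linarith))
        rw [hθ, sub_zero, one_smul, zero_smul, add_zero] at hz
        exact hH0 hz
      · push Not at hn
        have hnpos : 0 < nrm (W y).1 ((W y).2 0) := by linarith
        have h1 := hst 0 y
        have e1 : B 0 y = (W y).1 := rfl
        have e2 : C' 0 y = (W y).2 0 := rfl
        rw [e1, e2] at h1
        have h2 : InL (nrm (W y).1 ((W y).2 0)) (W y).1 ((W y).2 0) (s 0 y) (t 0 y) := h1 hn.le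
        have h3 := hopf_InL rfl hnpos h2
        set κ : ℝ := (‖s 0 y‖ ^ 2 + ‖t 0 y‖ ^ 2) / nrm (W y).1 ((W y).2 0) with hκ
        have hκ0 : 0 ≤ κ := by positivity
        have h4 : H y = κ • W y := by
          refine Prod.ext ?_ ?_
          · show (hopf (s 0 y) (t 0 y)).1 = κ * (W y).1
            rw [h3]
          · funext i
            show (hopf (s 0 y) (t 0 y)).2 = κ • (W y).2 i
            rw [h3, Subsingleton.elim i 0, Complex.real_smul]
        have hθpos : 0 < θ y := by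
          show 0 < max 0 (min 1 (2 * nrm (W y).1 ((W y).2 0) - 1))
          exact lt_max_of_lt_right (lt_min one_pos (by linarith))
        rw [h4, smul_smul, ← add_smul] at hz
        rcases smul_eq_zero.mp hz with h5 | h5
        · have h6 : 0 ≤ (1 - θ y) * κ := mul_nonneg (by linarith [hθ1 y]) hκ0
          linarith
        · rw [h5] at hnpos
          simp [nrm] at hnpos
  · intro y hy h1
    have hWw := hW y hy
    have hn : 1 ≤ nrm (W y).1 ((W y).2 0) := by
      rw [hWw]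
      have h2 : (1 : ℝ) ≤ max ‖(w y).1‖ ‖(w y).2‖ := h1
      have h3 : ‖(w y).2‖ ≤ ‖(w y).2 0‖ := by
        rw [pi_norm_le_iff_of_nonneg (norm_nonneg _)]
        intro i
        rw [Subsingleton.elim i 0]
      refine Real.le_sqrt_of_sq_le ?_
      rcases le_max_iff.mp h2 with h4 | h4
      · rw [Real.norm_eq_abs] at h4
        nlinarith [sq_abs (w y).1, sq_nonneg ‖(w y).2 0‖]
      · nlinarith [sq_nonneg (w y).1]
    have hθ : θ y = 1 := by
      show max 0 (min 1 (2 * nrm (W y).1 ((W y).2 0) - 1)) = 1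
      rw [min_eq_left (by linarith), max_eq_right zero_le_one]
    show (1 - θ y) • H y + θ y • W y = w y
    rw [hθ, sub_self, zero_smul, zero_add, one_smul, hWw]

end RC19
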