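import Pool.Agent.LibRC12.T6H1

namespace RC19

open scoped ComplexConjugate
open RC12

variable {Y : Type*} [TopologicalSpace Y]

theorem POrd_of_Nz [CompactSpace Y] [T2Space Y] {n : ℕ} (hN : Nz (Fin (n + 1) → ℝ) Y) :
    POrd (n + 1) Y := by
  intro k U hU hcov
  have hNz : ∀ d, Nz (Fin (n + 1 + d) → ℝ) Y := by
    intro d
    induction d with
    | zero => exact hN
    | succ d ih => exact Nz_succ ih
  have hdesc : ∀ d, (∃ φ : Fin k → C(Y, ℝ), (∀ i y, 0 ≤ φ i y) ∧ (∀ y, ∑ i, φ i y = 1) ∧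
      (∀ i y, φ i y ≠ 0 → y ∈ U i) ∧
      ∀ y, (Finset.univ.filter fun i => φ i y ≠ 0).card ≤ n + 1 + d) →
      ∃ φ : Fin k → C(Y, ℝ), (∀ i y, 0 ≤ φ i y) ∧ (∀ y, ∑ i, φ i y = 1) ∧
      (∀ i y, φ i y ≠ 0 → y ∈ U i) ∧
      ∀ y, (Finset.univ.filter fun i => φ i y ≠ 0).card ≤ n + 1 := by
    intro d
    induction d with
    | zero => exact fun h => h
    | succ d ih =>
      rintro ⟨φ, h0, h1, h2, h3⟩
      apply ih
      obtain ⟨φ', g0, g1, g2, g3⟩ := reduce (hNz d) φ h0 h1 h3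
      exact ⟨φ', g0, g1, fun i y h => h2 i y (g2 i y h), g3⟩
  obtain ⟨f, hf⟩ := PartitionOfUnity.exists_isSubordinate (s := Set.univ) isClosed_univ U hU
    (by rw [hcov])
  apply hdesc k
  refine ⟨fun i => f i, fun i y => f.nonneg i y, fun y => ?_, fun i y h => ?_, fun y => ?_⟩
  · have := f.sum_eq_one (Set.mem_univ y)
    rw [finsum_eq_sum_of_fintype] at this
    exact this
  · exact hf i (subset_tsupport _ h)
  · refine le_trans (Finset.card_le_univ _) ?_
    rw [Fintype.card_fin]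
    omega

end RC19
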