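import Pool.Agent.LibRC12.T6F2
import Pool.Agent.LibRC12.T6G
import Pool.Agent.LibRC12.T6H

namespace RC19

open scoped ComplexConjugate
open RC12

variable {Y : Type*} [TopologicalSpace Y]

theorem chain [CompactSpace Y] [T2Space Y] {n : ℕ} (hN : Nz (Fin (n + 2) → ℂ) Y)
    (hG : GProp (n + 1) Y) (a : ℕ) (ha : a ≤ n) : TTr 1 (n - a) (1 + a) Y := by
  induction a with
  | zero => exact base hG
  | succ a ih =>
    have h1 : TTr 1 (n - a) (1 + a) Y := ih (by omega)
    have e1 : n - a = (n - (a + 1)) + 1 := by omega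
    rw [e1] at h1
    have e2 : n + 2 = (n - (a + 1)) + (1 + a) + 2 := by omega
    rw [e2] at hN
    have h2 := step hN (TTr_scale one_pos (by norm_num) h1)
    exact TTr_scale (by norm_num) one_pos h2

/-- Main theorem of sections 6.3-6.6. -/
theorem T6_main [CompactSpace Y] [T2Space Y] {m : ℕ} (hm : 1 ≤ m)
    (hN : Nz (Fin (m + 1) → ℂ) Y) (hG : GProp m Y) : POrd (2 * m + 1) Y := by
  obtain ⟨n, rfl⟩ : ∃ n, m = n + 1 := ⟨m - 1, by omega⟩
  have h1 := chain hN hG n le_rfl
  rw [Nat.sub_self] at h1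
  have h2 : Nz (Fin (2 * (n + 1) + 1) → ℝ) Y := by
    refine Nz_congr ?_ (nz_of_TT h1)
    simp [Module.finrank_prod, Module.finrank_pi_fintype, Complex.finrank_real_complex]
    ring
  exact POrd_of_Nz h2

end RC19
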