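import Mathlib

/-! [RC12-T7 A]  finite product covers on which a continuous map on `X × Y` varies little. -/

namespace RC47

/-- HINT. `ContinuousMap.curry T : C(X, C(Y, E))` is continuous for the sup distance (`Y` compact),
so `{x | ‖T.curry x - T.curry x₀‖ < ε / 3}` is an open neighbourhood of `x₀`; finitely many of them
cover `X` (`isCompact_univ.elim_finite_subcover` or `CompactSpace.elim_nhds_subcover`), centres
`x_1, ..., x_I` (index a Finset by `Fin` through `Finset.equivFin` or `t.toList`). The map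
`y ↦ (fun i => T (x_i, y)) : Y → (Fin I → E)` is continuous, so
`{y | ∀ i, ‖T (x_i, y) - T (x_i, y₀)‖ < ε / 3}` is open; finitely many of them cover `Y`,
centres `y_j`. Take `e i j = T (x_i, y_j)`. -/
theorem cover_prod {X Y E : Type*} [TopologicalSpace X] [CompactSpace X] [TopologicalSpace Y]
    [CompactSpace Y] [NormedAddCommGroup E] (T : C(X × Y, E)) (ε : ℝ) (hε : 0 < ε) :
    ∃ (I J : ℕ) (U : Fin I → Set X) (V : Fin J → Set Y) (e : Fin I → Fin J → E),
      (∀ i, IsOpen (U i)) ∧ (⋃ i, U i) = Set.univ ∧ (∀ j, IsOpen (V j)) ∧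
      (⋃ j, V j) = Set.univ ∧
      ∀ i j x y, x ∈ U i → y ∈ V j → ‖T (x, y) - e i j‖ ≤ ε := by
  classical
  have hUo : ∀ x₀ : X, IsOpen {x | dist (T.curry x) (T.curry x₀) < ε / 3} := fun x₀ =>
    isOpen_lt (T.curry.continuous.dist continuous_const) continuous_const
  obtain ⟨t, ht⟩ := CompactSpace.elim_nhds_subcover
    (fun x₀ : X => {x | dist (T.curry x) (T.curry x₀) < ε / 3})
    (fun x₀ => (hUo x₀).mem_nhds (by
      show dist (T.curry x₀) (T.curry x₀) < ε / 3
      rw [dist_self]; linarith))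
  obtain ⟨c, hc⟩ : ∃ c : Fin t.card → X, ∀ x ∈ t, ∃ i, c i = x :=
    ⟨fun i => (t.equivFin.symm i : X), fun x hx => ⟨t.equivFin ⟨x, hx⟩, by simp⟩⟩
  have hVo : ∀ y₀ : Y, IsOpen {y | ∀ i, dist (T (c i, y)) (T (c i, y₀)) < ε / 3} := by
    intro y₀
    have : {y | ∀ i, dist (T (c i, y)) (T (c i, y₀)) < ε / 3} =
        ⋂ i, {y | dist (T (c i, y)) (T (c i, y₀)) < ε / 3} := by
      ext y
      simp
    rw [this]
    refine isOpen_iInter_of_finite fun i => ?_
    exact isOpen_lt ((T.continuous.comp (by fun_prop)).dist continuous_const) continuous_const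
  obtain ⟨s, hs⟩ := CompactSpace.elim_nhds_subcover
    (fun y₀ : Y => {y | ∀ i, dist (T (c i, y)) (T (c i, y₀)) < ε / 3})
    (fun y₀ => (hVo y₀).mem_nhds (by
      intro i
      rw [dist_self]; linarith))
  obtain ⟨d, hd⟩ : ∃ d : Fin s.card → Y, ∀ y ∈ s, ∃ j, d j = y :=
    ⟨fun j => (s.equivFin.symm j : Y), fun y hy => ⟨s.equivFin ⟨y, hy⟩, by simp⟩⟩
  refine ⟨t.card, s.card, fun i => {x | dist (T.curry x) (T.curry (c i)) < ε / 3},
    fun j => {y | ∀ i, dist (T (c i, y)) (T (c i, d j)) < ε / 3}, fun i j => T (c i, d j),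
    fun i => hUo (c i), ?_, fun j => hVo (d j), ?_, ?_⟩
  · rw [Set.eq_univ_iff_forall]
    intro x
    have hx : x ∈ (⊤ : Set X) := trivial
    rw [← ht] at hx
    simp only [Set.mem_iUnion] at hx
    obtain ⟨x₀, hx₀, hx⟩ := hx
    obtain ⟨i, rfl⟩ := hc x₀ hx₀
    exact Set.mem_iUnion.mpr ⟨i, hx⟩
  · rw [Set.eq_univ_iff_forall]
    intro y
    have hy : y ∈ (⊤ : Set Y) := trivial
    rw [← hs] at hy
    simp only [Set.mem_iUnion] at hy
    obtain ⟨y₀, hy₀, hy⟩ := hy
    obtain ⟨j, rfl⟩ := hd y₀ hy₀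
    exact Set.mem_iUnion.mpr ⟨j, hy⟩
  · intro i j x y hx hy
    have h1 : dist (T (x, y)) (T (c i, y)) < ε / 3 :=
      lt_of_le_of_lt (ContinuousMap.dist_apply_le_dist (f := T.curry x) (g := T.curry (c i)) y) hx
    have h2 : dist (T (c i, y)) (T (c i, d j)) < ε / 3 := hy i
    rw [← dist_eq_norm]
    linarith [dist_triangle (T (x, y)) (T (c i, y)) (T (c i, d j))]

end RC47
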