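import Pool.Agent.LibRC12.T7B0

/-! [RC12-T7 B3]  bad coefficient families lie in the range of some `Phi` -/

namespace RC47

theorem bad_mem_range {E P ι : Type*} [NormedAddCommGroup E] [NormedSpace ℝ E]
    (B : Set E) (hcone : ∀ r : ℝ, 0 < r → ∀ x ∈ B, r • x ∈ B)
    (f : ι → P → E) (hB : B ⊆ ⋃ l, Set.range (f l)) (d n I J : ℕ)
    (T : Fin I × Fin J → E) (la : Fin I → ℝ) (mu : Fin J → ℝ)
    (hla : ∀ i, 0 ≤ la i) (hmu : ∀ j, 0 ≤ mu j) (hla0 : ∃ i, la i ≠ 0) (hmu0 : ∃ j, mu j ≠ 0)
    (hlac : (Finset.univ.filter fun i => la i ≠ 0).card ≤ d + 1)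
    (hmuc : (Finset.univ.filter fun j => mu j ≠ 0).card ≤ n + 1)
    (hbad : ∑ i, ∑ j, (la i * mu j) • T (i, j) ∈ B) :
    ∃ (l : ι) (S : Finset (Fin I)) (R : Finset (Fin J)) (i0 : Fin I) (j0 : Fin J),
      S.card ≤ d ∧ R.card ≤ n ∧ T ∈ Set.range (Phi (f l) S R i0 j0) := by
  classical
  obtain ⟨i0, hi0⟩ := hla0
  obtain ⟨j0, hj0⟩ := hmu0
  have hi0p : 0 < la i0 := lt_of_le_of_ne (hla i0) (Ne.symm hi0)
  have hj0p : 0 < mu j0 := lt_of_le_of_ne (hmu j0) (Ne.symm hj0)
  set r : ℝ := (la i0 * mu j0)⁻¹ with hr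
  have hrp : 0 < r := by positivity
  have h1 := hB (hcone r hrp _ hbad)
  simp only [Set.mem_iUnion, Set.mem_range] at h1
  obtain ⟨l, π, hπ⟩ := h1
  set S : Finset (Fin I) := (Finset.univ.filter fun i => la i ≠ 0).erase i0 with hS
  set R : Finset (Fin J) := (Finset.univ.filter fun j => mu j ≠ 0).erase j0 with hR
  have hSc : S.card ≤ d := by
    rw [hS, Finset.card_erase_of_mem (by simp [hi0])]
    omega
  have hRc : R.card ≤ n := by
    rw [hR, Finset.card_erase_of_mem (by simp [hj0])]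
    omega
  have hlam1 : ∀ i, lam S i0 (fun i => la i / la i0) i = la i / la i0 := by
    intro i
    unfold lam
    by_cases h : i = i0
    · rw [if_pos h, h, div_self hi0]
    · rw [if_neg h]
      by_cases h2 : i ∈ S
      · rw [dif_pos h2]
      · rw [dif_neg h2]
        have : la i = 0 := by
          by_contra h3
          exact h2 (by rw [hS, Finset.mem_erase]; exact ⟨h, by simp [h3]⟩)
        rw [this, zero_div]
  have hlam2 : ∀ j, lam R j0 (fun j => mu j / mu j0) j = mu j / mu j0 := by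
    intro j
    unfold lam
    by_cases h : j = j0
    · rw [if_pos h, h, div_self hj0]
    · rw [if_neg h]
      by_cases h2 : j ∈ R
      · rw [dif_pos h2]
      · rw [dif_neg h2]
        have : mu j = 0 := by
          by_contra h3
          exact h2 (by rw [hR, Finset.mem_erase]; exact ⟨h, by simp [h3]⟩)
        rw [this, zero_div]
  refine ⟨l, S, R, i0, j0, hSc, hRc,
    ⟨(fun i => la i / la i0, fun j => mu j / mu j0, π, fun q => T q.1), ?_⟩⟩
  funext p
  unfold Phi
  by_cases hp : p = (i0, j0)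
  · rw [dif_pos hp]
    simp only [hlam1, hlam2]
    rw [hπ, hp]
    have h2 : r • ∑ i, ∑ j, (la i * mu j) • T (i, j) =
        ∑ q : Fin I × Fin J, (la q.1 / la i0 * (mu q.2 / mu j0)) • T q := by
      rw [Fintype.sum_prod_type, Finset.smul_sum]
      refine Finset.sum_congr rfl fun i _ => ?_
      rw [Finset.smul_sum]
      refine Finset.sum_congr rfl fun j _ => ?_
      rw [smul_smul]
      congr 1
      rw [hr]
      field_simp
    have h3 : ∑ q : Fin I × Fin J, (la q.1 / la i0 * (mu q.2 / mu j0)) • T q =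
        (la i0 / la i0 * (mu j0 / mu j0)) • T (i0, j0) +
        ∑ q : {p : Fin I × Fin J // p ≠ (i0, j0)},
          (la q.1.1 / la i0 * (mu q.1.2 / mu j0)) • T q.1 := by
      rw [← Finset.add_sum_erase _ _ (Finset.mem_univ (i0, j0))]
      congr 1
      symm
      refine Finset.sum_subtype (Finset.univ.erase (i0, j0)) (fun x => by simp)
        (fun q => (la q.1 / la i0 * (mu q.2 / mu j0)) • T q) |>.symm
    rw [h2, h3, div_self hi0, div_self hj0, mul_one, one_smul, add_sub_cancel_right]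
  · rw [dif_neg hp]

end RC47
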