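import Pool.Agent.LibRC12.T7B1
import Pool.Agent.LibRC12.T7B3

/-! [RC12-T7 B4]  finite dimensional general position -/

namespace RC47

open Module

private theorem B4_iSup_lt {α : Type*} [Finite α] (g : α → ENNReal) (c : ENNReal) (hc : 0 < c)
    (h : ∀ a, g a < c) : ⨆ a, g a < c := by
  have := Fintype.ofFinite α
  rw [← Finset.sup_univ_eq_iSup, Finset.sup_lt_iff (by exact hc)]
  exact fun a _ => h a

/-- HINT. Let `Bd` be the set of all `T : Fin I × Fin J → E` for which the conclusion fails for some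
`la, mu`. By `bad_mem_range` it is contained in the finite union of the ranges of
`Phi (f l) S R i0 j0` with `S.card ≤ d`, `R.card ≤ n`, each of `dimH < finrank` (`Phi_dimH`), so
`dimH Bd < finrank` (`dimH_bUnion`/`dimH_iUnion` over a finite index type, e.g. via `iSup_lt_iff`
or `Finset.sup`; note `0 < finrank` is needed for the empty union: `hdim` gives `finrank E > 0`,
and if `I = 0` or `J = 0` the statement is trivial) and
`dense_compl_of_dimH_lt_finrank` gives a `T` close to `fun p => e p.1 p.2` (sup norm on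
`Fin I × Fin J → E`). -/
theorem gen_finite {E P ι : Type*} [NormedAddCommGroup E] [NormedSpace ℝ E]
    [FiniteDimensional ℝ E] [NormedAddCommGroup P] [NormedSpace ℝ P] [FiniteDimensional ℝ P]
    [Finite ι]
    (B : Set E) (hcone : ∀ r : ℝ, 0 < r → ∀ x ∈ B, r • x ∈ B)
    (f : ι → P → E) (hf : ∀ l, ContDiff ℝ 1 (f l)) (hB : B ⊆ ⋃ l, Set.range (f l)) (d n : ℕ)
    (hdim : d + n + finrank ℝ P < finrank ℝ E) (I J : ℕ) (e : Fin I → Fin J → E)
    (ε : ℝ) (hε : 0 < ε) :
    ∃ T : Fin I → Fin J → E, (∀ i j, ‖T i j - e i j‖ ≤ ε) ∧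
      ∀ (la : Fin I → ℝ) (mu : Fin J → ℝ), (∀ i, 0 ≤ la i) → (∀ j, 0 ≤ mu j) →
        (∃ i, la i ≠ 0) → (∃ j, mu j ≠ 0) →
        (Finset.univ.filter fun i => la i ≠ 0).card ≤ d + 1 →
        (Finset.univ.filter fun j => mu j ≠ 0).card ≤ n + 1 →
        ∑ i, ∑ j, (la i * mu j) • T i j ∉ B := by
  by_cases hIJ : 0 < I ∧ 0 < J
  · let A := {p : ι × Finset (Fin I) × Finset (Fin J) × Fin I × Fin J //
      p.2.1.card ≤ d ∧ p.2.2.1.card ≤ n}
    let Bd : Set (Fin I × Fin J → E) := ⋃ p : A,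
      Set.range (Phi (f p.1.1) p.1.2.1 p.1.2.2.1 p.1.2.2.2.1 p.1.2.2.2.2)
    have hfr : 0 < finrank ℝ (Fin I × Fin J → E) := by
      have h1 : finrank ℝ (Fin I × Fin J → E) = (I * J) * finrank ℝ E := by
        rw [Module.finrank_pi_fintype]
        simp
      rw [h1]
      exact Nat.mul_pos (Nat.mul_pos hIJ.1 hIJ.2) (by omega)
    have hdimBd : dimH Bd < finrank ℝ (Fin I × Fin J → E) := by
      show dimH (⋃ p : A, Set.range (Phi (f p.1.1) p.1.2.1 p.1.2.2.1 p.1.2.2.2.1 p.1.2.2.2.2)) < _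
      rw [dimH_iUnion]
      refine B4_iSup_lt _ _ (by exact_mod_cast hfr) (fun p => ?_)
      refine Phi_dimH (f p.1.1) (hf _) _ _ _ _ ?_
      have h1 := p.2.1
      have h2 := p.2.2
      omega
    have hdense := dense_compl_of_dimH_lt_finrank hdimBd
    obtain ⟨T, hT, hdist⟩ := hdense.exists_dist_lt (fun p : Fin I × Fin J => e p.1 p.2) hε
    refine ⟨fun i j => T (i, j), fun i j => ?_, fun la mu hla hmu hla0 hmu0 hlac hmuc hbad => ?_⟩
    · rw [dist_comm, dist_eq_norm] at hdist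
      exact le_trans (norm_le_pi_norm (T - fun p : Fin I × Fin J => e p.1 p.2) (i, j)) hdist.le
    · obtain ⟨l, S, R, i0, j0, hS, hR, hmem⟩ := bad_mem_range B hcone f hB d n I J T la mu hla hmu
        hla0 hmu0 hlac hmuc hbad
      exact hT (Set.mem_iUnion.2 ⟨⟨(l, S, R, i0, j0), hS, hR⟩, hmem⟩)
  · refine ⟨e, fun i j => by rw [sub_self, norm_zero]; exact hε.le, ?_⟩
    rintro la mu - - ⟨i, -⟩ ⟨j, -⟩ - -
    exact absurd ⟨lt_of_le_of_lt (Nat.zero_le _) i.2, lt_of_le_of_lt (Nat.zero_le _) j.2⟩ hIJ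

end RC47
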