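import Pool.Agent.LibRC12.T7Defs
import Pool.Agent.LibRC12.T7A
import Pool.Agent.LibRC12.T7B4

/-! [RC12-T7 C]  general position on `X × Y` -/

namespace RC47

open Module RC12

/-- HINT. `cover_prod T (ε / 2)`, partitions of unity `φ_i`, `ψ_j` from `hX`, `hY` for these covers,
`T_ij` from `gen_finite` with `ε / 2`; `T' (x, y) = ∑ i, ∑ j, (φ_i x * ψ_j y) • T_ij`.
`T' w - T w = ∑∑ (φ_i ψ_j) • (T_ij - T w)` as `∑∑ φ_i ψ_j = 1`. -/
theorem gen_prod {X Y E P ι : Type*} [TopologicalSpace X] [CompactSpace X] [TopologicalSpace Y]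
    [CompactSpace Y] [NormedAddCommGroup E] [NormedSpace ℝ E]
    [FiniteDimensional ℝ E] [NormedAddCommGroup P] [NormedSpace ℝ P] [FiniteDimensional ℝ P]
    [Finite ι]
    (B : Set E) (hcone : ∀ r : ℝ, 0 < r → ∀ x ∈ B, r • x ∈ B)
    (f : ι → P → E) (hf : ∀ l, ContDiff ℝ 1 (f l)) (hB : B ⊆ ⋃ l, Set.range (f l)) (d n : ℕ)
    (hdim : d + n + finrank ℝ P < finrank ℝ E) (hX : POrd (d + 1) X) (hY : POrd (n + 1) Y)
    (T : C(X × Y, E)) (ε : ℝ) (hε : 0 < ε) :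
    ∃ T' : C(X × Y, E), (∀ w, T' w ∉ B) ∧ ∀ w, ‖T' w - T w‖ ≤ ε := by
  obtain ⟨I, J, U, V, e, hU, hUc, hV, hVc, he⟩ := cover_prod T (ε / 2) (half_pos hε)
  obtain ⟨φ, hφ0, hφ1, hφU, hφc⟩ := hX I U hU hUc
  obtain ⟨ψ, hψ0, hψ1, hψV, hψc⟩ := hY J V hV hVc
  obtain ⟨S, hS, hS'⟩ := gen_finite B hcone f hf hB d n hdim I J e (ε / 2) (half_pos hε)
  have hcont : Continuous fun w : X × Y => ∑ i, ∑ j, (φ i w.1 * ψ j w.2) • S i j := by
    refine continuous_finsetSum _ fun i _ => continuous_finsetSum _ fun j _ => ?_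
    exact (((φ i).continuous.comp continuous_fst).mul
      ((ψ j).continuous.comp continuous_snd)).smul continuous_const
  refine ⟨⟨fun w => ∑ i, ∑ j, (φ i w.1 * ψ j w.2) • S i j, hcont⟩, ?_, ?_⟩
  · rintro ⟨x, y⟩
    refine hS' (fun i => φ i x) (fun j => ψ j y) (fun i => hφ0 i x) (fun j => hψ0 j y) ?_ ?_
      (hφc x) (hψc y)
    · by_contra h
      push Not at h
      have h1 := hφ1 x
      rw [Finset.sum_eq_zero fun i _ => h i] at h1
      exact zero_ne_one h1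
    · by_contra h
      push Not at h
      have h1 := hψ1 y
      rw [Finset.sum_eq_zero fun i _ => h i] at h1
      exact zero_ne_one h1
  · rintro ⟨x, y⟩
    have h1 : ∑ i, ∑ j, φ i x * ψ j y = 1 := by
      simp_rw [← Finset.mul_sum, hψ1, mul_one, hφ1]
    have h2 : ∑ i, ∑ j, (φ i x * ψ j y) • S i j - T (x, y) =
        ∑ i, ∑ j, (φ i x * ψ j y) • (S i j - T (x, y)) := by
      have h3 : T (x, y) = ∑ i, ∑ j, (φ i x * ψ j y) • T (x, y) := by
        simp_rw [← Finset.sum_smul]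
        rw [h1, one_smul]
      conv_lhs => rw [h3]
      simp_rw [smul_sub, Finset.sum_sub_distrib]
    have h4 : ∀ i j, ‖(φ i x * ψ j y) • (S i j - T (x, y))‖ ≤ (φ i x * ψ j y) * ε := by
      intro i j
      rw [norm_smul, Real.norm_of_nonneg (mul_nonneg (hφ0 i x) (hψ0 j y))]
      by_cases h0 : φ i x * ψ j y = 0
      · rw [h0, zero_mul, zero_mul]
      · refine mul_le_mul_of_nonneg_left ?_ (mul_nonneg (hφ0 i x) (hψ0 j y))
        have h5 := he i j x y (hφU i x (left_ne_zero_of_mul h0)) (hψV j y (right_ne_zero_of_mul h0))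
        calc ‖S i j - T (x, y)‖ = ‖(S i j - e i j) - (T (x, y) - e i j)‖ := by
              rw [sub_sub_sub_cancel_right]
          _ ≤ ‖S i j - e i j‖ + ‖T (x, y) - e i j‖ := norm_sub_le _ _
          _ ≤ ε / 2 + ε / 2 := add_le_add (hS i j) h5
          _ = ε := add_halves ε
    show ‖∑ i, ∑ j, (φ i x * ψ j y) • S i j - T (x, y)‖ ≤ ε
    rw [h2]
    calc ‖∑ i, ∑ j, (φ i x * ψ j y) • (S i j - T (x, y))‖
        ≤ ∑ i, ‖∑ j, (φ i x * ψ j y) • (S i j - T (x, y))‖ := norm_sum_le _ _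
      _ ≤ ∑ i, ∑ j, ‖(φ i x * ψ j y) • (S i j - T (x, y))‖ :=
          Finset.sum_le_sum fun i _ => norm_sum_le _ _
      _ ≤ ∑ i, ∑ j, (φ i x * ψ j y) * ε :=
          Finset.sum_le_sum fun i _ => Finset.sum_le_sum fun j _ => h4 i j
      _ = (∑ i, ∑ j, φ i x * ψ j y) * ε := by simp_rw [Finset.sum_mul]
      _ = ε := by rw [h1, one_mul]

end RC47
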