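import Pool.Agent.LibRC12.T7D0

/-! [RC12-T7 D1]  smoothness of `colPar`, and non-injective matrices are in its range -/

namespace RC47

open Matrix

/-- HINT. `contDiff_pi` twice, then the cases `j = l`, `j = l.succAbove m`
(`Fin.insertNth_apply_same`, `Fin.insertNth_apply_succAbove`). -/
theorem colPar_contDiff {K k : ℕ} (l : Fin (k + 1)) :
    ContDiff ℝ 1 (colPar l : (Fin K → Fin k → ℂ) × (Fin k → ℂ) → (Fin K → Fin (k + 1) → ℂ)) := by
  have hA : ∀ (i : Fin K) (m : Fin k),
      ContDiff ℝ 1 fun z : (Fin K → Fin k → ℂ) × (Fin k → ℂ) => z.1 i m := fun i m =>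
    (contDiff_apply_apply ℝ ℂ i m).comp contDiff_fst
  have hB : ∀ m : Fin k,
      ContDiff ℝ 1 fun z : (Fin K → Fin k → ℂ) × (Fin k → ℂ) => z.2 m := fun m =>
    (contDiff_apply ℝ ℂ m).comp contDiff_snd
  refine contDiff_pi.2 fun i => contDiff_pi.2 fun j => ?_
  rcases Fin.eq_self_or_eq_succAbove l j with h | ⟨m, h⟩
  · subst h
    simp only [colPar, Fin.insertNth_apply_same]
    exact ContDiff.sum fun m _ => (hB m).mul (hA i m)
  · subst h
    simp only [colPar, Fin.insertNth_apply_succAbove]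
    exact hA i m

/-- HINT. `ξ l ≠ 0` for some `l`; then column `l` is `∑_m (-(ξ (l.succAbove m)) / ξ l) column m`. -/
theorem noninj_subset {K k : ℕ} :
    {M : Fin K → Fin (k + 1) → ℂ | ∃ ξ : Fin (k + 1) → ℂ, ξ ≠ 0 ∧
      (Matrix.of M) *ᵥ ξ = 0} ⊆ ⋃ l, Set.range (colPar (K := K) l) := by
  rintro M ⟨ξ, hξ, hM⟩
  obtain ⟨l, hl⟩ : ∃ l, ξ l ≠ 0 := by
    by_contra h
    push Not at h
    exact hξ (funext h)
  rw [Set.mem_iUnion]
  refine ⟨l, (fun i m => M i (l.succAbove m), fun m => -(ξ (l.succAbove m)) / ξ l), ?_⟩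
  funext i j
  rcases Fin.eq_self_or_eq_succAbove l j with h | ⟨m, h⟩
  · subst h
    simp only [colPar, Fin.insertNth_apply_same]
    have h1 : ∑ m, M i m * ξ m = 0 := congrFun hM i
    rw [Fin.sum_univ_succAbove _ j] at h1
    have h2 : ∑ m, -(ξ (j.succAbove m)) / ξ j * M i (j.succAbove m) =
        -(∑ m, M i (j.succAbove m) * ξ (j.succAbove m)) / ξ j := by
      rw [neg_div, Finset.sum_div, ← Finset.sum_neg_distrib]
      refine Finset.sum_congr rfl fun m _ => ?_
      ring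
    rw [h2, div_eq_iff hl]
    linear_combination -h1
  · subst h
    simp only [colPar, Fin.insertNth_apply_succAbove]

end RC47
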