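import Pool.Agent.LibRC12.T7Defs
import Pool.Agent.LibRC12.T7C
import Pool.Agent.LibRC12.T7D1

/-! [RC12-T7 D3]  matrix fields on `X × Y` can be made injective -/

namespace RC47

open Module Matrix RC12

/-- HINT. `k = 0` is trivial (`Subsingleton`). For `k = k' + 1` apply `gen_prod` with
`E = Fin K → Fin (k' + 1) → ℂ`, `B = {M | ∃ ξ ≠ 0, (Matrix.of M) *ᵥ ξ = 0}`, `ι = Fin (k' + 1)`,
`f = colPar`, `P = (Fin K → Fin k' → ℂ) × (Fin k' → ℂ)`; `finrank ℝ P = 2 K k' + 2 k'`,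
`finrank ℝ E = 2 K (k' + 1)`, and `d + n + 1 ≤ 2 (g + 1)`, `k' + 1 + g ≤ K` give
`d + n + 2 k' < 2 K`. A `C(X × Y, Matrix (Fin K) (Fin k) ℂ)` is a `C(X × Y, E)` by `rfl` (topologies
agree definitionally). -/
theorem injGen_prod {X Y : Type*} [TopologicalSpace X] [CompactSpace X] [TopologicalSpace Y]
    [CompactSpace Y] (d n g : ℕ) (hX : POrd (d + 1) X) (hY : POrd (n + 1) Y)
    (hD : d + n + 1 ≤ 2 * (g + 1)) : InjGen (X × Y) g := by
  intro K k hk T ε hε
  rcases k with _ | k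
  · refine ⟨T, fun w ξ _ => Subsingleton.elim _ _, fun w i j => ?_⟩
    rw [sub_self, norm_zero]
    exact hε.le
  · have hE : finrank ℝ (Fin K → Fin (k + 1) → ℂ) = 2 * K * (k + 1) := by
      rw [Module.finrank_pi_fintype]
      simp only [Module.finrank_pi_fintype, Complex.finrank_real_complex, Finset.sum_const,
        Finset.card_univ, Fintype.card_fin, smul_eq_mul]
      ring
    have hP : finrank ℝ ((Fin K → Fin k → ℂ) × (Fin k → ℂ)) = 2 * K * k + 2 * k := by
      rw [Module.finrank_prod, Module.finrank_pi_fintype]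
      simp only [Module.finrank_pi_fintype, Complex.finrank_real_complex, Finset.sum_const,
        Finset.card_univ, Fintype.card_fin, smul_eq_mul]
      ring
    obtain ⟨T', h1, h2⟩ := gen_prod (X := X) (Y := Y) (E := Fin K → Fin (k + 1) → ℂ)
      (P := (Fin K → Fin k → ℂ) × (Fin k → ℂ)) (ι := Fin (k + 1))
      {M : Fin K → Fin (k + 1) → ℂ | ∃ ξ : Fin (k + 1) → ℂ, ξ ≠ 0 ∧ (Matrix.of M) *ᵥ ξ = 0}
      (by
        rintro r hr M ⟨ξ, hξ, hM⟩
        refine ⟨ξ, hξ, ?_⟩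
        have h3 : (Matrix.of (r • M)) *ᵥ ξ = r • ((Matrix.of M) *ᵥ ξ) :=
          Matrix.smul_mulVec r (Matrix.of M) ξ
        rw [h3, hM, smul_zero])
      colPar colPar_contDiff noninj_subset d n (by
        rw [hE, hP]
        have h4 : d + n + 1 + 2 * (k + 1) ≤ 2 * K + 2 := by omega
        have h5 : 2 * K * (k + 1) = 2 * K * k + 2 * K := by ring
        omega) hX hY T ε hε
    refine ⟨T', ?_, ?_⟩
    · intro w ξ hξ
      by_contra h
      exact h1 w ⟨ξ, h, hξ⟩
    · intro w i j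
      have h6 : ∀ v : Fin K → Fin (k + 1) → ℂ, ‖v i j‖ ≤ ‖v‖ := fun v =>
        (norm_le_pi_norm _ j).trans (norm_le_pi_norm v i)
      exact (h6 _).trans (h2 w)

end RC47
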