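import Pool.Agent.LibRC12.Core

/-!
Section 7 of the proof for MP_19886c_an (general position over X x Y), architect helper47.
-/

namespace RC47

open Matrix

/-- Every matrix field with at least `g` extra rows can be made injective by a small
perturbation.  (`W` will be `X × Y`.) -/
def InjGen (W : Type*) [TopologicalSpace W] (g : ℕ) : Prop :=
  ∀ (K k : ℕ), k + g ≤ K → ∀ (T : C(W, Matrix (Fin K) (Fin k) ℂ)) (ε : ℝ), 0 < ε →
    ∃ T' : C(W, Matrix (Fin K) (Fin k) ℂ),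
      (∀ w, ∀ ξ : Fin k → ℂ, (T' w) *ᵥ ξ = 0 → ξ = 0) ∧
      ∀ w i j, ‖T' w i j - T w i j‖ ≤ ε

/-- `v` is good at `w` (for the fields `b`, `c`): the stacked matrix `[b v ; c]` is injective. -/
def GoodAt {W : Type*} {N : ℕ} (b c v : W → Matrix (Fin N) (Fin N) ℂ) (w : W) : Prop :=
  ∀ ξ : Fin N → ℂ, (b w) *ᵥ ((v w) *ᵥ ξ) = 0 → (c w) *ᵥ ξ = 0 → ξ = 0

end RC47
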