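import Pool.Agent.LibRC12.T7Defs

/-! [RC12-T7 I]  goodness over a compact set is stable under small perturbations -/

namespace RC47

open Matrix

/-- HINT. The function `(w, ξ) ↦ ‖b w *ᵥ (v w *ᵥ ξ)‖ + ‖c w *ᵥ ξ‖` is continuous and positive on the
compact set `Z ×ˢ {ξ | ‖ξ‖ = 1}`, so it is `≥ m > 0` there (if `Z` is empty there is nothing to
prove; if `N = 0` every `ξ` is `0`). The entries of `b w` are bounded by `C`, so
`‖b w *ᵥ ((v' w - v w) *ᵥ ξ)‖ ≤ N * C * N * δ * ‖ξ‖ < m`. For general `ξ ≠ 0` scale to norm `1`. -/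
theorem good_open {W : Type*} [TopologicalSpace W] [CompactSpace W] {N : ℕ}
    (b c v : C(W, Matrix (Fin N) (Fin N) ℂ)) (Z : Set W) (hZ : IsCompact Z)
    (hg : ∀ w ∈ Z, GoodAt b c v w) :
    ∃ δ : ℝ, 0 < δ ∧ ∀ v' : C(W, Matrix (Fin N) (Fin N) ℂ),
      (∀ w i j, ‖v' w i j - v w i j‖ ≤ δ) → ∀ w ∈ Z, GoodAt b c v' w := by
  let G : (W × (Fin N → ℂ)) × (Fin N → Fin N → ℂ) → ℝ := fun p =>
    ‖(b p.1.1) *ᵥ ((v p.1.1 + Matrix.of p.2) *ᵥ p.1.2)‖ + ‖(c p.1.1) *ᵥ p.1.2‖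
  have hG : Continuous G := by
    have c1 : Continuous fun p : (W × (Fin N → ℂ)) × (Fin N → Fin N → ℂ) => p.1.1 :=
      continuous_fst.comp continuous_fst
    have c2 : Continuous fun p : (W × (Fin N → ℂ)) × (Fin N → Fin N → ℂ) => p.1.2 :=
      continuous_snd.comp continuous_fst
    have c3 : Continuous fun p : (W × (Fin N → ℂ)) × (Fin N → Fin N → ℂ) =>
        (Matrix.of p.2 : Matrix (Fin N) (Fin N) ℂ) := continuous_snd
    refine Continuous.add (Continuous.norm ?_) (Continuous.norm ?_)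
    · exact (b.continuous.comp c1).matrix_mulVec
        (((v.continuous.comp c1).add c3).matrix_mulVec c2)
    · exact (c.continuous.comp c1).matrix_mulVec c2
  have hopen : IsOpen {p | 0 < G p} := isOpen_lt continuous_const hG
  have hK : IsCompact (Z ×ˢ Metric.sphere (0 : Fin N → ℂ) 1) :=
    hZ.prod (isCompact_sphere _ _)
  have hsub : (Z ×ˢ Metric.sphere (0 : Fin N → ℂ) 1) ×ˢ ({0} : Set (Fin N → Fin N → ℂ)) ⊆
      {p | 0 < G p} := by
    rintro ⟨⟨w, ξ⟩, D⟩ ⟨⟨hw, hξ⟩, hD⟩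
    rw [Set.mem_singleton_iff] at hD
    simp only at hD hw hξ
    subst hD
    show 0 < ‖(b w) *ᵥ ((v w + Matrix.of 0) *ᵥ ξ)‖ + ‖(c w) *ᵥ ξ‖
    have h0 : v w + Matrix.of (0 : Fin N → Fin N → ℂ) = v w := by
      ext i j
      simp
    rw [h0]
    by_contra hcon
    have h1 : ‖(b w) *ᵥ ((v w) *ᵥ ξ)‖ + ‖(c w) *ᵥ ξ‖ = 0 :=
      le_antisymm (not_lt.1 hcon) (add_nonneg (norm_nonneg _) (norm_nonneg _))
    have h2 := (add_eq_zero_iff_of_nonneg (norm_nonneg _) (norm_nonneg _)).1 h1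
    have h3 : ξ = 0 := hg w hw ξ (norm_eq_zero.1 h2.1) (norm_eq_zero.1 h2.2)
    rw [h3] at hξ
    simp at hξ
  obtain ⟨U, V, -, hV, hKU, h0V, hUV⟩ :=
    generalized_tube_lemma hK isCompact_singleton hopen hsub
  obtain ⟨ε, hε, hball⟩ := Metric.isOpen_iff.1 hV 0 (h0V rfl)
  refine ⟨ε / 2, by positivity, fun v' hv' w hw ξ h1 h2 => ?_⟩
  by_contra hξ
  have hn : 0 < ‖ξ‖ := norm_pos_iff.2 hξ
  let D : Fin N → Fin N → ℂ := fun i j => v' w i j - v w i j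
  have hD : D ∈ V := by
    apply hball
    rw [mem_ball_zero_iff]
    refine lt_of_le_of_lt ?_ (half_lt_self hε)
    rw [pi_norm_le_iff_of_nonneg (by positivity)]
    intro i
    rw [pi_norm_le_iff_of_nonneg (by positivity)]
    intro j
    exact hv' w i j
  let ξ' : Fin N → ℂ := ((‖ξ‖⁻¹ : ℝ) : ℂ) • ξ
  have hξ' : ξ' ∈ Metric.sphere (0 : Fin N → ℂ) 1 := by
    rw [mem_sphere_zero_iff_norm, norm_smul, Complex.norm_real, Real.norm_of_nonneg (by positivity),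
      inv_mul_cancel₀ hn.ne']
  have h3 : ((w, ξ'), D) ∈ {p | 0 < G p} := hUV ⟨hKU ⟨hw, hξ'⟩, hD⟩
  have h4 : 0 < ‖(b w) *ᵥ ((v w + Matrix.of D) *ᵥ ξ')‖ + ‖(c w) *ᵥ ξ'‖ := h3
  have h5 : v w + Matrix.of D = v' w := by
    ext i j
    simp [D]
  rw [h5, Matrix.mulVec_smul, Matrix.mulVec_smul, Matrix.mulVec_smul, h1, h2, smul_zero,
    norm_zero, add_zero] at h4
  exact lt_irrefl _ h4

end RC47
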