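import Pool.Agent.LibRC12.T7H
import Pool.Agent.LibRC12.T7I

/-! [RC12-T7 J]  a globally good field -/

namespace RC47

open Matrix

theorem global_good {W : Type*} [TopologicalSpace W] [CompactSpace W] [T2Space W] (g : ℕ)
    (hG : InjGen W g) {N : ℕ} (b c : C(W, Matrix (Fin N) (Fin N) ℂ))
    (hr : ∀ w, N + g ≤ (b w).rank + (c w).rank) :
    ∃ v : C(W, Matrix (Fin N) (Fin N) ℂ), ∀ w, GoodAt b c v w := by
  choose O hO hwO hden using fun w0 => local_dense g hG b c w0 (hr w0)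
  have hZ : ∀ w0 : W, ∃ Z : Set W, IsCompact Z ∧ w0 ∈ interior Z ∧ Z ⊆ O w0 := fun w0 =>
    exists_compact_subset (hO w0) (hwO w0)
  choose Z hZc hwZ hZO using hZ
  obtain ⟨t, ht⟩ := isCompact_univ.elim_finite_subcover (fun w0 => interior (Z w0))
    (fun w0 => isOpen_interior) (fun w _ => Set.mem_iUnion.2 ⟨w, hwZ w⟩)
  have key : ∀ s : Finset W, ∀ (v : C(W, Matrix (Fin N) (Fin N) ℂ)) (ε : ℝ), 0 < ε →
      ∃ v' : C(W, Matrix (Fin N) (Fin N) ℂ), (∀ w0 ∈ s, ∀ w ∈ Z w0, GoodAt b c v' w) ∧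
        ∀ w i j, ‖v' w i j - v w i j‖ ≤ ε := by
    intro s
    induction s using Finset.cons_induction with
    | empty =>
      intro v ε hε
      exact ⟨v, fun w0 h0 => absurd h0 (Finset.notMem_empty _), fun w i j => by simpa using hε.le⟩
    | cons w1 s hw1 ih =>
      intro v ε hε
      obtain ⟨v1, hv1, hv1e⟩ := ih v (ε / 2) (by positivity)
      have hcomp : IsCompact (⋃ w0 ∈ s, Z w0) := s.isCompact_biUnion fun w0 _ => hZc w0
      obtain ⟨δ, hδ, hδg⟩ := good_open b c v1 (⋃ w0 ∈ s, Z w0) hcomp (by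
        intro w hw
        simp only [Set.mem_iUnion] at hw
        obtain ⟨w0, hw0, hw⟩ := hw
        exact hv1 w0 hw0 w hw)
      obtain ⟨v2, hv2, hv2e⟩ := hden w1 v1 (min (ε / 2) δ) (lt_min (by positivity) hδ)
      refine ⟨v2, ?_, ?_⟩
      · intro w0 hw0 w hw
        rw [Finset.mem_cons] at hw0
        rcases hw0 with rfl | hw0
        · exact hv2 w (hZO _ hw)
        · exact hδg v2 (fun w i j => (hv2e w i j).trans (min_le_right _ _)) w
            (Set.mem_iUnion₂.2 ⟨w0, hw0, hw⟩)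
      · intro w i j
        calc ‖v2 w i j - v w i j‖ = ‖(v2 w i j - v1 w i j) + (v1 w i j - v w i j)‖ := by
              congr 1; ring
          _ ≤ ‖v2 w i j - v1 w i j‖ + ‖v1 w i j - v w i j‖ := norm_add_le _ _
          _ ≤ ε / 2 + ε / 2 := add_le_add ((hv2e w i j).trans (min_le_left _ _)) (hv1e w i j)
          _ = ε := by ring
  obtain ⟨v', hv', -⟩ := key t 0 1 one_pos
  refine ⟨v', fun w => ?_⟩
  have := ht (Set.mem_univ w)
  simp only [Set.mem_iUnion] at this
  obtain ⟨w0, hw0, hw⟩ := this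
  exact hv' w0 hw0 w (interior_subset hw)

end RC47
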