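import Pool.Agent.LibRC12.T7K1

/-! [RC12-T7 K2]  explicit comparison -/

open scoped ComplexOrder

namespace RC47

private theorem K2_cont_g (e : ℝ) : Continuous (gcut e) :=
  (continuous_id.sub continuous_const).max continuous_const

private theorem K2_cont_s (e : ℝ) : Continuous (scut e) :=
  Real.continuous_sqrt.comp ((continuous_id.sub continuous_const).max continuous_const)

private theorem K2_pos (κ t : ℝ) (hκ : 0 < κ) : 0 < max t 0 + κ :=
  add_pos_of_nonneg_of_pos (le_max_right _ _) hκ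

private theorem K2_cont_r (κ : ℝ) (hκ : 0 < κ) : Continuous (rcut κ) := by
  refine Continuous.inv₀ (Real.continuous_sqrt.comp
    ((continuous_id.max continuous_const).add continuous_const)) (fun t => ?_)
  exact (Real.sqrt_pos.2 (K2_pos κ t hκ)).ne'

private theorem K2_rcut_sq (κ t : ℝ) (hκ : 0 < κ) : rcut κ t * rcut κ t = (max t 0 + κ)⁻¹ := by
  unfold rcut
  rw [← mul_inv, Real.mul_self_sqrt (K2_pos κ t hκ).le]

private theorem K2_scut_sq (e t : ℝ) : scut e t * scut e t = gcut e t := by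
  unfold scut gcut
  exact Real.mul_self_sqrt (le_max_right _ _)

private theorem K2_gcut_nonneg (e t : ℝ) : 0 ≤ gcut e t := le_max_right _ _

/-- HINT. `g = cfc (gcut e) a`, `Z = star v * b * v ≥ 0`, `Nn = g * Z * g`. As `h(a) g = 0`
(`hcut_eq`), `Nn = g (Z + h(a)) g ≥ r g²` (conjugation of the hypothesis by `g`,
`star_left_conjugate_le_conjugate` / `conjugate_le_conjugate`). With `q = cfc (rcut κ) Nn` (commutes
with `Nn`, `q² = (Nn + κ)⁻¹`), `s = cfc (scut e) a` (`s * s = g`):
`star V * b * V = s q Nn q s = s (1 - κ q²) s = g - κ s q² s`. And `0 ≤ κ s q² s`,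
`q² = (Nn + κ)⁻¹ ≤ (r g² + κ)⁻¹ = cfc (fun t => (r (gcut e t)² + κ)⁻¹) a`
(`CStarAlgebra.inv_le_inv`/`CStarAlgebra.rpow_neg_one_le_rpow_neg_one`, or the lemma on inverses of
units in `Mathlib/Analysis/CStarAlgebra/ContinuousFunctionalCalculus/Order.lean`), so
`κ s q² s ≤ cfc (fun t => κ g(t) / (r g(t)² + κ)) a`, of norm `≤ √κ / (2 √r)` because
`r g² + κ ≥ 2 √(r κ) g`. -/
theorem step_explicit {M : Type*} [CStarAlgebra M] [PartialOrder M] [StarOrderedRing M]
    (a b v : M) (ha : 0 ≤ a) (hb : 0 ≤ b) (e r κ : ℝ) (he : 0 < e) (hr : 0 < r) (hκ : 0 < κ)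
    (h : (r : ℂ) • (1 : M) ≤ star v * b * v + cfc (hcut e) a) :
    ‖star (VV a b v e κ) * b * VV a b v e κ - cfc (gcut e) a‖ ≤
      Real.sqrt κ / (2 * Real.sqrt r) := by
  have hasa : IsSelfAdjoint a := IsSelfAdjoint.of_nonneg ha
  set g : M := cfc (gcut e) a with hg
  have hgsa : IsSelfAdjoint g := cfc_predicate (gcut e) a
  set Z : M := star v * b * v with hZ
  have hZ0 : 0 ≤ Z := star_left_conjugate_nonneg hb v
  set Nn : M := g * Z * g with hNn
  have hN0 : 0 ≤ Nn := by
    have := star_left_conjugate_nonneg hZ0 g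
    rwa [hgsa.star_eq] at this
  have hNsa : IsSelfAdjoint Nn := IsSelfAdjoint.of_nonneg hN0
  set q : M := cfc (rcut κ) Nn with hq
  have hqsa : IsSelfAdjoint q := cfc_predicate (rcut κ) Nn
  set s : M := cfc (scut e) a with hs
  have hssa : IsSelfAdjoint s := cfc_predicate (scut e) a
  have hss : s * s = g := by
    rw [hs, hg, ← cfc_mul (scut e) (scut e) a (K2_cont_s e).continuousOn
      (K2_cont_s e).continuousOn]
    refine cfc_congr (fun t _ => ?_)
    exact K2_scut_sq e t
  have hspec : ∀ t ∈ spectrum ℝ Nn, 0 ≤ t := fun t ht => spectrum_nonneg_of_nonneg hN0 ht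
  -- `q N q = 1 - κ q²`
  have hqq : q * q = cfc (fun t : ℝ => (max t 0 + κ)⁻¹) Nn := by
    rw [hq, ← cfc_mul (rcut κ) (rcut κ) Nn (K2_cont_r κ hκ).continuousOn
      (K2_cont_r κ hκ).continuousOn]
    refine cfc_congr (fun t _ => ?_)
    exact K2_rcut_sq κ t hκ
  have hcinv : Continuous (fun t : ℝ => (max t 0 + κ)⁻¹) :=
    ((continuous_id.max continuous_const).add continuous_const).inv₀
      (fun t => (K2_pos κ t hκ).ne')
  have hqNq : q * Nn * q = 1 - κ • (q * q) := by
    have e1 : q * Nn * q = cfc (fun t : ℝ => rcut κ t * t * rcut κ t) Nn := by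
      rw [cfc_mul (fun t : ℝ => rcut κ t * t) (rcut κ) Nn
        ((K2_cont_r κ hκ).mul continuous_id).continuousOn (K2_cont_r κ hκ).continuousOn,
        cfc_mul (rcut κ) (fun t : ℝ => t) Nn (K2_cont_r κ hκ).continuousOn
        continuousOn_id, cfc_id' ℝ Nn]
    have e2 : (1 : M) - κ • (q * q) = cfc (fun t : ℝ => 1 - κ * (max t 0 + κ)⁻¹) Nn := by
      rw [cfc_sub (fun _ : ℝ => (1 : ℝ)) (fun t : ℝ => κ * (max t 0 + κ)⁻¹) Nn
        continuousOn_const (continuous_const.mul hcinv).continuousOn,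
        cfc_const_one ℝ Nn, cfc_const_mul κ (fun t : ℝ => (max t 0 + κ)⁻¹) Nn
        hcinv.continuousOn, hqq]
    rw [e1, e2]
    refine cfc_congr (fun t ht => ?_)
    have h0 := hspec t ht
    have h1 := K2_rcut_sq κ t hκ
    have h2 := K2_pos κ t hκ
    rw [max_eq_left h0] at h1 h2
    show rcut κ t * t * rcut κ t = 1 - κ * (max t 0 + κ)⁻¹
    rw [max_eq_left h0]
    calc rcut κ t * t * rcut κ t = t * (rcut κ t * rcut κ t) := by ring
      _ = t * (t + κ)⁻¹ := by rw [h1]
      _ = 1 - κ * (t + κ)⁻¹ := by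
        field_simp
        ring
  have hV : star (VV a b v e κ) * b * VV a b v e κ = g - κ • (s * (q * q) * s) := by
    have e1 : VV a b v e κ = v * g * q * s := rfl
    rw [e1, star_mul, star_mul, star_mul, hssa.star_eq, hqsa.star_eq, hgsa.star_eq]
    calc s * (q * (g * star v)) * b * (v * g * q * s)
        = s * (q * (g * (star v * b * v) * g) * q) * s := by simp only [mul_assoc]
      _ = s * (q * Nn * q) * s := by rw [← hZ, ← hNn]
      _ = s * (1 - κ • (q * q)) * s := by rw [hqNq]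
      _ = g - κ • (s * (q * q) * s) := by
        rw [mul_sub, sub_mul, mul_one, hss, mul_smul_comm, smul_mul_assoc]
  have hdiff : star (VV a b v e κ) * b * VV a b v e κ - g = -(κ • (s * (q * q) * s)) := by
    rw [hV]
    abel
  -- comparison of the inverses
  set fA : ℝ → ℝ := fun t => r * (gcut e t * gcut e t) + κ with hfA
  have hfApos : ∀ t, 0 < fA t := fun t =>
    add_pos_of_nonneg_of_pos (mul_nonneg hr.le (mul_self_nonneg _)) hκ
  have hfAc : Continuous fA :=
    (continuous_const.mul ((K2_cont_g e).mul (K2_cont_g e))).add continuous_const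
  have hfAic : Continuous (fun t => (fA t)⁻¹) := hfAc.inv₀ (fun t => (hfApos t).ne')
  have hcp : Continuous (fun t : ℝ => max t 0 + κ) :=
    (continuous_id.max continuous_const).add continuous_const
  have hA1 : cfc fA a * cfc (fun t => (fA t)⁻¹) a = 1 := by
    rw [← cfc_mul fA (fun t => (fA t)⁻¹) a hfAc.continuousOn hfAic.continuousOn,
      ← cfc_const_one ℝ a]
    refine cfc_congr (fun t _ => ?_)
    exact mul_inv_cancel₀ (hfApos t).ne'
  have hA2 : cfc (fun t => (fA t)⁻¹) a * cfc fA a = 1 := by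
    rw [← cfc_mul (fun t => (fA t)⁻¹) fA a hfAic.continuousOn hfAc.continuousOn,
      ← cfc_const_one ℝ a]
    refine cfc_congr (fun t _ => ?_)
    exact inv_mul_cancel₀ (hfApos t).ne'
  have hB1 : cfc (fun t : ℝ => max t 0 + κ) Nn * cfc (fun t : ℝ => (max t 0 + κ)⁻¹) Nn = 1 := by
    rw [← cfc_mul (fun t : ℝ => max t 0 + κ) (fun t : ℝ => (max t 0 + κ)⁻¹) Nn
      hcp.continuousOn hcinv.continuousOn, ← cfc_const_one ℝ Nn]
    refine cfc_congr (fun t _ => ?_)
    exact mul_inv_cancel₀ (K2_pos κ t hκ).ne'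
  have hB2 : cfc (fun t : ℝ => (max t 0 + κ)⁻¹) Nn * cfc (fun t : ℝ => max t 0 + κ) Nn = 1 := by
    rw [← cfc_mul (fun t : ℝ => (max t 0 + κ)⁻¹) (fun t : ℝ => max t 0 + κ) Nn
      hcinv.continuousOn hcp.continuousOn, ← cfc_const_one ℝ Nn]
    refine cfc_congr (fun t _ => ?_)
    exact inv_mul_cancel₀ (K2_pos κ t hκ).ne'
  let uA : Mˣ := ⟨cfc fA a, cfc (fun t => (fA t)⁻¹) a, hA1, hA2⟩
  let uN : Mˣ := ⟨cfc (fun t : ℝ => max t 0 + κ) Nn, cfc (fun t : ℝ => (max t 0 + κ)⁻¹) Nn,
    hB1, hB2⟩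
  have hA : cfc fA a = r • (g * g) + algebraMap ℝ M κ := by
    rw [hfA, cfc_add a (fun t => r * (gcut e t * gcut e t)) (fun _ => κ)
      (continuous_const.mul ((K2_cont_g e).mul (K2_cont_g e))).continuousOn continuousOn_const,
      cfc_const κ a, cfc_const_mul r (fun t => gcut e t * gcut e t) a
      ((K2_cont_g e).mul (K2_cont_g e)).continuousOn,
      cfc_mul (gcut e) (gcut e) a (K2_cont_g e).continuousOn (K2_cont_g e).continuousOn]
  have hB : cfc (fun t : ℝ => max t 0 + κ) Nn = Nn + algebraMap ℝ M κ := by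
    rw [cfc_add Nn (fun t : ℝ => max t 0) (fun _ => κ)
      (continuous_id.max continuous_const).continuousOn continuousOn_const, cfc_const κ Nn]
    congr 1
    conv_rhs => rw [← cfc_id' ℝ Nn]
    refine cfc_congr (fun t ht => ?_)
    exact max_eq_left (hspec t ht)
  have hle : r • (g * g) ≤ Nn := by
    have h1 := star_left_conjugate_le_conjugate h g
    rw [hgsa.star_eq, mul_add, add_mul] at h1
    obtain ⟨-, -, h2⟩ := hcut_eq a ha e he
    have h3 : g * cfc (hcut e) a * g = 0 := by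
      rw [mul_assoc, h2, mul_zero]
    rw [h3, add_zero, mul_smul_comm, mul_one, smul_mul_assoc, Complex.coe_smul] at h1
    exact h1
  have hAB : (uA : M) ≤ uN := by
    show cfc fA a ≤ cfc (fun t : ℝ => max t 0 + κ) Nn
    rw [hA, hB]
    exact add_le_add_left hle _
  have hA0 : (0 : M) ≤ uA := cfc_nonneg (fun t _ => (hfApos t).le)
  have hinv : q * q ≤ cfc (fun t => (fA t)⁻¹) a := by
    rw [hqq]
    exact CStarAlgebra.inv_le_inv hA0 hAB
  have hqq0 : 0 ≤ q * q := by
    have := star_mul_self_nonneg q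
    rwa [hqsa.star_eq] at this
  have hsq0 : 0 ≤ s * (q * q) * s := by
    have := star_left_conjugate_nonneg hqq0 s
    rwa [hssa.star_eq] at this
  have hsq1 : s * (q * q) * s ≤ s * cfc (fun t => (fA t)⁻¹) a * s := by
    have := star_left_conjugate_le_conjugate hinv s
    rwa [hssa.star_eq] at this
  have hsq2 : s * cfc (fun t => (fA t)⁻¹) a * s =
      cfc (fun t => scut e t * (fA t)⁻¹ * scut e t) a := by
    rw [cfc_mul (fun t => scut e t * (fA t)⁻¹) (scut e) a
      ((K2_cont_s e).mul hfAic).continuousOn (K2_cont_s e).continuousOn,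
      cfc_mul (scut e) (fun t => (fA t)⁻¹) a (K2_cont_s e).continuousOn hfAic.continuousOn]
  have hsr : 0 < Real.sqrt r := Real.sqrt_pos.2 hr
  have hsκ : 0 < Real.sqrt κ := Real.sqrt_pos.2 hκ
  have hnorm : ‖s * (q * q) * s‖ ≤ 1 / (2 * (Real.sqrt r * Real.sqrt κ)) := by
    refine le_trans (CStarAlgebra.norm_le_norm_of_nonneg_of_le hsq0 hsq1) ?_
    rw [hsq2]
    refine norm_cfc_le (by positivity) (fun t _ => ?_)
    have h1 : scut e t * (fA t)⁻¹ * scut e t = gcut e t / fA t := by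
      calc scut e t * (fA t)⁻¹ * scut e t = (scut e t * scut e t) * (fA t)⁻¹ := by ring
        _ = gcut e t / fA t := by rw [K2_scut_sq, div_eq_mul_inv]
    rw [h1, Real.norm_of_nonneg (div_nonneg (K2_gcut_nonneg e t) (hfApos t).le),
      div_le_div_iff₀ (hfApos t) (by positivity)]
    have h2 : Real.sqrt r * Real.sqrt r = r := Real.mul_self_sqrt hr.le
    have h3 : Real.sqrt κ * Real.sqrt κ = κ := Real.mul_self_sqrt hκ.le
    show gcut e t * (2 * (Real.sqrt r * Real.sqrt κ)) ≤ 1 * (r * (gcut e t * gcut e t) + κ)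
    nlinarith [sq_nonneg (Real.sqrt r * gcut e t - Real.sqrt κ)]
  rw [hdiff, norm_neg, norm_smul, Real.norm_of_nonneg hκ.le]
  calc κ * ‖s * (q * q) * s‖ ≤ κ * (1 / (2 * (Real.sqrt r * Real.sqrt κ))) :=
        mul_le_mul_of_nonneg_left hnorm hκ.le
    _ = Real.sqrt κ / (2 * Real.sqrt r) := by
        have h3 : Real.sqrt κ * Real.sqrt κ = κ := Real.mul_self_sqrt hκ.le
        rw [mul_one_div, div_eq_div_iff (by positivity) (by positivity)]
        calc κ * (2 * Real.sqrt r) = (Real.sqrt κ * Real.sqrt κ) * (2 * Real.sqrt r) := by rw [h3]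
          _ = Real.sqrt κ * (2 * (Real.sqrt r * Real.sqrt κ)) := by ring

end RC47
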