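import Pool.Agent.LibRC12.Core
import Pool.Agent.LibRC12.T7K2

/-! [RC12-T7 K4]  the C*-step for continuous fields -/

open scoped ComplexOrder

namespace RC47

theorem continuous_hcut (e : ℝ) : Continuous (hcut e) := by
  unfold hcut; fun_prop

theorem continuous_kcut {e : ℝ} (he : 0 < e) : Continuous (kcut e) := by
  unfold kcut
  exact (continuous_id.max continuous_const).inv₀ fun t => (lt_max_of_lt_right he).ne'

theorem continuous_gcut (e : ℝ) : Continuous (gcut e) := by
  unfold gcut; fun_prop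

theorem continuous_scut (e : ℝ) : Continuous (scut e) := by
  unfold scut; fun_prop

theorem continuous_rcut {κ : ℝ} (hκ : 0 < κ) : Continuous (rcut κ) := by
  unfold rcut
  refine Continuous.inv₀ (by fun_prop) fun t => ?_
  have : 0 < max t 0 + κ := by have := le_max_right t 0; linarith
  exact (Real.sqrt_pos.2 this).ne'

theorem abstract_step {W M : Type*} [TopologicalSpace W] [CStarAlgebra M]
    [PartialOrder M] [StarOrderedRing M] (a b : C(W, M)) (ha : ∀ w, 0 ≤ a w)
    (hb : ∀ w, 0 ≤ b w) (η : ℝ) (hη : 0 < η) :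
    ∃ h k : C(W, M), (∀ w, 0 ≤ h w) ∧ (∀ w, h w = 1 - k w * a w) ∧
      ∀ (v : C(W, M)) (r : ℝ), 0 < r →
        (∀ w, (r : ℂ) • (1 : M) ≤ star (v w) * b w * v w + h w) →
        ∃ V : C(W, M), ∀ w, ‖star (V w) * b w * V w - a w‖ ≤ η := by
  set e : ℝ := η / 2 with he
  have he0 : 0 < e := by positivity
  have hsa : ∀ w, IsSelfAdjoint (a w) := fun w => IsSelfAdjoint.of_nonneg (ha w)
  refine ⟨⟨fun w => cfc (hcut e) (a w), RC12.continuous_cfc_of_continuous _ (continuous_hcut e)
      a.continuous hsa⟩,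
    ⟨fun w => cfc (kcut e) (a w), RC12.continuous_cfc_of_continuous _ (continuous_kcut he0)
      a.continuous hsa⟩, fun w => (hcut_eq (a w) (ha w) e he0).1,
    fun w => (hcut_eq (a w) (ha w) e he0).2.1, ?_⟩
  intro v r hr h
  set κ : ℝ := r * η ^ 2 with hκdef
  have hκ : 0 < κ := by positivity
  have hcg : Continuous fun w => cfc (gcut e) (a w) :=
    RC12.continuous_cfc_of_continuous _ (continuous_gcut e) a.continuous hsa
  have hcs : Continuous fun w => cfc (scut e) (a w) :=
    RC12.continuous_cfc_of_continuous _ (continuous_scut e) a.continuous hsa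
  have hgsa : ∀ w, IsSelfAdjoint (cfc (gcut e) (a w)) := fun w => cfc_predicate _ _
  have hbsa : ∀ w, IsSelfAdjoint (b w) := fun w => IsSelfAdjoint.of_nonneg (hb w)
  have hZc : Continuous fun w => cfc (gcut e) (a w) * (star (v w) * b w * v w) *
      cfc (gcut e) (a w) :=
    (hcg.mul ((v.continuous.star.mul b.continuous).mul v.continuous)).mul hcg
  have hZsa : ∀ w, IsSelfAdjoint (cfc (gcut e) (a w) * (star (v w) * b w * v w) *
      cfc (gcut e) (a w)) := by
    intro w
    have h1 : IsSelfAdjoint (star (v w) * b w * v w) := (hbsa w).conjugate' (v w)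
    have h2 := h1.conjugate' (cfc (gcut e) (a w))
    rwa [(hgsa w).star_eq] at h2
  have hrc : Continuous fun w => cfc (rcut κ) (cfc (gcut e) (a w) * (star (v w) * b w * v w) *
      cfc (gcut e) (a w)) :=
    RC12.continuous_cfc_of_continuous _ (continuous_rcut hκ) hZc hZsa
  have hVc : Continuous fun w => VV (a w) (b w) (v w) e κ := by
    unfold VV
    exact ((v.continuous.mul hcg).mul hrc).mul hcs
  refine ⟨⟨_, hVc⟩, fun w => ?_⟩
  show ‖star (VV (a w) (b w) (v w) e κ) * b w * VV (a w) (b w) (v w) e κ - a w‖ ≤ η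
  have h1 := step_explicit (a w) (b w) (v w) (ha w) (hb w) e r κ he0 hr hκ (h w)
  have h2 := gcut_approx (a w) (ha w) e he0
  have h3 : Real.sqrt κ / (2 * Real.sqrt r) = η / 2 := by
    rw [hκdef, Real.sqrt_mul hr.le, Real.sqrt_sq hη.le]
    have : Real.sqrt r ≠ 0 := (Real.sqrt_pos.2 hr).ne'
    field_simp
  calc ‖star (VV (a w) (b w) (v w) e κ) * b w * VV (a w) (b w) (v w) e κ - a w‖
      = ‖(star (VV (a w) (b w) (v w) e κ) * b w * VV (a w) (b w) (v w) e κ - cfc (gcut e) (a w)) +
          (cfc (gcut e) (a w) - a w)‖ := by congr 1; abel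
    _ ≤ _ := norm_add_le _ _
    _ ≤ η / 2 + e := by rw [h3] at h1; exact add_le_add h1 h2
    _ = η := by rw [he]; ring

end RC47
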