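import Pool.Agent.LibRC12.Core

/-! [RC12-T7 P]  a good `v` gives a uniform positive lower bound -/

open scoped ComplexOrder

namespace RC47

open RC12

private theorem T7P_dot {N : ℕ} (p : Matrix (Fin N) (Fin N) ℂ) (ξ : Fin N → ℂ) :
    dotProduct (star ξ) (Matrix.mulVec (p.conjTranspose * p) ξ) =
      dotProduct (star (Matrix.mulVec p ξ)) (Matrix.mulVec p ξ) := by
  rw [← Matrix.mulVec_mulVec, Matrix.dotProduct_mulVec, Matrix.star_mulVec]

private theorem T7P_unit {N : ℕ} (b c v : Mn N ℂ) (hb : 0 ≤ b) (hc : 0 ≤ c)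
    (hg : ∀ ξ : Fin N → ℂ, Matrix.mulVec b.mat (Matrix.mulVec v.mat ξ) = 0 →
      Matrix.mulVec c.mat ξ = 0 → ξ = 0) : IsUnit (star v * b * v + c) := by
  obtain ⟨y, hy⟩ := CStarAlgebra.nonneg_iff_eq_star_mul_self.1 hb
  obtain ⟨z, hz⟩ := CStarAlgebra.nonneg_iff_eq_star_mul_self.1 hc
  have hmat : (star v * b * v + c).mat =
      (y.mat * v.mat).conjTranspose * (y.mat * v.mat) + z.mat.conjTranspose * z.mat := by
    rw [hy, hz]
    simp only [Mn.mat_add, Mn.mat_mul, Mn.mat_star, Matrix.star_eq_conjTranspose,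
      Matrix.conjTranspose_mul, Matrix.mul_assoc]
  have hinj : Function.Injective (Matrix.mulVec (star v * b * v + c).mat) := by
    have hker : ∀ ξ : Fin N → ℂ, Matrix.mulVec (star v * b * v + c).mat ξ = 0 → ξ = 0 := by
      intro ξ hξ
      have h1 : dotProduct (star (Matrix.mulVec (y.mat * v.mat) ξ))
          (Matrix.mulVec (y.mat * v.mat) ξ) +
          dotProduct (star (Matrix.mulVec z.mat ξ)) (Matrix.mulVec z.mat ξ) = 0 := by
        rw [← T7P_dot, ← T7P_dot, ← dotProduct_add, ← Matrix.add_mulVec, ← hmat, hξ,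
          dotProduct_zero]
      have h2 := dotProduct_star_self_nonneg (Matrix.mulVec (y.mat * v.mat) ξ)
      have h3 := dotProduct_star_self_nonneg (Matrix.mulVec z.mat ξ)
      have h4 := (add_eq_zero_iff_of_nonneg h2 h3).1 h1
      have h5 : Matrix.mulVec (y.mat * v.mat) ξ = 0 := dotProduct_star_self_eq_zero.1 h4.1
      have h6 : Matrix.mulVec z.mat ξ = 0 := dotProduct_star_self_eq_zero.1 h4.2
      refine hg ξ ?_ ?_
      · rw [hy, Mn.mat_mul, Matrix.mulVec_mulVec, Matrix.mul_assoc, ← Matrix.mulVec_mulVec, h5,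
          Matrix.mulVec_zero]
      · rw [hz, Mn.mat_mul, ← Matrix.mulVec_mulVec, h6, Matrix.mulVec_zero]
    intro ξ ζ h
    have h7 := hker (ξ - ζ) (by rw [Matrix.mulVec_sub, sub_eq_zero]; exact h)
    exact sub_eq_zero.1 h7
  have hu : IsUnit (star v * b * v + c).mat := Matrix.mulVec_injective_iff_isUnit.1 hinj
  obtain ⟨u, hu⟩ := hu
  refine ⟨⟨star v * b * v + c, Mn.of (u⁻¹ : (Matrix (Fin N) (Fin N) ℂ)ˣ).val, ?_, ?_⟩, rfl⟩
  · refine Mn.ext ?_
    rw [Mn.mat_mul, ← hu, Mn.mat_of, Mn.mat_one]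
    exact u.mul_inv
  · refine Mn.ext ?_
    rw [Mn.mat_mul, ← hu, Mn.mat_of, Mn.mat_one]
    exact u.inv_mul

/-- HINT. Work in the C*-algebra `CM W (Mn N ℂ)` (Core.lean: `CM.mk`, `ev`, `CM.nonneg_iff`,
`CM.le_def`): `m = star v * b * v + c ≥ 0`. At every `w` the matrix `(ev w m).mat` is injective:
`m ξ = 0` gives `⟨m ξ, ξ⟩ = 0`, both summands are positive semidefinite (`0 ≤ x` in `Mn N ℂ` means
`x = star y * y`), so `b v ξ = 0` (write `b = star y * y`: `‖y v ξ‖² = 0`) and `c ξ = 0`. So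
`star v * b * v + c` has an invertible matrix at every `w`, with continuous inverse
(`w ↦ (mat)⁻¹`, `Matrix.nonsing_inv`, det nonzero), i.e. `m` is a unit of `CM W (Mn N ℂ)`; a positive
unit is bounded below: `CStarAlgebra.isUnit_of_le`/`spectrum ⊂ (0, ∞)` compact gives
`algebraMap ℝ _ r ≤ m` (`CStarAlgebra.norm_or_neg_norm_mem_spectrum`,
`algebraMap_le_iff_le_spectrum`...). Alternatively by compactness of `W × unit sphere` directly. -/
theorem good_lower {W : Type*} [TopologicalSpace W] [CompactSpace W] {N : ℕ}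
    (b c v : C(W, Mn N ℂ)) (hb : ∀ w, 0 ≤ b w) (hc : ∀ w, 0 ≤ c w)
    (hg : ∀ w, ∀ ξ : Fin N → ℂ, Matrix.mulVec (b w).mat (Matrix.mulVec (v w).mat ξ) = 0 →
      Matrix.mulVec (c w).mat ξ = 0 → ξ = 0) :
    ∃ r : ℝ, 0 < r ∧ ∀ w, (r : ℂ) • (1 : Mn N ℂ) ≤ star (v w) * b w * v w + c w := by
  have hcont : Continuous fun w => star (v w) * b w * v w + c w :=
    ((v.continuous.star.mul b.continuous).mul v.continuous).add c.continuous
  let m0 : C(W, Mn N ℂ) := ⟨fun w => star (v w) * b w * v w + c w, hcont⟩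
  have hunit0 : IsUnit m0 :=
    (ContinuousMap.isUnit_iff_forall_isUnit m0).2
      (fun w => T7P_unit (b w) (c w) (v w) (hb w) (hc w) (hg w))
  let m : CM W (Mn N ℂ) := CM.mk m0
  have hunit : IsUnit m := hunit0
  have hm0 : 0 ≤ m := by
    rw [CM.nonneg_iff]
    intro w
    show 0 ≤ star (v w) * b w * v w + c w
    exact add_nonneg (star_left_conjugate_nonneg (hb w) (v w)) (hc w)
  have hsa : IsSelfAdjoint m := IsSelfAdjoint.of_nonneg hm0
  have hspec : ∀ x ∈ spectrum ℝ m, 0 < x := by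
    intro x hx
    have h1 : 0 ≤ x := spectrum_nonneg_of_nonneg hm0 hx
    rcases eq_or_lt_of_le h1 with h2 | h2
    · rw [← h2] at hx
      exact absurd hunit ((spectrum.zero_mem_iff ℝ).1 hx)
    · exact h2
  rcases subsingleton_or_nontrivial (CM W (Mn N ℂ)) with hsub | hnt
  · refine ⟨1, one_pos, fun w => ?_⟩
    have h1 : (1 : CM W (Mn N ℂ)) = m := Subsingleton.elim _ _
    have h2 : ev w (1 : CM W (Mn N ℂ)) = ev w m := by rw [h1]
    rw [map_one] at h2
    rw [Complex.ofReal_one, one_smul, h2]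
    exact le_rfl
  obtain ⟨r, hr, hle⟩ := (CFC.exists_pos_algebraMap_le_iff hsa).2 hspec
  refine ⟨r, hr, fun w => ?_⟩
  have h3 := CM.le_def.1 hle w
  have h4 : ev w (algebraMap ℝ (CM W (Mn N ℂ)) r) = (r : ℂ) • (1 : Mn N ℂ) := by
    rw [Algebra.algebraMap_eq_smul_one]
    rw [ev_smul_real, map_one]
    rfl
  rw [h4] at h3
  exact h3

end RC47
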