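import Mathlib

/-! [RC12-T7 R] -/

namespace RC47

theorem rank_compl {N : ℕ} (a k : Matrix (Fin N) (Fin N) ℂ) :
    N ≤ (1 - k * a).rank + a.rank := by
  have h2 : (⊤ : Submodule ℂ (Fin N → ℂ)) ≤
      LinearMap.range (1 - k * a).mulVecLin ⊔ LinearMap.range (k * a).mulVecLin := by
    intro x _
    have hx : x = (1 - k * a).mulVecLin x + (k * a).mulVecLin x := by
      simp only [Matrix.mulVecLin_apply]
      rw [← Matrix.add_mulVec]
      simp
    rw [hx]
    exact Submodule.add_mem_sup ⟨x, rfl⟩ ⟨x, rfl⟩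
  have h3 := Submodule.finrank_mono h2
  have h4 := Submodule.finrank_add_le_finrank_add_finrank
    (LinearMap.range (1 - k * a).mulVecLin) (LinearMap.range (k * a).mulVecLin)
  have h5 : Module.finrank ℂ (⊤ : Submodule ℂ (Fin N → ℂ)) = N := by
    rw [finrank_top, Module.finrank_fin_fun]
  have h6 : (k * a).rank ≤ a.rank := Matrix.rank_mul_le_right k a
  have h7 : (1 - k * a).rank = Module.finrank ℂ (LinearMap.range (1 - k * a).mulVecLin) := rfl
  have h8 : (k * a).rank = Module.finrank ℂ (LinearMap.range (k * a).mulVecLin) := rfl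
  omega

end RC47
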