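import Pool.Agent.LibRC12.Core
import Pool.Agent.LibRC12.T7Defs
import Pool.Agent.LibRC12.T7D
import Pool.Agent.LibRC12.T7J
import Pool.Agent.LibRC12.T7K
import Pool.Agent.LibRC12.T7P
import Pool.Agent.LibRC12.T7R

/-! [RC12-T7 N]  main result of section 7. -/

open scoped ComplexOrder

namespace RC12

open RC47

theorem gp_main {X Y : Type*} [TopologicalSpace X] [CompactSpace X] [T2Space X]
    [TopologicalSpace Y] [CompactSpace Y] [T2Space Y] {d n : ℕ} (hX : POrd (d + 1) X)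
    (hY : POrd (n + 1) Y) {N g : ℕ} (hg : d + n + 1 ≤ 2 * (g + 1)) (a b : CM (X × Y) (Mn N ℂ))
    (ha : 0 ≤ a) (hb : 0 ≤ b) (hr : ∀ w, (ev w a).mat.rank + g ≤ (ev w b).mat.rank) {η : ℝ}
    (hη : 0 < η) : ∃ V : CM (X × Y) (Mn N ℂ), ‖star V * b * V - a‖ ≤ η := by
  have hG : InjGen (X × Y) g := injGen_prod d n g hX hY hg
  obtain ⟨h, k, hh, hk, hstep⟩ := abstract_step a.fn b.fn (CM.nonneg_iff.1 ha)
    (CM.nonneg_iff.1 hb) η hη
  -- the matrix fields
  let b' : C(X × Y, Matrix (Fin N) (Fin N) ℂ) := ⟨fun w => (b.fn w).mat, b.fn.continuous⟩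
  let h' : C(X × Y, Matrix (Fin N) (Fin N) ℂ) := ⟨fun w => (h w).mat, h.continuous⟩
  have hrank : ∀ w, N + g ≤ (b' w).rank + (h' w).rank := by
    intro w
    have h1 : (h' w) = 1 - (k w).mat * (ev w a).mat := by
      show (h w).mat = _
      rw [hk w]
      rfl
    have h2 := rank_compl (ev w a).mat (k w).mat
    rw [← h1] at h2
    have h3 := hr w
    have h4 : (b' w).rank = (ev w b).mat.rank := rfl
    omega
  obtain ⟨v', hv'⟩ := global_good g hG b' h' hrank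
  let v : C(X × Y, Mn N ℂ) := ⟨fun w => Mn.of (v' w), v'.continuous⟩
  obtain ⟨r, hr0, hrr⟩ := good_lower b.fn h v (CM.nonneg_iff.1 hb) hh
    (fun w ξ h1 h2 => hv' w ξ h1 h2)
  obtain ⟨V, hV⟩ := hstep v r hr0 hrr
  refine ⟨CM.mk V, (CM.norm_le hη.le).2 fun w => ?_⟩
  exact hV w

end RC12
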