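import Pool.Agent.LibRC12.S1All

open Filter Topology WeakDual
open scoped ENNReal NNReal ComplexOrder ComplexConjugate

set_option linter.unusedSectionVars false

namespace RC19

open RC12

variable {A : Type*} [CStarAlgebra A] [PartialOrder A] [StarOrderedRing A]

/-- the matrix with first column `w` -/
noncomputable def colM {n : ℕ} (w : Fin (n + 1) → A) : Mn (n + 1) A :=
  Mn.of fun i j => if j = 0 then w i else 0

private noncomputable def U1b_m (s : A) : Mn 1 A := Mn.of fun _ _ => s

private theorem U1b_m_mat (s : A) (i j : Fin 1) : (U1b_m s).mat i j = s := rfl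

private theorem U1b_colM_mat {n : ℕ} (w : Fin (n + 1) → A) (i j : Fin (n + 1)) :
    (colM w).mat i j = if j = 0 then w i else 0 := rfl

private theorem U1b_m_star_mul (s t : A) : star (U1b_m s) * U1b_m t = U1b_m (star s * t) := by
  refine Mn.ext ?_
  ext i j
  rw [Mn.mat_mul, Matrix.mul_apply, Mn.mat_star]
  simp [U1b_m_mat, Matrix.star_apply]

private theorem U1b_m_nonneg {s : A} (hs : 0 ≤ s) : 0 ≤ U1b_m s := by
  obtain ⟨x, rfl⟩ := CStarAlgebra.nonneg_iff_eq_star_mul_self.1 hs
  rw [← U1b_m_star_mul]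
  exact star_mul_self_nonneg _

private theorem U1b_sum_nonneg {n : ℕ} (w : Fin (n + 1) → A) : 0 ≤ ∑ k, star (w k) * w k :=
  Finset.sum_nonneg fun _ _ => star_mul_self_nonneg _

private theorem U1b_cor_mat {n : ℕ} (s : A) (i j : Fin (n + 1)) :
    (cor (n + 1) (U1b_m s)).mat i j = if i = 0 ∧ j = 0 then s else 0 := by
  show corner (n + 1) (U1b_m s).mat i j = _
  unfold corner
  by_cases h : (i : ℕ) < 1 ∧ (j : ℕ) < 1
  · rw [dif_pos h, if_pos]
    · rfl
    · exact ⟨Fin.ext (by simpa using h.1), Fin.ext (by simpa using h.2)⟩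
  · rw [dif_neg h, if_neg]
    rintro ⟨rfl, rfl⟩
    exact h ⟨by simp, by simp⟩

private theorem U1b_star_mul {n : ℕ} (w : Fin (n + 1) → A) :
    star (colM w) * colM w = cor (n + 1) (U1b_m (∑ k, star (w k) * w k)) := by
  refine Mn.ext ?_
  ext i j
  rw [U1b_cor_mat, Mn.mat_mul, Matrix.mul_apply, Mn.mat_star]
  by_cases hi : i = 0
  · by_cases hj : j = 0
    · subst hi hj
      simp [U1b_colM_mat, Matrix.star_apply]
    · simp [U1b_colM_mat, Matrix.star_apply, hj]
  · simp [U1b_colM_mat, Matrix.star_apply, hi]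

private theorem U1b_cor_nonneg {n : ℕ} {s : A} (hs : 0 ≤ s) : 0 ≤ cor (n + 1) (U1b_m s) := by
  rw [cor_eq_emb (Nat.le_add_left 1 n)]
  exact emb_nonneg _ _ (U1b_m_nonneg hs)

theorem dq_colM (τ : QuasiTrace A) {n : ℕ} (w : Fin (n + 1) → A) :
    τ.dq (colM w * star (colM w)) ≤ 1 := by
  have h1 : τ.dq (colM w * star (colM w)) ≤ τ.dq (star (colM w) * colM w) :=
    dq_mono τ (mul_star_self_nonneg _) (star_mul_self_nonneg _) (Cu_mul_star _)
  refine h1.trans ?_
  rw [U1b_star_mul, dq_cor τ (Nat.le_add_left 1 n) (U1b_m_nonneg (U1b_sum_nonneg w))]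
  have h2 := dq_le τ _ (U1b_m_nonneg (U1b_sum_nonneg w))
  simpa using h2

theorem one_sub_colM_nonneg {n : ℕ} (w : Fin (n + 1) → A)
    (hw : ∑ k, star (w k) * w k ≤ 1) : 0 ≤ 1 - colM w * star (colM w) := by
  set W := colM w with hW
  set E : Mn (n + 1) A := cor (n + 1) (U1b_m 1) with hE
  have hWE : W * E = W := by
    refine Mn.ext ?_
    ext i j
    rw [Mn.mat_mul, Matrix.mul_apply]
    simp only [hE, U1b_cor_mat]
    rw [Finset.sum_eq_single 0]
    · by_cases hj : j = 0
      · simp [hj]
      · simp [hj, hW, U1b_colM_mat]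
    · intro k _ hk
      simp [hk]
    · simp
  have hEs : star E = E := by
    have : 0 ≤ E := U1b_cor_nonneg zero_le_one
    exact (IsSelfAdjoint.of_nonneg this).star_eq
  have hEW : E * star W = star W := by
    have := congrArg star hWE
    rwa [star_mul, hEs] at this
  have hD : E - star W * W = cor (n + 1) (U1b_m (1 - ∑ k, star (w k) * w k)) := by
    rw [hW, U1b_star_mul]
    refine Mn.ext ?_
    ext i j
    rw [Mn.mat_sub, Matrix.sub_apply]
    simp only [hE, U1b_cor_mat]
    split_ifs <;> simp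
  have hD0 : 0 ≤ E - star W * W := by
    rw [hD]
    exact U1b_cor_nonneg (sub_nonneg.2 hw)
  have hEE : E * E = E := by
    refine Mn.ext ?_
    ext i j
    rw [Mn.mat_mul, Matrix.mul_apply]
    simp only [hE, U1b_cor_mat]
    rw [Finset.sum_eq_single 0]
    · by_cases hi : i = 0
      · by_cases hj : j = 0
        · simp [hi, hj]
        · simp [hj]
      · simp [hi]
    · intro k _ hk
      simp [hk]
    · simp
  have h1 : 0 ≤ W * (E - star W * W) * star W := star_right_conjugate_nonneg hD0 W
  have hPs : star (1 - W * star W) = 1 - W * star W := by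
    rw [star_sub, star_one, star_mul, star_star]
  have h2 : 0 ≤ star (1 - W * star W) * (1 - W * star W) := star_mul_self_nonneg _
  have h3 : 1 - W * star W = star (1 - W * star W) * (1 - W * star W) +
      W * (E - star W * W) * star W := by
    rw [hPs]
    have h4 : W * (E - star W * W) * star W = W * star W - W * star W * (W * star W) := by
      rw [mul_sub, hWE, sub_mul]
      simp only [mul_assoc]
    rw [h4]
    noncomm_ring
  rw [h3]
  exact add_nonneg h2 h1

theorem dq_one_sub (τ : QuasiTrace A) {n : ℕ} (w : Fin (n + 1) → A)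
    (hw : ∑ k, star (w k) * w k ≤ 1) : (n : ℝ) ≤ τ.dq (1 - colM w * star (colM w)) := by
  have h1 := dq_add_le τ (one_sub_colM_nonneg w hw) (mul_star_self_nonneg (colM w))
  rw [sub_add_cancel, dq_one τ] at h1
  have h2 := dq_colM τ w
  push_cast at h1
  linarith

end RC19
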