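import Mathlib

open scoped ComplexConjugate

namespace RC19

variable {Y : Type*} [TopologicalSpace Y]

/-- if `u` is nowhere zero and orthogonal to `z` where `|z| ≥ 1`, then `z` is at distance at most 3
from a nowhere zero map -/
theorem rotate {N : ℕ} (z u : C(Y, Fin N → ℂ)) (hu : ∀ y, u y ≠ 0)
    (ho : ∀ y, 1 ≤ ∑ i, ‖z y i‖ ^ 2 → ∑ i, conj (z y i) * u y i = 0) :
    ∃ G : C(Y, Fin N → ℂ), (∀ y, G y ≠ 0) ∧ ∀ y, ‖G y - z y‖ ≤ 3 := by
  set S : Y → ℝ := fun y => ∑ i, ‖z y i‖ ^ 2 with hS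
  have hzi : ∀ i, Continuous fun y => z y i := fun i =>
    (continuous_apply i).comp z.continuous
  have hSc : Continuous S := continuous_finsetSum _ fun i _ => (hzi i).norm.pow 2
  set θ : Y → ℝ := fun y => max 0 (min 1 (S y - 1)) with hθ
  have hθc : Continuous θ := continuous_const.max (continuous_const.min (hSc.sub continuous_const))
  have hθ0 : ∀ y, 0 ≤ θ y := fun y => le_max_left _ _
  have hθ1 : ∀ y, θ y ≤ 1 := fun y => max_le zero_le_one (min_le_left _ _)
  have hun : ∀ y, ‖u y‖ ≠ 0 := fun y => norm_ne_zero_iff.2 (hu y)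
  have hGc : Continuous fun y => (θ y : ℂ) • z y + ((1 - θ y : ℝ) : ℂ) • ((‖u y‖⁻¹ : ℝ) : ℂ) • u y := by
    refine ((Complex.continuous_ofReal.comp hθc).smul z.continuous).add
      ((Complex.continuous_ofReal.comp (continuous_const.sub hθc)).smul
        ((Complex.continuous_ofReal.comp (u.continuous.norm.inv₀ hun)).smul u.continuous))
  refine ⟨⟨_, hGc⟩, ?_, ?_⟩
  · intro y hy
    have hy' : (θ y : ℂ) • z y + ((1 - θ y : ℝ) : ℂ) • ((‖u y‖⁻¹ : ℝ) : ℂ) • u y = 0 := hy
    rcases eq_or_lt_of_le (hθ0 y) with h0 | h0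
    · rw [← h0] at hy'
      simp only [Complex.ofReal_zero, zero_smul, zero_add, sub_zero, Complex.ofReal_one,
        one_smul] at hy'
      rcases smul_eq_zero.1 hy' with h | h
      · exact inv_ne_zero (hun y) (by exact_mod_cast h)
      · exact hu y h
    · have hS1 : 1 < S y := by
        by_contra hcon
        rw [not_lt] at hcon
        have : θ y = 0 := by
          rw [hθ]
          exact max_eq_left ((min_le_right _ _).trans (by linarith))
        exact h0.ne' this
      have h1 := ho y hS1.le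
      have h2 : ∑ i, conj (z y i) * ((θ y : ℂ) • z y + ((1 - θ y : ℝ) : ℂ) •
          ((‖u y‖⁻¹ : ℝ) : ℂ) • u y) i = 0 := by
        rw [hy']
        simp
      have h3 : ∑ i, conj (z y i) * ((θ y : ℂ) • z y + ((1 - θ y : ℝ) : ℂ) •
          ((‖u y‖⁻¹ : ℝ) : ℂ) • u y) i = (θ y : ℂ) * (S y : ℂ) +
            ((1 - θ y : ℝ) : ℂ) * ((‖u y‖⁻¹ : ℝ) : ℂ) * ∑ i, conj (z y i) * u y i := by
        rw [hS]
        push_cast
        rw [Finset.mul_sum, Finset.mul_sum, ← Finset.sum_add_distrib]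
        apply Finset.sum_congr rfl
        intro i _
        have h4 : conj (z y i) * z y i = (‖z y i‖ : ℂ) ^ 2 := Complex.conj_mul' _
        simp only [Pi.add_apply, Pi.smul_apply, smul_eq_mul]
        rw [← h4]
        ring
      rw [h1, mul_zero, add_zero] at h3
      rw [h3] at h2
      have h5 : θ y * S y = 0 := by exact_mod_cast h2
      rcases mul_eq_zero.1 h5 with h | h
      · exact h0.ne' h
      · linarith
  · intro y
    show ‖(θ y : ℂ) • z y + ((1 - θ y : ℝ) : ℂ) • ((‖u y‖⁻¹ : ℝ) : ℂ) • u y - z y‖ ≤ 3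
    have e : (θ y : ℂ) • z y + ((1 - θ y : ℝ) : ℂ) • ((‖u y‖⁻¹ : ℝ) : ℂ) • u y - z y =
        ((1 - θ y : ℝ) : ℂ) • (((‖u y‖⁻¹ : ℝ) : ℂ) • u y - z y) := by
      funext i
      simp only [Pi.sub_apply, Pi.add_apply, Pi.smul_apply, smul_eq_mul]
      push_cast
      ring
    rw [e, norm_smul]
    have h1 : ‖((1 - θ y : ℝ) : ℂ)‖ = 1 - θ y := by
      rw [Complex.norm_real, Real.norm_eq_abs, abs_of_nonneg (by linarith [hθ1 y])]
    rw [h1]
    by_cases hS2 : 2 ≤ S y
    · have : θ y = 1 := by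
        rw [hθ]
        show max 0 (min 1 (S y - 1)) = 1
        rw [min_eq_left (by linarith), max_eq_right zero_le_one]
      rw [this]
      norm_num
    · rw [not_le] at hS2
      have hz : ‖z y‖ ≤ 2 := by
        rw [pi_norm_le_iff_of_nonneg (by norm_num)]
        intro i
        have h2 : ‖z y i‖ ^ 2 ≤ S y :=
          Finset.single_le_sum (f := fun i => ‖z y i‖ ^ 2) (fun i _ => sq_nonneg _)
            (Finset.mem_univ i)
        nlinarith [norm_nonneg (z y i)]
      have hu1 : ‖((‖u y‖⁻¹ : ℝ) : ℂ) • u y‖ = 1 := by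
        rw [norm_smul, Complex.norm_real, norm_inv, norm_norm, inv_mul_cancel₀ (hun y)]
      have h3 : ‖((‖u y‖⁻¹ : ℝ) : ℂ) • u y - z y‖ ≤ 3 :=
        (norm_sub_le _ _).trans (by linarith)
      have h4 := hθ0 y
      have h5 := hθ1 y
      have h6 := norm_nonneg (((‖u y‖⁻¹ : ℝ) : ℂ) • u y - z y)
      nlinarith

end RC19
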