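import Pool.Agent.LibRC12.U0

open Filter Topology WeakDual
open scoped ENNReal NNReal ComplexOrder ComplexConjugate

set_option linter.unusedSectionVars false

namespace RC19

open RC12

variable {A : Type*} [CStarAlgebra A] [PartialOrder A] [StarOrderedRing A]

/-- normalised lift -/
theorem exists_w {n : ℕ} (z : Fin (n + 1) → A) :
    ∃ w : Fin (n + 1) → A, (∑ k, star (w k) * w k ≤ 1) ∧
      ∀ (φ : characterSpace ℂ A) (i : Fin (n + 1)),
        φ (w i) = φ (z i) * (((√(max (∑ k, ‖φ (z k)‖ ^ 2) 1))⁻¹ : ℝ) : ℂ) := by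
  set S : A := ∑ k, star (z k) * z k with hS
  have hS0 : 0 ≤ S := Finset.sum_nonneg fun k _ => star_mul_self_nonneg (z k)
  have hSsa : IsSelfAdjoint S := IsSelfAdjoint.of_nonneg hS0
  have hpos : ∀ t : ℝ, 0 < √(max t 1) := fun t =>
    Real.sqrt_pos.mpr (lt_of_lt_of_le one_pos (le_max_right _ _))
  have hcont : Continuous (fun t : ℝ => (√(max t 1))⁻¹) := by
    refine Continuous.inv₀ (by fun_prop) fun t => (hpos t).ne'
  set κ : A := cfc (fun t : ℝ => (√(max t 1))⁻¹) S with hκ
  have hκsa : IsSelfAdjoint κ := cfc_predicate _ _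
  refine ⟨fun i => z i * κ, ?_, ?_⟩
  · have h1 : ∑ k, star (z k * κ) * (z k * κ) = κ * S * κ := by
      rw [hS, Finset.mul_sum, Finset.sum_mul]
      refine Finset.sum_congr rfl fun k _ => ?_
      rw [star_mul, hκsa.star_eq]
      simp only [mul_assoc]
    rw [h1]
    have h2 : κ * S * κ = cfc (fun t : ℝ => (√(max t 1))⁻¹ * t * (√(max t 1))⁻¹) S := by
      rw [cfc_mul (fun t : ℝ => (√(max t 1))⁻¹ * t) (fun t : ℝ => (√(max t 1))⁻¹) S
        (hcont.mul continuous_id).continuousOn hcont.continuousOn,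
        cfc_mul (fun t : ℝ => (√(max t 1))⁻¹) (fun t : ℝ => t) S hcont.continuousOn
        continuous_id.continuousOn, cfc_id' ℝ S hSsa]
    rw [h2]
    refine cfc_le_one _ _ fun t _ => ?_
    have h3 : (√(max t 1)) ^ 2 = max t 1 :=
      Real.sq_sqrt (le_trans zero_le_one (le_max_right _ _))
    have h4 : (√(max t 1))⁻¹ * t * (√(max t 1))⁻¹ = t / max t 1 := by
      have h5 : (√(max t 1))⁻¹ * t * (√(max t 1))⁻¹ = t * ((√(max t 1)) ^ 2)⁻¹ := by
        rw [← inv_pow]
        ring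
      rw [h5, h3, div_eq_mul_inv]
    show (√(max t 1))⁻¹ * t * (√(max t 1))⁻¹ ≤ 1
    rw [h4, div_le_one (lt_of_lt_of_le one_pos (le_max_right _ _))]
    exact le_max_left _ _
  · intro φ i
    have h1 : (φ S).re = ∑ k, ‖φ (z k)‖ ^ 2 := by
      rw [hS, map_sum, Complex.re_sum]
      refine Finset.sum_congr rfl fun k _ => ?_
      rw [map_mul, map_star, Complex.star_def, ← Complex.normSq_eq_conj_mul_self,
        Complex.ofReal_re, Complex.normSq_eq_norm_sq]
    rw [map_mul, hκ, char_cfc φ hSsa hcont, h1]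

end RC19
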