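import Pool.Agent.LibRC12.U1a
import Pool.Agent.LibRC12.U1b
import Pool.Agent.LibRC12.U2
import Pool.Agent.LibRC12.U3a

open Filter Topology WeakDual
open scoped ENNReal NNReal ComplexOrder ComplexConjugate

set_option linter.unusedSectionVars false

namespace RC19

open RC12

variable {A : Type*} [CStarAlgebra A] [PartialOrder A] [StarOrderedRing A]

theorem continuous_char (a : A) : Continuous fun φ : characterSpace ℂ A => φ a :=
  (WeakDual.eval_continuous a).comp continuous_subtype_val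

theorem one_sub_colM_mat {n : ℕ} (w : Fin (n + 1) → A) (i k : Fin (n + 1)) :
    (1 - colM w * star (colM w)).mat i k = (if i = k then 1 else 0) - w i * star (w k) := by
  have h : (colM w * star (colM w)).mat i k = w i * star (w k) := by
    rw [Mn.mat_mul, Mn.mat_star, Matrix.mul_apply, Finset.sum_eq_single 0]
    · simp [colM, Matrix.star_apply]
    · intro l _ hl
      simp [colM, hl]
    · simp
  rw [Mn.mat_sub, Matrix.sub_apply, h, Mn.mat_one, Matrix.one_apply]

theorem char_b_vec {n : ℕ} (w x : Fin (n + 1) → A) (φ : characterSpace ℂ A) (i : Fin (n + 1)) :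
    φ (∑ k, (1 - colM w * star (colM w)).mat i k * x k) =
      φ (x i) - φ (w i) * ∑ k, conj (φ (w k)) * φ (x k) := by
  have h1 : ∑ k, (1 - colM w * star (colM w)).mat i k * x k =
      x i - w i * ∑ k, star (w k) * x k := by
    simp_rw [one_sub_colM_mat, sub_mul, Finset.sum_sub_distrib, ite_mul, one_mul, zero_mul,
      mul_assoc, ← Finset.mul_sum]
    simp
  rw [h1, map_sub, map_mul, map_sum]
  simp only [map_mul, map_star]
  rfl

/-- (6.1) -/
theorem un_char' {r : ℝ} (hr : ∀ (n : ℕ) (a b : Mn n A), 0 ≤ a → 0 ≤ b →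
      (∀ τ : QuasiTrace A, τ.dq a + r < τ.dq b) → Cu a b) {m : ℕ} (hm : 1 + r < m) :
    Nz (Fin (m + 1) → ℂ) (characterSpace ℂ A) := by
  intro F e he
  set K : ℝ := 4 / e with hKdef
  have hK : 0 < K := by positivity
  have h1 : ∀ i : Fin (m + 1), ∃ a : A, ∀ φ : characterSpace ℂ A,
      ‖φ a - (K : ℂ) * F φ i‖ ≤ 1 := fun i =>
    exists_lift (⟨fun φ => (K : ℂ) * F φ i, by fun_prop⟩ : C(characterSpace ℂ A, ℂ)) one_pos
  choose z hz using h1
  obtain ⟨w, hw1, hw2⟩ := exists_w z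
  obtain ⟨x, hx⟩ := exists_vec hr (Nat.succ_pos m) _ (one_sub_colM_nonneg w hw1)
    (fun τ => lt_of_lt_of_le hm (dq_one_sub τ w hw1))
  let Z : C(characterSpace ℂ A, Fin (m + 1) → ℂ) :=
    ⟨fun φ i => φ (z i), continuous_pi fun i => continuous_char (z i)⟩
  let U : C(characterSpace ℂ A, Fin (m + 1) → ℂ) :=
    ⟨fun φ i => φ (∑ k, (1 - colM w * star (colM w)).mat i k * x k),
      continuous_pi fun i => continuous_char _⟩
  have hU : ∀ φ, U φ ≠ 0 := by
    intro φ h
    obtain ⟨i, hi⟩ := hx φ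
    exact hi (congrFun h i)
  have ho : ∀ φ, 1 ≤ ∑ i, ‖Z φ i‖ ^ 2 → ∑ i, conj (Z φ i) * U φ i = 0 := by
    intro φ hS
    have hZ : ∀ i, Z φ i = φ (z i) := fun i => rfl
    set S : ℝ := ∑ i, ‖φ (z i)‖ ^ 2 with hSdef
    have hS1 : 1 ≤ S := hS
    set c : ℝ := (√(max S 1))⁻¹ with hc
    have hc2 : c * c * S = 1 := by
      rw [hc, max_eq_left hS1, ← mul_inv, Real.mul_self_sqrt (by linarith)]
      exact inv_mul_cancel₀ (by linarith)
    have hw3 : ∀ i, φ (w i) = φ (z i) * (c : ℂ) := fun i => hw2 φ i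
    have hUi : ∀ i, U φ i = φ (x i) - φ (z i) * c * ∑ k, conj (φ (z k) * (c : ℂ)) * φ (x k) := by
      intro i
      show φ (∑ k, (1 - colM w * star (colM w)).mat i k * x k) = _
      rw [char_b_vec, hw3 i]
      simp only [hw3]
    have hsum : ∑ k, conj (φ (z k) * (c : ℂ)) * φ (x k) =
        (c : ℂ) * ∑ k, conj (φ (z k)) * φ (x k) := by
      rw [Finset.mul_sum]
      refine Finset.sum_congr rfl fun k _ => ?_
      rw [map_mul, Complex.conj_ofReal]
      ring
    have hzz : ∑ i, conj (φ (z i)) * φ (z i) = (S : ℂ) := by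
      rw [hSdef]
      push_cast
      refine Finset.sum_congr rfl fun i _ => ?_
      rw [mul_comm, Complex.mul_conj, Complex.normSq_eq_norm_sq]
      push_cast
      ring
    simp only [hZ, hUi, hsum]
    have : ∀ i, conj (φ (z i)) * (φ (x i) - φ (z i) * c * (c * ∑ k, conj (φ (z k)) * φ (x k))) =
        conj (φ (z i)) * φ (x i) - (conj (φ (z i)) * φ (z i)) *
          (c * c * ∑ k, conj (φ (z k)) * φ (x k)) := fun i => by ring
    simp only [this]
    rw [Finset.sum_sub_distrib, ← Finset.sum_mul, hzz]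
    have hc3 : (c : ℂ) * c * S = 1 := by exact_mod_cast hc2
    linear_combination (-(∑ k, conj (φ (z k)) * φ (x k))) * hc3
  obtain ⟨G, hG0, hG1⟩ := rotate Z U hU ho
  refine ⟨⟨fun φ => (K⁻¹ : ℝ) • G φ, by fun_prop⟩, ?_, ?_⟩
  · intro φ h
    have h2 : (K⁻¹ : ℝ) • G φ = 0 := h
    rcases smul_eq_zero.1 h2 with h3 | h3
    · exact (inv_ne_zero hK.ne') h3
    · exact hG0 φ h3
  · intro φ
    show ‖(K⁻¹ : ℝ) • G φ - F φ‖ ≤ e
    have h2 : (K⁻¹ : ℝ) • G φ - F φ = (K⁻¹ : ℝ) • ((G φ - Z φ) + (Z φ - (K : ℝ) • F φ)) := by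
      rw [sub_add_sub_cancel, smul_sub, smul_smul, inv_mul_cancel₀ hK.ne', one_smul]
    rw [h2, norm_smul, Real.norm_of_nonneg (inv_nonneg.2 hK.le)]
    have h3 : ‖Z φ - (K : ℝ) • F φ‖ ≤ 1 := by
      refine (pi_norm_le_iff_of_nonneg zero_le_one).2 fun i => ?_
      have h5 : (Z φ - (K : ℝ) • F φ) i = φ (z i) - (K : ℂ) * F φ i := by
        show φ (z i) - (K : ℝ) • F φ i = _
        rw [Complex.real_smul]
      rw [h5]
      exact hz i φ
    have h4 : ‖(G φ - Z φ) + (Z φ - (K : ℝ) • F φ)‖ ≤ 4 := by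
      refine (norm_add_le _ _).trans ?_
      linarith [hG1 φ]
    calc K⁻¹ * ‖(G φ - Z φ) + (Z φ - (K : ℝ) • F φ)‖ ≤ K⁻¹ * 4 :=
          mul_le_mul_of_nonneg_left h4 (inv_nonneg.2 hK.le)
      _ = e := by
          rw [hKdef]
          field_simp

end RC19
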