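import Pool.Agent.LibRC12.Core

open scoped ComplexConjugate

namespace RC19

open RC12

private noncomputable def v4n {Y : Type*} [TopologicalSpace Y] (b : C(Y, ℝ)) (c : C(Y, ℂ)) (y : Y) :
    ℝ := √((b y) ^ 2 + ‖c y‖ ^ 2)

private noncomputable def v4l {Y : Type*} [TopologicalSpace Y] (b : C(Y, ℝ)) (c : C(Y, ℂ)) (y : Y) :
    ℝ := max 0 (min 1 (8 * v4n b c y - 3)) / 2

private noncomputable def v4m {Y : Type*} [TopologicalSpace Y] (b : C(Y, ℝ)) (c : C(Y, ℂ)) (y : Y) :
    ℝ := max (v4n b c y) (1 / 4)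

private theorem v4n_cont {Y : Type*} [TopologicalSpace Y] (b : C(Y, ℝ)) (c : C(Y, ℂ)) :
    Continuous (v4n b c) := by
  unfold v4n
  fun_prop

private theorem v4l_cont {Y : Type*} [TopologicalSpace Y] (b : C(Y, ℝ)) (c : C(Y, ℂ)) :
    Continuous (v4l b c) := by
  unfold v4l
  have := v4n_cont b c
  fun_prop

private theorem v4m_cont {Y : Type*} [TopologicalSpace Y] (b : C(Y, ℝ)) (c : C(Y, ℂ)) :
    Continuous (v4m b c) := by
  unfold v4m
  have := v4n_cont b c
  fun_prop

private theorem v4m_pos {Y : Type*} [TopologicalSpace Y] (b : C(Y, ℝ)) (c : C(Y, ℂ)) (y : Y) :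
    0 < v4m b c y := lt_of_lt_of_le (by norm_num) (le_max_right _ _)

private noncomputable def v4s {Y : Type*} [TopologicalSpace Y] (b : C(Y, ℝ)) (c s t : C(Y, ℂ)) :
    C(Y, ℂ) :=
  ⟨fun y => s y - (v4l b c y : ℂ) * (s y - ((b y : ℂ) * s y + conj (c y) * t y) / (v4m b c y : ℂ)), by
    have h1 := v4l_cont b c
    have h2 := v4m_cont b c
    have h3 : ∀ y, (v4m b c y : ℂ) ≠ 0 := fun y =>
      Complex.ofReal_ne_zero.2 (v4m_pos b c y).ne'
    have h4 : Continuous fun y => (v4l b c y : ℂ) := Complex.continuous_ofReal.comp h1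
    have h5 : Continuous fun y => (v4m b c y : ℂ) := Complex.continuous_ofReal.comp h2
    have h6 : Continuous fun y => (b y : ℂ) := Complex.continuous_ofReal.comp b.continuous
    have h7 : Continuous fun y => conj (c y) := Complex.continuous_conj.comp c.continuous
    exact s.continuous.sub (h4.mul (s.continuous.sub
      (((h6.mul s.continuous).add (h7.mul t.continuous)).div h5 h3)))⟩

private noncomputable def v4t {Y : Type*} [TopologicalSpace Y] (b : C(Y, ℝ)) (c s t : C(Y, ℂ)) :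
    C(Y, ℂ) :=
  ⟨fun y => t y - (v4l b c y : ℂ) * (t y - (c y * s y - (b y : ℂ) * t y) / (v4m b c y : ℂ)), by
    have h1 := v4l_cont b c
    have h2 := v4m_cont b c
    have h3 : ∀ y, (v4m b c y : ℂ) ≠ 0 := fun y =>
      Complex.ofReal_ne_zero.2 (v4m_pos b c y).ne'
    have h4 : Continuous fun y => (v4l b c y : ℂ) := Complex.continuous_ofReal.comp h1
    have h5 : Continuous fun y => (v4m b c y : ℂ) := Complex.continuous_ofReal.comp h2
    have h6 : Continuous fun y => (b y : ℂ) := Complex.continuous_ofReal.comp b.continuous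
    exact t.continuous.sub (h4.mul (t.continuous.sub
      (((c.continuous.mul s.continuous).sub (h6.mul t.continuous)).div h5 h3)))⟩

private theorem v4_diff (b b' : ℝ) (c c' : ℂ) :
    |√(b ^ 2 + ‖c‖ ^ 2) - √(b' ^ 2 + ‖c'‖ ^ 2)| ≤ |b - b'| + ‖c - c'‖ := by
  have h1 : ∀ (x : ℝ) (z : ℂ), √(x ^ 2 + ‖z‖ ^ 2) = ‖(⟨x, ‖z‖⟩ : ℂ)‖ := by
    intro x z
    rw [Complex.norm_eq_sqrt_sq_add_sq (⟨x, ‖z‖⟩ : ℂ)]
  rw [h1, h1]
  refine (abs_norm_sub_norm_le _ _).trans ?_
  refine (Complex.norm_le_abs_re_add_abs_im _).trans ?_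
  have h2 : ((⟨b, ‖c‖⟩ : ℂ) - ⟨b', ‖c'‖⟩).re = b - b' := rfl
  have h3 : ((⟨b, ‖c‖⟩ : ℂ) - ⟨b', ‖c'‖⟩).im = ‖c‖ - ‖c'‖ := rfl
  rw [h2, h3]
  have := abs_norm_sub_norm_le c c'
  linarith

private theorem v4_est {n l ε n' : ℝ} {u v x x' : ℂ} (hn : 3 / 8 ≤ n) (hl0 : 0 ≤ l)
    (hl : l ≤ 1 / 2) (hnn : |n - n'| ≤ 2 * ε)
    (h1 : x' = n' * u) (hx : ‖x - x'‖ ≤ ε * ‖u‖ + ε * ‖v‖)
    (h0 : u - (l : ℂ) * (u - x / (n : ℂ)) = 0) :
    n * ‖u‖ ≤ (1 / 2) * (2 * ε * ‖u‖ + (ε * ‖u‖ + ε * ‖v‖)) := by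
  have hn0 : 0 < n := by linarith
  have hnc : (n : ℂ) ≠ 0 := Complex.ofReal_ne_zero.2 hn0.ne'
  have h2 : (n : ℂ) * u = (l : ℂ) * (((n : ℂ) - n') * u - (x - x')) := by
    have h3 : (n : ℂ) * u = (l : ℂ) * ((n : ℂ) * u - x) := by
      have h4 : u = (l : ℂ) * (u - x / (n : ℂ)) := by linear_combination h0
      have h5 : (n : ℂ) * (x / n) = x := by field_simp
      calc (n : ℂ) * u = (n : ℂ) * ((l : ℂ) * (u - x / (n : ℂ))) := by rw [← h4]
        _ = (l : ℂ) * ((n : ℂ) * u - (n : ℂ) * (x / n)) := by ring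
        _ = _ := by rw [h5]
    rw [h3, h1]
    ring
  have h6 : ‖(n : ℂ) * u‖ = n * ‖u‖ := by
    rw [norm_mul, Complex.norm_real, Real.norm_of_nonneg hn0.le]
  rw [← h6, h2, norm_mul, Complex.norm_real, Real.norm_of_nonneg hl0]
  have h7 : ‖((n : ℂ) - n') * u - (x - x')‖ ≤ 2 * ε * ‖u‖ + (ε * ‖u‖ + ε * ‖v‖) := by
    refine (norm_sub_le _ _).trans (add_le_add ?_ hx)
    rw [norm_mul, ← Complex.ofReal_sub, Complex.norm_real, Real.norm_eq_abs]
    exact mul_le_mul_of_nonneg_right hnn (norm_nonneg _)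
  exact mul_le_mul hl h7 (norm_nonneg _) (by norm_num)

/-- approximate version of `G_m` -/
theorem GProp_of_approx {Y : Type*} [TopologicalSpace Y] {m : ℕ}
    (h : ∀ (b : Fin m → C(Y, ℝ)) (c : Fin m → C(Y, ℂ)) (ε : ℝ), 0 < ε →
      ∃ (b' : Fin m → C(Y, ℝ)) (c' : Fin m → C(Y, ℂ)) (s t : Fin m → C(Y, ℂ)),
        (∀ i y, |b' i y - b i y| ≤ ε) ∧ (∀ i y, ‖c' i y - c i y‖ ≤ ε) ∧
        (∀ y, ∃ i, s i y ≠ 0 ∨ t i y ≠ 0) ∧
        ∀ i y, 1 / 4 ≤ √((b' i y) ^ 2 + ‖c' i y‖ ^ 2) →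
          (b' i y : ℂ) * s i y + conj (c' i y) * t i y =
            (√((b' i y) ^ 2 + ‖c' i y‖ ^ 2) : ℂ) * s i y ∧
          c' i y * s i y - (b' i y : ℂ) * t i y =
            (√((b' i y) ^ 2 + ‖c' i y‖ ^ 2) : ℂ) * t i y) : GProp m Y := by
  intro b c
  obtain ⟨b', c', s', t', hb, hc, hz, he⟩ := h b c (1 / 100) (by norm_num)
  refine ⟨fun i => v4s (b i) (c i) (s' i) (t' i), fun i => v4t (b i) (c i) (s' i) (t' i), ?_, ?_⟩
  · intro y
    obtain ⟨i, hi⟩ := hz y
    refine ⟨i, ?_⟩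
    by_contra hcon
    push Not at hcon
    obtain ⟨hs0, ht0⟩ := hcon
    change s' i y - (v4l (b i) (c i) y : ℂ) * (s' i y - ((b i y : ℂ) * s' i y +
      conj (c i y) * t' i y) / (v4m (b i) (c i) y : ℂ)) = 0 at hs0
    change t' i y - (v4l (b i) (c i) y : ℂ) * (t' i y - (c i y * s' i y -
      (b i y : ℂ) * t' i y) / (v4m (b i) (c i) y : ℂ)) = 0 at ht0
    by_cases hn : v4n (b i) (c i) y ≤ 3 / 8
    · have hl : v4l (b i) (c i) y = 0 := by
        unfold v4l
        rw [max_eq_left]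
        · simp
        · exact (min_le_right _ _).trans (by linarith)
      rw [hl] at hs0 ht0
      simp only [Complex.ofReal_zero, zero_mul, sub_zero] at hs0 ht0
      rcases hi with hi | hi
      · exact hi hs0
      · exact hi ht0
    · push Not at hn
      have hm : v4m (b i) (c i) y = v4n (b i) (c i) y := max_eq_left (by linarith)
      rw [hm] at hs0 ht0
      have hl0 : 0 ≤ v4l (b i) (c i) y := by
        unfold v4l
        have := le_max_left (0 : ℝ) (min 1 (8 * v4n (b i) (c i) y - 3))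
        linarith
      have hl1 : v4l (b i) (c i) y ≤ 1 / 2 := by
        unfold v4l
        have : max (0 : ℝ) (min 1 (8 * v4n (b i) (c i) y - 3)) ≤ 1 :=
          max_le (by norm_num) (min_le_left _ _)
        linarith
      have hd := v4_diff (b i y) (b' i y) (c i y) (c' i y)
      have hb1 : |b i y - b' i y| ≤ 1 / 100 := by rw [abs_sub_comm]; exact hb i y
      have hc1 : ‖c i y - c' i y‖ ≤ 1 / 100 := by rw [norm_sub_rev]; exact hc i y
      have hd' : |v4n (b i) (c i) y - √((b' i y) ^ 2 + ‖c' i y‖ ^ 2)| ≤ 2 * (1 / 100) := by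
        show |√((b i y) ^ 2 + ‖c i y‖ ^ 2) - _| ≤ _
        linarith
      have hn' : 1 / 4 ≤ √((b' i y) ^ 2 + ‖c' i y‖ ^ 2) := by
        have := abs_le.1 hd'
        linarith [this.2]
      obtain ⟨e1, e2⟩ := he i y hn'
      have k1 := v4_est (n := v4n (b i) (c i) y) (l := v4l (b i) (c i) y) (ε := 1 / 100)
        (n' := √((b' i y) ^ 2 + ‖c' i y‖ ^ 2)) (u := s' i y) (v := t' i y)
        (x := (b i y : ℂ) * s' i y + conj (c i y) * t' i y)
        (x' := (b' i y : ℂ) * s' i y + conj (c' i y) * t' i y) hn.le hl0 hl1 hd' e1 (by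
          have : (b i y : ℂ) * s' i y + conj (c i y) * t' i y -
            ((b' i y : ℂ) * s' i y + conj (c' i y) * t' i y) =
            ((b i y - b' i y : ℝ) : ℂ) * s' i y + conj (c i y - c' i y) * t' i y := by
            push_cast
            rw [map_sub]
            ring
          rw [this]
          refine (norm_add_le _ _).trans (add_le_add ?_ ?_)
          · rw [norm_mul, Complex.norm_real, Real.norm_eq_abs]
            exact mul_le_mul_of_nonneg_right hb1 (norm_nonneg _)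
          · rw [norm_mul, RCLike.norm_conj]
            exact mul_le_mul_of_nonneg_right hc1 (norm_nonneg _)) hs0
      have k2 := v4_est (n := v4n (b i) (c i) y) (l := v4l (b i) (c i) y) (ε := 1 / 100)
        (n' := √((b' i y) ^ 2 + ‖c' i y‖ ^ 2)) (u := t' i y) (v := s' i y)
        (x := c i y * s' i y - (b i y : ℂ) * t' i y)
        (x' := c' i y * s' i y - (b' i y : ℂ) * t' i y) hn.le hl0 hl1 hd' e2 (by
          have : c i y * s' i y - (b i y : ℂ) * t' i y -
            (c' i y * s' i y - (b' i y : ℂ) * t' i y) =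
            -(((b i y - b' i y : ℝ) : ℂ) * t' i y) + (c i y - c' i y) * s' i y := by
            push_cast
            ring
          rw [this]
          refine (norm_add_le _ _).trans (add_le_add ?_ ?_)
          · rw [norm_neg, norm_mul, Complex.norm_real, Real.norm_eq_abs]
            exact mul_le_mul_of_nonneg_right hb1 (norm_nonneg _)
          · rw [norm_mul]
            exact mul_le_mul_of_nonneg_right hc1 (norm_nonneg _)) ht0
      have hu := norm_nonneg (s' i y)
      have hv := norm_nonneg (t' i y)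
      have hs : 3 / 8 * ‖s' i y‖ ≤ v4n (b i) (c i) y * ‖s' i y‖ :=
        mul_le_mul_of_nonneg_right hn.le hu
      have ht : 3 / 8 * ‖t' i y‖ ≤ v4n (b i) (c i) y * ‖t' i y‖ :=
        mul_le_mul_of_nonneg_right hn.le hv
      have hs2 : ‖s' i y‖ = 0 := by linarith
      have ht2 : ‖t' i y‖ = 0 := by linarith
      rcases hi with hi | hi
      · exact hi (norm_eq_zero.1 hs2)
      · exact hi (norm_eq_zero.1 ht2)
  · intro i y hn
    set r : ℝ := √((b i y) ^ 2 + ‖c i y‖ ^ 2) with hr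
    have hv4n : v4n (b i) (c i) y = r := rfl
    have hl : v4l (b i) (c i) y = 1 / 2 := by
      unfold v4l
      rw [hv4n, min_eq_left (by linarith), max_eq_right (by norm_num)]
    have hm : v4m (b i) (c i) y = r := by
      unfold v4m
      rw [hv4n]
      exact max_eq_left (by linarith)
    have hr0 : (r : ℂ) ≠ 0 := Complex.ofReal_ne_zero.2 (by linarith)
    have hrr : (r : ℂ) * r = (b i y : ℂ) * (b i y : ℂ) + conj (c i y) * c i y := by
      have h1 : r * r = (b i y) ^ 2 + ‖c i y‖ ^ 2 := Real.mul_self_sqrt (by positivity)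
      rw [← Complex.ofReal_mul, h1, mul_comm (conj (c i y)), Complex.mul_conj,
        Complex.normSq_eq_norm_sq]
      push_cast
      ring
    have es : v4s (b i) (c i) (s' i) (t' i) y = s' i y - (v4l (b i) (c i) y : ℂ) *
        (s' i y - ((b i y : ℂ) * s' i y + conj (c i y) * t' i y) / (v4m (b i) (c i) y : ℂ)) := rfl
    have et : v4t (b i) (c i) (s' i) (t' i) y = t' i y - (v4l (b i) (c i) y : ℂ) *
        (t' i y - (c i y * s' i y - (b i y : ℂ) * t' i y) / (v4m (b i) (c i) y : ℂ)) := rfl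
    change (b i y : ℂ) * v4s (b i) (c i) (s' i) (t' i) y + conj (c i y) *
      v4t (b i) (c i) (s' i) (t' i) y = (r : ℂ) * v4s (b i) (c i) (s' i) (t' i) y ∧
      c i y * v4s (b i) (c i) (s' i) (t' i) y - (b i y : ℂ) * v4t (b i) (c i) (s' i) (t' i) y =
      (r : ℂ) * v4t (b i) (c i) (s' i) (t' i) y
    rw [es, et, hl, hm]
    set u := s' i y
    set v := t' i y
    set B := (b i y : ℂ)
    set C := c i y
    set C' := conj C
    set R := (r : ℂ)
    push_cast
    constructor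
    · field_simp
      linear_combination (-u) * hrr
    · field_simp
      linear_combination (-v) * hrr

end RC19
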