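import Pool.Agent.LibRC12.V1

open Filter Topology WeakDual
open scoped ENNReal NNReal ComplexOrder ComplexConjugate

set_option linter.unusedSectionVars false

namespace RC19

open RC12

variable {A : Type*} [CStarAlgebra A] [PartialOrder A] [StarOrderedRing A]

theorem blk_nonneg {n m : ℕ} {a : Mn n A} {b : Mn m A} (ha : 0 ≤ a) (hb : 0 ≤ b) :
    0 ≤ blk a b := by
  rw [blk_eq_emb]
  exact add_nonneg (emb_nonneg _ _ ha) (emb_nonneg _ _ hb)

theorem bd_nonneg {k m : ℕ} {B : Fin m → Mn k A} (hB : ∀ i, 0 ≤ B i) : 0 ≤ bd B := by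
  rw [bd_eq_sum_emb]
  exact Finset.sum_nonneg fun i _ => emb_nonneg _ _ (hB i)

theorem bd_mulVec {k m : ℕ} (B : Fin m → Mn k A) (x : Fin (k * m) → A) (a : Fin k) (l : Fin m) :
    ∑ j, (bd B).mat (finProdFinEquiv (a, l)) j * x j =
      ∑ a', (B l).mat a a' * x (finProdFinEquiv (a', l)) := by
  rw [← finProdFinEquiv.sum_comp, Fintype.sum_prod_type]
  refine Finset.sum_congr rfl fun a' _ => ?_
  have h : ∀ l', (bd B).mat (finProdFinEquiv (a, l)) (finProdFinEquiv (a', l')) =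
      if l = l' then (B l).mat a a' else 0 := by
    intro l'
    show Matrix.reindex finProdFinEquiv finProdFinEquiv
      (Matrix.blockDiagonal fun i => (B i).mat) _ _ = _
    rw [Matrix.reindex_apply, Matrix.submatrix_apply, Equiv.symm_apply_apply,
      Equiv.symm_apply_apply, Matrix.blockDiagonal_apply]
  simp only [h, ite_mul, zero_mul]
  simp

theorem blk21 (a : Mn 2 A) (b : Mn 1 A) :
    (blk a b).mat = !![a.mat 0 0, a.mat 0 1, 0; a.mat 1 0, a.mat 1 1, 0; 0, 0, b.mat 0 0] := by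
  ext i j
  fin_cases i <;> fin_cases j <;> rfl

/-- block diagonal of the pairs `M_i ⊕ e_i` -/
theorem exists_blocks {m : ℕ} (M : Fin m → Mn 2 A) (hM : ∀ i, 0 ≤ M i) (e : Fin m → A)
    (he : ∀ i, 0 ≤ e i) (heJ : ∀ i, e i ∈ J0 A) :
    ∃ (n : ℕ) (B : Mn n A), 0 ≤ B ∧ (0 < m → 0 < n) ∧
      (∀ τ : QuasiTrace A, ∑ i, (τ.dq (M i) + τ.dq (M1 (e i))) ≤ τ.dq B) ∧
      ∀ x : Fin n → A, ∃ p q : Fin m → A, ∀ φ : characterSpace ℂ A,
        (∀ i, φ ((M i).mat 0 0 * p i + (M i).mat 0 1 * q i) = 0 ∧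
          φ ((M i).mat 1 0 * p i + (M i).mat 1 1 * q i) = 0) →
        ∀ i, φ (∑ k, B.mat i k * x k) = 0 := by
  have hBn : ∀ i, 0 ≤ blk (M i) (M1 (e i)) := fun i => blk_nonneg (hM i) (M1_nonneg (he i))
  refine ⟨(2 + 1) * m, bd fun i => blk (M i) (M1 (e i)), bd_nonneg hBn, fun h => by omega, ?_, ?_⟩
  · intro τ
    rw [dq_bd τ hBn]
    refine le_of_eq (Finset.sum_congr rfl fun i _ => ?_)
    rw [dq_blk τ (hM i) (M1_nonneg (he i))]
  · intro x
    refine ⟨fun i => x (finProdFinEquiv (0, i)), fun i => x (finProdFinEquiv (1, i)),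
      fun φ hφ i => ?_⟩
    obtain ⟨⟨a, l⟩, rfl⟩ := finProdFinEquiv.surjective i
    rw [bd_mulVec, blk21, Fin.sum_univ_three]
    fin_cases a
    · have := (hφ l).1
      simpa using this
    · have := (hφ l).2
      simpa using this
    · have h1 : φ (e l) = 0 := heJ l φ
      have h2 : (M1 (e l)).mat 0 0 = e l := rfl
      simp [h1, h2]

end RC19
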