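import Pool.Agent.LibRC12.V3

open Filter Topology WeakDual
open scoped ENNReal NNReal ComplexOrder ComplexConjugate

set_option linter.unusedSectionVars false

namespace RC19

open RC12

variable {A : Type*} [CStarAlgebra A] [PartialOrder A] [StarOrderedRing A]

theorem TM_sq_mat (ρ b c : A) :
    (TM ρ b c * TM ρ b c).mat = !![ρ + b, star c; c, ρ - b] * !![ρ + b, star c; c, ρ - b] := rfl

/-- the vector `T² (p,q)` at a character is in the line -/
theorem TM_line {b : A} (hb : IsSelfAdjoint b) (c p q : A) (φ : characterSpace ℂ A)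
    (h : 1 / 4 ≤ √((φ b).re ^ 2 + ‖φ c‖ ^ 2)) (s t : ℂ)
    (hs : s = φ ((TM (rhoe b c) b c * TM (rhoe b c) b c).mat 0 0 * p +
      (TM (rhoe b c) b c * TM (rhoe b c) b c).mat 0 1 * q))
    (ht : t = φ ((TM (rhoe b c) b c * TM (rhoe b c) b c).mat 1 0 * p +
      (TM (rhoe b c) b c * TM (rhoe b c) b c).mat 1 1 * q)) :
    (((φ b).re : ℝ) : ℂ) * s + conj (φ c) * t = ((√((φ b).re ^ 2 + ‖φ c‖ ^ 2) : ℝ) : ℂ) * s ∧
    φ c * s - (((φ b).re : ℝ) : ℂ) * t = ((√((φ b).re ^ 2 + ‖φ c‖ ^ 2) : ℝ) : ℂ) * t := by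
  set S : ℝ := (φ b).re ^ 2 + ‖φ c‖ ^ 2 with hS
  have hS16 : 1 / 16 ≤ S := by
    have h0 : 0 ≤ S := by positivity
    have h1 := Real.sq_sqrt h0
    nlinarith
  have hρ : φ (rhoe b c) = ((√S : ℝ) : ℂ) := by
    rw [char_rhoe hb c φ, ← hS, max_eq_left hS16]
  have hsq : ((√S : ℝ) : ℂ) * ((√S : ℝ) : ℂ) =
      (((φ b).re : ℝ) : ℂ) * (((φ b).re : ℝ) : ℂ) + conj (φ c) * φ c := by
    rw [← Complex.ofReal_mul, Real.mul_self_sqrt (by positivity), hS, mul_comm (conj (φ c)),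
      Complex.mul_conj, Complex.normSq_eq_norm_sq]
    push_cast
    ring
  have hb' : φ b = (((φ b).re : ℝ) : ℂ) := (char_sa φ hb).symm
  set β : ℂ := (((φ b).re : ℝ) : ℂ) with hβ
  set R : ℂ := ((√S : ℝ) : ℂ) with hR
  set γ : ℂ := φ c with hγ
  have e1 : s = ((R + β) * (R + β) + conj γ * γ) * φ p +
      ((R + β) * conj γ + conj γ * (R - β)) * φ q := by
    rw [hs, TM_sq_mat]
    simp only [Matrix.mul_apply, Fin.sum_univ_two, Matrix.of_apply, Matrix.cons_val',
      Matrix.cons_val_zero, Matrix.cons_val_one, Matrix.cons_val_fin_one, map_add, map_mul,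
      map_sub, map_star, hρ, hb']
    rfl
  have e2 : t = (γ * (R + β) + (R - β) * γ) * φ p +
      (γ * conj γ + (R - β) * (R - β)) * φ q := by
    rw [ht, TM_sq_mat]
    simp only [Matrix.mul_apply, Fin.sum_univ_two, Matrix.of_apply, Matrix.cons_val',
      Matrix.cons_val_zero, Matrix.cons_val_one, Matrix.cons_val_fin_one, map_add, map_mul,
      map_sub, map_star, hρ, hb']
    rfl
  rw [e1, e2]
  constructor
  · linear_combination ((-R - β) * φ p - conj γ * φ q) * hsq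
  · linear_combination (-γ * φ p - (R - β) * φ q) * hsq

end RC19
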