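import Pool.Agent.LibRC12.U1a
import Pool.Agent.LibRC12.U3
import Pool.Agent.LibRC12.V4
import Pool.Agent.LibRC12.V5a
import Pool.Agent.LibRC12.V5b

open Filter Topology WeakDual
open scoped ENNReal NNReal ComplexOrder ComplexConjugate

set_option linter.unusedSectionVars false

namespace RC19

open RC12

variable {A : Type*} [CStarAlgebra A] [PartialOrder A] [StarOrderedRing A]

/-- (6.2) -/
theorem gm_char' {r : ℝ} (hr0 : 0 ≤ r) (hr : ∀ (n : ℕ) (a b : Mn n A), 0 ≤ a → 0 ≤ b →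
      (∀ τ : QuasiTrace A, τ.dq a + r < τ.dq b) → Cu a b) {m : ℕ} (hm : 1 + r < m) :
    GProp m (characterSpace ℂ A) := by
  refine GProp_of_approx fun b c ε hε => ?_
  choose b' hb'sa hb' using fun i => exists_lift_sa (b i) hε
  choose c' hc' using fun i => exists_lift (c i) hε
  have hmR : (0 : ℝ) < m := by linarith
  have hm0 : 0 < m := by exact_mod_cast hmR
  obtain ⟨κ, hκ, hκm⟩ : ∃ κ : ℝ, 0 < κ ∧ 1 + r < m * (1 - κ) := by
    refine ⟨(m - (1 + r)) / (2 * m), div_pos (by linarith) (by linarith), ?_⟩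
    have : (m : ℝ) * (1 - (m - (1 + r)) / (2 * m)) = m - (m - (1 + r)) / 2 := by
      field_simp
    rw [this]
    linarith
  choose e he heJ hed using fun i => exists_e (hb'sa i) (c' i) hκ
  set M : Fin m → Mn 2 A := fun i =>
    TM (rhoe (b' i) (c' i)) (b' i) (c' i) * TM (rhoe (b' i) (c' i)) (b' i) (c' i) with hMdef
  have hM : ∀ i, 0 ≤ M i := fun i => TM_sq_nonneg (rhoe_sa _ _) (hb'sa i) _
  obtain ⟨n, B, hB, hn, hBd, hBx⟩ := exists_blocks M hM e he heJ
  have hgap : ∀ τ : QuasiTrace A, 1 + r < τ.dq B := by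
    intro τ
    refine lt_of_lt_of_le ?_ (hBd τ)
    have h1 : ∑ _i : Fin m, (1 - κ) ≤ ∑ i, (τ.dq (M i) + τ.dq (M1 (e i))) :=
      Finset.sum_le_sum fun i _ => hed i τ
    rw [Finset.sum_const, Finset.card_univ, Fintype.card_fin, nsmul_eq_mul] at h1
    linarith
  obtain ⟨x, hx⟩ := exists_vec hr (hn hm0) B hB hgap
  obtain ⟨p, q, hpq⟩ := hBx x
  refine ⟨fun i => ⟨fun φ => (φ (b' i)).re, Complex.continuous_re.comp (continuous_char _)⟩,
    fun i => ⟨fun φ => φ (c' i), continuous_char _⟩,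
    fun i => ⟨fun φ => φ ((M i).mat 0 0 * p i + (M i).mat 0 1 * q i), continuous_char _⟩,
    fun i => ⟨fun φ => φ ((M i).mat 1 0 * p i + (M i).mat 1 1 * q i), continuous_char _⟩,
    fun i φ => hb' i φ, fun i φ => hc' i φ, ?_, ?_⟩
  · intro φ
    by_contra hcon
    push Not at hcon
    obtain ⟨i, hi⟩ := hx φ
    exact hi (hpq φ (fun i => hcon i) i)
  · intro i φ h
    exact TM_line (hb'sa i) (c' i) (p i) (q i) φ h _ _ rfl rfl

end RC19
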