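import Pool.Agent.LibRC12.S5F
import Pool.Agent.LibRC12.S5H
import Pool.Agent.LibRC12.S5H5
import Pool.Agent.LibRC12.S4K2
import Pool.Agent.LibRC12.S2All
import Pool.Agent.LibRC12.T6Main
import Pool.Agent.LibRC12.T7N
import Pool.Agent.LibRC12.U3
import Pool.Agent.LibRC12.V5

/-!
The main theorem on the radius of comparison of `C(X) ⊗ A`.
-/

open Filter Topology WeakDual
open scoped ENNReal NNReal ComplexOrder

set_option linter.unusedSectionVars false

namespace RC12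

variable {A : Type*} [CStarAlgebra A] [PartialOrder A] [StarOrderedRing A]

/-- uniform continuity of `V ↦ V* b V` on bounded sets -/
theorem conj_close_unif {M : Type*} [CStarAlgebra M] (B C : ℝ) {η : ℝ} (hη : 0 < η) :
    ∃ η' : ℝ, 0 < η' ∧ ∀ b V W : M, ‖b‖ ≤ B → ‖V‖ ≤ C → ‖W - V‖ ≤ η' →
      ‖star W * b * W - star V * b * V‖ ≤ η := by
  refine ⟨min 1 (η / (2 * (|B| + 1) * (|C| + 1) + (|B| + 1))), by positivity, ?_⟩
  intro b V W hb hV hW
  have hB : ‖b‖ ≤ |B| + 1 := by linarith [le_abs_self B]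
  have hC : ‖V‖ ≤ |C| + 1 := by linarith [le_abs_self C]
  have h1 : ‖W - V‖ ≤ 1 := hW.trans (min_le_left _ _)
  have h2 := hW.trans (min_le_right _ _)
  have e : star W * b * W - star V * b * V =
      star (W - V) * b * V + star V * b * (W - V) + star (W - V) * b * (W - V) := by
    rw [star_sub]; noncomm_ring
  set D := 2 * (|B| + 1) * (|C| + 1) + (|B| + 1) with hD
  have hDpos : 0 < D := by positivity
  have hn : ‖star (W - V)‖ = ‖W - V‖ := norm_star _
  have hn' : ‖star V‖ = ‖V‖ := norm_star _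
  rw [e]
  calc ‖star (W - V) * b * V + star V * b * (W - V) + star (W - V) * b * (W - V)‖
      ≤ ‖star (W - V) * b * V‖ + ‖star V * b * (W - V)‖ + ‖star (W - V) * b * (W - V)‖ :=
        norm_add₃_le
    _ ≤ ‖W - V‖ * (|B| + 1) * (|C| + 1) + (|C| + 1) * (|B| + 1) * ‖W - V‖ +
        ‖W - V‖ * (|B| + 1) * 1 := by
        have hp := norm_nonneg (W - V)
        gcongr
        · exact (norm_mul₃_le).trans (by rw [hn]; gcongr)
        · exact (norm_mul₃_le).trans (by rw [hn']; gcongr)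
        · exact (norm_mul₃_le).trans (by rw [hn]; gcongr)
    _ = ‖W - V‖ * D := by rw [hD]; ring
    _ ≤ η / D * D := by gcongr
    _ = η := by field_simp

/-- the comparison property of `C(X, A)` in the working notation -/
theorem main_working {r : ℝ} (hr0 : 0 ≤ r) (hr : HC A r) {X : Type*} [TopologicalSpace X]
    [CompactSpace X] [T2Space X] {d : ℕ} (hX : POrd (d + 1) X) (n : ℕ) (a b : CM X (Mn n A))
    (ha : 0 ≤ a) (hb : 0 ≤ b)
    (hgap : ∀ x (τ : QuasiTrace A), τ.dq (ev x a) + (r + d / 2 + 1) < τ.dq (ev x b)) :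
    Cu a b := by
  set m : ℕ := ⌊r⌋₊ + 2 with hm
  have hrm : 1 + r < m := by
    have := Nat.lt_floor_add_one r
    rw [hm]; push_cast; linarith
  have hY : POrd (2 * m + 1) (characterSpace ℂ A) :=
    RC19.T6_main (by omega) (RC19.un_char' hr hrm) (RC19.gm_char' hr0 hr hrm)
  have hJ : PJ A X (r + (d + 1) / 2) := S4.pj_main hr hX
  refine Cu_of_cut ha fun ε hε => ?_
  obtain ⟨δ, hδ, hU⟩ := dq_uniform a b ha hb _ hgap (ε := ε / 2 / 2) (by positivity)
  have hfin := S5.finish_thm hJ a b ha hb (e := ε / 2) (δ := δ) (by positivity) hδ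
    (fun x τ => by
      have := hU x τ
      have h2 : r + (d + 1 : ℝ) / 2 + 1 / 2 = r + d / 2 + 1 := by ring
      rw [h2]; exact this)
  have hε2 : 2 * (ε / 2) = ε := by ring
  rw [hε2] at hfin
  refine hfin fun η hη => ?_
  obtain ⟨a', ha'⟩ := exists_evc a
  obtain ⟨b', hb'⟩ := exists_evc b
  set ρ : ℝ := r + d / 2 + 1 with hρ
  have hρ0 : 0 ≤ ρ := by positivity
  have ha'0 : 0 ≤ a' := by
    rw [CM.nonneg_iff]
    rintro ⟨x, φ⟩
    rw [ha' x φ]
    exact map_nonneg (evc φ) (CM.nonneg_iff.1 ha x)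
  have hb'0 : 0 ≤ b' := by
    rw [CM.nonneg_iff]
    rintro ⟨x, φ⟩
    rw [hb' x φ]
    exact map_nonneg (evc φ) (CM.nonneg_iff.1 hb x)
  have hca0 : 0 ≤ cut ε a' := cut_nonneg _ _
  have evc_cut : ∀ (φ : characterSpace ℂ A) (c : Mn n A), 0 ≤ c → ∀ ε : ℝ,
      evc φ (cut ε c) = cut ε (evc φ c) := fun φ c hc ε =>
    S5.map_cut (evc φ) (IsSelfAdjoint.of_nonneg hc) ε
  have hgp : ∀ w, (ev w (cut ε a')).mat.rank + (⌊ρ⌋₊ + 1) ≤ (ev w b').mat.rank := by
    rintro ⟨x, φ⟩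
    obtain ⟨τ, hτ⟩ := char_qt φ
    have h1 := hU x τ
    have hxa := CM.nonneg_iff.1 ha x
    have hxb := CM.nonneg_iff.1 hb x
    have h2 : τ.dq (cut ε (ev x a)) ≤ τ.dq (cut (ε / 2 / 2) (ev x a)) :=
      dq_mono τ (cut_nonneg _ _) (cut_nonneg _ _)
        (Cu_of_le (cut_nonneg _ _) (cut_mono_param (by linarith) hxa))
    have h3 : τ.dq (cut δ (ev x b)) ≤ τ.dq (ev x b) :=
      dq_mono τ (cut_nonneg _ _) hxb (Cu_of_le (cut_nonneg _ _) (cut_le_self hδ.le hxb))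
    rw [hτ _ _ (cut_nonneg _ _)] at h2
    rw [hτ _ _ hxb] at h3
    rw [evc_cut φ _ hxa] at h2
    rw [S4.ev_cut _ ha'0, ha', hb']
    have h3 : ((cut ε (evc φ (ev x a))).mat.rank : ℝ) + ρ < (evc φ (ev x b)).mat.rank := by
      linarith
    have h4 : (⌊ρ⌋₊ : ℝ) ≤ ρ := Nat.floor_le hρ0
    have h5 : (((cut ε (evc φ (ev x a))).mat.rank + ⌊ρ⌋₊ : ℕ) : ℝ) <
        (evc φ (ev x b)).mat.rank := by push_cast; linarith
    have h6 := Nat.cast_lt.1 h5
    omega
  have hg : d + 2 * m + 1 ≤ 2 * ((⌊ρ⌋₊ + 1) + 1) := by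
    have h1 : ⌊r⌋₊ + 1 + d / 2 ≤ ⌊ρ⌋₊ := by
      apply Nat.le_floor
      push_cast
      have h2 : (⌊r⌋₊ : ℝ) ≤ r := Nat.floor_le hr0
      have h3 : ((d / 2 : ℕ) : ℝ) ≤ (d : ℝ) / 2 := Nat.cast_div_le
      rw [hρ]; linarith
    have h2 : d ≤ 2 * (d / 2) + 1 := by omega
    omega
  -- continuity of `V ↦ V* b V`, uniformly
  obtain ⟨V, hV⟩ := gp_main hX hY hg (cut ε a') b' hca0 hb'0 hgp (η := η / 2) (by positivity)
  obtain ⟨η', hη', hclose⟩ := conj_close_unif (M := Mn n ℂ) ‖b'‖ ‖V‖ (η := η / 2) (by positivity)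
  obtain ⟨W, hW⟩ := lift_main V hη'
  refine ⟨W, fun x φ => ?_⟩
  have hV' := (CM.norm_ev_le (star V * b' * V - cut ε a') (x, φ)).trans hV
  have e1 : evc φ (ev x (star W * b * W - cut ε a)) =
      (star (evc φ (ev x W)) * ev (x, φ) b' * evc φ (ev x W) -
        star (ev (x, φ) V) * ev (x, φ) b' * ev (x, φ) V) +
      ev (x, φ) (star V * b' * V - cut ε a') := by
    rw [map_sub, map_sub, map_mul, map_mul, map_mul, map_mul, map_sub, map_mul, map_mul,
      ev_star, ev_star, S4.ev_cut x ha, evc_cut φ _ (CM.nonneg_iff.1 ha x), S4.ev_cut _ ha'0,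
      ha', hb', map_star]
    abel
  rw [e1]
  calc _ ≤ ‖star (evc φ (ev x W)) * ev (x, φ) b' * evc φ (ev x W) -
        star (ev (x, φ) V) * ev (x, φ) b' * ev (x, φ) V‖ +
      ‖ev (x, φ) (star V * b' * V - cut ε a')‖ := norm_add_le _ _
    _ ≤ η / 2 + η / 2 :=
      add_le_add (hclose _ _ _ (CM.norm_ev_le _ _) (CM.norm_ev_le _ _) (hW x φ)) hV'
    _ = η := by ring

theorem main_comparison {r : ℝ} (hr0 : 0 ≤ r) (hr : HasComparison A r) {X : Type*}
    [TopologicalSpace X] [CompactSpace X] [T2Space X] {d : ℕ} (hX : CoverDimLE X d) :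
    HasComparison C(X, A) (r + d / 2 + 1) :=
  S5.hasComparison_CXA_thm fun n a b ha hb hgap =>
    main_working hr0 (S5.hc_of_hasComparison_thm hr) (pu_of_coverDimLE hX) n a b ha hb hgap

theorem rc_le (A : Type*) [CStarAlgebra A] (X : Type*) [TopologicalSpace X] [CompactSpace X]
    [T2Space X] : rc C(X, A) ≤ rc A + (coverDim X : ℝ≥0∞) / 2 + 1 := by
  letI := CStarAlgebra.spectralOrder A
  haveI := CStarAlgebra.spectralOrderedRing A
  refine S5.rc_arith A X fun r d hr hX => ?_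
  have h := main_comparison (A := A) r.2 hr hX
  have e : (((r + d / 2 + 1 : ℝ≥0)) : ℝ) = (r : ℝ) + d / 2 + 1 := by push_cast; ring
  rw [e]
  exact h

end RC12
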