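import Pool.Agent.LibRC12.Core

/-!
S0A (section 0 of MP_19886c): small facts on `cfc` and on `Cu` (`Cu a b`: ∀ ε > 0 ∃ v, ‖v* b v - a‖ < ε).
trans: v = v2 v1 with ‖v2* c v2 - b‖ < ε/(2(‖v1‖²+1)). map: *-homomorphisms are contractive (`NonUnitalStarAlgHom.norm_apply_le`).
-/

open Filter Topology
open scoped ENNReal NNReal ComplexOrder

set_option autoImplicit false
set_option linter.unusedSectionVars false

namespace RC12

variable {M : Type*} [CStarAlgebra M] [PartialOrder M] [StarOrderedRing M]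

theorem cfc_sqrt_mul_self {a : M} (ha : 0 ≤ a) : cfc Real.sqrt a * cfc Real.sqrt a = a := by
  have hsa : IsSelfAdjoint a := IsSelfAdjoint.of_nonneg ha
  rw [← cfc_mul Real.sqrt Real.sqrt a]
  conv_rhs => rw [← cfc_id' ℝ a]
  exact cfc_congr fun s hs => Real.mul_self_sqrt (spectrum_nonneg_of_nonneg ha hs)
theorem cfc_sqrt_nonneg (a : M) : 0 ≤ cfc Real.sqrt a :=
  cfc_nonneg fun _ _ => Real.sqrt_nonneg _
theorem spec_le_norm {a : M} {s : ℝ} (hs : s ∈ spectrum ℝ a) : s ≤ ‖a‖ := by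
  rcases subsingleton_or_nontrivial M with h | h
  · exact absurd hs (by rw [spectrum.of_subsingleton]; exact Set.notMem_empty s)
  · exact (le_abs_self s).trans (by simpa using spectrum.norm_le_norm_of_mem hs)
/-- for positive `a` only the values on `[0, ‖a‖]` matter -/
theorem cfc_congr_nonneg {a : M} (ha : 0 ≤ a) {f g : ℝ → ℝ} (h : ∀ s, 0 ≤ s → s ≤ ‖a‖ → f s = g s) :
    cfc f a = cfc g a :=
  cfc_congr fun s hs => h s (spectrum_nonneg_of_nonneg ha hs) (spec_le_norm hs)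
theorem cfc_mono_nonneg {a : M} (ha : 0 ≤ a) {f g : ℝ → ℝ} (hf : Continuous f) (hg : Continuous g)
    (h : ∀ s, 0 ≤ s → s ≤ ‖a‖ → f s ≤ g s) : cfc f a ≤ cfc g a :=
  cfc_mono fun s hs => h s (spectrum_nonneg_of_nonneg ha hs) (spec_le_norm hs)
theorem norm_cfc_le_nonneg {a : M} (ha : 0 ≤ a) {f : ℝ → ℝ} {c : ℝ} (hc : 0 ≤ c)
    (h : ∀ s, 0 ≤ s → s ≤ ‖a‖ → |f s| ≤ c) : ‖cfc f a‖ ≤ c :=
  norm_cfc_le hc fun s hs => h s (spectrum_nonneg_of_nonneg ha hs) (spec_le_norm hs)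
theorem cut_nonneg (ε : ℝ) (a : M) : 0 ≤ cut ε a := cfc_nonneg fun _ _ => le_max_right _ _
theorem cut_mono_param {e e' : ℝ} (h : e ≤ e') {a : M} (ha : 0 ≤ a) : cut e' a ≤ cut e a := by
  unfold cut
  exact cfc_mono_nonneg ha (by fun_prop) (by fun_prop)
    fun s _ _ => max_le_max (by linarith) le_rfl
theorem cut_le_self {e : ℝ} (he : 0 ≤ e) {a : M} (ha : 0 ≤ a) : cut e a ≤ a := by
  have hsa : IsSelfAdjoint a := IsSelfAdjoint.of_nonneg ha
  conv_rhs => rw [← cfc_id' ℝ a]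
  unfold cut
  exact cfc_mono_nonneg ha (by fun_prop) (by fun_prop) fun s hs _ => max_le (by linarith) hs
theorem norm_cut_sub_le {ε : ℝ} (hε : 0 ≤ ε) {a : M} (ha : 0 ≤ a) : ‖cut ε a - a‖ ≤ ε := by
  have hsa : IsSelfAdjoint a := IsSelfAdjoint.of_nonneg ha
  have h1 : cut ε a - a = cfc (fun s : ℝ => max (s - ε) 0 - s) a := by
    conv_lhs => rhs; rw [← cfc_id' ℝ a]
    unfold cut
    rw [← cfc_sub (fun s : ℝ => max (s - ε) 0) (fun s => s) a]
  rw [h1]
  refine norm_cfc_le_nonneg ha hε fun s hs _ => ?_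
  rw [abs_le]
  rcases le_total (s - ε) 0 with h | h
  · rw [max_eq_right h]; constructor <;> linarith
  · rw [max_eq_left h]; constructor <;> linarith
theorem psi_nonneg {ε : ℝ} (hε : 0 < ε) {a : M} (ha : 0 ≤ a) : 0 ≤ psi ε a :=
  cfc_nonneg fun s hs => le_min zero_le_one (div_nonneg (spectrum_nonneg_of_nonneg ha hs) hε.le)
theorem psi_le_one (ε : ℝ) {a : M} (ha : 0 ≤ a) : psi ε a ≤ 1 :=
  cfc_le_one _ a fun _ _ => min_le_left _ _
theorem Cu_refl (a : M) : Cu a a := fun ε hε => ⟨1, by simpa using hε⟩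
theorem Cu_trans {a b c : M} (h1 : Cu a b) (h2 : Cu b c) : Cu a c := by
  intro ε hε
  obtain ⟨v, hv⟩ := h1 (ε / 2) (by positivity)
  obtain ⟨w, hw⟩ := h2 (ε / (2 * (‖v‖ * ‖v‖ + 1))) (by positivity)
  refine ⟨w * v, ?_⟩
  have e : star (w * v) * c * (w * v) - a =
      star v * (star w * c * w - b) * v + (star v * b * v - a) := by
    rw [star_mul]; noncomm_ring
  rw [e]
  have hD : (0 : ℝ) < 2 * (‖v‖ * ‖v‖ + 1) := by positivity
  have h3 : ‖star v * (star w * c * w - b) * v‖ ≤ ε / 2 := by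
    calc ‖star v * (star w * c * w - b) * v‖ ≤ ‖star v‖ * ‖star w * c * w - b‖ * ‖v‖ :=
          norm_mul₃_le
      _ = ‖star w * c * w - b‖ * (‖v‖ * ‖v‖) := by rw [norm_star]; ring
      _ ≤ ε / (2 * (‖v‖ * ‖v‖ + 1)) * (‖v‖ * ‖v‖ + 1) := by
          gcongr
          linarith
      _ = ε / 2 := by field_simp
  calc _ ≤ _ := norm_add_le _ _
    _ < ε / 2 + ε / 2 := by linarith
    _ = ε := by ring
theorem Cu_conj (x a : M) : Cu (star x * a * x) a := fun ε hε => ⟨x, by simpa using hε⟩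
theorem Cu_of_approx {a b : M} (h : ∀ ε : ℝ, 0 < ε → ∃ c, Cu c b ∧ ‖c - a‖ < ε) : Cu a b := by
  intro ε hε
  obtain ⟨c, hc, hca⟩ := h (ε / 2) (by positivity)
  obtain ⟨v, hv⟩ := hc (ε / 2) (by positivity)
  refine ⟨v, ?_⟩
  have e : star v * b * v - a = (star v * b * v - c) + (c - a) := by abel
  rw [e]
  calc _ ≤ _ := norm_add_le _ _
    _ < ε / 2 + ε / 2 := by linarith
    _ = ε := by ring
theorem Cu_zero (b : M) : Cu 0 b := fun ε hε => ⟨0, by simpa using hε⟩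
theorem Cu_map {N : Type*} [CStarAlgebra N] (f : M →⋆ₙₐ[ℂ] N) {a b : M} (h : Cu a b) :
    Cu (f a) (f b) := by
  intro ε hε
  obtain ⟨v, hv⟩ := h ε hε
  refine ⟨f v, ?_⟩
  have e : star (f v) * f b * f v - f a = f (star v * b * v - a) := by
    rw [map_sub, map_mul, map_mul, map_star]
  rw [e]
  exact (NonUnitalStarAlgHom.norm_apply_le f _).trans_lt hv

end RC12
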