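import Pool.Agent.LibRC12.S0A

/-!
S0B: `0 ≤ a ≤ b ⇒ a ≲ b`. For k > 0 take v = (b+k)^{-1/2} a^{1/2}: v* b v = a - k a^{1/2}(b+k)^{-1}a^{1/2} and
0 ≤ a^{1/2}(b+k)^{-1}a^{1/2} ≤ 1 because a ≤ b + k, so the error is at most k.
-/

open Filter Topology
open scoped ENNReal NNReal ComplexOrder

set_option autoImplicit false
set_option linter.unusedSectionVars false

namespace RC12

variable {M : Type*} [CStarAlgebra M] [PartialOrder M] [StarOrderedRing M]

theorem continuous_invsqrt {k : ℝ} (hk : 0 < k) :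
    Continuous fun s : ℝ => (Real.sqrt (max s 0 + k))⁻¹ := by
  refine Continuous.inv₀ (by fun_prop) fun s => ?_
  have : 0 < max s 0 + k := by positivity
  exact (Real.sqrt_pos.2 this).ne'

theorem Cu_of_le {a b : M} (ha : 0 ≤ a) (hab : a ≤ b) : Cu a b := by
  have hb : 0 ≤ b := ha.trans hab
  have hbsa : IsSelfAdjoint b := IsSelfAdjoint.of_nonneg hb
  have key : ∀ k : ℝ, 0 < k → ∃ v : M, ‖star v * b * v - a‖ ≤ k := by
    intro k hk
    set r : M := cfc (fun s : ℝ => (Real.sqrt (max s 0 + k))⁻¹) b with hr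
    have hrc := continuous_invsqrt hk
    have hrsa : IsSelfAdjoint r := cfc_predicate _ b
    set q : M := cfc Real.sqrt a with hq
    have hqsa : IsSelfAdjoint q := cfc_predicate _ a
    have hqq : q * q = a := cfc_sqrt_mul_self ha
    -- `r b r = 1 - k r²`
    have h1 : r * b * r = 1 - k • (r * r) := by
      have e1 : r * b * r = cfc (fun s : ℝ => (Real.sqrt (max s 0 + k))⁻¹ * s *
          (Real.sqrt (max s 0 + k))⁻¹) b := by
        conv_lhs => lhs; rhs; rw [← cfc_id' ℝ b]
        rw [hr, ← cfc_mul (fun s : ℝ => (Real.sqrt (max s 0 + k))⁻¹) (fun s => s) b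
          hrc.continuousOn (by fun_prop),
          ← cfc_mul (fun s : ℝ => (Real.sqrt (max s 0 + k))⁻¹ * s)
          (fun s : ℝ => (Real.sqrt (max s 0 + k))⁻¹) b
          (hrc.mul continuous_id).continuousOn hrc.continuousOn]
      have e2 : (1 : M) - k • (r * r) = cfc (fun s : ℝ => 1 - k * ((Real.sqrt (max s 0 + k))⁻¹ *
          (Real.sqrt (max s 0 + k))⁻¹)) b := by
        rw [cfc_sub (fun _ : ℝ => (1 : ℝ)) (fun s => k * ((Real.sqrt (max s 0 + k))⁻¹ *
          (Real.sqrt (max s 0 + k))⁻¹)) b (by fun_prop)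
          ((continuous_const.mul (hrc.mul hrc)).continuousOn), cfc_const_one ℝ b,
          cfc_const_mul k (fun s : ℝ => (Real.sqrt (max s 0 + k))⁻¹ *
          (Real.sqrt (max s 0 + k))⁻¹) b (hrc.mul hrc).continuousOn,
          cfc_mul (fun s : ℝ => (Real.sqrt (max s 0 + k))⁻¹)
          (fun s : ℝ => (Real.sqrt (max s 0 + k))⁻¹) b hrc.continuousOn hrc.continuousOn]
      rw [e1, e2]
      refine cfc_congr_nonneg hb fun s hs _ => ?_
      rw [max_eq_left hs]
      have h0 : 0 < s + k := by positivity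
      have h2 : (Real.sqrt (s + k))⁻¹ * (Real.sqrt (s + k))⁻¹ = (s + k)⁻¹ := by
        rw [← mul_inv, Real.mul_self_sqrt h0.le]
      calc (Real.sqrt (s + k))⁻¹ * s * (Real.sqrt (s + k))⁻¹
          = s * ((Real.sqrt (s + k))⁻¹ * (Real.sqrt (s + k))⁻¹) := by ring
        _ = 1 - k * ((Real.sqrt (s + k))⁻¹ * (Real.sqrt (s + k))⁻¹) := by
            rw [h2]; field_simp; ring
    have h2 : ‖r * a * r‖ ≤ 1 := by
      have h3 : r * a * r ≤ 1 := by
        have h4 : a ≤ b + algebraMap ℝ M k := by
          have : (0 : M) ≤ algebraMap ℝ M k := algebraMap_nonneg M hk.le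
          calc a ≤ b := hab
            _ = b + 0 := (add_zero _).symm
            _ ≤ _ := by gcongr
        have h5 := hrsa.conjugate_le_conjugate h4
        have h6 : r * (b + algebraMap ℝ M k) * r = 1 := by
          rw [mul_add, add_mul, h1, Algebra.algebraMap_eq_smul_one]
          simp
        rwa [h6] at h5
      have h0 : 0 ≤ r * a * r := by
        simpa [hrsa.star_eq] using hrsa.conjugate_nonneg ha
      exact (CStarAlgebra.norm_le_one_iff_of_nonneg _ h0).2 h3
    refine ⟨r * q, ?_⟩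
    have e : star (r * q) * b * (r * q) - a = -(k • (star (r * q) * (r * q))) := by
      rw [star_mul, hrsa.star_eq, hqsa.star_eq]
      have : q * r * b * (r * q) = q * (r * b * r) * q := by noncomm_ring
      rw [this, h1]
      rw [mul_sub, sub_mul, mul_one, hqq]
      have : q * k • (r * r) * q = k • (q * r * (r * q)) := by
        rw [mul_smul_comm, smul_mul_assoc]; noncomm_ring
      rw [this]; abel
    rw [e, norm_neg, norm_smul, CStarRing.norm_star_mul_self, ← CStarRing.norm_self_mul_star]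
    have e3 : r * q * star (r * q) = r * a * r := by
      rw [star_mul, hrsa.star_eq, hqsa.star_eq, ← hqq]; noncomm_ring
    rw [e3, Real.norm_of_nonneg hk.le]
    nlinarith
  intro ε hε
  obtain ⟨v, hv⟩ := key (ε / 2) (by positivity)
  exact ⟨v, by linarith⟩
theorem Cu_of_le' {a b : M} (ha : 0 ≤ a) (hab : a ≤ b) : Cu a b := Cu_of_le ha hab

end RC12
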