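import Pool.Agent.LibRC12.S0A

/-!
S0C: intertwining `a w = w b ⇒ f(a) w = w f(b)` for self-adjoint a, b and continuous f: clear for polynomials;
approximate f uniformly by polynomials on [-R,R] (R ≥ ‖a‖, ‖b‖; `exists_polynomial_near_of_continuousOn`), `norm_cfc_le`.
Second part: a b = 0, f(0) = 0 = g(0) ⇒ f(a) g(b) = 0 (apply the first part twice, e.g. a·b = b'·0: from `a w = w 0`, w = b,
get f(a) b = b f(0) = 0; then b' := b, (f(a))* ... the same on the right).
cfc_add_orth: f(a+b) = f(a) + f(b) if a b = 0 and f(0) = 0 (polynomials without constant term, or Mathlib `cfcₙ`).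
-/

open Filter Topology
open scoped ENNReal NNReal ComplexOrder

set_option autoImplicit false
set_option linter.unusedSectionVars false

namespace RC12

variable {M : Type*} [CStarAlgebra M] [PartialOrder M] [StarOrderedRing M]

private theorem S0C_aeval {a b w : M} (h : a * w = w * b) (p : Polynomial ℝ) :
    Polynomial.aeval a p * w = w * Polynomial.aeval b p := by
  induction p using Polynomial.induction_on' with
  | add p q hp hq => rw [map_add, map_add, add_mul, mul_add, hp, hq]
  | monomial n c =>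
    rw [Polynomial.aeval_monomial, Polynomial.aeval_monomial]
    have h1 : ∀ k : ℕ, a ^ k * w = w * b ^ k := by
      intro k
      induction k with
      | zero => simp
      | succ k ih => rw [pow_succ', mul_assoc, ih, ← mul_assoc, h, mul_assoc, ← pow_succ']
    rw [mul_assoc, h1, ← mul_assoc, Algebra.commutes, mul_assoc]

private theorem S0C_near {a : M} (ha : IsSelfAdjoint a) {f : ℝ → ℝ} (hf : Continuous f)
    {R ε : ℝ} (hR : ‖a‖ * ‖(1 : M)‖ ≤ R) (hε : 0 ≤ ε) (p : Polynomial ℝ)
    (hp : ∀ x ∈ Set.Icc (-R) R, |p.eval x - f x| < ε) :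
    ‖Polynomial.aeval a p - cfc f a‖ ≤ ε := by
  rw [← cfc_polynomial p a ha, ← cfc_sub (fun x => p.eval x) f a (p.continuous.continuousOn)
    hf.continuousOn]
  refine norm_cfc_le hε fun x hx => ?_
  have h1 := (spectrum.norm_le_norm_mul_of_mem hx).trans hR
  rw [Real.norm_eq_abs, abs_le] at h1
  exact (hp x h1).le

theorem cfc_intertwine {a b : M} (ha : IsSelfAdjoint a) (hb : IsSelfAdjoint b) (w : M)
    (h : a * w = w * b) {f : ℝ → ℝ} (hf : Continuous f) : cfc f a * w = w * cfc f b := by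
  rw [← sub_eq_zero, ← norm_le_zero_iff]
  refine le_of_forall_pos_le_add fun ε hε => ?_
  rw [zero_add]
  set R := max (‖a‖ * ‖(1 : M)‖) (‖b‖ * ‖(1 : M)‖) with hR
  have hδ : 0 < ε / (2 * (‖w‖ + 1)) := by positivity
  obtain ⟨p, hp⟩ := exists_polynomial_near_of_continuousOn (-R) R f hf.continuousOn _ hδ
  have h1 := S0C_near ha hf (le_max_left _ _ : _ ≤ R) hδ.le p hp
  have h2 := S0C_near hb hf (le_max_right _ _ : _ ≤ R) hδ.le p hp
  have h3 := S0C_aeval h p
  have h4 : cfc f a * w - w * cfc f b =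
      w * (Polynomial.aeval b p - cfc f b) - (Polynomial.aeval a p - cfc f a) * w := by
    rw [mul_sub, sub_mul, h3]
    abel
  rw [h4]
  refine (norm_sub_le _ _).trans ?_
  have h5 := (norm_mul_le w (Polynomial.aeval b p - cfc f b)).trans
    (mul_le_mul_of_nonneg_left h2 (norm_nonneg w))
  have h6 := (norm_mul_le (Polynomial.aeval a p - cfc f a) w).trans
    (mul_le_mul_of_nonneg_right h1 (norm_nonneg w))
  have h7 : ‖w‖ * (ε / (2 * (‖w‖ + 1))) + ε / (2 * (‖w‖ + 1)) * ‖w‖ ≤ ε := by
    have h8 : ‖w‖ * (ε / (2 * (‖w‖ + 1))) + ε / (2 * (‖w‖ + 1)) * ‖w‖ =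
        ε * (‖w‖ / (‖w‖ + 1)) := by
      field_simp
      ring
    rw [h8]
    have h9 : ‖w‖ / (‖w‖ + 1) ≤ 1 := by
      rw [div_le_one (by positivity)]
      linarith
    nlinarith
  linarith

private theorem S0C_star {a b : M} (ha : IsSelfAdjoint a) (hb : IsSelfAdjoint b)
    (h : a * b = 0) : b * a = 0 := by
  have := congrArg star h
  rwa [star_mul, ha.star_eq, hb.star_eq, star_zero] at this

private theorem S0C_right {a w : M} (ha : IsSelfAdjoint a) (h : w * a = 0) {f : ℝ → ℝ}
    (hf : Continuous f) (f0 : f 0 = 0) : w * cfc f a = 0 := by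
  have h1 := cfc_intertwine (a := (0 : M)) (b := a) (IsSelfAdjoint.zero M) ha w
    (by rw [zero_mul, h]) hf
  rw [cfc_apply_zero, f0, map_zero, zero_mul] at h1
  exact h1.symm

theorem cfc_mul_cfc_eq_zero {a b : M} (ha : IsSelfAdjoint a) (hb : IsSelfAdjoint b) (h : a * b = 0)
    {f g : ℝ → ℝ} (hf : Continuous f) (hg : Continuous g) (f0 : f 0 = 0) (g0 : g 0 = 0) :
    cfc f a * cfc g b = 0 := by
  have h1 : b * cfc f a = 0 := S0C_right ha (S0C_star ha hb h) hf f0
  have h2 : cfc f a * b = 0 := S0C_star hb (IsSelfAdjoint.cfc) h1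
  exact S0C_right hb h2 hg g0

theorem cfc_add_orth {a b : M} (ha : IsSelfAdjoint a) (hb : IsSelfAdjoint b) (h : a * b = 0)
    {f : ℝ → ℝ} (hf : Continuous f) (f0 : f 0 = 0) :
    cfc f (a + b) = cfc f a + cfc f b := by
  have hba := S0C_star ha hb h
  have hab' : IsSelfAdjoint (a + b) := ha.add hb
  have sF : IsSelfAdjoint (cfc f (a + b)) := IsSelfAdjoint.cfc
  have sA : IsSelfAdjoint (cfc f a) := IsSelfAdjoint.cfc
  have sB : IsSelfAdjoint (cfc f b) := IsSelfAdjoint.cfc
  have e1 : cfc f (a + b) * a = a * cfc f a :=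
    cfc_intertwine hab' ha a (by rw [add_mul, hba, add_zero]) hf
  have e2 : cfc f (a + b) * b = b * cfc f b :=
    cfc_intertwine hab' hb b (by rw [add_mul, h, zero_add]) hf
  have e3 : cfc f a * a = a * cfc f a := cfc_intertwine ha ha a rfl hf
  have e4 : cfc f b * b = b * cfc f b := cfc_intertwine hb hb b rfl hf
  have e5 : cfc f a * b = 0 := S0C_star hb sA (S0C_right ha hba hf f0)
  have e6 : cfc f b * a = 0 := S0C_star ha sB (S0C_right hb h hf f0)
  set D := cfc f (a + b) - cfc f a - cfc f b with hD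
  have sD : IsSelfAdjoint D := (sF.sub sA).sub sB
  have Da : D * a = 0 := by
    rw [hD, sub_mul, sub_mul, e1, e3, e6]
    abel
  have Db : D * b = 0 := by
    rw [hD, sub_mul, sub_mul, e2, e4, e5]
    abel
  have Dab : D * (a + b) = 0 := by rw [mul_add, Da, Db, add_zero]
  have k1 : D * cfc f (a + b) = 0 := S0C_right hab' Dab hf f0
  have k2 : D * cfc f a = 0 := S0C_right ha Da hf f0
  have k3 : D * cfc f b = 0 := S0C_right hb Db hf f0
  have k4 : star D * D = 0 := by
    rw [sD.star_eq]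
    nth_rewrite 2 [hD]
    rw [mul_sub, mul_sub, k1, k2, k3]
    abel
  have k5 : D = 0 := (CStarRing.star_mul_self_eq_zero_iff D).mp k4
  rw [hD, sub_sub, sub_eq_zero] at k5
  exact k5

theorem cfc_sum_orth {ι : Type*} [DecidableEq ι] (s : Finset ι) (a : ι → M)
    (ha : ∀ i ∈ s, IsSelfAdjoint (a i)) (h : ∀ i ∈ s, ∀ j ∈ s, i ≠ j → a i * a j = 0)
    {f : ℝ → ℝ} (hf : Continuous f) (f0 : f 0 = 0) :
    cfc f (∑ i ∈ s, a i) = ∑ i ∈ s, cfc f (a i) := by
  induction s using Finset.induction_on with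
  | empty => rw [Finset.sum_empty, Finset.sum_empty, cfc_apply_zero, f0, map_zero]
  | insert i s hi ih =>
    have ha' : ∀ j ∈ s, IsSelfAdjoint (a j) := fun j hj => ha j (Finset.mem_insert_of_mem hj)
    have h' : ∀ j ∈ s, ∀ k ∈ s, j ≠ k → a j * a k = 0 := fun j hj k hk =>
      h j (Finset.mem_insert_of_mem hj) k (Finset.mem_insert_of_mem hk)
    rw [Finset.sum_insert hi, Finset.sum_insert hi, ← ih ha' h']
    refine cfc_add_orth (ha i (Finset.mem_insert_self _ _)) ?_ ?_ hf f0
    · exact Finset.sum_induction a IsSelfAdjoint (fun x y hx hy => hx.add hy)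
        (IsSelfAdjoint.zero M) ha'
    · rw [Finset.mul_sum]
      refine Finset.sum_eq_zero fun j hj => ?_
      refine h i (Finset.mem_insert_self _ _) j (Finset.mem_insert_of_mem hj) ?_
      rintro rfl
      exact hi hj

end RC12
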