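import Pool.Agent.LibRC12.S0C
import Pool.Agent.LibRC12.S0B

/-!
S0D: `y y* ≲ y* y`: with N = y y*, v = y* (N+k)^{-1/2}: v* (y* y) v = N²/(N+k) and ‖N - N²/(N+k)‖ ≤ k
(write (N+k)^{-1/2} as `cfc (fun s => 1 / Real.sqrt (max s 0 + k)) N`).
-/

open Filter Topology
open scoped ENNReal NNReal ComplexOrder

set_option autoImplicit false
set_option linter.unusedSectionVars false

namespace RC12

variable {M : Type*} [CStarAlgebra M] [PartialOrder M] [StarOrderedRing M]

theorem Cu_mul_star (y : M) : Cu (y * star y) (star y * y) := by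
  set N : M := y * star y with hN
  have hN0 : 0 ≤ N := mul_star_self_nonneg y
  have hNsa : IsSelfAdjoint N := IsSelfAdjoint.of_nonneg hN0
  have key : ∀ k : ℝ, 0 < k → ∃ v : M, ‖star v * (star y * y) * v - N‖ ≤ k := by
    intro k hk
    have hrc := continuous_invsqrt hk
    set r : M := cfc (fun s : ℝ => (Real.sqrt (max s 0 + k))⁻¹) N with hr
    have hrsa : IsSelfAdjoint r := cfc_predicate _ N
    refine ⟨star y * r, ?_⟩
    have e1 : star (star y * r) * (star y * y) * (star y * r) = r * (N * N) * r := by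
      rw [star_mul, star_star, hrsa.star_eq, hN]; noncomm_ring
    have e2 : r * (N * N) * r = cfc (fun s : ℝ => (Real.sqrt (max s 0 + k))⁻¹ * (s * s) *
        (Real.sqrt (max s 0 + k))⁻¹) N := by
      rw [cfc_mul (fun s : ℝ => (Real.sqrt (max s 0 + k))⁻¹ * (s * s))
          (fun s : ℝ => (Real.sqrt (max s 0 + k))⁻¹) N
          (hrc.mul (continuous_id.mul continuous_id)).continuousOn hrc.continuousOn,
        cfc_mul (fun s : ℝ => (Real.sqrt (max s 0 + k))⁻¹) (fun s : ℝ => s * s) N
          hrc.continuousOn (by fun_prop),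
        cfc_mul (fun s : ℝ => s) (fun s : ℝ => s) N (by fun_prop) (by fun_prop), cfc_id' ℝ N]
    have e3 : r * (N * N) * r - N = cfc (fun s : ℝ => (Real.sqrt (max s 0 + k))⁻¹ * (s * s) *
        (Real.sqrt (max s 0 + k))⁻¹ - s) N := by
      rw [cfc_sub (fun s : ℝ => (Real.sqrt (max s 0 + k))⁻¹ * (s * s) *
        (Real.sqrt (max s 0 + k))⁻¹) (fun s => s) N
        ((hrc.mul (continuous_id.mul continuous_id)).mul hrc).continuousOn (by fun_prop),
        cfc_id' ℝ N, e2]
    rw [e1, e3]
    refine norm_cfc_le_nonneg hN0 hk.le fun s hs _ => ?_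
    rw [max_eq_left hs]
    have h0 : 0 < s + k := by positivity
    have h2 : (Real.sqrt (s + k))⁻¹ * (Real.sqrt (s + k))⁻¹ = (s + k)⁻¹ := by
      rw [← mul_inv, Real.mul_self_sqrt h0.le]
    have h3 : (Real.sqrt (s + k))⁻¹ * (s * s) * (Real.sqrt (s + k))⁻¹ - s = -(k * (s / (s + k))) := by
      calc _ = (s * s) * ((Real.sqrt (s + k))⁻¹ * (Real.sqrt (s + k))⁻¹) - s := by ring
        _ = _ := by rw [h2]; field_simp; ring
    have h4 : s / (s + k) ≤ 1 := by rw [div_le_one h0]; linarith
    have h5 : 0 ≤ s / (s + k) := by positivity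
    rw [h3, abs_neg, abs_of_nonneg (by positivity)]
    nlinarith
  intro ε hε
  obtain ⟨v, hv⟩ := key (ε / 2) (by positivity)
  exact ⟨v, by linarith⟩
theorem Cu_star_mul (y : M) : Cu (star y * y) (y * star y) := by
  simpa using Cu_mul_star (star y)

end RC12
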