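import Pool.Agent.LibRC12.S0A

/-!
S0E: `f(a) ≲ g(a)` for a ≥ 0, f, g continuous and ≥ 0 on [0,∞), f = 0 where g = 0: v = h(a) with h(s) = √(f(s)/max(g(s),δ)) (s ≥ 0; use
`cfc_congr_nonneg`/|·| to make h continuous on ℝ), so |g h² - f| ≤ f·1_{g < δ}, uniformly small on [0,‖a‖] for small δ
(the set {s ∈ [0,‖a‖] : f(s) ≥ ε} is compact and g > 0 on it). The other statements are special cases (g(s) = s; f(s) = s, g(s) = s², c s).
-/

open Filter Topology
open scoped ENNReal NNReal ComplexOrder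

set_option autoImplicit false
set_option linter.unusedSectionVars false

namespace RC12

variable {M : Type*} [CStarAlgebra M] [PartialOrder M] [StarOrderedRing M]

private theorem S0E_delta {f g : ℝ → ℝ} (hf : Continuous f) (hg : Continuous g)
    (hg0 : ∀ s, 0 ≤ s → 0 ≤ g s) (h : ∀ s, 0 ≤ s → g s = 0 → f s = 0) (R : ℝ) {ε : ℝ}
    (hε : 0 < ε) : ∃ δ : ℝ, 0 < δ ∧ ∀ s, 0 ≤ s → s ≤ R → g s < δ → f s < ε := by
  let S : Set ℝ := Set.Icc 0 R ∩ {s | ε ≤ f s}
  have hS : IsCompact S := isCompact_Icc.inter_right (isClosed_le continuous_const hf)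
  rcases S.eq_empty_or_nonempty with hE | hne
  · refine ⟨1, one_pos, fun s h0 hR _ => ?_⟩
    by_contra hcon
    have : s ∈ S := ⟨⟨h0, hR⟩, not_lt.mp hcon⟩
    rw [hE] at this
    exact this
  · obtain ⟨s0, hs0, hmin⟩ := hS.exists_isMinOn hne hg.continuousOn
    have hpos : 0 < g s0 := by
      refine lt_of_le_of_ne (hg0 s0 hs0.1.1) (fun h0 => ?_)
      have h1 := h s0 hs0.1.1 h0.symm
      have h2 : ε ≤ f s0 := hs0.2
      linarith
    refine ⟨g s0, hpos, fun s h0 hR hlt => ?_⟩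
    by_contra hcon
    have hs : s ∈ S := ⟨⟨h0, hR⟩, not_lt.mp hcon⟩
    have : g s0 ≤ g s := hmin hs
    linarith

theorem Cu_cfc_cfc {a : M} (ha : 0 ≤ a) {f g : ℝ → ℝ} (hf : Continuous f) (hg : Continuous g)
    (hf0 : ∀ s, 0 ≤ s → 0 ≤ f s) (hg0 : ∀ s, 0 ≤ s → 0 ≤ g s)
    (h : ∀ s, 0 ≤ s → g s = 0 → f s = 0) : Cu (cfc f a) (cfc g a) := by
  intro ε hε
  obtain ⟨δ, hδ, hfδ⟩ := S0E_delta hf hg hg0 h ‖a‖ (half_pos hε)
  let k : ℝ → ℝ := fun s => Real.sqrt (f |s| / max (g |s|) δ)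
  have hmax : ∀ s, 0 < max (g |s|) δ := fun s => lt_max_of_lt_right hδ
  have hk : Continuous k := by
    refine Real.continuous_sqrt.comp ?_
    exact (hf.comp continuous_abs).div ((hg.comp continuous_abs).max continuous_const)
      fun s => (hmax s).ne'
  refine ⟨cfc k a, ?_⟩
  have hs : star (cfc k a) = cfc k a := (IsSelfAdjoint.cfc : IsSelfAdjoint (cfc k a)).star_eq
  have hasa : IsSelfAdjoint a := IsSelfAdjoint.of_nonneg ha
  rw [hs, ← cfc_mul k g a hk.continuousOn hg.continuousOn,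
    ← cfc_mul (fun x => k x * g x) k a (hk.mul hg).continuousOn hk.continuousOn,
    ← cfc_sub (fun x => k x * g x * k x) f a ((hk.mul hg).mul hk).continuousOn hf.continuousOn]
  refine lt_of_le_of_lt (norm_cfc_le_nonneg ha (half_pos hε).le fun s h0 hR => ?_)
    (half_lt_self hε)
  have hks : k s * k s = f s / max (g s) δ := by
    simp only [k]
    rw [abs_of_nonneg h0]
    exact Real.mul_self_sqrt (div_nonneg (hf0 s h0) (by
      have := hmax s
      rw [abs_of_nonneg h0] at this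
      exact this.le))
  have h1 : k s * g s * k s - f s = f s / max (g s) δ * g s - f s := by
    rw [← hks]; ring
  rw [h1]
  by_cases hgs : δ ≤ g s
  · rw [max_eq_left hgs, div_mul_cancel₀ _ (by linarith), sub_self, abs_zero]
    exact (half_pos hε).le
  · push Not at hgs
    rw [max_eq_right hgs.le]
    have h2 := hf0 s h0
    have h3 := hg0 s h0
    have h4 := hfδ s h0 hR hgs
    have h5 : 0 ≤ f s / δ * g s := by positivity
    have h6 : f s / δ * g s ≤ f s := by
      rw [div_mul_eq_mul_div, div_le_iff₀ hδ]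
      nlinarith
    rw [abs_le]
    constructor <;> linarith

theorem Cu_cfc {a : M} (ha : 0 ≤ a) {f : ℝ → ℝ} (hf : Continuous f) (f0 : f 0 = 0)
    (hf0 : ∀ s, 0 ≤ s → 0 ≤ f s) : Cu (cfc f a) a := by
  have hasa : IsSelfAdjoint a := IsSelfAdjoint.of_nonneg ha
  have h1 := Cu_cfc_cfc ha hf (g := fun s => s) continuous_id hf0 (fun s hs => hs)
    (fun s _ hs => by rw [hs, f0])
  rwa [cfc_id' ℝ a] at h1

theorem Cu_sq {a : M} (ha : 0 ≤ a) : Cu a (a * a) := by
  have hasa : IsSelfAdjoint a := IsSelfAdjoint.of_nonneg ha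
  have h1 := Cu_cfc_cfc ha (f := fun s => s) (g := fun s => s * s) continuous_id
    (continuous_id.mul continuous_id) (fun s hs => hs) (fun s hs => mul_self_nonneg s)
    (fun s _ hs => mul_self_eq_zero.mp hs)
  rw [cfc_id' ℝ a, cfc_mul (fun s => s) (fun s => s) a continuous_id.continuousOn
    continuous_id.continuousOn, cfc_id' ℝ a] at h1
  exact h1

theorem Cu_smul_left {a : M} {c : ℝ} (hc : 0 ≤ c) : Cu (c • a) a := by
  intro ε hε
  refine ⟨Real.sqrt c • (1 : M), ?_⟩
  have : star (Real.sqrt c • (1 : M)) * a * (Real.sqrt c • (1 : M)) - c • a = 0 := by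
    rw [star_smul, star_trivial, star_one, smul_mul_assoc, one_mul, smul_mul_assoc, mul_smul_comm,
      mul_one, smul_smul, Real.mul_self_sqrt hc, sub_self]
  rw [this, norm_zero]
  exact hε

theorem Cu_smul_right {a : M} {c : ℝ} (hc : 0 < c) : Cu a (c • a) := by
  have h1 := Cu_smul_left (a := c • a) (c := c⁻¹) (inv_nonneg.mpr hc.le)
  rwa [smul_smul, inv_mul_cancel₀ hc.ne', one_smul] at h1

end RC12
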