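import Pool.Agent.LibRC12.S0B
import Pool.Agent.LibRC12.S0E

/-!
S0F (0.2): `b ≥ a - ε, b ≥ 0 ⇒ (a-ε)_+ ≲ b`: with h(s) = (s-ε)_+, h(a) b h(a) ≥ h(a)(a-ε)h(a) = h(a)³ (conjugation is
order preserving), h(a)³ ≲ b by `Cu_of_le`, `Cu_conj`, and h(a) = cube root of h(a)³ ≲ h(a)³ by `Cu_cfc`.
`cut_cut`: (b-δ)_+ ≥ b - δ ≥ a - η - δ ≥ a - ε.
-/

open Filter Topology
open scoped ENNReal NNReal ComplexOrder

set_option autoImplicit false
set_option linter.unusedSectionVars false

namespace RC12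

variable {M : Type*} [CStarAlgebra M] [PartialOrder M] [StarOrderedRing M]

private theorem S0F_cut_cont (ε : ℝ) : Continuous fun t : ℝ => max (t - ε) 0 :=
  (continuous_id.sub continuous_const).max continuous_const

private theorem S0F_cube {H : M} (hH : 0 ≤ H) : Cu H (H * H * H) := by
  have hasa : IsSelfAdjoint H := IsSelfAdjoint.of_nonneg hH
  have h1 := Cu_cfc_cfc hH (f := fun s => s) (g := fun s => s * s * s) continuous_id
    ((continuous_id.mul continuous_id).mul continuous_id) (fun s hs => hs)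
    (fun s hs => by positivity)
    (fun s _ hs => by
      rcases mul_eq_zero.mp hs with h | h
      · exact mul_self_eq_zero.mp h
      · exact h)
  rw [cfc_id' ℝ H, cfc_mul (fun s => s * s) (fun s => s) H
    (continuous_id.mul continuous_id).continuousOn continuous_id.continuousOn,
    cfc_mul (fun s => s) (fun s => s) H continuous_id.continuousOn continuous_id.continuousOn,
    cfc_id' ℝ H] at h1
  exact h1

theorem Cu_cut_of_ge {a b : M} {ε : ℝ} (ha : IsSelfAdjoint a) (hb : 0 ≤ b)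
    (h : a - algebraMap ℝ M ε ≤ b) : Cu (cut ε a) b := by
  have hH : 0 ≤ cut ε a := cut_nonneg ε a
  have hs : star (cut ε a) = cut ε a := (IsSelfAdjoint.of_nonneg hH).star_eq
  have hc := S0F_cut_cont ε
  have e1 : cut ε a * (a - algebraMap ℝ M ε) * cut ε a = cut ε a * cut ε a * cut ε a := by
    have h1 : a - algebraMap ℝ M ε = cfc (fun t : ℝ => t - ε) a := by
      rw [cfc_sub (fun t : ℝ => t) (fun _ => ε) a continuous_id.continuousOn
        continuous_const.continuousOn, cfc_id' ℝ a, cfc_const ε a ha]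
    have h2 : Continuous fun t : ℝ => t - ε := continuous_id.sub continuous_const
    rw [h1]
    unfold cut
    rw [← cfc_mul _ _ a hc.continuousOn h2.continuousOn,
      ← cfc_mul _ _ a hc.continuousOn hc.continuousOn]
    congr 1
    refine cfc_congr fun t _ => ?_
    rcases le_or_gt t ε with h3 | h3
    · rw [max_eq_right (by linarith), zero_mul, zero_mul]
    · rw [max_eq_left (by linarith)]
  have e2 := star_left_conjugate_le_conjugate h (cut ε a)
  rw [hs, e1] at e2
  have e3 : 0 ≤ cut ε a * cut ε a * cut ε a := by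
    have h3 := star_left_conjugate_nonneg hH (cut ε a)
    rwa [hs] at h3
  have e4 : Cu (cut ε a * b * cut ε a) b := by
    have h4 := Cu_conj (cut ε a) b
    rwa [hs] at h4
  exact Cu_trans (S0F_cube hH) (Cu_trans (Cu_of_le e3 e2) e4)

theorem Cu_cut_of_norm {a b : M} {ε : ℝ} (ha : 0 ≤ a) (hb : 0 ≤ b) (h : ‖a - b‖ ≤ ε) :
    Cu (cut ε a) b := by
  have ha' : IsSelfAdjoint a := IsSelfAdjoint.of_nonneg ha
  have hb' : IsSelfAdjoint b := IsSelfAdjoint.of_nonneg hb
  refine Cu_cut_of_ge ha' hb ?_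
  have h1 : a - b ≤ algebraMap ℝ M ‖a - b‖ := (ha'.sub hb').le_algebraMap_norm_self
  have h2 : algebraMap ℝ M ‖a - b‖ ≤ algebraMap ℝ M ε := algebraMap_mono M h
  have h3 := h1.trans h2
  rw [sub_le_iff_le_add] at h3 ⊢
  rwa [add_comm]

theorem Cu_cut_cut {a b : M} {ε δ η : ℝ} (ha : 0 ≤ a) (hb : 0 ≤ b)
    (h : ‖a - b‖ ≤ η) (hε : δ + η ≤ ε) : Cu (cut ε a) (cut δ b) := by
  have ha' : IsSelfAdjoint a := IsSelfAdjoint.of_nonneg ha
  have hb' : IsSelfAdjoint b := IsSelfAdjoint.of_nonneg hb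
  refine Cu_cut_of_ge ha' (cut_nonneg δ b) ?_
  have h1 : a - b ≤ algebraMap ℝ M ‖a - b‖ := (ha'.sub hb').le_algebraMap_norm_self
  have h2 : algebraMap ℝ M ‖a - b‖ ≤ algebraMap ℝ M (ε - δ) := algebraMap_mono M (by linarith)
  have h3 := h1.trans h2
  rw [map_sub] at h3
  have h4 : b - algebraMap ℝ M δ ≤ cut δ b := by
    have h5 : b - algebraMap ℝ M δ = cfc (fun t : ℝ => t - δ) b := by
      rw [cfc_sub (fun t : ℝ => t) (fun _ => δ) b continuous_id.continuousOn
        continuous_const.continuousOn, cfc_id' ℝ b, cfc_const δ b hb']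
    rw [h5]
    exact cfc_mono (fun t _ => le_max_left _ _)
      (continuous_id.sub continuous_const).continuousOn (S0F_cut_cont δ).continuousOn
  have h6 : a - algebraMap ℝ M ε ≤ b - algebraMap ℝ M δ := by
    have h7 := add_le_add_right h3 (b - algebraMap ℝ M ε)
    have e1 : b - algebraMap ℝ M ε + (a - b) = a - algebraMap ℝ M ε := by abel
    have e2 : b - algebraMap ℝ M ε + (algebraMap ℝ M ε - algebraMap ℝ M δ) =
        b - algebraMap ℝ M δ := by abel
    rwa [e1, e2] at h7
  exact h6.trans h4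

/-- `a ≲ b` can be tested on all `(a-ε)_+` -/
theorem Cu_of_cut {a b : M} (ha : 0 ≤ a) (h : ∀ ε : ℝ, 0 < ε → Cu (cut ε a) b) : Cu a b := by
  refine Cu_of_approx fun ε hε => ⟨cut (ε / 2) a, h _ (half_pos hε), ?_⟩
  exact lt_of_le_of_lt (norm_cut_sub_le (half_pos hε).le ha) (half_lt_self hε)

end RC12
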