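import Pool.Agent.LibRC12.S0D
import Pool.Agent.LibRC12.S0B

/-!
S0G (0.3), exact version: y* y ≥ a - η. Put h(s) = min 1 (max 0 ((s-η)/η)) (0 for s ≤ η, 1 for s ≥ 2η), ρ(s) = (s-η)_+ h(s)²,
y1 = y h(a), N1 = y1* y1 ≥ h(a)(a-η)h(a) = ρ(a). w_k = y1 (N1+1/k)^{-1/2} ρ(a)^{1/2}: w_k* w_k = ρ(a) - (1/k) ρ^{1/2}(N1+1/k)^{-1}ρ^{1/2},
error ≤ 1/k (as ρ(a) ≤ N1); ‖w_n - w_m‖² ≤ 1/n for n ≤ m because t((t+1/m)^{-1/2} - (t+1/n)^{-1/2})² ≤ (1/n)/(t+1/n);
so w_k is a Cauchy sequence, w its limit; w_k is in y M, so w is in its closure.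
-/

open Filter Topology
open scoped ENNReal NNReal ComplexOrder

set_option autoImplicit false
set_option linter.unusedSectionVars false

namespace RC12

variable {M : Type*} [CStarAlgebra M] [PartialOrder M] [StarOrderedRing M]

/-- auxiliary function `(t+δ)^{-1/2}` -/
noncomputable def S0G_g (δ t : ℝ) : ℝ := 1 / √(max t 0 + δ)

theorem S0G_cont {δ : ℝ} (hδ : 0 < δ) : Continuous (S0G_g δ) := by
  unfold S0G_g
  refine continuous_const.div (by fun_prop) fun t => ?_
  have : 0 < max t 0 + δ := add_pos_of_nonneg_of_pos (le_max_right _ _) hδ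
  exact (Real.sqrt_pos.2 this).ne'

theorem S0G_sq {δ t : ℝ} (hδ : 0 < δ) (ht : 0 ≤ t) :
    S0G_g δ t * t * S0G_g δ t + δ * (S0G_g δ t * S0G_g δ t) = 1 := by
  unfold S0G_g
  rw [max_eq_left ht]
  have h : 0 < t + δ := by positivity
  have h1 : 1 / √(t + δ) * (1 / √(t + δ)) = 1 / (t + δ) := by
    rw [div_mul_div_comm, Real.mul_self_sqrt h.le, one_mul]
  have h2 : 1 / √(t + δ) * t * (1 / √(t + δ)) = t * (1 / (t + δ)) := by
    rw [← h1]
    ring
  rw [h1, h2]
  field_simp

theorem S0G_diff {α β t : ℝ} (hα : 0 < α) (hαβ : α ≤ β) (ht : 0 ≤ t) :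
    (S0G_g β t - S0G_g α t) * t * (S0G_g β t - S0G_g α t) ≤ β * (S0G_g β t * S0G_g β t) := by
  unfold S0G_g
  rw [max_eq_left ht]
  have ha : 0 < t + α := by positivity
  have hb : 0 < t + β := by linarith
  set u := √(t + α) with hu
  set v := √(t + β) with hv
  have hu0 : 0 < u := Real.sqrt_pos.2 ha
  have hv0 : 0 < v := Real.sqrt_pos.2 hb
  have huu : u * u = t + α := Real.mul_self_sqrt ha.le
  have hvv : v * v = t + β := Real.mul_self_sqrt hb.le
  have huv : u ≤ v := Real.sqrt_le_sqrt (by linarith)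
  have h1 : (1 / v - 1 / u) * t * (1 / v - 1 / u) = t * (v - u) ^ 2 / (u ^ 2 * v ^ 2) := by
    field_simp
    ring
  have h2 : β * (1 / v * (1 / v)) = β * u ^ 2 / (u ^ 2 * v ^ 2) := by
    field_simp
  rw [h1, h2]
  apply div_le_div_of_nonneg_right _ (by positivity)
  have h3 : (v - u) ^ 2 ≤ β - α := by nlinarith
  have h4 : t ≤ u ^ 2 := by nlinarith
  have h5 : 0 ≤ β - α := by linarith
  calc t * (v - u) ^ 2 ≤ u ^ 2 * (β - α) := mul_le_mul h4 h3 (sq_nonneg _) (sq_nonneg _)
    _ ≤ β * u ^ 2 := by nlinarith [sq_nonneg u]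

theorem S0G_mul3 {N : M} (hN : IsSelfAdjoint N) {f : ℝ → ℝ} (hf : Continuous f) :
    cfc f N * N * cfc f N = cfc (fun t => f t * t * f t) N := by
  rw [cfc_mul (fun t => f t * t) f N ((hf.mul continuous_id).continuousOn) hf.continuousOn,
    cfc_mul f (fun t => t) N hf.continuousOn continuous_id.continuousOn, cfc_id' ℝ N]

theorem S0G_one {N : M} (hN : 0 ≤ N) {δ : ℝ} (hδ : 0 < δ) :
    cfc (S0G_g δ) N * N * cfc (S0G_g δ) N + δ • (cfc (S0G_g δ) N * cfc (S0G_g δ) N) = 1 := by
  have hsa : IsSelfAdjoint N := IsSelfAdjoint.of_nonneg hN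
  have hc := S0G_cont hδ
  rw [S0G_mul3 hsa hc, ← cfc_mul _ _ N hc.continuousOn hc.continuousOn,
    ← cfc_const_mul δ (fun t => S0G_g δ t * S0G_g δ t) N (hc.mul hc).continuousOn,
    ← cfc_add N (fun t => S0G_g δ t * t * S0G_g δ t) (fun t => δ * (S0G_g δ t * S0G_g δ t))
      ((hc.mul continuous_id).mul hc).continuousOn (continuous_const.mul (hc.mul hc)).continuousOn]
  rw [← cfc_const_one ℝ N]
  apply cfc_congr
  intro t ht
  exact S0G_sq hδ (spectrum_nonneg_of_nonneg hN ht)

/-- `‖S G G S‖ ≤ 1` -/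
theorem S0G_norm {N S : M} (hN : 0 ≤ N) (hS : IsSelfAdjoint S) (hSN : S * S ≤ N) {δ : ℝ}
    (hδ : 0 < δ) : ‖S * (cfc (S0G_g δ) N * cfc (S0G_g δ) N) * S‖ ≤ 1 := by
  set G := cfc (S0G_g δ) N with hG
  have hGs : IsSelfAdjoint G := cfc_predicate _ _
  have hGG : 0 ≤ G * G := by
    have := star_mul_self_nonneg G
    rwa [hGs.star_eq] at this
  have h1 : G * (S * S) * G ≤ 1 := by
    have h2 : G * (S * S) * G ≤ G * N * G := by
      have := star_left_conjugate_le_conjugate hSN G
      rwa [hGs.star_eq] at this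
    have h3 : G * N * G ≤ 1 := by
      rw [← S0G_one hN hδ, ← hG]
      exact le_add_of_nonneg_right (smul_nonneg hδ.le hGG)
    exact h2.trans h3
  have h0 : 0 ≤ G * (S * S) * G := by
    have := star_mul_self_nonneg (S * G)
    rw [star_mul, hGs.star_eq, hS.star_eq] at this
    simpa only [mul_assoc] using this
  have h4 : ‖G * (S * S) * G‖ ≤ 1 := (CStarAlgebra.norm_le_one_iff_of_nonneg _ h0).2 h1
  have h5 : star (S * G) * (S * G) = G * (S * S) * G := by
    rw [star_mul, hGs.star_eq, hS.star_eq]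
    simp only [mul_assoc]
  have h6 : (S * G) * star (S * G) = S * (G * G) * S := by
    rw [star_mul, hGs.star_eq, hS.star_eq]
    simp only [mul_assoc]
  rw [← h6, CStarRing.norm_self_mul_star, ← CStarRing.norm_star_mul_self, h5]
  exact h4

/-- the limit construction: `S S ≤ z* z` gives `w` with `w* w = S S` in the closure of `z M` -/
theorem S0G_limit {S z : M} (hS : IsSelfAdjoint S) (hSN : S * S ≤ star z * z) :
    ∃ w : M, star w * w = S * S ∧ w ∈ closure (Set.range fun m : M => z * m) := by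
  set N := star z * z with hNdef
  have hN : 0 ≤ N := star_mul_self_nonneg z
  have hsa : IsSelfAdjoint N := IsSelfAdjoint.of_nonneg hN
  let δ : ℕ → ℝ := fun k => 1 / ((k : ℝ) + 1)
  have hδ : ∀ k, 0 < δ k := fun k => Nat.one_div_pos_of_nat
  have hanti : ∀ n m, n ≤ m → δ m ≤ δ n := fun n m h => Nat.one_div_le_one_div h
  have hδ0 : Tendsto δ atTop (𝓝 0) := tendsto_one_div_add_atTop_nhds_zero_nat
  let w : ℕ → M := fun k => z * (cfc (S0G_g (δ k)) N * S)
  have hGs : ∀ k, IsSelfAdjoint (cfc (S0G_g (δ k)) N) := fun k => cfc_predicate _ _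
  have hcau : CauchySeq w := by
    refine cauchySeq_of_le_tendsto_0' (fun k => √(δ k)) ?_ ?_
    · intro n m hnm
      rw [dist_eq_norm]
      apply Real.le_sqrt_of_sq_le
      have hcd : Continuous fun t => S0G_g (δ n) t - S0G_g (δ m) t :=
        (S0G_cont (hδ n)).sub (S0G_cont (hδ m))
      have hD : w n - w m = z * (cfc (fun t => S0G_g (δ n) t - S0G_g (δ m) t) N * S) := by
        show z * (cfc (S0G_g (δ n)) N * S) - z * (cfc (S0G_g (δ m)) N * S) = _
        rw [cfc_sub (S0G_g (δ n)) (S0G_g (δ m)) (a := N) (S0G_cont (hδ n)).continuousOn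
          (S0G_cont (hδ m)).continuousOn, ← mul_sub, ← sub_mul]
      set D := cfc (fun t => S0G_g (δ n) t - S0G_g (δ m) t) N with hDdef
      have hDs : IsSelfAdjoint D := cfc_predicate _ _
      have h1 : ‖w n - w m‖ ^ 2 = ‖S * (D * N * D) * S‖ := by
        rw [sq, ← CStarRing.norm_star_mul_self, hD, star_mul, star_mul, hDs.star_eq, hS.star_eq]
        congr 1
        rw [hNdef]
        simp only [mul_assoc]
      have h2 : D * N * D ≤ δ n • (cfc (S0G_g (δ n)) N * cfc (S0G_g (δ n)) N) := by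
        have hc := S0G_cont (hδ n)
        rw [S0G_mul3 hsa hcd, ← cfc_mul _ _ N hc.continuousOn hc.continuousOn,
          ← cfc_const_mul (δ n) (fun t => S0G_g (δ n) t * S0G_g (δ n) t) N (hc.mul hc).continuousOn]
        apply cfc_mono _ ((hcd.mul continuous_id).mul hcd).continuousOn
          (continuous_const.mul (hc.mul hc)).continuousOn
        intro t ht
        exact S0G_diff (hδ m) (hanti n m hnm) (spectrum_nonneg_of_nonneg hN ht)
      have h3 : S * (D * N * D) * S ≤
          δ n • (S * (cfc (S0G_g (δ n)) N * cfc (S0G_g (δ n)) N) * S) := by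
        have := star_left_conjugate_le_conjugate h2 S
        rw [hS.star_eq] at this
        rwa [mul_smul_comm, smul_mul_assoc] at this
      have h4 : 0 ≤ S * (D * N * D) * S := by
        have := star_mul_self_nonneg (z * (D * S))
        rw [star_mul, star_mul, hDs.star_eq, hS.star_eq] at this
        have h5 : S * D * star z * (z * (D * S)) = S * (D * N * D) * S := by
          rw [hNdef]
          simp only [mul_assoc]
        rwa [h5] at this
      rw [h1]
      refine (CStarAlgebra.norm_le_norm_of_nonneg_of_le h4 h3).trans ?_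
      rw [norm_smul, Real.norm_of_nonneg (hδ n).le]
      exact mul_le_of_le_one_right (hδ n).le (S0G_norm hN hS hSN (hδ n))
    · have := hδ0.sqrt
      simpa using this
  obtain ⟨w₀, hw₀⟩ := cauchySeq_tendsto_of_complete hcau
  refine ⟨w₀, ?_, ?_⟩
  · have h1 : Tendsto (fun k => star (w k) * w k) atTop (𝓝 (star w₀ * w₀)) :=
      ((continuous_star.tendsto _).comp hw₀).mul hw₀
    have h2 : Tendsto (fun k => star (w k) * w k) atTop (𝓝 (S * S)) := by
      rw [tendsto_iff_norm_sub_tendsto_zero]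
      refine squeeze_zero (fun _ => norm_nonneg _) (fun k => ?_) hδ0
      have h3 : star (w k) * w k - S * S =
          - (δ k • (S * (cfc (S0G_g (δ k)) N * cfc (S0G_g (δ k)) N) * S)) := by
        show star (z * (cfc (S0G_g (δ k)) N * S)) * (z * (cfc (S0G_g (δ k)) N * S)) - S * S = _
        rw [star_mul, star_mul, (hGs k).star_eq, hS.star_eq]
        have h4 : S * cfc (S0G_g (δ k)) N * star z * (z * (cfc (S0G_g (δ k)) N * S))
            = S * (cfc (S0G_g (δ k)) N * N * cfc (S0G_g (δ k)) N) * S := by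
          rw [hNdef]
          simp only [mul_assoc]
        rw [h4, eq_sub_of_add_eq (S0G_one hN (hδ k)), mul_sub, sub_mul, mul_one,
          mul_smul_comm, smul_mul_assoc]
        abel
      rw [h3, norm_neg, norm_smul, Real.norm_of_nonneg (hδ k).le]
      exact mul_le_of_le_one_right (hδ k).le (S0G_norm hN hS hSN (hδ k))
    exact tendsto_nhds_unique h1 h2
  · exact mem_closure_of_tendsto hw₀ (Eventually.of_forall fun k => ⟨_, rfl⟩)

/-- the function `ρ` of (0.3) -/
noncomputable def rho (η s : ℝ) : ℝ := max 0 (s - η) * min 1 (max 0 ((s - η) / η)) ^ 2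

theorem continuous_rho (η : ℝ) : Continuous (rho η) := by unfold rho; fun_prop

theorem exact_sub {a y : M} {η : ℝ} (hη : 0 < η) (ha : IsSelfAdjoint a)
    (h : a - algebraMap ℝ M η ≤ star y * y) :
    ∃ w : M, star w * w = cfc (rho η) a ∧ w ∈ closure (Set.range fun m : M => y * m) := by
  have hle := h
  clear h
  let h : ℝ → ℝ := fun s => min 1 (max 0 ((s - η) / η))
  have hc : Continuous h := by
    show Continuous fun s => min 1 (max 0 ((s - η) / η))
    fun_prop
  have hρ0 : ∀ s, 0 ≤ rho η s := fun s => mul_nonneg (le_max_left _ _) (sq_nonneg _)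
  have hρ : ∀ s, h s * (s - η) * h s = rho η s := by
    intro s
    show h s * (s - η) * h s = max 0 (s - η) * h s ^ 2
    rcases le_total η s with hs | hs
    · rw [max_eq_right (by linarith : (0 : ℝ) ≤ s - η)]
      ring
    · have h0 : h s = 0 := by
        show min 1 (max 0 ((s - η) / η)) = 0
        rw [max_eq_left (div_nonpos_of_nonpos_of_nonneg (by linarith) hη.le),
          min_eq_right zero_le_one]
      rw [h0]
      simp
  set H := cfc h a with hH
  have hHs : IsSelfAdjoint H := cfc_predicate _ _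
  set S := cfc (fun s => √(rho η s)) a with hSdef
  have hcs : Continuous fun s => √(rho η s) := (continuous_rho η).sqrt
  have hS : IsSelfAdjoint S := cfc_predicate _ _
  have hSS : S * S = cfc (rho η) a := by
    rw [hSdef, ← cfc_mul _ _ a hcs.continuousOn hcs.continuousOn]
    apply cfc_congr
    intro s _
    exact Real.mul_self_sqrt (hρ0 s)
  have hHaH : H * (a - algebraMap ℝ M η) * H = cfc (rho η) a := by
    have h1 : a - algebraMap ℝ M η = cfc (fun s => s - η) a := by
      rw [cfc_sub (fun s => s) (fun _ => η) (a := a) continuous_id.continuousOn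
        continuous_const.continuousOn, cfc_id' ℝ a, cfc_const η a]
    have hc1 : Continuous fun s : ℝ => s - η := by fun_prop
    rw [h1, hH, ← cfc_mul h (fun s => s - η) a hc.continuousOn hc1.continuousOn,
      ← cfc_mul (fun s => h s * (s - η)) h a (hc.mul hc1).continuousOn hc.continuousOn]
    apply cfc_congr
    intro s _
    exact hρ s
  have hSN : S * S ≤ star (y * H) * (y * H) := by
    have h1 := star_left_conjugate_le_conjugate hle H
    rw [hHs.star_eq, hHaH] at h1
    rw [hSS, star_mul, hHs.star_eq]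
    have h2 : H * star y * (y * H) = H * (star y * y) * H := by
      simp only [mul_assoc]
    rw [h2]
    exact h1
  obtain ⟨w, hw, hcl⟩ := S0G_limit hS hSN
  refine ⟨w, hw.trans hSS, closure_mono ?_ hcl⟩
  rintro _ ⟨m, rfl⟩
  exact ⟨H * m, by simp only [mul_assoc]⟩

end RC12
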