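import Pool.Agent.LibRC12.S1Defs
import Pool.Agent.LibRC12.S0A

/-!
S1A (1.1): basic facts on one quasitrace. Positive elements are `star x * x` (x = square root), a self-adjoint element is a
difference of commuting positive ones; t(-a) = -t(a) by `smul`.
-/

open Filter Topology
open scoped ENNReal NNReal ComplexOrder

set_option autoImplicit false
set_option linter.unusedSectionVars false

namespace RC12

variable {M : Type*} [CStarAlgebra M] [PartialOrder M] [StarOrderedRing M]

variable {t : M → ℝ} (ht : QTr t)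
include ht

theorem QTr.pos {a : M} (ha : 0 ≤ a) : 0 ≤ t a := by
  obtain ⟨x, rfl⟩ := CStarAlgebra.nonneg_iff_eq_star_mul_self.mp ha
  exact ht.nonneg x
theorem QTr.zero : t 0 = 0 := by
  have h := ht.smul 0 (0 : M) (IsSelfAdjoint.zero M)
  rwa [zero_smul, zero_mul] at h
theorem QTr.sub {a b : M} (ha : IsSelfAdjoint a) (hb : IsSelfAdjoint b) (h : Commute a b) :
    t (a - b) = t a - t b := by
  have hb' : IsSelfAdjoint ((-1 : ℝ) • b) := by
    rw [neg_one_smul]; exact hb.neg
  have hc : Commute a ((-1 : ℝ) • b) := by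
    rw [neg_one_smul]; exact h.neg_right
  have h1 := ht.add a ((-1 : ℝ) • b) ha hb' hc
  rw [ht.smul (-1) b hb, neg_one_smul] at h1
  rw [sub_eq_add_neg, h1]
  ring
theorem QTr.mono {a b : M} (ha : IsSelfAdjoint a) (hb : IsSelfAdjoint b) (h : Commute a b)
    (hab : a ≤ b) : t a ≤ t b := by
  have h1 := QTr.pos ht (sub_nonneg.mpr hab)
  rw [QTr.sub ht hb ha h.symm] at h1
  linarith
theorem QTr.sum {ι : Type*} (s : Finset ι) (a : ι → M) (ha : ∀ i ∈ s, IsSelfAdjoint (a i))
    (h : ∀ i ∈ s, ∀ j ∈ s, Commute (a i) (a j)) : t (∑ i ∈ s, a i) = ∑ i ∈ s, t (a i) := by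
  classical
  induction s using Finset.induction_on with
  | empty => simpa using QTr.zero ht
  | insert i s hi ih =>
    rw [Finset.sum_insert hi, Finset.sum_insert hi]
    have hs : IsSelfAdjoint (∑ j ∈ s, a j) := by
      refine isSelfAdjoint_sum s fun j hj => ha j (Finset.mem_insert_of_mem hj)
    have hc : Commute (a i) (∑ j ∈ s, a j) := by
      refine Commute.sum_right s _ _ fun j hj => ?_
      exact h i (Finset.mem_insert_self i s) j (Finset.mem_insert_of_mem hj)
    rw [ht.add _ _ (ha i (Finset.mem_insert_self i s)) hs hc,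
      ih (fun j hj => ha j (Finset.mem_insert_of_mem hj))
        (fun j hj k hk => h j (Finset.mem_insert_of_mem hj) k (Finset.mem_insert_of_mem hk))]
theorem QTr.mass_nonneg : 0 ≤ t 1 := by
  have h := ht.nonneg 1
  rwa [star_one, one_mul] at h

private theorem QTr.algMap (r : ℝ) : t (algebraMap ℝ M r) = r * t 1 := by
  rw [Algebra.algebraMap_eq_smul_one]
  exact ht.smul r 1 (IsSelfAdjoint.one M)

theorem QTr.abs_le {a : M} (ha : IsSelfAdjoint a) : |t a| ≤ ‖a‖ * t 1 := by
  have h1 : a ≤ algebraMap ℝ M ‖a‖ := ha.le_algebraMap_norm_self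
  have h2 : -(algebraMap ℝ M ‖a‖) ≤ a := ha.neg_algebraMap_norm_le_self
  have hs : IsSelfAdjoint (algebraMap ℝ M ‖a‖) := IsSelfAdjoint.algebraMap M (IsSelfAdjoint.all _)
  have hc : Commute a (algebraMap ℝ M ‖a‖) := (Algebra.commutes _ _).symm
  have h3 := QTr.mono ht ha hs hc h1
  rw [QTr.algMap ht] at h3
  have h4 : -(algebraMap ℝ M ‖a‖) = algebraMap ℝ M (-‖a‖) := by rw [map_neg]
  rw [h4] at h2
  have hs' : IsSelfAdjoint (algebraMap ℝ M (-‖a‖)) :=
    IsSelfAdjoint.algebraMap M (IsSelfAdjoint.all _)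
  have hc' : Commute (algebraMap ℝ M (-‖a‖)) a := Algebra.commutes _ _
  have h5 := QTr.mono ht hs' ha hc' h2
  rw [QTr.algMap ht] at h5
  rw [_root_.abs_le]
  constructor
  · linarith
  · exact h3
theorem QTr.cfc_mono {a : M} {f g : ℝ → ℝ} (hf : Continuous f)
    (hg : Continuous g) (h : ∀ s ∈ spectrum ℝ a, f s ≤ g s) : t (cfc f a) ≤ t (cfc g a) := by
  refine QTr.mono ht (cfc_predicate f a) (cfc_predicate g a) (cfc_commute_cfc f g a) ?_
  exact _root_.cfc_mono h hf.continuousOn hg.continuousOn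
theorem QTr.cfc_add {a : M} {f g : ℝ → ℝ} (hf : Continuous f) (hg : Continuous g) :
    t (cfc (fun s => f s + g s) a) = t (cfc f a) + t (cfc g a) := by
  rw [_root_.cfc_add a f g hf.continuousOn hg.continuousOn]
  exact ht.add _ _ (cfc_predicate f a) (cfc_predicate g a) (cfc_commute_cfc f g a)
/-- for positive `a`, with an error term -/
theorem QTr.cfc_le_add {a : M} (ha : 0 ≤ a) {f g : ℝ → ℝ} {κ : ℝ} (hf : Continuous f)
    (hg : Continuous g) (h : ∀ s, 0 ≤ s → s ≤ ‖a‖ → f s ≤ g s + κ) :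
    t (cfc f a) ≤ t (cfc g a) + κ * t 1 := by
  have h1 : cfc f a ≤ cfc (fun s => g s + κ) a :=
    cfc_mono_nonneg ha hf (hg.add continuous_const) h
  have h2 : t (cfc f a) ≤ t (cfc (fun s => g s + κ) a) :=
    QTr.mono ht (cfc_predicate f a) (cfc_predicate _ a) (cfc_commute_cfc _ _ a) h1
  have h3 : t (cfc (fun s => g s + κ) a) = t (cfc g a) + t (cfc (fun _ => κ) a) :=
    QTr.cfc_add ht hg continuous_const
  rw [cfc_const κ a (IsSelfAdjoint.of_nonneg ha), QTr.algMap ht] at h3
  linarith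

end RC12
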