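import Pool.Agent.LibRC12.S1A

/-!
S1B: the dimension function dd t a = sup_k t(ψ_{1/(k+1)}(a)) for a ≥ 0. ψ_ε(s) = min 1 (s/ε). Everything from S1A.
Scalar inequalities (s ≥ 0): ψ_η((s-ε)_+) ≤ ψ_ε(s); ψ_ε(s) ≤ ψ_ε((s-δ)_+) + δ/ε; s ≤ ψ_1(s) for s ≤ 1; ψ_ε(r s) = ψ_{ε/r}(s).
-/

open Filter Topology
open scoped ENNReal NNReal ComplexOrder

set_option autoImplicit false
set_option linter.unusedSectionVars false

namespace RC12

variable {M : Type*} [CStarAlgebra M] [PartialOrder M] [StarOrderedRing M]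

private theorem S1B_cpsi (ε : ℝ) : Continuous fun s : ℝ => min 1 (s / ε) :=
  continuous_const.min (continuous_id.div_const ε)

private theorem S1B_ccut (ε : ℝ) : Continuous fun s : ℝ => max (s - ε) 0 :=
  (continuous_id.sub continuous_const).max continuous_const

private theorem S1B_cpc (ε η : ℝ) : Continuous fun s : ℝ => min 1 (max (s - ε) 0 / η) :=
  continuous_const.min ((S1B_ccut ε).div_const η)

private theorem S1B_comp (ε η : ℝ) {a : M} (ha : 0 ≤ a) :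
    psi η (cut ε a) = cfc (fun s : ℝ => min 1 (max (s - ε) 0 / η)) a := by
  unfold psi cut
  exact (cfc_comp' (fun t : ℝ => min 1 (t / η)) (fun t : ℝ => max (t - ε) 0) a
    (S1B_cpsi η).continuousOn (S1B_ccut ε).continuousOn (IsSelfAdjoint.of_nonneg ha)).symm

variable {t : M → ℝ} (ht : QTr t)
include ht

private theorem S1B_psi_mono {a : M} (ha : 0 ≤ a) {ε ε' : ℝ} (hε' : 0 < ε') (h : ε' ≤ ε) :
    t (psi ε a) ≤ t (psi ε' a) := by
  unfold psi
  refine ht.cfc_mono (S1B_cpsi ε) (S1B_cpsi ε') (fun s hs => ?_)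
  have h0 : 0 ≤ s := spectrum_nonneg_of_nonneg ha hs
  exact min_le_min_left 1 (div_le_div_of_nonneg_left h0 hε' h)

private theorem S1B_psi_le_mass {a : M} (ha : 0 ≤ a) (ε : ℝ) : t (psi ε a) ≤ t 1 := by
  unfold psi
  have h := ht.cfc_mono (a := a) (S1B_cpsi ε) (continuous_const (y := (1 : ℝ)))
    (fun s _ => min_le_left 1 (s / ε))
  rwa [cfc_const_one ℝ a (IsSelfAdjoint.of_nonneg ha)] at h

private theorem S1B_bdd {a : M} (ha : 0 ≤ a) :
    BddAbove (Set.range fun k : ℕ => t (psi (1 / ((k : ℝ) + 1)) a)) := by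
  refine ⟨t 1, ?_⟩
  rintro _ ⟨k, rfl⟩
  exact S1B_psi_le_mass ht ha _

theorem QTr.psi_le_dd {a : M} (ha : 0 ≤ a) {ε : ℝ} (hε : 0 < ε) : t (psi ε a) ≤ dd t a := by
  obtain ⟨k, hk⟩ := exists_nat_one_div_lt hε
  exact le_trans (S1B_psi_mono ht ha (by positivity) hk.le) (le_ciSup (S1B_bdd ht ha) k)
theorem QTr.dd_le_of {a : M} {c : ℝ} (h : ∀ ε : ℝ, 0 < ε → t (psi ε a) ≤ c) : dd t a ≤ c :=
  ciSup_le fun k => h _ (by positivity)
theorem QTr.lt_dd {a : M} {c : ℝ} (h : c < dd t a) : ∃ ε : ℝ, 0 < ε ∧ c < t (psi ε a) := by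
  obtain ⟨k, hk⟩ := exists_lt_of_lt_ciSup h
  exact ⟨1 / ((k : ℝ) + 1), by positivity, hk⟩
theorem QTr.dd_nonneg {a : M} (ha : 0 ≤ a) : 0 ≤ dd t a :=
  le_trans (ht.pos (psi_nonneg one_pos ha)) (ht.psi_le_dd ha one_pos)
theorem QTr.dd_le_mass {a : M} (ha : 0 ≤ a) : dd t a ≤ t 1 :=
  ht.dd_le_of fun ε _ => S1B_psi_le_mass ht ha ε
theorem QTr.dd_one : dd t (1 : M) = t 1 := by
  refine le_antisymm (ht.dd_le_mass zero_le_one) ?_
  have h := ht.psi_le_dd (a := (1 : M)) zero_le_one one_pos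
  have e : psi 1 (1 : M) = 1 := by
    unfold psi
    have h1 := cfc_algebraMap (A := M) (1 : ℝ) (fun s : ℝ => min 1 (s / 1))
    rw [map_one] at h1
    rw [h1, div_one, min_self, map_one]
  rwa [e] at h
theorem QTr.dd_zero : dd t (0 : M) = 0 := by
  refine le_antisymm (ht.dd_le_of fun ε _ => ?_) (ht.dd_nonneg le_rfl)
  have e : psi ε (0 : M) = 0 := by
    unfold psi
    have h1 := cfc_algebraMap (A := M) (0 : ℝ) (fun s : ℝ => min 1 (s / ε))
    rw [map_zero] at h1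
    rw [h1, zero_div, min_eq_right zero_le_one, map_zero]
  rw [e, ht.zero]
theorem QTr.tendsto_psi {a : M} (ha : 0 ≤ a) :
    Tendsto (fun k : ℕ => t (psi (1 / ((k : ℝ) + 1)) a)) atTop (𝓝 (dd t a)) := by
  refine tendsto_atTop_ciSup (fun k k' hkk' => ?_) (S1B_bdd ht ha)
  refine S1B_psi_mono ht ha (by positivity) ?_
  have h : (k : ℝ) ≤ k' := by exact_mod_cast hkk'
  exact one_div_le_one_div_of_le (by positivity) (by linarith)
private theorem S1B_psi_smul {a : M} (ha : 0 ≤ a) {r ε : ℝ} (hr : 0 < r) :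
    psi ε (r • a) = psi (ε / r) a := by
  unfold psi
  rw [← cfc_comp_smul r (fun s : ℝ => min 1 (s / ε)) a (S1B_cpsi ε).continuousOn
    (IsSelfAdjoint.of_nonneg ha)]
  congr 1
  funext s
  rw [smul_eq_mul, div_div_eq_mul_div, mul_comm]
theorem QTr.dd_smul {a : M} (ha : 0 ≤ a) {r : ℝ} (hr : 0 < r) : dd t (r • a) = dd t a := by
  refine le_antisymm (ht.dd_le_of fun ε hε => ?_) (ht.dd_le_of fun ε hε => ?_)
  · rw [S1B_psi_smul ht ha hr]
    exact ht.psi_le_dd ha (by positivity)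
  · have e : psi ε a = psi (ε * r) (r • a) := by
      rw [S1B_psi_smul ht ha hr, mul_div_cancel_right₀ _ hr.ne']
    rw [e]
    exact ht.psi_le_dd (smul_nonneg hr.le ha) (by positivity)
/-- `t(a) ≤ d(a)` for contractions -/
theorem QTr.le_dd {a : M} (ha : 0 ≤ a) (h1 : a ≤ 1) : t a ≤ dd t a := by
  have hsa : IsSelfAdjoint a := IsSelfAdjoint.of_nonneg ha
  refine le_trans ?_ (ht.psi_le_dd ha one_pos)
  have h := ht.cfc_mono (a := a) (f := fun s : ℝ => s) continuous_id (S1B_cpsi 1)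
    (fun s hs => le_min ((CFC.le_one_iff a hsa).1 h1 s hs) (by rw [div_one]))
  rwa [cfc_id' ℝ a hsa] at h
/-- `t(a) - ε t(1) ≤ d((a-ε)_+)` for contractions -/
theorem QTr.sub_le_dd_cut {a : M} (ha : 0 ≤ a) (h1 : a ≤ 1) {ε : ℝ} (hε : 0 ≤ ε) :
    t a - ε * t 1 ≤ dd t (cut ε a) := by
  have hsa : IsSelfAdjoint a := IsSelfAdjoint.of_nonneg ha
  have h2 := ht.le_dd (cut_nonneg ε a) (le_trans (cut_le_self hε ha) h1)
  have h3 := ht.cfc_le_add ha (f := fun s : ℝ => s) (g := fun s : ℝ => max (s - ε) 0) (κ := ε)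
    continuous_id (S1B_ccut ε) (fun s _ _ => by
      have := le_max_left (s - ε) 0
      linarith)
  rw [cfc_id' ℝ a hsa] at h3
  have h4 : t (cfc (fun s : ℝ => max (s - ε) 0) a) = t (cut ε a) := rfl
  rw [h4] at h3
  linarith
theorem QTr.dd_cut_le {a : M} (ha : 0 ≤ a) {ε : ℝ} (hε : 0 < ε) :
    dd t (cut ε a) ≤ t (psi ε a) := by
  refine ht.dd_le_of fun η hη => ?_
  rw [S1B_comp ε η ha]
  refine ht.cfc_mono (S1B_cpc ε η) (S1B_cpsi ε) (fun s hs => ?_)
  have h0 : 0 ≤ s := spectrum_nonneg_of_nonneg ha hs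
  rcases le_total s ε with h | h
  · have e : max (s - ε) 0 = 0 := max_eq_right (by linarith)
    rw [e, zero_div, min_eq_right zero_le_one]
    exact le_min zero_le_one (div_nonneg h0 hε.le)
  · have e : min 1 (s / ε) = 1 := min_eq_left (by rw [le_div_iff₀ hε]; linarith)
    rw [e]
    exact min_le_left _ _
theorem QTr.psi_le_cut {a : M} (ha : 0 ≤ a) {ε δ : ℝ} (hε : 0 < ε) (hδ : 0 ≤ δ) :
    t (psi ε a) ≤ t (psi ε (cut δ a)) + δ / ε * t 1 := by
  rw [S1B_comp δ ε ha]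
  refine ht.cfc_le_add ha (S1B_cpsi ε) (S1B_cpc δ ε) (fun s _ _ => ?_)
  have h1 : s / ε ≤ max (s - δ) 0 / ε + δ / ε := by
    rw [← add_div]
    refine div_le_div_of_nonneg_right ?_ hε.le
    have := le_max_left (s - δ) 0
    linarith
  have h2 : 0 ≤ δ / ε := div_nonneg hδ hε.le
  rw [← min_add_add_right]
  exact le_min (le_trans (min_le_left _ _) (by linarith)) (le_trans (min_le_right _ _) h1)

end RC12
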