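import Pool.Agent.LibRC12.S1B

/-!
S1C: d(a) = lim_k t(a^{1/k}) for a ≥ 0. (i) for ε > 0, k ≥ 1 and s in [0,‖a‖]: s^{1/k} ≤ c_k ψ_ε(s) + ε^{1/k}, c_k = max(1,‖a‖)^{1/k};
let ε → 0: t(a^{1/k}) ≤ c_k d(a), c_k → 1. (ii) for ε, η > 0 and k large: s^{1/k} ≥ ψ_ε(s) - η for all s ≥ 0
(s ≤ ηε: trivial; s ≥ ηε: s^{1/k} ≥ min(1,ηε)^{1/k} ≥ 1-η), so liminf t(a^{1/k}) ≥ t(ψ_ε(a)) - η t(1).
-/

open Filter Topology
open scoped ENNReal NNReal ComplexOrder

set_option autoImplicit false
set_option linter.unusedSectionVars false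

namespace RC12

variable {M : Type*} [CStarAlgebra M] [PartialOrder M] [StarOrderedRing M]

private theorem S1C_exp_pos (k : ℕ) : 0 < 1 / ((k : ℝ) + 1) := by positivity

private theorem S1C_pow_tendsto {x : ℝ} (hx : 0 < x) :
    Tendsto (fun k : ℕ => x ^ (1 / ((k : ℝ) + 1))) atTop (𝓝 1) := by
  have h1 : Tendsto (fun k : ℕ => 1 / ((k : ℝ) + 1)) atTop (𝓝 0) :=
    tendsto_one_div_add_atTop_nhds_zero_nat
  have h2 : Tendsto (fun k : ℕ => x ^ (1 / ((k : ℝ) + 1))) atTop (𝓝 (x ^ (0 : ℝ))) :=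
    (Real.continuousAt_const_rpow hx.ne').tendsto.comp h1
  rwa [Real.rpow_zero] at h2

theorem QTr.tendsto_rpow {t : M → ℝ} (ht : QTr t) {a : M} (ha : 0 ≤ a) :
    Tendsto (fun k : ℕ => t (cfc (fun s : ℝ => s ^ (1 / ((k : ℝ) + 1))) a)) atTop
      (𝓝 (dd t a)) := by
  have hcpsi : ∀ ε : ℝ, Continuous fun s : ℝ => min 1 (s / ε) := fun ε =>
    continuous_const.min (continuous_id.div_const ε)
  have hcpow : ∀ k : ℕ, Continuous fun s : ℝ => s ^ (1 / ((k : ℝ) + 1)) := fun k =>
    Real.continuous_rpow_const (S1C_exp_pos k).le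
  have hm := ht.mass_nonneg
  have hsa : IsSelfAdjoint a := IsSelfAdjoint.of_nonneg ha
  set R : ℝ := max 1 ‖a‖ with hR
  have hR1 : 1 ≤ R := le_max_left _ _
  have hR0 : 0 < R := lt_of_lt_of_le one_pos hR1
  -- upper bound
  have hup : ∀ k : ℕ, t (cfc (fun s : ℝ => s ^ (1 / ((k : ℝ) + 1))) a) ≤
      R ^ (1 / ((k : ℝ) + 1)) * dd t a := by
    intro k
    set b : ℝ := 1 / ((k : ℝ) + 1) with hb
    have hb0 : 0 < b := S1C_exp_pos k
    have hRb : 1 ≤ R ^ b := Real.one_le_rpow hR1 hb0.le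
    have hε : ∀ ε : ℝ, 0 < ε → t (cfc (fun s : ℝ => s ^ b) a) ≤
        R ^ b * dd t a + ε ^ b * t 1 := by
      intro ε hε
      have h1 := ht.cfc_le_add ha (f := fun s : ℝ => s ^ b)
        (g := fun s : ℝ => R ^ b * min 1 (s / ε)) (κ := ε ^ b) (hcpow k)
        (continuous_const.mul (hcpsi ε)) (fun s hs hs' => by
          rcases le_total s ε with h | h
          · have h2 : s ^ b ≤ ε ^ b := Real.rpow_le_rpow hs h hb0.le
            have h3 : 0 ≤ R ^ b * min 1 (s / ε) :=
              mul_nonneg (by linarith) (le_min zero_le_one (div_nonneg hs hε.le))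
            linarith
          · have h2 : min 1 (s / ε) = 1 := min_eq_left (by rw [le_div_iff₀ hε]; linarith)
            have h3 : s ^ b ≤ R ^ b := Real.rpow_le_rpow hs (hs'.trans (le_max_right _ _)) hb0.le
            have h4 : 0 ≤ ε ^ b := (Real.rpow_pos_of_pos hε b).le
            rw [h2, mul_one]
            linarith)
      have h5 : cfc (fun s : ℝ => R ^ b * min 1 (s / ε)) a = R ^ b • psi ε a := by
        unfold psi
        exact cfc_const_mul (R ^ b) (fun s : ℝ => min 1 (s / ε)) a (hcpsi ε).continuousOn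
      have hpsa : IsSelfAdjoint (psi ε a) := cfc_predicate _ _
      rw [h5, ht.smul _ _ hpsa] at h1
      have h6 := mul_le_mul_of_nonneg_left (ht.psi_le_dd ha hε) (by linarith : 0 ≤ R ^ b)
      linarith
    have hlim : Tendsto (fun ε : ℝ => R ^ b * dd t a + ε ^ b * t 1) (𝓝[>] 0)
        (𝓝 (R ^ b * dd t a + (0 : ℝ) ^ b * t 1)) := by
      refine Tendsto.mono_left ?_ nhdsWithin_le_nhds
      exact (continuous_const.add ((Real.continuous_rpow_const hb0.le).mul
        continuous_const)).tendsto 0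
    rw [Real.zero_rpow hb0.ne', zero_mul, add_zero] at hlim
    refine ge_of_tendsto hlim ?_
    filter_upwards [self_mem_nhdsWithin] with ε hε' using hε ε hε'
  rw [tendsto_order]
  constructor
  · intro c hc
    obtain ⟨ε, hε, hcε⟩ := ht.lt_dd hc
    obtain ⟨η, hη, hη1, hηt⟩ : ∃ η : ℝ, 0 < η ∧ η ≤ 1 ∧ η * t 1 < t (psi ε a) - c := by
      refine ⟨min 1 ((t (psi ε a) - c) / (2 * (t 1 + 1))), ?_, min_le_left _ _, ?_⟩
      · exact lt_min one_pos (div_pos (by linarith) (by linarith))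
      · have h1 : min 1 ((t (psi ε a) - c) / (2 * (t 1 + 1))) * t 1 ≤
            (t (psi ε a) - c) / (2 * (t 1 + 1)) * t 1 :=
          mul_le_mul_of_nonneg_right (min_le_right _ _) hm
        have h2 : (t (psi ε a) - c) / (2 * (t 1 + 1)) * t 1 < t (psi ε a) - c := by
          rw [div_mul_eq_mul_div, div_lt_iff₀ (by linarith)]
          nlinarith
        linarith
    have hx : 0 < min 1 (η * ε) := lt_min one_pos (mul_pos hη hε)
    have hev : ∀ᶠ k : ℕ in atTop, 1 - η < (min 1 (η * ε)) ^ (1 / ((k : ℝ) + 1)) :=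
      (S1C_pow_tendsto hx).eventually (lt_mem_nhds (by linarith))
    filter_upwards [hev] with k hk
    have h1 := ht.cfc_le_add ha (f := fun s : ℝ => min 1 (s / ε))
      (g := fun s : ℝ => s ^ (1 / ((k : ℝ) + 1))) (κ := η) (hcpsi ε) (hcpow k)
      (fun s hs _ => by
        rcases le_total s (η * ε) with h | h
        · have h2 : min 1 (s / ε) ≤ η := by
            refine le_trans (min_le_right _ _) ?_
            rw [div_le_iff₀ hε]
            exact h
          have h3 : 0 ≤ s ^ (1 / ((k : ℝ) + 1)) := Real.rpow_nonneg hs _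
          linarith
        · have h3 : (min 1 (η * ε)) ^ (1 / ((k : ℝ) + 1)) ≤ s ^ (1 / ((k : ℝ) + 1)) :=
            Real.rpow_le_rpow hx.le ((min_le_right _ _).trans h) (S1C_exp_pos k).le
          have h4 : min 1 (s / ε) ≤ 1 := min_le_left _ _
          linarith)
    have h5 : t (cfc (fun s : ℝ => min 1 (s / ε)) a) = t (psi ε a) := rfl
    rw [h5] at h1
    linarith
  · intro c hc
    have hlim : Tendsto (fun k : ℕ => R ^ (1 / ((k : ℝ) + 1)) * dd t a) atTop
        (𝓝 (1 * dd t a)) := (S1C_pow_tendsto hR0).mul_const _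
    rw [one_mul] at hlim
    filter_upwards [hlim.eventually (gt_mem_nhds hc)] with k hk
    exact lt_of_le_of_lt (hup k) hk

end RC12
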