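import Pool.Agent.LibRC12.S1C

/-!
S1D: the limit formula with the definition of `QuasiTrace.d`: for a ≥ 0 in Mn n A, `root (k+1) a.mat` is `(cfc (fun s => s^(1/(k+1))) a).mat`
(existence: `IsPos` in matrices is `star x * x`, i.e. 0 ≤ in Mn; (cfc (s^{1/(k+1)}) a)^(k+1) = a; uniqueness: c ≥ 0, c^(k+1) = a ⇒
c = cfc (s^{1/(k+1)}) (c^(k+1))). Then `QTr.tendsto_rpow` and `Tendsto.limUnder_eq`.
-/

open Filter Topology
open scoped ENNReal NNReal ComplexOrder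

set_option autoImplicit false
set_option linter.unusedSectionVars false

namespace RC12

variable {A : Type*} [CStarAlgebra A] [PartialOrder A] [StarOrderedRing A]

private theorem S1D_cont (k : ℕ) : Continuous fun s : ℝ => s ^ (1 / ((k : ℝ) + 1)) :=
  Real.continuous_rpow_const (by positivity)

private theorem S1D_pow1 (k : ℕ) {s : ℝ} (hs : 0 ≤ s) :
    (s ^ (1 / ((k : ℝ) + 1))) ^ (k + 1) = s := by
  rw [← Real.rpow_natCast, ← Real.rpow_mul hs]
  have : 1 / ((k : ℝ) + 1) * ((k + 1 : ℕ) : ℝ) = 1 := by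
    push_cast
    field_simp
  rw [this, Real.rpow_one]

private theorem S1D_pow2 (k : ℕ) {s : ℝ} (hs : 0 ≤ s) :
    (s ^ (k + 1)) ^ (1 / ((k : ℝ) + 1)) = s := by
  rw [← Real.rpow_natCast, ← Real.rpow_mul hs]
  have : ((k + 1 : ℕ) : ℝ) * (1 / ((k : ℝ) + 1)) = 1 := by
    push_cast
    field_simp
  rw [this, Real.rpow_one]

theorem root_eq {n : ℕ} {a : Mn n A} (ha : 0 ≤ a) (k : ℕ) :
    root (k + 1) a.mat = (cfc (fun s : ℝ => s ^ (1 / ((k : ℝ) + 1))) a).mat := by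
  have hsa : IsSelfAdjoint a := IsSelfAdjoint.of_nonneg ha
  have hex : ∃ c, IsPos c ∧ c ^ (k + 1) = a.mat := by
    refine ⟨(cfc (fun s : ℝ => s ^ (1 / ((k : ℝ) + 1))) a).mat, ?_, ?_⟩
    · have h0 : 0 ≤ cfc (fun s : ℝ => s ^ (1 / ((k : ℝ) + 1))) a :=
        cfc_nonneg fun s hs => Real.rpow_nonneg (spectrum_nonneg_of_nonneg ha hs) _
      obtain ⟨y, hy⟩ := CStarAlgebra.nonneg_iff_eq_star_mul_self.1 h0
      exact ⟨y.mat, by rw [hy]; rfl⟩
    · rw [← Mn.mat_pow, ← cfc_pow (fun s : ℝ => s ^ (1 / ((k : ℝ) + 1))) (k + 1) a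
        (S1D_cont k).continuousOn]
      congr 1
      conv_rhs => rw [← cfc_id' ℝ a hsa]
      refine cfc_congr (fun s hs => ?_)
      exact S1D_pow1 k (spectrum_nonneg_of_nonneg ha hs)
  unfold root
  rw [dif_pos hex]
  obtain ⟨hpos, hpow⟩ := hex.choose_spec
  set c := hex.choose with hc
  obtain ⟨x, hx⟩ := hpos
  have hC0 : 0 ≤ (Mn.of c : Mn n A) := by
    have h1 : (Mn.of c : Mn n A) = star (Mn.of x) * Mn.of x := by
      rw [hx]
      rfl
    rw [h1]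
    exact star_mul_self_nonneg _
  have hCsa : IsSelfAdjoint (Mn.of c : Mn n A) := IsSelfAdjoint.of_nonneg hC0
  have hCpow : (Mn.of c : Mn n A) ^ (k + 1) = a := by
    refine Mn.ext ?_
    rw [Mn.mat_pow, Mn.mat_of, hpow]
  rw [← hCpow, ← cfc_comp_pow (fun s : ℝ => s ^ (1 / ((k : ℝ) + 1))) (k + 1)
    (Mn.of c : Mn n A) (S1D_cont k).continuousOn hCsa]
  have h2 : cfc (fun s : ℝ => (s ^ (k + 1)) ^ (1 / ((k : ℝ) + 1))) (Mn.of c : Mn n A) =
      (Mn.of c : Mn n A) := by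
    conv_rhs => rw [← cfc_id' ℝ (Mn.of c : Mn n A) hCsa]
    refine cfc_congr (fun s hs => ?_)
    exact S1D_pow2 k (spectrum_nonneg_of_nonneg hC0 hs)
  rw [h2, Mn.mat_of]
theorem d_eq_dq (τ : QuasiTrace A) {n : ℕ} {a : Mn n A} (ha : 0 ≤ a) : τ.d a.mat = τ.dq a := by
  have h := (τ.qtr n).tendsto_rpow ha
  rw [dq_eq_dd]
  unfold QuasiTrace.d
  refine Tendsto.limUnder_eq ?_
  refine h.congr (fun k => ?_)
  rw [root_eq ha k]
  rfl

end RC12
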