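import Pool.Agent.LibRC12.Core

/-!
S1Defs (helper46): one level of a quasitrace, abstractly.
-/

open Filter Topology
open scoped ENNReal NNReal ComplexOrder

set_option autoImplicit false
set_option linter.unusedSectionVars false

namespace RC12

/-- the (real part of) a quasitrace on one C*-algebra -/
structure QTr {M : Type*} [CStarAlgebra M] (t : M → ℝ) : Prop where
  nonneg : ∀ x, 0 ≤ t (star x * x)
  comm : ∀ x, t (star x * x) = t (x * star x)
  add : ∀ a b, IsSelfAdjoint a → IsSelfAdjoint b → Commute a b → t (a + b) = t a + t b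
  smul : ∀ (c : ℝ) (a : M), IsSelfAdjoint a → t (c • a) = c * t a

/-- its dimension function -/
noncomputable def dd {M : Type*} [CStarAlgebra M] (t : M → ℝ) (a : M) : ℝ :=
  ⨆ k : ℕ, t (psi (1 / ((k : ℝ) + 1)) a)

variable {A : Type*} [CStarAlgebra A] [PartialOrder A] [StarOrderedRing A]

theorem dq_eq_dd (τ : QuasiTrace A) {n : ℕ} (a : Mn n A) :
    τ.dq a = dd (fun x : Mn n A => τ.t x) a := rfl

theorem QuasiTrace.qtr (τ : QuasiTrace A) (n : ℕ) : QTr (fun x : Mn n A => τ.t x) where
  nonneg x := (τ.nonneg n x.mat).1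
  comm x := congrArg Complex.re (τ.trace n x.mat)
  add a b ha hb h := by
    have := τ.add n a.mat b.mat ha hb h
    show (τ.toFun n (a.mat + b.mat)).re = _
    rw [this]; rfl
  smul c a ha := by
    have := τ.smul n c a.mat ha
    show (τ.toFun n ((c : ℂ) • a.mat)).re = _
    rw [this]; simp [QuasiTrace.t]

end RC12
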