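import Pool.Agent.LibRC12.S1A
import Pool.Agent.LibRC12.S0C

/-!
S1E (1.2): ψ_ε(s) = s k(s) for s ≥ 0, k(s) = 1/max(s,ε); z = w (k(w*w))^{1/2}: z*z = ψ_ε(w*w) and
z z* = w k(w*w) w* = k(ww*) w w* = ψ_ε(ww*) by `cfc_intertwine` (with a = ww*, b = w*w).
-/

open Filter Topology
open scoped ENNReal NNReal ComplexOrder

set_option autoImplicit false
set_option linter.unusedSectionVars false

namespace RC12

variable {M : Type*} [CStarAlgebra M] [PartialOrder M] [StarOrderedRing M]

private theorem S1E_pos (ε s : ℝ) (hε : 0 < ε) : 0 < max s ε := lt_max_of_lt_right hε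

private theorem S1E_ck (ε : ℝ) (hε : 0 < ε) : Continuous fun s : ℝ => (max s ε)⁻¹ :=
  (continuous_id.max continuous_const).inv₀ fun s => (S1E_pos ε s hε).ne'

private theorem S1E_ch (ε : ℝ) (hε : 0 < ε) : Continuous fun s : ℝ => Real.sqrt ((max s ε)⁻¹) :=
  Real.continuous_sqrt.comp (S1E_ck ε hε)

private theorem S1E_hh (ε s : ℝ) (hε : 0 < ε) :
    Real.sqrt ((max s ε)⁻¹) * Real.sqrt ((max s ε)⁻¹) = (max s ε)⁻¹ :=
  Real.mul_self_sqrt (inv_nonneg.2 (S1E_pos ε s hε).le)

private theorem S1E_psi (ε s : ℝ) (hε : 0 < ε) (_hs : 0 ≤ s) :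
    (max s ε)⁻¹ * s = min 1 (s / ε) := by
  rcases le_total s ε with h | h
  · rw [max_eq_right h, min_eq_right (by rw [div_le_one hε]; exact h), div_eq_mul_inv, mul_comm]
  · have hs' : 0 < s := lt_of_lt_of_le hε h
    rw [max_eq_left h, min_eq_left (by rw [le_div_iff₀ hε]; linarith), inv_mul_cancel₀ hs'.ne']

theorem QTr.psi_comm {t : M → ℝ} (ht : QTr t) (w : M) {ε : ℝ} (hε : 0 < ε) :
    t (psi ε (star w * w)) = t (psi ε (w * star w)) := by
  have hb0 : 0 ≤ star w * w := star_mul_self_nonneg w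
  have ha0 : 0 ≤ w * star w := mul_star_self_nonneg w
  have hb : IsSelfAdjoint (star w * w) := IsSelfAdjoint.of_nonneg hb0
  have ha : IsSelfAdjoint (w * star w) := IsSelfAdjoint.of_nonneg ha0
  set h : M := cfc (fun s : ℝ => Real.sqrt ((max s ε)⁻¹)) (star w * w) with hh
  have hsa : IsSelfAdjoint h := cfc_predicate _ _
  have e1 : star (w * h) * (w * h) = psi ε (star w * w) := by
    have e2 : h * (star w * w) * h = cfc (fun s : ℝ =>
        Real.sqrt ((max s ε)⁻¹) * s * Real.sqrt ((max s ε)⁻¹)) (star w * w) := by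
      rw [cfc_mul (fun s : ℝ => Real.sqrt ((max s ε)⁻¹) * s)
        (fun s : ℝ => Real.sqrt ((max s ε)⁻¹)) (star w * w)
        ((S1E_ch ε hε).mul continuous_id).continuousOn (S1E_ch ε hε).continuousOn,
        cfc_mul (fun s : ℝ => Real.sqrt ((max s ε)⁻¹)) (fun s : ℝ => s) (star w * w)
        (S1E_ch ε hε).continuousOn continuousOn_id, cfc_id' ℝ (star w * w) hb]
    calc star (w * h) * (w * h) = h * (star w * w) * h := by
          rw [star_mul, hsa.star_eq]
          simp only [mul_assoc]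
      _ = _ := e2
      _ = psi ε (star w * w) := by
          unfold psi
          refine cfc_congr (fun s hs => ?_)
          have h0 : 0 ≤ s := spectrum_nonneg_of_nonneg hb0 hs
          show Real.sqrt ((max s ε)⁻¹) * s * Real.sqrt ((max s ε)⁻¹) = min 1 (s / ε)
          calc Real.sqrt ((max s ε)⁻¹) * s * Real.sqrt ((max s ε)⁻¹)
              = (Real.sqrt ((max s ε)⁻¹) * Real.sqrt ((max s ε)⁻¹)) * s := by ring
            _ = (max s ε)⁻¹ * s := by rw [S1E_hh ε s hε]
            _ = min 1 (s / ε) := S1E_psi ε s hε h0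
  have e3 : (w * h) * star (w * h) = psi ε (w * star w) := by
    have e4 : h * h = cfc (fun s : ℝ => (max s ε)⁻¹) (star w * w) := by
      rw [hh, ← cfc_mul (fun s : ℝ => Real.sqrt ((max s ε)⁻¹))
        (fun s : ℝ => Real.sqrt ((max s ε)⁻¹)) (star w * w)
        (S1E_ch ε hε).continuousOn (S1E_ch ε hε).continuousOn]
      refine cfc_congr (fun s _ => ?_)
      exact S1E_hh ε s hε
    have e5 : cfc (fun s : ℝ => (max s ε)⁻¹) (w * star w) * w =
        w * cfc (fun s : ℝ => (max s ε)⁻¹) (star w * w) :=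
      cfc_intertwine ha hb w (by rw [mul_assoc]) (S1E_ck ε hε)
    calc (w * h) * star (w * h) = (w * (h * h)) * star w := by
          rw [star_mul, hsa.star_eq]
          simp only [mul_assoc]
      _ = cfc (fun s : ℝ => (max s ε)⁻¹) (w * star w) * (w * star w) := by
          rw [e4, ← e5, mul_assoc]
      _ = cfc (fun s : ℝ => (max s ε)⁻¹ * s) (w * star w) := by
          rw [cfc_mul (fun s : ℝ => (max s ε)⁻¹) (fun s : ℝ => s) (w * star w)
            (S1E_ck ε hε).continuousOn continuousOn_id, cfc_id' ℝ (w * star w) ha]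
      _ = psi ε (w * star w) := by
          unfold psi
          refine cfc_congr (fun s hs => ?_)
          exact S1E_psi ε s hε (spectrum_nonneg_of_nonneg ha0 hs)
  rw [← e1, ← e3]
  exact ht.comm (w * h)

end RC12
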