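import Pool.Agent.LibRC12.S0G
import Pool.Agent.LibRC12.S1B
import Pool.Agent.LibRC12.S1E

/-!
S1F (1.3): a ≲ b ⇒ d(a) ≤ d(b). Given ε, κ in (0,1): η = κε/2; choose v with ‖v* b v - a‖ < η/2, then δ > 0 with 2δ‖v‖² < η/2;
y = (b G(b))^{1/2} v, G = 0 on [0,δ], 1 on [2δ,∞): y*y = v* b G(b) v satisfies ‖y*y - a‖ < η, so y*y ≥ a - η. S0G: w, w*w = ρ(a), w in closure(yM).
G' = ψ_δ(b): G' y = y (ψ_δ = 1 on the support of G), hence G' w = w. f = ψ_{κε/2}(ww*): G' f = f G' = f, f ≤ 1, so f ≤ G'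
(G' - f = G'(1-f), a product of commuting positive elements), t(f) ≤ t(G') ≤ d(b). For s ≥ 0: ψ_ε(s) ≤ ψ_{κε/2}(ρ(s)) + κ
(s ≥ κε = 2η: ρ(s) ≥ κε/2). So t(ψ_ε(a)) ≤ t(ψ_{κε/2}(w*w)) + κ t(1) = t(f) + κ t(1) (S1E) ≤ d(b) + κ t(1).
-/

open Filter Topology
open scoped ENNReal NNReal ComplexOrder

set_option autoImplicit false
set_option linter.unusedSectionVars false

namespace RC12

variable {M : Type*} [CStarAlgebra M] [PartialOrder M] [StarOrderedRing M]

private theorem S1F_scalar {ε κ s : ℝ} (hε : 0 < ε) (hκ : 0 < κ) (hs : 0 ≤ s) :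
    min 1 (s / ε) ≤ min 1 (rho (κ * ε / 2) s / (κ * ε / 2)) + κ := by
  have hη : 0 < κ * ε / 2 := by positivity
  have hρ : 0 ≤ rho (κ * ε / 2) s := mul_nonneg (le_max_left _ _) (sq_nonneg _)
  by_cases h : s ≤ κ * ε
  · have h1 : s / ε ≤ κ := (div_le_iff₀ hε).2 h
    have h2 : 0 ≤ min 1 (rho (κ * ε / 2) s / (κ * ε / 2)) :=
      le_min zero_le_one (div_nonneg hρ hη.le)
    linarith [min_le_right (1 : ℝ) (s / ε)]
  · push Not at h
    have h1 : 1 ≤ (s - κ * ε / 2) / (κ * ε / 2) := by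
      rw [le_div_iff₀ hη]
      linarith
    have h2 : rho (κ * ε / 2) s = s - κ * ε / 2 := by
      unfold rho
      rw [max_eq_right (zero_le_one.trans h1), min_eq_left h1,
        max_eq_right (by linarith : 0 ≤ s - κ * ε / 2)]
      ring
    have h3 : min 1 (rho (κ * ε / 2) s / (κ * ε / 2)) = 1 := by
      rw [h2]
      exact min_eq_left h1
    rw [h3]
    linarith [min_le_left (1 : ℝ) (s / ε)]

private theorem S1F_cont (ε : ℝ) : Continuous fun s : ℝ => min 1 (s / ε) := by fun_prop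

private theorem S1F_main {t : M → ℝ} (ht : QTr t) {a b y : M} (ha : 0 ≤ a) (hb : 0 ≤ b)
    {ε κ δ : ℝ} (hε : 0 < ε) (hκ : 0 < κ) (hδ : 0 < δ)
    (hy : psi δ b * y = y) (h : a - algebraMap ℝ M (κ * ε / 2) ≤ star y * y) :
    t (psi ε a) ≤ dd t b + κ * t 1 := by
  have hη : 0 < κ * ε / 2 := by positivity
  obtain ⟨w, hw, hwc⟩ := exact_sub hη (IsSelfAdjoint.of_nonneg ha) h
  have hG0 : 0 ≤ psi δ b := psi_nonneg hδ hb
  have hGs : IsSelfAdjoint (psi δ b) := IsSelfAdjoint.of_nonneg hG0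
  -- `G' w = w`
  have hGw : psi δ b * w = w := by
    have hcl : IsClosed {x : M | psi δ b * x = x} :=
      isClosed_eq (continuous_const.mul continuous_id) continuous_id
    have hsub : (Set.range fun m : M => y * m) ⊆ {x : M | psi δ b * x = x} := by
      rintro _ ⟨m, rfl⟩
      show psi δ b * (y * m) = y * m
      rw [← mul_assoc, hy]
    exact closure_minimal hsub hcl hwc
  have hws : IsSelfAdjoint (w * star w) := IsSelfAdjoint.mul_star_self w
  have hw0 : 0 ≤ w * star w := mul_star_self_nonneg w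
  have hGx : psi δ b * (w * star w) = w * star w := by rw [← mul_assoc, hGw]
  have hxG : (w * star w) * psi δ b = w * star w := by
    have := congrArg star hGx
    rwa [star_mul, hws.star_eq, hGs.star_eq] at this
  -- `G' f = f = f G'`
  have hf : psi (κ * ε / 2) (w * star w) = cfc (fun s : ℝ => min 1 (s / (κ * ε / 2)))
    (w * star w) := rfl
  have h0 : min (1 : ℝ) (0 / (κ * ε / 2)) = 0 := by simp
  have hfs : IsSelfAdjoint (psi (κ * ε / 2) (w * star w)) :=
    IsSelfAdjoint.of_nonneg (psi_nonneg hη hw0)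
  have hGf : psi δ b * psi (κ * ε / 2) (w * star w) = psi (κ * ε / 2) (w * star w) := by
    have h1 : (1 - psi δ b) * (w * star w) = 0 := by rw [sub_mul, one_mul, hGx, sub_self]
    have h2 := cfc_mul_cfc_eq_zero ((IsSelfAdjoint.one M).sub hGs) hws h1 continuous_id
      (S1F_cont (κ * ε / 2)) rfl h0
    rw [cfc_id ℝ (1 - psi δ b) ((IsSelfAdjoint.one M).sub hGs), ← hf, sub_mul, one_mul] at h2
    exact (sub_eq_zero.1 h2).symm
  have hfG : psi (κ * ε / 2) (w * star w) * psi δ b = psi (κ * ε / 2) (w * star w) := by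
    have := congrArg star hGf
    rwa [star_mul, hfs.star_eq, hGs.star_eq] at this
  have hcomm : Commute (psi (κ * ε / 2) (w * star w)) (psi δ b) := by
    show _ * _ = _ * _
    rw [hGf, hfG]
  -- `f ≤ G'`
  have hGG : psi δ b * psi δ b ≤ psi δ b := by
    have h1 : psi δ b * psi δ b = cfc (fun s : ℝ => min 1 (s / δ) * min 1 (s / δ)) b := by
      unfold psi
      rw [← cfc_mul _ _ b ((S1F_cont δ).continuousOn) ((S1F_cont δ).continuousOn)]
    rw [h1]
    unfold psi
    refine cfc_mono_nonneg hb ((S1F_cont δ).mul (S1F_cont δ)) (S1F_cont δ) fun s hs _ => ?_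
    have h2 : 0 ≤ min 1 (s / δ) := le_min zero_le_one (div_nonneg hs hδ.le)
    exact mul_le_of_le_one_left h2 (min_le_left _ _)
  have hfG' : psi (κ * ε / 2) (w * star w) ≤ psi δ b := by
    have h1 : psi δ b * psi (κ * ε / 2) (w * star w) * psi δ b =
        psi (κ * ε / 2) (w * star w) := by rw [hGf, hfG]
    have h2 : psi δ b * psi (κ * ε / 2) (w * star w) * psi δ b ≤ psi δ b * 1 * psi δ b :=
      hGs.conjugate_le_conjugate (psi_le_one _ hw0)
    rw [h1, mul_one] at h2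
    exact h2.trans hGG
  have h3 : t (psi (κ * ε / 2) (w * star w)) ≤ dd t b :=
    (ht.mono hfs hGs hcomm hfG').trans (ht.psi_le_dd hb hδ)
  have h4 : psi (κ * ε / 2) (star w * w) =
      cfc (fun s : ℝ => min 1 (rho (κ * ε / 2) s / (κ * ε / 2))) a := by
    rw [hw]
    unfold psi
    rw [← cfc_comp' (fun s : ℝ => min 1 (s / (κ * ε / 2))) (rho (κ * ε / 2)) a
      ((S1F_cont _).continuousOn) ((continuous_rho _).continuousOn) (IsSelfAdjoint.of_nonneg ha)]
  have h5 : t (psi ε a) ≤ t (psi (κ * ε / 2) (star w * w)) + κ * t 1 := by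
    rw [h4]
    unfold psi
    exact ht.cfc_le_add ha (S1F_cont ε) ((S1F_cont _).comp (continuous_rho _))
      fun s hs _ => S1F_scalar hε hκ hs
  rw [ht.psi_comm w hη] at h5
  linarith

/-- the cut-off function -/
private noncomputable def S1F_g (δ s : ℝ) : ℝ := √(max 0 s * min 1 (max 0 ((s - δ) / δ)))

private theorem S1F_g_cont (δ : ℝ) : Continuous (S1F_g δ) := by
  unfold S1F_g
  fun_prop

private theorem S1F_g_sq {δ s : ℝ} (hs : 0 ≤ s) :
    S1F_g δ s * S1F_g δ s = s * min 1 (max 0 ((s - δ) / δ)) := by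
  unfold S1F_g
  rw [Real.mul_self_sqrt (mul_nonneg (le_max_left _ _) (le_min zero_le_one (le_max_left _ _))),
    max_eq_right hs]

private theorem S1F_g_mul {δ s : ℝ} (hδ : 0 < δ) :
    min 1 (s / δ) * S1F_g δ s = S1F_g δ s := by
  by_cases h : s ≤ δ
  · have h1 : max 0 ((s - δ) / δ) = 0 :=
      max_eq_left (div_nonpos_of_nonpos_of_nonneg (by linarith) hδ.le)
    have h2 : S1F_g δ s = 0 := by
      unfold S1F_g
      rw [h1]
      simp
    rw [h2, mul_zero]
  · push Not at h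
    have h1 : 1 ≤ s / δ := (one_le_div hδ).2 h.le
    rw [min_eq_left h1, one_mul]

private theorem S1F_g_err {δ s : ℝ} (hδ : 0 < δ) (hs : 0 ≤ s) :
    |S1F_g δ s * S1F_g δ s - s| ≤ 2 * δ := by
  rw [S1F_g_sq hs]
  have h0 : 0 ≤ min 1 (max 0 ((s - δ) / δ)) := le_min zero_le_one (le_max_left _ _)
  have h1 : min 1 (max 0 ((s - δ) / δ)) ≤ 1 := min_le_left _ _
  by_cases h : s ≤ 2 * δ
  · rw [abs_le]
    constructor
    · nlinarith
    · nlinarith
  · push Not at h
    have h2 : 1 ≤ (s - δ) / δ := by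
      rw [le_div_iff₀ hδ]
      linarith
    rw [max_eq_right (zero_le_one.trans h2), min_eq_left h2, mul_one, sub_self, abs_zero]
    positivity

theorem QTr.dd_mono {t : M → ℝ} (ht : QTr t) {a b : M} (ha : 0 ≤ a) (hb : 0 ≤ b) (h : Cu a b) :
    dd t a ≤ dd t b := by
  refine ht.dd_le_of fun ε hε => ?_
  refine le_of_forall_pos_le_add fun e he => ?_
  have hm : 0 ≤ t 1 := ht.mass_nonneg
  set κ : ℝ := e / (t 1 + 1) with hκ'
  have hκ : 0 < κ := by positivity
  have hκe : κ * t 1 ≤ e := by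
    rw [hκ', div_mul_eq_mul_div, div_le_iff₀ (by positivity)]
    nlinarith
  set η : ℝ := κ * ε / 2 with hη'
  have hη : 0 < η := by positivity
  obtain ⟨v, hv⟩ := h (η / 2) (half_pos hη)
  set δ : ℝ := η / (8 * (‖v‖ ^ 2 + 1)) with hδ'
  have hδ : 0 < δ := by positivity
  have hδv : ‖v‖ ^ 2 * (2 * δ) ≤ η / 2 := by
    have h1 : δ * (8 * (‖v‖ ^ 2 + 1)) = η := by
      rw [hδ', div_mul_cancel₀]
      positivity
    nlinarith [sq_nonneg ‖v‖, mul_nonneg (sq_nonneg ‖v‖) hδ.le]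
  have hgs : IsSelfAdjoint (cfc (S1F_g δ) b) :=
    cfc_predicate (R := ℝ) (p := IsSelfAdjoint) _ _
  have hgg : cfc (S1F_g δ) b * cfc (S1F_g δ) b = cfc (fun s => S1F_g δ s * S1F_g δ s) b := by
    rw [← cfc_mul _ _ b (S1F_g_cont δ).continuousOn (S1F_g_cont δ).continuousOn]
  have hyy : star (cfc (S1F_g δ) b * v) * (cfc (S1F_g δ) b * v) =
      star v * cfc (fun s => S1F_g δ s * S1F_g δ s) b * v := by
    rw [star_mul, hgs.star_eq, ← hgg]
    simp only [mul_assoc]
  have herr : ‖cfc (fun s => S1F_g δ s * S1F_g δ s) b - b‖ ≤ 2 * δ := by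
    have h1 : cfc (fun s => S1F_g δ s * S1F_g δ s) b - b =
        cfc (fun s => S1F_g δ s * S1F_g δ s - s) b := by
      rw [cfc_sub (fun s => S1F_g δ s * S1F_g δ s) (fun s => s) b
        (((S1F_g_cont δ).mul (S1F_g_cont δ)).continuousOn) continuousOn_id,
        cfc_id' ℝ b (IsSelfAdjoint.of_nonneg hb)]
    rw [h1]
    exact norm_cfc_le_nonneg hb (by positivity) fun s hs _ => S1F_g_err hδ hs
  have hnorm : ‖a - star (cfc (S1F_g δ) b * v) * (cfc (S1F_g δ) b * v)‖ ≤ η := by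
    rw [hyy]
    have h1 : a - star v * cfc (fun s => S1F_g δ s * S1F_g δ s) b * v =
        -(star v * b * v - a) - star v * (cfc (fun s => S1F_g δ s * S1F_g δ s) b - b) * v := by
      noncomm_ring
    rw [h1]
    calc ‖-(star v * b * v - a) - star v * (cfc (fun s => S1F_g δ s * S1F_g δ s) b - b) * v‖
        ≤ ‖-(star v * b * v - a)‖ + ‖star v * (cfc (fun s => S1F_g δ s * S1F_g δ s) b - b) * v‖ :=
          norm_sub_le _ _
      _ ≤ η / 2 + ‖v‖ ^ 2 * (2 * δ) := by
          rw [norm_neg]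
          refine add_le_add hv.le ?_
          calc ‖star v * (cfc (fun s => S1F_g δ s * S1F_g δ s) b - b) * v‖
              ≤ ‖star v‖ * ‖cfc (fun s => S1F_g δ s * S1F_g δ s) b - b‖ * ‖v‖ :=
                (norm_mul_le _ _).trans (mul_le_mul_of_nonneg_right (norm_mul_le _ _)
                  (norm_nonneg _))
            _ ≤ ‖v‖ * (2 * δ) * ‖v‖ := by
                rw [norm_star]
                gcongr
            _ = ‖v‖ ^ 2 * (2 * δ) := by ring
      _ ≤ η / 2 + η / 2 := by linarith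
      _ = η := add_halves η
  have hle : a - algebraMap ℝ M η ≤ star (cfc (S1F_g δ) b * v) * (cfc (S1F_g δ) b * v) := by
    have hsa : IsSelfAdjoint (a - star (cfc (S1F_g δ) b * v) * (cfc (S1F_g δ) b * v)) :=
      (IsSelfAdjoint.of_nonneg ha).sub (IsSelfAdjoint.star_mul_self _)
    have h1 := hsa.le_algebraMap_norm_self
    have h2 : algebraMap ℝ M ‖a - star (cfc (S1F_g δ) b * v) * (cfc (S1F_g δ) b * v)‖ ≤
        algebraMap ℝ M η := algebraMap_mono M hnorm
    have h3 := h1.trans h2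
    rw [sub_le_iff_le_add] at h3 ⊢
    rwa [add_comm]
  have hy : psi δ b * (cfc (S1F_g δ) b * v) = cfc (S1F_g δ) b * v := by
    rw [← mul_assoc]
    congr 1
    unfold psi
    rw [← cfc_mul _ _ b (S1F_cont δ).continuousOn (S1F_g_cont δ).continuousOn]
    exact congrArg (fun f => cfc f b) (funext fun s => S1F_g_mul hδ)
  exact (S1F_main ht ha hb hε hκ hδ hy hle).trans (by linarith)

end RC12
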