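import Pool.Agent.LibRC12.S1B
import Pool.Agent.LibRC12.S1E

/-!
S1G (1.5): x² = 0 ⇒ d(x*x) ≤ t(1)/2: p = ψ_ε(x*x), q = ψ_ε(xx*) satisfy p q = 0 = q p (`cfc_mul_cfc_eq_zero`, (x*x)(xx*) = 0), so
p + q ≤ 1 (= ψ_ε(x*x + xx*) by `cfc_add_orth`), t(p) + t(q) = t(p+q) ≤ t(1), and t(p) = t(q) by S1E.
-/

open Filter Topology
open scoped ENNReal NNReal ComplexOrder

set_option autoImplicit false
set_option linter.unusedSectionVars false

namespace RC12

variable {M : Type*} [CStarAlgebra M] [PartialOrder M] [StarOrderedRing M]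

theorem QTr.dd_nilp {t : M → ℝ} (ht : QTr t) {x : M} (hx : x * x = 0) :
    dd t (star x * x) ≤ t 1 / 2 := by
  refine ht.dd_le_of fun ε hε => ?_
  have hb0 : 0 ≤ star x * x := star_mul_self_nonneg x
  have ha0 : 0 ≤ x * star x := mul_star_self_nonneg x
  have hb : IsSelfAdjoint (star x * x) := IsSelfAdjoint.of_nonneg hb0
  have ha : IsSelfAdjoint (x * star x) := IsSelfAdjoint.of_nonneg ha0
  have hxs : star x * star x = 0 := by
    rw [← star_mul, hx, star_zero]
  have h1 : (star x * x) * (x * star x) = 0 := by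
    calc (star x * x) * (x * star x) = star x * (x * x) * star x := by simp only [mul_assoc]
      _ = 0 := by rw [hx, mul_zero, zero_mul]
  have h2 : (x * star x) * (star x * x) = 0 := by
    calc (x * star x) * (star x * x) = x * (star x * star x) * x := by simp only [mul_assoc]
      _ = 0 := by rw [hxs, mul_zero, zero_mul]
  have hc : Continuous fun s : ℝ => min 1 (s / ε) := continuous_const.min (continuous_id.div_const ε)
  have h0 : (fun s : ℝ => min 1 (s / ε)) 0 = 0 := by
    show min 1 ((0 : ℝ) / ε) = 0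
    rw [zero_div, min_eq_right zero_le_one]
  have hpq : psi ε (star x * x) * psi ε (x * star x) = 0 :=
    cfc_mul_cfc_eq_zero hb ha h1 hc hc h0 h0
  have hqp : psi ε (x * star x) * psi ε (star x * x) = 0 :=
    cfc_mul_cfc_eq_zero ha hb h2 hc hc h0 h0
  have hsum : psi ε (star x * x + x * star x) = psi ε (star x * x) + psi ε (x * star x) :=
    cfc_add_orth hb ha h1 hc h0
  have hp : IsSelfAdjoint (psi ε (star x * x)) := cfc_predicate _ _
  have hq : IsSelfAdjoint (psi ε (x * star x)) := cfc_predicate _ _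
  have hadd := ht.add _ _ hp hq (by rw [Commute, SemiconjBy, hpq, hqp])
  have hle : t (psi ε (star x * x + x * star x)) ≤ t 1 :=
    ht.mono (cfc_predicate _ _) (IsSelfAdjoint.one M) (Commute.one_right _)
      (psi_le_one ε (add_nonneg hb0 ha0))
  rw [hsum, hadd, ← ht.psi_comm x hε] at hle
  linarith

end RC12
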