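import Pool.Agent.LibRC12.S1H
import Pool.Agent.LibRC12.S0C

/-!
S1I: functional calculus in corners: emb is a non-unital *-homomorphism and f(0) = 0: use `cfcₙ` (`NonUnitalStarAlgHomClass.map_cfcₙ`,
`cfcₙ_eq_cfc`) or polynomials without constant term.
-/

open Filter Topology
open scoped ENNReal NNReal ComplexOrder

set_option autoImplicit false
set_option linter.unusedSectionVars false

namespace RC12

variable {A : Type*} [CStarAlgebra A] [PartialOrder A] [StarOrderedRing A]

theorem cfc_emb {k N : ℕ} (g : Fin k → Fin N) (hg : Function.Injective g) {a : Mn k A}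
    (ha : IsSelfAdjoint a) {f : ℝ → ℝ} (hf : Continuous f) (f0 : f 0 = 0) :
    cfc f (emb g hg a) = emb g hg (cfc f a) := by
  have hc : Continuous (emb (A := A) g hg) := map_continuous (emb (A := A) g hg)
  have ha' : IsSelfAdjoint (emb g hg a) := ha.map (emb g hg)
  rw [← cfcₙ_eq_cfc hf.continuousOn f0, ← cfcₙ_eq_cfc hf.continuousOn f0]
  exact (NonUnitalStarAlgHomClass.map_cfcₙ (emb (A := A) g hg) f a hf.continuousOn f0 hc ha
    ha').symm

theorem psi_emb {k N : ℕ} (g : Fin k → Fin N) (hg : Function.Injective g) {a : Mn k A}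
    (ha : 0 ≤ a) (ε : ℝ) : psi ε (emb g hg a) = emb g hg (psi ε a) := by
  unfold psi
  exact cfc_emb g hg (IsSelfAdjoint.of_nonneg ha) (by fun_prop) (by simp)

theorem cut_emb {k N : ℕ} (g : Fin k → Fin N) (hg : Function.Injective g) {a : Mn k A}
    (ha : 0 ≤ a) {ε : ℝ} (hε : 0 ≤ ε) : cut ε (emb g hg a) = emb g hg (cut ε a) := by
  unfold cut
  exact cfc_emb g hg (IsSelfAdjoint.of_nonneg ha) (by fun_prop) (by simpa using hε)

end RC12
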