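import Pool.Agent.LibRC12.S1H
import Pool.Agent.LibRC12.S0A

/-!
S1J: v* (a ⊕ b) v = (a+b) ⊕ 0 with v = [[1,0],[1,0]] (2n x 2n matrix, v_{ij} = 1 iff j < n and (i = j or i = n + j)); the error is 0.
Cu_cor: a ≲ b ⇔ cor m a ≲ cor m b (←: compress v by the projection cor m 1).
-/

open Filter Topology
open scoped ENNReal NNReal ComplexOrder

set_option autoImplicit false
set_option linter.unusedSectionVars false

namespace RC12

variable {A : Type*} [CStarAlgebra A] [PartialOrder A] [StarOrderedRing A]

theorem Cu_add_blk {n : ℕ} (a b : Mn n A) : Cu (cor (n + n) (a + b)) (blk a b) := by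
  have hle : n ≤ n + n := Nat.le_add_right n n
  -- the three embeddings
  have hc : cor (n + n) (a + b) = emb (Fin.castLE hle) (Fin.castLE_injective hle) (a + b) :=
    cor_eq_emb hle _
  set U : Matrix (Fin (n + n)) (Fin n) A := Vf A (Fin.castLE hle) with hU
  set P : Matrix (Fin (n + n)) (Fin n) A := Vf A (Fin.castAdd n) with hP
  set Q : Matrix (Fin (n + n)) (Fin n) A := Vf A (Fin.natAdd n) with hQ
  have hPP : P.conjTranspose * P = 1 := Vf_star_mul_self (Fin.castAdd_injective n n)
  have hQQ : Q.conjTranspose * Q = 1 := Vf_star_mul_self (Fin.natAdd_injective n n)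
  have hPQ : P.conjTranspose * Q = 0 := Vf_star_mul_of_disjoint fun p q h => by
    have := congrArg Fin.val h
    simp only [Fin.val_castAdd, Fin.val_natAdd] at this
    have hp := p.2
    omega
  have hQP : Q.conjTranspose * P = 0 := by
    have := congrArg Matrix.conjTranspose hPQ
    simpa using this
  -- v = (P + Q) U*
  set v : Mn (n + n) A := Mn.of ((P + Q) * U.conjTranspose) with hv
  have key : star v * blk a b * v = cor (n + n) (a + b) := by
    refine Mn.ext ?_
    rw [hc, blk_eq_emb]
    simp only [Mn.mat_mul, Mn.mat_star, Mn.mat_add, emb_mat, hv, Mn.mat_of,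
      Matrix.star_eq_conjTranspose, Matrix.conjTranspose_mul, Matrix.conjTranspose_conjTranspose,
      Matrix.conjTranspose_add]
    rw [← hU, ← hP, ← hQ]
    have e1 : (P.conjTranspose + Q.conjTranspose) * (P * a.mat * P.conjTranspose +
        Q * b.mat * Q.conjTranspose) * (P + Q) = a.mat + b.mat := by
      have f1 : (P.conjTranspose + Q.conjTranspose) * (P * a.mat * P.conjTranspose +
          Q * b.mat * Q.conjTranspose) = a.mat * P.conjTranspose + b.mat * Q.conjTranspose := by
        rw [Matrix.add_mul, Matrix.mul_add, Matrix.mul_add, ← Matrix.mul_assoc, ← Matrix.mul_assoc,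
          hPP, Matrix.one_mul, ← Matrix.mul_assoc, ← Matrix.mul_assoc, hPQ, Matrix.zero_mul,
          Matrix.zero_mul, ← Matrix.mul_assoc, ← Matrix.mul_assoc, hQP, Matrix.zero_mul,
          Matrix.zero_mul, ← Matrix.mul_assoc, ← Matrix.mul_assoc, hQQ, Matrix.one_mul, add_zero,
          zero_add]
      rw [f1, Matrix.add_mul, Matrix.mul_add, Matrix.mul_add, Matrix.mul_assoc, Matrix.mul_assoc,
        Matrix.mul_assoc, Matrix.mul_assoc, hPP, hPQ, hQP, hQQ, Matrix.mul_one, Matrix.mul_one,
        Matrix.mul_zero, Matrix.mul_zero, add_zero, zero_add]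
    calc U * (P.conjTranspose + Q.conjTranspose) *
          (P * a.mat * P.conjTranspose + Q * b.mat * Q.conjTranspose) * ((P + Q) * U.conjTranspose)
        = U * ((P.conjTranspose + Q.conjTranspose) * (P * a.mat * P.conjTranspose +
          Q * b.mat * Q.conjTranspose) * (P + Q)) * U.conjTranspose := by
          simp only [Matrix.mul_assoc]
      _ = U * (a.mat + b.mat) * U.conjTranspose := by rw [e1]
  intro ε hε
  exact ⟨v, by rw [key]; simpa using hε⟩

theorem Cu_cor_iff {n m : ℕ} (h : n ≤ m) {a b : Mn n A} : Cu (cor m a) (cor m b) ↔ Cu a b := by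
  rw [cor_eq_emb h, cor_eq_emb h]
  constructor
  · intro H ε hε
    obtain ⟨v, hv⟩ := H ε hε
    set U : Matrix (Fin m) (Fin n) A := Vf A (Fin.castLE h) with hU
    have hUU : U.conjTranspose * U = 1 := Vf_star_mul_self (Fin.castLE_injective h)
    have hinj : Function.Injective (emb (A := A) (Fin.castLE h) (Fin.castLE_injective h)) := by
      intro x y hxy
      have h1 := congrArg (fun z : Mn m A => U.conjTranspose * z.mat * U) hxy
      simp only [emb_mat, ← hU] at h1
      have h2 : ∀ z : Mn n A, U.conjTranspose * (U * z.mat * U.conjTranspose) * U = z.mat := by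
        intro z
        rw [← Matrix.mul_assoc, ← Matrix.mul_assoc, hUU, Matrix.one_mul, Matrix.mul_assoc, hUU,
          Matrix.mul_one]
      rw [h2, h2] at h1
      exact Mn.ext h1
    have hnorm : ∀ y : Mn n A, ‖emb (Fin.castLE h) (Fin.castLE_injective h) y‖ = ‖y‖ :=
      fun y => NonUnitalStarAlgHom.norm_map _ hinj y
    set w : Mn n A := Mn.of (U.conjTranspose * v.mat * U) with hw
    refine ⟨w, ?_⟩
    set X : Mn m A := star v * emb (Fin.castLE h) (Fin.castLE_injective h) b * v -
      emb (Fin.castLE h) (Fin.castLE_injective h) a with hX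
    set p : Mn m A := emb (Fin.castLE h) (Fin.castLE_injective h) 1 with hp
    have hp1 : ‖p‖ ≤ 1 := by
      rw [hp, hnorm]
      rcases subsingleton_or_nontrivial (Mn n A) with hs | hs
      · rw [Subsingleton.elim (1 : Mn n A) 0, norm_zero]; exact zero_le_one
      · exact (CStarRing.norm_one).le
    have key : emb (Fin.castLE h) (Fin.castLE_injective h) (star w * b * w - a) = p * X * p := by
      refine Mn.ext ?_
      simp only [emb_mat, Mn.mat_mul, Mn.mat_sub, Mn.mat_star, hw, hp, hX, Mn.mat_of, Mn.mat_one,
        Matrix.star_eq_conjTranspose, Matrix.conjTranspose_mul, Matrix.conjTranspose_conjTranspose,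
        ← hU, Matrix.mul_one]
      have h2 : ∀ z : Mn n A, U * U.conjTranspose * (U * z.mat * U.conjTranspose) *
          (U * U.conjTranspose) = U * z.mat * U.conjTranspose := by
        intro z
        have : U * U.conjTranspose * (U * z.mat * U.conjTranspose) * (U * U.conjTranspose) =
          U * (U.conjTranspose * U) * z.mat * (U.conjTranspose * U) * U.conjTranspose := by
          simp only [Matrix.mul_assoc]
        rw [this, hUU, Matrix.mul_one, Matrix.mul_one]
      rw [Matrix.mul_sub, Matrix.sub_mul, Matrix.mul_sub, Matrix.sub_mul, h2]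
      simp only [Matrix.mul_assoc]
    calc ‖star w * b * w - a‖ = ‖p * X * p‖ := by rw [← hnorm, key]
      _ ≤ ‖p‖ * ‖X‖ * ‖p‖ := (norm_mul_le _ _).trans (by gcongr; exact norm_mul_le _ _)
      _ ≤ 1 * ‖X‖ * 1 := by gcongr
      _ < ε := by rw [one_mul, mul_one]; exact hv
  · intro H
    exact Cu_map _ H

end RC12
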