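import Pool.Agent.LibRC12.S1I
import Pool.Agent.LibRC12.S1A

/-!
S1K: quasitraces and corners. τ.t (cor m a) = τ.t a is the axiom `corner`. t_emb (a ≥ 0): let c = a^{1/2} and
x = the N x N matrix (Vf castLE) c (Vf f)* : x x* = cor N a, x* x = emb f a; `trace`. t_sum_orth: `QTr.sum` (the a_i commute).
t_one: 1 = blk 1 1 (Mn (n+1)), induction; n = 0: 1 = 0.
-/

open Filter Topology
open scoped ENNReal NNReal ComplexOrder

set_option autoImplicit false
set_option linter.unusedSectionVars false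

namespace RC12

variable {A : Type*} [CStarAlgebra A] [PartialOrder A] [StarOrderedRing A]

variable (τ : QuasiTrace A)

theorem t_cor {n m : ℕ} (h : n ≤ m) (a : Mn n A) : τ.t (cor m a) = τ.t a :=
  congrArg Complex.re (τ.corner n m a.mat h)

theorem t_emb {k N : ℕ} (f : Fin k → Fin N) (hf : Function.Injective f) {a : Mn k A} (ha : 0 ≤ a) :
    τ.t (emb f hf a) = τ.t a := by
  have hkN : k ≤ N := by simpa using Fintype.card_le_of_injective f hf
  set V : Matrix (Fin N) (Fin k) A := Vf A (Fin.castLE hkN) with hV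
  set W : Matrix (Fin N) (Fin k) A := Vf A f with hW
  have hVV : V.conjTranspose * V = 1 := Vf_star_mul_self (Fin.castLE_injective hkN)
  have hWW : W.conjTranspose * W = 1 := Vf_star_mul_self hf
  set c : Mn k A := cfc Real.sqrt a with hc
  have hcc : c.mat * c.mat = a.mat := congrArg Mn.mat (cfc_sqrt_mul_self ha)
  have hcs : c.mat.conjTranspose = c.mat :=
    congrArg Mn.mat (IsSelfAdjoint.of_nonneg (cfc_sqrt_nonneg a)).star_eq
  set x : Mn N A := Mn.of (V * c.mat * W.conjTranspose) with hx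
  have h1 : x * star x = cor N a := by
    refine Mn.ext ?_
    rw [cor_eq_emb hkN, emb_mat, ← hV]
    simp only [hx, Mn.mat_mul, Mn.mat_star, Mn.mat_of, Matrix.star_eq_conjTranspose,
      Matrix.conjTranspose_mul, Matrix.conjTranspose_conjTranspose, hcs]
    calc V * c.mat * W.conjTranspose * (W * (c.mat * V.conjTranspose))
        = V * c.mat * (W.conjTranspose * W) * (c.mat * V.conjTranspose) := by
          simp only [Matrix.mul_assoc]
      _ = V * (c.mat * c.mat) * V.conjTranspose := by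
          rw [hWW, Matrix.mul_one]; simp only [Matrix.mul_assoc]
      _ = V * a.mat * V.conjTranspose := by rw [hcc]
  have h2 : star x * x = emb f hf a := by
    refine Mn.ext ?_
    rw [emb_mat, ← hW]
    simp only [hx, Mn.mat_mul, Mn.mat_star, Mn.mat_of, Matrix.star_eq_conjTranspose,
      Matrix.conjTranspose_mul, Matrix.conjTranspose_conjTranspose, hcs]
    calc W * (c.mat * V.conjTranspose) * (V * c.mat * W.conjTranspose)
        = W * c.mat * (V.conjTranspose * V) * (c.mat * W.conjTranspose) := by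
          simp only [Matrix.mul_assoc]
      _ = W * (c.mat * c.mat) * W.conjTranspose := by
          rw [hVV, Matrix.mul_one]; simp only [Matrix.mul_assoc]
      _ = W * a.mat * W.conjTranspose := by rw [hcc]
  have h3 := (τ.qtr N).comm x
  rw [h1, h2] at h3
  exact h3.trans (t_cor τ hkN a)

theorem t_one {n : ℕ} : τ.t (1 : Mn n A) = n := by
  have hinj : ∀ i : Fin n, Function.Injective (fun _ : Fin 1 => i) :=
    fun i => Function.injective_of_subsingleton _
  have h1 : (1 : Mn n A) = ∑ i : Fin n, emb (fun _ : Fin 1 => i) (hinj i) (1 : Mn 1 A) := by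
    have hsum : (∑ i : Fin n, emb (fun _ : Fin 1 => i) (hinj i) (1 : Mn 1 A)).mat =
        ∑ i : Fin n, (emb (fun _ : Fin 1 => i) (hinj i) (1 : Mn 1 A)).mat := by
      classical
      induction (Finset.univ : Finset (Fin n)) using Finset.induction_on with
      | empty => rfl
      | insert a s ha ih => rw [Finset.sum_insert ha, Finset.sum_insert ha, Mn.mat_add, ih]
    refine Mn.ext ?_
    rw [hsum]
    ext p q
    rw [Matrix.sum_apply]
    simp only [emb_mat, Mn.mat_one, Matrix.mul_one, Matrix.mul_apply, Finset.univ_unique,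
      Finset.sum_singleton, Matrix.conjTranspose_apply, Vf, Matrix.of_apply, Matrix.one_apply]
    by_cases hpq : p = q
    · subst hpq
      rw [if_pos rfl, Finset.sum_eq_single p]
      · simp
      · intro b _ hb; simp [hb]
      · simp
    · rw [if_neg hpq]
      refine (Finset.sum_eq_zero fun i _ => ?_).symm
      by_cases hi : i = p
      · subst hi; simp [hpq]
      · simp [hi]
  have h0 : (0 : Mn 1 A) ≤ 1 := zero_le_one
  have hsa : ∀ i : Fin n, 0 ≤ emb (fun _ : Fin 1 => i) (hinj i) (1 : Mn 1 A) :=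
    fun i => emb_nonneg _ _ h0
  have ht1 : τ.t (1 : Mn 1 A) = 1 := by
    have : (1 : Mn 1 A).mat = 1 := rfl
    unfold QuasiTrace.t
    rw [this, τ.one, Complex.one_re]
  rw [h1]
  have := (τ.qtr n).sum (Finset.univ : Finset (Fin n))
    (fun i => emb (fun _ : Fin 1 => i) (hinj i) (1 : Mn 1 A))
    (fun i _ => IsSelfAdjoint.of_nonneg (hsa i)) (by
      intro i _ j _
      by_cases hij : i = j
      · subst hij; exact Commute.refl _
      · show _ * _ = _ * _
        rw [emb_mul_emb_of_disjoint (hinj i) (hinj j) (fun _ _ => hij),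
          emb_mul_emb_of_disjoint (hinj j) (hinj i) (fun _ _ => fun h => hij h.symm)])
  rw [this]
  simp only [t_emb τ _ _ h0, ht1, Finset.sum_const, Finset.card_univ, Fintype.card_fin,
    nsmul_eq_mul, mul_one]

theorem toFun_im_eq_zero {n : ℕ} {a : Mn n A} (ha : IsSelfAdjoint a) :
    (τ.toFun n a.mat).im = 0 := by
  have hp : ∀ b : Mn n A, 0 ≤ b → (τ.toFun n b.mat).im = 0 := by
    intro b hb
    have h1 : b.mat = star (cfc Real.sqrt b).mat * (cfc Real.sqrt b).mat := by
      have h2 := cfc_sqrt_mul_self hb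
      have h3 := (IsSelfAdjoint.of_nonneg (cfc_sqrt_nonneg b)).star_eq
      have : b = star (cfc Real.sqrt b) * cfc Real.sqrt b := by rw [h3, h2]
      exact congrArg Mn.mat this
    rw [h1]
    exact (τ.nonneg n _).2
  have h1 : a = a⁺ - a⁻ := (CFC.posPart_sub_negPart a ha).symm
  have h2 : a.mat = (a⁺).mat + ((-1 : ℝ) : ℂ) • (a⁻).mat := by
    have : a = a⁺ + (-1 : ℝ) • a⁻ := by rw [neg_one_smul, ← sub_eq_add_neg]; exact h1
    exact congrArg Mn.mat this
  have hps : IsSelfAdjoint (a⁺) := IsSelfAdjoint.of_nonneg (CFC.posPart_nonneg a)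
  have hns : IsSelfAdjoint (a⁻) := IsSelfAdjoint.of_nonneg (CFC.negPart_nonneg a)
  have hpn : (a⁺).mat * (a⁻).mat = 0 := congrArg Mn.mat (CFC.posPart_mul_negPart a)
  have hnp : (a⁻).mat * (a⁺).mat = 0 := congrArg Mn.mat (CFC.negPart_mul_posPart a)
  have e1 : star (a⁺).mat = (a⁺).mat := congrArg Mn.mat hps.star_eq
  have e2 : star (a⁻).mat = (a⁻).mat := congrArg Mn.mat hns.star_eq
  have e3 : star (((-1 : ℝ) : ℂ) • (a⁻).mat) = ((-1 : ℝ) : ℂ) • (a⁻).mat := by
    rw [star_smul, e2]; simp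
  rw [h2, τ.add n (a⁺).mat (((-1 : ℝ) : ℂ) • (a⁻).mat) e1 e3 (by
      rw [Matrix.mul_smul, Matrix.smul_mul, hpn, hnp]), τ.smul n (-1) (a⁻).mat e2, Complex.add_im,
    hp _ (CFC.posPart_nonneg a), Complex.im_ofReal_mul, hp _ (CFC.negPart_nonneg a)]
  simp

theorem toFun_norm_selfAdjoint {n : ℕ} {a : Mn n A} (ha : IsSelfAdjoint a) :
    ‖τ.toFun n a.mat‖ ≤ ‖a‖ * n := by
  have h1 : τ.toFun n a.mat = (τ.t a : ℂ) := by
    apply Complex.ext
    · rfl
    · rw [toFun_im_eq_zero τ ha]; simp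
  rw [h1, Complex.norm_real, Real.norm_eq_abs]
  have h2 := (τ.qtr n).abs_le ha
  rw [t_one τ] at h2
  exact h2

theorem toFun_norm_le {n : ℕ} (a : Mn n A) : ‖τ.toFun n a.mat‖ ≤ 2 * ‖a‖ * n := by
  set b : Mn n A := (realPart a : Mn n A) with hb
  set c : Mn n A := (imaginaryPart a : Mn n A) with hc
  have hbs : IsSelfAdjoint b := (realPart a).2
  have hcs : IsSelfAdjoint c := (imaginaryPart a).2
  have h1 : a = b + Complex.I • c := (realPart_add_I_smul_imaginaryPart a).symm
  have h2 : τ.toFun n a.mat = τ.toFun n b.mat + Complex.I * τ.toFun n c.mat := by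
    conv_lhs => rw [h1]
    exact τ.add_I n b.mat c.mat (congrArg Mn.mat hbs.star_eq) (congrArg Mn.mat hcs.star_eq)
  have hbn : ‖b‖ ≤ ‖a‖ := realPart.norm_le a
  have hcn : ‖c‖ ≤ ‖a‖ := imaginaryPart.norm_le a
  have hn : (0 : ℝ) ≤ n := Nat.cast_nonneg n
  calc ‖τ.toFun n a.mat‖ ≤ ‖τ.toFun n b.mat‖ + ‖Complex.I * τ.toFun n c.mat‖ := by
        rw [h2]; exact norm_add_le _ _
    _ = ‖τ.toFun n b.mat‖ + ‖τ.toFun n c.mat‖ := by rw [norm_mul, Complex.norm_I, one_mul]
    _ ≤ ‖b‖ * n + ‖c‖ * n :=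
        add_le_add (toFun_norm_selfAdjoint τ hbs) (toFun_norm_selfAdjoint τ hcs)
    _ ≤ ‖a‖ * n + ‖a‖ * n := by gcongr
    _ = 2 * ‖a‖ * n := by ring

end RC12
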