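import Pool.Agent.LibRC12.S1K
import Pool.Agent.LibRC12.S1J
import Pool.Agent.LibRC12.S1F

/-!
S1L: dimension functions of matrices. dq = dd by `dq_eq_dd`. dq_sum_orth: ψ_ε of the sum is the sum (`cfc_sum_orth`), t additive, and
limits (`QTr.tendsto_psi`). dq_add_le: `Cu_add_blk`, `QTr.dd_mono`, dq_cor, dq_blk.
-/

open Filter Topology
open scoped ENNReal NNReal ComplexOrder

set_option autoImplicit false
set_option linter.unusedSectionVars false

namespace RC12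

variable {A : Type*} [CStarAlgebra A] [PartialOrder A] [StarOrderedRing A]

variable (τ : QuasiTrace A) {n : ℕ}

theorem dq_nonneg (a : Mn n A) (ha : 0 ≤ a) : 0 ≤ τ.dq a := (τ.qtr n).dd_nonneg ha
theorem dq_le (a : Mn n A) (ha : 0 ≤ a) : τ.dq a ≤ n := by
  have h := (τ.qtr n).dd_le_mass ha
  have h1 : τ.t (1 : Mn n A) = n := t_one τ
  calc τ.dq a = dd (fun x : Mn n A => τ.t x) a := dq_eq_dd τ a
    _ ≤ τ.t (1 : Mn n A) := h
    _ = n := h1
theorem dq_one : τ.dq (1 : Mn n A) = n := by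
  rw [dq_eq_dd, (τ.qtr n).dd_one]
  exact t_one τ
theorem dq_mono {a b : Mn n A} (ha : 0 ≤ a) (hb : 0 ≤ b) (h : Cu a b) : τ.dq a ≤ τ.dq b :=
  (τ.qtr n).dd_mono ha hb h
theorem dq_emb {N : ℕ} (f : Fin n → Fin N) (hf : Function.Injective f) {a : Mn n A} (ha : 0 ≤ a) :
    τ.dq (emb f hf a) = τ.dq a := by
  unfold QuasiTrace.dq
  congr 1
  funext k
  rw [psi_emb f hf ha]
  exact t_emb τ f hf (psi_nonneg (by positivity) ha)
theorem dq_cor {m : ℕ} (h : n ≤ m) {a : Mn n A} (ha : 0 ≤ a) : τ.dq (cor m a) = τ.dq a := by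
  rw [cor_eq_emb h]
  exact dq_emb τ _ _ ha
theorem dq_sum_orth {ι : Type*} [DecidableEq ι] (s : Finset ι) (a : ι → Mn n A)
    (ha : ∀ i ∈ s, 0 ≤ a i) (h : ∀ i ∈ s, ∀ j ∈ s, i ≠ j → a i * a j = 0) :
    τ.dq (∑ i ∈ s, a i) = ∑ i ∈ s, τ.dq (a i) := by
  have hsa : ∀ i ∈ s, IsSelfAdjoint (a i) := fun i hi => IsSelfAdjoint.of_nonneg (ha i hi)
  have hsum : 0 ≤ ∑ i ∈ s, a i := Finset.sum_nonneg ha
  have hcont : ∀ ε : ℝ, Continuous (fun s : ℝ => min 1 (s / ε)) := fun ε => by fun_prop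
  have hf0 : ∀ ε : ℝ, (fun s : ℝ => min 1 (s / ε)) 0 = 0 := fun ε => by simp
  have key : ∀ ε : ℝ, τ.t (psi ε (∑ i ∈ s, a i)) = ∑ i ∈ s, τ.t (psi ε (a i)) := by
    intro ε
    unfold psi
    rw [cfc_sum_orth s a hsa h (hcont ε) (hf0 ε)]
    refine QTr.sum (τ.qtr n) s _ (fun i _ => cfc_predicate _ _) ?_
    intro i hi j hj
    by_cases hij : i = j
    · subst hij
      exact Commute.refl _
    · show _ * _ = _ * _
      rw [cfc_mul_cfc_eq_zero (hsa i hi) (hsa j hj) (h i hi j hj hij) (hcont ε) (hcont ε) (hf0 ε)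
        (hf0 ε), cfc_mul_cfc_eq_zero (hsa j hj) (hsa i hi) (h j hj i hi (Ne.symm hij)) (hcont ε)
        (hcont ε) (hf0 ε) (hf0 ε)]
  have h1 := (τ.qtr n).tendsto_psi hsum
  have h2 : Tendsto (fun k : ℕ => ∑ i ∈ s, τ.t (psi (1 / ((k : ℝ) + 1)) (a i))) atTop
      (𝓝 (∑ i ∈ s, dd (fun x : Mn n A => τ.t x) (a i))) :=
    tendsto_finsetSum s fun i hi => (τ.qtr n).tendsto_psi (ha i hi)
  have h3 : (fun k : ℕ => τ.t (psi (1 / ((k : ℝ) + 1)) (∑ i ∈ s, a i))) =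
      fun k : ℕ => ∑ i ∈ s, τ.t (psi (1 / ((k : ℝ) + 1)) (a i)) := by
    funext k
    exact key _
  have h1' : Tendsto (fun k : ℕ => τ.t (psi (1 / ((k : ℝ) + 1)) (∑ i ∈ s, a i))) atTop
      (𝓝 (dd (fun x : Mn n A => τ.t x) (∑ i ∈ s, a i))) := h1
  rw [h3] at h1'
  have := tendsto_nhds_unique h1' h2
  rw [dq_eq_dd, this]
  exact Finset.sum_congr rfl fun i _ => (dq_eq_dd τ (a i)).symm

private theorem dq_add_orth {a b : Mn n A} (ha : 0 ≤ a) (hb : 0 ≤ b) (h : a * b = 0)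
    (h' : b * a = 0) : τ.dq (a + b) = τ.dq a + τ.dq b := by
  have h1 := dq_sum_orth τ (Finset.univ : Finset Bool) (fun i => if i then a else b)
    (by
      intro i _
      cases i
      · simpa using hb
      · simpa using ha)
    (by
      intro i _ j _ hij
      cases i <;> cases j
      · exact absurd rfl hij
      · simpa using h'
      · simpa using h
      · exact absurd rfl hij)
  simpa using h1

theorem dq_blk {m : ℕ} {a : Mn n A} {b : Mn m A} (ha : 0 ≤ a) (hb : 0 ≤ b) :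
    τ.dq (blk a b) = τ.dq a + τ.dq b := by
  have hd : ∀ (p : Fin n) (q : Fin m), Fin.castAdd m p ≠ Fin.natAdd n q := by
    intro p q h
    have h1 := congrArg Fin.val h
    simp only [Fin.val_castAdd, Fin.val_natAdd] at h1
    have := p.isLt
    omega
  rw [blk_eq_emb, dq_add_orth τ (emb_nonneg _ _ ha) (emb_nonneg _ _ hb)
    (emb_mul_emb_of_disjoint _ _ hd a b)
    (emb_mul_emb_of_disjoint _ _ (fun q p => (hd p q).symm) b a), dq_emb τ _ _ ha,
    dq_emb τ _ _ hb]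
theorem dq_bd {m : ℕ} {B : Fin m → Mn n A} (hB : ∀ i, 0 ≤ B i) :
    τ.dq (bd B) = ∑ i, τ.dq (B i) := by
  rw [bd_eq_sum_emb, dq_sum_orth τ Finset.univ _ (fun i _ => emb_nonneg _ _ (hB i))]
  · exact Finset.sum_congr rfl fun i _ => dq_emb τ _ _ (hB i)
  · intro i _ j _ hij
    refine emb_mul_emb_of_disjoint _ _ (fun p q hpq => ?_) _ _
    exact hij (Prod.mk.inj (finProdFinEquiv.injective hpq)).2
theorem dq_add_le {a b : Mn n A} (ha : 0 ≤ a) (hb : 0 ≤ b) : τ.dq (a + b) ≤ τ.dq a + τ.dq b := by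
  have hle : n ≤ n + n := Nat.le_add_left n n
  have hab : 0 ≤ a + b := add_nonneg ha hb
  rw [← dq_cor τ hle hab, ← dq_blk τ ha hb]
  refine dq_mono τ ?_ ?_ (Cu_add_blk a b)
  · rw [cor_eq_emb hle]
    exact emb_nonneg _ _ hab
  · rw [blk_eq_emb]
    exact add_nonneg (emb_nonneg _ _ ha) (emb_nonneg _ _ hb)
theorem dq_sum_le {ι : Type*} (s : Finset ι) (a : ι → Mn n A)
    (ha : ∀ i ∈ s, 0 ≤ a i) : τ.dq (∑ i ∈ s, a i) ≤ ∑ i ∈ s, τ.dq (a i) := by
  classical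
  induction s using Finset.induction_on with
  | empty =>
    rw [Finset.sum_empty, Finset.sum_empty, dq_eq_dd, (τ.qtr n).dd_zero]
  | insert i s hi ih =>
    rw [Finset.sum_insert hi, Finset.sum_insert hi]
    have hs : 0 ≤ ∑ j ∈ s, a j :=
      Finset.sum_nonneg fun j hj => ha j (Finset.mem_insert_of_mem hj)
    refine le_trans (dq_add_le τ (ha i (Finset.mem_insert_self i s)) hs) ?_
    have := ih (fun j hj => ha j (Finset.mem_insert_of_mem hj))
    linarith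
theorem t_psi_le_dq {a : Mn n A} (ha : 0 ≤ a) {ε : ℝ} (hε : 0 < ε) : τ.t (psi ε a) ≤ τ.dq a :=
  (τ.qtr n).psi_le_dd ha hε
theorem t_nonneg {a : Mn n A} (ha : 0 ≤ a) : 0 ≤ τ.t a := QTr.pos (τ.qtr n) ha
theorem t_add {a b : Mn n A} (ha : IsSelfAdjoint a) (hb : IsSelfAdjoint b) (h : Commute a b) :
    τ.t (a + b) = τ.t a + τ.t b := (τ.qtr n).add a b ha hb h
theorem t_smul {a : Mn n A} (ha : IsSelfAdjoint a) (c : ℝ) : τ.t (c • a) = c * τ.t a :=
  (τ.qtr n).smul c a ha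

end RC12
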