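import Pool.Agent.LibRC12.S1K
import Pool.Agent.LibRC12.S1G

/-!
S1M (1.5) for A: X = Mn.of (fun _ _ => x) in Mn 1 A satisfies X X = 0, X* X = Mn.of (fun _ _ => x* x); `QTr.dd_nilp`, `t_one`.
-/

open Filter Topology
open scoped ENNReal NNReal ComplexOrder

set_option autoImplicit false
set_option linter.unusedSectionVars false

namespace RC12

variable {A : Type*} [CStarAlgebra A] [PartialOrder A] [StarOrderedRing A]

theorem dq_half (τ : QuasiTrace A) (x : A) (hx : x * x = 0) :
    τ.dq (Mn.of (fun _ _ => star x * x) : Mn 1 A) ≤ 1 / 2 := by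
  have h1 : (Mn.of (fun _ _ => x) : Mn 1 A) * (Mn.of (fun _ _ => x) : Mn 1 A) = 0 := by
    refine Mn.ext ?_
    ext i j
    simp only [Mn.mat_mul, Matrix.mul_apply, Finset.univ_unique, Finset.sum_singleton, Mn.mat_zero,
      Matrix.zero_apply]
    exact hx
  have h2 : star (Mn.of (fun _ _ => x) : Mn 1 A) * (Mn.of (fun _ _ => x) : Mn 1 A) =
      (Mn.of (fun _ _ => star x * x) : Mn 1 A) := by
    refine Mn.ext ?_
    ext i j
    simp only [Mn.mat_mul, Mn.mat_star, Matrix.mul_apply, Finset.univ_unique,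
      Finset.sum_singleton, Matrix.star_apply]
    rfl
  have h3 := (τ.qtr 1).dd_nilp h1
  have h4 : τ.t (1 : Mn 1 A) = 1 := by simpa using t_one τ (n := 1)
  rw [h2] at h3
  rw [dq_eq_dd]
  simpa only [h4] using h3

end RC12
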