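import Pool.Agent.LibRC12.Core

/-!
S1N: linear algebra over ℂ: for D ≥ 0 in Mn n ℂ, tr ψ_ε(D) increases to rank D as ε → 0. D.mat is Hermitian positive semidefinite, D.mat = U diag(λ) U*
(`Matrix.IsHermitian.spectral_theorem`), λ_i ≥ 0; Φ : (Fin n → ℂ) →⋆ₐ[ℂ] Mn n ℂ, Φ(x) = U diag(x) U*; D = Φ(λ), ψ_ε(D) = Φ(ψ_ε∘λ) (`map_cfc`, `cfc_map_pi`), so
tr = ∑ ψ_ε(λ_i) → #{i : λ_i ≠ 0} = rank (`Matrix.IsHermitian.rank_eq_card_non_zero_eigs`).
-/

open Filter Topology
open scoped ENNReal NNReal ComplexOrder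

set_option autoImplicit false
set_option linter.unusedSectionVars false

namespace RC12

/-- conjugation of diagonal matrices by a unitary matrix -/
private noncomputable def S1N_Phi {n : ℕ} (U : unitary (Matrix (Fin n) (Fin n) ℂ)) :
    CM (Fin n) ℂ →⋆ₐ[ℂ] Mn n ℂ where
  toFun x := Mn.of (Unitary.conjStarAlgAut ℂ _ U (Matrix.diagonal fun i => ev i x))
  map_one' := Mn.ext (by
    rw [Mn.mat_of, Mn.mat_one]
    have h : (Matrix.diagonal fun i : Fin n => ev i (1 : CM (Fin n) ℂ)) = 1 := by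
      simp only [map_one]
      exact Matrix.diagonal_one
    rw [h, map_one])
  map_mul' x y := Mn.ext (by
    rw [Mn.mat_mul, Mn.mat_of, Mn.mat_of, Mn.mat_of, ← map_mul, Matrix.diagonal_mul_diagonal]
    simp only [map_mul])
  map_zero' := Mn.ext (by
    rw [Mn.mat_of, Mn.mat_zero]
    have h : (Matrix.diagonal fun i : Fin n => ev i (0 : CM (Fin n) ℂ)) = 0 := by
      simp only [map_zero]
      exact Matrix.diagonal_zero
    rw [h, map_zero])
  map_add' x y := Mn.ext (by
    rw [Mn.mat_add, Mn.mat_of, Mn.mat_of, Mn.mat_of, ← map_add, Matrix.diagonal_add]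
    simp only [map_add])
  commutes' c := by
    have h : (Matrix.diagonal fun i : Fin n => ev i (algebraMap ℂ (CM (Fin n) ℂ) c)) =
        c • (1 : Matrix (Fin n) (Fin n) ℂ) := by
      rw [← Matrix.diagonal_one, ← Matrix.diagonal_smul]
      congr 1
      funext i
      rw [AlgHomClass.commutes]
      simp
    rw [h, map_smul, map_one, Algebra.algebraMap_eq_smul_one]
    rfl
  map_star' x := Mn.ext (by
    rw [Mn.mat_star, Mn.mat_of, Mn.mat_of, ← map_star, Matrix.star_eq_conjTranspose,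
      Matrix.diagonal_conjTranspose]
    rfl)

private theorem S1N_Phi_mat {n : ℕ} (U : unitary (Matrix (Fin n) (Fin n) ℂ)) (x : CM (Fin n) ℂ) :
    (S1N_Phi U x).mat = Unitary.conjStarAlgAut ℂ _ U (Matrix.diagonal fun i => ev i x) := rfl

private theorem S1N_trace {n : ℕ} (U : unitary (Matrix (Fin n) (Fin n) ℂ)) (x : CM (Fin n) ℂ) :
    (S1N_Phi U x).mat.trace = ∑ i, ev i x := by
  rw [S1N_Phi_mat, Unitary.conjStarAlgAut_apply, Matrix.trace_mul_comm, ← mul_assoc,
    Unitary.coe_star_mul_self, one_mul, Matrix.trace_diagonal]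

theorem sup_trace_psi {n : ℕ} {D : Mn n ℂ} (hD : 0 ≤ D) :
    (⨆ k : ℕ, ((psi (1 / ((k : ℝ) + 1)) D).mat.trace).re) = (D.mat.rank : ℝ) := by
  have hps : D.mat.PosSemidef := by
    obtain ⟨x, hx⟩ := CStarAlgebra.nonneg_iff_eq_star_mul_self.1 hD
    rw [hx, Mn.mat_mul, Mn.mat_star]
    exact Matrix.posSemidef_conjTranspose_mul_self x.mat
  have hH := hps.isHermitian
  set U := hH.eigenvectorUnitary with hU
  set l : Fin n → ℝ := hH.eigenvalues with hl
  have hl0 : ∀ i, 0 ≤ l i := fun i => hps.eigenvalues_nonneg i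
  set L : CM (Fin n) ℂ := CM.mk ⟨fun i => ((l i : ℝ) : ℂ), continuous_of_discreteTopology⟩ with hL
  have hDΦ : D = S1N_Phi U L := by
    refine Mn.ext ?_
    rw [S1N_Phi_mat]
    exact hH.spectral_theorem
  have hsa : IsSelfAdjoint L := by
    rw [isSelfAdjoint_iff]
    refine CM.ext fun i => ?_
    rw [ev_star, hL, ev_mk]
    simp
  have hcont : Continuous (S1N_Phi U) := map_continuous (S1N_Phi U)
  have hpsi : ∀ ε : ℝ, 0 < ε → psi ε D = S1N_Phi U (cfc (fun s : ℝ => min 1 (s / ε)) L) := by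
    intro ε hε
    have hc : Continuous fun s : ℝ => min 1 (s / ε) := by fun_prop
    unfold psi
    conv_lhs => rw [hDΦ]
    rw [← StarAlgHomClass.map_cfc (S1N_Phi U) (fun s : ℝ => min 1 (s / ε))
      L hc.continuousOn hcont hsa (hsa.map (S1N_Phi U))]
  have hev : ∀ (ε : ℝ) (i : Fin n), ev i (cfc (fun s : ℝ => min 1 (s / ε)) L) =
      ((min 1 (l i / ε) : ℝ) : ℂ) := by
    intro ε i
    have hc : Continuous fun s : ℝ => min 1 (s / ε) := by fun_prop
    rw [ev_cfc _ hc L hsa i]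
    exact cfc_algebraMap (A := ℂ) (l i) (fun s : ℝ => min 1 (s / ε))
  have htr : ∀ k : ℕ, ((psi (1 / ((k : ℝ) + 1)) D).mat.trace).re =
      ∑ i, min 1 (l i * ((k : ℝ) + 1)) := by
    intro k
    rw [hpsi _ (by positivity), S1N_trace, Complex.re_sum]
    refine Finset.sum_congr rfl fun i _ => ?_
    rw [hev, Complex.ofReal_re, div_div_eq_mul_div, div_one]
  have hrank : (D.mat.rank : ℝ) = ∑ i, (if l i ≠ 0 then (1 : ℝ) else 0) := by
    rw [hH.rank_eq_card_non_zero_eigs, Fintype.card_subtype, Finset.sum_boole]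
  rw [hrank]
  simp_rw [htr]
  have hmono : Monotone fun k : ℕ => ∑ i, min 1 (l i * ((k : ℝ) + 1)) := by
    intro a b hab
    refine Finset.sum_le_sum fun i _ => min_le_min_left _ ?_
    refine mul_le_mul_of_nonneg_left ?_ (hl0 i)
    have : (a : ℝ) ≤ b := by exact_mod_cast hab
    linarith
  have hbdd : BddAbove (Set.range fun k : ℕ => ∑ i, min 1 (l i * ((k : ℝ) + 1))) := by
    refine ⟨∑ _i : Fin n, (1 : ℝ), ?_⟩
    rintro _ ⟨k, rfl⟩
    exact Finset.sum_le_sum fun i _ => min_le_left _ _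
  have h1 := tendsto_atTop_ciSup hmono hbdd
  have h2 : Tendsto (fun k : ℕ => ∑ i, min 1 (l i * ((k : ℝ) + 1))) atTop
      (𝓝 (∑ i, (if l i ≠ 0 then (1 : ℝ) else 0))) := by
    refine tendsto_finsetSum _ fun i _ => ?_
    by_cases h : l i = 0
    · simp [h]
    · rw [if_pos h]
      have hpos : 0 < l i := lt_of_le_of_ne (hl0 i) (Ne.symm h)
      obtain ⟨N, hN⟩ := exists_nat_gt (1 / l i)
      refine tendsto_const_nhds.congr' ?_
      filter_upwards [eventually_ge_atTop N] with k hk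
      have h3 : (N : ℝ) ≤ k := by exact_mod_cast hk
      have h4 : 1 ≤ l i * ((k : ℝ) + 1) := by
        have h5 : 1 / l i ≤ (k : ℝ) + 1 := by linarith
        rwa [div_le_iff₀' hpos] at h5
      exact (min_eq_left h4).symm
  exact tendsto_nhds_unique h1 h2

end RC12
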