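import Pool.Agent.LibRC12.S1N

/-!
S1O (1.6): the quasitrace of a character: toFun n a = ∑_i φ(a_ii) = trace of (evc φ a).mat; all axioms from trace(xy) = trace(yx).
dq a = sup_k tr ψ_{1/(k+1)}(evc φ a) (`StarAlgHomClass.map_cfc` for evc φ; ψ is continuous) = rank by S1N.
-/

open Filter Topology
open scoped ENNReal NNReal ComplexOrder

set_option autoImplicit false
set_option linter.unusedSectionVars false

namespace RC12

variable {A : Type*} [CStarAlgebra A] [PartialOrder A] [StarOrderedRing A]

section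
open WeakDual

theorem evc_cfc_s1 {n : ℕ} (φ : characterSpace ℂ A) (f : ℝ → ℝ) (hf : Continuous f) (a : Mn n A)
    (ha : IsSelfAdjoint a) : evc φ (cfc f a) = cfc f (evc φ a) := by
  have hc : Continuous (evc φ : Mn n A →⋆ₐ[ℂ] Mn n ℂ) := by
    refine AddMonoidHomClass.continuous_of_bound (evc φ : Mn n A →⋆ₐ[ℂ] Mn n ℂ) 1 fun x => ?_
    rw [one_mul]
    exact NonUnitalStarAlgHom.norm_apply_le (evc φ : Mn n A →⋆ₐ[ℂ] Mn n ℂ) x
  exact StarAlgHomClass.map_cfc (evc φ : Mn n A →⋆ₐ[ℂ] Mn n ℂ) f a hf.continuousOn hc ha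
    (ha.map (evc φ : Mn n A →⋆ₐ[ℂ] Mn n ℂ))

theorem char_map_star_s1 {n : ℕ} (φ : characterSpace ℂ A) (x : Matrix (Fin n) (Fin n) A) :
    (star x).map φ = (x.map φ).conjTranspose := by
  ext i j
  simp [Matrix.star_apply, map_star]

theorem char_map_mul_s1 {n : ℕ} (φ : characterSpace ℂ A) (x y : Matrix (Fin n) (Fin n) A) :
    (x * y).map φ = x.map φ * y.map φ := Matrix.map_mul

/-- the quasitrace of a character -/
noncomputable def charQT (φ : characterSpace ℂ A) : QuasiTrace A where
  toFun _ a := (a.map φ).trace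
  nonneg n x := by
    rw [char_map_mul_s1, char_map_star_s1]
    have h : ((x.map φ).conjTranspose * x.map φ).trace =
        ((∑ i, ∑ j, ‖φ (x j i)‖ ^ 2 : ℝ) : ℂ) := by
      rw [Matrix.trace]
      push_cast
      refine Finset.sum_congr rfl fun i _ => ?_
      rw [Matrix.diag_apply, Matrix.mul_apply]
      refine Finset.sum_congr rfl fun j _ => ?_
      rw [Matrix.conjTranspose_apply, Matrix.map_apply, Complex.star_def, ← Complex.normSq_eq_conj_mul_self,
        Complex.normSq_eq_norm_sq]
      push_cast; rfl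
    rw [h]
    exact ⟨by rw [Complex.ofReal_re]; positivity, Complex.ofReal_im _⟩
  trace n x := by
    rw [char_map_mul_s1, char_map_mul_s1, Matrix.trace_mul_comm]
  add_I n a b _ _ := by
    simp only [Matrix.trace, Matrix.diag_apply, Matrix.map_apply, Matrix.add_apply,
      Matrix.smul_apply, map_add, map_smul, smul_eq_mul, Finset.sum_add_distrib, Finset.mul_sum]
  add n a b _ _ _ := by
    simp only [Matrix.trace, Matrix.diag_apply, Matrix.map_apply, Matrix.add_apply,
      map_add, Finset.sum_add_distrib]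
  smul n t a _ := by
    simp only [Matrix.trace, Matrix.diag_apply, Matrix.map_apply,
      Matrix.smul_apply, map_smul, smul_eq_mul, Finset.mul_sum]
  corner n m a h := by
    obtain ⟨k, rfl⟩ := Nat.exists_eq_add_of_le h
    simp only [Matrix.trace, Matrix.diag_apply, Matrix.map_apply]
    rw [Fin.sum_univ_add]
    have h1 : ∀ i : Fin n, φ (corner (n + k) a (Fin.castAdd k i) (Fin.castAdd k i)) = φ (a i i) := by
      intro i
      unfold corner
      rw [dif_pos ⟨by simp, by simp⟩]
      rfl
    have h2 : ∀ i : Fin k, φ (corner (n + k) a (Fin.natAdd n i) (Fin.natAdd n i)) = 0 := by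
      intro i
      unfold corner
      rw [dif_neg (by simp), map_zero]
    simp only [h1, h2, Finset.sum_const_zero, add_zero]
  one := by
    simp [Matrix.trace]

theorem charQT_t (φ : characterSpace ℂ A) {n : ℕ} (a : Mn n A) :
    (charQT φ).t a = ((evc φ a).mat.trace).re := rfl

end

open WeakDual in
theorem char_qt (φ : characterSpace ℂ A) : ∃ τ : QuasiTrace A, ∀ (n : ℕ) (a : Mn n A), 0 ≤ a →
    τ.dq a = (evc φ a).mat.rank := by
  refine ⟨charQT φ, fun n a ha => ?_⟩
  have hD : 0 ≤ evc φ a := map_nonneg (evc φ) ha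
  rw [← sup_trace_psi hD]
  unfold QuasiTrace.dq
  congr 1
  funext k
  rw [charQT_t]
  unfold psi
  rw [evc_cfc_s1 φ _ (by fun_prop) a (IsSelfAdjoint.of_nonneg ha)]

end RC12
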