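import Pool.Agent.LibRC12.S1K

/-!
S1P: pointwise limits of quasitraces along an ultrafilter. For every n, a the sequence (τ k).toFun n a is bounded
(`toFun_norm_le`), so it converges along U in ℂ (closed ball compact, `IsCompact.ultrafilter_le_nhds`); all axioms are closed conditions.
-/

open Filter Topology
open scoped ENNReal NNReal ComplexOrder

set_option autoImplicit false
set_option linter.unusedSectionVars false

namespace RC12

variable {A : Type*} [CStarAlgebra A] [PartialOrder A] [StarOrderedRing A]

theorem exists_ulim (U : Ultrafilter ℕ) (τ : ℕ → QuasiTrace A) :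
    ∃ σ : QuasiTrace A, ∀ (n : ℕ) (a : Mn n A),
      Tendsto (fun k => (τ k).t a) U (𝓝 (σ.t a)) := by
  have key : ∀ (n : ℕ) (a : Matrix (Fin n) (Fin n) A), ∃ z : ℂ,
      Tendsto (fun k => (τ k).toFun n a) (U : Filter ℕ) (𝓝 z) := by
    intro n a
    have hc : IsCompact (Metric.closedBall (0 : ℂ) (2 * ‖Mn.of a‖ * n)) :=
      isCompact_closedBall _ _
    have hle : ((U.map fun k => (τ k).toFun n a : Ultrafilter ℂ) : Filter ℂ) ≤
        𝓟 (Metric.closedBall (0 : ℂ) (2 * ‖Mn.of a‖ * n)) := by
      rw [le_principal_iff, Ultrafilter.mem_coe, Ultrafilter.mem_map]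
      refine Filter.univ_mem' ?_
      intro k
      have := toFun_norm_le (τ k) (Mn.of a)
      simpa using this
    obtain ⟨z, _, hz⟩ := isCompact_iff_ultrafilter_le_nhds.1 hc _ hle
    exact ⟨z, hz⟩
  choose L hL using key
  have uniq : ∀ {f : ℕ → ℂ} {z w : ℂ}, Tendsto f (U : Filter ℕ) (𝓝 z) →
      Tendsto f (U : Filter ℕ) (𝓝 w) → z = w := fun h1 h2 => tendsto_nhds_unique h1 h2
  refine ⟨{ toFun := L, nonneg := ?_, trace := ?_, add_I := ?_, add := ?_, smul := ?_,
            corner := ?_, one := ?_ }, ?_⟩
  · intro n x
    have h := hL n (star x * x)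
    have hre := (Complex.continuous_re.tendsto _).comp h
    have him := (Complex.continuous_im.tendsto _).comp h
    constructor
    · exact ge_of_tendsto' hre fun k => ((τ k).nonneg n x).1
    · refine tendsto_nhds_unique him ?_
      refine tendsto_const_nhds.congr fun k => ?_
      exact ((τ k).nonneg n x).2.symm
  · intro n x
    refine uniq (hL n (star x * x)) ((hL n (x * star x)).congr fun k => ?_)
    exact ((τ k).trace n x).symm
  · intro n a b ha hb
    refine uniq (hL n _) (((hL n a).add ((hL n b).const_mul Complex.I)).congr fun k => ?_)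
    exact ((τ k).add_I n a b ha hb).symm
  · intro n a b ha hb hab
    refine uniq (hL n _) (((hL n a).add (hL n b)).congr fun k => ?_)
    exact ((τ k).add n a b ha hb hab).symm
  · intro n t a ha
    refine uniq (hL n _) (((hL n a).const_mul (t : ℂ)).congr fun k => ?_)
    exact ((τ k).smul n t a ha).symm
  · intro n m a hnm
    refine uniq (hL m _) ((hL n a).congr fun k => ?_)
    exact ((τ k).corner n m a hnm).symm
  · refine uniq (hL 1 1) (tendsto_const_nhds.congr fun k => ?_)
    exact ((τ k).one).symm
  · intro n a
    exact (Complex.continuous_re.tendsto _).comp (hL n a.mat)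

end RC12
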