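import Pool.Agent.LibRC12.S1P
import Pool.Agent.LibRC12.S1L
import Pool.Agent.LibRC12.S0F

/-!
S1Q (1.7) uniformity. Otherwise for every N there are x_N, τ_N with dq_{τ_N}((b(x_N)-1/(N+1))_+) ≤ dq_{τ_N}((a(x_N)-ε)_+) + ρ. Take
U = `Filter.hyperfilter ℕ`, x = lim x_N, τ = lim τ_N (S1P). For d', d'' > 0 and U-almost all N (‖a(x_N)-a(x)‖ ≤ ε/2,
‖b(x_N)-b(x)‖ + 1/(N+1) ≤ d'): dq_{τ_N}((a(x_N)-ε)_+) ≤ dq_{τ_N}((a(x)-ε/2)_+) ≤ τ_N(ψ_{ε/2}(a(x))) (`Cu_cut_cut`, `dq_mono`, `QTr.dd_cut_le`) and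
dq_{τ_N}((b(x_N)-1/(N+1))_+) ≥ dq_{τ_N}((b(x)-d')_+) ≥ τ_N(ψ_{d''}((b(x)-d')_+)). Limit: τ(ψ_{d''}((b(x)-d')_+)) ≤ τ(ψ_{ε/2}(a(x))) + ρ ≤ dq(a(x)) + ρ;
now `QTr.psi_le_cut`, d' → 0, `QTr.dd_le_of`: dq(b(x)) ≤ dq(a(x)) + ρ, contradiction.
-/

open Filter Topology
open scoped ENNReal NNReal ComplexOrder

set_option autoImplicit false
set_option linter.unusedSectionVars false

namespace RC12

variable {A : Type*} [CStarAlgebra A] [PartialOrder A] [StarOrderedRing A]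

theorem dq_uniform {X : Type*} [TopologicalSpace X] [CompactSpace X] {n : ℕ} (a b : CM X (Mn n A))
    (ha : 0 ≤ a) (hb : 0 ≤ b) (ρ : ℝ)
    (h : ∀ x (τ : QuasiTrace A), τ.dq (ev x a) + ρ < τ.dq (ev x b)) {ε : ℝ} (hε : 0 < ε) :
    ∃ δ : ℝ, 0 < δ ∧ ∀ x (τ : QuasiTrace A), τ.dq (cut ε (ev x a)) + ρ < τ.dq (cut δ (ev x b)) := by
  by_contra hcon
  push Not at hcon
  have hax : ∀ z, 0 ≤ ev z a := fun z => CM.nonneg_iff.1 ha z
  have hbx : ∀ z, 0 ≤ ev z b := fun z => CM.nonneg_iff.1 hb z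
  have hstep : ∀ N : ℕ, ∃ (x : X) (τ : QuasiTrace A),
      τ.dq (cut (1 / ((N : ℝ) + 1)) (ev x b)) ≤ τ.dq (cut ε (ev x a)) + ρ := fun N =>
    hcon (1 / ((N : ℝ) + 1)) (by positivity)
  choose xs τs hs using hstep
  let U : Ultrafilter ℕ := Filter.hyperfilter ℕ
  obtain ⟨x, _, hx⟩ := isCompact_iff_ultrafilter_le_nhds.1 (isCompact_univ (X := X))
    (U.map xs) (by simp)
  have hxs : Tendsto xs (U : Filter ℕ) (𝓝 x) := hx
  obtain ⟨σ, hσ⟩ := exists_ulim U τs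
  have hN : Tendsto (fun N : ℕ => 1 / ((N : ℝ) + 1)) (U : Filter ℕ) (𝓝 0) :=
    tendsto_one_div_add_atTop_nhds_zero_nat.mono_left
      (Nat.hyperfilter_le_atTop)
  have hA : Tendsto (fun N => ‖ev (xs N) a - ev x a‖) (U : Filter ℕ) (𝓝 0) := by
    have h1 : Tendsto (fun N => ev (xs N) a) (U : Filter ℕ) (𝓝 (ev x a)) :=
      ((continuous_ev a).tendsto x).comp hxs
    exact tendsto_iff_norm_sub_tendsto_zero.1 h1
  have hB : Tendsto (fun N => ‖ev x b - ev (xs N) b‖) (U : Filter ℕ) (𝓝 0) := by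
    have h1 : Tendsto (fun N => ev (xs N) b) (U : Filter ℕ) (𝓝 (ev x b)) :=
      ((continuous_ev b).tendsto x).comp hxs
    refine (tendsto_iff_norm_sub_tendsto_zero.1 h1).congr fun N => ?_
    exact norm_sub_rev _ _
  have main : ∀ d' d'' : ℝ, 0 < d' → 0 < d'' →
      σ.t (psi d'' (cut d' (ev x b))) ≤ σ.dq (ev x a) + ρ := by
    intro d' d'' hd' hd''
    have hev : ∀ᶠ N in (U : Filter ℕ), (τs N).t (psi d'' (cut d' (ev x b))) ≤
        (τs N).t (psi (ε / 2) (ev x a)) + ρ := by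
      have e1 : ∀ᶠ N in (U : Filter ℕ), ‖ev (xs N) a - ev x a‖ ≤ ε / 2 :=
        (hA.eventually (gt_mem_nhds (half_pos hε))).mono fun _ h => le_of_lt h
      have e2 : ∀ᶠ N in (U : Filter ℕ), ‖ev x b - ev (xs N) b‖ ≤ d' / 2 :=
        (hB.eventually (gt_mem_nhds (half_pos hd'))).mono fun _ h => le_of_lt h
      have e3 : ∀ᶠ N : ℕ in (U : Filter ℕ), 1 / ((N : ℝ) + 1) ≤ d' / 2 :=
        (hN.eventually (gt_mem_nhds (half_pos hd'))).mono fun _ h => le_of_lt h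
      filter_upwards [e1, e2, e3] with N h1 h2 h3
      have i1 : (τs N).dq (cut ε (ev (xs N) a)) ≤ (τs N).dq (cut (ε / 2) (ev x a)) :=
        dq_mono (τs N) (cut_nonneg _ _) (cut_nonneg _ _)
          (Cu_cut_cut (hax _) (hax _) h1 (by linarith))
      have i2 : (τs N).dq (cut (ε / 2) (ev x a)) ≤ (τs N).t (psi (ε / 2) (ev x a)) :=
        QTr.dd_cut_le ((τs N).qtr n) (hax _) (half_pos hε)
      have i3 : (τs N).dq (cut d' (ev x b)) ≤ (τs N).dq (cut (1 / ((N : ℝ) + 1)) (ev (xs N) b)) :=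
        dq_mono (τs N) (cut_nonneg _ _) (cut_nonneg _ _)
          (Cu_cut_cut (hbx _) (hbx _) h2 (by linarith))
      have i4 : (τs N).t (psi d'' (cut d' (ev x b))) ≤ (τs N).dq (cut d' (ev x b)) :=
        t_psi_le_dq (τs N) (cut_nonneg _ _) hd''
      have i5 := hs N
      linarith
    have hlim : σ.t (psi d'' (cut d' (ev x b))) ≤ σ.t (psi (ε / 2) (ev x a)) + ρ :=
      le_of_tendsto_of_tendsto (hσ n _) ((hσ n _).add_const ρ) hev
    have hle : σ.t (psi (ε / 2) (ev x a)) ≤ σ.dq (ev x a) := t_psi_le_dq σ (hax _) (half_pos hε)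
    linarith
  have main2 : ∀ d'' : ℝ, 0 < d'' → σ.t (psi d'' (ev x b)) ≤ σ.dq (ev x a) + ρ := by
    intro d'' hd''
    have hmass : 0 ≤ σ.t (1 : Mn n A) := QTr.mass_nonneg (σ.qtr n)
    have hT : Tendsto (fun d' : ℝ => (σ.dq (ev x a) + ρ) + d' / d'' * σ.t (1 : Mn n A))
        (𝓝[>] 0) (𝓝 ((σ.dq (ev x a) + ρ) + 0 / d'' * σ.t (1 : Mn n A))) := by
      refine Tendsto.mono_left ?_ nhdsWithin_le_nhds
      have hc : Continuous fun d' : ℝ => (σ.dq (ev x a) + ρ) + d' / d'' * σ.t (1 : Mn n A) := by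
        fun_prop
      exact hc.tendsto 0
    rw [zero_div, zero_mul, add_zero] at hT
    refine ge_of_tendsto hT ?_
    filter_upwards [self_mem_nhdsWithin] with d' hd'
    have h1 : σ.t (psi d'' (ev x b)) ≤ σ.t (psi d'' (cut d' (ev x b))) +
        d' / d'' * σ.t (1 : Mn n A) :=
      QTr.psi_le_cut (σ.qtr n) (hbx _) hd'' (le_of_lt hd')
    have h2 := main d' d'' hd' hd''
    linarith
  have main3 : σ.dq (ev x b) ≤ σ.dq (ev x a) + ρ := by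
    rw [dq_eq_dd σ (ev x b)]
    exact QTr.dd_le_of (σ.qtr n) fun e he => main2 e he
  exact absurd (h x σ) (not_lt.2 main3)

end RC12
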