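import Pool.Agent.LibRC12.S0A
import Pool.Agent.LibRC12.S0B
import Pool.Agent.LibRC12.S0C
import Pool.Agent.LibRC12.S0D
import Pool.Agent.LibRC12.S0E
import Pool.Agent.LibRC12.S0F
import Pool.Agent.LibRC12.S0G
import Pool.Agent.LibRC12.S1Defs
import Pool.Agent.LibRC12.S1A
import Pool.Agent.LibRC12.S1B
import Pool.Agent.LibRC12.S1C
import Pool.Agent.LibRC12.S1D
import Pool.Agent.LibRC12.S1E
import Pool.Agent.LibRC12.S1F
import Pool.Agent.LibRC12.S1G
import Pool.Agent.LibRC12.S1H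
import Pool.Agent.LibRC12.S1I
import Pool.Agent.LibRC12.S1J
import Pool.Agent.LibRC12.S1K
import Pool.Agent.LibRC12.S1L
import Pool.Agent.LibRC12.S1M
import Pool.Agent.LibRC12.S1N
import Pool.Agent.LibRC12.S1O
import Pool.Agent.LibRC12.S1P
import Pool.Agent.LibRC12.S1Q
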