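import Pool.Agent.LibRC12.Core

/-!
S1H: corners. For f : Fin k → Fin N injective, `emb f a = V a V*`, V = Vf A f the N x k matrix with V_{f p, p} = 1.
V_f* V_f = 1, V_f* V_g = 0 for disjoint ranges; cor, blk, bd are of this form (entrywise).
-/

open Filter Topology
open scoped ENNReal NNReal ComplexOrder

set_option autoImplicit false
set_option linter.unusedSectionVars false

namespace RC12

variable {A : Type*} [CStarAlgebra A] [PartialOrder A] [StarOrderedRing A]

variable (A) in
/-- the `N × k` matrix with ones at `(f p, p)` -/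
def Vf {k N : ℕ} (f : Fin k → Fin N) : Matrix (Fin N) (Fin k) A :=
  Matrix.of fun i p => if f p = i then 1 else 0

theorem Vf_apply {k N : ℕ} (f : Fin k → Fin N) (i : Fin N) (p : Fin k) :
    Vf A f i p = if f p = i then 1 else 0 := rfl

theorem Vf_star_mul_self {k N : ℕ} {f : Fin k → Fin N} (hf : Function.Injective f) :
    (Vf A f).conjTranspose * Vf A f = 1 := by
  ext p q
  simp only [Matrix.mul_apply, Matrix.conjTranspose_apply, Vf_apply]
  rw [Finset.sum_eq_single (f p)]
  · by_cases h : p = q
    · subst h; simp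
    · have : f q ≠ f p := fun e => h (hf e).symm
      simp [this, Matrix.one_apply_ne h]
  · intro i _ hi
    have : f p ≠ i := fun e => hi e.symm
    simp [this]
  · simp
theorem Vf_star_mul_of_disjoint {k l N : ℕ} {f : Fin k → Fin N} {g : Fin l → Fin N}
    (h : ∀ p q, f p ≠ g q) : (Vf A f).conjTranspose * Vf A g = 0 := by
  ext p q
  simp only [Matrix.mul_apply, Matrix.conjTranspose_apply, Vf_apply, Matrix.zero_apply]
  refine Finset.sum_eq_zero fun i _ => ?_
  by_cases h1 : f p = i
  · have : g q ≠ i := fun e => h p q (h1.trans e.symm)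
    simp [this]
  · simp [h1]

/-- `V a V*` as a (non-unital) *-homomorphism -/
noncomputable def emb {k N : ℕ} (f : Fin k → Fin N) (hf : Function.Injective f) :
    Mn k A →⋆ₙₐ[ℂ] Mn N A where
  toFun a := Mn.of (Vf A f * a.mat * (Vf A f).conjTranspose)
  map_smul' c a := by
    refine Mn.ext ?_
    show Vf A f * (c • a.mat) * (Vf A f).conjTranspose = c • (Vf A f * a.mat * (Vf A f).conjTranspose)
    rw [Matrix.mul_smul, Matrix.smul_mul]
  map_zero' := by
    refine Mn.ext ?_
    show Vf A f * (0 : Matrix (Fin k) (Fin k) A) * (Vf A f).conjTranspose = 0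
    rw [Matrix.mul_zero, Matrix.zero_mul]
  map_add' a b := by
    refine Mn.ext ?_
    show Vf A f * (a.mat + b.mat) * (Vf A f).conjTranspose =
      Vf A f * a.mat * (Vf A f).conjTranspose + Vf A f * b.mat * (Vf A f).conjTranspose
    rw [Matrix.mul_add, Matrix.add_mul]
  map_mul' a b := by
    refine Mn.ext ?_
    show Vf A f * (a.mat * b.mat) * (Vf A f).conjTranspose =
      (Vf A f * a.mat * (Vf A f).conjTranspose) * (Vf A f * b.mat * (Vf A f).conjTranspose)
    have : (Vf A f * a.mat * (Vf A f).conjTranspose) * (Vf A f * b.mat * (Vf A f).conjTranspose) =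
        Vf A f * a.mat * ((Vf A f).conjTranspose * Vf A f) * b.mat * (Vf A f).conjTranspose := by
      simp only [Matrix.mul_assoc]
    rw [this, Vf_star_mul_self hf, Matrix.mul_one]
    simp only [Matrix.mul_assoc]
  map_star' a := by
    refine Mn.ext ?_
    show Vf A f * a.mat.conjTranspose * (Vf A f).conjTranspose =
      (Vf A f * a.mat * (Vf A f).conjTranspose).conjTranspose
    rw [Matrix.conjTranspose_mul, Matrix.conjTranspose_mul, Matrix.conjTranspose_conjTranspose,
      Matrix.mul_assoc]

theorem emb_mat {k N : ℕ} (f : Fin k → Fin N) (hf : Function.Injective f) (a : Mn k A) :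
    (emb f hf a).mat = Vf A f * a.mat * (Vf A f).conjTranspose := rfl
theorem emb_mul_emb_of_disjoint {k l N : ℕ} {f : Fin k → Fin N} {g : Fin l → Fin N}
    (hf : Function.Injective f) (hg : Function.Injective g) (h : ∀ p q, f p ≠ g q)
    (a : Mn k A) (b : Mn l A) : emb f hf a * emb g hg b = 0 := by
  refine Mn.ext ?_
  rw [Mn.mat_mul, emb_mat, emb_mat, Mn.mat_zero]
  have : (Vf A f * a.mat * (Vf A f).conjTranspose) * (Vf A g * b.mat * (Vf A g).conjTranspose) =
      Vf A f * a.mat * ((Vf A f).conjTranspose * Vf A g) * b.mat * (Vf A g).conjTranspose := by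
    simp only [Matrix.mul_assoc]
  rw [this, Vf_star_mul_of_disjoint h]
  simp
theorem emb_nonneg {k N : ℕ} (f : Fin k → Fin N) (hf : Function.Injective f) {a : Mn k A}
    (ha : 0 ≤ a) : 0 ≤ emb f hf a := by
  obtain ⟨x, rfl⟩ := CStarAlgebra.nonneg_iff_eq_star_mul_self.1 ha
  rw [map_mul, map_star]
  exact star_mul_self_nonneg _

theorem emb_apply {k N : ℕ} (f : Fin k → Fin N) (hf : Function.Injective f) (a : Mn k A)
    (i j : Fin N) : (emb f hf a).mat i j =
      ∑ q, ∑ p, if f p = i ∧ f q = j then a.mat p q else 0 := by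
  rw [emb_mat, Matrix.mul_apply]
  refine Finset.sum_congr rfl fun q _ => ?_
  rw [Matrix.mul_apply, Finset.sum_mul]
  refine Finset.sum_congr rfl fun p _ => ?_
  rw [Matrix.conjTranspose_apply, Vf_apply, Vf_apply]
  by_cases h1 : f p = i <;> by_cases h2 : f q = j <;> simp [h1, h2]

theorem emb_apply_range {k N : ℕ} (f : Fin k → Fin N) (hf : Function.Injective f) (a : Mn k A)
    (p q : Fin k) : (emb f hf a).mat (f p) (f q) = a.mat p q := by
  rw [emb_apply, Finset.sum_eq_single q, Finset.sum_eq_single p]
  · simp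
  · intro p' _ hp'
    have : f p' ≠ f p := fun e => hp' (hf e)
    simp [this]
  · simp
  · intro q' _ hq'
    have : f q' ≠ f q := fun e => hq' (hf e)
    simp [this]
  · simp

theorem emb_apply_left {k N : ℕ} (f : Fin k → Fin N) (hf : Function.Injective f) (a : Mn k A)
    {i : Fin N} (j : Fin N) (h : ∀ p, f p ≠ i) : (emb f hf a).mat i j = 0 := by
  rw [emb_apply]
  exact Finset.sum_eq_zero fun q _ => Finset.sum_eq_zero fun p _ => by simp [h p]

theorem emb_apply_right {k N : ℕ} (f : Fin k → Fin N) (hf : Function.Injective f) (a : Mn k A)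
    (i : Fin N) {j : Fin N} (h : ∀ p, f p ≠ j) : (emb f hf a).mat i j = 0 := by
  rw [emb_apply]
  exact Finset.sum_eq_zero fun q _ => Finset.sum_eq_zero fun p _ => by simp [h q]

theorem cor_eq_emb {n m : ℕ} (h : n ≤ m) (a : Mn n A) :
    cor m a = emb (Fin.castLE h) (Fin.castLE_injective h) a := by
  refine Mn.ext ?_
  ext i j
  show corner m a.mat i j = _
  unfold corner
  by_cases hi : (i : ℕ) < n
  · by_cases hj : (j : ℕ) < n
    · have ei : i = Fin.castLE h ⟨i, hi⟩ := Fin.ext rfl
      have ej : j = Fin.castLE h ⟨j, hj⟩ := Fin.ext rfl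
      rw [dif_pos ⟨hi, hj⟩]
      conv_rhs => rw [ei, ej]
      rw [emb_apply_range]
    · rw [dif_neg (fun e => hj e.2), emb_apply_right]
      intro p e
      apply hj
      rw [← e]; exact p.2
  · rw [dif_neg (fun e => hi e.1), emb_apply_left]
    intro p e
    apply hi
    rw [← e]; exact p.2
theorem blk_eq_emb {n m : ℕ} (a : Mn n A) (b : Mn m A) :
    blk a b = emb (Fin.castAdd m) (Fin.castAdd_injective n m) a +
      emb (Fin.natAdd n) (Fin.natAdd_injective m n) b := by
  refine Mn.ext ?_
  rw [Mn.mat_add]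
  have hne : ∀ (p : Fin n) (q : Fin m), Fin.castAdd m p ≠ Fin.natAdd n q := by
    intro p q e
    have := congrArg Fin.val e
    simp at this
    omega
  ext i j
  show Matrix.reindex finSumFinEquiv finSumFinEquiv (Matrix.fromBlocks a.mat 0 0 b.mat) i j = _
  rw [Matrix.reindex_apply, Matrix.submatrix_apply, Matrix.add_apply]
  refine Fin.addCases (fun p => ?_) (fun p => ?_) i <;>
  refine Fin.addCases (fun q => ?_) (fun q => ?_) j
  · rw [emb_apply_range, emb_apply_left _ _ _ _ (fun r => (hne p r).symm)]
    simp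
  · rw [emb_apply_right _ _ _ _ (fun r => hne r q), emb_apply_left _ _ _ _ (fun r => (hne p r).symm)]
    simp
  · rw [emb_apply_left _ _ _ _ (fun r => hne r p), emb_apply_right _ _ _ _ (fun r => (hne q r).symm)]
    simp
  · rw [emb_apply_range, emb_apply_left _ _ _ _ (fun r => hne r p)]
    simp

/-- block diagonal -/
noncomputable def bd {k m : ℕ} (B : Fin m → Mn k A) : Mn (k * m) A :=
  Mn.of (Matrix.reindex finProdFinEquiv finProdFinEquiv (Matrix.blockDiagonal fun i => (B i).mat))

theorem bd_index_injective {k m : ℕ} (i : Fin m) :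
    Function.Injective fun p : Fin k => (finProdFinEquiv (p, i) : Fin (k * m)) := by
  intro p q e
  have := finProdFinEquiv.injective e
  simpa using this

theorem Mn.mat_sum {ι : Type*} (s : Finset ι) {n : ℕ} (a : ι → Mn n A) :
    (∑ i ∈ s, a i).mat = ∑ i ∈ s, (a i).mat :=
  map_sum (⟨⟨Mn.mat, rfl⟩, fun _ _ => rfl⟩ : Mn n A →+ Matrix (Fin n) (Fin n) A) a s

theorem bd_eq_sum_emb {k m : ℕ} (B : Fin m → Mn k A) :
    bd B = ∑ i, emb (fun p : Fin k => finProdFinEquiv (p, i)) (bd_index_injective i) (B i) := by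
  refine Mn.ext ?_
  rw [Mn.mat_sum]
  ext i j
  obtain ⟨⟨p, l⟩, rfl⟩ := finProdFinEquiv.surjective i
  obtain ⟨⟨q, l'⟩, rfl⟩ := finProdFinEquiv.surjective j
  show Matrix.reindex finProdFinEquiv finProdFinEquiv (Matrix.blockDiagonal fun i => (B i).mat) _ _ = _
  rw [Matrix.reindex_apply, Matrix.submatrix_apply, Matrix.sum_apply, Equiv.symm_apply_apply,
    Equiv.symm_apply_apply, Matrix.blockDiagonal_apply]
  rw [Finset.sum_eq_single l]
  · by_cases h : l = l'
    · subst h
      rw [if_pos rfl]
      exact (emb_apply_range (fun p : Fin k => finProdFinEquiv (p, l)) (bd_index_injective l)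
        (B l) p q).symm
    · rw [if_neg h, emb_apply_right]
      intro r e
      have := finProdFinEquiv.injective e
      simp at this
      exact h this.2
  · intro l0 _ hl0
    rw [emb_apply_left]
    intro r e
    have := finProdFinEquiv.injective e
    simp at this
    exact hl0 this.2
  · simp

end RC12
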