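import Pool.Agent.LibRC12.S2Defs

/-!
S2A: characters and `J0 A`. A character is a *-homomorphism (`WeakDual.instStarHomClass`, `map_star`), contractive
(`NonUnitalStarAlgHom.norm_apply_le` or `AlgHom.norm_apply_le_self`), and positive (`a = star y * y`).
char_cfc: φ(cfc f a) = cfc f (φ a) (`StarAlgHomClass.map_cfc`/`StarAlgHom.map_cfc`), φ a = algebraMap ℝ ℂ (φ a).re for a
self-adjoint, `cfc_algebraMap`. nilp_mem_J0: φ(x)² = 0.
-/

open Filter Topology WeakDual
open scoped ENNReal NNReal ComplexOrder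

set_option autoImplicit false
set_option linter.unusedSectionVars false

namespace RC12

variable {A : Type*} [CStarAlgebra A] [PartialOrder A] [StarOrderedRing A]

theorem norm_char_le (φ : characterSpace ℂ A) (a : A) : ‖φ a‖ ≤ ‖a‖ :=
  NonUnitalStarAlgHom.norm_apply_le φ a
theorem char_im {φ : characterSpace ℂ A} {a : A} (ha : IsSelfAdjoint a) : φ a = ((φ a).re : ℂ) := by
  have h : star (φ a) = φ a := by
    rw [← map_star, ha.star_eq]
  exact (Complex.conj_eq_iff_re.mp h).symm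
theorem char_nonneg (φ : characterSpace ℂ A) {a : A} (ha : 0 ≤ a) : 0 ≤ (φ a).re := by
  obtain ⟨y, rfl⟩ := CStarAlgebra.nonneg_iff_eq_star_mul_self.mp ha
  rw [map_mul, map_star, Complex.star_def, ← Complex.normSq_eq_conj_mul_self, Complex.ofReal_re]
  exact Complex.normSq_nonneg _
theorem char_cfc (φ : characterSpace ℂ A) {f : ℝ → ℝ} (hf : Continuous f) {a : A}
    (ha : IsSelfAdjoint a) : φ (cfc f a) = ((f (φ a).re : ℝ) : ℂ) := by
  have hφa : IsSelfAdjoint (φ a) := ha.map φ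
  have h1 := StarAlgHomClass.map_cfc (S := ℂ) φ f a hf.continuousOn (map_continuous φ) ha hφa
  have h2 : φ a = algebraMap ℝ ℂ ((φ a).re) := char_im ha
  rw [h1]
  conv_lhs => rw [h2]
  rw [cfc_algebraMap]
  rfl
theorem zero_mem_J0 : (0 : A) ∈ J0 A := fun φ => map_zero φ
theorem add_mem_J0 {a b : A} (ha : a ∈ J0 A) (hb : b ∈ J0 A) : a + b ∈ J0 A := by
  intro φ
  rw [map_add, ha φ, hb φ, add_zero]
theorem sub_mem_J0 {a b : A} (ha : a ∈ J0 A) (hb : b ∈ J0 A) : a - b ∈ J0 A := by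
  intro φ
  rw [map_sub, ha φ, hb φ, sub_zero]
theorem sum_mem_J0 {ι : Type*} {s : Finset ι} {a : ι → A} (h : ∀ i ∈ s, a i ∈ J0 A) :
    ∑ i ∈ s, a i ∈ J0 A := by
  intro φ
  rw [map_sum]
  exact Finset.sum_eq_zero fun i hi => h i hi φ
theorem mul_mem_J0_left (a : A) {b : A} (hb : b ∈ J0 A) : a * b ∈ J0 A := by
  intro φ
  rw [map_mul, hb φ, mul_zero]
theorem mul_mem_J0_right {a : A} (ha : a ∈ J0 A) (b : A) : a * b ∈ J0 A := by
  intro φ
  rw [map_mul, ha φ, zero_mul]
theorem star_mem_J0 {a : A} (ha : a ∈ J0 A) : star a ∈ J0 A := by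
  intro φ
  rw [map_star, ha φ, star_zero]
theorem isClosed_J0 : IsClosed (J0 A) := by
  have : J0 A = ⋂ φ : characterSpace ℂ A, {a | φ a = 0} := by
    ext a
    simp [J0]
  rw [this]
  refine isClosed_iInter fun φ => ?_
  exact isClosed_eq (map_continuous φ) continuous_const
theorem nilp_mem_J0 {x : A} (hx : x * x = 0) : x ∈ J0 A := by
  intro φ
  have h : φ x * φ x = 0 := by rw [← map_mul, hx, map_zero]
  exact mul_self_eq_zero.mp h
theorem cfc_mem_J0 {a : A} (ha : a ∈ J0 A) (hs : IsSelfAdjoint a) {f : ℝ → ℝ} (hf : Continuous f)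
    (f0 : f 0 = 0) : cfc f a ∈ J0 A := by
  intro φ
  rw [char_cfc φ hf hs, ha φ, Complex.zero_re, f0, Complex.ofReal_zero]

end RC12
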