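import Pool.Agent.LibRC12.S2Defs
import Pool.Agent.LibRC12.S0A

/-!
S2B: a maximal left ideal `M` containing all `x` with `x² = 0` contains `a - λ` for some real `λ` (`a` self-adjoint).
mem_or_mem: if w ∉ M then M + A w = ⊤ (`Ideal.IsMaximal.out.2`/`Ideal.mem_span_singleton_sup`...), 1 = m + y w, so
u = u m + u y w and (u y w)² = u y (w u) y w = 0.
exists_scalar: T₊ = {t | cfc (fun s => max (s - t) 0) a ∈ M}, T₋ = {t | cfc (fun s => max (t - s) 0) a ∈ M}. M is closed
(`Ideal.IsMaximal.isClosed`) and t ↦ cfc .. a is 1-Lipschitz (`norm_cfc_le` applied to the difference, `cfc_sub`), so T₊, T₋ are closed;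
T₊ ∪ T₋ = ℝ (mem_or_mem: the product is cfc of the zero function); T₊ ∋ ‖a‖, T₋ ∋ -‖a‖ (the cfc is 0 there, `cfc_congr`,
`spectrum.norm_le_norm_of_mem`); ℝ is connected (`isPreconnected_closed_iff`, `isPreconnected_univ`): λ in both;
a - λ = cfc (max (s-λ) 0) a - cfc (max (λ-s) 0) a.
-/

open Filter Topology WeakDual
open scoped ENNReal NNReal ComplexOrder

set_option autoImplicit false
set_option linter.unusedSectionVars false

namespace RC12

variable {A : Type*} [CStarAlgebra A] [PartialOrder A] [StarOrderedRing A]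

theorem mem_or_mem {M : Ideal A} (hM : M.IsMaximal) (hN : ∀ x : A, x * x = 0 → x ∈ M) {u w : A}
    (h : w * u = 0) : u ∈ M ∨ w ∈ M := by
  by_cases hw : w ∈ M
  · exact Or.inr hw
  left
  have htop : M ⊔ Ideal.span {w} = ⊤ := by
    refine hM.out.2 _ (lt_of_le_of_ne le_sup_left ?_)
    intro heq
    apply hw
    rw [heq]
    exact le_sup_right (a := M) (Ideal.subset_span rfl)
  have h1 : (1 : A) ∈ M ⊔ Ideal.span {w} := by rw [htop]; trivial
  obtain ⟨m, hm, z, hz, hmz⟩ := Submodule.mem_sup.1 h1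
  obtain ⟨y, rfl⟩ := Ideal.mem_span_singleton'.1 hz
  have h2 : u = u * m + u * (y * w) := by
    rw [← mul_add, hmz, mul_one]
  rw [h2]
  refine M.add_mem (M.mul_mem_left u hm) (hN _ ?_)
  calc u * (y * w) * (u * (y * w)) = u * y * (w * u) * (y * w) := by simp only [mul_assoc]
    _ = 0 := by rw [h, mul_zero, zero_mul]

private theorem S2B_lip (a : A) (σ : ℝ) :
    Continuous fun t : ℝ => cfc (fun s : ℝ => max (σ * (s - t)) 0) a := by
  have hlip : LipschitzWith ‖σ‖₊ fun t : ℝ => cfc (fun s : ℝ => max (σ * (s - t)) 0) a := by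
    refine LipschitzWith.of_dist_le_mul fun t t' => ?_
    rw [dist_eq_norm, ← cfc_sub (fun s : ℝ => max (σ * (s - t)) 0)
      (fun s : ℝ => max (σ * (s - t')) 0) a (by fun_prop) (by fun_prop)]
    refine norm_cfc_le (by positivity) fun s _ => ?_
    rw [Real.norm_eq_abs]
    refine (abs_max_sub_max_le_abs _ _ _).trans ?_
    rw [← mul_sub, abs_mul, sub_sub_sub_cancel_left, abs_sub_comm, Real.dist_eq]
    exact le_rfl
  exact hlip.continuous

theorem exists_scalar {M : Ideal A} (hM : M.IsMaximal) (hN : ∀ x : A, x * x = 0 → x ∈ M) {a : A}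
    (ha : IsSelfAdjoint a) : ∃ l : ℝ, a - algebraMap ℝ A l ∈ M := by
  rcases subsingleton_or_nontrivial A with hA | hA
  · exact ⟨0, by rw [Subsingleton.elim (a - algebraMap ℝ A 0) 0]; exact M.zero_mem⟩
  have hMc : IsClosed (M : Set A) := Ideal.IsMaximal.isClosed
  let P : ℝ → A := fun t => cfc (fun s : ℝ => max (1 * (s - t)) 0) a
  let N : ℝ → A := fun t => cfc (fun s : ℝ => max (-1 * (s - t)) 0) a
  have hP : IsClosed {t | P t ∈ M} := hMc.preimage (S2B_lip a 1)
  have hNc : IsClosed {t | N t ∈ M} := hMc.preimage (S2B_lip a (-1))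
  have hspec : ∀ s ∈ spectrum ℝ a, |s| ≤ ‖a‖ := fun s hs => by
    have h1 := spectrum.norm_le_norm_of_mem hs
    rwa [Real.norm_eq_abs] at h1
  have hcov : (Set.univ : Set ℝ) ⊆ {t | P t ∈ M} ∪ {t | N t ∈ M} := by
    intro t _
    have h0 : N t * P t = 0 := by
      show cfc _ a * cfc _ a = 0
      rw [← cfc_mul (fun s : ℝ => max (-1 * (s - t)) 0) (fun s : ℝ => max (1 * (s - t)) 0) a
        (by fun_prop) (by fun_prop)]
      have h1 : (fun s : ℝ => max (-1 * (s - t)) 0 * max (1 * (s - t)) 0) = fun _ => 0 := by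
        funext s
        rcases le_total s t with h | h
        · rw [max_eq_right (a := 1 * (s - t)) (by linarith), mul_zero]
        · rw [max_eq_right (a := -1 * (s - t)) (by linarith), zero_mul]
      rw [h1, cfc_const_zero]
    exact mem_or_mem hM hN h0
  have hPn : ({t | P t ∈ M} : Set ℝ).Nonempty := by
    refine ⟨‖a‖, ?_⟩
    show cfc (fun s : ℝ => max (1 * (s - ‖a‖)) 0) a ∈ M
    have h1 : cfc (fun s : ℝ => max (1 * (s - ‖a‖)) 0) a = cfc (fun _ : ℝ => (0 : ℝ)) a := by
      refine cfc_congr fun s hs => ?_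
      have h2 := (abs_le.1 (hspec s hs)).2
      exact max_eq_right (by linarith)
    rw [h1, cfc_const_zero]
    exact M.zero_mem
  have hNn : ({t | N t ∈ M} : Set ℝ).Nonempty := by
    refine ⟨-‖a‖, ?_⟩
    show cfc (fun s : ℝ => max (-1 * (s - -‖a‖)) 0) a ∈ M
    have h1 : cfc (fun s : ℝ => max (-1 * (s - -‖a‖)) 0) a = cfc (fun _ : ℝ => (0 : ℝ)) a := by
      refine cfc_congr fun s hs => ?_
      have h2 := (abs_le.1 (hspec s hs)).1
      exact max_eq_right (by linarith)
    rw [h1, cfc_const_zero]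
    exact M.zero_mem
  obtain ⟨l, -, hlP, hlN⟩ := (isPreconnected_closed_iff.1 (isPreconnected_univ (α := ℝ))) _ _ hP hNc
    hcov (by simpa using hPn) (by simpa using hNn)
  refine ⟨l, ?_⟩
  have h1 : a - algebraMap ℝ A l = P l - N l := by
    show _ = cfc _ a - cfc _ a
    rw [← cfc_sub (fun s : ℝ => max (1 * (s - l)) 0) (fun s : ℝ => max (-1 * (s - l)) 0) a
      (by fun_prop) (by fun_prop)]
    have h2 : (fun s : ℝ => max (1 * (s - l)) 0 - max (-1 * (s - l)) 0) = fun s => s - l := by
      funext s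
      rcases le_total s l with h | h
      · rw [max_eq_right (a := 1 * (s - l)) (by linarith),
          max_eq_left (a := -1 * (s - l)) (by linarith)]
        ring
      · rw [max_eq_right (a := -1 * (s - l)) (by linarith),
          max_eq_left (a := 1 * (s - l)) (by linarith)]
        ring
    rw [h2, cfc_sub (fun s : ℝ => s) (fun _ : ℝ => l) a (by fun_prop) (by fun_prop), cfc_id' ℝ a,
      cfc_const l a]
  rw [h1]
  exact M.sub_mem hlP hlN

end RC12
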