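import Pool.Agent.LibRC12.S2Defs

/-!
S2C: A = ℂ1 + M (M a proper left ideal) gives a character vanishing on M. Every a is self-adjoint + i·self-adjoint
(`realPart_add_I_smul_imaginaryPart`), so a - λ(a) ∈ M for a unique λ(a) ∈ ℂ (a nonzero scalar in M would be invertible). λ is
linear, and a b - λ(a)λ(b) = a (b - λ(b)) + λ(b) (a - λ(a)) ∈ M, so λ is an algebra homomorphism A →ₐ[ℂ] ℂ
(`AlgHom.ofLinearMap`), i.e. a character (`WeakDual.CharacterSpace.equivAlgHom`, `equivAlgHom_symm_coe`).
-/

open Filter Topology WeakDual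
open scoped ENNReal NNReal ComplexOrder

set_option autoImplicit false
set_option linter.unusedSectionVars false

namespace RC12

variable {A : Type*} [CStarAlgebra A] [PartialOrder A] [StarOrderedRing A]

theorem exists_char {M : Ideal A} (hM : M ≠ ⊤)
    (h : ∀ a : A, IsSelfAdjoint a → ∃ l : ℝ, a - algebraMap ℝ A l ∈ M) :
    ∃ φ : characterSpace ℂ A, ∀ a ∈ M, φ a = 0 := by
  have hR : ∀ l : ℝ, algebraMap ℝ A l = algebraMap ℂ A (l : ℂ) := fun l =>
    IsScalarTower.algebraMap_apply ℝ ℂ A l
  have h1 : ∀ a : A, ∃ z : ℂ, a - algebraMap ℂ A z ∈ M := by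
    intro a
    obtain ⟨l, hl⟩ := h _ (realPart a).2
    obtain ⟨l', hl'⟩ := h _ (imaginaryPart a).2
    refine ⟨l + Complex.I * l', ?_⟩
    have e1 : a - algebraMap ℂ A (l + Complex.I * l') =
        ((realPart a : A) - algebraMap ℝ A l) +
          algebraMap ℂ A Complex.I * ((imaginaryPart a : A) - algebraMap ℝ A l') := by
      have e2 : a = (realPart a : A) + algebraMap ℂ A Complex.I * (imaginaryPart a : A) := by
        rw [← Algebra.smul_def]
        exact (realPart_add_I_smul_imaginaryPart a).symm
      conv_lhs => rw [e2]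
      rw [hR, hR, map_add, map_mul, mul_sub]
      abel
    rw [e1]
    exact M.add_mem hl (M.mul_mem_left _ hl')
  have h2 : ∀ z : ℂ, algebraMap ℂ A z ∈ M → z = 0 := by
    intro z hz
    by_contra hz0
    apply hM
    rw [Ideal.eq_top_iff_one]
    have e1 : (1 : A) = algebraMap ℂ A z⁻¹ * algebraMap ℂ A z := by
      rw [← map_mul, inv_mul_cancel₀ hz0, map_one]
    rw [e1]
    exact M.mul_mem_left _ hz
  choose f hf using h1
  have huniq : ∀ (a : A) (z : ℂ), a - algebraMap ℂ A z ∈ M → f a = z := by
    intro a z hz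
    have e1 : algebraMap ℂ A (f a - z) = (a - algebraMap ℂ A z) - (a - algebraMap ℂ A (f a)) := by
      rw [map_sub]; abel
    have e2 := h2 (f a - z) (by rw [e1]; exact M.sub_mem hz (hf a))
    exact sub_eq_zero.1 e2
  have hcomm : ∀ (z : ℂ) (a : A), algebraMap ℂ A z * a = a * algebraMap ℂ A z := fun z a =>
    Algebra.commutes z a
  let L : A →ₗ[ℂ] ℂ :=
    { toFun := f
      map_add' := by
        intro a b
        apply huniq
        have e1 : a + b - algebraMap ℂ A (f a + f b) =
            (a - algebraMap ℂ A (f a)) + (b - algebraMap ℂ A (f b)) := by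
          rw [map_add]; abel
        rw [e1]
        exact M.add_mem (hf a) (hf b)
      map_smul' := by
        intro c a
        apply huniq
        have e1 : c • a - algebraMap ℂ A ((RingHom.id ℂ) c • f a) =
            algebraMap ℂ A c * (a - algebraMap ℂ A (f a)) := by
          rw [RingHom.id_apply, smul_eq_mul, map_mul, Algebra.smul_def, mul_sub]
        rw [e1]
        exact M.mul_mem_left _ (hf a) }
  have hL : ∀ a, L a = f a := fun a => rfl
  let Φ : A →ₐ[ℂ] ℂ := AlgHom.ofLinearMap L
    (by
      rw [hL]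
      apply huniq
      rw [map_one, sub_self]
      exact M.zero_mem)
    (by
      intro a b
      rw [hL, hL, hL]
      apply huniq
      have e1 : a * b - algebraMap ℂ A (f a * f b) =
          a * (b - algebraMap ℂ A (f b)) + algebraMap ℂ A (f b) * (a - algebraMap ℂ A (f a)) := by
        rw [map_mul, mul_sub, mul_sub, hcomm (f b) a, hcomm (f b) (algebraMap ℂ A (f a))]
        abel
      rw [e1]
      exact M.add_mem (M.mul_mem_left _ (hf b)) (M.mul_mem_left _ (hf a)))
  refine ⟨WeakDual.CharacterSpace.equivAlgHom.symm Φ, fun a ha => ?_⟩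
  have e1 : (WeakDual.CharacterSpace.equivAlgHom.symm Φ) a = Φ a := by
    rw [WeakDual.CharacterSpace.equivAlgHom_symm_coe]
  rw [e1]
  change f a = 0
  apply huniq
  rw [map_zero, sub_zero]
  exact ha

end RC12
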