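import Pool.Agent.LibRC12.S2A
import Pool.Agent.LibRC12.S2B
import Pool.Agent.LibRC12.S2C

/-!
S2D (2.1): if c ≥ 0 and φ(c) < η for all characters then (c-η)_+ is in the left ideal Nil A. Put p = cut η c, q = cfc (max (η - s) 0) c;
q p = 0. L = Nil A ⊔ Ideal.span {q}. If L = ⊤ then 1 = j + y q, p = j p + y q p = j p ∈ Nil A (mul_mem_Nil_right). Otherwise
L ≤ M maximal (`Ideal.exists_le_maximal`), M contains all x with x² = 0 (x = x * 1), `exists_scalar`, `exists_char`: φ(q) = 0, so
max (η - φ c) 0 = 0 (`char_cfc`), contradiction. mul_mem_Nil_right: `Submodule.span_induction`.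
-/

open Filter Topology WeakDual
open scoped ENNReal NNReal ComplexOrder

set_option autoImplicit false
set_option linter.unusedSectionVars false

namespace RC12

variable {A : Type*} [CStarAlgebra A] [PartialOrder A] [StarOrderedRing A]

theorem nilp_mem_Nil {x : A} (hx : x * x = 0) : x ∈ Nil A :=
  Ideal.subset_span ⟨x, 1, hx, (mul_one x).symm⟩

theorem mul_mem_Nil_right {j : A} (hj : j ∈ Nil A) (z : A) : j * z ∈ Nil A := by
  unfold Nil at hj
  induction hj using Submodule.span_induction with
  | mem w hw =>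
    obtain ⟨x, y, hx, rfl⟩ := hw
    exact Ideal.subset_span ⟨x, y * z, hx, mul_assoc x y z⟩
  | zero => rw [zero_mul]; exact (Nil A).zero_mem
  | add x y _ _ hx hy => rw [add_mul]; exact (Nil A).add_mem hx hy
  | smul c x _ hx =>
    rw [smul_eq_mul, mul_assoc]
    exact (Nil A).mul_mem_left c hx

theorem cut_mem_Nil {c : A} (hc : 0 ≤ c) {η : ℝ}
    (h : ∀ φ : characterSpace ℂ A, (φ c).re < η) : cut η c ∈ Nil A := by
  have hsa : IsSelfAdjoint c := IsSelfAdjoint.of_nonneg hc
  set q : A := cfc (fun s : ℝ => max (η - s) 0) c with hq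
  have hqp : q * cut η c = 0 := by
    rw [hq]
    unfold cut
    rw [← cfc_mul (fun s : ℝ => max (η - s) 0) (fun s : ℝ => max (s - η) 0) c
      (by fun_prop) (by fun_prop)]
    have h1 : (fun s : ℝ => max (η - s) 0 * max (s - η) 0) = fun _ => 0 := by
      funext s
      rcases le_total s η with h | h
      · rw [max_eq_right (a := s - η) (by linarith), mul_zero]
      · rw [max_eq_right (a := η - s) (by linarith), zero_mul]
    rw [h1, cfc_const_zero]
  by_cases hL : Nil A ⊔ Ideal.span {q} = ⊤
  · have h1 : (1 : A) ∈ Nil A ⊔ Ideal.span {q} := by rw [hL]; trivial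
    obtain ⟨j, hj, z, hz, hjz⟩ := Submodule.mem_sup.1 h1
    obtain ⟨y, rfl⟩ := Ideal.mem_span_singleton'.1 hz
    have h2 : cut η c = j * cut η c := by
      conv_lhs => rw [← one_mul (cut η c), ← hjz]
      rw [add_mul, mul_assoc, hqp, mul_zero, add_zero]
    rw [h2]
    exact mul_mem_Nil_right hj _
  · exfalso
    obtain ⟨M, hM, hLM⟩ := Ideal.exists_le_maximal _ hL
    have hN : ∀ x : A, x * x = 0 → x ∈ M := fun x hx => hLM (le_sup_left (a := Nil A)
      (nilp_mem_Nil hx))
    obtain ⟨φ, hφ⟩ := exists_char hM.ne_top fun a ha => exists_scalar hM hN ha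
    have hqM : q ∈ M := hLM (le_sup_right (a := Nil A) (Ideal.subset_span rfl))
    have h1 := hφ q hqM
    rw [hq, char_cfc φ (by fun_prop) hsa] at h1
    have h2 : max (η - (φ c).re) 0 = 0 := by exact_mod_cast h1
    have h3 := h φ
    have h4 := le_max_left (η - (φ c).re) 0
    linarith

end RC12
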