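import Pool.Agent.LibRC12.Core

/-!
S2Defs (helper48): definitions for section 2.
-/

open Filter Topology WeakDual
open scoped ENNReal NNReal ComplexOrder

set_option autoImplicit false
set_option linter.unusedSectionVars false

namespace RC12

variable {A : Type*} [CStarAlgebra A] [PartialOrder A] [StarOrderedRing A]

/-- small elements: positive, killed by all characters, of dimension at most `1/2` for all
quasitraces -/
def Sm (c : A) : Prop :=
  0 ≤ c ∧ c ∈ J0 A ∧ ∀ τ : QuasiTrace A, τ.dq (Mn.of (fun _ _ => c) : Mn 1 A) ≤ 1 / 2

/-- `star s * s` is dominated by a finite sum of small elements -/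
def Dom (s : A) : Prop := ∃ (k : ℕ) (q : Fin k → A), (∀ i, Sm (q i)) ∧ star s * s ≤ ∑ i, q i

variable (A) in
/-- the (algebraic) left ideal generated by all `x * z`, `x² = 0` -/
def Nil : Ideal A := Ideal.span {w | ∃ x z : A, x * x = 0 ∧ w = x * z}

end RC12
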