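import Pool.Agent.LibRC12.S2A
import Pool.Agent.LibRC12.S1L
import Pool.Agent.LibRC12.S1M

/-!
S2E: small elements. The map c ↦ (c) : A → Mn 1 A is a *-homomorphism (build it as `A →⋆ₐ[ℂ] Mn 1 A`; it is contractive and
order preserving, x ↦ Mn.of (fun _ _ => x)); so `Cu a b` in A gives `Cu (Mn.of ..a) (Mn.of ..b)` (`Cu_map`, with
`(f : A →⋆ₙₐ[ℂ] Mn 1 A)`), and `dq_mono`. Sm_conj: `Cu_conj`, conjugates are positive (`star_left_conjugate_nonneg`),
J0 is an ideal (S2A). Sm_smul: r • c = star x * c * x, x = √r • 1. Sm_nilp: `dq_half`, `nilp_mem_J0`.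
-/

open Filter Topology WeakDual
open scoped ENNReal NNReal ComplexOrder

set_option autoImplicit false
set_option linter.unusedSectionVars false

namespace RC12

variable {A : Type*} [CStarAlgebra A] [PartialOrder A] [StarOrderedRing A]

/-- the embedding of `A` as the `1 × 1` matrices -/
private noncomputable def S2E_f : A →⋆ₙₐ[ℂ] Mn 1 A where
  toFun x := Mn.of (fun _ _ => x)
  map_smul' c x := rfl
  map_zero' := rfl
  map_add' x y := rfl
  map_mul' x y := by
    refine Mn.ext ?_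
    ext i j
    simp [Matrix.mul_apply]
  map_star' x := rfl

private theorem S2E_f_apply (x : A) : S2E_f x = (Mn.of (fun _ _ => x) : Mn 1 A) := rfl

theorem of_nonneg {c : A} (hc : 0 ≤ c) : 0 ≤ (Mn.of (fun _ _ => c) : Mn 1 A) := by
  obtain ⟨b, rfl⟩ := CStarAlgebra.nonneg_iff_eq_star_mul_self.1 hc
  rw [← S2E_f_apply, map_mul, map_star]
  exact star_mul_self_nonneg _

theorem Sm_of_Cu {a b : A} (ha : 0 ≤ a) (hJ : a ∈ J0 A) (h : Cu a b) (hb : Sm b) : Sm a := by
  refine ⟨ha, hJ, fun τ => ?_⟩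
  refine le_trans (dq_mono τ (of_nonneg ha) (of_nonneg hb.1) ?_) (hb.2.2 τ)
  rw [← S2E_f_apply, ← S2E_f_apply]
  exact Cu_map S2E_f h

theorem Sm_conj {c : A} (hc : Sm c) (x : A) : Sm (star x * c * x) :=
  Sm_of_Cu (star_left_conjugate_nonneg hc.1 x) (mul_mem_J0_right (mul_mem_J0_left _ hc.2.1) _)
    (Cu_conj x c) hc

theorem Sm_smul {c : A} (hc : Sm c) {r : ℝ} (hr : 0 ≤ r) : Sm (r • c) := by
  have h : r • c = star (Real.sqrt r • (1 : A)) * c * (Real.sqrt r • (1 : A)) := by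
    rw [star_smul, star_one, star_trivial, smul_mul_assoc, one_mul, mul_smul_comm, mul_one, smul_smul,
      Real.mul_self_sqrt hr]
  rw [h]
  exact Sm_conj hc _

theorem Sm_nilp {x : A} (hx : x * x = 0) : Sm (star x * x) :=
  ⟨star_mul_self_nonneg x, mul_mem_J0_left _ (nilp_mem_J0 hx), fun τ => dq_half τ x hx⟩

end RC12
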