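import Pool.Agent.LibRC12.S2E
import Pool.Agent.LibRC12.S2D

/-!
S2F: Dom s for every s in the left ideal Nil A (`Submodule.span_induction`: the generators x z (x² = 0): star (x z) * (x z) =
star z * (star x * x) * z is small; sums: star (s+t) * (s+t) ≤ 2 star s * s + 2 star t * t (as star (s-t) * (s-t) ≥ 0), `Fin.append`/
`Fin.sum_univ_add` and `Sm_smul`; left multiples: star (y s) * (y s) = star s * (star y * y) * s ≤ ‖y‖² star s * s
(`CStarAlgebra.star_mul_le_algebraMap_norm_sq`/`star_left_conjugate_le_norm_smul`)).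
-/

open Filter Topology WeakDual
open scoped ENNReal NNReal ComplexOrder

set_option autoImplicit false
set_option linter.unusedSectionVars false

namespace RC12

variable {A : Type*} [CStarAlgebra A] [PartialOrder A] [StarOrderedRing A]

theorem Dom_zero : Dom (0 : A) := by
  refine ⟨0, Fin.elim0, fun i => i.elim0, ?_⟩
  simp

theorem Dom_gen {x : A} (hx : x * x = 0) (z : A) : Dom (x * z) := by
  refine ⟨1, fun _ => star z * (star x * x) * z, fun _ => Sm_conj (Sm_nilp hx) z, ?_⟩
  rw [Fin.sum_univ_one, star_mul]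
  apply le_of_eq
  simp only [mul_assoc]

theorem Dom_add {s t : A} (hs : Dom s) (ht : Dom t) : Dom (s + t) := by
  obtain ⟨k, q, hq, hsq⟩ := hs
  obtain ⟨l, r, hr, htr⟩ := ht
  refine ⟨k + l, Fin.append (fun i => (2 : ℝ) • q i) (fun i => (2 : ℝ) • r i), ?_, ?_⟩
  · intro i
    refine Fin.addCases (fun i => ?_) (fun i => ?_) i
    · rw [Fin.append_left]
      exact Sm_smul (hq i) (by norm_num)
    · rw [Fin.append_right]
      exact Sm_smul (hr i) (by norm_num)
  · rw [Fin.sum_univ_add]
    simp only [Fin.append_left, Fin.append_right]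
    rw [← Finset.smul_sum, ← Finset.smul_sum]
    have h1 : star (s + t) * (s + t) + star (s - t) * (s - t) =
        (2 : ℝ) • (star s * s) + (2 : ℝ) • (star t * t) := by
      rw [star_add, star_sub, two_smul, two_smul]
      noncomm_ring
    have h2 : star (s + t) * (s + t) ≤ (2 : ℝ) • (star s * s) + (2 : ℝ) • (star t * t) := by
      rw [← h1]
      exact le_add_of_nonneg_right (star_mul_self_nonneg _)
    refine h2.trans (add_le_add ?_ ?_)
    · exact smul_le_smul_of_nonneg_left hsq (by norm_num)
    · exact smul_le_smul_of_nonneg_left htr (by norm_num)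

theorem Dom_mul_left {s : A} (y : A) (hs : Dom s) : Dom (y * s) := by
  obtain ⟨k, q, hq, hsq⟩ := hs
  refine ⟨k, fun i => (‖y‖ ^ 2) • q i, fun i => Sm_smul (hq i) (by positivity), ?_⟩
  rw [← Finset.smul_sum]
  have h1 : star y * y ≤ algebraMap ℝ A (‖y‖ ^ 2) :=
    CStarAlgebra.star_mul_le_algebraMap_norm_sq
  have h2 := star_left_conjugate_le_conjugate h1 s
  have h3 : star s * algebraMap ℝ A (‖y‖ ^ 2) * s = (‖y‖ ^ 2) • (star s * s) := by
    rw [← Algebra.commutes, mul_assoc, Algebra.smul_def]
  rw [h3] at h2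
  have h4 : star (y * s) * (y * s) = star s * (star y * y) * s := by
    rw [star_mul]
    simp only [mul_assoc]
  rw [h4]
  exact h2.trans (smul_le_smul_of_nonneg_left hsq (by positivity))

theorem Dom_of_mem_Nil {s : A} (hs : s ∈ Nil A) : Dom s := by
  unfold Nil at hs
  induction hs using Submodule.span_induction with
  | mem w hw =>
    obtain ⟨x, z, hx, rfl⟩ := hw
    exact Dom_gen hx z
  | zero => exact Dom_zero
  | add s t _ _ hs ht => exact Dom_add hs ht
  | smul y s _ hs => exact Dom_mul_left y hs

end RC12
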