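import Pool.Agent.LibRC12.S2F

/-!
S2G (2.2) pieces. c ≥ 0 in J0, η > 0. Let r = √c = cfc Real.sqrt c (≥ 0, r*r = c, in J0 by `cfc_mem_J0`, so φ(r) = 0), s = cut η' r ∈ Nil A
(`cut_mem_Nil`), so s*s ≤ Q = ∑ q_l (q_l small) by `Dom_of_mem_Nil` (s is self-adjoint). With κ > 0 and h = cfc (fun t => 1/√(max t 0 + κ)) Q:
p_l = s h q_l h s = star (h s) * q_l * (h s) is small (`Sm_conj`), and s*s - ∑ p_l = s (1 - h Q h) s = κ s (h h) s, whose norm is
κ ‖(h s)* (h s)‖ = κ ‖(h s)(h s)*‖ = κ ‖h (s*s) h‖ ≤ κ ‖h Q h‖ ≤ κ (`CStarRing.norm_star_mul_self`,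
`CStarRing.norm_self_mul_star`, `CStarAlgebra.norm_le_norm_of_nonneg_of_le`; h Q h = cfc (t/(t+κ)) Q ≤ 1).
‖c - s*s‖ ≤ 2 η' ‖r‖ (or: = ‖r (r - s) + (r - s) s‖ ≤ η' (‖r‖ + ‖s‖), `norm_cut_sub_le`).
-/

open Filter Topology WeakDual
open scoped ENNReal NNReal ComplexOrder

set_option autoImplicit false
set_option linter.unusedSectionVars false

namespace RC12

variable {A : Type*} [CStarAlgebra A] [PartialOrder A] [StarOrderedRing A]

/-- the second half: `s*s ≤ ∑ q_l` gives small pieces with sum near `s*s` -/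
theorem pieces_of_dom {s : A} (hs : IsSelfAdjoint s) {k : ℕ} {q : Fin k → A} (hq : ∀ i, Sm (q i))
    (h : s * s ≤ ∑ i, q i) {κ : ℝ} (hκ : 0 < κ) :
    ∃ p : Fin k → A, (∀ i, Sm (p i)) ∧ ‖s * s - ∑ i, p i‖ ≤ κ := by
  set Q : A := ∑ i, q i with hQdef
  have hQ : 0 ≤ Q := Finset.sum_nonneg fun i _ => (hq i).1
  have hQs : IsSelfAdjoint Q := IsSelfAdjoint.of_nonneg hQ
  let g : ℝ → ℝ := fun t => 1 / √(max t 0 + κ)
  have hpos : ∀ t : ℝ, 0 < √(max t 0 + κ) := fun t =>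
    Real.sqrt_pos.2 (by have := le_max_right t 0; linarith)
  have hg : Continuous g := by
    refine continuous_const.div (by fun_prop) fun t => (hpos t).ne'
  have hgg : ∀ t : ℝ, 0 ≤ t → g t * g t = 1 / (t + κ) := by
    intro t ht
    show 1 / √(max t 0 + κ) * (1 / √(max t 0 + κ)) = _
    rw [div_mul_div_comm, one_mul, Real.mul_self_sqrt (by
      have := le_max_right t 0; linarith), max_eq_left ht]
  set w : A := cfc g Q with hw
  have hws : IsSelfAdjoint w := by rw [hw]; exact IsSelfAdjoint.cfc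
  have h1 : w * Q * w = cfc (fun t => g t * t * g t) Q := by
    rw [hw]
    conv_lhs => rw [show Q = cfc (fun t : ℝ => t) Q from (cfc_id' ℝ Q).symm]
    rw [cfc_id' ℝ Q, cfc_mul (fun t => g t * t) g Q (by fun_prop) (by fun_prop),
      cfc_mul g (fun t => t) Q (by fun_prop) (by fun_prop), cfc_id' ℝ Q]
  have h2 : w * w = cfc (fun t => g t * g t) Q := by
    rw [hw, cfc_mul g g Q (by fun_prop) (by fun_prop)]
  have h3 : w * Q * w + κ • (w * w) = 1 := by
    rw [h1, h2, ← cfc_const_mul κ (fun t => g t * g t) Q (by fun_prop),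
      ← cfc_add Q (fun t => g t * t * g t) (fun t => κ * (g t * g t)) (by fun_prop) (by fun_prop)]
    have h4 : cfc (fun t : ℝ => g t * t * g t + κ * (g t * g t)) Q = cfc (fun _ : ℝ => (1 : ℝ)) Q := by
      refine cfc_congr_nonneg hQ fun t ht _ => ?_
      have h5 : g t * t * g t + κ * (g t * g t) = (t + κ) * (g t * g t) := by ring
      rw [h5, hgg t ht, mul_one_div, div_self (by linarith)]
    rw [h4, cfc_const_one ℝ Q]
  have h4 : ‖w * Q * w‖ ≤ 1 := by
    rw [h1]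
    refine norm_cfc_le_nonneg hQ zero_le_one fun t ht _ => ?_
    have h5 : g t * t * g t = t * (g t * g t) := by ring
    rw [h5, hgg t ht, mul_one_div, abs_of_nonneg (by positivity), div_le_one (by linarith)]
    linarith
  refine ⟨fun i => star (w * s) * q i * (w * s), fun i => Sm_conj (hq i) _, ?_⟩
  have h5 : ∑ i, star (w * s) * q i * (w * s) = s * (w * Q * w) * s := by
    rw [← Finset.sum_mul, ← Finset.mul_sum, ← hQdef, star_mul, hs.star_eq, hws.star_eq]
    simp only [mul_assoc]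
  have h6 : s * s - ∑ i, star (w * s) * q i * (w * s) = κ • (star (w * s) * (w * s)) := by
    rw [h5]
    have h7 : w * Q * w = 1 - κ • (w * w) := by rw [← h3]; abel
    rw [h7, star_mul, hs.star_eq, hws.star_eq, mul_sub, mul_one, sub_mul, sub_sub_cancel,
      mul_smul_comm, smul_mul_assoc]
    simp only [mul_assoc]
  rw [h6, norm_smul, Real.norm_eq_abs, abs_of_pos hκ]
  have h8 : ‖star (w * s) * (w * s)‖ ≤ 1 := by
    rw [CStarRing.norm_star_mul_self, ← CStarRing.norm_self_mul_star]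
    refine le_trans ?_ h4
    have h9 : w * s * star (w * s) = w * (s * s) * w := by
      rw [star_mul, hs.star_eq, hws.star_eq]
      simp only [mul_assoc]
    refine CStarAlgebra.norm_le_norm_of_nonneg_of_le (mul_star_self_nonneg _) ?_
    rw [h9]
    have h10 := star_left_conjugate_le_conjugate h w
    rwa [hws.star_eq] at h10
  calc κ * ‖star (w * s) * (w * s)‖ ≤ κ * 1 := mul_le_mul_of_nonneg_left h8 hκ.le
    _ = κ := mul_one κ
theorem pieces_Sm {c : A} (hc : 0 ≤ c) (h : c ∈ J0 A) {η : ℝ} (hη : 0 < η) :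
    ∃ (k : ℕ) (p : Fin k → A), (∀ i, Sm (p i)) ∧ ‖c - ∑ i, p i‖ ≤ η := by
  set r : A := cfc Real.sqrt c with hr
  have hr0 : 0 ≤ r := cfc_sqrt_nonneg c
  have hrr : r * r = c := cfc_sqrt_mul_self hc
  have hrJ : r ∈ J0 A :=
    cfc_mem_J0 h (IsSelfAdjoint.of_nonneg hc) Real.continuous_sqrt Real.sqrt_zero
  set η' : ℝ := η / (4 * (‖r‖ + 1)) with hη'
  have hη'0 : 0 < η' := by positivity
  set s : A := cut η' r with hs
  have hs0 : 0 ≤ s := cut_nonneg _ _
  have hsN : s ∈ Nil A := by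
    refine cut_mem_Nil hr0 fun φ => ?_
    have : φ r = 0 := hrJ φ
    rw [this]
    simpa using hη'0
  obtain ⟨k, q, hq, hle⟩ := Dom_of_mem_Nil hsN
  rw [(IsSelfAdjoint.of_nonneg hs0).star_eq] at hle
  obtain ⟨p, hp, hpn⟩ := pieces_of_dom (IsSelfAdjoint.of_nonneg hs0) hq hle
    (κ := η / 2) (by positivity)
  refine ⟨k, p, hp, ?_⟩
  have h1 : ‖s - r‖ ≤ η' := norm_cut_sub_le hη'0.le hr0
  have h1' : ‖r - s‖ ≤ η' := by rw [norm_sub_rev]; exact h1
  have h2 : ‖s‖ ≤ ‖r‖ :=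
    CStarAlgebra.norm_le_norm_of_nonneg_of_le hs0 (cut_le_self hη'0.le hr0)
  have h3 : c - s * s = r * (r - s) + (r - s) * s := by
    rw [← hrr]; noncomm_ring
  have h4 : ‖c - s * s‖ ≤ η / 2 := by
    rw [h3]
    calc ‖r * (r - s) + (r - s) * s‖ ≤ ‖r‖ * ‖r - s‖ + ‖r - s‖ * ‖s‖ :=
          (norm_add_le _ _).trans (add_le_add (norm_mul_le _ _) (norm_mul_le _ _))
      _ ≤ ‖r‖ * η' + η' * ‖r‖ := by
          gcongr
      _ ≤ η / 2 := by
          have h5 : η' * (4 * (‖r‖ + 1)) = η := by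
            rw [hη']; field_simp
          nlinarith [norm_nonneg r]
  calc ‖c - ∑ i, p i‖ = ‖(c - s * s) + (s * s - ∑ i, p i)‖ := by congr 1; abel
    _ ≤ η / 2 + η / 2 := (norm_add_le _ _).trans (add_le_add h4 hpn)
    _ = η := by ring

end RC12
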