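import Pool.Agent.LibRC12.S2A
import Pool.Agent.LibRC12.S0A

/-!
S2H (2.3): for finitely many c_i ∈ J0 there is e ∈ J0, 0 ≤ e ≤ 1, with ‖c_i (1-e)‖ ≤ κ: let H = ∑ star c_i * c_i, e = cfc (fun t => t/(max t 0 + δ))-like function
of H (use |t| to make it continuous: t ↦ |t|/(|t|+δ)), e ∈ J0 by `cfc_mem_J0`. ‖c_i(1-e)‖² = ‖(1-e) c_i* c_i (1-e)‖ ≤ ‖(1-e) H (1-e)‖
= ‖cfc (t (δ/(t+δ))²) H‖ ≤ δ (indeed ≤ δ/4), by `norm_cfc_le_nonneg`; take δ = κ².
-/

open Filter Topology WeakDual
open scoped ENNReal NNReal ComplexOrder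

set_option autoImplicit false
set_option linter.unusedSectionVars false

namespace RC12

variable {A : Type*} [CStarAlgebra A] [PartialOrder A] [StarOrderedRing A]

theorem exists_unit {ι : Type*} [Fintype ι] (c : ι → A) (hc : ∀ i, c i ∈ J0 A) {κ : ℝ}
    (hκ : 0 < κ) : ∃ e : A, 0 ≤ e ∧ e ≤ 1 ∧ e ∈ J0 A ∧ ∀ i, ‖c i * (1 - e)‖ ≤ κ := by
  classical
  set δ : ℝ := κ ^ 2 with hδdef
  have hδ : 0 < δ := by positivity
  set H : A := ∑ i, star (c i) * c i with hH
  have hH0 : 0 ≤ H := Finset.sum_nonneg fun i _ => star_mul_self_nonneg _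
  have hHs : IsSelfAdjoint H := IsSelfAdjoint.of_nonneg hH0
  have hHJ : H ∈ J0 A := sum_mem_J0 fun i _ => mul_mem_J0_left _ (hc i)
  have hden : ∀ t : ℝ, |t| + δ ≠ 0 := fun t => by positivity
  have hfc : Continuous fun t : ℝ => |t| / (|t| + δ) :=
    continuous_abs.div (continuous_abs.add continuous_const) hden
  set e : A := cfc (fun t : ℝ => |t| / (|t| + δ)) H with he
  have he0 : 0 ≤ e := cfc_nonneg fun t _ => by positivity
  have he1 : e ≤ 1 := by
    refine cfc_le_one (fun t : ℝ => |t| / (|t| + δ)) H fun t _ => ?_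
    rw [div_le_one (by positivity)]
    linarith
  refine ⟨e, he0, he1, cfc_mem_J0 hHJ hHs hfc (by simp), fun i => ?_⟩
  have hgc : Continuous fun t : ℝ => δ / (|t| + δ) :=
    continuous_const.div (continuous_abs.add continuous_const) hden
  have h1e : 1 - e = cfc (fun t : ℝ => δ / (|t| + δ)) H := by
    have h1 : (1 : A) = cfc (fun _ : ℝ => (1 : ℝ)) H := (cfc_const_one ℝ H).symm
    rw [he]
    conv_lhs => rw [h1]
    rw [← cfc_sub (fun _ : ℝ => (1 : ℝ)) _ H continuousOn_const hfc.continuousOn]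
    refine cfc_congr fun t _ => ?_
    have := hden t
    field_simp
    ring
  have hsa : IsSelfAdjoint (1 - e) := by
    rw [h1e]; exact cfc_predicate _ H
  have hle : star (c i * (1 - e)) * (c i * (1 - e)) ≤ (1 - e) * H * (1 - e) := by
    have h2 : star (c i) * c i ≤ H := by
      rw [hH]
      exact Finset.single_le_sum (f := fun i => star (c i) * c i)
        (fun j _ => star_mul_self_nonneg _) (Finset.mem_univ i)
    have h3 := star_left_conjugate_le_conjugate h2 (1 - e)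
    rw [hsa.star_eq] at h3
    calc star (c i * (1 - e)) * (c i * (1 - e))
        = (1 - e) * (star (c i) * c i) * (1 - e) := by
          rw [star_mul, hsa.star_eq]; noncomm_ring
      _ ≤ _ := h3
  have hn : ‖(1 - e) * H * (1 - e)‖ ≤ δ := by
    have h4 : (1 - e) * H * (1 - e)
        = cfc (fun t : ℝ => δ / (|t| + δ) * t * (δ / (|t| + δ))) H := by
      rw [h1e]
      conv_lhs => enter [1, 2]; rw [← cfc_id' ℝ H]
      rw [← cfc_mul (fun t : ℝ => δ / (|t| + δ)) (fun t : ℝ => t) H hgc.continuousOn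
        continuousOn_id, ← cfc_mul (fun t : ℝ => δ / (|t| + δ) * t) (fun t : ℝ => δ / (|t| + δ)) H
        (hgc.mul continuous_id).continuousOn hgc.continuousOn]
    rw [h4]
    refine norm_cfc_le_nonneg hH0 hδ.le fun s hs _ => ?_
    rw [abs_of_nonneg hs, abs_of_nonneg (by positivity)]
    have h5 : 0 < s + δ := by positivity
    rw [div_mul_eq_mul_div, div_mul_div_comm, div_le_iff₀ (by positivity)]
    nlinarith [mul_nonneg hs hs, mul_nonneg hs hδ.le, mul_pos hδ hδ,
      mul_nonneg (mul_nonneg hs hs) hδ.le, mul_nonneg hs (mul_pos hδ hδ).le, mul_pos (mul_pos hδ hδ) hδ]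
  have h6 : ‖c i * (1 - e)‖ ^ 2 ≤ κ ^ 2 := by
    rw [← hδdef, pow_two, ← CStarRing.norm_star_mul_self]
    exact (CStarAlgebra.norm_le_norm_of_nonneg_of_le (star_mul_self_nonneg _) hle).trans hn
  exact (pow_le_pow_iff_left₀ (norm_nonneg _) hκ.le (by norm_num)).1 h6

end RC12
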