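import Pool.Agent.LibRC12.S2E
import Pool.Agent.LibRC12.S1J

/-!
S2J: c ⊗ e_jj for a small c. With B = cor n (Mn.of (fun _ _ => c) : Mn 1 A) = Mn.of (single j0 j0 c) (j0 = ⟨0, _⟩), v = Mn.of (single j0 j 1):
star v * B * v = Mn.of (single j j c). `Cu_conj`, `dq_mono`, `dq_cor` (1 ≤ n because of j : Fin n).
-/

open Filter Topology WeakDual
open scoped ENNReal NNReal ComplexOrder

set_option autoImplicit false
set_option linter.unusedSectionVars false

namespace RC12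

variable {A : Type*} [CStarAlgebra A] [PartialOrder A] [StarOrderedRing A]

private theorem S2J_nonneg {c : A} (hc : 0 ≤ c) {n : ℕ} (j : Fin n) :
    0 ≤ Mn.of (Matrix.single j j c) := by
  have h1 : Mn.of (Matrix.single j j c) =
      star (Mn.of (Matrix.single j j (CFC.sqrt c))) * Mn.of (Matrix.single j j (CFC.sqrt c)) := by
    refine Mn.ext ?_
    rw [Mn.mat_mul, Mn.mat_star, Mn.mat_of, Mn.mat_of, Matrix.star_eq_conjTranspose,
      Matrix.conjTranspose_single, Matrix.single_mul_single_same,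
      (IsSelfAdjoint.of_nonneg (CFC.sqrt_nonneg c)).star_eq, CFC.sqrt_mul_sqrt_self c hc]
  rw [h1]
  exact star_mul_self_nonneg _

private theorem S2J_cor (c : A) {n : ℕ} (h0 : 0 < n) :
    cor n (Mn.of (fun _ _ => c) : Mn 1 A) = Mn.of (Matrix.single ⟨0, h0⟩ ⟨0, h0⟩ c) := by
  refine Mn.ext ?_
  ext i j
  change corner n (fun _ _ => c : Matrix (Fin 1) (Fin 1) A) i j = _
  unfold corner
  rw [Mn.mat_of, Matrix.single_apply]
  by_cases h : (i : ℕ) < 1 ∧ (j : ℕ) < 1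
  · rw [dif_pos h, if_pos]
    constructor <;> (apply Fin.ext; simp only; omega)
  · rw [dif_neg h, if_neg]
    rintro ⟨h1, h2⟩
    apply h
    rw [← h1, ← h2]
    simp

theorem Sm_single {c : A} (hc : Sm c) {n : ℕ} (j : Fin n) :
    0 ≤ Mn.of (Matrix.single j j c) ∧ (∀ s t, (Mn.of (Matrix.single j j c)).mat s t ∈ J0 A) ∧
      ∀ τ : QuasiTrace A, τ.dq (Mn.of (Matrix.single j j c)) ≤ 1 / 2 := by
  obtain ⟨hc0, hcJ, hcτ⟩ := hc
  have h0 : 0 < n := j.pos
  refine ⟨S2J_nonneg hc0 j, ?_, ?_⟩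
  · intro s t
    rw [Mn.mat_of, Matrix.single_apply]
    split_ifs
    · exact hcJ
    · exact zero_mem_J0
  · intro τ
    have h1 : star (Mn.of (Matrix.single ⟨0, h0⟩ j (1 : A))) *
        Mn.of (Matrix.single ⟨0, h0⟩ ⟨0, h0⟩ c) * Mn.of (Matrix.single ⟨0, h0⟩ j (1 : A)) =
        Mn.of (Matrix.single j j c) := by
      refine Mn.ext ?_
      rw [Mn.mat_mul, Mn.mat_mul, Mn.mat_star, Mn.mat_of, Mn.mat_of, Mn.mat_of,
        Matrix.star_eq_conjTranspose, Matrix.conjTranspose_single, Matrix.single_mul_single_same,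
        Matrix.single_mul_single_same, star_one, one_mul, mul_one]
    have h2 := Cu_conj (Mn.of (Matrix.single ⟨0, h0⟩ j (1 : A)))
      (Mn.of (Matrix.single ⟨0, h0⟩ ⟨0, h0⟩ c) : Mn n A)
    rw [h1] at h2
    have h3 := dq_mono τ (S2J_nonneg hc0 j) (S2J_nonneg hc0 ⟨0, h0⟩) h2
    rw [← S2J_cor c h0, dq_cor τ h0 (of_nonneg hc0)] at h3
    exact h3.trans (hcτ τ)

end RC12
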