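import Pool.Agent.LibRC12.S2G
import Pool.Agent.LibRC12.S2H
import Pool.Agent.LibRC12.S2I
import Pool.Agent.LibRC12.S2J

/-!
S2K pieces_mat. If n = 0 or S = ∅: trivial (`Mn 0 A` is trivial). Finite net T ⊆ S with every c ∈ S within η₁ of some t ∈ T (`hS.finite_cover_balls`);
e from `exists_unit` for all entries of all t ∈ T (index set T × Fin n × Fin n) with κ; p_l (l < k) from `pieces_Sm` for e:
‖e - ∑ p_l‖ ≤ κ. P_(l,j) = Mn.of (single j j (p_l)), indexed by Fin (k * n) (`finProdFinEquiv`); 1 - ∑ P = diag(1 - ∑ p_l), so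
(c (1 - ∑ P)) s t = c s t * (1 - ∑ p_l), of norm ≤ ‖c s t - c' s t‖ ‖1 - ∑ p_l‖ + ‖c' s t (1 - e)‖ + ‖c' s t‖ ‖e - ∑ p_l‖ ≤
η₁ (1 + κ) + κ + R κ, R a bound for the norms on S; sum over n² entries (`Mn.norm_le_sum`). NOTE ‖1 - e‖ ≤ 1 as 0 ≤ e ≤ 1
(`CStarAlgebra.norm_le_one_iff_of_nonneg`).
-/

open Filter Topology WeakDual
open scoped ENNReal NNReal ComplexOrder

set_option autoImplicit false
set_option linter.unusedSectionVars false

namespace RC12

variable {A : Type*} [CStarAlgebra A] [PartialOrder A] [StarOrderedRing A]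

/-- `Mn.mat` as an additive map -/
private def S2K_mat (n : ℕ) : Mn n A →+ Matrix (Fin n) (Fin n) A where
  toFun := Mn.mat
  map_zero' := rfl
  map_add' _ _ := rfl

private theorem S2K_sum {n k : ℕ} (p : Fin k → A) :
    ∑ l : Fin (k * n), (Mn.of (Matrix.single (finProdFinEquiv.symm l).2 (finProdFinEquiv.symm l).2
      (p (finProdFinEquiv.symm l).1)) : Mn n A) = Mn.of (Matrix.diagonal fun _ => ∑ i, p i) := by
  refine Mn.ext ?_
  rw [← finProdFinEquiv.sum_comp]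
  simp only [Equiv.symm_apply_apply]
  rw [Fintype.sum_prod_type_right]
  change S2K_mat n _ = _
  rw [map_sum]
  simp only [map_sum]
  change ∑ j : Fin n, ∑ i : Fin k, Matrix.single j j (p i) = Matrix.diagonal fun _ => ∑ i, p i
  ext s t
  rw [Matrix.sum_apply]
  simp only [Matrix.sum_apply]
  rw [Finset.sum_eq_single s]
  · by_cases hst : s = t
    · subst hst
      rw [Matrix.diagonal_apply_eq]
      refine Finset.sum_congr rfl fun i _ => ?_
      rw [Matrix.single_apply_same]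
    · rw [Matrix.diagonal_apply_ne _ hst]
      refine Finset.sum_eq_zero fun i _ => ?_
      rw [Matrix.single_apply_of_ne]
      tauto
  · intro j _ hj
    refine Finset.sum_eq_zero fun i _ => ?_
    rw [Matrix.single_apply_of_ne]
    tauto
  · intro h
    exact absurd (Finset.mem_univ s) h

private theorem S2K_entry {n : ℕ} (c : Mn n A) (q : A) (s t : Fin n) :
    (c * (1 - Mn.of (Matrix.diagonal fun _ => q))).mat s t = c.mat s t * (1 - q) := by
  rw [Mn.mat_mul, Mn.mat_sub, Mn.mat_one, Mn.mat_of, ← Matrix.diagonal_one, Matrix.diagonal_sub,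
    Matrix.mul_diagonal]

theorem pieces_mat {n : ℕ} (S : Set (Mn n A)) (hS : IsCompact S)
    (hJ : ∀ c ∈ S, ∀ i j, c.mat i j ∈ J0 A) {η : ℝ} (hη : 0 < η) :
    ∃ (k : ℕ) (p : Fin k → Mn n A), (∀ i, 0 ≤ p i ∧ (∀ s t, (p i).mat s t ∈ J0 A) ∧
      ∀ τ : QuasiTrace A, τ.dq (p i) ≤ 1 / 2) ∧ ∀ c ∈ S, ‖c * (1 - ∑ i, p i)‖ ≤ η := by
  obtain ⟨R, hR0, hR⟩ : ∃ R : ℝ, 0 ≤ R ∧ ∀ c ∈ S, ‖c‖ ≤ R := by
    obtain ⟨R, hR⟩ := hS.exists_bound_of_continuousOn (f := fun c : Mn n A => c) continuousOn_id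
    exact ⟨max R 0, le_max_right _ _, fun c hc => (hR c hc).trans (le_max_left _ _)⟩
  have hn : (0 : ℝ) < (n : ℝ) * n + 1 := by positivity
  set δ : ℝ := η / ((n : ℝ) * n + 1) with hδ
  have hδ0 : 0 < δ := div_pos hη hn
  have hδ4 : 0 < δ / 4 := by positivity
  set κ : ℝ := min 1 (δ / 4 / (R + 1)) with hκ
  have hκ0 : 0 < κ := lt_min one_pos (by positivity)
  have hκ1 : κ ≤ 1 := min_le_left _ _
  have hκR : κ * (R + 1) ≤ δ / 4 := by
    have h1 : κ ≤ δ / 4 / (R + 1) := min_le_right _ _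
    rwa [le_div_iff₀ (by linarith)] at h1
  obtain ⟨T, hTS, hTfin, hTcov⟩ := hS.finite_cover_balls hδ4
  have := hTfin.fintype
  obtain ⟨e, he0, he1, heJ, he⟩ := exists_unit (A := A)
    (fun i : T × Fin n × Fin n => i.1.1.mat i.2.1 i.2.2)
    (fun i => hJ _ (hTS i.1.2) _ _) hκ0
  obtain ⟨k, p, hp, hpe⟩ := pieces_Sm he0 heJ hκ0
  refine ⟨k * n, fun l => Mn.of (Matrix.single (finProdFinEquiv.symm l).2
    (finProdFinEquiv.symm l).2 (p (finProdFinEquiv.symm l).1)), fun l => Sm_single (hp _) _, ?_⟩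
  intro c hc
  rw [S2K_sum]
  have h1e : ‖1 - e‖ ≤ 1 := by
    rw [CStarAlgebra.norm_le_one_iff_of_nonneg (1 - e) (sub_nonneg.2 he1)]
    exact sub_le_self 1 he0
  have h1p : ‖1 - ∑ i, p i‖ ≤ 1 + κ := by
    have h2 : 1 - ∑ i, p i = (1 - e) + (e - ∑ i, p i) := by abel
    rw [h2]
    exact (norm_add_le _ _).trans (add_le_add h1e hpe)
  obtain ⟨c', hc'T, hc'⟩ : ∃ c' ∈ T, ‖c - c'‖ < δ / 4 := by
    have h2 := hTcov hc
    simp only [Set.mem_iUnion, Metric.mem_ball, exists_prop] at h2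
    obtain ⟨c', h3, h4⟩ := h2
    exact ⟨c', h3, by rwa [dist_eq_norm] at h4⟩
  have hentry : ∀ s t, ‖(c * (1 - Mn.of (Matrix.diagonal fun _ => ∑ i, p i))).mat s t‖ ≤ δ := by
    intro s t
    rw [S2K_entry]
    have h2 : c.mat s t * (1 - ∑ i, p i) = (c - c').mat s t * (1 - ∑ i, p i) +
        c'.mat s t * (1 - e) + c'.mat s t * (e - ∑ i, p i) := by
      have h3 : (c - c').mat s t = c.mat s t - c'.mat s t := rfl
      rw [h3]
      noncomm_ring
    have h3 : ‖(c - c').mat s t * (1 - ∑ i, p i)‖ ≤ δ / 4 * (1 + κ) :=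
      (norm_mul_le _ _).trans (mul_le_mul ((Mn.norm_entry_le _ _ _).trans hc'.le) h1p
        (norm_nonneg _) hδ4.le)
    have h4 : ‖c'.mat s t * (1 - e)‖ ≤ κ := he (⟨c', hc'T⟩, s, t)
    have h5 : ‖c'.mat s t * (e - ∑ i, p i)‖ ≤ R * κ :=
      (norm_mul_le _ _).trans (mul_le_mul ((Mn.norm_entry_le _ _ _).trans (hR c' (hTS hc'T))) hpe
        (norm_nonneg _) hR0)
    rw [h2]
    calc _ ≤ δ / 4 * (1 + κ) + κ + R * κ :=
          norm_add₃_le.trans (add_le_add (add_le_add h3 h4) h5)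
      _ ≤ δ / 4 * 2 + κ * (R + 1) := by nlinarith
      _ ≤ δ := by linarith
  refine (Mn.norm_le_sum _).trans ?_
  calc _ ≤ ∑ _i : Fin n, ∑ _j : Fin n, δ :=
        Finset.sum_le_sum fun s _ => Finset.sum_le_sum fun t _ => hentry s t
    _ = (n : ℝ) * n * δ := by
        simp only [Finset.sum_const, Finset.card_univ, Fintype.card_fin, nsmul_eq_mul]
        ring
    _ ≤ ((n : ℝ) * n + 1) * δ := by
        refine mul_le_mul_of_nonneg_right ?_ hδ0.le
        linarith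
    _ = η := mul_div_cancel₀ _ hn.ne'

end RC12
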