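import Pool.Agent.LibRC12.S2A

/-!
S2L: the pairing (x, φ) ↦ φ(G x) is jointly continuous (‖φ(G x) - φ₀(G x₀)‖ ≤ ‖G x - G x₀‖ + ‖φ(G x₀) - φ₀(G x₀)‖, `norm_char_le`,
φ ↦ φ a is continuous: `WeakDual.CharacterSpace...`/`(WeakBilin.eval_continuous ..)`.comp continuous_subtype_val); and the density of the functions
(x, φ) ↦ φ(G x), G ∈ C(X, A), in C(X × Y, ℂ): Th : C(X,A) →⋆ₐ[ℂ] C(X × Y, ℂ) is a *-homomorphism, its range is a star subalgebra separating points
(Urysohn functions on X times 1; constant functions a), so `ContinuousMap.starSubalgebra_topologicalClosure_eq_top_of_separatesPoints`.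
(Y = characterSpace ℂ A is compact Hausdorff: Mathlib instances.)
-/

open Filter Topology WeakDual
open scoped ENNReal NNReal ComplexOrder

set_option autoImplicit false
set_option linter.unusedSectionVars false

namespace RC12

variable {A : Type*} [CStarAlgebra A] [PartialOrder A] [StarOrderedRing A]
variable {X : Type*} [TopologicalSpace X]

theorem continuous_pairing {G : X → A} (hG : Continuous G) :
    Continuous fun p : X × characterSpace ℂ A => p.2 (G p.1) := by
  rw [continuous_iff_continuousAt]
  rintro ⟨x0, φ0⟩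
  unfold ContinuousAt
  rw [tendsto_iff_norm_sub_tendsto_zero]
  have hev : Continuous fun φ : characterSpace ℂ A => φ (G x0) :=
    (WeakDual.eval_continuous (G x0)).comp continuous_subtype_val
  have h1 : Tendsto (fun p : X × characterSpace ℂ A =>
      ‖G p.1 - G x0‖ + ‖p.2 (G x0) - φ0 (G x0)‖) (𝓝 (x0, φ0)) (𝓝 (0 + 0)) := by
    refine Tendsto.add ?_ ?_
    · rw [← tendsto_iff_norm_sub_tendsto_zero]
      exact ((hG.comp continuous_fst).tendsto (x0, φ0))
    · rw [← tendsto_iff_norm_sub_tendsto_zero]
      exact ((hev.comp continuous_snd).tendsto (x0, φ0))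
  rw [add_zero] at h1
  refine squeeze_zero (fun _ => norm_nonneg _) (fun p => ?_) h1
  have h2 : p.2 (G p.1) - φ0 (G x0) = p.2 (G p.1 - G x0) + (p.2 (G x0) - φ0 (G x0)) := by
    rw [map_sub]
    ring
  change ‖p.2 (G p.1) - φ0 (G x0)‖ ≤ _
  rw [h2]
  exact (norm_add_le _ _).trans (add_le_add (norm_char_le _ _) le_rfl)

theorem pairing_dense [CompactSpace X] [T2Space X] (V : C(X × characterSpace ℂ A, ℂ)) {η : ℝ}
    (hη : 0 < η) : ∃ G : C(X, A), ∀ x (φ : characterSpace ℂ A), ‖φ (G x) - V (x, φ)‖ ≤ η := by
  classical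
  let Th : C(X, A) →⋆ₐ[ℂ] C(X × characterSpace ℂ A, ℂ) :=
    { toFun := fun G => ⟨fun p => p.2 (G p.1), continuous_pairing G.continuous⟩
      map_one' := by
        ext p
        exact map_one p.2
      map_mul' := by
        intro G G'
        ext p
        exact map_mul p.2 _ _
      map_zero' := by
        ext p
        exact map_zero p.2
      map_add' := by
        intro G G'
        ext p
        exact map_add p.2 _ _
      commutes' := by
        intro c
        ext p
        change p.2 (algebraMap ℂ A c) = c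
        rw [Algebra.algebraMap_eq_smul_one, map_smul, map_one, smul_eq_mul, mul_one]
      map_star' := by
        intro G
        ext p
        exact map_star p.2 _ }
  have hTh : ∀ (G : C(X, A)) (x : X) (φ : characterSpace ℂ A), Th G (x, φ) = φ (G x) :=
    fun _ _ _ => rfl
  have hsep : Th.range.SeparatesPoints := by
    rintro ⟨x, φ⟩ ⟨y, ψ⟩ hne
    by_cases hφ : φ = ψ
    · have hxy : x ≠ y := by
        rintro rfl
        exact hne (by rw [hφ])
      obtain ⟨u, hu0, hu1, -⟩ := exists_continuous_zero_one_of_isClosed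
        (isClosed_singleton (x := x)) (isClosed_singleton (x := y))
        (Set.disjoint_singleton.2 hxy)
      let G : C(X, A) := ⟨fun z => ((u z : ℝ) : ℂ) • (1 : A),
        (Complex.continuous_ofReal.comp u.continuous).smul continuous_const⟩
      refine ⟨_, ⟨Th G, ⟨G, rfl⟩, rfl⟩, ?_⟩
      have e1 : ∀ (z : X) (χ : characterSpace ℂ A), Th G (z, χ) = ((u z : ℝ) : ℂ) := by
        intro z χ
        rw [hTh]
        change χ (((u z : ℝ) : ℂ) • (1 : A)) = _
        rw [map_smul, map_one, smul_eq_mul, mul_one]
      change Th G (x, φ) ≠ Th G (y, ψ)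
      rw [e1, e1, hu0 rfl, hu1 rfl]
      simp
    · obtain ⟨a, ha⟩ : ∃ a : A, φ a ≠ ψ a := by
        by_contra hcon
        push Not at hcon
        exact hφ (WeakDual.CharacterSpace.ext hcon)
      refine ⟨_, ⟨Th (ContinuousMap.const X a), ⟨_, rfl⟩, rfl⟩, ?_⟩
      exact ha
  have htop := ContinuousMap.starSubalgebra_topologicalClosure_eq_top_of_separatesPoints
    Th.range hsep
  have hV : V ∈ Th.range.topologicalClosure := by
    rw [htop]
    trivial
  have hV' : V ∈ closure (Set.range Th) := by
    have : (Th.range.topologicalClosure : Set C(X × characterSpace ℂ A, ℂ)) =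
        closure (Th.range : Set C(X × characterSpace ℂ A, ℂ)) :=
      StarSubalgebra.topologicalClosure_coe _
    have h2 : V ∈ closure (Th.range : Set C(X × characterSpace ℂ A, ℂ)) := by
      rw [← this]
      exact hV
    exact h2
  rw [Metric.mem_closure_iff] at hV'
  obtain ⟨_, ⟨G, rfl⟩, hG⟩ := hV' η hη
  refine ⟨G, fun x φ => ?_⟩
  have h1 := (V - Th G).norm_coe_le_norm (x, φ)
  rw [dist_eq_norm] at hG
  rw [norm_sub_rev]
  exact h1.trans hG.le

end RC12
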