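import Pool.Agent.LibRC12.S4A

/-!
# [S3] adding pieces (3.1)

`dm j : M → ℝ` is a family of dimension functions.
-/

open Filter Topology WeakDual
open scoped ENNReal NNReal ComplexOrder

set_option linter.unusedSectionVars false

namespace RC12.S4

variable {M : Type*} [CStarAlgebra M] [PartialOrder M] [StarOrderedRing M] {J : Type*}

/-- positive part as a function -/
noncomputable def pp (t : ℝ) : ℝ := max t 0

/-- (3.1) ADD-ONE. `q = b'(1 - K X X*)b'`, `s = (q_+)^{1/2}`, `e = s b'^2 s ≥ s q s = q_+^2`;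
`b'^2 = q + K b' X X* b' ≤ q_+ + K b' X X* b'`, so `dm b' ≤ dm(b'^2) ≤ dm(q_+) + dm(X X*)`,
`dm(X X*) ≤ dm(X* X)`, `dm(q_+) ≤ dm(q_+^2) ≤ dm(e)`; oracle: `v* e v ≈ h`; `u' = s v`. -/
theorem add_one (dm : J → M → ℝ) (hdm : ∀ j, IsDim (dm j)) {ρ : ℝ} {h b1 X : M} (hh : 0 ≤ h)
    (hb1 : 0 ≤ b1) (oracle : ∀ e : M, 0 ≤ e → (∀ j, dm j h + ρ < dm j e) → Cu h e)
    (hgap : ∀ j, dm j (star X * X) + dm j h + ρ < dm j b1) {η : ℝ} (hη : 0 < η) :
    ∃ u : M, ‖star (b1 * u) * (b1 * u) - h‖ ≤ η ∧ ‖star X * (b1 * u)‖ ≤ η := by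
  -- constants
  set K : ℝ := (‖h‖ + 1) / η ^ 2 with hK
  have hK0 : 0 < K := by positivity
  have hb1s : star b1 = b1 := (IsSelfAdjoint.of_nonneg hb1).star_eq
  -- the self-adjoint element `q`
  set q : M := b1 * b1 - K • (b1 * (X * star X) * b1) with hq
  have hXX : 0 ≤ X * star X := mul_star_self_nonneg X
  have hcc : 0 ≤ b1 * (X * star X) * b1 := by
    have := star_left_conjugate_nonneg hXX b1
    rwa [hb1s] at this
  have hqs : IsSelfAdjoint q := by
    refine IsSelfAdjoint.sub ?_ ?_
    · exact IsSelfAdjoint.of_nonneg (by simpa [hb1s] using star_mul_self_nonneg b1)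
    · exact (IsSelfAdjoint.all K).smul (IsSelfAdjoint.of_nonneg hcc)
  set p : M := cfc pp q with hp
  have hpp : Continuous pp := by unfold pp; fun_prop
  have hp0 : 0 ≤ p := cfc_nonneg fun _ _ => le_max_right _ _
  set s : M := cfc (fun t => √(pp t)) q with hs
  have hs0 : 0 ≤ s := cfc_nonneg fun _ _ => Real.sqrt_nonneg _
  have hss : star s = s := (IsSelfAdjoint.of_nonneg hs0).star_eq
  have hsc : Continuous fun t => √(pp t) := by fun_prop
  -- `q ≤ p`
  have hqp : q ≤ p := by
    conv_lhs => rw [← cfc_id ℝ q]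
    exact cfc_mono (fun t _ => le_max_left _ _) (by fun_prop) (by fun_prop)
  -- `s q s = p * p`
  have hsqs : s * q * s = p * p := by
    have h1 : s * q = cfc (fun t => √(pp t) * t) q := by
      conv_lhs => rw [hs]
      nth_rewrite 2 [← cfc_id' ℝ q]
      rw [← cfc_mul (fun t => √(pp t)) (fun t => t) q (by fun_prop) (by fun_prop)]
    rw [h1, hs, ← cfc_mul _ _ q (by fun_prop) (by fun_prop), hp,
      ← cfc_mul _ _ q (by fun_prop) (by fun_prop)]
    refine cfc_congr fun t _ => ?_
    unfold pp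
    rcases le_total t 0 with ht | ht
    · simp [max_eq_right ht]
    · simp only [max_eq_left ht]
      rw [mul_right_comm, Real.mul_self_sqrt ht]
  -- `e`
  set e : M := s * (b1 * b1) * s with he
  have hbb : 0 ≤ b1 * b1 := by simpa [hb1s] using star_mul_self_nonneg b1
  have he0 : 0 ≤ e := by
    have := star_left_conjugate_nonneg hbb s
    rwa [hss] at this
  have hpe : p * p ≤ e := by
    rw [← hsqs, he]
    have h1 : q ≤ b1 * b1 := by
      rw [hq]
      exact sub_le_self _ (smul_nonneg hK0.le hcc)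
    have := star_left_conjugate_le_conjugate h1 s
    rwa [hss] at this
  have hpp0 : 0 ≤ p * p := by
    have : star p = p := (IsSelfAdjoint.of_nonneg hp0).star_eq
    simpa [this] using star_mul_self_nonneg p
  have hCu1 : Cu p e := cu_trans (cu_sq hp0) (cu_le hpp0 hpe)
  -- dimension estimate
  have hdim : ∀ j, dm j h + ρ < dm j e := by
    intro j
    have h1 : dm j b1 ≤ dm j (b1 * b1) := (hdm j).mono _ _ hb1 hbb (cu_sq hb1)
    have h2 : b1 * b1 ≤ p + K • (b1 * (X * star X) * b1) := by
      have : b1 * b1 = q + K • (b1 * (X * star X) * b1) := by rw [hq]; abel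
      rw [this]
      exact add_le_add_left hqp _
    have hK1 : 0 ≤ K • (b1 * (X * star X) * b1) := smul_nonneg hK0.le hcc
    have h3 : dm j (b1 * b1) ≤ dm j (p + K • (b1 * (X * star X) * b1)) :=
      (hdm j).mono _ _ hbb (add_nonneg hp0 hK1) (cu_le hbb h2)
    have h4 := (hdm j).add_le p _ hp0 hK1
    have h5 : dm j (K • (b1 * (X * star X) * b1)) ≤ dm j (star X * X) := by
      refine (hdm j).mono _ _ hK1 (star_mul_self_nonneg X) ?_
      refine cu_trans (cu_smul_left hcc hK0) ?_
      have h6 : Cu (b1 * (X * star X) * b1) (X * star X) := by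
        have := cu_conj hXX b1
        rwa [hb1s] at this
      exact cu_trans h6 (cu_mul_star X)
    have h7 : dm j p ≤ dm j e := (hdm j).mono _ _ hp0 he0 hCu1
    have := hgap j
    linarith
  obtain ⟨v, hv⟩ := oracle e he0 hdim (min η 1) (lt_min hη one_pos)
  refine ⟨s * v, ?_, ?_⟩
  · have h1 : star (b1 * (s * v)) * (b1 * (s * v)) = star v * e * v := by
      simp only [star_mul, hb1s, hss, he, mul_assoc]
    rw [h1]
    exact hv.le.trans (min_le_left _ _)
  · -- `K u* X X* u ≤ u* u`
    set u : M := b1 * (s * v) with hu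
    have h1 : star u * u = star v * e * v := by
      simp only [hu, star_mul, hb1s, hss, he, mul_assoc]
    have h2 : K • (star u * (X * star X) * u) = star u * u - star v * (p * p) * v := by
      rw [h1, ← hsqs, he, hq]
      simp only [hu, star_mul, hb1s, hss, mul_assoc, mul_sub, sub_mul, mul_smul_comm,
        smul_mul_assoc]
      abel
    have h3 : 0 ≤ star v * (p * p) * v := star_left_conjugate_nonneg hpp0 v
    have h4 : K • (star u * (X * star X) * u) ≤ star u * u := by
      rw [h2]; exact sub_le_self _ h3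
    have h5 : 0 ≤ K • (star u * (X * star X) * u) :=
      smul_nonneg hK0.le (star_left_conjugate_nonneg hXX u)
    have h6 : ‖K • (star u * (X * star X) * u)‖ ≤ ‖star u * u‖ :=
      CStarAlgebra.norm_le_norm_of_nonneg_of_le h5 h4
    have h7 : ‖star u * u‖ ≤ ‖h‖ + 1 := by
      have : ‖star v * e * v - h‖ ≤ 1 := hv.le.trans (min_le_right _ _)
      rw [h1]
      calc ‖star v * e * v‖ = ‖(star v * e * v - h) + h‖ := by rw [sub_add_cancel]
        _ ≤ ‖star v * e * v - h‖ + ‖h‖ := norm_add_le _ _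
        _ ≤ ‖h‖ + 1 := by linarith
    have h8 : star u * (X * star X) * u = star (star X * u) * (star X * u) := by
      simp only [star_mul, star_star, mul_assoc]
    have h9 : K * ‖star X * u‖ ^ 2 ≤ ‖h‖ + 1 := by
      rw [norm_smul, h8, CStarRing.norm_star_mul_self, Real.norm_of_nonneg hK0.le] at h6
      nlinarith
    have h10 : ‖star X * u‖ ^ 2 ≤ η ^ 2 := by
      have : (‖h‖ + 1) / η ^ 2 * ‖star X * u‖ ^ 2 ≤ ‖h‖ + 1 := h9
      have h11 : 0 < ‖h‖ + 1 := by positivity
      rw [div_mul_eq_mul_div, div_le_iff₀ (by positivity)] at this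
      exact le_of_mul_le_mul_left this h11
    exact (sq_le_sq₀ (norm_nonneg _) hη.le).1 h10

end RC12.S4
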