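import Pool.Agent.LibRC12.S3

/-!
# [S3B] adding many pieces (3.2)

From `add_one`. `dm j : M → ℝ` is a family of dimension functions.
-/

open Filter Topology WeakDual
open scoped ENNReal NNReal ComplexOrder

set_option linter.unusedSectionVars false

namespace RC12.S4

variable {M : Type*} [CStarAlgebra M] [PartialOrder M] [StarOrderedRing M] {J : Type*}

/-- one step of the Gram matrix -/
theorem gram_step {X y g h S : M} {θ θ' : ℝ} (hg : star g = g) (hhg : h * g = h)
    (hh : star h = h) (hX : ‖star X * X - S‖ ≤ θ) (hη : 0 ≤ θ')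
    (h1 : ‖star y * y - h‖ * (‖g‖ + 1) ^ 2 ≤ θ' / 3) (h2 : ‖star X * y‖ * (‖g‖ + 1) ^ 2 ≤ θ' / 3)
    {t : ℝ} (ht0 : 0 ≤ t) (ht1 : t ≤ 1) :
    ‖star (X + t • (y * g)) * (X + t • (y * g)) - (S + t ^ 2 • h)‖ ≤ θ + θ' := by
  have hgh : g * h = h := by
    have := congrArg star hhg
    rwa [star_mul, hg, hh] at this
  have e : star (X + t • (y * g)) * (X + t • (y * g)) - (S + t ^ 2 • h) =
      (star X * X - S) + t • (star X * y * g) + t • star (star X * y * g) +
        t ^ 2 • (g * (star y * y - h) * g) := by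
    have h3 : g * (star y * y - h) * g = g * star y * y * g - h := by
      rw [mul_sub, sub_mul, hgh, hhg, mul_assoc g (star y) y]
    rw [h3]
    simp only [star_add, star_smul, star_mul, star_star, hg, add_mul, mul_add, smul_mul_assoc,
      mul_smul_comm, star_trivial, mul_assoc]
    module
  have hg0 := norm_nonneg g
  have hn1 : ‖star X * y * g‖ ≤ θ' / 3 := by
    refine (norm_mul_le _ _).trans (le_trans ?_ h2)
    have := norm_nonneg (star X * y)
    gcongr
    nlinarith
  have hn2 : ‖g * (star y * y - h) * g‖ ≤ θ' / 3 := by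
    refine (norm_mul₃_le).trans (le_trans ?_ h1)
    have := norm_nonneg (star y * y - h)
    calc ‖g‖ * ‖star y * y - h‖ * ‖g‖ = ‖star y * y - h‖ * ‖g‖ ^ 2 := by ring
      _ ≤ ‖star y * y - h‖ * (‖g‖ + 1) ^ 2 := by gcongr; linarith
  have hn3 : ‖t • (star X * y * g)‖ ≤ θ' / 3 := by
    rw [norm_smul, Real.norm_of_nonneg ht0]
    calc t * ‖star X * y * g‖ ≤ 1 * ‖star X * y * g‖ := by gcongr
      _ ≤ θ' / 3 := by rw [one_mul]; exact hn1
  have hn4 : ‖t • star (star X * y * g)‖ ≤ θ' / 3 := by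
    rw [norm_smul, norm_star, ← norm_smul]
    exact hn3
  have hn5 : ‖t ^ 2 • (g * (star y * y - h) * g)‖ ≤ θ' / 3 := by
    rw [norm_smul, Real.norm_of_nonneg (by positivity)]
    have ht2 : t ^ 2 ≤ 1 := by nlinarith
    calc t ^ 2 * ‖g * (star y * y - h) * g‖ ≤ 1 * ‖g * (star y * y - h) * g‖ := by gcongr
      _ ≤ θ' / 3 := by rw [one_mul]; exact hn2
  rw [e]
  calc _ ≤ ‖(star X * X - S) + t • (star X * y * g) + t • star (star X * y * g)‖ +
        ‖t ^ 2 • (g * (star y * y - h) * g)‖ := norm_add_le _ _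
    _ ≤ (‖star X * X - S‖ + ‖t • (star X * y * g)‖ + ‖t • star (star X * y * g)‖) +
        ‖t ^ 2 • (g * (star y * y - h) * g)‖ := by gcongr; exact norm_add₃_le
    _ ≤ (θ + θ' / 3 + θ' / 3) + θ' / 3 := by gcongr
    _ = θ + θ' := by ring

/-- `X g2 = X` gives `dm (X* X) ≤ dm g2` -/
theorem dm_gram_le {d : M → ℝ} (hd : IsDim d) {X g2 : M} (hg2 : 0 ≤ g2) (hX : X * g2 = X) :
    d (star X * X) ≤ d g2 := by
  have hs : star g2 = g2 := (IsSelfAdjoint.of_nonneg hg2).star_eq
  refine hd.mono _ _ (star_mul_self_nonneg X) hg2 ?_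
  have h1 : star X * X ≤ (‖star X * X‖ + 1) • (g2 * g2) := by
    have h2 : star X * X ≤ algebraMap ℝ M (‖star X * X‖ + 1) := by
      refine (IsSelfAdjoint.le_algebraMap_norm_self
        (IsSelfAdjoint.of_nonneg (star_mul_self_nonneg X))).trans ?_
      rw [← sub_nonneg, ← map_sub]
      have : (0:ℝ) ≤ ‖star X * X‖ + 1 - ‖star X * X‖ := by linarith
      rw [Algebra.algebraMap_eq_smul_one]
      exact smul_nonneg this zero_le_one
    have h3 := star_left_conjugate_le_conjugate h2 g2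
    rw [hs] at h3
    have h4 : g2 * (star X * X) * g2 = star X * X := by
      have h5 : g2 * star X = star X := by
        have := congrArg star hX
        rwa [star_mul, hs] at this
      rw [← mul_assoc, h5, mul_assoc, hX]
    rw [h4, Algebra.algebraMap_eq_smul_one, mul_smul_comm, smul_mul_assoc, mul_one] at h3
    exact h3
  have hgg : 0 ≤ g2 * g2 := by simpa [hs] using star_mul_self_nonneg g2
  refine cu_trans (cu_le (star_mul_self_nonneg X) h1) ?_
  refine cu_trans (cu_smul_left hgg (by positivity)) ?_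
  have h6 : g2 * g2 ≤ (‖g2‖ + 1) • g2 := by
    have h7 : g2 ≤ algebraMap ℝ M (‖g2‖ + 1) := by
      refine (IsSelfAdjoint.le_algebraMap_norm_self (IsSelfAdjoint.of_nonneg hg2)).trans ?_
      rw [← sub_nonneg, ← map_sub, Algebra.algebraMap_eq_smul_one]
      exact smul_nonneg (by linarith) zero_le_one
    have h8 := star_left_conjugate_le_conjugate h7 (rt g2)
    rw [rt_star, Algebra.algebraMap_eq_smul_one, mul_smul_comm, smul_mul_assoc, mul_one,
      rt_mul_rt hg2] at h8
    have h9 : rt g2 * g2 * rt g2 = g2 * g2 := by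
      have h10 : rt g2 * (rt g2 * rt g2) * rt g2 = (rt g2 * rt g2) * (rt g2 * rt g2) := by
        simp only [mul_assoc]
      rwa [rt_mul_rt hg2] at h10
    rwa [h9] at h8
  exact cu_trans (cu_le hgg h6) (cu_smul_left hg2 (by positivity))

/-- sequence version: along the `l`-th step the Gram matrix of `X_0 + b1 (U_l + t (U_{l+1}-U_l))`
is within `η` of `X_0* X_0 + ∑_{i<l} h_i + t² h_l`. (Induction on `L`; `U_{l+1} = U_l + u' g1`,
`X g2 = X` for all `X` considered, so `X* X ≤ ‖X‖² g2²` and `dm(X* X) ≤ dm(g2)`.) -/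
theorem add_path (dm : J → M → ℝ) (hdm : ∀ j, IsDim (dm j)) {ρ : ℝ} (L : ℕ) (h : ℕ → M)
    (hh : ∀ l, l < L → 0 ≤ h l) {b1 g1 g2 X0 : M} (hb1 : 0 ≤ b1) (hg1 : 0 ≤ g1) (hg2 : 0 ≤ g2)
    (h12 : g1 * g2 = g1) (hhg : ∀ l, l < L → h l * g1 = h l) (hX0 : X0 * g2 = X0)
    (oracle : ∀ l, l < L → ∀ e : M, 0 ≤ e → (∀ j, dm j (h l) + ρ < dm j e) → Cu (h l) e)
    (hgap : ∀ j l, l < L → dm j g2 + dm j (h l) + ρ < dm j b1) {η : ℝ} (hη : 0 < η) :
    ∃ U : ℕ → M, U 0 = 0 ∧ ∀ l, l < L → ∀ t : ℝ, 0 ≤ t → t ≤ 1 →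
      ‖star (X0 + b1 * (U l + t • (U (l + 1) - U l))) *
          (X0 + b1 * (U l + t • (U (l + 1) - U l))) -
        (star X0 * X0 + ∑ i ∈ Finset.range l, h i + t ^ 2 • h l)‖ ≤ η := by
  have key : ∀ θ : ℝ, 0 < θ → ∀ N : ℕ, N ≤ L → ∃ U : ℕ → M, U 0 = 0 ∧
      (∀ l, l ≤ N → U l * g2 = U l) ∧
      (∀ l, l ≤ N → ‖star (X0 + b1 * U l) * (X0 + b1 * U l) -
        (star X0 * X0 + ∑ i ∈ Finset.range l, h i)‖ ≤ l * θ) ∧
      ∀ l, l < N → ∀ t : ℝ, 0 ≤ t → t ≤ 1 →
      ‖star (X0 + b1 * (U l + t • (U (l + 1) - U l))) *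
          (X0 + b1 * (U l + t • (U (l + 1) - U l))) -
        (star X0 * X0 + ∑ i ∈ Finset.range l, h i + t ^ 2 • h l)‖ ≤ (l + 1) * θ := by
    intro θ hθ N
    induction N with
    | zero =>
      intro _
      refine ⟨fun _ => 0, rfl, ?_, ?_, ?_⟩
      · intro l _; simp
      · intro l hl
        obtain rfl : l = 0 := by omega
        simp
      · intro l hl; omega
    | succ N ih =>
      intro hN
      obtain ⟨U, hU0, hU2, hUg, hUt⟩ := ih (by omega)
      have hNL : N < L := by omega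
      set X : M := X0 + b1 * U N with hX
      have hXg : X * g2 = X := by
        rw [hX, add_mul, hX0, mul_assoc, hU2 N le_rfl]
      obtain ⟨u, hu1, hu2⟩ := add_one dm hdm (h := h N) (X := X) (hh N hNL) hb1 (oracle N hNL)
        (fun j => by
          have h1 := dm_gram_le (hdm j) hg2 hXg
          have h2 := hgap j N hNL
          linarith) (η := θ / (3 * (‖g1‖ + 1) ^ 2)) (by positivity)
      have hg1s : star g1 = g1 := (IsSelfAdjoint.of_nonneg hg1).star_eq
      have hhs : star (h N) = h N := (IsSelfAdjoint.of_nonneg (hh N hNL)).star_eq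
      have hG : ∀ t : ℝ, 0 ≤ t → t ≤ 1 →
          ‖star (X + t • (b1 * u * g1)) * (X + t • (b1 * u * g1)) -
            (star X0 * X0 + ∑ i ∈ Finset.range N, h i + t ^ 2 • h N)‖ ≤ N * θ + θ := by
        intro t ht0 ht1
        refine gram_step hg1s (hhg N hNL) hhs (hUg N le_rfl) hθ.le ?_ ?_ ht0 ht1
        · calc _ ≤ θ / (3 * (‖g1‖ + 1) ^ 2) * (‖g1‖ + 1) ^ 2 := by gcongr
            _ = θ / 3 := by field_simp
        · calc _ ≤ θ / (3 * (‖g1‖ + 1) ^ 2) * (‖g1‖ + 1) ^ 2 := by gcongr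
            _ = θ / 3 := by field_simp
      refine ⟨Function.update U (N + 1) (U N + u * g1), ?_, ?_, ?_, ?_⟩
      · simp [Function.update, hU0]
      · intro l hl
        rcases Nat.lt_or_ge l (N + 1) with h1 | h1
        · rw [Function.update_of_ne (by omega)]
          exact hU2 l (by omega)
        · obtain rfl : l = N + 1 := by omega
          rw [Function.update_self, add_mul, hU2 N le_rfl, mul_assoc, h12]
      · intro l hl
        rcases Nat.lt_or_ge l (N + 1) with h1 | h1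
        · rw [Function.update_of_ne (by omega)]
          exact hUg l (by omega)
        · obtain rfl : l = N + 1 := by omega
          rw [Function.update_self]
          have h2 := hG 1 zero_le_one le_rfl
          have h3 : X0 + b1 * (U N + u * g1) = X + (1 : ℝ) • (b1 * u * g1) := by
            rw [hX, one_smul, mul_add, mul_assoc]; abel
          rw [h3, Finset.sum_range_succ, ← add_assoc]
          have h4 : ((1 : ℝ) ^ 2) • h N = h N := by simp
          rw [h4] at h2
          refine h2.trans ?_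
          push_cast; linarith
      · intro l hl t ht0 ht1
        rcases Nat.lt_or_ge l N with h1 | h1
        · rw [Function.update_of_ne (by omega), Function.update_of_ne (by omega)]
          exact hUt l h1 t ht0 ht1
        · obtain rfl : l = N := by omega
          rw [Function.update_of_ne (by omega), Function.update_self]
          have h3 : X0 + b1 * (U l + t • (U l + u * g1 - U l)) = X + t • (b1 * u * g1) := by
            rw [hX, add_sub_cancel_left, mul_add, mul_smul_comm, mul_assoc]; abel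
          rw [h3]
          refine (hG t ht0 ht1).trans ?_
          linarith
  obtain ⟨U, hU0, -, -, hUt⟩ := key (η / (L + 1)) (by positivity) L le_rfl
  refine ⟨U, hU0, fun l hl t ht0 ht1 => (hUt l hl t ht0 ht1).trans ?_⟩
  have h1 : ((l : ℝ) + 1) ≤ L + 1 := by
    have : (l : ℝ) ≤ L := by exact_mod_cast hl.le
    linarith
  calc ((l : ℝ) + 1) * (η / (L + 1)) ≤ (L + 1) * (η / (L + 1)) := by gcongr
    _ = η := by field_simp

/-- the end of `add_path` -/
theorem add_many (dm : J → M → ℝ) (hdm : ∀ j, IsDim (dm j)) {ρ : ℝ} {L : ℕ} (h : Fin L → M)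
    (hh : ∀ l, 0 ≤ h l) {b1 g1 g2 X0 : M} (hb1 : 0 ≤ b1) (hg1 : 0 ≤ g1) (hg2 : 0 ≤ g2)
    (h12 : g1 * g2 = g1) (hhg : ∀ l, h l * g1 = h l) (hX0 : X0 * g2 = X0)
    (oracle : ∀ l (e : M), 0 ≤ e → (∀ j, dm j (h l) + ρ < dm j e) → Cu (h l) e)
    (hgap : ∀ j l, dm j g2 + dm j (h l) + ρ < dm j b1) {η : ℝ} (hη : 0 < η) :
    ∃ U : M, ‖star (X0 + b1 * U) * (X0 + b1 * U) - (star X0 * X0 + ∑ l, h l)‖ ≤ η := by
  rcases Nat.eq_zero_or_pos L with hL | hL
  · subst hL
    exact ⟨0, by simpa using hη.le⟩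
  set h' : ℕ → M := fun l => if hl : l < L then h ⟨l, hl⟩ else 0 with hh'
  have hval : ∀ l (hl : l < L), h' l = h ⟨l, hl⟩ := fun l hl => by simp [hh', hl]
  obtain ⟨U, -, hU⟩ := add_path dm hdm (ρ := ρ) L h' (fun l hl => by rw [hval l hl]; exact hh _)
    hb1 hg1 hg2 h12 (fun l hl => by rw [hval l hl]; exact hhg _) hX0
    (fun l hl e he hj => by
      rw [hval l hl] at hj ⊢
      exact oracle _ e he hj)
    (fun j l hl => by rw [hval l hl]; exact hgap j _) hη
  have h1 := hU (L - 1) (by omega) 1 zero_le_one le_rfl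
  refine ⟨U L, ?_⟩
  have h2 : U (L - 1) + (1 : ℝ) • (U (L - 1 + 1) - U (L - 1)) = U L := by
    rw [one_smul, Nat.sub_add_cancel hL]; abel
  have h3 : star X0 * X0 + ∑ i ∈ Finset.range (L - 1), h' i + (1 : ℝ) ^ 2 • h' (L - 1) =
      star X0 * X0 + ∑ l, h l := by
    rw [one_pow, one_smul, add_assoc, ← Finset.sum_range_succ, Nat.sub_add_cancel hL,
      Finset.sum_range]
    congr 1
    exact Finset.sum_congr rfl fun l _ => hval _ l.2
  rw [h2, h3] at h1
  exact h1

end RC12.S4
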