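import Pool.Agent.LibRC12.S4Z

/-!
# [S4A] square roots and the normaliser (0.4)

Hints. `cfc_mul`, `cfc_add`, `cfc_const`, `cfc_id'`, `cfc_congr`, `cfc_nonneg`, `cfc_mono`,
`norm_cfc_le`, `CStarRing.norm_star_mul_self`, `CStarAlgebra.norm_le_norm_of_nonneg_of_le`,
`star_left_conjugate_le_conjugate`, `CStarAlgebra.le_one_iff..`/`norm_le_iff..`; for
`norm_rt_sub_le`: `x ≤ y + ‖x - y‖`, operator monotonicity of the square root
(`CFC.monotone_sqrt`/`CFC.sqrt_le_sqrt`, `CFC.sqrt_eq_cfc` or `CFC.sqrt_eq_real_sqrt` style lemmas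
to go from `rt` to `CFC.sqrt`), `√(t + c) ≤ √t + √c`, and the symmetric inequality.
-/

open Filter Topology WeakDual
open scoped ENNReal NNReal ComplexOrder

set_option linter.unusedSectionVars false

namespace RC12.S4

variable {M : Type*} [CStarAlgebra M] [PartialOrder M] [StarOrderedRing M]

theorem rt_nonneg (a : M) : 0 ≤ rt a := cfc_nonneg (fun x _ => Real.sqrt_nonneg x)

theorem rt_star (a : M) : star (rt a) = rt a := (IsSelfAdjoint.of_nonneg (rt_nonneg a)).star_eq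

theorem rt_mul_rt {a : M} (ha : 0 ≤ a) : rt a * rt a = a := by
  have hsa : IsSelfAdjoint a := IsSelfAdjoint.of_nonneg ha
  unfold rt
  rw [← cfc_mul Real.sqrt Real.sqrt a Real.continuous_sqrt.continuousOn
    Real.continuous_sqrt.continuousOn]
  have h : cfc (fun x : ℝ => √x * √x) a = cfc (fun x : ℝ => x) a :=
    cfc_congr (fun x hx => Real.mul_self_sqrt (spectrum_nonneg_of_nonneg ha hx))
  rw [h]
  exact cfc_id' ℝ a hsa

theorem norm_rt_sq {a : M} (ha : 0 ≤ a) : ‖rt a‖ ^ 2 = ‖a‖ := by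
  have h : ‖star (rt a) * rt a‖ = ‖rt a‖ * ‖rt a‖ := CStarRing.norm_star_mul_self
  rw [rt_star, rt_mul_rt ha] at h
  rw [h, sq]

theorem norm_rt_le_one {a : M} (ha : 0 ≤ a) (h : ‖a‖ ≤ 1) : ‖rt a‖ ≤ 1 := by
  have h1 := norm_rt_sq ha
  have h2 : ‖rt a‖ ^ 2 ≤ 1 := by rw [h1]; exact h
  have h3 := norm_nonneg (rt a)
  nlinarith

/-- sandwich: `-c ≤ x - y ≤ c` gives the norm bound, and conversely -/
theorem norm_sub_le_of_le {x y : M} (hx : IsSelfAdjoint x) (hy : IsSelfAdjoint y) {c : ℝ}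
    (hc : 0 ≤ c) (h1 : x ≤ y + algebraMap ℝ M c) (h2 : y ≤ x + algebraMap ℝ M c) : ‖x - y‖ ≤ c := by
  have hsa : IsSelfAdjoint (x - y) := hx.sub hy
  have h3 : x - y ≤ algebraMap ℝ M c := sub_le_iff_le_add'.mpr h1
  have h4 : algebraMap ℝ M (-c) ≤ x - y := by
    rw [map_neg, neg_le, neg_sub]
    exact sub_le_iff_le_add'.mpr h2
  have h5 := (le_algebraMap_iff_spectrum_le (R := ℝ) hsa).mp h3
  have h6 := (algebraMap_le_iff_le_spectrum (R := ℝ) hsa).mp h4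
  have h7 : ‖cfc (fun t : ℝ => t) (x - y)‖ ≤ c := by
    refine norm_cfc_le hc (fun t ht => ?_)
    rw [Real.norm_eq_abs, abs_le]
    exact ⟨h6 t ht, h5 t ht⟩
  rwa [cfc_id' ℝ (x - y) hsa] at h7

theorem le_add_of_norm_sub_le {x y : M} (hx : IsSelfAdjoint x) (hy : IsSelfAdjoint y) {c : ℝ}
    (h : ‖x - y‖ ≤ c) : x ≤ y + algebraMap ℝ M c := by
  have hsa : IsSelfAdjoint (x - y) := hx.sub hy
  have h1 : x - y ≤ algebraMap ℝ M ‖x - y‖ := hsa.le_algebraMap_norm_self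
  have h2 : algebraMap ℝ M ‖x - y‖ ≤ algebraMap ℝ M c := by
    have h3 : (0 : M) ≤ 1 := by simpa using star_mul_self_nonneg (1 : M)
    rw [Algebra.algebraMap_eq_smul_one, Algebra.algebraMap_eq_smul_one]
    exact smul_le_smul_of_nonneg_right h h3
  exact sub_le_iff_le_add'.mp (h1.trans h2)

theorem norm_le_of_star_mul_le {x : M} {c : ℝ} (hc : 0 ≤ c)
    (h : star x * x ≤ algebraMap ℝ M (c ^ 2)) : ‖x‖ ≤ c := by
  have h1 : ‖star x * x‖ ≤ c ^ 2 :=
    (CStarAlgebra.norm_le_iff_le_algebraMap (star x * x) (by positivity)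
      (star_mul_self_nonneg x)).mpr h
  rw [CStarRing.norm_star_mul_self] at h1
  have h3 := norm_nonneg x
  nlinarith

theorem s4a_rt_eq_sqrt {x : M} (hx : 0 ≤ x) : rt x = CFC.sqrt x := by
  have h1 : rt x * rt x = x := rt_mul_rt hx
  exact ((CFC.sqrt_eq_iff x (rt x) hx (rt_nonneg x)).mpr h1).symm

theorem s4a_rt_mono {x y : M} (hx : 0 ≤ x) (h : x ≤ y) : rt x ≤ rt y := by
  rw [s4a_rt_eq_sqrt hx, s4a_rt_eq_sqrt (hx.trans h)]
  exact CFC.sqrt_le_sqrt x y h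

theorem s4a_add_eq_cfc {y : M} (hy : 0 ≤ y) (c : ℝ) :
    y + algebraMap ℝ M c = cfc (fun t : ℝ => t + c) y := by
  have hsa : IsSelfAdjoint y := IsSelfAdjoint.of_nonneg hy
  rw [cfc_add_const c (fun t : ℝ => t) y continuous_id.continuousOn hsa, cfc_id' ℝ y hsa]

theorem s4a_rt_add {y : M} (hy : 0 ≤ y) (c : ℝ) :
    rt (y + algebraMap ℝ M c) = cfc (fun t : ℝ => √(t + c)) y := by
  have hsa : IsSelfAdjoint y := IsSelfAdjoint.of_nonneg hy
  rw [s4a_add_eq_cfc hy c]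
  unfold rt
  rw [← cfc_comp' Real.sqrt (fun t : ℝ => t + c) y Real.continuous_sqrt.continuousOn
    (by fun_prop) hsa]

theorem s4a_rt_add_le {y : M} (hy : 0 ≤ y) {c : ℝ} (hc : 0 ≤ c) :
    rt (y + algebraMap ℝ M c) ≤ rt y + algebraMap ℝ M (√c) := by
  have hsa : IsSelfAdjoint y := IsSelfAdjoint.of_nonneg hy
  rw [s4a_rt_add hy c]
  have h1 : rt y + algebraMap ℝ M (√c) = cfc (fun t : ℝ => √t + √c) y := by
    rw [cfc_add_const (√c) Real.sqrt y Real.continuous_sqrt.continuousOn hsa]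
    rfl
  rw [h1]
  refine cfc_mono (fun t ht => ?_) (by fun_prop) (by fun_prop)
  have ht0 : 0 ≤ t := spectrum_nonneg_of_nonneg hy ht
  rw [Real.sqrt_le_left (by positivity)]
  have h2 := Real.sq_sqrt ht0
  have h3 := Real.sq_sqrt hc
  have h4 := Real.sqrt_nonneg t
  have h5 := Real.sqrt_nonneg c
  nlinarith [mul_nonneg h4 h5]

theorem norm_rt_sub_le {x y : M} (hx : 0 ≤ x) (hy : 0 ≤ y) : ‖rt x - rt y‖ ≤ √‖x - y‖ := by
  have hxs : IsSelfAdjoint x := IsSelfAdjoint.of_nonneg hx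
  have hys : IsSelfAdjoint y := IsSelfAdjoint.of_nonneg hy
  refine norm_sub_le_of_le (IsSelfAdjoint.of_nonneg (rt_nonneg x))
    (IsSelfAdjoint.of_nonneg (rt_nonneg y)) (Real.sqrt_nonneg _) ?_ ?_
  · refine (s4a_rt_mono hx (le_add_of_norm_sub_le hxs hys le_rfl)).trans ?_
    exact s4a_rt_add_le hy (norm_nonneg _)
  · refine (s4a_rt_mono hy (le_add_of_norm_sub_le hys hxs (c := ‖x - y‖) ?_)).trans ?_
    · rw [norm_sub_rev]
    · exact s4a_rt_add_le hx (norm_nonneg _)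

theorem s4a_continuous_rvfun {κ : ℝ} (hκ : 0 < κ) :
    Continuous (fun t : ℝ => (√(max t 0 + κ))⁻¹) := by
  refine Continuous.inv₀ (by fun_prop) (fun t => ?_)
  have h : 0 < max t 0 + κ := by
    have := le_max_right t 0
    linarith
  exact (Real.sqrt_pos.mpr h).ne'

theorem rv_nonneg {κ : ℝ} (hκ : 0 < κ) (N : M) : 0 ≤ rv κ N :=
  cfc_nonneg (fun x _ => inv_nonneg.mpr (Real.sqrt_nonneg _))

theorem rv_star {κ : ℝ} (N : M) : star (rv κ N) = rv κ N := by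
  have h : IsSelfAdjoint (cfc (fun t : ℝ => (√(max t 0 + κ))⁻¹) N) := cfc_predicate _ N
  exact h.star_eq

theorem rv_conj {κ : ℝ} (hκ : 0 < κ) {N : M} (hN : 0 ≤ N) :
    rv κ N * (N + algebraMap ℝ M κ) * rv κ N = 1 := by
  have hsa : IsSelfAdjoint N := IsSelfAdjoint.of_nonneg hN
  have hc := s4a_continuous_rvfun hκ
  have hc2 : Continuous (fun t : ℝ => t + κ) := by fun_prop
  rw [s4a_add_eq_cfc hN κ]
  unfold rv
  rw [← cfc_mul (fun t : ℝ => (√(max t 0 + κ))⁻¹) (fun t : ℝ => t + κ) N hc.continuousOn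
    hc2.continuousOn]
  rw [← cfc_mul (fun t : ℝ => (√(max t 0 + κ))⁻¹ * (t + κ)) (fun t : ℝ => (√(max t 0 + κ))⁻¹) N
    (hc.mul hc2).continuousOn hc.continuousOn]
  rw [← cfc_const_one ℝ N]
  refine cfc_congr (fun t ht => ?_)
  have ht0 : 0 ≤ t := spectrum_nonneg_of_nonneg hN ht
  show (√(max t 0 + κ))⁻¹ * (t + κ) * (√(max t 0 + κ))⁻¹ = 1
  rw [max_eq_left ht0]
  have h1 : 0 < t + κ := by linarith
  have h2 : 0 < √(t + κ) := Real.sqrt_pos.mpr h1
  have h3 : √(t + κ) * √(t + κ) = t + κ := Real.mul_self_sqrt h1.le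
  field_simp
  rw [sq, h3]

/-- `rv κ N (N + κ)^{1/2} = 1` -/
theorem rv_mul_rt {κ : ℝ} (hκ : 0 < κ) {N : M} (hN : 0 ≤ N) :
    rv κ N * rt (N + algebraMap ℝ M κ) = 1 := by
  have hsa : IsSelfAdjoint N := IsSelfAdjoint.of_nonneg hN
  have hc := s4a_continuous_rvfun hκ
  have hc2 : Continuous (fun t : ℝ => √(t + κ)) := by fun_prop
  rw [s4a_rt_add hN κ]
  unfold rv
  rw [← cfc_mul (fun t : ℝ => (√(max t 0 + κ))⁻¹) (fun t : ℝ => √(t + κ)) N hc.continuousOn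
    hc2.continuousOn]
  rw [← cfc_const_one ℝ N]
  refine cfc_congr (fun t ht => ?_)
  have ht0 : 0 ≤ t := spectrum_nonneg_of_nonneg hN ht
  show (√(max t 0 + κ))⁻¹ * √(t + κ) = 1
  rw [max_eq_left ht0]
  have h1 : 0 < t + κ := by linarith
  exact inv_mul_cancel₀ (Real.sqrt_pos.mpr h1).ne'

theorem continuous_rv {X : Type*} [TopologicalSpace X] {κ : ℝ} (hκ : 0 < κ) {N : X → M}
    (hN : Continuous N) (h : ∀ x, 0 ≤ N x) : Continuous fun x => rv κ (N x) :=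
  continuous_cfc_of_continuous _ (s4a_continuous_rvfun hκ) hN
    (fun x => IsSelfAdjoint.of_nonneg (h x))

theorem continuous_rt {X : Type*} [TopologicalSpace X] {a : X → M}
    (ha : Continuous a) (h : ∀ x, 0 ≤ a x) : Continuous fun x => rt (a x) :=
  continuous_cfc_of_continuous _ Real.continuous_sqrt ha (fun x => IsSelfAdjoint.of_nonneg (h x))

/-- (0.4) `R = (N + κ)^{-1/2} a^{1/2}`: `‖R‖² = ‖R R*‖ = ‖Q a Q‖ ≤ 1/c` as `c a ≤ N + κ` and
`Q (N + κ) Q = 1`; `R* N R = a - κ R* R`. -/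
theorem normaliser {N a : M} (hN : 0 ≤ N) (ha : 0 ≤ a) {κ c : ℝ} (hκ : 0 < κ) (hc : 0 < c)
    (h : c • a ≤ N + algebraMap ℝ M κ) :
    ‖rv κ N * rt a‖ ≤ 1 / √c ∧
    ‖star (rv κ N * rt a) * N * (rv κ N * rt a) - a‖ ≤ κ / c ∧
    star (rv κ N * rt a) * N * (rv κ N * rt a) ≤ a := by
  have hQ := rv_conj hκ hN
  have hQs : star (rv κ N) = rv κ N := rv_star N
  have hA := rt_mul_rt ha
  have hAs := rt_star a
  set Q := rv κ N with hQdef
  set A := rt a with hAdef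
  have hsc : 0 < √c := Real.sqrt_pos.mpr hc
  have hsc2 : √c ^ 2 = c := Real.sq_sqrt hc.le
  -- first part
  have h1 : ‖Q * A‖ ≤ 1 / √c := by
    rw [← norm_star]
    refine norm_le_of_star_mul_le (by positivity) ?_
    rw [star_star]
    have h2 : Q * A * star (Q * A) = Q * a * Q := by
      rw [star_mul, hQs, hAs, mul_assoc, ← mul_assoc A, hA, ← mul_assoc]
    rw [h2]
    have h3 : star Q * (c • a) * Q ≤ star Q * (N + algebraMap ℝ M κ) * Q :=
      star_left_conjugate_le_conjugate h Q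
    rw [hQs, hQ, mul_smul_comm, smul_mul_assoc] at h3
    have h4 : c⁻¹ • (c • (Q * a * Q)) ≤ c⁻¹ • (1 : M) :=
      smul_le_smul_of_nonneg_left h3 (inv_nonneg.mpr hc.le)
    rw [smul_smul, inv_mul_cancel₀ hc.ne', one_smul] at h4
    refine h4.trans (le_of_eq ?_)
    rw [Algebra.algebraMap_eq_smul_one, one_div, inv_pow, hsc2]
  have hk : Q * N * Q = 1 - κ • (Q * Q) := by
    have h5 : Q * (N + algebraMap ℝ M κ) * Q = Q * N * Q + κ • (Q * Q) := by
      rw [mul_add, add_mul, Algebra.algebraMap_eq_smul_one, mul_smul_comm, mul_one,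
        smul_mul_assoc]
    rw [h5] at hQ
    exact eq_sub_of_add_eq hQ
  have h6 : star (Q * A) * N * (Q * A) = a - κ • (star (Q * A) * (Q * A)) := by
    have h7 : star (Q * A) * N * (Q * A) = A * (Q * N * Q) * A := by
      rw [star_mul, hQs, hAs]
      simp only [mul_assoc]
    rw [h7, hk, mul_sub, sub_mul, mul_one, hA, mul_smul_comm, smul_mul_assoc, star_mul, hQs, hAs]
    simp only [mul_assoc]
  refine ⟨h1, ?_, ?_⟩
  · rw [h6]
    have h8 : a - κ • (star (Q * A) * (Q * A)) - a = -(κ • (star (Q * A) * (Q * A))) := by abel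
    rw [h8, norm_neg, norm_smul, Real.norm_eq_abs, abs_of_pos hκ, CStarRing.norm_star_mul_self]
    have h9 : ‖Q * A‖ * ‖Q * A‖ ≤ 1 / c := by
      calc ‖Q * A‖ * ‖Q * A‖ ≤ (1 / √c) * (1 / √c) :=
            mul_le_mul h1 h1 (norm_nonneg _) (by positivity)
        _ = 1 / c := by
            rw [div_mul_div_comm, one_mul, ← sq, hsc2]
    calc κ * (‖Q * A‖ * ‖Q * A‖) ≤ κ * (1 / c) := mul_le_mul_of_nonneg_left h9 hκ.le
      _ = κ / c := by ring
  · rw [h6]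
    refine sub_le_self _ ?_
    exact smul_nonneg hκ.le (star_mul_self_nonneg _)

end RC12.S4
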