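import Pool.Agent.LibRC12.S4A

/-!
# [S4B] the cutoff functions of `a` and the lift

Hints. Everything is functional calculus of one element: `cfc_mul`, `cfc_congr`/`cfc_mono` on the
spectrum (`spectrum_nonneg_of_nonneg`), `norm_cfc_le`. `G1_comp`: `rp e t * rp (e/2) t = rp e t`.
`G1_conj_ge`: `t - 2 e ≤ rp e t * t * rp e t` for `t ≥ 0` (`t ≥ 2e`: equality up to `2e`).
-/

open Filter Topology WeakDual
open scoped ENNReal NNReal ComplexOrder

set_option linter.unusedSectionVars false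

namespace RC12.S4

variable {M : Type*} [CStarAlgebra M] [PartialOrder M] [StarOrderedRing M]

theorem G1_nonneg (e : ℝ) (a : M) : 0 ≤ G1 e a := cfc_nonneg (fun t _ => rp_nonneg e t)

theorem G2_nonneg (e : ℝ) (a : M) : 0 ≤ G2 e a := cfc_nonneg (fun t _ => rp_nonneg (e / 2) t)

theorem G1_star (e : ℝ) (a : M) : star (G1 e a) = G1 e a :=
  (IsSelfAdjoint.of_nonneg (G1_nonneg e a)).star_eq

theorem norm_G1_le (e : ℝ) (a : M) : ‖G1 e a‖ ≤ 1 := by
  refine norm_cfc_le zero_le_one (fun t _ => ?_)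
  rw [Real.norm_eq_abs, abs_of_nonneg (rp_nonneg e t)]
  exact rp_le_one e t

theorem s4b_one_sub (e : ℝ) {a : M} (ha : 0 ≤ a) :
    1 - G1 e a = cfc (fun t : ℝ => 1 - rp e t) a := by
  have hsa : IsSelfAdjoint a := IsSelfAdjoint.of_nonneg ha
  rw [cfc_sub (fun _ : ℝ => (1 : ℝ)) (rp e) a continuous_const.continuousOn
    (continuous_rp e).continuousOn, cfc_const_one ℝ a hsa]
  rfl

theorem norm_one_sub_G1_le (e : ℝ) {a : M} (ha : 0 ≤ a) : ‖1 - G1 e a‖ ≤ 1 := by
  rw [s4b_one_sub e ha]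
  refine norm_cfc_le zero_le_one (fun t _ => ?_)
  have h1 := rp_nonneg e t
  have h2 := rp_le_one e t
  rw [Real.norm_eq_abs, abs_le]
  constructor <;> linarith

theorem G1_mul_G2 {e : ℝ} (he : 0 < e) {a : M} (ha : 0 ≤ a) : G1 e a * G2 e a = G1 e a := by
  have hsa : IsSelfAdjoint a := IsSelfAdjoint.of_nonneg ha
  unfold G1 G2
  rw [← cfc_mul (rp e) (rp (e / 2)) a (continuous_rp e).continuousOn
    (continuous_rp (e / 2)).continuousOn]
  refine cfc_congr (fun t _ => ?_)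
  show rp e t * rp (e / 2) t = rp e t
  rcases le_total t e with h | h
  · rw [rp_of_le he h, zero_mul]
  · have h2 : rp (e / 2) t = 1 := rp_of_ge (by linarith) (by linarith)
    rw [h2, mul_one]

/-- conjugation of `a` by a function of `a` -/
theorem s4b_conj (f : ℝ → ℝ) (hf : Continuous f) {a : M} (ha : 0 ≤ a) :
    cfc f a * a * cfc f a = cfc (fun t : ℝ => f t * t * f t) a := by
  have hsa : IsSelfAdjoint a := IsSelfAdjoint.of_nonneg ha
  have h1 : cfc (fun t : ℝ => f t * t) a = cfc f a * a := by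
    rw [cfc_mul f (fun t : ℝ => t) a hf.continuousOn continuous_id.continuousOn,
      cfc_id' ℝ a hsa]
  rw [← h1, ← cfc_mul (fun t : ℝ => f t * t) f a (hf.mul continuous_id).continuousOn
    hf.continuousOn]

theorem norm_G1_conj_sub_le {e : ℝ} (he : 0 < e) {a : M} (ha : 0 ≤ a) :
    ‖G1 e a * a * G1 e a - a‖ ≤ 2 * e := by
  have hsa : IsSelfAdjoint a := IsSelfAdjoint.of_nonneg ha
  have hf := continuous_rp e
  have h1 : G1 e a * a * G1 e a - a = cfc (fun t : ℝ => rp e t * t * rp e t - t) a := by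
    rw [cfc_sub (fun t : ℝ => rp e t * t * rp e t) (fun t : ℝ => t) a
      ((hf.mul continuous_id).mul hf).continuousOn continuous_id.continuousOn,
      cfc_id' ℝ a hsa, ← s4b_conj (rp e) hf ha]
    rfl
  rw [h1]
  refine norm_cfc_le (by linarith) (fun t ht => ?_)
  have ht0 : 0 ≤ t := spectrum_nonneg_of_nonneg ha ht
  have h2 := rp_nonneg e t
  have h3 := rp_le_one e t
  rcases le_total t (2 * e) with h | h
  · have h4 : rp e t * t * rp e t ≤ t := by nlinarith [mul_nonneg h2 ht0]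
    have h5 : 0 ≤ rp e t * t * rp e t := mul_nonneg (mul_nonneg h2 ht0) h2
    rw [Real.norm_eq_abs, abs_le]
    constructor <;> linarith
  · rw [rp_of_ge he h, one_mul, mul_one, sub_self, norm_zero]
    linarith

theorem norm_one_sub_G1_conj_le {e : ℝ} (he : 0 < e) {a : M} (ha : 0 ≤ a) :
    ‖(1 - G1 e a) * a * (1 - G1 e a)‖ ≤ 2 * e := by
  have hf : Continuous (fun t : ℝ => 1 - rp e t) := continuous_const.sub (continuous_rp e)
  rw [s4b_one_sub e ha, s4b_conj _ hf ha]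
  refine norm_cfc_le (by linarith) (fun t ht => ?_)
  have ht0 : 0 ≤ t := spectrum_nonneg_of_nonneg ha ht
  have h2 := rp_nonneg e t
  have h3 := rp_le_one e t
  rcases le_total t (2 * e) with h | h
  · have h6 : 0 ≤ 1 - rp e t := by linarith
    have h7 : 1 - rp e t ≤ 1 := by linarith
    have h5 : 0 ≤ (1 - rp e t) * t * (1 - rp e t) := mul_nonneg (mul_nonneg h6 ht0) h6
    have h4 : (1 - rp e t) * t * (1 - rp e t) ≤ t := by nlinarith [mul_nonneg h6 ht0]
    rw [Real.norm_eq_abs, abs_of_nonneg h5]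
    linarith
  · rw [rp_of_ge he h, sub_self, zero_mul, zero_mul, norm_zero]
    linarith

theorem s4b_continuous_cut (e : ℝ) : Continuous (fun t : ℝ => max (t - e) 0) := by fun_prop

theorem s4b_rt_cut (e : ℝ) {a : M} (ha : 0 ≤ a) :
    rt (cut e a) = cfc (fun t : ℝ => √(max (t - e) 0)) a := by
  have hsa : IsSelfAdjoint a := IsSelfAdjoint.of_nonneg ha
  unfold rt cut
  rw [← cfc_comp' Real.sqrt (fun t : ℝ => max (t - e) 0) a Real.continuous_sqrt.continuousOn
    (s4b_continuous_cut e).continuousOn hsa]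

theorem rt_cut_mul_G1 {e : ℝ} (he : 0 < e) {a : M} (ha : 0 ≤ a) :
    rt (cut (2 * e) a) * G1 e a = rt (cut (2 * e) a) := by
  rw [s4b_rt_cut _ ha]
  unfold G1
  have hc : Continuous (fun t : ℝ => √(max (t - 2 * e) 0)) := by fun_prop
  rw [← cfc_mul (fun t : ℝ => √(max (t - 2 * e) 0)) (rp e) a hc.continuousOn
    (continuous_rp e).continuousOn]
  refine cfc_congr (fun t _ => ?_)
  show √(max (t - 2 * e) 0) * rp e t = √(max (t - 2 * e) 0)
  rcases le_total t (2 * e) with h | h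
  · rw [max_eq_right (by linarith), Real.sqrt_zero, zero_mul]
  · rw [rp_of_ge he h, mul_one]

/-- use `cu_cfc` -/
theorem cu_G2 {e : ℝ} (he : 0 < e) {a : M} (ha : 0 ≤ a) : Cu (G2 e a) (cut (e / 2) a) := by
  unfold G2 cut
  refine cu_cfc ha (continuous_rp (e / 2)) (s4b_continuous_cut (e / 2))
    (fun t _ => rp_nonneg (e / 2) t) (fun t _ => le_max_right _ _) (fun t _ h => ?_)
  refine rp_of_le (by linarith) ?_
  have h1 : t - e / 2 ≤ max (t - e / 2) 0 := le_max_left _ _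
  rw [h] at h1
  linarith

theorem norm_cut_sub_le {e : ℝ} (he : 0 ≤ e) {a : M} (ha : 0 ≤ a) : ‖cut e a - a‖ ≤ e := by
  have hsa : IsSelfAdjoint a := IsSelfAdjoint.of_nonneg ha
  have h1 : cut e a - a = cfc (fun t : ℝ => max (t - e) 0 - t) a := by
    rw [cfc_sub (fun t : ℝ => max (t - e) 0) (fun t : ℝ => t) a
      (s4b_continuous_cut e).continuousOn continuous_id.continuousOn, cfc_id' ℝ a hsa]
    rfl
  rw [h1]
  refine norm_cfc_le he (fun t ht => ?_)
  have ht0 : 0 ≤ t := spectrum_nonneg_of_nonneg ha ht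
  rw [Real.norm_eq_abs, abs_le]
  rcases le_total (t - e) 0 with h | h
  · rw [max_eq_right h]
    constructor <;> linarith
  · rw [max_eq_left h]
    constructor <;> linarith

theorem norm_cut_le {e : ℝ} (he : 0 ≤ e) {a : M} (ha : 0 ≤ a) : ‖cut e a‖ ≤ ‖a‖ := by
  have hsa : IsSelfAdjoint a := IsSelfAdjoint.of_nonneg ha
  have h0 : 0 ≤ cut e a := cfc_nonneg (fun t _ => le_max_right _ _)
  refine CStarAlgebra.norm_le_norm_of_nonneg_of_le h0 ?_
  have h1 : cfc (fun t : ℝ => max (t - e) 0) a ≤ cfc (fun t : ℝ => t) a := by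
    refine cfc_mono (fun t ht => ?_) (s4b_continuous_cut e).continuousOn
      continuous_id.continuousOn
    have ht0 : 0 ≤ t := spectrum_nonneg_of_nonneg ha ht
    exact max_le (by linarith) ht0
  rw [cfc_id' ℝ a hsa] at h1
  exact h1

theorem s4b_continuous_lam {δ : ℝ} (hδ : 0 < δ) : Continuous (fun t : ℝ => (√(max t δ))⁻¹) := by
  refine Continuous.inv₀ (by fun_prop) (fun t => ?_)
  have h : 0 < max t δ := lt_of_lt_of_le hδ (le_max_right t δ)
  exact (Real.sqrt_pos.mpr h).ne'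

theorem norm_lam_le {δ : ℝ} (hδ : 0 < δ) (b : M) : ‖lam δ b‖ ≤ 1 / √δ := by
  have h0 : 0 < √δ := Real.sqrt_pos.mpr hδ
  refine norm_cfc_le (by positivity) (fun t _ => ?_)
  rw [Real.norm_eq_abs, abs_of_nonneg (inv_nonneg.mpr (Real.sqrt_nonneg _)), one_div]
  exact inv_anti₀ h0 (Real.sqrt_le_sqrt (le_max_right t δ))

theorem s4b_rt_lam {δ : ℝ} (hδ : 0 < δ) (g : ℝ → ℝ) (hg : Continuous g)
    (h : ∀ t, 0 ≤ t → t ≤ δ → g t = 0) {b : M} (hb : 0 ≤ b) :
    rt b * lam δ b * cfc g b = cfc g b := by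
  have hl := s4b_continuous_lam hδ
  unfold rt lam
  rw [← cfc_mul Real.sqrt (fun t : ℝ => (√(max t δ))⁻¹) b Real.continuous_sqrt.continuousOn
    hl.continuousOn]
  rw [← cfc_mul (fun t : ℝ => √t * (√(max t δ))⁻¹) g b
    (Real.continuous_sqrt.mul hl).continuousOn hg.continuousOn]
  refine cfc_congr (fun t ht => ?_)
  have ht0 : 0 ≤ t := spectrum_nonneg_of_nonneg hb ht
  show √t * (√(max t δ))⁻¹ * g t = g t
  rcases le_total t δ with h1 | h1
  · rw [h t ht0 h1, mul_zero]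
  · have h2 : 0 < t := lt_of_lt_of_le hδ h1
    rw [max_eq_left h1, mul_inv_cancel₀ (Real.sqrt_pos.mpr h2).ne', one_mul]

/-- `b^{1/2} b^{-1/2} (b - δ)_+ = (b - δ)_+` -/
theorem rt_lam_cut {δ : ℝ} (hδ : 0 < δ) {b : M} (hb : 0 ≤ b) :
    rt b * lam δ b * cut δ b = cut δ b :=
  s4b_rt_lam hδ _ (s4b_continuous_cut δ) (fun t _ h => max_eq_right (by linarith)) hb

/-- `b^{1/2} b^{-1/2} ((b - δ)_+)^{1/2} = ((b - δ)_+)^{1/2}` -/
theorem rt_lam_rt_cut {δ : ℝ} (hδ : 0 < δ) {b : M} (hb : 0 ≤ b) :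
    rt b * lam δ b * rt (cut δ b) = rt (cut δ b) := by
  rw [s4b_rt_cut δ hb]
  refine s4b_rt_lam hδ _ (by fun_prop) (fun t _ h => ?_) hb
  rw [max_eq_right (by linarith), Real.sqrt_zero]

end RC12.S4
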