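import Pool.Agent.LibRC12.S4B

/-!
# [S4B2] the lift and the point estimate

With `R = (N+κ)^{-1/2} a^{1/2}` (`normaliser`), `b = rt b * rt b`, `rt_lam_cut`.
-/

open Filter Topology WeakDual
open scoped ENNReal NNReal ComplexOrder

set_option linter.unusedSectionVars false

namespace RC12.S4

variable {M : Type*} [CStarAlgebra M] [PartialOrder M] [StarOrderedRing M]

/-- the element `X = X_0 + (b - δ)_+ U`, `X_0 = b^{1/2} v_0 g` -/
noncomputable def xx (e δ : ℝ) (a b v0 U : M) : M := rt b * v0 * G1 e a + cut δ b * U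

/-- its lift, normalised: `b^{1/2} w = X (X* X + κ)^{-1/2} a^{1/2}` -/
noncomputable def ww (e δ κ : ℝ) (a b v0 U : M) : M :=
  (v0 * G1 e a + lam δ b * (cut δ b * U)) *
    (rv κ (star (xx e δ a b v0 U) * xx e δ a b v0 U) * rt a)

theorem rt_mul_ww {e δ κ : ℝ} (hδ : 0 < δ) {a b v0 U : M} (hb : 0 ≤ b) :
    rt b * ww e δ κ a b v0 U = xx e δ a b v0 U *
      (rv κ (star (xx e δ a b v0 U) * xx e δ a b v0 U) * rt a) := by
  unfold ww
  generalize rv κ (star (xx e δ a b v0 U) * xx e δ a b v0 U) * rt a = R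
  have h := rt_lam_cut hδ hb
  calc rt b * ((v0 * G1 e a + lam δ b * (cut δ b * U)) * R)
      = (rt b * v0 * G1 e a + (rt b * lam δ b * cut δ b) * U) * R := by
        simp only [mul_add, add_mul, mul_assoc]
    _ = xx e δ a b v0 U * R := by rw [h]; rfl

theorem star_ww_mul {e δ κ : ℝ} (hδ : 0 < δ) {a b v0 U : M} (hb : 0 ≤ b) :
    star (ww e δ κ a b v0 U) * b * ww e δ κ a b v0 U =
      star (rv κ (star (xx e δ a b v0 U) * xx e δ a b v0 U) * rt a) *
      (star (xx e δ a b v0 U) * xx e δ a b v0 U) *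
      (rv κ (star (xx e δ a b v0 U) * xx e δ a b v0 U) * rt a) := by
  have h := rt_mul_ww (e := e) (κ := κ) (a := a) (v0 := v0) (U := U) hδ hb
  generalize rv κ (star (xx e δ a b v0 U) * xx e δ a b v0 U) * rt a = R at h ⊢
  generalize ww e δ κ a b v0 U = w at h ⊢
  calc star w * b * w = star w * (rt b * rt b) * w := by rw [rt_mul_rt hb]
    _ = star (rt b * w) * (rt b * w) := by
        rw [star_mul, rt_star]
        simp only [mul_assoc]
    _ = star R * (star (xx e δ a b v0 U) * xx e δ a b v0 U) * R := by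
        rw [h, star_mul]
        simp only [mul_assoc]

private theorem S4B2_sq {x : M} {c : ℝ} (hc : 0 ≤ c) (h : ‖star x * x‖ ≤ c ^ 2) : ‖x‖ ≤ c := by
  rw [CStarRing.norm_star_mul_self, ← sq] at h
  exact (abs_le_of_sq_le_sq' h hc).2

/-- [point estimate] with `X = X_0 + (b-δ)_+ U`, `N = X* X`: if `c a ≤ N + κ` and
`X_0* X_0 ≤ N + σ`, `σ ≤ c`, then `w` has error `≤ κ/c` and norm `≤ ‖v_0‖/√c + 3/√δ`.
With `R = (N+κ)^{-1/2} a^{1/2}`: `w = v_0 g R + lam (X - X_0) R`, `‖X R‖² = ‖R* N R‖ ≤ ‖a‖ ≤ 1`,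
`‖X_0 R‖² ≤ ‖R* N R‖ + σ ‖R‖² ≤ 2`. -/
theorem point_est {e δ κ c σ : ℝ} (hδ : 0 < δ) (hκ : 0 < κ) (hc : 0 < c) (hσ0 : 0 ≤ σ)
    (hσ : σ ≤ c) {a b v0 U : M} (ha : 0 ≤ a) (ha1 : ‖a‖ ≤ 1) (hb : 0 ≤ b)
    (h1 : c • a ≤ star (xx e δ a b v0 U) * xx e δ a b v0 U + algebraMap ℝ M κ)
    (h2 : star (rt b * v0 * G1 e a) * (rt b * v0 * G1 e a) ≤
      star (xx e δ a b v0 U) * xx e δ a b v0 U + algebraMap ℝ M σ) :
    ‖star (ww e δ κ a b v0 U) * b * ww e δ κ a b v0 U - a‖ ≤ κ / c ∧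
    ‖ww e δ κ a b v0 U‖ ≤ ‖v0‖ / √c + 3 / √δ := by
  have hN : 0 ≤ star (xx e δ a b v0 U) * xx e δ a b v0 U := star_mul_self_nonneg _
  obtain ⟨n1, n2, n3⟩ := normaliser hN ha hκ hc h1
  rw [star_ww_mul hδ hb]
  refine ⟨n2, ?_⟩
  have hw : ww e δ κ a b v0 U = (v0 * G1 e a + lam δ b * (cut δ b * U)) *
      (rv κ (star (xx e δ a b v0 U) * xx e δ a b v0 U) * rt a) := rfl
  have hX : cut δ b * U = xx e δ a b v0 U - rt b * v0 * G1 e a := by unfold xx; abel
  rw [hw, hX]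
  generalize rv κ (star (xx e δ a b v0 U) * xx e δ a b v0 U) * rt a = R at n1 n2 n3 ⊢
  generalize xx e δ a b v0 U = X at h1 h2 hN n2 n3 ⊢
  clear hw hX h1 n2
  have hsc : 0 < √c := Real.sqrt_pos.2 hc
  have hsδ : 0 < √δ := Real.sqrt_pos.2 hδ
  -- `‖R* N R‖ ≤ 1`
  have m1 : ‖star R * (star X * X) * R‖ ≤ 1 :=
    (CStarAlgebra.norm_le_norm_of_nonneg_of_le (star_left_conjugate_nonneg hN R) n3).trans ha1
  have m2 : ‖X * R‖ ≤ 1 := by
    apply S4B2_sq zero_le_one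
    have : star (X * R) * (X * R) = star R * (star X * X) * R := by
      rw [star_mul]; simp only [mul_assoc]
    rw [this, one_pow]
    exact m1
  have hR2 : ‖star R * R‖ ≤ 1 / c := by
    rw [CStarRing.norm_star_mul_self]
    calc ‖R‖ * ‖R‖ ≤ (1 / √c) * (1 / √c) := mul_le_mul n1 n1 (norm_nonneg _) (by positivity)
      _ = 1 / c := by
        rw [div_mul_div_comm, one_mul, Real.mul_self_sqrt hc.le]
  have m3 : ‖(rt b * v0 * G1 e a) * R‖ ≤ 2 := by
    apply S4B2_sq zero_le_two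
    have e1 : star ((rt b * v0 * G1 e a) * R) * ((rt b * v0 * G1 e a) * R) =
        star R * (star (rt b * v0 * G1 e a) * (rt b * v0 * G1 e a)) * R := by
      rw [star_mul]; simp only [mul_assoc]
    rw [e1]
    have e2 := star_left_conjugate_le_conjugate h2 R
    have e3 : 0 ≤ star R * (star (rt b * v0 * G1 e a) * (rt b * v0 * G1 e a)) * R :=
      star_left_conjugate_nonneg (star_mul_self_nonneg _) R
    have e4 : star R * (star X * X + algebraMap ℝ M σ) * R =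
        star R * (star X * X) * R + σ • (star R * R) := by
      rw [mul_add, add_mul, Algebra.algebraMap_eq_smul_one, mul_smul_comm, mul_one, smul_mul_assoc]
    rw [e4] at e2
    refine (CStarAlgebra.norm_le_norm_of_nonneg_of_le e3 e2).trans ((norm_add_le _ _).trans ?_)
    have e5 : ‖σ • (star R * R)‖ ≤ 1 := by
      rw [norm_smul, Real.norm_eq_abs, abs_of_nonneg hσ0]
      calc σ * ‖star R * R‖ ≤ σ * (1 / c) := mul_le_mul_of_nonneg_left hR2 hσ0
        _ = σ / c := by ring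
        _ ≤ 1 := (div_le_one hc).2 hσ
    calc ‖star R * (star X * X) * R‖ + ‖σ • (star R * R)‖ ≤ 1 + 1 := add_le_add m1 e5
      _ ≤ (2 : ℝ) ^ 2 := by norm_num
  have e6 : (v0 * G1 e a + lam δ b * (X - rt b * v0 * G1 e a)) * R =
      v0 * (G1 e a * R) + lam δ b * (X * R - (rt b * v0 * G1 e a) * R) := by
    simp only [add_mul, mul_sub, sub_mul, mul_assoc]
  rw [e6]
  refine (norm_add_le _ _).trans (add_le_add ?_ ?_)
  · calc ‖v0 * (G1 e a * R)‖ ≤ ‖v0‖ * (‖G1 e a‖ * ‖R‖) :=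
          (norm_mul_le _ _).trans (mul_le_mul_of_nonneg_left (norm_mul_le _ _) (norm_nonneg _))
      _ ≤ ‖v0‖ * (1 * (1 / √c)) := by
          apply mul_le_mul_of_nonneg_left _ (norm_nonneg _)
          exact mul_le_mul (norm_G1_le e a) n1 (norm_nonneg _) zero_le_one
      _ = ‖v0‖ / √c := by ring
  · calc ‖lam δ b * (X * R - (rt b * v0 * G1 e a) * R)‖
        ≤ ‖lam δ b‖ * (‖X * R‖ + ‖(rt b * v0 * G1 e a) * R‖) :=
          (norm_mul_le _ _).trans (mul_le_mul_of_nonneg_left (norm_sub_le _ _) (norm_nonneg _))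
      _ ≤ (1 / √δ) * (1 + 2) := by
          apply mul_le_mul (norm_lam_le hδ b) (add_le_add m2 m3) (by positivity) (by positivity)
      _ = 3 / √δ := by ring

end RC12.S4
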