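import Pool.Agent.LibRC12.S4B2

/-!
# [S4C] the start segment

`y = b^{1/2} v_0`, `X_0 = y g`, `N_0 = X_0* X_0`, `Q = (N_0 + κ)^{-1/2}`, `κ = 4 ε`, `P = X_0 Q`,
`‖P‖ ≤ 1`, `w_0 = v_0 g Q a^{1/2}` (`= ww … 0`), `b^{1/2} w_0 = P a^{1/2}`,
`X_0 = P (N_0 + κ)^{1/2}`, so `‖X_0 - b^{1/2} w_0‖ ≤ ‖N_0 + κ - a‖^{1/2} ≤ √(6 ε)`
(`norm_rt_sub_le`); `‖y - X_0‖² = ‖(1-g) y*y (1-g)‖ ≤ ε + 2 e ≤ 2 ε`. Hence
`‖y - b^{1/2} w_0‖ ≤ 4 √ε` and all Gram matrices on the segment are within `32 √ε` of `a`.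
-/

open Filter Topology WeakDual
open scoped ENNReal NNReal ComplexOrder

set_option linter.unusedSectionVars false

namespace RC12.S4

variable {M : Type*} [CStarAlgebra M] [PartialOrder M] [StarOrderedRing M]

theorem s4c_one_nonneg : (0 : M) ≤ 1 := by simpa using star_mul_self_nonneg (1 : M)

theorem s4c_alg_mono {r s : ℝ} (h : r ≤ s) : algebraMap ℝ M r ≤ algebraMap ℝ M s := by
  rw [Algebra.algebraMap_eq_smul_one, Algebra.algebraMap_eq_smul_one]
  exact smul_le_smul_of_nonneg_right h s4c_one_nonneg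

theorem s4c_alg_nonneg {r : ℝ} (h : 0 ≤ r) : 0 ≤ algebraMap ℝ M r := by
  have := s4c_alg_mono (M := M) h
  rwa [map_zero] at this

theorem s4c_gram {b v0 : M} (hb : 0 ≤ b) :
    star (rt b * v0) * (rt b * v0) = star v0 * b * v0 := by
  rw [star_mul, rt_star, mul_assoc, ← mul_assoc (rt b), rt_mul_rt hb, ← mul_assoc]

theorem s4c_gram_nonneg {b v0 : M} (hb : 0 ≤ b) : 0 ≤ star v0 * b * v0 := by
  rw [← s4c_gram hb]
  exact star_mul_self_nonneg _

theorem s4c_N0 (e : ℝ) {a b v0 : M} (hb : 0 ≤ b) :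
    star (rt b * v0 * G1 e a) * (rt b * v0 * G1 e a) =
      G1 e a * (star v0 * b * v0) * G1 e a := by
  rw [star_mul, G1_star, ← s4c_gram hb]
  simp only [mul_assoc]

theorem s4c_G1_sq_le (e : ℝ) (a : M) : G1 e a * G1 e a ≤ 1 := by
  have h0 : 0 ≤ G1 e a * G1 e a := by
    have := star_mul_self_nonneg (G1 e a)
    rwa [G1_star] at this
  have h1 : ‖G1 e a * G1 e a‖ ≤ 1 := by
    refine (norm_mul_le _ _).trans ?_
    have := norm_G1_le e a
    have h2 := norm_nonneg (G1 e a)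
    nlinarith
  have h3 := (CStarAlgebra.norm_le_iff_le_algebraMap (G1 e a * G1 e a) zero_le_one h0).mp h1
  rwa [map_one] at h3

/-- `a ≤ X_0* X_0 + 4 ε` and more precisely `a ≤ X_0* X_0 + 2 ε` -/
theorem start_lower {e ε : ℝ} (he : 0 < e) (heε : e ≤ ε / 16) {a b v0 : M}
    (ha : 0 ≤ a) (hb : 0 ≤ b) (h : ‖star v0 * b * v0 - a‖ ≤ ε) :
    a ≤ star (rt b * v0 * G1 e a) * (rt b * v0 * G1 e a) + algebraMap ℝ M (2 * ε) := by
  have hasa : IsSelfAdjoint a := IsSelfAdjoint.of_nonneg ha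
  have hGsa : IsSelfAdjoint (star v0 * b * v0) := IsSelfAdjoint.of_nonneg (s4c_gram_nonneg hb)
  have hgsa : IsSelfAdjoint (G1 e a) := G1_star e a
  rw [s4c_N0 e hb]
  set g := G1 e a with hg
  set G := star v0 * b * v0 with hG
  have hsg : star g = g := G1_star e a
  have h1 : a ≤ g * a * g + algebraMap ℝ M (2 * e) := by
    refine le_add_of_norm_sub_le hasa ?_ ?_
    · have := hasa.conjugate g
      rwa [hsg] at this
    · rw [norm_sub_rev]
      exact norm_G1_conj_sub_le he ha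
  have h2 : a ≤ G + algebraMap ℝ M ε := by
    refine le_add_of_norm_sub_le hasa hGsa ?_
    rw [norm_sub_rev]
    exact h
  have h3 : g * a * g ≤ g * (G + algebraMap ℝ M ε) * g := by
    have := star_left_conjugate_le_conjugate h2 g
    rwa [hsg] at this
  have h4 : g * (G + algebraMap ℝ M ε) * g = g * G * g + ε • (g * g) := by
    rw [mul_add, add_mul, Algebra.algebraMap_eq_smul_one, mul_smul_comm, mul_one,
      smul_mul_assoc]
  have hε : 0 ≤ ε := by linarith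
  have h5 : ε • (g * g) ≤ ε • (1 : M) := smul_le_smul_of_nonneg_left (s4c_G1_sq_le e a) hε
  have h6 : g * a * g ≤ g * G * g + algebraMap ℝ M ε := by
    rw [h4] at h3
    refine h3.trans ?_
    rw [Algebra.algebraMap_eq_smul_one]
    exact add_le_add_right h5 _
  calc a ≤ g * a * g + algebraMap ℝ M (2 * e) := h1
    _ ≤ (g * G * g + algebraMap ℝ M ε) + algebraMap ℝ M (2 * e) := add_le_add_left h6 _
    _ = g * G * g + algebraMap ℝ M (ε + 2 * e) := by rw [map_add, add_assoc]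
    _ ≤ g * G * g + algebraMap ℝ M (2 * ε) := add_le_add_right (s4c_alg_mono (by linarith)) _

theorem s4c_ww_zero (e δ κ : ℝ) (a b v0 : M) :
    ww e δ κ a b v0 0 = v0 * G1 e a *
      (rv κ (star (rt b * v0 * G1 e a) * (rt b * v0 * G1 e a)) * rt a) := by
  unfold ww xx
  simp only [mul_zero, add_zero]

theorem s4c_norm_ww_le {e δ ε : ℝ} (he : 0 < e) (heε : e ≤ ε / 16)
    {a b v0 : M} (ha : 0 ≤ a) (hb : 0 ≤ b)
    (h : ‖star v0 * b * v0 - a‖ ≤ ε) : ‖ww e δ (4 * ε) a b v0 0‖ ≤ ‖v0‖ := by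
  have hε : 0 < ε := by linarith
  rw [s4c_ww_zero]
  have hlow := start_lower he heε ha hb h
  have hN : 0 ≤ star (rt b * v0 * G1 e a) * (rt b * v0 * G1 e a) := star_mul_self_nonneg _
  have hlow' : (1 : ℝ) • a ≤ star (rt b * v0 * G1 e a) * (rt b * v0 * G1 e a) +
      algebraMap ℝ M (4 * ε) := by
    rw [one_smul]
    exact hlow.trans (add_le_add_right (s4c_alg_mono (by linarith)) _)
  have hn := (normaliser hN ha (by linarith : (0 : ℝ) < 4 * ε) one_pos hlow').1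
  rw [Real.sqrt_one, div_one] at hn
  have hg := norm_G1_le e a
  calc ‖v0 * G1 e a * (rv (4 * ε) (star (rt b * v0 * G1 e a) * (rt b * v0 * G1 e a)) * rt a)‖
      ≤ ‖v0 * G1 e a‖ * ‖rv (4 * ε) (star (rt b * v0 * G1 e a) * (rt b * v0 * G1 e a)) * rt a‖ :=
        norm_mul_le _ _
    _ ≤ ‖v0 * G1 e a‖ * 1 := mul_le_mul_of_nonneg_left hn (norm_nonneg _)
    _ = ‖v0 * G1 e a‖ := mul_one _
    _ ≤ ‖v0‖ * ‖G1 e a‖ := norm_mul_le _ _
    _ ≤ ‖v0‖ * 1 := mul_le_mul_of_nonneg_left hg (norm_nonneg _)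
    _ = ‖v0‖ := mul_one _

theorem s4c_norm_y_sub {e ε : ℝ} (he : 0 < e) (heε : e ≤ ε / 16)
    {a b v0 : M} (ha : 0 ≤ a) (hb : 0 ≤ b) (h : ‖star v0 * b * v0 - a‖ ≤ ε) :
    ‖rt b * v0 - rt b * v0 * G1 e a‖ ≤ √(2 * ε) := by
  have hε : 0 < ε := by linarith
  have h1 : rt b * v0 - rt b * v0 * G1 e a = rt b * v0 * (1 - G1 e a) := by
    rw [mul_sub, mul_one]
  have hs : star (1 - G1 e a) = 1 - G1 e a := by rw [star_sub, star_one, G1_star]
  have h2 : star (rt b * v0 * (1 - G1 e a)) * (rt b * v0 * (1 - G1 e a)) =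
      (1 - G1 e a) * (star v0 * b * v0 - a) * (1 - G1 e a) +
        (1 - G1 e a) * a * (1 - G1 e a) := by
    rw [star_mul, hs, ← add_mul, ← mul_add, sub_add_cancel, ← s4c_gram hb]
    simp only [mul_assoc]
  have h3 : ‖star (rt b * v0 * (1 - G1 e a)) * (rt b * v0 * (1 - G1 e a))‖ ≤ 2 * ε := by
    rw [h2]
    have hn := norm_one_sub_G1_le e ha
    have hn0 := norm_nonneg (1 - G1 e a)
    have h4 : ‖(1 - G1 e a) * (star v0 * b * v0 - a) * (1 - G1 e a)‖ ≤ ε := by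
      calc ‖(1 - G1 e a) * (star v0 * b * v0 - a) * (1 - G1 e a)‖
          ≤ ‖(1 - G1 e a) * (star v0 * b * v0 - a)‖ * ‖1 - G1 e a‖ := norm_mul_le _ _
        _ ≤ ‖(1 - G1 e a) * (star v0 * b * v0 - a)‖ * 1 :=
            mul_le_mul_of_nonneg_left hn (norm_nonneg _)
        _ = ‖(1 - G1 e a) * (star v0 * b * v0 - a)‖ := mul_one _
        _ ≤ ‖1 - G1 e a‖ * ‖star v0 * b * v0 - a‖ := norm_mul_le _ _
        _ ≤ 1 * ε := mul_le_mul hn h (norm_nonneg _) zero_le_one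
        _ = ε := one_mul _
    have h5 := norm_one_sub_G1_conj_le he ha
    have h6 := norm_add_le ((1 - G1 e a) * (star v0 * b * v0 - a) * (1 - G1 e a))
      ((1 - G1 e a) * a * (1 - G1 e a))
    linarith
  rw [CStarRing.norm_star_mul_self] at h3
  rw [h1]
  refine Real.le_sqrt_of_sq_le ?_
  rw [sq]
  exact h3

theorem s4c_norm_N0_sub {e ε : ℝ} (he : 0 < e) (heε : e ≤ ε / 16)
    {a b v0 : M} (ha : 0 ≤ a) (hb : 0 ≤ b) (h : ‖star v0 * b * v0 - a‖ ≤ ε) :
    ‖star (rt b * v0 * G1 e a) * (rt b * v0 * G1 e a) + algebraMap ℝ M (4 * ε) - a‖ ≤ 6 * ε := by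
  have hε : 0 < ε := by linarith
  rw [s4c_N0 e hb]
  have h1 : G1 e a * (star v0 * b * v0) * G1 e a + algebraMap ℝ M (4 * ε) - a =
      G1 e a * (star v0 * b * v0 - a) * G1 e a + (G1 e a * a * G1 e a - a) +
        algebraMap ℝ M (4 * ε) := by
    rw [mul_sub, sub_mul]
    abel
  rw [h1]
  have hn := norm_G1_le e a
  have hn0 := norm_nonneg (G1 e a)
  have h4 : ‖G1 e a * (star v0 * b * v0 - a) * G1 e a‖ ≤ ε := by
    calc ‖G1 e a * (star v0 * b * v0 - a) * G1 e a‖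
        ≤ ‖G1 e a * (star v0 * b * v0 - a)‖ * ‖G1 e a‖ := norm_mul_le _ _
      _ ≤ ‖G1 e a * (star v0 * b * v0 - a)‖ * 1 :=
          mul_le_mul_of_nonneg_left hn (norm_nonneg _)
      _ = ‖G1 e a * (star v0 * b * v0 - a)‖ := mul_one _
      _ ≤ ‖G1 e a‖ * ‖star v0 * b * v0 - a‖ := norm_mul_le _ _
      _ ≤ 1 * ε := mul_le_mul hn h (norm_nonneg _) zero_le_one
      _ = ε := one_mul _
  have h5 := norm_G1_conj_sub_le he ha
  have h6 : ‖algebraMap ℝ M (4 * ε)‖ ≤ 4 * ε := by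
    refine (CStarAlgebra.norm_le_iff_le_algebraMap _ (by linarith)
      (s4c_alg_nonneg (by linarith))).mpr le_rfl
  have h7 := norm_add_le (G1 e a * (star v0 * b * v0 - a) * G1 e a + (G1 e a * a * G1 e a - a))
    (algebraMap ℝ M (4 * ε))
  have h8 := norm_add_le (G1 e a * (star v0 * b * v0 - a) * G1 e a) (G1 e a * a * G1 e a - a)
  linarith

theorem s4c_norm_X0_sub {e δ ε : ℝ} (he : 0 < e) (heε : e ≤ ε / 16)
    {a b v0 : M} (ha : 0 ≤ a) (hb : 0 ≤ b) (h : ‖star v0 * b * v0 - a‖ ≤ ε) :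
    ‖rt b * v0 * G1 e a - rt b * ww e δ (4 * ε) a b v0 0‖ ≤ √(6 * ε) := by
  have hε : 0 < ε := by linarith
  have hκ : (0 : ℝ) < 4 * ε := by linarith
  rw [s4c_ww_zero]
  have hN : 0 ≤ star (rt b * v0 * G1 e a) * (rt b * v0 * G1 e a) := star_mul_self_nonneg _
  have hd := s4c_norm_N0_sub he heε ha hb h
  set X0 := rt b * v0 * G1 e a with hX0
  set N0 := star X0 * X0 with hN0
  set Q := rv (4 * ε) N0 with hQdef
  have hQs : star Q = Q := rv_star N0
  have hQ : Q * (N0 + algebraMap ℝ M (4 * ε)) * Q = 1 := rv_conj hκ hN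
  have hQr : Q * rt (N0 + algebraMap ℝ M (4 * ε)) = 1 := rv_mul_rt hκ hN
  have h1 : X0 - rt b * (v0 * G1 e a * (Q * rt a)) =
      X0 * Q * (rt (N0 + algebraMap ℝ M (4 * ε)) - rt a) := by
    rw [mul_sub, mul_assoc X0 Q (rt (N0 + algebraMap ℝ M (4 * ε))), hQr, mul_one, hX0]
    simp only [mul_assoc]
  rw [h1]
  have h2 : ‖X0 * Q‖ ≤ 1 := by
    refine norm_le_of_star_mul_le zero_le_one ?_
    rw [one_pow, map_one]
    have h3 : star (X0 * Q) * (X0 * Q) = Q * N0 * Q := by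
      rw [star_mul, hQs, hN0]
      simp only [mul_assoc]
    rw [h3, ← hQ]
    have h4 : N0 ≤ N0 + algebraMap ℝ M (4 * ε) := le_add_of_nonneg_right (s4c_alg_nonneg hκ.le)
    have h5 := star_left_conjugate_le_conjugate h4 Q
    rwa [hQs] at h5
  have h6 : ‖rt (N0 + algebraMap ℝ M (4 * ε)) - rt a‖ ≤ √(6 * ε) := by
    refine (norm_rt_sub_le (add_nonneg hN (s4c_alg_nonneg hκ.le)) ha).trans ?_
    exact Real.sqrt_le_sqrt hd
  calc ‖X0 * Q * (rt (N0 + algebraMap ℝ M (4 * ε)) - rt a)‖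
      ≤ ‖X0 * Q‖ * ‖rt (N0 + algebraMap ℝ M (4 * ε)) - rt a‖ := norm_mul_le _ _
    _ ≤ 1 * √(6 * ε) := mul_le_mul h2 h6 (norm_nonneg _) zero_le_one
    _ = √(6 * ε) := one_mul _

theorem s4c_sqrt_bound {ε : ℝ} (hε : 0 < ε) : √(2 * ε) + √(6 * ε) ≤ 4 * √ε := by
  rw [Real.sqrt_mul (by norm_num), Real.sqrt_mul (by norm_num)]
  have h2 : √2 ≤ 1.415 := by
    rw [Real.sqrt_le_left (by norm_num)]
    norm_num
  have h6 : √6 ≤ 2.45 := by
    rw [Real.sqrt_le_left (by norm_num)]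
    norm_num
  have h := Real.sqrt_nonneg ε
  nlinarith

theorem start_seg {e δ ε : ℝ} (he : 0 < e) (heε : e ≤ ε / 16) (hε : ε ≤ 1) (hδ : 0 < δ)
    {a b v0 : M} (ha : 0 ≤ a) (ha1 : ‖a‖ ≤ 1) (hb : 0 ≤ b)
    (h : ‖star v0 * b * v0 - a‖ ≤ ε) {t : ℝ} (ht0 : 0 ≤ t) (ht1 : t ≤ 1) :
    ‖star (v0 + t • (ww e δ (4 * ε) a b v0 0 - v0)) * b *
      (v0 + t • (ww e δ (4 * ε) a b v0 0 - v0)) - a‖ ≤ 32 * √ε ∧
    ‖v0 + t • (ww e δ (4 * ε) a b v0 0 - v0)‖ ≤ ‖v0‖ := by
  have hε0 : 0 < ε := by linarith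
  have hw := s4c_norm_ww_le (δ := δ) he heε ha hb h
  have hd1 := s4c_norm_y_sub he heε ha hb h
  have hd2 := s4c_norm_X0_sub (δ := δ) he heε ha hb h
  have hs := s4c_sqrt_bound hε0
  set w := ww e δ (4 * ε) a b v0 0 with hwdef
  have hsq := Real.sqrt_nonneg ε
  have hsq2 := Real.sq_sqrt hε0.le
  have hsq1 : √ε ≤ 1 := by
    rw [Real.sqrt_le_left zero_le_one]
    linarith
  have hεs : ε ≤ √ε := by nlinarith
  constructor
  · set y := rt b * v0 with hy
    set d := rt b * w - y with hddef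
    have hd : ‖d‖ ≤ 4 * √ε := by
      have h1 : d = -((y - y * G1 e a) + (y * G1 e a - rt b * w)) := by
        rw [hddef]
        abel
      rw [h1, norm_neg]
      have h2 := norm_add_le (y - y * G1 e a) (y * G1 e a - rt b * w)
      linarith
    have hyy : star y * y = star v0 * b * v0 := s4c_gram hb
    have hy2 : ‖y‖ * ‖y‖ ≤ 2 := by
      rw [← CStarRing.norm_star_mul_self, hyy]
      have h1 : star v0 * b * v0 = (star v0 * b * v0 - a) + a := by abel
      rw [h1]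
      have h2 := norm_add_le (star v0 * b * v0 - a) a
      linarith
    have hyn : ‖y‖ ≤ 3 / 2 := by
      have := norm_nonneg y
      nlinarith
    have hz : rt b * (v0 + t • (w - v0)) = y + t • d := by
      rw [mul_add, mul_smul_comm, mul_sub]
    rw [← s4c_gram hb, hz]
    have hexp : star (y + t • d) * (y + t • d) - a =
        (star v0 * b * v0 - a) + (t • (star y * d) + (t • (star d * y) +
          (t * t) • (star d * d))) := by
      rw [← hyy, star_add, star_smul, star_trivial t, add_mul, mul_add, mul_add, smul_mul_assoc,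
        smul_mul_assoc, mul_smul_comm, mul_smul_comm, smul_smul]
      abel
    rw [hexp]
    have hdn := norm_nonneg d
    have hyn0 := norm_nonneg y
    have n1 : ‖t • (star y * d)‖ ≤ 6 * √ε := by
      rw [norm_smul, Real.norm_eq_abs, abs_of_nonneg ht0]
      have h1 : ‖star y * d‖ ≤ ‖y‖ * ‖d‖ := by
        refine (norm_mul_le _ _).trans ?_
        rw [norm_star]
      have h2 : ‖y‖ * ‖d‖ ≤ 3 / 2 * (4 * √ε) := mul_le_mul hyn hd hdn (by norm_num)
      have h3 := norm_nonneg (star y * d)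
      nlinarith
    have n2 : ‖t • (star d * y)‖ ≤ 6 * √ε := by
      rw [norm_smul, Real.norm_eq_abs, abs_of_nonneg ht0]
      have h1 : ‖star d * y‖ ≤ ‖d‖ * ‖y‖ := by
        refine (norm_mul_le _ _).trans ?_
        rw [norm_star]
      have h2 : ‖d‖ * ‖y‖ ≤ (4 * √ε) * (3 / 2) := mul_le_mul hd hyn hyn0 (by positivity)
      have h3 := norm_nonneg (star d * y)
      nlinarith
    have n3 : ‖(t * t) • (star d * d)‖ ≤ 16 * √ε := by
      rw [norm_smul, Real.norm_eq_abs, abs_of_nonneg (mul_nonneg ht0 ht0),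
        CStarRing.norm_star_mul_self]
      have h1 : ‖d‖ * ‖d‖ ≤ (4 * √ε) * (4 * √ε) := mul_le_mul hd hd hdn (by positivity)
      have h2 : (4 * √ε) * (4 * √ε) = 16 * ε := by nlinarith
      have h3 : t * t ≤ 1 := by nlinarith
      have h4 : 0 ≤ ‖d‖ * ‖d‖ := mul_nonneg hdn hdn
      have h5 : t * t * (‖d‖ * ‖d‖) ≤ 1 * (‖d‖ * ‖d‖) := mul_le_mul_of_nonneg_right h3 h4
      linarith
    have m1 := norm_add_le (star v0 * b * v0 - a) (t • (star y * d) + (t • (star d * y) +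
          (t * t) • (star d * d)))
    have m2 := norm_add_le (t • (star y * d)) (t • (star d * y) + (t * t) • (star d * d))
    have m3 := norm_add_le (t • (star d * y)) ((t * t) • (star d * d))
    linarith
  · have h1 : v0 + t • (w - v0) = (1 - t) • v0 + t • w := by
      rw [smul_sub, sub_smul, one_smul]
      abel
    rw [h1]
    have h2 := norm_add_le ((1 - t) • v0) (t • w)
    rw [norm_smul, norm_smul, Real.norm_eq_abs, Real.norm_eq_abs, abs_of_nonneg ht0,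
      abs_of_nonneg (by linarith : (0 : ℝ) ≤ 1 - t)] at h2
    have h3 : t * ‖w‖ ≤ t * ‖v0‖ := mul_le_mul_of_nonneg_left hw ht0
    linarith

end RC12.S4
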