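import Pool.Agent.LibRC12.S3B
import Pool.Agent.LibRC12.S4C

/-!
# [S4D] the junction lemma (4.3), abstract form

With `κ = 4 ε`, `η = ε` in `add_path` (`b1 = cut δ b`, `g1 = G1 e a`, `g2 = G2 e a`,
`X0 = b^{1/2} v_0 g1`): along step `l` we have `N ≥ X_0* X_0 - ε ≥ a - 3 ε` (`start_lower`), so
`a ≤ N + 4 ε` and `point_est` with `c = 1`, `σ = ε` gives error `≤ 4 ε ≤ 32 √ε`, norm `≤ 7/√δ`.
At the end `N ≥ ∑ h - ε ≥ 16 a - 4 ε`: `point_est` with `c = 16`. The start is `start_seg`.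
Continuity of `λ ↦ ww … (U l + λ • (U (l+1) - U l))`: `continuous_rv`.
-/

open Filter Topology WeakDual
open scoped ENNReal NNReal ComplexOrder

set_option linter.unusedSectionVars false

namespace RC12.S4

variable {M : Type*} [CStarAlgebra M] [PartialOrder M] [StarOrderedRing M] {J : Type*}

/-- the set in which the paths run -/
def Sset (δ ε : ℝ) (a b : M) : Set M := {w | ‖star w * b * w - a‖ ≤ 32 * √ε ∧ ‖w‖ ≤ 7 / √δ}

theorem continuous_ww {X : Type*} [TopologicalSpace X] {e δ κ : ℝ} (hκ : 0 < κ) (a b v0 : M)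
    {U : X → M} (hU : Continuous U) : Continuous fun x => ww e δ κ a b v0 (U x) := by
  have hX : Continuous fun x => xx e δ a b v0 (U x) := by
    unfold xx
    fun_prop
  have hN : Continuous fun x => rv κ (star (xx e δ a b v0 (U x)) * xx e δ a b v0 (U x)) :=
    continuous_rv hκ (hX.star.mul hX) fun x => star_mul_self_nonneg _
  unfold ww
  exact (continuous_const.add (continuous_const.mul (continuous_const.mul hU))).mul
    (hN.mul continuous_const)

/-- a member of the path -/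
theorem S4D_mem {a b v0 V P : M} (ha : 0 ≤ a)
    (ha1 : ‖a‖ ≤ 1) (hb : 0 ≤ b) {e δ ε : ℝ} (he : 0 < e) (heε : e ≤ ε / 16) (hε : ε ≤ 1)
    (hδ : 0 < δ) (h0 : ‖star v0 * b * v0 - a‖ ≤ ε) (hP : 0 ≤ P)
    (h : ‖star (xx e δ a b v0 V) * xx e δ a b v0 V -
      (star (rt b * v0 * G1 e a) * (rt b * v0 * G1 e a) + P)‖ ≤ ε) :
    star (rt b * v0 * G1 e a) * (rt b * v0 * G1 e a) ≤
      star (xx e δ a b v0 V) * xx e δ a b v0 V + algebraMap ℝ M ε ∧
    star (rt b * v0 * G1 e a) * (rt b * v0 * G1 e a) + P ≤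
      star (xx e δ a b v0 V) * xx e δ a b v0 V + algebraMap ℝ M ε ∧
    (1 : ℝ) • a ≤ star (xx e δ a b v0 V) * xx e δ a b v0 V + algebraMap ℝ M (4 * ε) := by
  have hε0 : 0 < ε := by linarith
  have hsl := start_lower he heε ha hb h0
  have hX0 : 0 ≤ star (rt b * v0 * G1 e a) * (rt b * v0 * G1 e a) := star_mul_self_nonneg _
  have hN : 0 ≤ star (xx e δ a b v0 V) * xx e δ a b v0 V := star_mul_self_nonneg _
  have h1 : star (rt b * v0 * G1 e a) * (rt b * v0 * G1 e a) + P ≤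
      star (xx e δ a b v0 V) * xx e δ a b v0 V + algebraMap ℝ M ε := by
    refine le_add_of_norm_sub_le (IsSelfAdjoint.of_nonneg (add_nonneg hX0 hP))
      (IsSelfAdjoint.of_nonneg hN) ?_
    rw [norm_sub_rev]
    exact h
  have h2 := (le_add_of_nonneg_right hP).trans h1
  refine ⟨h2, h1, ?_⟩
  rw [one_smul]
  refine hsl.trans ((add_le_add h2 le_rfl).trans ?_)
  rw [add_assoc, ← map_add]
  refine add_le_add le_rfl (algebraMap_mono M ?_)
  linarith


theorem junction (dm : J → M → ℝ) (hdm : ∀ j, IsDim (dm j)) {ρ : ℝ} {a b v0 : M} (ha : 0 ≤ a)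
    (ha1 : ‖a‖ ≤ 1) (hb : 0 ≤ b) {e δ ε : ℝ} (he : 0 < e) (heε : e ≤ ε / 16) (hε : ε ≤ 1)
    (hδ : 0 < δ) (L : ℕ) (h : ℕ → M) (hh : ∀ l, l < L → 0 ≤ h l)
    (hhg : ∀ l, l < L → h l * G1 e a = h l)
    (hsum : (16 : ℝ) • a ≤ ∑ l ∈ Finset.range L, h l + algebraMap ℝ M (3 * ε))
    (oracle : ∀ l, l < L → ∀ e' : M, 0 ≤ e' → (∀ j, dm j (h l) + ρ < dm j e') → Cu (h l) e')
    (hgap : ∀ j l, l < L → dm j (G2 e a) + dm j (h l) + ρ < dm j (cut δ b))
    (h0 : ‖star v0 * b * v0 - a‖ ≤ ε) (hv0 : ‖v0‖ ≤ 4 / √δ) :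
    ∃ v1 : M, JoinedIn (Sset δ ε a b) v0 v1 ∧ ‖star v1 * b * v1 - a‖ ≤ ε / 4 ∧
      ‖v1‖ ≤ 4 / √δ := by
  have hε0 : 0 < ε := by linarith
  have hsε : ε ≤ √ε := by
    apply Real.le_sqrt_of_sq_le
    nlinarith
  have hsδ : 0 < √δ := Real.sqrt_pos.2 hδ
  obtain ⟨U, hU0, hU⟩ := add_path dm hdm (ρ := ρ) L h hh (b1 := cut δ b) (g1 := G1 e a)
    (g2 := G2 e a) (X0 := rt b * v0 * G1 e a)
    (cfc_nonneg fun _ _ => le_max_right _ _) (G1_nonneg e a) (G2_nonneg e a) (G1_mul_G2 he ha) hhg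
    (by rw [mul_assoc, G1_mul_G2 he ha]) oracle hgap hε0
  have hS : ∀ l, l ≤ L → 0 ≤ ∑ i ∈ Finset.range l, h i := fun l hl =>
    Finset.sum_nonneg fun i hi => hh i (lt_of_lt_of_le (Finset.mem_range.1 hi) hl)
  -- the points of the path
  have hpt : ∀ (V P : M), 0 ≤ P → ‖star (xx e δ a b v0 V) * xx e δ a b v0 V -
      (star (rt b * v0 * G1 e a) * (rt b * v0 * G1 e a) + P)‖ ≤ ε →
      ww e δ (4 * ε) a b v0 V ∈ Sset δ ε a b := by
    intro V P hP hV
    obtain ⟨h2, -, h1⟩ := S4D_mem ha ha1 hb he heε hε hδ h0 hP hV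
    obtain ⟨h3, h4⟩ := point_est hδ (by positivity : 0 < 4 * ε) one_pos hε0.le hε ha ha1 hb h1 h2
    refine ⟨h3.trans ?_, h4.trans ?_⟩
    · rw [div_one]
      linarith
    · rw [Real.sqrt_one, div_one]
      have h5 : 4 / √δ + 3 / √δ = 7 / √δ := by ring
      linarith
  -- the first segment
  have hjoin0 : JoinedIn (Sset δ ε a b) v0 (ww e δ (4 * ε) a b v0 (U 0)) := by
    rw [hU0]
    refine JoinedIn.ofLine (f := fun t : ℝ => v0 + t • (ww e δ (4 * ε) a b v0 0 - v0))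
      (by fun_prop) (by simp) (by simp) ?_
    rintro _ ⟨t, ht, rfl⟩
    obtain ⟨h1, h2⟩ := start_seg he heε hε hδ ha ha1 hb h0 ht.1 ht.2
    refine ⟨h1, h2.trans (hv0.trans ?_)⟩
    exact div_le_div_of_nonneg_right (by norm_num) hsδ.le
  have hjoin : ∀ l, l ≤ L → JoinedIn (Sset δ ε a b) v0 (ww e δ (4 * ε) a b v0 (U l)) := by
    intro l
    induction l with
    | zero => exact fun _ => hjoin0
    | succ l ih =>
      intro hl
      have hl' : l < L := hl
      refine (ih hl'.le).trans ?_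
      refine JoinedIn.ofLine (f := fun t : ℝ => ww e δ (4 * ε) a b v0
        (U l + t • (U (l + 1) - U l))) ?_ (by simp) (by simp) ?_
      · exact (continuous_ww (by positivity) a b v0 (by fun_prop)).continuousOn
      · rintro _ ⟨t, ht, rfl⟩
        refine hpt _ (∑ i ∈ Finset.range l, h i + t ^ 2 • h l) ?_ ?_
        · exact add_nonneg (hS l hl'.le) (smul_nonneg (sq_nonneg _) (hh l hl'))
        · have := hU l hl' t ht.1 ht.2
          rw [add_assoc] at this
          exact this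
  -- the end
  have hend : ‖star (xx e δ a b v0 (U L)) * xx e δ a b v0 (U L) -
      (star (rt b * v0 * G1 e a) * (rt b * v0 * G1 e a) + ∑ i ∈ Finset.range L, h i)‖ ≤ ε := by
    rcases Nat.eq_zero_or_pos L with hL | hL
    · subst hL
      rw [hU0]
      have : star (xx e δ a b v0 0) * xx e δ a b v0 0 -
          (star (rt b * v0 * G1 e a) * (rt b * v0 * G1 e a) + ∑ i ∈ Finset.range 0, h i) = 0 := by
        unfold xx
        simp
      rw [this, norm_zero]
      exact hε0.le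
    · obtain ⟨l, rfl⟩ : ∃ l, L = l + 1 := ⟨L - 1, by omega⟩
      have := hU l (Nat.lt_succ_self l) 1 zero_le_one le_rfl
      rw [one_smul, one_pow, one_smul, add_sub_cancel, add_assoc,
        ← Finset.sum_range_succ] at this
      exact this
  obtain ⟨h2, h3, -⟩ := S4D_mem ha ha1 hb he heε hε hδ h0 (hS L le_rfl) hend
  have h4 : (16 : ℝ) • a ≤ star (xx e δ a b v0 (U L)) * xx e δ a b v0 (U L) +
      algebraMap ℝ M (4 * ε) := by
    refine hsum.trans ?_
    have h5 : ∑ i ∈ Finset.range L, h i ≤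
        star (rt b * v0 * G1 e a) * (rt b * v0 * G1 e a) + ∑ i ∈ Finset.range L, h i :=
      le_add_of_nonneg_left (star_mul_self_nonneg _)
    refine (add_le_add (h5.trans h3) le_rfl).trans ?_
    rw [add_assoc, ← map_add]
    refine add_le_add le_rfl (algebraMap_mono M ?_)
    linarith
  obtain ⟨h5, h6⟩ := point_est hδ (by positivity : 0 < 4 * ε) (by norm_num : (0 : ℝ) < 16) hε0.le
    (by linarith) ha ha1 hb h4 h2
  refine ⟨ww e δ (4 * ε) a b v0 (U L), hjoin L le_rfl, h5.trans (by linarith), h6.trans ?_⟩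
  have h7 : √(16 : ℝ) = 4 := by
    rw [show (16 : ℝ) = 4 ^ 2 by norm_num]
    exact Real.sqrt_sq (by norm_num)
  rw [h7]
  have h8 : ‖v0‖ / 4 ≤ 1 / √δ := by
    rw [div_le_iff₀ (by norm_num)]
    refine hv0.trans (le_of_eq ?_)
    ring
  have h9 : 1 / √δ + 3 / √δ = 4 / √δ := by ring
  linarith

end RC12.S4
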