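import Pool.Agent.LibRC12.S4B

/-!
# [S4E] `C(Z, M_n(A))`: evaluation, dimension functions

Hints. `cu_ev`: apply `ev z` (norm decreasing: `CM.norm_ev_le`). `ev_cut` etc.: `ev_cfc`.
`inJ_iff`: entries. `InJ` is an ideal property because `evc φ` is a `*`-homomorphism; for
functional calculus use `StarAlgHomClass.map_cfc` for `evc φ` (continuous: it is a `*`-homomorphism
of C*-algebras, e.g. `NonUnitalStarAlgHom.norm_apply_le`) and `cfc f 0 = algebraMap (f 0)`
(`cfc_apply_zero`, `cfc_congr`, spectrum of `0` is `{0}` or empty).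
-/

open Filter Topology WeakDual
open scoped ENNReal NNReal ComplexOrder

set_option linter.unusedSectionVars false

namespace RC12.S4

section ev
variable {Z : Type*} [TopologicalSpace Z] [CompactSpace Z] {E : Type*} [CStarAlgebra E]
  [PartialOrder E] [StarOrderedRing E]

theorem cu_ev {a b : CM Z E} (h : Cu a b) (z : Z) : Cu (ev z a) (ev z b) := by
  intro ε hε
  obtain ⟨v, hv⟩ := h ε hε
  refine ⟨ev z v, ?_⟩
  have h1 : star (ev z v) * ev z b * ev z v - ev z a = ev z (star v * b * v - a) := by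
    simp only [map_sub, map_mul, ev_star]
  rw [h1]
  exact (CM.norm_ev_le _ z).trans_lt hv
theorem ev_cut (z : Z) {a : CM Z E} (ha : 0 ≤ a) (ε : ℝ) :
    ev z (cut ε a) = cut ε (ev z a) := by
  unfold cut
  exact RC12.ev_cfc _ (by fun_prop) a (IsSelfAdjoint.of_nonneg ha) z
theorem ev_rt (z : Z) {a : CM Z E} (ha : 0 ≤ a) : ev z (rt a) = rt (ev z a) := by
  unfold rt
  exact RC12.ev_cfc _ Real.continuous_sqrt a (IsSelfAdjoint.of_nonneg ha) z
theorem ev_G2 (e : ℝ) (z : Z) {a : CM Z E} (ha : 0 ≤ a) : ev z (G2 e a) = G2 e (ev z a) := by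
  unfold G2
  exact RC12.ev_cfc _ (continuous_rp _) a (IsSelfAdjoint.of_nonneg ha) z
/-- a bound for all `z` -/
theorem le_of_ev {a b : CM Z E} (h : ∀ z, ev z a ≤ ev z b) : a ≤ b := h

/-- constants -/
def cst (Z : Type*) [TopologicalSpace Z] [CompactSpace Z] (c : E) : CM Z E :=
  CM.mk (ContinuousMap.const Z c)
@[simp] theorem ev_cst (c : E) (z : Z) : ev z (cst Z c) = c := rfl

end ev

section inJ
variable {A : Type*} [CStarAlgebra A] [PartialOrder A] [StarOrderedRing A] {n : ℕ}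

/-- zero at all characters -/
def InJ (c : Mn n A) : Prop := ∀ φ : characterSpace ℂ A, evc φ c = 0

theorem inJ_iff {c : Mn n A} : InJ c ↔ ∀ i j, c.mat i j ∈ J0 A := by
  constructor
  · intro h i j φ
    have h1 : (evc φ c).mat i j = 0 := by rw [h φ]; rfl
    rwa [evc_mat] at h1
  · intro h φ
    refine Mn.ext ?_
    ext i j
    rw [evc_mat]
    exact h i j φ
theorem InJ.mul_left {c : Mn n A} (h : InJ c) (x : Mn n A) : InJ (x * c) := by
  intro φ
  rw [map_mul, h φ, mul_zero]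
theorem InJ.mul_right {c : Mn n A} (h : InJ c) (x : Mn n A) : InJ (c * x) := by
  intro φ
  rw [map_mul, h φ, zero_mul]
theorem InJ.smul {c : Mn n A} (h : InJ c) (t : ℝ) : InJ (t • c) := by
  intro φ
  have h1 : t • c = (t : ℂ) • c := rfl
  rw [h1, map_smul, h φ]
  refine Mn.ext ?_
  rw [Mn.mat_smul, Mn.mat_zero, smul_zero]
private theorem evc_continuous (φ : characterSpace ℂ A) :
    Continuous (evc φ : Mn n A → Mn n ℂ) := by
  refine AddMonoidHomClass.continuous_of_bound (evc (A := A) (n := n) φ) 1 fun x => ?_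
  rw [one_mul]
  exact NonUnitalStarAlgHom.norm_apply_le (evc (A := A) (n := n) φ) x

theorem evc_cfc (φ : characterSpace ℂ A) {f : ℝ → ℝ} (hf : Continuous f) {a : Mn n A}
    (ha : IsSelfAdjoint a) : evc φ (cfc f a) = cfc f (evc φ a) :=
  StarAlgHomClass.map_cfc (evc (A := A) φ) f a hf.continuousOn (evc_continuous φ) ha
    (ha.map (evc (A := A) φ))
theorem InJ.cfc {c : Mn n A} (h : InJ c) (hc : IsSelfAdjoint c) {f : ℝ → ℝ} (hf : Continuous f)
    (hf0 : f 0 = 0) : InJ (cfc f c) := by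
  intro φ
  rw [evc_cfc φ hf hc, h φ]
  have h1 : _root_.cfc f (0 : Mn n ℂ) = algebraMap ℝ (Mn n ℂ) (f 0) := cfc_apply_zero
  rw [h1, hf0, map_zero]

end inJ

section dm
variable {A : Type*} [CStarAlgebra A] [PartialOrder A] [StarOrderedRing A] {n : ℕ}
  {Z : Type*} [TopologicalSpace Z] [CompactSpace Z]

/-- the dimension functions of `C(Z, M_n(A))` -/
noncomputable def dmz (p : Z × QuasiTrace A) (c : CM Z (Mn n A)) : ℝ := p.2.dq (ev p.1 c)

theorem dq_zero (τ : QuasiTrace A) : τ.dq (0 : Mn n A) = 0 := by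
  have h0 : τ.t (0 : Mn n A) = 0 := by
    have h1 := t_smul τ (IsSelfAdjoint.zero (Mn n A)) 0
    rwa [zero_smul, zero_mul] at h1
  have h2 : ∀ k : ℕ, τ.t (psi (1 / ((k : ℝ) + 1)) (0 : Mn n A)) = 0 := by
    intro k
    have h3 : psi (1 / ((k : ℝ) + 1)) (0 : Mn n A) = 0 := by
      unfold psi
      have h4 : cfc (fun t : ℝ => min 1 (t / (1 / ((k : ℝ) + 1)))) (0 : Mn n A) =
          algebraMap ℝ (Mn n A) (min 1 (0 / (1 / ((k : ℝ) + 1)))) := cfc_apply_zero
      rw [h4, zero_div, min_eq_right zero_le_one, map_zero]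
    rw [h3, h0]
  unfold QuasiTrace.dq
  simp only [h2]
  exact ciSup_const
theorem dq_smul (τ : QuasiTrace A) {a : Mn n A} (ha : 0 ≤ a) {c : ℝ} (hc : 0 < c) :
    τ.dq (c • a) = τ.dq a := by
  have hca : 0 ≤ c • a := smul_nonneg hc.le ha
  exact le_antisymm (dq_mono τ hca ha (cu_smul_left ha hc))
    (dq_mono τ ha hca (cu_smul_right ha hc))
theorem isDim_dmz (p : Z × QuasiTrace A) : IsDim (dmz (n := n) p) where
  nonneg a ha := dq_nonneg p.2 _ (CM.nonneg_iff.1 ha p.1)
  mono a b ha hb h := dq_mono p.2 (CM.nonneg_iff.1 ha p.1) (CM.nonneg_iff.1 hb p.1) (cu_ev h p.1)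
  add_le a b ha hb := by
    unfold dmz
    rw [map_add]
    exact dq_add_le p.2 (CM.nonneg_iff.1 ha p.1) (CM.nonneg_iff.1 hb p.1)

end dm

end RC12.S4
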