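import Pool.Agent.LibRC12.S4E
import Pool.Agent.LibRC12.S4D

/-!
# [S4E2] the junction lemma in `C(Z, M_n(A))`
-/

open Filter Topology WeakDual
open scoped ENNReal NNReal ComplexOrder

set_option linter.unusedSectionVars false

namespace RC12.S4

section dm
variable {A : Type*} [CStarAlgebra A] [PartialOrder A] [StarOrderedRing A] {n : ℕ}
  {Z : Type*} [TopologicalSpace Z] [CompactSpace Z]

/-- (4.3) in `C(Z, M_n(A))`: `junction` with `h l = 16 • (rt a1 * cst (p l) * rt a1)`,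
`a1 = cut (2 e) a`; `∑ h = 16 a1 - 16 rt a1 (1 - ∑ p) rt a1 ≥ 16 a1 - 16 e ≥ 16 a - 48 e`;
`dq (h l) ≤ dq (p l) ≤ 1/2`; oracle: `hP` as `ev z (h l) ∈ M_n(J0)`. -/
theorem junction_CM {ρ : ℝ} (hP : PJ A Z ρ) {a b v0 : CM Z (Mn n A)} (ha : 0 ≤ a)
    (ha1 : ‖a‖ ≤ 1) (hb : 0 ≤ b) {e δ ε : ℝ} (he : 0 < e) (heε : e ≤ ε / 16) (hε : ε ≤ 1)
    (hδ : 0 < δ) {k : ℕ} (p : Fin k → Mn n A) (hp0 : ∀ i, 0 ≤ p i) (hpJ : ∀ i, InJ (p i))
    (hpd : ∀ i (τ : QuasiTrace A), τ.dq (p i) ≤ 1 / 2)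
    (hsum : ∀ z, ‖ev z (rt (cut (2 * e) a)) * (1 - ∑ i, p i)‖ ≤ e)
    (hgap : ∀ z (τ : QuasiTrace A),
      τ.dq (cut (e / 2) (ev z a)) + (ρ + 1 / 2) < τ.dq (cut δ (ev z b)))
    (h0 : ‖star v0 * b * v0 - a‖ ≤ ε) (hv0 : ‖v0‖ ≤ 4 / √δ) :
    ∃ v1 : CM Z (Mn n A), JoinedIn (Sset δ ε a b) v0 v1 ∧ ‖star v1 * b * v1 - a‖ ≤ ε / 4 ∧
      ‖v1‖ ≤ 4 / √δ := by
  classical
  set r : CM Z (Mn n A) := rt (cut (2 * e) a) with hr
  have hrs : star r = r := rt_star _
  have hc0 : 0 ≤ cut (2 * e) a := cfc_nonneg fun _ _ => le_max_right _ _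
  have hcn : ‖cut (2 * e) a‖ ≤ 1 := (norm_cut_le (by positivity) ha).trans ha1
  have hrn : ‖r‖ ≤ 1 := norm_rt_le_one hc0 hcn
  have hrr : r * r = cut (2 * e) a := rt_mul_rt hc0
  set h : ℕ → CM Z (Mn n A) := fun l =>
    if hl : l < k then (16 : ℝ) • (r * cst Z (p ⟨l, hl⟩) * r) else 0 with hh
  have hhl : ∀ l (hl : l < k), h l = (16 : ℝ) • (r * cst Z (p ⟨l, hl⟩) * r) := by
    intro l hl
    simp only [hh, dif_pos hl]
  have hcst : ∀ i, (0 : CM Z (Mn n A)) ≤ cst Z (p i) := fun i =>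
    le_of_ev fun z => by rw [map_zero, ev_cst]; exact hp0 i
  have hconj : ∀ i, 0 ≤ r * cst Z (p i) * r := by
    intro i
    have h1 := star_left_conjugate_nonneg (hcst i) r
    rwa [hrs] at h1
  have hev : ∀ z l (hl : l < k), ev z (h l) =
      (16 : ℝ) • (ev z r * p ⟨l, hl⟩ * ev z r) := by
    intro z l hl
    rw [hhl l hl, ev_smul_real, map_mul, map_mul, ev_cst]
  have hpos : ∀ l, l < k → 0 ≤ h l := fun l hl => by
    rw [hhl l hl]
    exact smul_nonneg (by norm_num) (hconj _)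
  refine junction (fun j : Z × QuasiTrace A => dmz (n := n) j) (fun j => isDim_dmz j) (ρ := ρ)
    ha ha1 hb he heε hε hδ k h hpos ?_ ?_ ?_ ?_ h0 hv0
  · -- `h l * G1 e a = h l`
    intro l hl
    rw [hhl l hl, smul_mul_assoc, mul_assoc (r * cst Z (p ⟨l, hl⟩)) r, rt_cut_mul_G1 he ha]
  · -- the sum
    have hs : ∑ l ∈ Finset.range k, h l = (16 : ℝ) • (r * (∑ i, cst Z (p i)) * r) := by
      rw [Finset.sum_range, Finset.mul_sum, Finset.sum_mul, Finset.smul_sum]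
      refine Finset.sum_congr rfl fun i _ => ?_
      rw [hhl i.1 i.2]
    have hD : ‖r * (1 - ∑ i, cst Z (p i)) * r‖ ≤ e := by
      refine (CM.norm_le he.le).2 fun z => ?_
      have h1 : ev z (r * (1 - ∑ i, cst Z (p i)) * r) = ev z r * (1 - ∑ i, p i) * ev z r := by
        rw [map_mul, map_mul, map_sub, map_one, map_sum]
        simp only [ev_cst]
      rw [h1]
      calc ‖ev z r * (1 - ∑ i, p i) * ev z r‖ ≤ ‖ev z r * (1 - ∑ i, p i)‖ * ‖ev z r‖ :=
            norm_mul_le _ _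
        _ ≤ e * 1 := mul_le_mul (hsum z) ((CM.norm_ev_le r z).trans hrn) (norm_nonneg _) he.le
        _ = e := mul_one e
    have hDs : IsSelfAdjoint (r * (1 - ∑ i, cst Z (p i)) * r) := by
      have h1 : IsSelfAdjoint (1 - ∑ i, cst Z (p i)) := by
        refine (IsSelfAdjoint.one _).sub ?_
        exact isSelfAdjoint_sum _ fun i _ => IsSelfAdjoint.of_nonneg (hcst i)
      have h2 := h1.conjugate r
      rwa [hrs] at h2
    have h1 : r * (1 - ∑ i, cst Z (p i)) * r ≤ algebraMap ℝ (CM Z (Mn n A)) e :=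
      hDs.le_algebraMap_norm_self.trans (algebraMap_mono _ hD)
    have h2 : a ≤ cut (2 * e) a + algebraMap ℝ (CM Z (Mn n A)) (2 * e) := by
      refine le_add_of_norm_sub_le (IsSelfAdjoint.of_nonneg ha) (IsSelfAdjoint.of_nonneg hc0) ?_
      rw [norm_sub_rev]
      exact norm_cut_sub_le (by positivity) ha
    have h3 : r * (1 - ∑ i, cst Z (p i)) * r =
        cut (2 * e) a - r * (∑ i, cst Z (p i)) * r := by
      rw [mul_sub, sub_mul, mul_one, hrr]
    rw [h3, sub_le_iff_le_add] at h1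
    have h4 : a ≤ r * (∑ i, cst Z (p i)) * r + algebraMap ℝ (CM Z (Mn n A)) (3 * e) := by
      refine h2.trans ((add_le_add_left h1 _).trans (le_of_eq ?_))
      rw [show (3 : ℝ) * e = e + 2 * e by ring, map_add]
      abel
    have h5 := smul_le_smul_of_nonneg_left h4 (by norm_num : (0 : ℝ) ≤ 16)
    rw [hs]
    refine h5.trans ?_
    rw [smul_add]
    refine add_le_add_right ?_ _
    rw [Algebra.smul_def, ← map_mul]
    exact algebraMap_mono _ (by linarith)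
  · -- the oracle
    intro l hl e' he' hg
    refine hP n (h l) e' (hpos l hl) he' ?_ fun z τ => hg (z, τ)
    intro z
    refine inJ_iff.1 ?_
    rw [hev z l hl]
    exact (((hpJ _).mul_left _).mul_right _).smul _
  · -- the gap
    rintro ⟨z, τ⟩ l hl
    show τ.dq (ev z (G2 e a)) + τ.dq (ev z (h l)) + ρ < τ.dq (ev z (cut δ b))
    have haz : 0 ≤ ev z a := ha z
    have hbz : 0 ≤ ev z b := hb z
    have h1 : τ.dq (ev z (G2 e a)) ≤ τ.dq (cut (e / 2) (ev z a)) := by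
      rw [ev_G2 e z ha]
      exact dq_mono τ (G2_nonneg _ _) (cfc_nonneg fun _ _ => le_max_right _ _) (cu_G2 he haz)
    have hrz : star (ev z r) = ev z r := by rw [← ev_star, hrs]
    have h2 : τ.dq (ev z (h l)) ≤ 1 / 2 := by
      have h3 : 0 ≤ ev z r * p ⟨l, hl⟩ * ev z r := by
        have h4 := star_left_conjugate_nonneg (hp0 ⟨l, hl⟩) (ev z r)
        rwa [hrz] at h4
      rw [hev z l hl, dq_smul τ h3 (by norm_num)]
      have h4 := cu_conj (hp0 ⟨l, hl⟩) (ev z r)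
      rw [hrz] at h4
      exact (dq_mono τ h3 (hp0 ⟨l, hl⟩) h4).trans (hpd ⟨l, hl⟩ τ)
    have h3 := hgap z τ
    rw [ev_cut z hb]
    linarith

end dm

end RC12.S4
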