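import Mathlib

/-!
# [S4F] gluing paths

`v` on `[0, (i+1)/N]`: `v'(t) = v (min t (i/N)) + (w (clamp (N t - i)) - w 0)`, where `w` starts at
`v (i/N)`. Equivalently `v(t) = v0 + ∑_{i<N} (w_i (clamp (N t - i)) - w_i 0)`,
`clamp s = max 0 (min 1 s)`.
-/

open Filter Topology

namespace RC12.S4

private theorem glue_aux {E : Type*} [NormedAddCommGroup E] (Good : ℝ → E → Prop)
    (Ok : ℕ → E → Prop) (N : ℕ) (hN : 0 < N)
    (step : ∀ i, i < N → ∀ v, Ok i v → ∃ w : ℝ → E, Continuous w ∧ w 0 = v ∧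
      (∀ s : ℝ, 0 ≤ s → s ≤ 1 → Good ((i + s) / N) (w s)) ∧ Ok (i + 1) (w 1))
    {v0 : E} (h0 : Ok 0 v0) (n : ℕ) (hn : n ≤ N) :
    ∃ v : ℝ → E, Continuous v ∧ v 0 = v0 ∧ Ok n (v ((n : ℝ) / N)) ∧
      (n ≠ 0 → ∀ t : ℝ, 0 ≤ t → t * N ≤ n → Good t (v t)) := by
  induction n with
  | zero => exact ⟨fun _ => v0, continuous_const, rfl, h0, fun h => absurd rfl h⟩
  | succ n ih =>
    obtain ⟨v, hvc, hv0, hok, hgood⟩ := ih (Nat.le_of_succ_le hn)
    obtain ⟨w, hwc, hw0, hwg, hwok⟩ := step n (Nat.lt_of_succ_le hn) _ hok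
    have hNR : (0 : ℝ) < N := by exact_mod_cast hN
    have hclamp0 : ∀ s : ℝ, s ≤ 0 → max 0 (min 1 s) = 0 := fun s hs =>
      max_eq_left ((min_le_right _ _).trans hs)
    have hclamp1 : ∀ s : ℝ, 0 ≤ s → s ≤ 1 → max 0 (min 1 s) = s := fun s hs hs1 => by
      rw [min_eq_right hs1, max_eq_right hs]
    have hlow : ∀ t : ℝ, t * N ≤ n →
        v (min t ((n : ℝ) / N)) + (w (max 0 (min 1 (N * t - n))) - w 0) = v t := by
      intro t ht
      have h1 : t ≤ (n : ℝ) / N := by rwa [le_div_iff₀ hNR]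
      rw [min_eq_left h1, hclamp0 _ (by nlinarith), sub_self, add_zero]
    have hhigh : ∀ t : ℝ, (n : ℝ) ≤ t * N → t * N ≤ n + 1 →
        v (min t ((n : ℝ) / N)) + (w (max 0 (min 1 (N * t - n))) - w 0) = w (N * t - n) := by
      intro t ht ht'
      have h1 : (n : ℝ) / N ≤ t := by rwa [div_le_iff₀ hNR]
      rw [min_eq_right h1, hclamp1 _ (by nlinarith) (by nlinarith), hw0]
      abel
    refine ⟨fun t => v (min t ((n : ℝ) / N)) + (w (max 0 (min 1 (N * t - n))) - w 0), ?_, ?_, ?_,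
      ?_⟩
    · fun_prop
    · show v (min 0 ((n : ℝ) / N)) + (w (max 0 (min 1 (N * 0 - n))) - w 0) = v0
      rw [hlow 0 (by simp), hv0]
    · have h2 : ((n + 1 : ℕ) : ℝ) / N * N = n + 1 := by
        push_cast; field_simp
      show Ok (n + 1) (v (min (((n + 1 : ℕ) : ℝ) / N) ((n : ℝ) / N)) +
        (w (max 0 (min 1 (N * (((n + 1 : ℕ) : ℝ) / N) - n))) - w 0))
      rw [hhigh _ (by rw [h2]; linarith) (by rw [h2])]
      have h3 : (N : ℝ) * (((n + 1 : ℕ) : ℝ) / N) - n = 1 := by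
        rw [mul_comm, h2]; ring
      rw [h3]
      exact hwok
    · intro _ t ht ht'
      show Good t (v (min t ((n : ℝ) / N)) + (w (max 0 (min 1 (N * t - n))) - w 0))
      rcases le_total ((n : ℝ)) (t * N) with h | h
      · push_cast at ht'
        rw [hhigh t h ht']
        have h4 := hwg (N * t - n) (by nlinarith) (by nlinarith)
        have h5 : ((n : ℝ) + (N * t - n)) / N = t := by field_simp; ring
        rwa [h5] at h4
      · rw [hlow t h]
        rcases Nat.eq_zero_or_pos n with hn0 | hn0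
        · subst hn0
          have ht0 : t = 0 := by
            have : t * N ≤ 0 := by simpa using h
            nlinarith
          subst ht0
          have h4 := hwg 0 le_rfl zero_le_one
          rw [hw0] at h4
          simpa using h4
        · exact hgood hn0.ne' t ht h

theorem glue {E : Type*} [NormedAddCommGroup E] (Good : ℝ → E → Prop) (Ok : ℕ → E → Prop)
    (N : ℕ) (hN : 0 < N)
    (step : ∀ i, i < N → ∀ v, Ok i v → ∃ w : ℝ → E, Continuous w ∧ w 0 = v ∧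
      (∀ s : ℝ, 0 ≤ s → s ≤ 1 → Good ((i + s) / N) (w s)) ∧ Ok (i + 1) (w 1))
    {v0 : E} (h0 : Ok 0 v0) :
    ∃ v : ℝ → E, Continuous v ∧ v 0 = v0 ∧ ∀ t : ℝ, 0 ≤ t → t ≤ 1 → Good t (v t) := by
  obtain ⟨v, hvc, hv0, -, hg⟩ := glue_aux Good Ok N hN step h0 N le_rfl
  have hNR : (0 : ℝ) < N := by exact_mod_cast hN
  exact ⟨v, hvc, hv0, fun t ht ht1 => hg hN.ne' t ht (by nlinarith)⟩

end RC12.S4
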