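import Pool.Agent.LibRC12.S4E
import Pool.Agent.LibRC12.S2K

/-!
# [S4G] pieces along a path

`pieces_mat` is from section 2.
Proof of `pieces_path`: `S` = the set of all `ev z (rt (cut (2 e) (a t)))`, `t ∈ [0,1]`, is compact
(image of `Icc 0 1 ×ˢ univ`; joint continuity: `continuous_cfc_of_continuous` in `CM Z (Mn n A)`,
then evaluation) and contained in `M_n(J0)` (`InJ.cfc`, `inJ_iff`, `ev_cut`, `ev_rt`), so
`pieces_mat` gives `p` with `η = e`.
-/

open Filter Topology WeakDual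
open scoped ENNReal NNReal ComplexOrder

set_option linter.unusedSectionVars false

namespace RC12.S4

variable {A : Type*} [CStarAlgebra A] [PartialOrder A] [StarOrderedRing A] {n : ℕ}

variable {Z : Type*} [TopologicalSpace Z] [CompactSpace Z]

private theorem S4G_joint {E : Type*} [CStarAlgebra E] {c : ℝ → CM Z E} (hc : Continuous c) :
    Continuous fun p : ℝ × Z => ev p.2 (c p.1) := by
  rw [continuous_iff_continuousAt]
  rintro ⟨t0, z0⟩
  show Tendsto (fun p : ℝ × Z => ev p.2 (c p.1)) (𝓝 (t0, z0)) (𝓝 (ev z0 (c t0)))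
  rw [tendsto_iff_norm_sub_tendsto_zero]
  have h1 : Tendsto (fun p : ℝ × Z => ‖c p.1 - c t0‖ + ‖ev p.2 (c t0) - ev z0 (c t0)‖)
      (𝓝 (t0, z0)) (𝓝 (‖c t0 - c t0‖ + ‖ev z0 (c t0) - ev z0 (c t0)‖)) := by
    apply Tendsto.add
    · exact (((hc.comp continuous_fst).sub continuous_const).norm).tendsto (t0, z0)
    · exact ((((continuous_ev (c t0)).comp continuous_snd).sub continuous_const).norm).tendsto (t0, z0)
  rw [sub_self, sub_self, norm_zero, norm_zero, add_zero] at h1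
  refine squeeze_zero (fun _ => norm_nonneg _) (fun p => ?_) h1
  have e1 : ev p.2 (c p.1) - ev z0 (c t0) =
      ev p.2 (c p.1 - c t0) + (ev p.2 (c t0) - ev z0 (c t0)) := by
    rw [map_sub]; abel
  rw [e1]
  exact (norm_add_le _ _).trans (add_le_add (CM.norm_ev_le _ _) le_rfl)

/-- the compact set of all `ev z (rt (cut (2 e) (a t)))` and its pieces -/
theorem pieces_path {a : ℝ → CM Z (Mn n A)} (hac : Continuous a) (ha : ∀ t, 0 ≤ a t)
    (hJ : ∀ t z i j, (ev z (a t)).mat i j ∈ J0 A) {e : ℝ} (he : 0 < e) :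
    ∃ (k : ℕ) (p : Fin k → Mn n A), (∀ i, 0 ≤ p i) ∧ (∀ i, InJ (p i)) ∧
      (∀ i (τ : QuasiTrace A), τ.dq (p i) ≤ 1 / 2) ∧
      ∀ t : ℝ, 0 ≤ t → t ≤ 1 → ∀ z, ‖ev z (rt (cut (2 * e) (a t))) * (1 - ∑ i, p i)‖ ≤ e := by
  have hf : Continuous fun t : ℝ => max (t - 2 * e) 0 := by fun_prop
  have hcut0 : ∀ t, 0 ≤ cut (2 * e) (a t) := fun t => cfc_nonneg fun _ _ => le_max_right _ _
  have hcut : Continuous fun t => cut (2 * e) (a t) :=
    continuous_cfc_of_continuous _ hf hac fun t => IsSelfAdjoint.of_nonneg (ha t)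
  have hrt : Continuous fun t => rt (cut (2 * e) (a t)) :=
    continuous_cfc_of_continuous _ Real.continuous_sqrt hcut fun t =>
      IsSelfAdjoint.of_nonneg (hcut0 t)
  have hjoint := S4G_joint hrt
  have hcomp : IsCompact ((fun p : ℝ × Z => ev p.2 (rt (cut (2 * e) (a p.1)))) ''
      (Set.Icc (0 : ℝ) 1 ×ˢ (Set.univ : Set Z))) :=
    (isCompact_Icc.prod isCompact_univ).image hjoint
  obtain ⟨k, p, h1, h2⟩ := pieces_mat _ hcomp (by
    rintro c ⟨⟨t, z⟩, -, rfl⟩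
    have ha' : 0 ≤ ev z (a t) := CM.nonneg_iff.1 (ha t) z
    show ∀ i j, (ev z (rt (cut (2 * e) (a t)))).mat i j ∈ J0 A
    rw [ev_rt z (hcut0 t), ev_cut z (ha t)]
    rw [← inJ_iff]
    have h3 : InJ (ev z (a t)) := inJ_iff.2 (hJ t z)
    have h4 : InJ (cut (2 * e) (ev z (a t))) :=
      InJ.cfc h3 (IsSelfAdjoint.of_nonneg ha') hf (max_eq_right (by linarith))
    have h5 : 0 ≤ cut (2 * e) (ev z (a t)) := cfc_nonneg fun _ _ => le_max_right _ _
    exact InJ.cfc h4 (IsSelfAdjoint.of_nonneg h5) Real.continuous_sqrt Real.sqrt_zero) he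
  refine ⟨k, p, fun i => (h1 i).1, fun i => inJ_iff.2 (h1 i).2.1, fun i => (h1 i).2.2, ?_⟩
  intro t ht0 ht1 z
  exact h2 _ ⟨(t, z), ⟨⟨ht0, ht1⟩, Set.mem_univ _⟩, rfl⟩

end RC12.S4
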