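import Pool.Agent.LibRC12.S4E2
import Pool.Agent.LibRC12.S4F
import Pool.Agent.LibRC12.S4G

/-!
# [S4G2] the path lemma (4.4)

`p` from `pieces_path`. `a, b` are uniformly continuous on `[0,1]`: take `N ≥ 1` with
`‖a t - a t'‖, ‖b t - b t'‖ ≤ θ` for `t, t' ∈ [0,1]`, `|t - t'| ≤ 1/N`, where
`θ (49/δ + 1) ≤ 3 ε/4`. Use `glue` with `Ok i v := ‖v* b(i/N) v - a(i/N)‖ ≤ ε ∧ ‖v‖ ≤ 4/√δ` and
`Good t v := ‖v* b(t) v - a(t)‖ ≤ 33 √ε`; step: `junction_CM` for `a(i/N), b(i/N)`; a `JoinedIn`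
gives `w : ℝ → _` by `Path.extend`; for `‖w‖ ≤ 7/√δ` the error changes by at most
`θ ‖w‖² + θ ≤ 3 ε/4` when `(a, b)(i/N)` is replaced by `(a, b)(t)`.
-/

open Filter Topology WeakDual
open scoped ENNReal NNReal ComplexOrder

set_option linter.unusedSectionVars false

namespace RC12.S4

variable {A : Type*} [CStarAlgebra A] [PartialOrder A] [StarOrderedRing A] {n : ℕ}
variable {Z : Type*} [TopologicalSpace Z] [CompactSpace Z]

theorem path_lemma {ρ : ℝ} (hP : PJ A Z ρ) {a b : ℝ → CM Z (Mn n A)} (hac : Continuous a)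
    (hbc : Continuous b) (ha : ∀ t, 0 ≤ a t) (ha1 : ∀ t, ‖a t‖ ≤ 1) (hb : ∀ t, 0 ≤ b t)
    (hJ : ∀ t z i j, (ev z (a t)).mat i j ∈ J0 A)
    {e δ ε : ℝ} (he : 0 < e) (heε : e ≤ ε / 16) (hε : ε ≤ 1) (hδ : 0 < δ)
    (hgap : ∀ t z (τ : QuasiTrace A),
      τ.dq (cut (e / 2) (ev z (a t))) + (ρ + 1 / 2) < τ.dq (cut δ (ev z (b t))))
    {v0 : CM Z (Mn n A)} (h0 : ‖star v0 * b 0 * v0 - a 0‖ ≤ ε) (hv0 : ‖v0‖ ≤ 4 / √δ) :
    ∃ v : ℝ → CM Z (Mn n A), Continuous v ∧ v 0 = v0 ∧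
      ∀ t : ℝ, 0 ≤ t → t ≤ 1 → ‖star (v t) * b t * v t - a t‖ ≤ 33 * √ε := by
  have hε0 : 0 < ε := by linarith
  obtain ⟨k, p, hp0, hpJ, hpd, hsum⟩ := pieces_path hac ha hJ he
  set θ : ℝ := 3 * ε / 4 / (49 / δ + 1) with hθ
  have hθ0 : 0 < θ := by positivity
  have hθeq : 49 / δ * θ + θ = 3 * ε / 4 := by
    rw [hθ]; field_simp
  -- uniform continuity
  have huc : ∀ f : ℝ → CM Z (Mn n A), Continuous f → ∃ d : ℝ, 0 < d ∧
      ∀ t ∈ Set.Icc (0 : ℝ) 1, ∀ t' ∈ Set.Icc (0 : ℝ) 1, |t - t'| < d → ‖f t - f t'‖ ≤ θ := by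
    intro f hf
    have h := isCompact_Icc.uniformContinuousOn_of_continuous
      (hf.continuousOn (s := Set.Icc (0 : ℝ) 1))
    rw [Metric.uniformContinuousOn_iff] at h
    obtain ⟨d, hd, h⟩ := h θ hθ0
    refine ⟨d, hd, fun t ht t' ht' htt => ?_⟩
    have := h t ht t' ht' (by rwa [Real.dist_eq])
    rw [dist_eq_norm] at this
    exact this.le
  obtain ⟨da, hda, hua⟩ := huc a hac
  obtain ⟨db, hdb, hub⟩ := huc b hbc
  obtain ⟨m, hm⟩ := exists_nat_one_div_lt (lt_min hda hdb)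
  have hNR : (0 : ℝ) < ((m + 1 : ℕ) : ℝ) := by positivity
  have hmN : 1 / (((m + 1 : ℕ) : ℝ)) < min da db := by push_cast; exact hm
  -- the change of the error
  have herr : ∀ (w : CM Z (Mn n A)) (t t0 R : ℝ), t ∈ Set.Icc (0 : ℝ) 1 →
      t0 ∈ Set.Icc (0 : ℝ) 1 → |t - t0| ≤ 1 / (((m + 1 : ℕ) : ℝ)) → ‖w‖ ≤ R / √δ → R ≤ 7 →
      ‖star w * b t * w - a t‖ ≤ ‖star w * b t0 * w - a t0‖ + 3 * ε / 4 := by
    intro w t t0 R ht ht0 htt hw hR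
    have h1 : ‖a t - a t0‖ ≤ θ := hua t ht t0 ht0 (lt_of_le_of_lt htt (hmN.trans_le (min_le_left _ _)))
    have h2 : ‖b t - b t0‖ ≤ θ := hub t ht t0 ht0 (lt_of_le_of_lt htt (hmN.trans_le (min_le_right _ _)))
    have hw7 : ‖w‖ ≤ 7 / √δ := hw.trans (div_le_div_of_nonneg_right hR (Real.sqrt_nonneg _))
    have hw2 : ‖w‖ ^ 2 ≤ 49 / δ := by
      calc ‖w‖ ^ 2 ≤ (7 / √δ) ^ 2 := pow_le_pow_left₀ (norm_nonneg _) hw7 2
        _ = 49 / δ := by rw [div_pow, Real.sq_sqrt hδ.le]; norm_num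
    have h3 : ‖star w * (b t - b t0) * w‖ ≤ 49 / δ * θ := by
      calc ‖star w * (b t - b t0) * w‖ ≤ ‖star w‖ * ‖b t - b t0‖ * ‖w‖ :=
            (norm_mul_le _ _).trans (mul_le_mul_of_nonneg_right (norm_mul_le _ _) (norm_nonneg _))
        _ = ‖w‖ ^ 2 * ‖b t - b t0‖ := by rw [norm_star]; ring
        _ ≤ 49 / δ * θ := mul_le_mul hw2 h2 (norm_nonneg _) (by positivity)
    have h4 : star w * b t * w - a t = (star w * b t0 * w - a t0) +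
        (star w * (b t - b t0) * w - (a t - a t0)) := by noncomm_ring
    rw [h4]
    calc _ ≤ ‖star w * b t0 * w - a t0‖ + (‖star w * (b t - b t0) * w‖ + ‖a t - a t0‖) :=
          (norm_add_le _ _).trans (add_le_add le_rfl (norm_sub_le _ _))
      _ ≤ _ := by linarith
  have hεs : ε ≤ √ε := by
    have h5 : √ε * √ε = ε := Real.mul_self_sqrt hε0.le
    have h6 : √ε ≤ 1 := Real.sqrt_le_one.2 hε
    nlinarith [Real.sqrt_nonneg ε]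
  refine glue (fun t v => ‖star v * b t * v - a t‖ ≤ 33 * √ε)
    (fun i v => ‖star v * b ((i : ℝ) / ((m + 1 : ℕ) : ℝ)) * v - a ((i : ℝ) / ((m + 1 : ℕ) : ℝ))‖ ≤ ε
      ∧ ‖v‖ ≤ 4 / √δ) (m + 1) (Nat.succ_pos m) ?_ ?_
  · intro i hi v hv
    have hiR : (i : ℝ) + 1 ≤ ((m + 1 : ℕ) : ℝ) := by exact_mod_cast hi
    have hi0 : (0 : ℝ) ≤ i := Nat.cast_nonneg i
    have hmem : ∀ s : ℝ, 0 ≤ s → s ≤ 1 → ((i : ℝ) + s) / ((m + 1 : ℕ) : ℝ) ∈ Set.Icc (0 : ℝ) 1 :=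
      fun s hs hs1 => ⟨by positivity, by rw [div_le_one hNR]; linarith⟩
    have hmem0 : (i : ℝ) / ((m + 1 : ℕ) : ℝ) ∈ Set.Icc (0 : ℝ) 1 := by
      simpa using hmem 0 le_rfl zero_le_one
    have hdist : ∀ s : ℝ, 0 ≤ s → s ≤ 1 →
        |((i : ℝ) + s) / ((m + 1 : ℕ) : ℝ) - (i : ℝ) / ((m + 1 : ℕ) : ℝ)| ≤
          1 / (((m + 1 : ℕ) : ℝ)) := by
      intro s hs hs1
      rw [← sub_div, add_sub_cancel_left, abs_of_nonneg (by positivity)]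
      exact div_le_div_of_nonneg_right hs1 hNR.le
    obtain ⟨v1, hjoin, hv1, hv1n⟩ := junction_CM hP (ha _) (ha1 _) (hb _) he heε hε hδ p hp0 hpJ
      hpd (hsum _ hmem0.1 hmem0.2) (hgap _) hv.1 hv.2
    obtain ⟨γ, hγ⟩ := hjoin
    refine ⟨γ.extend, γ.continuous_extend, γ.extend_zero, fun s hs hs1 => ?_, ?_⟩
    · have hmemγ : γ.extend s ∈ Sset δ ε (a ((i : ℝ) / ((m + 1 : ℕ) : ℝ)))
          (b ((i : ℝ) / ((m + 1 : ℕ) : ℝ))) := by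
        rw [γ.extend_apply ⟨hs, hs1⟩]
        exact hγ _
      have h7 := herr (γ.extend s) _ _ 7 (hmem s hs hs1) hmem0 (hdist s hs hs1) hmemγ.2 le_rfl
      have h8 := hmemγ.1
      show ‖star (γ.extend s) * b (((i : ℝ) + s) / ((m + 1 : ℕ) : ℝ)) * γ.extend s -
        a (((i : ℝ) + s) / ((m + 1 : ℕ) : ℝ))‖ ≤ 33 * √ε
      linarith
    · have h9 := herr v1 _ _ 4 (hmem 1 zero_le_one le_rfl) hmem0 (hdist 1 zero_le_one le_rfl) hv1n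
        (by norm_num)
      rw [γ.extend_one]
      refine ⟨?_, hv1n⟩
      have h10 : ((i + 1 : ℕ) : ℝ) = (i : ℝ) + 1 := by push_cast; ring
      rw [h10]
      linarith
  · simpa using ⟨h0, hv0⟩

end RC12.S4
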