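import Pool.Agent.LibRC12.S4B

/-!
# [S4H] stars, slices, gluing at the centre (4.5)

`Tm κ`: at most one nonzero coordinate, all in `[0,1]`.
-/

open Filter Topology WeakDual
open scoped ENNReal NNReal ComplexOrder

set_option linter.unusedSectionVars false

namespace RC12.S4

/-- the star with legs indexed by `κ` -/
def Tm (κ : Type*) : Type _ :=
  {v : κ → ℝ // (∀ i, 0 ≤ v i ∧ v i ≤ 1) ∧ ∀ i j, i ≠ j → v i = 0 ∨ v j = 0}

variable {κ : Type*}

instance : TopologicalSpace (Tm κ) :=
  inferInstanceAs (TopologicalSpace {v : κ → ℝ // (∀ i, 0 ≤ v i ∧ v i ≤ 1) ∧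
    ∀ i j, i ≠ j → v i = 0 ∨ v j = 0})

theorem continuous_val : Continuous fun x : Tm κ => x.1 := continuous_subtype_val

theorem continuous_mk {X : Type*} [TopologicalSpace X] {f : X → Tm κ}
    (h : Continuous fun x => (f x).1) : Continuous f := continuous_induced_rng.2 h

/-- closed subset of `[0,1]^κ` -/
instance : CompactSpace (Tm κ) := by
  have h : IsCompact {v : κ → ℝ | (∀ i, 0 ≤ v i ∧ v i ≤ 1) ∧
      ∀ i j, i ≠ j → v i = 0 ∨ v j = 0} := by
    refine IsCompact.of_isClosed_subset
      (isCompact_univ_pi fun _ : κ => isCompact_Icc (a := (0 : ℝ)) (b := 1)) ?_ ?_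
    · refine IsClosed.inter ?_ ?_
      · have h1 : {v : κ → ℝ | ∀ i, 0 ≤ v i ∧ v i ≤ 1} = ⋂ i, {v | 0 ≤ v i ∧ v i ≤ 1} := by
          ext v
          simp
        show IsClosed {v : κ → ℝ | ∀ i, 0 ≤ v i ∧ v i ≤ 1}
        rw [h1]
        refine isClosed_iInter fun i => ?_
        exact (isClosed_le continuous_const (continuous_apply i)).inter
          (isClosed_le (continuous_apply i) continuous_const)
      · have h1 : {v : κ → ℝ | ∀ i j, i ≠ j → v i = 0 ∨ v j = 0} =
            ⋂ i, ⋂ j, ⋂ (_ : i ≠ j), {v | v i = 0 ∨ v j = 0} := by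
          ext v
          simp
        show IsClosed {v : κ → ℝ | ∀ i j, i ≠ j → v i = 0 ∨ v j = 0}
        rw [h1]
        refine isClosed_iInter fun i => isClosed_iInter fun j => isClosed_iInter fun _ => ?_
        exact (isClosed_eq (continuous_apply i) continuous_const).union
          (isClosed_eq (continuous_apply j) continuous_const)
    · intro v hv i _
      exact hv.1 i
  exact isCompact_iff_compactSpace.1 h

instance : T2Space (Tm κ) :=
  inferInstanceAs (T2Space {v : κ → ℝ // (∀ i, 0 ≤ v i ∧ v i ≤ 1) ∧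
    ∀ i j, i ≠ j → v i = 0 ∨ v j = 0})

/-- the point at distance `clamp t` on the leg `j` -/
noncomputable def leg [DecidableEq κ] (j : κ) (t : ℝ) : Tm κ :=
  ⟨Pi.single j (max 0 (min 1 t)), by
    constructor
    · intro i
      by_cases h : i = j
      · subst h; simp
      · simp [h]
    · intro i k hik
      by_cases h : i = j
      · subst h; right; simp [Ne.symm hik]
      · left; simp [h]⟩

theorem continuous_leg [DecidableEq κ] (j : κ) : Continuous (leg j) := by
  refine continuous_mk ?_
  show Continuous fun t : ℝ => Pi.single (M := fun _ : κ => ℝ) j (max 0 (min 1 t))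
  refine continuous_pi fun i => ?_
  by_cases h : i = j
  · subst h
    simp only [Pi.single_eq_same]
    fun_prop
  · simp only [Pi.single_eq_of_ne h]
    exact continuous_const
theorem leg_zero [DecidableEq κ] (j : κ) : leg j 0 = ⟨0, by simp⟩ := by
  refine Subtype.ext ?_
  show Pi.single j (max 0 (min 1 (0 : ℝ))) = (0 : κ → ℝ)
  rw [min_eq_right zero_le_one, max_self, Pi.single_zero]
/-- every point is on a leg, or there are no legs -/
theorem exists_leg [DecidableEq κ] [Nonempty κ] (x : Tm κ) : ∃ j, x = leg j (x.1 j) := by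
  have key : ∀ j, (∀ i, i ≠ j → x.1 i = 0) → x = leg j (x.1 j) := by
    intro j hj
    refine Subtype.ext (funext fun i => ?_)
    show x.1 i = Pi.single (M := fun _ : κ => ℝ) j (max 0 (min 1 (x.1 j))) i
    by_cases h : i = j
    · subst h
      rw [Pi.single_eq_same, min_eq_right (x.2.1 i).2, max_eq_right (x.2.1 i).1]
    · rw [Pi.single_eq_of_ne h]
      exact hj i h
  by_cases hx : ∃ j, x.1 j ≠ 0
  · obtain ⟨j, hj⟩ := hx
    exact ⟨j, key j fun i hi => (x.2.2 i j hi).resolve_right hj⟩
  · push Not at hx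
    obtain ⟨j⟩ := (inferInstance : Nonempty κ)
    exact ⟨j, key j fun i _ => hx i⟩

section slice
variable {Z T : Type*} [TopologicalSpace Z] [CompactSpace Z] [TopologicalSpace T]
  [CompactSpace T] {E : Type*} [CStarAlgebra E]

/-- `a(·, x)` -/
noncomputable def slice (a : CM (Z × T) E) (x : T) : CM Z E :=
  CM.mk ⟨fun z => ev (z, x) a, (continuous_ev a).comp (by fun_prop)⟩

@[simp] theorem ev_slice (a : CM (Z × T) E) (x : T) (z : Z) : ev z (slice a x) = ev (z, x) a := rfl
/-- currying: `ContinuousMap.curry` -/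
theorem continuous_slice (a : CM (Z × T) E) : Continuous (slice a) :=
  (ContinuousMap.curry ((a.fn).comp (ContinuousMap.prodSwap : C(T × Z, Z × T)))).continuous
theorem norm_slice_le (a : CM (Z × T) E) (x : T) : ‖slice a x‖ ≤ ‖a‖ := by
  refine (CM.norm_le (norm_nonneg a)).2 fun z => ?_
  rw [ev_slice]
  exact CM.norm_ev_le a (z, x)
/-- uncurrying -/
theorem exists_unslice {v : T → CM Z E} (hv : Continuous v) :
    ∃ V : CM (Z × T) E, ∀ z x, ev (z, x) V = ev z (v x) := by
  have h : Continuous fun p : Z × T => (v p.2).fn p.1 := by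
    have h1 : Continuous fun p : Z × T => (v p.2).fn := hv.comp continuous_snd
    exact (ContinuousEval.continuous_eval (F := C(Z, E))).comp (h1.prodMk continuous_fst)
  exact ⟨CM.mk ⟨_, h⟩, fun z x => rfl⟩

end slice

/-- (4.5): the legs are glued at the centre: `v(x) = v_c + ∑ (v_j(x_j) - v_c)` -/
theorem star_glue {E : Type*} [NormedAddCommGroup E] [Fintype κ] [DecidableEq κ] {vc : E}
    (v : κ → ℝ → E) (hv : ∀ j, Continuous (v j)) (hv0 : ∀ j, v j 0 = vc) :
    ∃ w : Tm κ → E, Continuous w ∧ (∀ x j, x = leg j (x.1 j) → w x = v j (x.1 j)) ∧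
      (IsEmpty κ → ∀ x, w x = vc) := by
  refine ⟨fun x => vc + ∑ j, (v j (x.1 j) - vc), ?_, ?_, ?_⟩
  · refine continuous_const.add (continuous_finsetSum _ fun j _ => ?_)
    exact ((hv j).comp ((continuous_apply j).comp continuous_val)).sub continuous_const
  · intro x j hx
    have h0 : ∀ i, i ≠ j → x.1 i = 0 := by
      intro i hi
      rw [hx]
      show Pi.single (M := fun _ : κ => ℝ) j (max 0 (min 1 (x.1 j))) i = 0
      exact Pi.single_eq_of_ne hi _
    show vc + ∑ j, (v j (x.1 j) - vc) = v j (x.1 j)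
    rw [Finset.sum_eq_single j]
    · abel
    · intro i _ hi
      rw [h0 i hi, hv0, sub_self]
    · intro h
      exact absurd (Finset.mem_univ j) h
  · intro h x
    show vc + ∑ j, (v j (x.1 j) - vc) = vc
    rw [Finset.univ_eq_empty, Finset.sum_empty, add_zero]

end RC12.S4
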