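import Pool.Agent.LibRC12.S4E

/-!
# [S4H2] the start value; reduction to contractions
-/

open Filter Topology WeakDual
open scoped ENNReal NNReal ComplexOrder

set_option linter.unusedSectionVars false

namespace RC12.S4

variable {A : Type*} [CStarAlgebra A] [PartialOrder A] [StarOrderedRing A]

/-- the start value: `v = lam δ b * rt (cut δ b) * v_1` where
`‖v_1* (cut δ b) v_1 - cut (e/2) a‖ ≤ e/2` -/
theorem start_value {M : Type*} [CStarAlgebra M] [PartialOrder M] [StarOrderedRing M] {a b : M}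
    (ha : 0 ≤ a) (ha1 : ‖a‖ ≤ 1) (hb : 0 ≤ b) {e δ : ℝ} (he : 0 < e) (he1 : e ≤ 1) (hδ : 0 < δ)
    (h : Cu (cut (e / 2) a) (cut δ b)) :
    ∃ v : M, ‖star v * b * v - a‖ ≤ e ∧ ‖v‖ ≤ 4 / √δ := by
  obtain ⟨v1, hv1⟩ := h (e / 2) (by linarith)
  have hc : 0 ≤ cut δ b := cfc_nonneg fun _ _ => le_max_right _ _
  have hsδ : 0 < √δ := Real.sqrt_pos.2 hδ
  have e1 : rt b * (lam δ b * (rt (cut δ b) * v1)) = rt (cut δ b) * v1 := by
    calc rt b * (lam δ b * (rt (cut δ b) * v1)) = (rt b * lam δ b * rt (cut δ b)) * v1 := by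
          simp only [mul_assoc]
      _ = rt (cut δ b) * v1 := by rw [rt_lam_rt_cut hδ hb]
  have e2 : star (rt (cut δ b) * v1) * (rt (cut δ b) * v1) = star v1 * cut δ b * v1 := by
    calc star (rt (cut δ b) * v1) * (rt (cut δ b) * v1) =
        star v1 * (rt (cut δ b) * rt (cut δ b)) * v1 := by
          rw [star_mul, rt_star]
          simp only [mul_assoc]
      _ = star v1 * cut δ b * v1 := by rw [rt_mul_rt hc]
  have e3 : star (lam δ b * (rt (cut δ b) * v1)) * b * (lam δ b * (rt (cut δ b) * v1)) =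
      star v1 * cut δ b * v1 := by
    rw [← e2]
    generalize lam δ b * (rt (cut δ b) * v1) = v at e1 ⊢
    calc star v * b * v = star v * (rt b * rt b) * v := by rw [rt_mul_rt hb]
      _ = star (rt b * v) * (rt b * v) := by
          rw [star_mul, rt_star]
          simp only [mul_assoc]
      _ = _ := by rw [e1]
  have e4 : ‖cut (e / 2) a - a‖ ≤ e / 2 := norm_cut_sub_le (by linarith) ha
  refine ⟨lam δ b * (rt (cut δ b) * v1), ?_, ?_⟩
  · rw [e3]
    have e5 : star v1 * cut δ b * v1 - a =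
        (star v1 * cut δ b * v1 - cut (e / 2) a) + (cut (e / 2) a - a) := by abel
    rw [e5]
    refine (norm_add_le _ _).trans ?_
    linarith
  · have e6 : ‖cut (e / 2) a‖ ≤ 1 := (norm_cut_le (by linarith) ha).trans ha1
    have e7 : ‖star v1 * cut δ b * v1‖ ≤ 2 := by
      have : star v1 * cut δ b * v1 =
          (star v1 * cut δ b * v1 - cut (e / 2) a) + cut (e / 2) a := by abel
      rw [this]
      refine (norm_add_le _ _).trans ?_
      linarith
    have e8 : ‖rt (cut δ b) * v1‖ ≤ 4 := by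
      rw [← e2, CStarRing.norm_star_mul_self] at e7
      nlinarith [norm_nonneg (rt (cut δ b) * v1)]
    calc ‖lam δ b * (rt (cut δ b) * v1)‖ ≤ ‖lam δ b‖ * ‖rt (cut δ b) * v1‖ := norm_mul_le _ _
      _ ≤ (1 / √δ) * 4 := mul_le_mul (norm_lam_le hδ b) e8 (norm_nonneg _) (by positivity)
      _ = 4 / √δ := by ring

private theorem S4H2_smul {M : Type*} [CStarAlgebra M] [PartialOrder M] [StarOrderedRing M] {a : M}
    (ha : 0 ≤ a) {r : ℝ} (hr : 0 ≤ r) : 0 ≤ r • a := by
  have h : r • a = star (Real.sqrt r • (1 : M)) * a * (Real.sqrt r • (1 : M)) := by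
    rw [star_smul, star_one, star_trivial, smul_mul_assoc, one_mul, mul_smul_comm, mul_one, smul_smul,
      Real.mul_self_sqrt hr]
  rw [h]
  exact star_left_conjugate_nonneg ha _

private theorem S4H2_norm {M : Type*} [CStarAlgebra M] (a : M) : ‖(‖a‖ + 1)⁻¹ • a‖ ≤ 1 := by
  have h : 0 < ‖a‖ + 1 := by positivity
  rw [norm_smul, norm_inv, Real.norm_eq_abs, abs_of_pos h, inv_mul_le_one₀ h]
  linarith

/-- reduction to contractions -/
theorem pj_of_contractions {Z : Type*} [TopologicalSpace Z] [CompactSpace Z] {ρ : ℝ}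
    (h : ∀ (n : ℕ) (a b : CM Z (Mn n A)), 0 ≤ a → 0 ≤ b → ‖a‖ ≤ 1 → ‖b‖ ≤ 1 →
      (∀ z i j, (ev z a).mat i j ∈ J0 A) →
      (∀ z (τ : QuasiTrace A), τ.dq (ev z a) + ρ < τ.dq (ev z b)) → Cu a b) : PJ A Z ρ := by
  intro n a b ha hb hJ hd
  have hc : 0 < (‖a‖ + 1)⁻¹ := by positivity
  have hc' : 0 < (‖b‖ + 1)⁻¹ := by positivity
  have h1 := h n ((‖a‖ + 1)⁻¹ • a) ((‖b‖ + 1)⁻¹ • b) (S4H2_smul ha hc.le) (S4H2_smul hb hc'.le)
    (S4H2_norm a) (S4H2_norm b) (fun z => by
      rw [← inJ_iff, ev_smul_real]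
      exact InJ.smul (inJ_iff.2 (hJ z)) _) (fun z τ => by
      rw [ev_smul_real, ev_smul_real, dq_smul τ (CM.nonneg_iff.1 ha z) hc,
        dq_smul τ (CM.nonneg_iff.1 hb z) hc']
      exact hd z τ)
  exact cu_trans (cu_trans (cu_smul_right ha hc) h1) (cu_smul_left hb hc')

end RC12.S4
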