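import Pool.Agent.LibRC12.S4G2
import Pool.Agent.LibRC12.S4H
import Pool.Agent.LibRC12.S4H2

/-!
# [S4H3] (4.1)
-/

open Filter Topology WeakDual
open scoped ENNReal NNReal ComplexOrder

set_option linter.unusedSectionVars false

namespace RC12.S4

variable {A : Type*} [CStarAlgebra A] [PartialOrder A] [StarOrderedRing A]
variable {Z : Type*} [TopologicalSpace Z] [CompactSpace Z] {κ : Type*}

private theorem s4h3_cut_nonneg {M : Type*} [CStarAlgebra M] [PartialOrder M] [StarOrderedRing M]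
    (e : ℝ) (a : M) : 0 ≤ cut e a := cfc_nonneg fun _ _ => le_max_right _ _

/-- (4.1) -/
theorem pj_star [Fintype κ] [T2Space Z] {ρ : ℝ} (hP : PJ A Z ρ) :
    PJ A (Z × Tm κ) (ρ + 1 / 2) := by
  classical
  refine pj_of_contractions ?_
  intro n a b ha hb ha1 hb1 hJ hgap η hη
  -- the small parameters
  obtain ⟨ε, hε0, hε1, hεη⟩ : ∃ ε : ℝ, 0 < ε ∧ ε ≤ 1 ∧ 33 * √ε < η := by
    refine ⟨min 1 ((η / 66) ^ 2), by positivity, min_le_left _ _, ?_⟩
    have h1 : √(min 1 ((η / 66) ^ 2)) ≤ η / 66 := by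
      calc √(min 1 ((η / 66) ^ 2)) ≤ √((η / 66) ^ 2) := Real.sqrt_le_sqrt (min_le_right _ _)
        _ = η / 66 := Real.sqrt_sq (by positivity)
    linarith
  set e : ℝ := ε / 16 with he
  have he0 : 0 < e := by positivity
  have heε : e ≤ ε := by rw [he]; linarith
  have hεs : ε ≤ 33 * √ε := by
    have h1 : ε ≤ √ε := Real.le_sqrt_of_sq_le (by nlinarith)
    have h2 : 0 ≤ √ε := Real.sqrt_nonneg _
    linarith
  obtain ⟨δ, hδ0, hδ⟩ := dq_uniform a b ha hb (ρ + 1 / 2) hgap (ε := e / 2) (by positivity)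
  -- the centre
  let c0 : Tm κ := ⟨0, by simp⟩
  have hsl0 : ∀ x : Tm κ, ∀ f : CM (Z × Tm κ) (Mn n A), 0 ≤ f → 0 ≤ slice f x := by
    intro x f hf
    exact CM.nonneg_iff.2 fun z => CM.nonneg_iff.1 hf (z, x)
  have hJs : ∀ x : Tm κ, ∀ z i j, (ev z (slice a x)).mat i j ∈ J0 A := by
    intro x z i j
    exact hJ (z, x) i j
  have hcu : Cu (cut (e / 2) (slice a c0)) (cut δ (slice b c0)) := by
    refine hP n _ _ (s4h3_cut_nonneg _ _) (s4h3_cut_nonneg _ _) ?_ ?_
    · intro z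
      rw [ev_cut z (hsl0 c0 a ha)]
      refine inJ_iff.1 ?_
      have h0 : InJ (ev z (slice a c0)) := inJ_iff.2 (hJs c0 z)
      have hsa : IsSelfAdjoint (ev z (slice a c0)) :=
        IsSelfAdjoint.of_nonneg (CM.nonneg_iff.1 (hsl0 c0 a ha) z)
      refine h0.cfc hsa (f := fun t : ℝ => max (t - e / 2) 0) (by fun_prop) ?_
      exact max_eq_right (by linarith)
    · intro z τ
      rw [ev_cut z (hsl0 c0 a ha), ev_cut z (hsl0 c0 b hb)]
      have := hδ (z, c0) τ
      have h2 : τ.dq (cut (e / 2) (ev z (slice a c0))) + ρ ≤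
          τ.dq (cut (e / 2) (ev (z, c0) a)) + (ρ + 1 / 2) := by
        rw [ev_slice]
        linarith
      exact lt_of_le_of_lt h2 this
  obtain ⟨vc, hvc1, hvc2⟩ := start_value (hsl0 c0 a ha) ((norm_slice_le a c0).trans ha1)
    (hsl0 c0 b hb) he0 (heε.trans hε1) hδ0 hcu
  -- the legs
  have hleg : ∀ j : κ, ∃ v : ℝ → CM Z (Mn n A), Continuous v ∧ v 0 = vc ∧
      ∀ t : ℝ, 0 ≤ t → t ≤ 1 →
        ‖star (v t) * slice b (leg j t) * v t - slice a (leg j t)‖ ≤ 33 * √ε := by
    intro j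
    have h0 : leg j 0 = c0 := leg_zero j
    refine path_lemma hP (a := fun t => slice a (leg j t)) (b := fun t => slice b (leg j t))
      ((continuous_slice a).comp (continuous_leg j)) ((continuous_slice b).comp (continuous_leg j))
      (fun t => hsl0 _ a ha) (fun t => (norm_slice_le a _).trans ha1) (fun t => hsl0 _ b hb)
      (fun t => hJs _) he0 (le_of_eq he) hε1 hδ0 ?_ ?_ hvc2
    · intro t z τ
      exact hδ (z, leg j t) τ
    · show ‖star vc * slice b (leg j 0) * vc - slice a (leg j 0)‖ ≤ ε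
      rw [h0]
      exact hvc1.trans heε
  choose v hvc hv0 hv using hleg
  obtain ⟨w, hwc, hw1, hw2⟩ := star_glue v hvc hv0
  obtain ⟨V, hV⟩ := exists_unslice hwc
  refine ⟨V, lt_of_le_of_lt ?_ hεη⟩
  rw [CM.norm_le (by positivity)]
  rintro ⟨z, x⟩
  have hx : ‖star (w x) * slice b x * w x - slice a x‖ ≤ 33 * √ε := by
    rcases isEmpty_or_nonempty κ with hk | hk
    · have hx0 : x = c0 := Subtype.ext (funext fun i => (hk.false i).elim)
      rw [hw2 hk x, hx0]
      exact (hvc1.trans heε).trans hεs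
    · obtain ⟨j, hj⟩ := exists_leg x
      rw [hw1 x j hj]
      have := hv j (x.1 j) (x.2.1 j).1 (x.2.1 j).2
      rwa [← hj] at this
  have h1 : ev (z, x) (star V * b * V - a) = ev z (star (w x) * slice b x * w x - slice a x) := by
    rw [map_sub, map_mul, map_mul, map_sub, map_mul, map_mul, ev_star, ev_star, hV, ev_slice,
      ev_slice]
  rw [h1]
  exact (CM.norm_ev_le _ z).trans hx

end RC12.S4
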