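import Pool.Agent.LibRC12.S4H3
import Pool.Agent.LibRC12.S4K

/-!
# [S4I] the point, homeomorphisms, products of stars
-/

open Filter Topology WeakDual
open scoped ENNReal NNReal ComplexOrder

set_option linter.unusedSectionVars false

namespace RC12.S4

variable {A : Type*} [CStarAlgebra A] [PartialOrder A] [StarOrderedRing A]

/-- (4.2) a one-point space: `CM Z E` is `E` -/
theorem pj_point {Z : Type*} [TopologicalSpace Z] [CompactSpace Z] [Unique Z] {r : ℝ}
    (hr : HC A r) : PJ A Z r := by
  intro n a b ha hb _ hgap ε hε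
  obtain ⟨v, hv⟩ := hr n (ev default a) (ev default b) (CM.nonneg_iff.1 ha default)
    (CM.nonneg_iff.1 hb default) (fun τ => hgap default τ) (ε / 2) (half_pos hε)
  refine ⟨cst Z v, lt_of_le_of_lt ((CM.norm_le (half_pos hε).le).2 fun z => ?_) (half_lt_self hε)⟩
  have hz : z = default := Unique.eq_default z
  subst hz
  have h1 : ev default (star (cst Z v) * b * cst Z v - a) =
      star v * ev default b * v - ev default a := by
    simp only [map_sub, map_mul, ev_star, ev_cst]
  rw [h1]
  exact hv.le

/-- transfer along a homeomorphism (pull back by `f.symm`, push the solution by `f`) -/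
theorem pj_homeo {Y Z : Type*} [TopologicalSpace Y] [CompactSpace Y] [TopologicalSpace Z]
    [CompactSpace Z] (f : Y ≃ₜ Z) {ρ : ℝ} (h : PJ A Z ρ) : PJ A Y ρ := by
  intro n a b ha hb hJ hgap ε hε
  let g : C(Z, Y) := ⟨f.symm, f.symm.continuous⟩
  let f' : C(Y, Z) := ⟨f, f.continuous⟩
  obtain ⟨v, hv⟩ := h n (pull g a) (pull g b)
    (CM.nonneg_iff.2 fun z => by rw [ev_pull]; exact CM.nonneg_iff.1 ha _)
    (CM.nonneg_iff.2 fun z => by rw [ev_pull]; exact CM.nonneg_iff.1 hb _)
    (fun z i j => by rw [ev_pull]; exact hJ _ i j)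
    (fun z τ => by rw [ev_pull, ev_pull]; exact hgap _ τ) (ε / 2) (half_pos hε)
  refine ⟨pull f' v, lt_of_le_of_lt ((CM.norm_le (half_pos hε).le).2 fun y => ?_)
    (half_lt_self hε)⟩
  have hy : g (f' y) = y := f.symm_apply_apply y
  have h1 : ev y (star (pull f' v) * b * pull f' v - a) =
      ev (f' y) (star v * pull g b * v - pull g a) := by
    simp only [map_sub, map_mul, ev_star, ev_pull, hy]
  rw [h1]
  exact (CM.norm_ev_le _ _).trans hv.le

/-- `(Fin (d+1) → T) ≃ₜ (Fin d → T) × T` -/
theorem exists_homeo (T : Type*) [TopologicalSpace T] (d : ℕ) :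
    Nonempty ((Fin (d + 1) → T) ≃ₜ (Fin d → T) × T) := by
  refine ⟨⟨⟨fun v => (fun i => v i.castSucc, v (Fin.last d)),
    fun p i => Fin.lastCases (motive := fun _ => T) p.2 p.1 i, ?_, ?_⟩, ?_, ?_⟩⟩
  · intro v
    funext i
    refine Fin.lastCases ?_ (fun i => ?_) i
    · simp
    · simp
  · intro p
    refine Prod.ext ?_ ?_
    · funext i
      simp
    · simp
  · show Continuous fun v : Fin (d + 1) → T => ((fun i : Fin d => v i.castSucc), v (Fin.last d))
    fun_prop
  · show Continuous fun (p : (Fin d → T) × T) (i : Fin (d + 1)) =>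
      (Fin.lastCases (motive := fun _ => T) p.2 p.1 i : T)
    refine continuous_pi fun i => ?_
    refine Fin.lastCases ?_ (fun i => ?_) i
    · simp only [Fin.lastCases_last]
      exact continuous_snd
    · simp only [Fin.lastCases_castSucc]
      exact (continuous_apply i).comp continuous_fst

/-- products of stars: induction on `d` from `pj_point`, `pj_star`, `pj_homeo` -/
theorem pj_pi {κ : Type*} [Fintype κ] {r : ℝ} (hr : HC A r) (d : ℕ) :
    PJ A (Fin d → Tm κ) (r + d / 2) := by
  induction d with
  | zero =>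
    have h := pj_point (A := A) (Z := Fin 0 → Tm κ) hr
    simpa using h
  | succ d ih =>
    obtain ⟨f⟩ := exists_homeo (Tm κ) d
    have h := pj_homeo (A := A) f (pj_star (κ := κ) ih)
    have e : r + ((d + 1 : ℕ) : ℝ) / 2 = r + d / 2 + 1 / 2 := by push_cast; ring
    rw [e]
    exact h

end RC12.S4
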