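import Pool.Agent.LibRC12.Iface

/-!
# MP_19886c, sections 3 and 4 (helper41): the facts of section 0 which are used

Everything in the namespace `RC12.S4`. `rt a = cfc √ a`, `rv κ N = (N + κ)^{-1/2}` (for `N ≥ 0`),
`lam δ b = b^{-1/2}` on `[δ, ∞)`, `G1 e`: `0` on `(-∞, e]`, `1` on `[2e, ∞)`; `G2 e`: `0` on
`(-∞, e/2]`, `1` on `[e, ∞)`.
-/

open Filter Topology WeakDual
open scoped ENNReal NNReal ComplexOrder

set_option linter.unusedSectionVars false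

namespace RC12.S4

variable {M : Type*} [CStarAlgebra M]

/-- the square root -/
noncomputable def rt (a : M) : M := cfc Real.sqrt a

/-- `(N + κ)^{-1/2}` -/
noncomputable def rv (κ : ℝ) (N : M) : M := cfc (fun t : ℝ => (√(max t 0 + κ))⁻¹) N

/-- `b^{-1/2}`, truncated at `δ` -/
noncomputable def lam (δ : ℝ) (b : M) : M := cfc (fun t : ℝ => (√(max t δ))⁻¹) b

/-- `0` on `(-∞, α]`, `1` on `[2 α, ∞)` -/
noncomputable def rp (α t : ℝ) : ℝ := max 0 (min 1 ((t - α) / α))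

theorem continuous_rp (α : ℝ) : Continuous (rp α) := by
  unfold rp
  fun_prop

theorem rp_nonneg (α t : ℝ) : 0 ≤ rp α t := le_max_left _ _
theorem rp_le_one (α t : ℝ) : rp α t ≤ 1 := max_le zero_le_one (min_le_left _ _)
theorem rp_of_le {α t : ℝ} (hα : 0 < α) (h : t ≤ α) : rp α t = 0 := by
  unfold rp
  apply max_eq_left
  refine (min_le_right _ _).trans ?_
  exact div_nonpos_of_nonpos_of_nonneg (by linarith) hα.le
theorem rp_of_ge {α t : ℝ} (hα : 0 < α) (h : 2 * α ≤ t) : rp α t = 1 := by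
  unfold rp
  have : 1 ≤ (t - α) / α := by rw [le_div_iff₀ hα]; linarith
  rw [min_eq_left this]
  exact max_eq_right zero_le_one

/-- `g = G1(a)`: `0` on `(-∞, e]`, `1` on `[2 e, ∞)` -/
noncomputable def G1 (e : ℝ) (a : M) : M := cfc (rp e) a

/-- `G2(a)`: `0` on `(-∞, e/2]`, `1` on `[e, ∞)` -/
noncomputable def G2 (e : ℝ) (a : M) : M := cfc (rp (e / 2)) a

variable [PartialOrder M] [StarOrderedRing M]

/-! ### Cuntz comparison -/

theorem cu_refl {a : M} (_ha : 0 ≤ a) : Cu a a := Cu_refl a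
theorem cu_trans {a b c : M} (h1 : Cu a b) (h2 : Cu b c) : Cu a c := Cu_trans h1 h2
theorem cu_le {a b : M} (ha : 0 ≤ a) (h : a ≤ b) : Cu a b := Cu_of_le ha h
theorem cu_conj {a : M} (_ha : 0 ≤ a) (x : M) : Cu (star x * a * x) a := Cu_conj x a
theorem cu_star_mul (y : M) : Cu (star y * y) (y * star y) := Cu_star_mul y
theorem cu_mul_star (y : M) : Cu (y * star y) (star y * y) := Cu_mul_star y
theorem cu_sq {a : M} (ha : 0 ≤ a) : Cu a (a * a) := Cu_sq ha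
theorem cu_smul_left {a : M} (_ha : 0 ≤ a) {c : ℝ} (hc : 0 < c) : Cu (c • a) a :=
  Cu_smul_left hc.le
theorem cu_smul_right {a : M} (_ha : 0 ≤ a) {c : ℝ} (hc : 0 < c) : Cu a (c • a) :=
  Cu_smul_right hc
/-- `{f ≠ 0} ⊆ {g ≠ 0}` on `[0, ∞)`: `f(a) ≾ g(a)` -/
theorem cu_cfc {a : M} (ha : 0 ≤ a) {f g : ℝ → ℝ} (hf : Continuous f) (hg : Continuous g)
    (hf0 : ∀ t, 0 ≤ t → 0 ≤ f t) (hg0 : ∀ t, 0 ≤ t → 0 ≤ g t)
    (h : ∀ t, 0 ≤ t → g t = 0 → f t = 0) : Cu (cfc f a) (cfc g a) :=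
  Cu_cfc_cfc ha hf hg hf0 hg0 h
/-- (0.2) -/
theorem cu_cut {a b : M} (hb : 0 ≤ b) (ha : 0 ≤ a) {ε : ℝ} (_hε : 0 < ε)
    (h : a ≤ b + algebraMap ℝ M ε) : Cu (cut ε a) b :=
  Cu_cut_of_ge (IsSelfAdjoint.of_nonneg ha) hb (sub_le_iff_le_add.2 h)
theorem cu_of_cut {a b : M} (ha : 0 ≤ a) (h : ∀ ε : ℝ, 0 < ε → Cu (cut ε a) b) : Cu a b :=
  Cu_of_cut ha h

end RC12.S4
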