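import Pool.Agent.LibRC12.S5Defs

/-!
S5A1: functional calculus of `T` on the right eigenspace of `T`.
-/

open Filter Topology WeakDual
open scoped ENNReal NNReal ComplexOrder

set_option linter.unusedSectionVars false

namespace RC12.S5

/-- If `T Z = c Z` (`T` self-adjoint, `c` real) then `f(T) Z = f(c) Z` for continuous `f`. -/
theorem cfc_mul_of_mul_eq {M : Type*} [CStarAlgebra M] [PartialOrder M] [StarOrderedRing M]
    (f : ℝ → ℝ) (hf : Continuous f) {T Z : M}
    (hT : IsSelfAdjoint T) {c : ℝ} (h : T * Z = c • Z) : cfc f T * Z = f c • Z := by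
  have hb : IsSelfAdjoint (algebraMap ℝ M c) := by
    rw [Algebra.algebraMap_eq_smul_one]
    exact IsSelfAdjoint.smul (by rfl) (IsSelfAdjoint.one M)
  have h1 := cfc_intertwine hT hb Z (by rw [h, ← Algebra.commutes, Algebra.smul_def]) hf
  rw [h1, cfc_algebraMap, ← Algebra.commutes, Algebra.smul_def]

end RC12.S5
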