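import Pool.Agent.LibRC12.S5Defs

/-!
S5A2: simple facts on `cut`.
-/

open Filter Topology WeakDual
open scoped ENNReal NNReal ComplexOrder

set_option linter.unusedSectionVars false

namespace RC12.S5

variable {M : Type*} [CStarAlgebra M] [PartialOrder M] [StarOrderedRing M]

/-- `a - ε ≤ (a - ε)_+` -/
theorem sub_le_cut {a : M} (ha : IsSelfAdjoint a) (ε : ℝ) : a - algebraMap ℝ M ε ≤ cut ε a := by
  have h1 : cfc (fun t : ℝ => t - ε) a = a - algebraMap ℝ M ε := by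
    rw [cfc_sub (fun t : ℝ => t) (fun _ : ℝ => ε) a, cfc_id' ℝ a, cfc_const ε a]
  rw [← h1]
  exact cfc_mono fun t _ => le_max_left _ _

/-- `a ≤ a_+`. -/
theorem le_cut_zero {a : M} (ha : IsSelfAdjoint a) : a ≤ cut 0 a := by
  simpa using sub_le_cut ha 0

/-- `(a - ε)_+ = 0` if `‖a‖ ≤ ε`. -/
theorem cut_eq_zero {a : M} (ha : IsSelfAdjoint a) {ε : ℝ} (h : ‖a‖ ≤ ε) : cut ε a = 0 := by
  have h1 : Set.EqOn (fun t : ℝ => max (t - ε) 0) (fun _ => 0) (spectrum ℝ a) := by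
    intro t ht
    have h2 : ‖t‖ ≤ ‖a‖ := by
      rcases subsingleton_or_nontrivial M with hM | hM
      · exact absurd ht (by rw [spectrum.of_subsingleton]; simp)
      · exact spectrum.norm_le_norm_of_mem ht
    have h3 : t ≤ ‖t‖ := le_abs_self t
    exact max_eq_right (by linarith)
  unfold cut
  rw [cfc_congr h1, cfc_const_zero]

/-- `‖a - (a - ε)_+‖ ≤ κ + ε` if `a ≥ -κ`. -/
theorem norm_sub_cut_le {a : M} (ha : IsSelfAdjoint a) {κ ε : ℝ} (hκ : 0 ≤ κ) (hε : 0 ≤ ε)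
    (h : -algebraMap ℝ M κ ≤ a) : ‖a - cut ε a‖ ≤ κ + ε := by
  have h1 : a - cut ε a = cfc (fun t : ℝ => t - max (t - ε) 0) a := by
    rw [cfc_sub (fun t : ℝ => t) (fun t : ℝ => max (t - ε) 0) a, cfc_id' ℝ a]
    rfl
  rw [h1]
  refine norm_cfc_le (by positivity) fun t ht => ?_
  have h2 : -κ ≤ t := by
    have h3 : algebraMap ℝ M (-κ) ≤ a := by rw [map_neg]; exact h
    exact (algebraMap_le_iff_le_spectrum ha).1 h3 t ht
  rw [Real.norm_eq_abs, abs_le]
  constructor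
  · rcases le_total (t - ε) 0 with h4 | h4
    · rw [max_eq_right h4]; linarith
    · rw [max_eq_left h4]; linarith
  · rcases le_total (t - ε) 0 with h4 | h4
    · rw [max_eq_right h4]; linarith
    · rw [max_eq_left h4]; linarith

end RC12.S5
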