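import Pool.Agent.LibRC12.S5A2

/-!
S5A3: the normaliser of section 5.
-/

open Filter Topology WeakDual
open scoped ENNReal NNReal ComplexOrder

set_option linter.unusedSectionVars false

namespace RC12.S5

theorem continuous_g_66 {κ : ℝ} (hκ : 0 < κ) (p : ℝ) :
    Continuous (fun t : ℝ => (max t κ) ^ p) :=
  (continuous_id.max continuous_const).rpow_const
    (fun _ => Or.inl (lt_of_lt_of_le hκ (le_max_right _ _)).ne')

variable {M : Type*} [CStarAlgebra M] [PartialOrder M] [StarOrderedRing M]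

/-- `k* N k ≤ a₂ + κ`: `N ≤ a₂ + (N - a₂)_+ ≤ K`, `k = K^{-1/2} (a₂ + κ)^{1/2}` and
`K^{-1/2} K K^{-1/2} = 1`, because `K ≥ κ` (so `max t κ = t` on the spectrum of `K`). -/
theorem kfun_conj_le {a₂ N : M} (ha : 0 ≤ a₂) (hN : 0 ≤ N) {κ : ℝ} (hκ : 0 < κ) :
    star (kfun κ a₂ N) * N * kfun κ a₂ N ≤ a₂ + algebraMap ℝ M κ := by
  have hsN : IsSelfAdjoint N := IsSelfAdjoint.of_nonneg hN
  have hsa : IsSelfAdjoint a₂ := IsSelfAdjoint.of_nonneg ha
  have hκM : (0 : M) ≤ algebraMap ℝ M κ := algebraMap_nonneg M hκ.le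
  have hsκ : IsSelfAdjoint (algebraMap ℝ M κ) := IsSelfAdjoint.of_nonneg hκM
  set K : M := a₂ + cut 0 (N - a₂) + algebraMap ℝ M κ with hK
  set L : M := a₂ + algebraMap ℝ M κ with hL
  set g : ℝ → ℝ := fun t : ℝ => (max t κ) ^ (-(1 / 2) : ℝ) with hg
  set h : ℝ → ℝ := fun t : ℝ => (max t κ) ^ ((1 / 2) : ℝ) with hh
  have hgc : Continuous g := continuous_g_66 hκ _
  have hhc : Continuous h := continuous_g_66 hκ _
  have hKκ : algebraMap ℝ M κ ≤ K := by
    rw [hK]
    exact le_add_of_nonneg_left (add_nonneg ha (cut_nonneg _ _))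
  have hLκ : algebraMap ℝ M κ ≤ L := by
    rw [hL]
    exact le_add_of_nonneg_left ha
  have hsK : IsSelfAdjoint K := IsSelfAdjoint.of_nonneg (hκM.trans hKκ)
  have hsL : IsSelfAdjoint L := IsSelfAdjoint.of_nonneg (hκM.trans hLκ)
  have hKs : ∀ x ∈ spectrum ℝ K, κ ≤ x := (algebraMap_le_iff_le_spectrum hsK).1 hKκ
  have hLs : ∀ x ∈ spectrum ℝ L, κ ≤ x := (algebraMap_le_iff_le_spectrum hsL).1 hLκ
  have hNK : N ≤ K := by
    have h1 : N - a₂ ≤ cut 0 (N - a₂) := le_cut_zero (hsN.sub hsa)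
    have h2 : N ≤ a₂ + cut 0 (N - a₂) := by
      have := add_le_add_right h1 a₂
      simpa using this
    exact h2.trans (le_add_of_nonneg_right hκM)
  have e1 : cfc g K * K * cfc g K = 1 := by
    have hid : cfc (fun t : ℝ => t) K = K := cfc_id' ℝ K
    calc cfc g K * K * cfc g K = cfc g K * cfc (fun t : ℝ => t) K * cfc g K := by rw [hid]
      _ = cfc (fun t => g t * t * g t) K := by
          rw [← cfc_mul g (fun t : ℝ => t) K hgc.continuousOn continuous_id.continuousOn,
            ← cfc_mul (fun t => g t * t) g K (hgc.mul continuous_id).continuousOn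
              hgc.continuousOn]
      _ = cfc (fun _ : ℝ => (1 : ℝ)) K := by
          apply cfc_congr
          intro t ht
          have h3 : κ ≤ t := hKs t ht
          have h4 : 0 < t := lt_of_lt_of_le hκ h3
          show g t * t * g t = 1
          rw [hg]
          simp only [max_eq_left h3]
          have h5 : t ^ (-(1 / 2) : ℝ) * t * t ^ (-(1 / 2) : ℝ) =
              t ^ (-(1 / 2) : ℝ) * t ^ (1 : ℝ) * t ^ (-(1 / 2) : ℝ) := by rw [Real.rpow_one]
          rw [h5, ← Real.rpow_add h4, ← Real.rpow_add h4]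
          norm_num
      _ = 1 := cfc_const_one ℝ K
  have e2 : cfc h L * cfc h L = L := by
    calc cfc h L * cfc h L = cfc (fun t => h t * h t) L := by
          rw [← cfc_mul h h L hhc.continuousOn hhc.continuousOn]
      _ = cfc (fun t : ℝ => t) L := by
          apply cfc_congr
          intro t ht
          have h3 : κ ≤ t := hLs t ht
          have h4 : 0 < t := lt_of_lt_of_le hκ h3
          show h t * h t = t
          rw [hh]
          simp only [max_eq_left h3]
          rw [← Real.rpow_add h4]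
          norm_num
      _ = L := cfc_id' ℝ L
  have hkf : kfun κ a₂ N = cfc g K * cfc h L := rfl
  have hsg : star (cfc g K) = cfc g K := (cfc_predicate g K).star_eq
  have hsh : star (cfc h L) = cfc h L := (cfc_predicate h L).star_eq
  rw [hkf]
  calc star (cfc g K * cfc h L) * N * (cfc g K * cfc h L)
      ≤ star (cfc g K * cfc h L) * K * (cfc g K * cfc h L) :=
        star_left_conjugate_le_conjugate hNK _
    _ = cfc h L * (cfc g K * K * cfc g K) * cfc h L := by
        rw [star_mul, hsg, hsh]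
        noncomm_ring
    _ = L := by rw [e1, mul_one, e2]

theorem map_cfc_66 {M' : Type*} [CStarAlgebra M'] (f : M →⋆ₐ[ℂ] M') {g : ℝ → ℝ}
    (hg : Continuous g) {a : M} (ha : IsSelfAdjoint a) : f (cfc g a) = cfc g (f a) := by
  have hf : Continuous f :=
    AddMonoidHomClass.continuous_of_bound f 1
      (by intro x; simpa only [one_mul] using NonUnitalStarAlgHom.norm_apply_le f x)
  exact StarAlgHomClass.map_cfc f g a hg.continuousOn hf ha (ha.map f)

theorem continuous_cut_66 (ε : ℝ) : Continuous (fun t : ℝ => max (t - ε) 0) := by fun_prop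

theorem map_cut {M' : Type*} [CStarAlgebra M'] (f : M →⋆ₐ[ℂ] M') {a : M} (ha : IsSelfAdjoint a)
    (ε : ℝ) : f (cut ε a) = cut ε (f a) :=
  map_cfc_66 f (continuous_cut_66 ε) ha

theorem map_kfun {M' : Type*} [CStarAlgebra M'] (f : M →⋆ₐ[ℂ] M') {a₂ N : M}
    (ha : IsSelfAdjoint a₂) (hN : IsSelfAdjoint N) (κ : ℝ) (hκ : 0 < κ) :
    f (kfun κ a₂ N) = kfun κ (f a₂) (f N) := by
  have hsκ : IsSelfAdjoint (algebraMap ℝ M κ) :=
    IsSelfAdjoint.of_nonneg (algebraMap_nonneg M hκ.le)
  have hmap : f (algebraMap ℝ M κ) = algebraMap ℝ M' κ := by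
    rw [Algebra.algebraMap_eq_smul_one, Algebra.algebraMap_eq_smul_one]
    have h1 : (κ • (1 : M)) = (κ : ℂ) • (1 : M) := by
      rw [Complex.coe_smul]
    rw [h1, map_smul, map_one, Complex.coe_smul]
  have hsc : IsSelfAdjoint (cut 0 (N - a₂)) := IsSelfAdjoint.of_nonneg (cut_nonneg _ _)
  unfold kfun
  rw [map_mul, map_cfc_66 f (continuous_g_66 hκ _) ((ha.add hsc).add hsκ),
    map_cfc_66 f (continuous_g_66 hκ _) (ha.add hsκ), map_add, map_add, map_add, hmap,
    map_cut f (hN.sub ha), map_sub]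

end RC12.S5
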