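import Pool.Agent.LibRC12.S5A2

/-!
S5A4: the cut-off functions `g`, `g1`, `g2` of section 5.
-/

open Filter Topology WeakDual
open scoped ENNReal NNReal ComplexOrder

set_option linter.unusedSectionVars false

namespace RC12.S5

variable {M : Type*} [CStarAlgebra M] [PartialOrder M] [StarOrderedRing M]

theorem rmp_nonneg (s t x : ℝ) : 0 ≤ rmp s t x := by
  unfold rmp; exact le_min zero_le_one (le_max_left _ _)

theorem rmp_le_one (s t x : ℝ) : rmp s t x ≤ 1 := min_le_left _ _

theorem rmp_eq_zero {s t x : ℝ} (hst : s < t) (h : x ≤ s) : rmp s t x = 0 := by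
  unfold rmp
  rw [max_eq_left (div_nonpos_of_nonpos_of_nonneg (by linarith) (by linarith))]
  simp

theorem rmp_eq_one {s t x : ℝ} (hst : s < t) (h : t ≤ x) : rmp s t x = 1 := by
  unfold rmp
  have h1 : 1 ≤ (x - s) / (t - s) := by
    rw [le_div_iff₀ (by linarith)]; linarith
  rw [max_eq_right (by linarith), min_eq_left h1]

theorem cfc_rmp_nonneg (s t : ℝ) (a : M) : 0 ≤ cfc (rmp s t) a :=
  cfc_nonneg fun _ _ => rmp_nonneg _ _ _

theorem cfc_rmp_norm_le (s t : ℝ) (a : M) : ‖cfc (rmp s t) a‖ ≤ 1 := by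
  refine norm_cfc_le zero_le_one fun x _ => ?_
  rw [Real.norm_eq_abs, abs_of_nonneg (rmp_nonneg _ _ _)]
  exact rmp_le_one _ _ _

/-- `rmp s t (a) * rmp s' t' (a) = rmp s t (a)` if `s' < t' ≤ s < t`. -/
theorem rmp_mul_rmp {a : M} (ha : IsSelfAdjoint a) {s t s' t' : ℝ} (h1 : s' < t') (h2 : t' ≤ s)
    (h3 : s < t) : cfc (rmp s t) a * cfc (rmp s' t') a = cfc (rmp s t) a := by
  have hc1 := continuous_rmp s t
  have hc2 := continuous_rmp s' t'
  rw [← cfc_mul (rmp s t) (rmp s' t') a hc1.continuousOn hc2.continuousOn]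
  refine cfc_congr fun x _ => ?_
  rcases le_total x s with h | h
  · simp only [rmp_eq_zero h3 h, zero_mul]
  · simp only [rmp_eq_one h1 (h2.trans h), mul_one]

theorem cut_mul_rmp {a : M} (ha : IsSelfAdjoint a) {e s t : ℝ} (h1 : s < t) (h2 : t ≤ e) :
    cut e a * cfc (rmp s t) a = cut e a := by
  have hc1 := continuous_rmp s t
  unfold cut
  rw [← cfc_mul (fun x : ℝ => max (x - e) 0) (rmp s t) a (by fun_prop) hc1.continuousOn]
  refine cfc_congr fun x _ => ?_
  rcases le_total x e with h | h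
  · simp only [max_eq_right (sub_nonpos.2 h), zero_mul]
  · simp only [rmp_eq_one h1 (h2.trans h), mul_one]

/-- `rmp s t (a) ≾ (a - s)_+`. -/
theorem Cu_rmp {a : M} (ha : IsSelfAdjoint a)
    {s t : ℝ} (h : s < t) : Cu (cfc (rmp s t) a) (cut s a) := by
  have hc1 := continuous_rmp s t
  have h0 : 0 < t - s := by linarith
  have h1 : cfc (rmp s t) a ≤ (t - s)⁻¹ • cut s a := by
    unfold cut
    rw [← cfc_smul (t - s)⁻¹ (fun x : ℝ => max (x - s) 0) a (by fun_prop)]
    refine cfc_mono (fun x _ => ?_) hc1.continuousOn (by fun_prop)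
    unfold rmp
    refine (min_le_right _ _).trans ?_
    rw [smul_eq_mul]
    refine max_le ?_ ?_
    · exact mul_nonneg (by positivity) (le_max_right _ _)
    · rw [div_eq_inv_mul]
      exact mul_le_mul_of_nonneg_left (le_max_left _ _) (by positivity)
  exact Cu_trans (Cu_of_le (cfc_rmp_nonneg _ _ _) h1) (Cu_smul_left (by positivity))

end RC12.S5
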