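import Pool.Agent.LibRC12.S5A2

/-!
S5A5: continuity of the normaliser of section 5.
-/

open Filter Topology WeakDual
open scoped ENNReal NNReal ComplexOrder

set_option linter.unusedSectionVars false

namespace RC12.S5

theorem continuous_pw_66 {κ : ℝ} (hκ : 0 < κ) (p : ℝ) :
    Continuous (fun t : ℝ => (max t κ) ^ p) :=
  (continuous_id.max continuous_const).rpow_const
    (fun _ => Or.inl (lt_of_lt_of_le hκ (le_max_right _ _)).ne')

variable {M : Type*} [CStarAlgebra M] [PartialOrder M] [StarOrderedRing M]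

theorem kfun_self_66 {a₂ : M} (ha : 0 ≤ a₂) {κ : ℝ} (hκ : 0 < κ) : kfun κ a₂ a₂ = 1 := by
  have hκM : (0 : M) ≤ algebraMap ℝ M κ := algebraMap_nonneg M hκ.le
  have h0 : cut 0 (a₂ - a₂) = (0 : M) := by
    unfold cut
    rw [sub_self, cfc_apply_zero]
    simp
  have hLκ : algebraMap ℝ M κ ≤ a₂ + algebraMap ℝ M κ := le_add_of_nonneg_left ha
  have hsL : IsSelfAdjoint (a₂ + algebraMap ℝ M κ) := IsSelfAdjoint.of_nonneg (hκM.trans hLκ)
  have hLs : ∀ x ∈ spectrum ℝ (a₂ + algebraMap ℝ M κ), κ ≤ x :=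
    (algebraMap_le_iff_le_spectrum hsL).1 hLκ
  unfold kfun
  rw [h0, add_zero, ← cfc_mul _ _ _ (continuous_pw_66 hκ _).continuousOn
    (continuous_pw_66 hκ _).continuousOn]
  have h1 : cfc (fun x : ℝ => (max x κ) ^ (-(1 / 2) : ℝ) * (max x κ) ^ ((1 / 2) : ℝ))
      (a₂ + algebraMap ℝ M κ) = cfc (fun _ : ℝ => (1 : ℝ)) (a₂ + algebraMap ℝ M κ) := by
    apply cfc_congr
    intro t ht
    have h3 : κ ≤ t := hLs t ht
    have h4 : 0 < t := lt_of_lt_of_le hκ h3
    simp only [max_eq_left h3]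
    rw [← Real.rpow_add h4]
    norm_num
  rw [h1]
  exact cfc_const_one ℝ _

/-- `k* N k → a₂` as `N → a₂` (for fixed `κ > 0`). HINT: `kfun κ a₂ N` is continuous in `N`
(`continuous_cfc_of_continuous` on the subtype of self-adjoint elements;
`t ↦ (max t κ)^(-1/2)` is continuous), and `kfun κ a₂ a₂ = 1`. -/
theorem kfun_conj_close {a₂ : M} (ha : 0 ≤ a₂) {κ : ℝ} (hκ : 0 < κ) {η : ℝ} (hη : 0 < η) :
    ∃ η' : ℝ, 0 < η' ∧ ∀ N : M, 0 ≤ N → ‖N - a₂‖ ≤ η' →
      ‖star (kfun κ a₂ N) * N * kfun κ a₂ N - a₂‖ ≤ η := by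
  have hsa : IsSelfAdjoint a₂ := IsSelfAdjoint.of_nonneg ha
  have hκM : (0 : M) ≤ algebraMap ℝ M κ := algebraMap_nonneg M hκ.le
  have hsκ : IsSelfAdjoint (algebraMap ℝ M κ) := IsSelfAdjoint.of_nonneg hκM
  have hval : Continuous (fun N : {N : M // IsSelfAdjoint N} => (N : M)) := continuous_subtype_val
  have hcut : Continuous (fun N : {N : M // IsSelfAdjoint N} => cut 0 ((N : M) - a₂)) := by
    apply continuous_cfc_of_continuous (fun t : ℝ => max (t - 0) 0) (by fun_prop)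
      (hval.sub continuous_const)
    intro N
    exact N.2.sub hsa
  have hk : Continuous (fun N : {N : M // IsSelfAdjoint N} => kfun κ a₂ (N : M)) := by
    unfold kfun
    apply Continuous.mul _ continuous_const
    apply continuous_cfc_of_continuous _ (continuous_pw_66 hκ _)
      ((continuous_const.add hcut).add continuous_const)
    intro N
    exact (hsa.add (IsSelfAdjoint.of_nonneg (cut_nonneg _ _))).add hsκ
  have hF : Continuous (fun N : {N : M // IsSelfAdjoint N} =>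
      star (kfun κ a₂ (N : M)) * (N : M) * kfun κ a₂ (N : M)) :=
    (hk.star.mul hval).mul hk
  have hat := Metric.continuous_iff.1 hF ⟨a₂, hsa⟩ η hη
  obtain ⟨δ, hδ, hd⟩ := hat
  refine ⟨δ / 2, by linarith, fun N hN hNd => ?_⟩
  have h1 := hd ⟨N, IsSelfAdjoint.of_nonneg hN⟩ (by
    rw [Subtype.dist_eq, dist_eq_norm]
    exact lt_of_le_of_lt hNd (by linarith))
  rw [dist_eq_norm, kfun_self_66 ha hκ, star_one, one_mul, mul_one] at h1
  exact h1.le

end RC12.S5
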