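import Pool.Agent.LibRC12.S5C1
import Pool.Agent.LibRC12.S5A5

/-!
S5C: section 5, abstract part.
-/

open Filter Topology WeakDual
open scoped ENNReal NNReal ComplexOrder

set_option linter.unusedSectionVars false

namespace RC12.S5

variable {M : Type*} [CStarAlgebra M] [PartialOrder M] [StarOrderedRing M]

/-- first half of section 5 -/
theorem finish_abs1 {Q : Type*} [CStarAlgebra Q] [PartialOrder Q] [StarOrderedRing Q]
    (π : M →⋆ₐ[ℂ] Q) {a b : M} (ha : 0 ≤ a) (hb : 0 ≤ b) {e : ℝ} (he : 0 < e)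
    (hV : ∀ η : ℝ, 0 < η → ∃ V : M, ‖π (star V * b * V) - π (cut (2 * e) a)‖ ≤ η)
    {κ : ℝ} (hκ : 0 < κ) :
    ∃ V₁ s : M, (CFC.sqrt b * V₁) * cfc (rmp (e / 2) e) a = CFC.sqrt b * V₁ ∧ 0 ≤ s ∧ π s = 0 ∧
      s * cfc (rmp e (3 / 2 * e)) a = s ∧
      ‖cut (2 * e) a - star V₁ * b * V₁ - s * s‖ ≤ κ + κ := by
  have hsa : IsSelfAdjoint a := IsSelfAdjoint.of_nonneg ha
  obtain ⟨a₂, ha₂⟩ : ∃ a₂, a₂ = cut (2 * e) a := ⟨_, rfl⟩
  rw [← ha₂] at hV ⊢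
  have ha₂0 : 0 ≤ a₂ := by rw [ha₂]; exact cut_nonneg _ _
  obtain ⟨η', hη', hclose⟩ := kfun_conj_close (a₂ := π a₂) (map_nonneg π ha₂0) hκ hκ
  obtain ⟨V₀, hV₀⟩ := hV η' hη'
  obtain ⟨N, hN⟩ : ∃ N, N = star V₀ * b * V₀ := ⟨_, rfl⟩
  rw [← hN] at hV₀
  have hN0 : 0 ≤ N := by rw [hN]; exact star_left_conjugate_nonneg hb _
  have h1 := hclose (π N) (map_nonneg π hN0) hV₀
  obtain ⟨k, hk⟩ : ∃ k, k = kfun κ a₂ N := ⟨_, rfl⟩
  have hkQ : π k = kfun κ (π a₂) (π N) := by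
    rw [hk]
    exact map_kfun π (IsSelfAdjoint.of_nonneg ha₂0) (IsSelfAdjoint.of_nonneg hN0) κ hκ
  rw [← hkQ] at h1
  have hkle : star k * N * k ≤ a₂ + algebraMap ℝ M κ := by
    rw [hk]; exact kfun_conj_le ha₂0 hN0 hκ
  obtain ⟨g, hg⟩ : ∃ g, g = cfc (rmp (3 / 2 * e) (2 * e)) a := ⟨_, rfl⟩
  obtain ⟨g1, hg1⟩ : ∃ g, g = cfc (rmp e (3 / 2 * e)) a := ⟨_, rfl⟩
  obtain ⟨g2, hg2⟩ : ∃ g, g = cfc (rmp (e / 2) e) a := ⟨_, rfl⟩
  rw [← hg1, ← hg2]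
  have hg0 : 0 ≤ g := by rw [hg]; exact cfc_rmp_nonneg _ _ _
  have hgs : star g = g := (IsSelfAdjoint.of_nonneg hg0).star_eq
  have hgn : ‖g‖ ≤ 1 := by rw [hg]; exact cfc_rmp_norm_le _ _ _
  have hgg1 : g * g1 = g := by
    rw [hg, hg1]; exact rmp_mul_rmp hsa (by linarith) le_rfl (by linarith)
  have hgg2 : g * g2 = g := by
    rw [hg, hg2]; exact rmp_mul_rmp hsa (by linarith) (by linarith) (by linarith)
  have ha₂g : a₂ * g = a₂ := by rw [ha₂, hg]; exact cut_mul_rmp hsa (by linarith) le_rfl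
  have hga₂ : g * a₂ = a₂ := by
    have := congrArg star ha₂g
    rwa [star_mul, hgs, (IsSelfAdjoint.of_nonneg ha₂0).star_eq] at this
  have hN₀' : star (V₀ * k * g) * b * (V₀ * k * g) = g * (star k * N * k) * g := by
    rw [hN]
    simp only [star_mul, hgs]
    noncomm_ring
  have hN₀le : star (V₀ * k * g) * b * (V₀ * k * g) ≤ a₂ + algebraMap ℝ M κ := by
    rw [hN₀']
    have := star_left_conjugate_le_conjugate hkle g
    rw [hgs] at this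
    exact this.trans (conj_le_aux hgs hgn ha₂g hga₂ hκ.le)
  obtain ⟨c, hc⟩ : ∃ c, c = a₂ - star (V₀ * k * g) * b * (V₀ * k * g) := ⟨_, rfl⟩
  have hπc : ‖π c‖ ≤ κ := by
    have e1 : π c = -(π g * (star (π k) * π N * π k - π a₂) * π g) := by
      have e2 : c = g * a₂ * g - g * (star k * N * k) * g := by
        rw [hc, hN₀', hga₂, ha₂g]
      rw [e2]
      simp only [map_sub, map_mul, map_star]
      noncomm_ring
    rw [e1, norm_neg]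
    have hgQ : ‖π g‖ ≤ 1 := (NonUnitalStarAlgHom.norm_apply_le π g).trans hgn
    calc ‖π g * (star (π k) * π N * π k - π a₂) * π g‖
        ≤ ‖π g‖ * ‖star (π k) * π N * π k - π a₂‖ * ‖π g‖ := norm_mul₃_le
      _ ≤ 1 * κ * 1 := by gcongr
      _ = κ := by ring
  have hcsa : IsSelfAdjoint c := by
    rw [hc]
    exact (IsSelfAdjoint.of_nonneg ha₂0).sub
      (IsSelfAdjoint.of_nonneg (star_left_conjugate_nonneg hb _))
  have hcg : c * g1 = c := by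
    rw [hc, hN₀', sub_mul, mul_assoc _ g g1, hgg1]
    congr 1
    rw [← ha₂g, mul_assoc, hgg1]
  obtain ⟨s, hs0, hss, hsπ, hsg⟩ := sqrt_aux π (h := cut κ c) (g1 := g1) (cut_nonneg _ _)
    (by rw [map_cut π hcsa]; exact cut_eq_zero (hcsa.map π) hπc) (cut_mul_aux hcsa hcg hκ.le)
  refine ⟨V₀ * k * g, s, ?_, hs0, hsπ, hsg, ?_⟩
  · rw [mul_assoc, mul_assoc (V₀ * k) g g2, hgg2]
  · rw [hss, ← hc]
    refine norm_sub_cut_le hcsa hκ.le hκ.le ?_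
    rw [hc, neg_le_iff_add_nonneg]
    have := sub_nonneg.2 hN₀le
    refine this.trans (le_of_eq ?_)
    abel

/-- second half of section 5 -/
theorem finish_abs2 {a₂ b : M} (hb : 0 ≤ b) {V₁ h Sh w U : M} {κ δ : ℝ}
    (h1 : ‖a₂ - star V₁ * b * V₁ - h‖ ≤ κ + κ) (h2 : ‖Sh - h‖ ≤ κ)
    (hw : cut δ b = CFC.sqrt b * w)
    (hU : ‖star (CFC.sqrt b * V₁ + cut δ b * U) * (CFC.sqrt b * V₁ + cut δ b * U) -
      (star (CFC.sqrt b * V₁) * (CFC.sqrt b * V₁) + Sh)‖ ≤ κ) :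
    ∃ V : M, ‖star V * b * V - a₂‖ ≤ 4 * κ := by
  have hsb : star (CFC.sqrt b) = CFC.sqrt b := (IsSelfAdjoint.of_nonneg (CFC.sqrt_nonneg _)).star_eq
  have hbb : CFC.sqrt b * CFC.sqrt b = b := CFC.sqrt_mul_sqrt_self b hb
  obtain ⟨r, hr⟩ : ∃ r, r = CFC.sqrt b := ⟨_, rfl⟩
  rw [← hr] at hsb hbb hU hw
  refine ⟨V₁ + w * U, ?_⟩
  have e1 : star (V₁ + w * U) * b * (V₁ + w * U) =
      star (r * V₁ + cut δ b * U) * (r * V₁ + cut δ b * U) := by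
    have e3 : r * V₁ + cut δ b * U = r * (V₁ + w * U) := by
      rw [hw]; noncomm_ring
    rw [e3, star_mul, hsb, ← hbb]
    noncomm_ring
  have e2 : star (r * V₁) * (r * V₁) = star V₁ * b * V₁ := by
    rw [star_mul, hsb, ← hbb]; noncomm_ring
  rw [e1]
  rw [e2] at hU
  have e5 : star (r * V₁ + cut δ b * U) * (r * V₁ + cut δ b * U) - a₂ =
      (star (r * V₁ + cut δ b * U) * (r * V₁ + cut δ b * U) - (star V₁ * b * V₁ + Sh)) +
      (Sh - h) - (a₂ - star V₁ * b * V₁ - h) := by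
    abel
  rw [e5]
  calc _ ≤ ‖(star (r * V₁ + cut δ b * U) * (r * V₁ + cut δ b * U) -
        (star V₁ * b * V₁ + Sh)) + (Sh - h)‖ + ‖a₂ - star V₁ * b * V₁ - h‖ := norm_sub_le _ _
    _ ≤ (κ + κ) + (κ + κ) := by
        refine add_le_add ((norm_add_le _ _).trans (add_le_add hU h2)) h1
    _ = 4 * κ := by ring

end RC12.S5
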