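import Pool.Agent.LibRC12.S5A1
import Pool.Agent.LibRC12.S5A3
import Pool.Agent.LibRC12.S5A4

/-!
S5C1: small lemmas for section 5.
-/

open Filter Topology WeakDual
open scoped ENNReal NNReal ComplexOrder

set_option linter.unusedSectionVars false

namespace RC12.S5

variable {M : Type*} [CStarAlgebra M] [PartialOrder M] [StarOrderedRing M]

/-- the square root of `b` divides `(b - δ)_+` (`δ > 0`). HINT: `w = f(b)`,
`f t = max (t - δ) 0 * (max t δ)^(-1/2)`, `√b = cfc (fun t => √t) b`. -/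
theorem exists_cut_factor {b : M} (hb : 0 ≤ b) {δ : ℝ} (hδ : 0 < δ) :
    ∃ w : M, cut δ b = CFC.sqrt b * w := by
  have hsa : IsSelfAdjoint b := IsSelfAdjoint.of_nonneg hb
  have h1 : CFC.sqrt b = cfc (fun t : ℝ => √t) b := by
    rw [CFC.sqrt_eq_real_sqrt b hb, cfcₙ_eq_cfc]
  have hc : Continuous fun t : ℝ => max (t - δ) 0 * (√(max t δ))⁻¹ := by
    refine Continuous.mul (by fun_prop) (Continuous.inv₀ (by fun_prop) fun t => ?_)
    exact (Real.sqrt_pos.2 (lt_max_of_lt_right hδ)).ne'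
  refine ⟨cfc (fun t : ℝ => max (t - δ) 0 * (√(max t δ))⁻¹) b, ?_⟩
  rw [h1, ← cfc_mul _ _ b (by fun_prop) hc.continuousOn]
  unfold cut
  refine cfc_congr fun t _ => ?_
  show max (t - δ) 0 = √t * (max (t - δ) 0 * (√(max t δ))⁻¹)
  rcases le_total t δ with h | h
  · rw [max_eq_right (by linarith)]; simp
  · rw [max_eq_left h]
    have : √t ≠ 0 := (Real.sqrt_pos.2 (lt_of_lt_of_le hδ h)).ne'
    field_simp

/-- `g (a₂ + κ) g ≤ a₂ + κ` -/
theorem conj_le_aux {a₂ g : M} (hgs : star g = g) (hgn : ‖g‖ ≤ 1) (h1 : a₂ * g = a₂)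
    (h2 : g * a₂ = a₂) {κ : ℝ} (hκ : 0 ≤ κ) :
    g * (a₂ + algebraMap ℝ M κ) * g ≤ a₂ + algebraMap ℝ M κ := by
  have e1 : g * (a₂ + algebraMap ℝ M κ) * g = a₂ + κ • (g * g) := by
    rw [mul_add, h2, add_mul, h1, Algebra.algebraMap_eq_smul_one, mul_smul_comm, mul_one,
      smul_mul_assoc]
  rw [e1, Algebra.algebraMap_eq_smul_one]
  have h3 : g * g ≤ 1 := by
    have h4 : star g * g ≤ algebraMap ℝ M (‖g‖ ^ 2) := by
      have := CStarAlgebra.star_mul_le_algebraMap_norm_sq (a := g)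
      exact this
    rw [hgs] at h4
    refine h4.trans ?_
    have h5 : algebraMap ℝ M (‖g‖ ^ 2) ≤ algebraMap ℝ M 1 :=
      algebraMap_mono M (by nlinarith [norm_nonneg g])
    simpa using h5
  have h6 : κ • (g * g) ≤ κ • (1 : M) := smul_le_smul_of_nonneg_left h3 hκ
  gcongr

/-- square root of an element annihilated by `π` and supported under `g1`. HINT: `s = √h`;
`π s = √(π h) = 0`; `h * (1 - g1) = 0` gives `s * (1 - g1) = 0` by `cfc_mul_of_mul_eq`. -/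
theorem sqrt_aux {Q : Type*} [CStarAlgebra Q] [PartialOrder Q] [StarOrderedRing Q]
    (π : M →⋆ₐ[ℂ] Q) {h g1 : M} (hh : 0 ≤ h) (hπ : π h = 0) (hg : h * g1 = h) :
    ∃ s : M, 0 ≤ s ∧ s * s = h ∧ π s = 0 ∧ s * g1 = s := by
  have hsa : IsSelfAdjoint h := IsSelfAdjoint.of_nonneg hh
  refine ⟨CFC.sqrt h, CFC.sqrt_nonneg _, CFC.sqrt_mul_sqrt_self h hh, ?_, ?_⟩
  · have h1 : star (π (CFC.sqrt h)) * π (CFC.sqrt h) = 0 := by
      rw [← map_star, ← map_mul, (IsSelfAdjoint.of_nonneg (CFC.sqrt_nonneg h)).star_eq,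
        CFC.sqrt_mul_sqrt_self h hh, hπ]
    exact CStarRing.star_mul_self_eq_zero_iff _ |>.1 h1
  · have h1 : CFC.sqrt h = cfc (fun t : ℝ => √t) h := by
      rw [CFC.sqrt_eq_real_sqrt h hh, cfcₙ_eq_cfc]
    have h2 : cfc (fun t : ℝ => √t) h * (1 - g1) = √(0 : ℝ) • (1 - g1) :=
      cfc_mul_of_mul_eq _ (by fun_prop) hsa (by rw [mul_sub, mul_one, hg]; simp)
    rw [← h1, Real.sqrt_zero, zero_smul, mul_sub, mul_one, sub_eq_zero] at h2
    exact h2.symm

/-- `(c - κ)_+ g1 = (c - κ)_+` if `c g1 = c` (by `cfc_mul_of_mul_eq`). -/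
theorem cut_mul_aux {c g1 : M} (hc : IsSelfAdjoint c) (h : c * g1 = c) {κ : ℝ} (hκ : 0 ≤ κ) :
    cut κ c * g1 = cut κ c := by
  have h2 : cut κ c * (1 - g1) = (max (0 - κ) 0 : ℝ) • (1 - g1) :=
    cfc_mul_of_mul_eq _ (by fun_prop) hc (by rw [mul_sub, mul_one, h]; simp)
  rw [max_eq_right (by linarith), zero_smul, mul_sub, mul_one, sub_eq_zero] at h2
  exact h2.symm

end RC12.S5
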