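import Pool.Agent.LibRC12.S1All

/-!
Section 5 and 6.1, 6.2, statement level (helper12): the leaves.
-/

open Filter Topology WeakDual
open scoped ENNReal NNReal ComplexOrder

set_option linter.unusedSectionVars false

namespace RC12.S5

/-- `0` for `x ≤ s`, `1` for `x ≥ t`, linear in between (`s < t`). -/
noncomputable def rmp (s t : ℝ) (x : ℝ) : ℝ := min 1 (max 0 ((x - s) / (t - s)))

theorem continuous_rmp (s t : ℝ) : Continuous (rmp s t) := by unfold rmp; fun_prop

/-- the normaliser of section 5: `k = (a₂ + (N - a₂)_+ + κ)^{-1/2} (a₂ + κ)^{1/2}` -/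
noncomputable def kfun {M : Type*} [CStarAlgebra M] (κ : ℝ) (a₂ N : M) : M :=
  cfc (fun t : ℝ => (max t κ) ^ (-(1 / 2) : ℝ)) (a₂ + cut 0 (N - a₂) + algebraMap ℝ M κ) *
    cfc (fun t : ℝ => (max t κ) ^ ((1 / 2) : ℝ)) (a₂ + algebraMap ℝ M κ)

/-- constant element of `C(X, E)` -/
def cst {X E : Type*} [TopologicalSpace X] [CompactSpace X] [CStarAlgebra E] (p : E) : CM X E :=
  CM.mk (ContinuousMap.const X p)

end RC12.S5
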