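import Pool.Agent.LibRC12.S5C
import Pool.Agent.LibRC12.S2All
import Pool.Agent.LibRC12.S4E
import Pool.Agent.LibRC12.S3B
import Pool.Agent.LibRC12.Iface

/-!
S5F: section 5 (proof of `finish`).
-/

open Filter Topology WeakDual
open scoped ENNReal NNReal ComplexOrder

set_option linter.unusedSectionVars false

namespace RC12.S5
variable {A : Type*} [CStarAlgebra A] [PartialOrder A] [StarOrderedRing A]

section evQ
variable {X : Type*} [TopologicalSpace X] [CompactSpace X] [T2Space X] {n : ℕ}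

theorem evQ_ext {f g : CM (X × characterSpace ℂ A) (Mn n ℂ)}
    (h : ∀ x φ, ev (x, φ) f = ev (x, φ) g) : f = g := CM.ext fun ⟨x, φ⟩ => h x φ

/-- evaluation at the characters, as a homomorphism -/
noncomputable def evQ : CM X (Mn n A) →⋆ₐ[ℂ] CM (X × characterSpace ℂ A) (Mn n ℂ) where
  toFun a := (exists_evc a).choose
  map_one' := evQ_ext fun x φ => by
    rw [(exists_evc (1 : CM X (Mn n A))).choose_spec, map_one, map_one, map_one]
  map_mul' a b := evQ_ext fun x φ => by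
    rw [(exists_evc _).choose_spec, map_mul, map_mul, map_mul, (exists_evc _).choose_spec,
      (exists_evc _).choose_spec]
  map_zero' := evQ_ext fun x φ => by
    rw [(exists_evc (0 : CM X (Mn n A))).choose_spec, map_zero, map_zero, map_zero]
  map_add' a b := evQ_ext fun x φ => by
    rw [(exists_evc _).choose_spec, map_add, map_add, map_add, (exists_evc _).choose_spec,
      (exists_evc _).choose_spec]
  commutes' c := evQ_ext fun x φ => by
    rw [(exists_evc _).choose_spec, AlgHomClass.commutes, AlgHomClass.commutes,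
      AlgHomClass.commutes]
  map_star' a := evQ_ext fun x φ => by
    rw [(exists_evc _).choose_spec, ev_star, map_star, ev_star, (exists_evc _).choose_spec]

theorem ev_evQ (a : CM X (Mn n A)) (x : X) (φ : characterSpace ℂ A) :
    ev (x, φ) (evQ a) = evc φ (ev x a) := (exists_evc a).choose_spec x φ

theorem evQ_eq_zero_iff {a : CM X (Mn n A)} :
    evQ a = 0 ↔ ∀ x i j, (ev x a).mat i j ∈ J0 A := by
  constructor
  · intro h x i j φ
    have := congrArg (ev (x, φ)) h
    rw [ev_evQ, map_zero] at this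
    have h2 := congrArg (fun m : Mn n ℂ => m.mat i j) this
    simpa [evc_mat] using h2
  · intro h
    refine evQ_ext fun x φ => ?_
    rw [ev_evQ, map_zero]
    refine Mn.ext ?_
    ext i j
    rw [evc_mat]
    exact h x i j φ

theorem norm_evQ_le {a : CM X (Mn n A)} {η : ℝ} (hη : 0 ≤ η)
    (h : ∀ x (φ : characterSpace ℂ A), ‖evc φ (ev x a)‖ ≤ η) : ‖evQ a‖ ≤ η := by
  rw [CM.norm_le hη]
  rintro ⟨x, φ⟩
  rw [ev_evQ]
  exact h x φ

end evQ

theorem isDim_ev {X : Type*} [TopologicalSpace X] [CompactSpace X] {n : ℕ} (x : X)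
    (τ : QuasiTrace A) : IsDim (fun c : CM X (Mn n A) => τ.dq (ev x c)) where
  nonneg a ha := dq_nonneg τ _ (CM.nonneg_iff.1 ha x)
  mono a b ha hb h := dq_mono τ (CM.nonneg_iff.1 ha x) (CM.nonneg_iff.1 hb x) (S4.cu_ev h x)
  add_le a b ha hb := by
    have := dq_add_le τ (CM.nonneg_iff.1 ha x) (CM.nonneg_iff.1 hb x)
    simpa using this


/-- the pieces `s p s`: properties -/
theorem pieces_aux {X : Type*} [TopologicalSpace X] [CompactSpace X] [T2Space X] {n : ℕ}
    {s : CM X (Mn n A)} (hs0 : 0 ≤ s) (hsQ : evQ s = 0) {κ : ℝ} (hκ : 0 < κ) :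
    ∃ (L : ℕ) (hl : Fin L → CM X (Mn n A)), (∀ l, 0 ≤ hl l) ∧
      (∀ l x i j, (ev x (hl l)).mat i j ∈ J0 A) ∧
      (∀ l x (τ : QuasiTrace A), τ.dq (ev x (hl l)) ≤ 1 / 2) ∧
      (∀ l g, s * g = s → hl l * g = hl l) ∧ ‖∑ l, hl l - s * s‖ ≤ κ := by
  have hss' : star s = s := (IsSelfAdjoint.of_nonneg hs0).star_eq
  have hR : 0 < ‖s‖ + 1 := by positivity
  obtain ⟨L, p, hp, hpc'⟩ := pieces_mat (Set.range fun x => ev x s)
    (isCompact_range (continuous_ev s)) (by
      rintro _ ⟨x, rfl⟩ i j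
      exact evQ_eq_zero_iff.1 hsQ x i j) (η := κ / (‖s‖ + 1)) (by positivity)
  have hp0 : ∀ l, 0 ≤ p l := fun l => (hp l).1
  have hpd : ∀ l (τ : QuasiTrace A), τ.dq (p l) ≤ 1 / 2 := fun l => (hp l).2.2
  have hpc : ∀ x, ‖star (ev x s) * (∑ l, p l) * ev x s - star (ev x s) * ev x s‖ ≤ κ := by
    intro x
    have h1 : star (ev x s) = ev x s := by rw [← ev_star, hss']
    have e1 : star (ev x s) * (∑ l, p l) * ev x s - star (ev x s) * ev x s =
        -((ev x s * (1 - ∑ l, p l)) * ev x s) := by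
      rw [h1]; noncomm_ring
    rw [e1, norm_neg]
    calc ‖(ev x s * (1 - ∑ l, p l)) * ev x s‖ ≤ ‖ev x s * (1 - ∑ l, p l)‖ * ‖ev x s‖ :=
          norm_mul_le _ _
      _ ≤ κ / (‖s‖ + 1) * (‖s‖ + 1) := by
          refine mul_le_mul (hpc' _ ⟨x, rfl⟩) ?_ (norm_nonneg _) (by positivity)
          exact (CM.norm_ev_le s x).trans (by linarith)
      _ = κ := by field_simp
  refine ⟨L, fun l => s * cst (p l) * s, ?_, ?_, ?_, ?_, ?_⟩
  · intro l
    have h1 : (0 : CM X (Mn n A)) ≤ cst (p l) := CM.nonneg_iff.2 fun x => hp0 l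
    have := star_left_conjugate_nonneg h1 s
    rwa [hss'] at this
  · intro l
    apply evQ_eq_zero_iff.1
    rw [map_mul, map_mul, hsQ, zero_mul, zero_mul]
  · intro l x τ
    have h1 : (0 : CM X (Mn n A)) ≤ cst (p l) := CM.nonneg_iff.2 fun x => hp0 l
    have h2 : (0 : CM X (Mn n A)) ≤ s * cst (p l) * s := by
      have := star_left_conjugate_nonneg h1 s
      rwa [hss'] at this
    refine (dq_mono τ (CM.nonneg_iff.1 h2 x) (hp0 l) ?_).trans (hpd l τ)
    intro ε hε
    refine ⟨ev x s, ?_⟩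
    have : ev x (s * cst (p l) * s) = star (ev x s) * p l * ev x s := by
      rw [map_mul, map_mul, ← ev_star, hss']
      rfl
    rw [this, sub_self, norm_zero]
    exact hε
  · intro l g hg
    rw [mul_assoc, hg]
  · rw [CM.norm_le hκ.le]
    intro x
    have e4 : ev x (∑ l, s * cst (p l) * s - s * s) = star (ev x s) * (∑ l, p l) * ev x s -
        star (ev x s) * ev x s := by
      rw [← ev_star, hss', map_sub, map_mul, map_sum, Finset.mul_sum, Finset.sum_mul]
      congr 1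
    rw [e4]
    exact hpc x

theorem finish_thm {X : Type*} [TopologicalSpace X] [CompactSpace X] [T2Space X] {ρ : ℝ}
    (hJ : PJ A X ρ) {n : ℕ} (a b : CM X (Mn n A)) (ha : 0 ≤ a) (hb : 0 ≤ b) {e δ : ℝ}
    (he : 0 < e) (hδ : 0 < δ)
    (hgap : ∀ x (τ : QuasiTrace A), τ.dq (cut (e / 2) (ev x a)) + (ρ + 1 / 2) <
      τ.dq (cut δ (ev x b)))
    (hV : ∀ η : ℝ, 0 < η → ∃ V : CM X (Mn n A), ∀ x (φ : characterSpace ℂ A),
      ‖evc φ (ev x (star V * b * V - cut (2 * e) a))‖ ≤ η) :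
    Cu (cut (2 * e) a) b := by
  intro ε hε
  have hsa : IsSelfAdjoint a := IsSelfAdjoint.of_nonneg ha
  have hκ0 : 0 < ε / 8 := by positivity
  obtain ⟨V₁, s, hX₀, hs0, hsQ, hsg, hclose⟩ := finish_abs1 (evQ (A := A) (X := X) (n := n))
    ha hb he (fun η hη => by
      obtain ⟨V, hV⟩ := hV η hη
      refine ⟨V, ?_⟩
      rw [← map_sub]
      exact norm_evQ_le hη.le hV) hκ0
  obtain ⟨L, hl, hl0, hlJ, hldq, hlg, hlsum⟩ := pieces_aux hs0 hsQ hκ0
  obtain ⟨U, hU⟩ := S4.add_many (J := X × QuasiTrace A)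
    (fun j c => j.2.dq (ev j.1 c)) (fun j => isDim_ev j.1 j.2) (ρ := ρ) hl hl0
    (b1 := cut δ b) (g1 := cfc (rmp e (3 / 2 * e)) a) (g2 := cfc (rmp (e / 2) e) a)
    (X0 := CFC.sqrt b * V₁) (cut_nonneg _ _) (cfc_rmp_nonneg _ _ _)
    (cfc_rmp_nonneg _ _ _) (rmp_mul_rmp hsa (by linarith) le_rfl (by linarith))
    (fun l => hlg l _ hsg) hX₀
    (fun l e he hle => hJ n (hl l) e (hl0 l) he (hlJ l) fun z τ => hle (z, τ))
    (fun j l => by
      obtain ⟨x, τ⟩ := j
      have h1 := hgap x τ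
      have h2 := hldq l x τ
      have h3 : τ.dq (ev x (cfc (rmp (e / 2) e) a)) ≤ τ.dq (cut (e / 2) (ev x a)) := by
        rw [← S4.ev_cut x ha]
        have hCu : Cu (cfc (rmp (e / 2) e) a) (cut (e / 2) a) :=
          Cu_rmp hsa (by linarith)
        exact (isDim_ev x τ).mono _ _ (cfc_rmp_nonneg _ _ _) (cut_nonneg _ _) hCu
      have h4 : τ.dq (ev x (cut δ b)) = τ.dq (cut δ (ev x b)) := by rw [S4.ev_cut x hb]
      show τ.dq (ev x (cfc (rmp (e / 2) e) a)) + τ.dq (ev x (hl l)) + ρ < τ.dq (ev x (cut δ b))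
      linarith)
    (η := ε / 8) hκ0
  obtain ⟨w, hw⟩ := exists_cut_factor hb hδ
  obtain ⟨V, hV⟩ := finish_abs2 hb hclose hlsum hw hU
  exact ⟨V, lt_of_le_of_lt hV (by linarith)⟩

end RC12.S5
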