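import Pool.Agent.LibRC12.S5Defs

/-!
S5H1: `Mn` and matrices.
-/

open Filter Topology WeakDual
open scoped ENNReal NNReal ComplexOrder

set_option linter.unusedSectionVars false

namespace RC12.S5

variable {B : Type*} [CStarAlgebra B] [PartialOrder B] [StarOrderedRing B]

theorem isPos_mat_iff {n : ℕ} (a : Mn n B) : IsPos a.mat ↔ 0 ≤ a := by
  rw [CStarAlgebra.nonneg_iff_eq_star_mul_self]
  constructor
  · rintro ⟨x, hx⟩
    exact ⟨Mn.of x, Mn.ext hx⟩
  · rintro ⟨x, hx⟩
    exact ⟨x.mat, congrArg Mn.mat hx⟩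

/-- `y ↦ y ⊗ e_{jj}` -/
private noncomputable def S5H1_diag {n : ℕ} (j : Fin n) : B →⋆ₙₐ[ℂ] Mn n B where
  toFun y := Mn.of (Matrix.single j j y)
  map_smul' c y := Mn.ext (by
    ext i k
    by_cases h : j = i ∧ j = k
    · simp [Matrix.single, h]
    · simp [Matrix.single, h])
  map_zero' := Mn.ext (by simp)
  map_add' x y := Mn.ext (by simp [Matrix.single_add])
  map_mul' x y := Mn.ext (by simp)
  map_star' x := Mn.ext (by
    change Matrix.single j j (star x) = Matrix.conjTranspose (Matrix.single j j x)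
    rw [Matrix.conjTranspose_single])

private theorem S5H1_single_le {n : ℕ} (i j : Fin n) (x : B) :
    ‖(Mn.of (Matrix.single i j x) : Mn n B)‖ ≤ ‖x‖ := by
  have h1 : star (Mn.of (Matrix.single i j x) : Mn n B) * Mn.of (Matrix.single i j x) =
      S5H1_diag j (star x * x) := by
    refine Mn.ext ?_
    rw [Mn.mat_mul, Mn.mat_star, Mn.mat_of, Matrix.star_eq_conjTranspose,
      Matrix.conjTranspose_single, Matrix.single_mul_single_same]
    rfl
  have h2 : ‖(Mn.of (Matrix.single i j x) : Mn n B)‖ * ‖(Mn.of (Matrix.single i j x) : Mn n B)‖ ≤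
      ‖x‖ * ‖x‖ := by
    rw [← CStarRing.norm_star_mul_self, h1, ← CStarRing.norm_star_mul_self]
    exact NonUnitalStarAlgHom.norm_apply_le _ _
  nlinarith [norm_nonneg x, norm_nonneg (Mn.of (Matrix.single i j x) : Mn n B)]

private theorem S5H1_norm_le_sum {n : ℕ} (a : Mn n B) : ‖a‖ ≤ ∑ i, ∑ j, ‖a.mat i j‖ := by
  have h1 : a = ∑ i, ∑ j, (Mn.of (Matrix.single i j (a.mat i j)) : Mn n B) :=
    Matrix.matrix_eq_sum_single a.mat
  calc ‖a‖ = ‖∑ i, ∑ j, (Mn.of (Matrix.single i j (a.mat i j)) : Mn n B)‖ := by rw [← h1]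
    _ ≤ ∑ i, ∑ j, ‖(Mn.of (Matrix.single i j (a.mat i j)) : Mn n B)‖ :=
      (norm_sum_le _ _).trans (Finset.sum_le_sum fun i _ => norm_sum_le _ _)
    _ ≤ ∑ i, ∑ j, ‖a.mat i j‖ :=
      Finset.sum_le_sum fun i _ => Finset.sum_le_sum fun j _ => S5H1_single_le i j _

/-- HINT: `Mn.norm_le_sum` (S5B), `v ↦ star v`. -/
theorem Cu_of_CuntzLE {n : ℕ} {a b : Mn n B} (h : CuntzLE a.mat b.mat) : Cu a b := by
  intro ε hε
  obtain ⟨v, hv⟩ := h (ε / (n * n + 1)) (by positivity)
  refine ⟨star (Mn.of v), ?_⟩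
  rw [star_star]
  refine (S5H1_norm_le_sum _).trans_lt ?_
  have h1 : ∀ i j, ‖(Mn.of v * b * star (Mn.of v) - a).mat i j‖ ≤ ε / (n * n + 1) :=
    fun i j => (hv i j).le
  calc ∑ i, ∑ j, ‖(Mn.of v * b * star (Mn.of v) - a).mat i j‖
      ≤ ∑ _i : Fin n, ∑ _j : Fin n, ε / (n * n + 1) :=
        Finset.sum_le_sum fun i _ => Finset.sum_le_sum fun j _ => h1 i j
    _ = (n * n) * (ε / (n * n + 1)) := by
        simp only [Finset.sum_const, Finset.card_univ, Fintype.card_fin, nsmul_eq_mul]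
        ring
    _ < ε := by
        rw [mul_div_assoc', div_lt_iff₀ (by positivity)]
        nlinarith

/-- HINT: `Mn.norm_entry_le`, `v ↦ star v`. -/
theorem CuntzLE_of_Cu {n : ℕ} {a b : Mn n B} (h : Cu a b) : CuntzLE a.mat b.mat := by
  intro ε hε
  obtain ⟨v, hv⟩ := h ε hε
  refine ⟨(star v).mat, fun i j => ?_⟩
  refine lt_of_le_of_lt ?_ hv
  have h1 := Mn.norm_entry_le (star v * b * v - a) i j
  refine le_trans (le_of_eq ?_) h1
  congr 2
  simp only [Mn.mat_sub, Mn.mat_mul, Mn.mat_star, Matrix.star_eq_conjTranspose,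
    Matrix.conjTranspose_conjTranspose]

/-- continuity in `Mn n B` is continuity of the entries -/
theorem Mn.continuous_iff {Z : Type*} [TopologicalSpace Z] {n : ℕ} (f : Z → Mn n B) :
    Continuous f ↔ ∀ i j, Continuous fun z => (f z).mat i j := by
  constructor
  · intro h i j
    exact (continuous_apply_apply i j : Continuous fun M : Fin n → Fin n → B => M i j).comp h
  · intro h
    exact (continuous_pi fun i => continuous_pi fun j => h i j :
      Continuous fun z => fun i j => (f z).mat i j)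

end RC12.S5
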