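import Pool.Agent.LibRC12.S5Defs

/-!
S5H2: positive roots.
-/

open Filter Topology WeakDual
open scoped ENNReal NNReal ComplexOrder

set_option linter.unusedSectionVars false

namespace RC12.S5

private theorem S5H2_root_pow {M : Type*} [CStarAlgebra M] [PartialOrder M] [StarOrderedRing M]
    {c : M} (hc : 0 ≤ c) (k : ℕ) : (c ^ (k + 1)) ^ (1 / ((k : ℝ) + 1)) = c := by
  have hk : (0 : ℝ) < (k : ℝ) + 1 := by positivity
  have h1 : c ^ (k + 1) = c ^ (((k + 1 : ℕ) : ℝ)) := (CFC.rpow_natCast c (k + 1) hc).symm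
  rw [h1, CFC.rpow_rpow_of_exponent_nonneg c _ _ (by positivity) (by positivity) hc]
  have h2 : ((k + 1 : ℕ) : ℝ) * (1 / ((k : ℝ) + 1)) = 1 := by
    push_cast
    field_simp
  rw [h2, CFC.rpow_one c hc]

/-- uniqueness of positive roots. HINT: for `0 ≤ c`, `c = cfc (fun t => t^(1/(k+1))) (c^(k+1))`. -/
theorem pow_inj_of_nonneg {M : Type*} [CStarAlgebra M] [PartialOrder M] [StarOrderedRing M]
    {c c' : M} (hc : 0 ≤ c) (hc' : 0 ≤ c') {k : ℕ} (h : c ^ (k + 1) = c' ^ (k + 1)) : c = c' := by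
  rw [← S5H2_root_pow hc k, h, S5H2_root_pow hc' k]

/-- existence of positive roots. -/
theorem exists_pow_eq {M : Type*} [CStarAlgebra M] [PartialOrder M] [StarOrderedRing M]
    {c : M} (hc : 0 ≤ c) (k : ℕ) : ∃ d : M, 0 ≤ d ∧ d ^ (k + 1) = c := by
  refine ⟨c ^ (1 / ((k : ℝ) + 1)), CFC.rpow_nonneg, ?_⟩
  rw [← CFC.rpow_natCast _ (k + 1) CFC.rpow_nonneg,
    CFC.rpow_rpow_of_exponent_nonneg c _ _ (by positivity) (by positivity) hc]
  have h2 : (1 / ((k : ℝ) + 1)) * ((k + 1 : ℕ) : ℝ) = 1 := by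
    have hk : (0 : ℝ) < (k : ℝ) + 1 := by positivity
    push_cast
    field_simp
  rw [h2, CFC.rpow_one c hc]

end RC12.S5
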