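import Pool.Agent.LibRC12.S5H1

/-!
S5H3: `τ ∘ ev_x`.
-/

open Filter Topology WeakDual
open scoped ENNReal NNReal ComplexOrder

set_option linter.unusedSectionVars false

namespace RC12.S5

variable {A : Type*} [CStarAlgebra A] [PartialOrder A] [StarOrderedRing A]
variable {X : Type*} [TopologicalSpace X] [CompactSpace X]

/-- `M_n(C(X, A)) → C(X, M_n(A))` -/
noncomputable def toCM {n : ℕ} : Mn n (CM X A) →⋆ₐ[ℂ] CM X (Mn n A) where
  toFun c := CM.mk ⟨fun x => Mn.of (c.mat.map (ev x)),
    (Mn.continuous_iff _).2 fun i j => continuous_ev (c.mat i j)⟩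
  map_one' := CM.ext fun x => Mn.ext (by
    ext i j
    by_cases h : i = j
    · subst h; simp [Matrix.map_apply]
    · simp [Matrix.map_apply, h])
  map_mul' a b := CM.ext fun x => Mn.ext (by
    ext i j
    simp [Matrix.map_apply, Matrix.mul_apply])
  map_zero' := CM.ext fun x => Mn.ext (by
    ext i j
    simp [Matrix.map_apply])
  map_add' a b := CM.ext fun x => Mn.ext (by
    ext i j
    simp [Matrix.map_apply])
  commutes' c := CM.ext fun x => Mn.ext (by
    ext i j
    by_cases h : i = j
    · subst h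
      simp [Algebra.algebraMap_eq_smul_one]
    · simp [Algebra.algebraMap_eq_smul_one, h])
  map_star' a := CM.ext fun x => Mn.ext (by
    ext i j
    simp [Matrix.map_apply, Matrix.star_apply])

theorem ev_toCM {n : ℕ} (c : Mn n (CM X A)) (x : X) :
    (ev x (toCM c)).mat = c.mat.map (ev x) := rfl

theorem toCM_surjective {n : ℕ} (c : CM X (Mn n A)) : ∃ c' : Mn n (CM X A), toCM c' = c := by
  refine ⟨Mn.of fun i j => CM.mk ⟨fun x => (ev x c).mat i j,
    (Mn.continuous_iff _).1 (continuous_ev c) i j⟩, ?_⟩
  refine CM.ext fun x => Mn.ext ?_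
  rw [ev_toCM]
  rfl

private theorem S5H3_map_mul {n : ℕ} (x : X) (a b : Matrix (Fin n) (Fin n) (CM X A)) :
    (a * b).map (ev x) = a.map (ev x) * b.map (ev x) := by
  ext i j
  simp only [Matrix.map_apply, Matrix.mul_apply, map_sum, map_mul]

private theorem S5H3_map_star {n : ℕ} (x : X) (a : Matrix (Fin n) (Fin n) (CM X A)) :
    (star a).map (ev x) = star (a.map (ev x)) := by
  ext i j
  simp only [Matrix.map_apply, Matrix.star_apply, ev_star]

private theorem S5H3_map_add {n : ℕ} (x : X) (a b : Matrix (Fin n) (Fin n) (CM X A)) :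
    (a + b).map (ev x) = a.map (ev x) + b.map (ev x) := by
  ext i j
  simp only [Matrix.map_apply, Matrix.add_apply, map_add]

private theorem S5H3_map_smul {n : ℕ} (x : X) (c : ℂ) (a : Matrix (Fin n) (Fin n) (CM X A)) :
    (c • a).map (ev x) = c • a.map (ev x) := by
  ext i j
  simp only [Matrix.map_apply, Matrix.smul_apply, map_smul]

/-- the quasitrace `τ ∘ ev_x` -/
noncomputable def qtEval (τ : QuasiTrace A) (x : X) : QuasiTrace (CM X A) where
  toFun n c := τ.toFun n (c.map (ev x))
  nonneg n c := by
    rw [S5H3_map_mul, S5H3_map_star]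
    exact τ.nonneg n _
  trace n c := by
    rw [S5H3_map_mul, S5H3_map_mul, S5H3_map_star]
    exact τ.trace n _
  add_I n a b ha hb := by
    rw [S5H3_map_add, S5H3_map_smul]
    exact τ.add_I n _ _ (by rw [← S5H3_map_star, ha]) (by rw [← S5H3_map_star, hb])
  add n a b ha hb hab := by
    rw [S5H3_map_add]
    exact τ.add n _ _ (by rw [← S5H3_map_star, ha]) (by rw [← S5H3_map_star, hb])
      (by rw [← S5H3_map_mul, hab, S5H3_map_mul])
  smul n t a ha := by
    rw [S5H3_map_smul]
    exact τ.smul n t _ (by rw [← S5H3_map_star, ha])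
  corner n m a h := by
    rw [← τ.corner n m _ h]
    congr 1
    ext i j
    simp only [Matrix.map_apply, corner]
    split_ifs
    · rfl
    · exact map_zero _
  one := by
    rw [← τ.one]
    congr 1
    ext i j
    rw [Matrix.map_apply, Subsingleton.elim i j, Matrix.one_apply_eq, Matrix.one_apply_eq]
    exact map_one _

end RC12.S5
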