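import Pool.Agent.LibRC12.S5H3
import Pool.Agent.LibRC12.S5H2

/-!
S5H4: `d` of `τ ∘ ev_x`.
-/

open Filter Topology WeakDual
open scoped ENNReal NNReal ComplexOrder

set_option linter.unusedSectionVars false

namespace RC12.S5

variable {A : Type*} [CStarAlgebra A] [PartialOrder A] [StarOrderedRing A]
variable {X : Type*} [TopologicalSpace X] [CompactSpace X]

theorem root_spec {n : ℕ} {a : Mn n A} (ha : 0 ≤ a) (k : ℕ) :
    0 ≤ Mn.of (root (k + 1) a.mat) ∧ Mn.of (root (k + 1) a.mat) ^ (k + 1) = a := by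
  obtain ⟨d, hd, hda⟩ := exists_pow_eq ha k
  have h : ∃ c, IsPos c ∧ c ^ (k + 1) = a.mat :=
    ⟨d.mat, (isPos_mat_iff d).2 hd, by rw [← Mn.mat_pow, hda]⟩
  have h1 : root (k + 1) a.mat = h.choose := by
    unfold root
    exact dif_pos h
  rw [h1]
  refine ⟨(isPos_mat_iff _).1 ?_, ?_⟩
  · rw [Mn.mat_of]; exact h.choose_spec.1
  · refine Mn.ext ?_
    rw [Mn.mat_pow, Mn.mat_of]
    exact h.choose_spec.2

/-- HINT: `(root (k+1) c).map ev_x = root (k+1) (c.map ev_x)` by `root_spec`,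
`pow_inj_of_nonneg`; the two limits `limUnder` are of equal sequences; `d_eq_dq`. -/
theorem qtEval_d (τ : QuasiTrace A) (x : X) {n : ℕ} {c : Mn n (CM X A)} (hc : 0 ≤ c) :
    (qtEval τ x).d c.mat = τ.dq (ev x (toCM c)) := by
  have hx : 0 ≤ ev x (toCM c) := map_nonneg (ev x) (map_nonneg toCM hc)
  rw [← d_eq_dq τ hx]
  unfold QuasiTrace.d
  congr 1
  funext k
  have h1 : (root (k + 1) c.mat).map (ev x) = root (k + 1) (ev x (toCM c)).mat := by
    obtain ⟨hr, hrc⟩ := root_spec hc k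
    obtain ⟨hr', hrc'⟩ := root_spec hx k
    have h2 : ev x (toCM (Mn.of (root (k + 1) c.mat))) =
        Mn.of (root (k + 1) (ev x (toCM c)).mat) := by
      refine pow_inj_of_nonneg (k := k) (map_nonneg (ev x) (map_nonneg toCM hr)) hr' ?_
      rw [hrc', ← map_pow, ← map_pow, hrc]
    exact congrArg Mn.mat h2
  change (τ.toFun n ((root (k + 1) c.mat).map (ev x))).re = _
  rw [h1]

end RC12.S5
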