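import Pool.Agent.LibRC12.T6A1

namespace RC19

open scoped ComplexConjugate
open RC12

variable {Y : Type*} [TopologicalSpace Y]

/-- Perturbation of a map on a closed set `V` to a nowhere vanishing one, relative to a closed
subset `C` where it does not vanish. -/
theorem pert [CompactSpace Y] [T2Space Y] {ι : Type*} [Fintype ι] (hN : Nz (ι → ℂ) Y)
    {V C : Set Y} (hV : IsClosed V) (hC : IsClosed C) (hCV : C ⊆ V)
    (F : Y → ι → ℂ) (hF : ContinuousOn F V) (hne : ∀ y ∈ C, F y ≠ 0) {e : ℝ} (he : 0 < e) :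
    ∃ F' : Y → ι → ℂ, ContinuousOn F' V ∧ (∀ y ∈ V, F' y ≠ 0) ∧ (∀ y ∈ C, F' y = F y) ∧
      ∀ y ∈ V, ‖F' y - F y‖ ≤ e := by
  classical
  have hVc : IsCompact V := hV.isCompact
  have hCc : IsCompact C := hC.isCompact
  obtain ⟨M, hM⟩ := hVc.exists_bound_of_continuousOn hF
  obtain ⟨F₀, hF₀, hF₀V, -⟩ := tietze hV F hF (le_max_right M 0)
    (fun y hy => (hM y hy).trans (le_max_left _ _))
  obtain ⟨δ, hδ, hδC⟩ : ∃ δ : ℝ, 0 < δ ∧ ∀ y ∈ C, 2 * δ ≤ ‖F y‖ := by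
    rcases C.eq_empty_or_nonempty with hC0 | hC0
    · exact ⟨1, one_pos, by simp [hC0]⟩
    · obtain ⟨y₀, hy₀, hmin⟩ := hCc.exists_isMinOn hC0 ((hF.mono hCV).norm)
      have h0 := norm_pos_iff.2 (hne y₀ hy₀)
      refine ⟨‖F y₀‖ / 2, by positivity, fun y hy => ?_⟩
      have h1 : ‖F y₀‖ ≤ ‖F y‖ := hmin hy
      linarith
  obtain ⟨G, hG0, hG⟩ := hN ⟨F₀, hF₀⟩ (min e (δ / 2)) (lt_min he (by positivity))
  have hG' : ∀ y, ‖G y - F₀ y‖ ≤ min e (δ / 2) := hG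
  have hlam : Continuous fun y => max 0 (min 1 (2 - ‖F₀ y‖ / δ)) :=
    continuous_const.max (continuous_const.min (continuous_const.sub (hF₀.norm.div_const δ)))
  have hlam0 : ∀ y, 0 ≤ max 0 (min 1 (2 - ‖F₀ y‖ / δ)) := fun y => le_max_left _ _
  have hlam1 : ∀ y, max 0 (min 1 (2 - ‖F₀ y‖ / δ)) ≤ 1 := fun y =>
    max_le zero_le_one (min_le_left _ _)
  have hsm : ∀ y, ‖max 0 (min 1 (2 - ‖F₀ y‖ / δ)) • (G y - F₀ y)‖ ≤ min e (δ / 2) := by
    intro y
    rw [norm_smul, Real.norm_of_nonneg (hlam0 y)]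
    calc max 0 (min 1 (2 - ‖F₀ y‖ / δ)) * ‖G y - F₀ y‖ ≤ 1 * ‖G y - F₀ y‖ :=
          mul_le_mul_of_nonneg_right (hlam1 y) (norm_nonneg _)
      _ ≤ min e (δ / 2) := by rw [one_mul]; exact hG' y
  refine ⟨fun y => F₀ y + max 0 (min 1 (2 - ‖F₀ y‖ / δ)) • (G y - F₀ y), ?_, ?_, ?_, ?_⟩
  · exact (hF₀.add (hlam.smul (G.continuous.sub hF₀))).continuousOn
  · intro y _ h0
    by_cases hy : ‖F₀ y‖ ≤ δ
    · have h1 : max 0 (min 1 (2 - ‖F₀ y‖ / δ)) = 1 := by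
        have h2 : ‖F₀ y‖ / δ ≤ 1 := (div_le_one hδ).2 hy
        rw [min_eq_left (by linarith), max_eq_right zero_le_one]
      simp only [h1, one_smul, add_sub_cancel] at h0
      exact hG0 y h0
    · push Not at hy
      have h1 : F₀ y = - (max 0 (min 1 (2 - ‖F₀ y‖ / δ)) • (G y - F₀ y)) :=
        eq_neg_of_add_eq_zero_left h0
      have h2 : ‖F₀ y‖ ≤ δ / 2 := by
        rw [h1, norm_neg]
        exact (hsm y).trans (min_le_right _ _)
      linarith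
  · intro y hy
    have h1 : max 0 (min 1 (2 - ‖F₀ y‖ / δ)) = 0 := by
      have h2 := hδC y hy
      have h3 : 2 ≤ ‖F₀ y‖ / δ := by
        rw [hF₀V y (hCV hy), le_div_iff₀ hδ]
        exact h2
      exact max_eq_left ((min_le_right _ _).trans (by linarith))
    simp only [h1, zero_smul, add_zero]
    exact hF₀V y (hCV hy)
  · intro y hy
    simp only
    rw [← hF₀V y hy, add_sub_cancel_left]
    exact (hsm y).trans (min_le_left _ _)

end RC19
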