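import Pool.Agent.LibRC12.T6Defs

namespace RC19

open scoped ComplexConjugate
open RC12

variable {Y : Type*} [TopologicalSpace Y]

/-- `Nz` only depends on the real dimension of the target. -/
theorem Nz_congr {E E' : Type*} [NormedAddCommGroup E] [NormedSpace ℝ E] [FiniteDimensional ℝ E]
    [NormedAddCommGroup E'] [NormedSpace ℝ E'] [FiniteDimensional ℝ E']
    (h : Module.finrank ℝ E = Module.finrank ℝ E') (hN : Nz E Y) : Nz E' Y := by
  intro F e he
  let L : E ≃L[ℝ] E' := ContinuousLinearEquiv.ofFinrankEq h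
  have hK : 0 < ‖(L : E →L[ℝ] E')‖ + 1 := by positivity
  let F0 : C(Y, E) := ⟨fun y => L.symm (F y), L.symm.continuous.comp F.continuous⟩
  obtain ⟨G, hG0, hG⟩ := hN F0 (e / (‖(L : E →L[ℝ] E')‖ + 1)) (by positivity)
  refine ⟨⟨fun y => L (G y), L.continuous.comp G.continuous⟩, fun y hy => ?_, fun y => ?_⟩
  · exact hG0 y ((map_eq_zero_iff L L.injective).1 hy)
  · change ‖L (G y) - F y‖ ≤ e
    have h1 : L (G y) - F y = (L : E →L[ℝ] E') (G y - F0 y) := by
      change _ = L (G y - L.symm (F y))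
      rw [map_sub, L.apply_symm_apply]
    rw [h1]
    calc ‖(L : E →L[ℝ] E') (G y - F0 y)‖
        ≤ ‖(L : E →L[ℝ] E')‖ * ‖G y - F0 y‖ := ContinuousLinearMap.le_opNorm _ _
      _ ≤ (‖(L : E →L[ℝ] E')‖ + 1) * (e / (‖(L : E →L[ℝ] E')‖ + 1)) :=
          mul_le_mul (by linarith) (hG y) (norm_nonneg _) hK.le
      _ = e := mul_div_cancel₀ e hK.ne'

theorem Nz_succ {n : ℕ} (hN : Nz (Fin n → ℝ) Y) : Nz (Fin (n + 1) → ℝ) Y := by
  intro F e he
  let F0 : C(Y, Fin n → ℝ) := ⟨fun y i => F y i.succ, by fun_prop⟩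
  obtain ⟨G, hG0, hG⟩ := hN F0 e he
  have hc : Continuous fun y => (Fin.cons (F y 0) (G y) : Fin (n + 1) → ℝ) := by
    refine continuous_pi fun i => ?_
    refine Fin.cases ?_ (fun i => ?_) i
    · simp only [Fin.cons_zero]
      fun_prop
    · simp only [Fin.cons_succ]
      fun_prop
  refine ⟨⟨_, hc⟩, fun y hy => ?_, fun y => ?_⟩
  · apply hG0 y
    funext i
    have h1 := congrFun hy i.succ
    simpa using h1
  · rw [pi_norm_le_iff_of_nonneg he.le]
    intro i
    refine Fin.cases ?_ (fun i => ?_) i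
    · change ‖(Fin.cons (F y 0) (G y) : Fin (n + 1) → ℝ) 0 - F y 0‖ ≤ e
      rw [Fin.cons_zero, sub_self, norm_zero]
      exact he.le
    · change ‖(Fin.cons (F y 0) (G y) : Fin (n + 1) → ℝ) i.succ - F y i.succ‖ ≤ e
      rw [Fin.cons_succ]
      exact (norm_le_pi_norm (G y - F0 y) i).trans (hG y)

/-- Tietze extension with a bound of the norm. -/
theorem tietze [CompactSpace Y] [T2Space Y] {ι : Type*} [Fintype ι] {V : Set Y} (hV : IsClosed V)
    (D : Y → ι → ℂ) (hD : ContinuousOn D V) {e : ℝ} (he : 0 ≤ e) (hb : ∀ y ∈ V, ‖D y‖ ≤ e) :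
    ∃ D' : Y → ι → ℂ, Continuous D' ∧ (∀ y ∈ V, D' y = D y) ∧ ∀ y, ‖D' y‖ ≤ e := by
  rcases he.eq_or_lt with h0 | h0
  · refine ⟨fun _ => 0, continuous_const, fun y hy => ?_, fun y => ?_⟩
    · have h1 := hb y hy
      rw [← h0, norm_le_zero_iff] at h1
      exact h1.symm
    · rw [norm_zero]
      exact he
  · have hT := Metric.instTietzeExtensionClosedBall ℂ (0 : ι → ℂ) h0
    let f : C(V, ι → ℂ) := ⟨fun y => D y, hD.domRestrict⟩
    have hf : ∀ x, f x ∈ Metric.closedBall (0 : ι → ℂ) e := by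
      intro x
      rw [mem_closedBall_zero_iff]
      exact hb x x.2
    obtain ⟨g, hg1, hg2⟩ := f.exists_forall_mem_restrict_eq hV hf
    refine ⟨g, g.continuous, fun y hy => ?_, fun y => ?_⟩
    · have h1 := congrArg (fun k : C(V, ι → ℂ) => k ⟨y, hy⟩) hg2
      exact h1
    · exact mem_closedBall_zero_iff.1 (hg1 y)

end RC19
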