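import Pool.Agent.LibRC12.T6B1

namespace RC19

open scoped ComplexConjugate
open RC12

/-- The explicit map, see the notes. -/
noncomputable def XX (t : ℝ) (p : ℝ × ℂ) (v : ℂ × ℂ) : ℝ × ℂ :=
  ((max (1 + t) 0 * (2 * (1 + p.1) - (‖v.1‖ ^ 2 + ‖v.2‖ ^ 2))
      - (2 * (1 + p.1) + (‖v.1‖ ^ 2 + ‖v.2‖ ^ 2))) / 4,
    ((max (1 + t) 0 : ℝ) : ℂ) * conj v.1)

theorem continuous_XX : Continuous fun z : ℝ × (ℝ × ℂ) × (ℂ × ℂ) => XX z.1 z.2.1 z.2.2 := by
  unfold XX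
  refine Continuous.prodMk ?_ ?_
  · fun_prop
  · refine Continuous.mul ?_ ?_
    · fun_prop
    · exact Complex.continuous_conj.comp (by fun_prop)

theorem XX_zero {t : ℝ} {p : ℝ × ℂ} {v : ℂ × ℂ} (h : S2 p) (hv : InL1 p v) (hX : XX t p v = 0) :
    v = 0 ∧ (p.1 = -1 ∨ t = 0) := by
  obtain ⟨x, c⟩ := p
  obtain ⟨v1, v2⟩ := v
  simp only [S2, InL1, XX, Prod.mk_eq_zero] at h hv hX ⊢
  obtain ⟨h1, h2⟩ := hv
  obtain ⟨hX1, hX2⟩ := hX
  have e1 : (((1 - x : ℝ)) : ℂ) * v1 = conj c * v2 := by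
    push_cast
    linear_combination -h1
  have e2 : c * v1 = (((1 + x : ℝ)) : ℂ) * v2 := by
    push_cast
    linear_combination h2
  have n1 : (1 - x) ^ 2 * ‖v1‖ ^ 2 = ‖c‖ ^ 2 * ‖v2‖ ^ 2 := by
    have := congrArg (fun z => ‖z‖ ^ 2) e1
    simpa [norm_mul, mul_pow, Complex.norm_real, -Complex.ofReal_sub] using this
  have n2 : ‖c‖ ^ 2 * ‖v1‖ ^ 2 = (1 + x) ^ 2 * ‖v2‖ ^ 2 := by
    have := congrArg (fun z => ‖z‖ ^ 2) e2
    simpa [norm_mul, mul_pow, Complex.norm_real, -Complex.ofReal_add] using this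
  have hv1 : 0 ≤ ‖v1‖ := norm_nonneg _
  have hv2 : 0 ≤ ‖v2‖ := norm_nonneg _
  have hc : ‖c‖ ^ 2 = (1 - x) * (1 + x) := by linarith
  have hx : -1 ≤ x := by nlinarith [sq_nonneg ‖c‖]
  have key : (1 + x) * (‖v1‖ ^ 2 + ‖v2‖ ^ 2) = 2 * ‖v1‖ ^ 2 := by
    by_cases h0 : 1 + x = 0
    · have hx' : x = -1 := by linarith
      subst hx'
      rw [hc] at n1
      nlinarith
    · rw [hc] at n2
      have : (1 - x) * ‖v1‖ ^ 2 = (1 + x) * ‖v2‖ ^ 2 := by
        have h3 : (1 + x) * ((1 - x) * ‖v1‖ ^ 2 - (1 + x) * ‖v2‖ ^ 2) = 0 := by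
          linear_combination n2
        rcases mul_eq_zero.mp h3 with h4 | h4
        · exact absurd h4 h0
        · linarith
      linarith
  set E := max (1 + t) 0 with hE
  have hE0 : 0 ≤ E := le_max_right _ _
  set n := ‖v1‖ ^ 2 + ‖v2‖ ^ 2 with hn
  have hn0 : 0 ≤ n := by positivity
  have hX1' : E * (2 * (1 + x) - n) = 2 * (1 + x) + n := by linarith
  -- n = 0 and (x = -1 or E = 1)
  have main : n = 0 ∧ (x = -1 ∨ E = 1) := by
    rcases mul_eq_zero.mp hX2 with h3 | h3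
    · have hE' : E = 0 := by exact_mod_cast h3
      rw [hE'] at hX1'
      constructor
      · nlinarith
      · left
        nlinarith
    · have hv1' : v1 = 0 := by
        simpa using h3
      have hk : (1 + x) * n = 0 := by rw [key, hv1']; simp
      rcases mul_eq_zero.mp hk with h4 | h4
      · have hx' : x = -1 := by linarith
        refine ⟨?_, Or.inl hx'⟩
        rw [hx'] at hX1'
        nlinarith
      · refine ⟨h4, ?_⟩
        rw [h4] at hX1'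
        have : (1 + x) * (E - 1) = 0 := by nlinarith
        rcases mul_eq_zero.mp this with h5 | h5
        · left; linarith
        · right; linarith
  obtain ⟨m1, m2⟩ := main
  have a1 : ‖v1‖ = 0 := by
    have : ‖v1‖ ^ 2 = 0 := by nlinarith [sq_nonneg ‖v1‖, sq_nonneg ‖v2‖]
    exact pow_eq_zero_iff (two_ne_zero) |>.mp this
  have a2 : ‖v2‖ = 0 := by
    have : ‖v2‖ ^ 2 = 0 := by nlinarith [sq_nonneg ‖v1‖, sq_nonneg ‖v2‖]
    exact pow_eq_zero_iff (two_ne_zero) |>.mp this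
  refine ⟨⟨norm_eq_zero.mp a1, norm_eq_zero.mp a2⟩, ?_⟩
  rcases m2 with m2 | m2
  · exact Or.inl m2
  · right
    rw [hE] at m2
    rcases max_cases (1 + t) 0 with ⟨h5, _⟩ | ⟨h5, _⟩
    · rw [h5] at m2; linarith
    · rw [h5] at m2; norm_num at m2

theorem XX_lm {t : ℝ} {p : ℝ × ℂ} (h : S2 p) (ht : -1 ≤ t) :
    XX t p (lm p) = ((1 + t) * p.1 - 1, ((1 + t : ℝ) : ℂ) * p.2) := by
  obtain ⟨x, c⟩ := p
  simp only [S2, XX, lm] at h ⊢
  have hm : max (1 + t) 0 = 1 + t := max_eq_left (by linarith)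
  rw [hm]
  refine Prod.ext ?_ ?_
  · simp only [Complex.norm_real, RCLike.norm_conj, Real.norm_eq_abs, sq_abs]
    have hc : ‖c‖ ^ 2 = 1 - x ^ 2 := by linarith
    rw [hc]
    ring
  · simp

end RC19
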