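import Pool.Agent.LibRC12.T6Defs

namespace RC19

open scoped ComplexConjugate
open RC12

private theorem b1_cc {p : ℝ × ℂ} (h : S2 p) :
    conj p.2 * p.2 = (1 - (p.1 : ℂ)) * (1 + (p.1 : ℂ)) := by
  have h1 : conj p.2 * p.2 = ((‖p.2‖ ^ 2 : ℝ) : ℂ) := by
    rw [Complex.conj_mul']
    push_cast
    rfl
  have h2 : p.1 ^ 2 + ‖p.2‖ ^ 2 = 1 := h
  have h3 : ‖p.2‖ ^ 2 = (1 - p.1) * (1 + p.1) := by linear_combination h2
  rw [h1, h3]
  push_cast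
  rfl

theorem InL1_lp {p : ℝ × ℂ} (h : S2 p) : InL1 p (lp p) := by
  have hc := b1_cc h
  constructor
  · change (p.1 : ℂ) * ((1 + p.1 : ℝ) : ℂ) + conj p.2 * p.2 = ((1 + p.1 : ℝ) : ℂ)
    rw [hc]
    push_cast
    ring
  · change p.2 * ((1 + p.1 : ℝ) : ℂ) - (p.1 : ℂ) * p.2 = p.2
    push_cast
    ring

theorem InL1_lm {p : ℝ × ℂ} (h : S2 p) : InL1 p (lm p) := by
  have hc := b1_cc h
  constructor
  · change (p.1 : ℂ) * conj p.2 + conj p.2 * ((1 - p.1 : ℝ) : ℂ) = conj p.2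
    push_cast
    ring
  · change p.2 * conj p.2 - (p.1 : ℂ) * ((1 - p.1 : ℝ) : ℂ) = ((1 - p.1 : ℝ) : ℂ)
    rw [mul_comm p.2, hc]
    push_cast
    ring

theorem InL1_zero (p : ℝ × ℂ) : InL1 p 0 := by
  constructor <;> simp

theorem InL1_add {p : ℝ × ℂ} {v w : ℂ × ℂ} (hv : InL1 p v) (hw : InL1 p w) : InL1 p (v + w) := by
  constructor
  · rw [Prod.fst_add, Prod.snd_add]
    linear_combination hv.1 + hw.1
  · rw [Prod.fst_add, Prod.snd_add]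
    linear_combination hv.2 + hw.2

theorem InL1_smul {p : ℝ × ℂ} (k : ℂ) {v : ℂ × ℂ} (hv : InL1 p v) : InL1 p (k • v) := by
  constructor
  · rw [Prod.smul_fst, Prod.smul_snd, smul_eq_mul, smul_eq_mul]
    linear_combination k * hv.1
  · rw [Prod.smul_fst, Prod.smul_snd, smul_eq_mul, smul_eq_mul]
    linear_combination k * hv.2

theorem eq_smul_lp {p : ℝ × ℂ} {v : ℂ × ℂ} (h : S2 p) (hp : p.1 ≠ -1) (hv : InL1 p v) :
    v = (v.1 / ((1 + p.1 : ℝ) : ℂ)) • lp p := by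
  have h0 : ((1 + p.1 : ℝ) : ℂ) ≠ 0 := by
    rw [Ne, Complex.ofReal_eq_zero]
    intro h1
    exact hp (by linarith)
  apply Prod.ext
  · change v.1 = (v.1 / ((1 + p.1 : ℝ) : ℂ)) * ((1 + p.1 : ℝ) : ℂ)
    rw [div_mul_cancel₀ _ h0]
  · change v.2 = (v.1 / ((1 + p.1 : ℝ) : ℂ)) * p.2
    rw [div_mul_eq_mul_div, eq_div_iff h0]
    have h2 := hv.2
    push_cast
    linear_combination -h2

theorem eq_smul_lm {p : ℝ × ℂ} {v : ℂ × ℂ} (h : S2 p) (hp : p.1 ≠ 1) (hv : InL1 p v) :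
    v = (v.2 / ((1 - p.1 : ℝ) : ℂ)) • lm p := by
  have h0 : ((1 - p.1 : ℝ) : ℂ) ≠ 0 := by
    rw [Ne, Complex.ofReal_eq_zero]
    intro h1
    exact hp (by linarith)
  apply Prod.ext
  · change v.1 = (v.2 / ((1 - p.1 : ℝ) : ℂ)) * conj p.2
    rw [div_mul_eq_mul_div, eq_div_iff h0]
    have h2 := hv.1
    push_cast
    linear_combination -h2
  · change v.2 = (v.2 / ((1 - p.1 : ℝ) : ℂ)) * ((1 - p.1 : ℝ) : ℂ)
    rw [div_mul_cancel₀ _ h0]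

theorem S2_bound {p : ℝ × ℂ} (h : S2 p) : -1 ≤ p.1 ∧ p.1 ≤ 1 ∧ ‖p.2‖ ≤ 1 := by
  have h2 : p.1 ^ 2 + ‖p.2‖ ^ 2 = 1 := h
  have h3 : 0 ≤ ‖p.2‖ := norm_nonneg _
  refine ⟨by nlinarith, by nlinarith, by nlinarith⟩

theorem norm_lp_le {p : ℝ × ℂ} (h : S2 p) : ‖lp p‖ ≤ 2 := by
  obtain ⟨h1, h2, h3⟩ := S2_bound h
  rw [Prod.norm_def]
  refine max_le ?_ ?_
  · change ‖((1 + p.1 : ℝ) : ℂ)‖ ≤ 2
    rw [Complex.norm_real, Real.norm_eq_abs, abs_le]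
    constructor <;> linarith
  · change ‖p.2‖ ≤ 2
    linarith

theorem norm_lm_le {p : ℝ × ℂ} (h : S2 p) : ‖lm p‖ ≤ 2 := by
  obtain ⟨h1, h2, h3⟩ := S2_bound h
  rw [Prod.norm_def]
  refine max_le ?_ ?_
  · change ‖conj p.2‖ ≤ 2
    rw [RCLike.norm_conj]
    linarith
  · change ‖((1 - p.1 : ℝ) : ℂ)‖ ≤ 2
    rw [Complex.norm_real, Real.norm_eq_abs, abs_le]
    constructor <;> linarith

theorem continuous_lp : Continuous lp := by
  unfold lp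
  fun_prop

theorem continuous_lm : Continuous lm := by
  unfold lm
  have h1 : Continuous fun p : ℝ × ℂ => conj p.2 := Complex.continuous_conj.comp continuous_snd
  exact h1.prodMk (Complex.continuous_ofReal.comp (continuous_const.sub continuous_fst))

end RC19
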