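import Pool.Agent.LibRC12.T6A
import Pool.Agent.LibRC12.T6B

namespace RC19

open scoped ComplexConjugate
open RC12

variable {Y : Type*} [TopologicalSpace Y]

/-- one patch of the twisted perturbation lemma -/
theorem patch [CompactSpace Y] [T2Space Y] {j c : ℕ} (hN : Nz (Fin j ⊕ Fin c → ℂ) Y)
    {V C : Set Y} (hV : IsClosed V) (hC : IsClosed C) (hCV : C ⊆ V)
    (f : Fin j → Y → ℝ × ℂ) (hf : ∀ a, ContinuousOn (f a) V) (hS : ∀ a, ∀ y ∈ V, S2 (f a y))
    (σ : Fin j → Bool) (Θ : Y → (Fin j → ℂ × ℂ) × (Fin c → ℂ)) (hΘ : ContinuousOn Θ V)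
    (hL : ∀ a, ∀ y ∈ V, InL1 (f a y) ((Θ y).1 a)) (hne : ∀ y ∈ C, Θ y ≠ 0)
    {e : ℝ} (he : 0 < e) :
    ∃ Θ' : Y → (Fin j → ℂ × ℂ) × (Fin c → ℂ), ContinuousOn Θ' V ∧
      (∀ a, ∀ y ∈ V, InL1 (f a y) ((Θ' y).1 a)) ∧ (∀ y ∈ C, Θ' y = Θ y) ∧
      (∀ y ∈ V, (∀ a, if σ a then 0 ≤ (f a y).1 else (f a y).1 ≤ 0) → Θ' y ≠ 0) ∧
      ∀ y ∈ V, ‖Θ' y - Θ y‖ ≤ e := by
  classical
  -- the sections
  set l : Fin j → Y → ℂ × ℂ := fun a y => if σ a then lp (f a y) else lm (f a y) with hl
  have hlc : ∀ a, ContinuousOn (l a) V := by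
    intro a
    rw [hl]
    by_cases h : σ a
    · simp only [h, if_true]
      exact continuous_lp.comp_continuousOn (hf a)
    · simp only [h]
      exact continuous_lm.comp_continuousOn (hf a)
  have hlL : ∀ a, ∀ y ∈ V, InL1 (f a y) (l a y) := by
    intro a y hy
    simp only [hl]
    split_ifs
    · exact InL1_lp (hS a y hy)
    · exact InL1_lm (hS a y hy)
  have hlb : ∀ a, ∀ y ∈ V, ‖l a y‖ ≤ 2 := by
    intro a y hy
    simp only [hl]
    split_ifs
    · exact norm_lp_le (hS a y hy)
    · exact norm_lm_le (hS a y hy)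
  -- the closed set `N`
  set N : Set Y := {y | y ∈ V ∧ ∀ a, if σ a then 0 ≤ (f a y).1 else (f a y).1 ≤ 0} with hN'
  have hNV : N ⊆ V := fun y hy => hy.1
  have hNc : IsClosed N := by
    have h1 : N = V ∩ ⋂ a, (V ∩ {y | if σ a then 0 ≤ (f a y).1 else (f a y).1 ≤ 0}) := by
      ext y
      simp only [hN', Set.mem_ofPred_eq, Set.mem_inter_iff, Set.mem_iInter]
      exact ⟨fun h => ⟨h.1, fun a => ⟨h.1, h.2 a⟩⟩, fun h => ⟨h.1, fun a => (h.2 a).2⟩⟩
    rw [h1]
    refine hV.inter (isClosed_iInter fun a => ?_)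
    have h2 : ContinuousOn (fun y => (f a y).1) V := continuous_fst.comp_continuousOn (hf a)
    by_cases h : σ a
    · simp only [h, if_true]
      exact h2.preimage_isClosed_of_isClosed hV isClosed_Ici
    · simp only [h]
      exact h2.preimage_isClosed_of_isClosed hV isClosed_Iic
  -- the coordinates
  set κ : Fin j → Y → ℂ := fun a y => if σ a then ((Θ y).1 a).1 / ((1 + (f a y).1 : ℝ) : ℂ)
    else ((Θ y).1 a).2 / ((1 - (f a y).1 : ℝ) : ℂ) with hκ
  have hκe : ∀ a, ∀ y ∈ N, (Θ y).1 a = κ a y • l a y := by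
    intro a y hy
    have h1 := hy.2 a
    simp only [hκ, hl]
    by_cases h : σ a
    · simp only [h, if_true] at h1 ⊢
      exact eq_smul_lp (hS a y hy.1) (by linarith) (hL a y hy.1)
    · simp only [h] at h1 ⊢
      have h1' : (f a y).1 ≤ 0 := h1
      exact eq_smul_lm (hS a y hy.1) (by linarith) (hL a y hy.1)
  have hΘa : ∀ a, ContinuousOn (fun y => (Θ y).1 a) V := fun a =>
    (continuous_apply a).comp_continuousOn (continuous_fst.comp_continuousOn hΘ)
  have hκc : ∀ a, ContinuousOn (κ a) N := by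
    intro a
    have h2 : ContinuousOn (fun y => (f a y).1) N :=
      (continuous_fst.comp_continuousOn (hf a)).mono hNV
    rw [hκ]
    by_cases h : σ a
    · simp only [h, if_true]
      refine ContinuousOn.div (continuous_fst.comp_continuousOn ((hΘa a).mono hNV))
        (Complex.continuous_ofReal.comp_continuousOn (continuousOn_const.add h2)) ?_
      intro y hy h0
      have h1 := hy.2 a
      simp only [h, if_true] at h1
      have h3 : (1 + (f a y).1 : ℝ) = 0 := by exact_mod_cast h0
      linarith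
    · simp only [h]
      refine ContinuousOn.div (continuous_snd.comp_continuousOn ((hΘa a).mono hNV))
        (Complex.continuous_ofReal.comp_continuousOn (continuousOn_const.sub h2)) ?_
      intro y hy h0
      have h1 := hy.2 a
      simp only [h] at h1
      have h1' : (f a y).1 ≤ 0 := h1
      have h3 : (1 - (f a y).1 : ℝ) = 0 := by exact_mod_cast h0
      linarith
  set F : Y → Fin j ⊕ Fin c → ℂ := fun y => Sum.elim (fun a => κ a y) (Θ y).2 with hF
  have hFc : ContinuousOn F N := by
    rw [continuousOn_pi]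
    rintro (a | b)
    · simpa [hF] using hκc a
    · have : ContinuousOn (fun y => (Θ y).2 b) N :=
        ((continuous_apply b).comp_continuousOn (continuous_snd.comp_continuousOn hΘ)).mono hNV
      simpa [hF] using this
  have hFne : ∀ y ∈ C ∩ N, F y ≠ 0 := by
    intro y hy h0
    apply hne y hy.1
    have h1 : ∀ a, κ a y = 0 := fun a => congrFun h0 (Sum.inl a)
    have h2 : (Θ y).2 = 0 := funext fun b => congrFun h0 (Sum.inr b)
    refine Prod.ext (funext fun a => ?_) h2
    rw [hκe a y hy.2, h1 a, zero_smul]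
    rfl
  obtain ⟨F', hF'c, hF'ne, hF'C, hF'b⟩ := pert hN hNc (hC.inter hNc) Set.inter_subset_right F hFc
    hFne (half_pos he)
  -- the difference
  set D : Y → Fin j ⊕ Fin c → ℂ := fun y => if y ∈ N then F' y - F y else 0 with hD
  have hDN : ∀ y ∈ N, D y = F' y - F y := fun y hy => by simp only [hD, hy, if_true]
  have hDC : ∀ y ∈ C, D y = 0 := by
    intro y hy
    by_cases h : y ∈ N
    · rw [hDN y h, hF'C y ⟨hy, h⟩, sub_self]
    · simp only [hD, h, if_false]
  have hDc : ContinuousOn D (N ∪ C) := by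
    refine ContinuousOn.union_of_isClosed ?_ ?_ hNc hC
    · exact (hF'c.sub hFc).congr hDN
    · exact (continuousOn_const (c := (0 : Fin j ⊕ Fin c → ℂ))).congr hDC
  obtain ⟨D', hD'c, hD'e, hD'b⟩ := tietze (hNc.union hC) D hDc (half_pos he).le (by
    rintro y (hy | hy)
    · rw [hDN y hy]
      exact hF'b y hy
    · rw [hDC y hy, norm_zero]
      exact (half_pos he).le)
  have hD'a : ∀ i, Continuous fun y => D' y i := fun i => (continuous_apply i).comp hD'c
  refine ⟨fun y => (fun a => (Θ y).1 a + D' y (Sum.inl a) • l a y,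
    fun b => (Θ y).2 b + D' y (Sum.inr b)), ?_, ?_, ?_, ?_, ?_⟩
  · refine ContinuousOn.prodMk ?_ ?_
    · rw [continuousOn_pi]
      intro a
      exact (hΘa a).add ((hD'a (Sum.inl a)).continuousOn.smul (hlc a))
    · rw [continuousOn_pi]
      intro b
      exact ((continuous_apply b).comp_continuousOn (continuous_snd.comp_continuousOn hΘ)).add
        (hD'a (Sum.inr b)).continuousOn
  · intro a y hy
    exact InL1_add (hL a y hy) (InL1_smul _ (hlL a y hy))
  · intro y hy
    have h1 : D' y = 0 := by rw [hD'e y (Or.inr hy), hDC y hy]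
    simp [h1]
  · intro y hy hσ h0
    have hyN : y ∈ N := ⟨hy, hσ⟩
    apply hF'ne y hyN
    have h1 : D' y = F' y - F y := by rw [hD'e y (Or.inl hyN), hDN y hyN]
    have h2 : ∀ i, F' y i = F y i + D' y i := by
      intro i
      rw [h1]
      simp
    funext i
    rw [h2]
    rcases i with a | b
    · have h3 : (Θ y).1 a + D' y (Sum.inl a) • l a y = 0 := by
        have := congrFun (congrArg Prod.fst h0) a
        simpa using this
      rw [hκe a y hyN, ← add_smul] at h3
      have h4 : l a y ≠ 0 := by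
        intro h5
        have h6 := hσ a
        simp only [hl] at h5
        by_cases h : σ a
        · simp only [h, if_true] at h5 h6
          have h7 : ((1 + (f a y).1 : ℝ) : ℂ) = 0 := congrArg Prod.fst h5
          have h8 : (1 + (f a y).1 : ℝ) = 0 := by exact_mod_cast h7
          linarith
        · simp only [h] at h5 h6
          have h6' : (f a y).1 ≤ 0 := h6
          have h7 : ((1 - (f a y).1 : ℝ) : ℂ) = 0 := congrArg Prod.snd h5
          have h8 : (1 - (f a y).1 : ℝ) = 0 := by exact_mod_cast h7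
          linarith
      exact (smul_eq_zero.1 h3).resolve_right h4
    · have h3 : (Θ y).2 b + D' y (Sum.inr b) = 0 := congrFun (congrArg Prod.snd h0) b
      exact h3
  · intro y hy
    have h1 : ‖D' y‖ ≤ e / 2 := hD'b y
    have h2 : ∀ i, ‖D' y i‖ ≤ e / 2 := fun i => (norm_le_pi_norm _ i).trans h1
    rw [Prod.norm_def]
    refine max_le ?_ ?_
    · refine (pi_norm_le_iff_of_nonneg he.le).2 fun a => ?_
      simp only [Prod.fst_sub, Pi.sub_apply, add_sub_cancel_left]
      rw [norm_smul]
      have h3 := hlb a y hy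
      have h4 := h2 (Sum.inl a)
      calc ‖D' y (Sum.inl a)‖ * ‖l a y‖ ≤ (e / 2) * 2 :=
            mul_le_mul h4 h3 (norm_nonneg _) (half_pos he).le
        _ = e := by ring
    · refine (pi_norm_le_iff_of_nonneg he.le).2 fun b => ?_
      simp only [Prod.snd_sub, Pi.sub_apply, add_sub_cancel_left]
      exact (h2 (Sum.inr b)).trans (half_le_self he.le)

end RC19
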