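import Pool.Agent.LibRC12.T6C1

namespace RC19

open scoped ComplexConjugate
open RC12

variable {Y : Type*} [TopologicalSpace Y]

/-- twisted perturbation lemma -/
theorem twpert [CompactSpace Y] [T2Space Y] {j c : ℕ} (hN : Nz (Fin j ⊕ Fin c → ℂ) Y)
    {V C : Set Y} (hV : IsClosed V) (hC : IsClosed C) (hCV : C ⊆ V)
    (f : Fin j → Y → ℝ × ℂ) (hf : ∀ a, ContinuousOn (f a) V) (hS : ∀ a, ∀ y ∈ V, S2 (f a y))
    (Θ : Y → (Fin j → ℂ × ℂ) × (Fin c → ℂ)) (hΘ : ContinuousOn Θ V)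
    (hL : ∀ a, ∀ y ∈ V, InL1 (f a y) ((Θ y).1 a)) (hne : ∀ y ∈ C, Θ y ≠ 0)
    {e : ℝ} (he : 0 < e) :
    ∃ Θ' : Y → (Fin j → ℂ × ℂ) × (Fin c → ℂ), ContinuousOn Θ' V ∧
      (∀ a, ∀ y ∈ V, InL1 (f a y) ((Θ' y).1 a)) ∧ (∀ y ∈ C, Θ' y = Θ y) ∧
      (∀ y ∈ V, Θ' y ≠ 0) ∧ ∀ y ∈ V, ‖Θ' y - Θ y‖ ≤ e := by
  classical
  -- the closed patches
  have hNc : ∀ σ : Fin j → Bool,
      IsClosed {y | y ∈ V ∧ ∀ a, if σ a then 0 ≤ (f a y).1 else (f a y).1 ≤ 0} := by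
    intro σ
    have h1 : {y | y ∈ V ∧ ∀ a, if σ a then 0 ≤ (f a y).1 else (f a y).1 ≤ 0} =
        V ∩ ⋂ a, (V ∩ {y | if σ a then 0 ≤ (f a y).1 else (f a y).1 ≤ 0}) := by
      ext y
      simp only [Set.mem_ofPred_eq, Set.mem_inter_iff, Set.mem_iInter]
      exact ⟨fun h => ⟨h.1, fun a => ⟨h.1, h.2 a⟩⟩, fun h => ⟨h.1, fun a => (h.2 a).2⟩⟩
    rw [h1]
    refine hV.inter (isClosed_iInter fun a => ?_)
    have h2 : ContinuousOn (fun y => (f a y).1) V := continuous_fst.comp_continuousOn (hf a)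
    by_cases h : σ a
    · simp only [h, if_true]
      exact h2.preimage_isClosed_of_isClosed hV isClosed_Ici
    · simp only [h]
      exact h2.preimage_isClosed_of_isClosed hV isClosed_Iic
  have key : ∀ S : Finset (Fin j → Bool), ∀ e : ℝ, 0 < e →
      ∃ Θ' : Y → (Fin j → ℂ × ℂ) × (Fin c → ℂ), ContinuousOn Θ' V ∧
        (∀ a, ∀ y ∈ V, InL1 (f a y) ((Θ' y).1 a)) ∧ (∀ y ∈ C, Θ' y = Θ y) ∧
        (∀ y ∈ V, (∃ σ ∈ S, ∀ a, if σ a then 0 ≤ (f a y).1 else (f a y).1 ≤ 0) → Θ' y ≠ 0) ∧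
        ∀ y ∈ V, ‖Θ' y - Θ y‖ ≤ e := by
    intro S
    induction S using Finset.induction_on with
    | empty =>
      intro e he
      refine ⟨Θ, hΘ, hL, fun _ _ => rfl, ?_, ?_⟩
      · rintro y - ⟨σ, hσ, -⟩
        exact absurd hσ (Finset.notMem_empty σ)
      · intro y _
        rw [sub_self, norm_zero]
        exact he.le
    | insert σ S hσS ih =>
      intro e he
      obtain ⟨Θ₁, h1c, h1L, h1C, h1S, h1b⟩ := ih (e / 2) (half_pos he)
      set C₁ : Set Y := C ∪ ⋃ τ ∈ S,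
        {y | y ∈ V ∧ ∀ a, if τ a then 0 ≤ (f a y).1 else (f a y).1 ≤ 0} with hC₁
      have hC₁c : IsClosed C₁ := hC.union (isClosed_biUnion_finset fun τ _ => hNc τ)
      have hC₁V : C₁ ⊆ V := by
        rintro y (hy | hy)
        · exact hCV hy
        · simp only [Set.mem_iUnion] at hy
          obtain ⟨τ, -, hy⟩ := hy
          exact hy.1
      have h1ne : ∀ y ∈ C₁, Θ₁ y ≠ 0 := by
        rintro y (hy | hy)
        · rw [h1C y hy]
          exact hne y hy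
        · simp only [Set.mem_iUnion] at hy
          obtain ⟨τ, hτ, hy⟩ := hy
          exact h1S y hy.1 ⟨τ, hτ, hy.2⟩
      obtain ⟨Θ₂, h2c, h2L, h2C, h2S, h2b⟩ := patch hN hV hC₁c hC₁V f hf hS σ Θ₁ h1c h1L h1ne
        (half_pos he)
      refine ⟨Θ₂, h2c, h2L, ?_, ?_, ?_⟩
      · intro y hy
        rw [h2C y (Or.inl hy), h1C y hy]
      · rintro y hy ⟨τ, hτ, hy'⟩
        rcases Finset.mem_insert.1 hτ with h | h
        · rw [h] at hy'
          exact h2S y hy hy'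
        · have hyC : y ∈ C₁ := by
            right
            simp only [Set.mem_iUnion]
            exact ⟨τ, h, hy, hy'⟩
          rw [h2C y hyC]
          exact h1ne y hyC
      · intro y hy
        calc ‖Θ₂ y - Θ y‖ = ‖(Θ₂ y - Θ₁ y) + (Θ₁ y - Θ y)‖ := by rw [sub_add_sub_cancel]
          _ ≤ ‖Θ₂ y - Θ₁ y‖ + ‖Θ₁ y - Θ y‖ := norm_add_le _ _
          _ ≤ e / 2 + e / 2 := add_le_add (h2b y hy) (h1b y hy)
          _ = e := add_halves e
  obtain ⟨Θ', h1, h2, h3, h4, h5⟩ := key Finset.univ e he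
  refine ⟨Θ', h1, h2, h3, ?_, h5⟩
  intro y hy
  refine h4 y hy ⟨fun a => decide (0 ≤ (f a y).1), Finset.mem_univ _, fun a => ?_⟩
  by_cases h : 0 ≤ (f a y).1
  · simp [h]
  · simp only [h, decide_false]
    exact (not_le.1 h).le

end RC19
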