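import Pool.Agent.LibRC12.T6Dat
import Pool.Agent.LibRC12.T6B

namespace RC19

open scoped ComplexConjugate
open RC12

variable {Y : Type*} [TopologicalSpace Y]

theorem stepA {j i : ℕ} (h : TTr (1 / 4) (j + 1) i Y) {V : Set Y} (hV : IsClosed V)
    (f : Fin j → Y → ℝ × ℂ) (hf : ∀ a, ContinuousOn (f a) V) (hS : ∀ a, ∀ y ∈ V, S2 (f a y))
    (g : Y → ℝ × ℂ) (hg : ContinuousOn g V) (hgS : ∀ y ∈ V, S2 (g y))
    (u : Y → ℝ × (Fin i → ℂ)) (hu : ContinuousOn u V) :
    ∃ (ψ : Fin j → Y → ℂ × ℂ) (φ : Y → ℂ × ℂ) (v : Y → ℝ × (Fin i → ℂ)),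
      Dat V f g u g ψ φ v := by
  obtain ⟨Ψ, v, hΨ, hv, hL, hne, hbd⟩ := h V hV (Fin.cons g f)
    (fun a => Fin.cases hg (fun a => hf a) a) (fun a => Fin.cases hgS (fun a => hS a) a) u hu
  let lam : Y → ℝ := fun y => max 0 (min 1 (8 * ‖u y‖ - 2))
  have hlam : ContinuousOn lam V :=
    continuousOn_const.sup (continuousOn_const.inf
      ((continuousOn_const.mul hu.norm).sub continuousOn_const))
  have hlamC : ContinuousOn (fun y => ((lam y : ℝ) : ℂ)) V :=
    Complex.continuous_ofReal.comp_continuousOn hlam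
  have hlamC' : ContinuousOn (fun y => ((1 - lam y : ℝ) : ℂ)) V :=
    Complex.continuous_ofReal.comp_continuousOn (continuousOn_const.sub hlam)
  have h0 : ∀ y, ‖u y‖ < 1 / 4 → lam y = 0 := by
    intro y hy
    refine max_eq_left ((min_le_right _ _).trans ?_)
    linarith
  have h1 : ∀ y, 3 / 8 ≤ ‖u y‖ → lam y = 1 := by
    intro y hy
    change max 0 (min 1 (8 * ‖u y‖ - 2)) = 1
    rw [min_eq_left (by linarith), max_eq_right (by norm_num)]
  have hLs : ∀ a : Fin j, ∀ y ∈ V, InL1 (f a y) (Ψ a.succ y) := fun a y hy => hL a.succ y hy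
  have hL0 : ∀ y ∈ V, InL1 (g y) (Ψ 0 y) := fun y hy => hL 0 y hy
  refine ⟨fun a y => ((1 - lam y : ℝ) : ℂ) • Ψ a.succ y,
    fun y => ((1 - lam y : ℝ) : ℂ) • Ψ 0 y + ((lam y : ℝ) : ℂ) • lm (g y), v, ?_⟩
  refine ⟨hg, fun a => hlamC'.smul (hΨ a.succ),
    (hlamC'.smul (hΨ 0)).add (hlamC.smul (continuous_lm.comp_continuousOn hg)), hv, hgS,
    fun a y hy => InL1_smul _ (hLs a y hy),
    fun y hy => InL1_add (InL1_smul _ (hL0 y hy)) (InL1_smul _ (InL1_lm (hgS y hy))), ?_, ?_⟩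
  · intro y hy
    rcases lt_or_ge ‖u y‖ (1 / 4) with hlt | hge
    · have h2 := h0 y hlt
      rcases hne y hy with ⟨a, ha⟩ | hvne
      · rcases Fin.eq_zero_or_eq_succ a with rfl | ⟨a, rfl⟩
        · right; left
          simp only [h2]
          simpa using ha
        · left
          refine ⟨a, ?_⟩
          simp only [h2]
          simpa using ha
      · exact Or.inr (Or.inr hvne)
    · right; right
      rw [hbd y hy hge]
      intro hz
      rw [hz, norm_zero] at hge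
      norm_num at hge
  · intro y hy hge
    have h2 := h1 y hge
    refine ⟨rfl, fun a => ?_, ?_, hbd y hy (by linarith)⟩
    · simp only [h2]
      simp
    · simp only [h2]
      simp

end RC19
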