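import Pool.Agent.LibRC12.T6Defs

namespace RC19

open scoped ComplexConjugate
open RC12

variable {Y : Type*} [TopologicalSpace Y]

/-- The data `(g, ψ, φ, v)` on `V` in the step `T(j+1,i) ⇒ T(j,i+1)`, with boundary values given by
`g0` and `u`. -/
structure Dat {j i : ℕ} (V : Set Y) (f : Fin j → Y → ℝ × ℂ) (g0 : Y → ℝ × ℂ)
    (u : Y → ℝ × (Fin i → ℂ)) (g : Y → ℝ × ℂ) (ψ : Fin j → Y → ℂ × ℂ) (φ : Y → ℂ × ℂ)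
    (v : Y → ℝ × (Fin i → ℂ)) : Prop where
  cg : ContinuousOn g V
  cψ : ∀ a, ContinuousOn (ψ a) V
  cφ : ContinuousOn φ V
  cv : ContinuousOn v V
  sg : ∀ y ∈ V, S2 (g y)
  lψ : ∀ a, ∀ y ∈ V, InL1 (f a y) (ψ a y)
  lφ : ∀ y ∈ V, InL1 (g y) (φ y)
  ne : ∀ y ∈ V, (∃ a, ψ a y ≠ 0) ∨ φ y ≠ 0 ∨ v y ≠ 0
  bd : ∀ y ∈ V, 3 / 8 ≤ ‖u y‖ → g y = g0 y ∧ (∀ a, ψ a y = 0) ∧ φ y = lm (g0 y) ∧ v y = u y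

end RC19
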