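import Pool.Agent.LibRC12.Core

namespace RC19

open scoped ComplexConjugate
open RC12

/-- Euclidean norm on `ℝ × ℂ = ℝ³`. -/
noncomputable def nrm (b : ℝ) (c : ℂ) : ℝ := √(b ^ 2 + ‖c‖ ^ 2)

/-- `(s,t)` is in the eigenspace of `[[b, conj c], [c, -b]]` for the eigenvalue `r`. -/
def InL (r b : ℝ) (c s t : ℂ) : Prop :=
  (b : ℂ) * s + conj c * t = r * s ∧ c * s - (b : ℂ) * t = r * t

/-- The unit sphere of `ℝ × ℂ = ℝ³`. -/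
def S2 (p : ℝ × ℂ) : Prop := p.1 ^ 2 + ‖p.2‖ ^ 2 = 1

/-- The complex line `L_p` in `ℂ²` for `p ∈ S²`. -/
def InL1 (p : ℝ × ℂ) (v : ℂ × ℂ) : Prop :=
  (p.1 : ℂ) * v.1 + conj p.2 * v.2 = v.1 ∧ p.2 * v.1 - (p.1 : ℂ) * v.2 = v.2

/-- section of the line bundle, zero only at `p = (-1,0)` -/
noncomputable def lp (p : ℝ × ℂ) : ℂ × ℂ := (((1 + p.1 : ℝ) : ℂ), p.2)

/-- section of the line bundle, zero only at `p = (1,0)` -/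
noncomputable def lm (p : ℝ × ℂ) : ℂ × ℂ := (conj p.2, ((1 - p.1 : ℝ) : ℂ))

/-- The statement `T(j,i)` at the threshold `r`. -/
def TTr (r : ℝ) (j i : ℕ) (Y : Type*) [TopologicalSpace Y] : Prop :=
  ∀ V : Set Y, IsClosed V → ∀ f : Fin j → Y → ℝ × ℂ, (∀ a, ContinuousOn (f a) V) →
    (∀ a, ∀ y ∈ V, S2 (f a y)) → ∀ w : Y → ℝ × (Fin i → ℂ), ContinuousOn w V →
    ∃ (ψ : Fin j → Y → ℂ × ℂ) (w' : Y → ℝ × (Fin i → ℂ)),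
      (∀ a, ContinuousOn (ψ a) V) ∧ ContinuousOn w' V ∧
      (∀ a, ∀ y ∈ V, InL1 (f a y) (ψ a y)) ∧
      (∀ y ∈ V, (∃ a, ψ a y ≠ 0) ∨ w' y ≠ 0) ∧
      ∀ y ∈ V, r ≤ ‖w y‖ → w' y = w y

end RC19
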