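import Pool.Agent.LibRC12.T6Dat
import Pool.Agent.LibRC12.T6C2

namespace RC19

open scoped ComplexConjugate
open RC12

variable {Y : Type*} [TopologicalSpace Y]

theorem glue {E : Type*} [TopologicalSpace E] {N M : Set Y} [∀ y, Decidable (y ∈ N)] (hN : IsClosed N) (hM : IsClosed M)
    {a b : Y → E} (ha : ContinuousOn a N) (hb : ContinuousOn b M)
    (h : ∀ y ∈ N, y ∈ M → a y = b y) :
    ContinuousOn (fun y => if y ∈ N then a y else b y) (N ∪ M) := by
  refine ContinuousOn.union_of_isClosed ?_ ?_ hN hM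
  · exact ha.congr fun y hy => by simp [hy]
  · refine hb.congr fun y hy => ?_
    by_cases h1 : y ∈ N
    · simp [h1, h y h1 hy]
    · simp [h1]

theorem lm_ne_zero {p : ℝ × ℂ} (h : p.1 ≤ 0) : lm p ≠ 0 := by
  intro h0
  have h1 : ((1 - p.1 : ℝ) : ℂ) = 0 := congrArg Prod.snd h0
  have h2 : (1 - p.1 : ℝ) = 0 := by exact_mod_cast h1
  linarith

/-- the perturbed point of the sphere -/
noncomputable def gN (c : ℂ) : ℝ × ℂ := (-√(1 - ‖c‖ ^ 2), c)

theorem continuous_gN : Continuous gN := by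
  unfold gN
  fun_prop

theorem S2_gN {c : ℂ} (h : ‖c‖ ≤ 1) : S2 (gN c) := by
  unfold S2 gN
  have h1 : 0 ≤ 1 - ‖c‖ ^ 2 := by nlinarith [norm_nonneg c]
  have h2 := Real.sq_sqrt h1
  simp only [neg_sq]
  rw [h2]
  ring

theorem gN_of_S2 {p : ℝ × ℂ} (h : S2 p) (h0 : p.1 ≤ 0) : gN p.2 = p := by
  unfold gN
  have h1 : 1 - ‖p.2‖ ^ 2 = (-p.1) ^ 2 := by
    unfold S2 at h
    linarith [h, neg_sq p.1]
  rw [h1, Real.sqrt_sq (by linarith), neg_neg]

theorem gN_le (c : ℂ) : (gN c).1 ≤ 0 := by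
  unfold gN
  simpa using Real.sqrt_nonneg _

theorem gN_eq {c : ℂ} (h : (gN c).1 = -1) : c = 0 := by
  unfold gN at h
  have h1 : √(1 - ‖c‖ ^ 2) = 1 := by
    have : -√(1 - ‖c‖ ^ 2) = -1 := h
    linarith
  have h2 : 1 - ‖c‖ ^ 2 = 1 := by
    have := Real.sqrt_eq_one.1 h1
    exact this
  have h3 : ‖c‖ = 0 := by
    have : ‖c‖ ^ 2 = 0 := by linarith
    exact pow_eq_zero_iff (two_ne_zero) |>.1 this
  exact norm_eq_zero.1 h3

open Classical in
theorem stepB [CompactSpace Y] [T2Space Y] {j i : ℕ} (hN : Nz (Fin (j + i + 2) → ℂ) Y)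
    {V : Set Y} (hV : IsClosed V)
    (f : Fin j → Y → ℝ × ℂ) (hf : ∀ a, ContinuousOn (f a) V) (hS : ∀ a, ∀ y ∈ V, S2 (f a y))
    (u : Y → ℝ × (Fin i → ℂ)) (hu : ContinuousOn u V)
    {g : Y → ℝ × ℂ} {ψ : Fin j → Y → ℂ × ℂ} {φ : Y → ℂ × ℂ} {v : Y → ℝ × (Fin i → ℂ)}
    (hD : Dat V f g u g ψ φ v) :
    ∃ (g' : Y → ℝ × ℂ) (ψ' : Fin j → Y → ℂ × ℂ) (φ' : Y → ℂ × ℂ) (v' : Y → ℝ × (Fin i → ℂ)),
      Dat V f g u g' ψ' φ' v' ∧
      ∀ y ∈ V, (g' y).1 = -1 → φ' y = 0 → (∀ a, ψ' a y = 0) → (v' y).2 ≠ 0 := by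
  have hN' : Nz (Fin j ⊕ Fin (i + 2) → ℂ) Y := by
    refine Nz_congr ?_ hN
    simp [Module.finrank_pi_fintype, Complex.finrank_real_complex]
    ring
  -- the sets
  set N : Set Y := V ∩ g ⁻¹' {p | p.1 ≤ -1 / 2} with hNdef
  have hNc : IsClosed N :=
    hD.cg.preimage_isClosed_of_isClosed hV (isClosed_le continuous_fst continuous_const)
  have hNV : N ⊆ V := Set.inter_subset_left
  set M : Set Y := V ∩ g ⁻¹' {p | -1 / 2 ≤ p.1} with hMdef
  have hMc : IsClosed M :=
    hD.cg.preimage_isClosed_of_isClosed hV (isClosed_le continuous_const continuous_fst)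
  have hNM : N ∪ M = V := by
    ext y
    constructor
    · rintro (h | h)
      · exact h.1
      · exact h.1
    · intro h
      rcases le_total (g y).1 (-1 / 2) with h1 | h1
      · exact Or.inl ⟨h, h1⟩
      · exact Or.inr ⟨h, h1⟩
  set C1 : Set Y := V ∩ u ⁻¹' {p | 3 / 8 ≤ ‖p‖} with hC1
  have hC1c : IsClosed C1 :=
    hu.preimage_isClosed_of_isClosed hV (isClosed_le continuous_const continuous_norm)
  set C2 : Set Y := V ∩ g ⁻¹' {p | -3 / 4 ≤ p.1} with hC2
  have hC2c : IsClosed C2 :=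
    hD.cg.preimage_isClosed_of_isClosed hV (isClosed_le continuous_const continuous_fst)
  set C : Set Y := N ∩ (C1 ∪ C2) with hCdef
  have hCc : IsClosed C := hNc.inter (hC1c.union hC2c)
  have hCN : C ⊆ N := Set.inter_subset_left
  -- the section
  set κ : Y → ℂ := fun y => (φ y).2 / ((1 - (g y).1 : ℝ) : ℂ) with hκ
  have hgN0 : ∀ y ∈ N, (g y).1 ≤ 0 := fun y hy => by
    have : (g y).1 ≤ -1 / 2 := hy.2
    linarith
  have hφκ : ∀ y ∈ N, φ y = κ y • lm (g y) := fun y hy =>
    eq_smul_lm (hD.sg y (hNV hy)) (by have := hgN0 y hy; intro h; linarith) (hD.lφ y (hNV hy))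
  have hκc : ContinuousOn κ N := by
    have h1 : ContinuousOn (fun y => (φ y).2) N := (continuous_snd.comp_continuousOn hD.cφ).mono hNV
    have h2 : ContinuousOn (fun y => ((1 - (g y).1 : ℝ) : ℂ)) N := by
      have h3 : ContinuousOn (fun y => (g y).1) N :=
        (continuous_fst.comp_continuousOn hD.cg).mono hNV
      exact Complex.continuous_ofReal.comp_continuousOn (continuousOn_const.sub h3)
    refine h1.div h2 fun y hy => ?_
    have := hgN0 y hy
    have h4 : (1 - (g y).1 : ℝ) ≠ 0 := by linarith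
    exact_mod_cast h4
  set Θ : Y → (Fin j → ℂ × ℂ) × (Fin (i + 2) → ℂ) := fun y =>
    (fun a => ψ a y, Fin.cons (κ y) (Fin.cons (g y).2 (v y).2)) with hΘ
  have hΘc : ContinuousOn Θ N := by
    refine ContinuousOn.prodMk (continuousOn_pi.2 fun a => (hD.cψ a).mono hNV) ?_
    refine continuousOn_pi.2 fun l => ?_
    refine Fin.cases ?_ (fun l => ?_) l
    · exact hκc
    · refine Fin.cases ?_ (fun l => ?_) l
      · exact (continuous_snd.comp_continuousOn hD.cg).mono hNV
      · exact ((continuous_apply l).comp_continuousOn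
          (continuous_snd.comp_continuousOn hD.cv)).mono hNV
  have hΘL : ∀ a, ∀ y ∈ N, InL1 (f a y) ((Θ y).1 a) := fun a y hy => hD.lψ a y (hNV hy)
  have hΘne : ∀ y ∈ C, Θ y ≠ 0 := by
    intro y hy h0
    have hyN : y ∈ N := hCN hy
    have e1 : κ y = 0 := by simpa [hΘ] using congrFun (congrArg Prod.snd h0) 0
    have e2 : (g y).2 = 0 := by simpa [hΘ] using congrFun (congrArg Prod.snd h0) 1
    rcases hy.2 with h | h
    · have h1 := (hD.bd y h.1 h.2).2.2.1
      have h2 : lm (g y) = 0 := by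
        rw [← h1, hφκ y hyN, e1, zero_smul]
      exact lm_ne_zero (hgN0 y hyN) h2
    · have h1 : -3 / 4 ≤ (g y).1 := h.2
      have h2 : (g y).1 ≤ -1 / 2 := hyN.2
      have h3 := hD.sg y h.1
      unfold S2 at h3
      rw [e2] at h3
      simp at h3
      rcases h3 with h3 | h3
      · rw [h3] at h2
        norm_num at h2
      · rw [h3] at h1
        norm_num at h1
  -- lower bound
  obtain ⟨m0, hm0, hm1⟩ : ∃ m0 : ℝ, 0 < m0 ∧ ∀ y ∈ N,
      m0 ≤ ‖((fun a => ψ a y, κ y, v y) : (Fin j → ℂ × ℂ) × ℂ × (ℝ × (Fin i → ℂ)))‖ := by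
    refine hNc.isCompact.exists_forall_le' ?_ ?_
    · refine ContinuousOn.norm (ContinuousOn.prodMk
        (continuousOn_pi.2 fun a => (hD.cψ a).mono hNV) (hκc.prodMk (hD.cv.mono hNV)))
    · intro y hy
      rw [norm_pos_iff]
      intro h0
      have e1 : (fun a => ψ a y) = 0 := congrArg Prod.fst h0
      have e2 : κ y = 0 := congrArg (fun z => z.2.1) h0
      have e3 : v y = 0 := congrArg (fun z => z.2.2) h0
      rcases hD.ne y (hNV hy) with ⟨a, ha⟩ | h | h
      · exact ha (congrFun e1 a)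
      · exact h (by rw [hφκ y hy, e2, zero_smul])
      · exact h e3
  set e : ℝ := min (1 / 10) (m0 / 2) with he
  have he0 : 0 < e := lt_min (by norm_num) (by linarith)
  have he1 : e ≤ 1 / 10 := min_le_left _ _
  have he2 : e < m0 := lt_of_le_of_lt (min_le_right _ _) (by linarith)
  obtain ⟨Θ', hc', hL', hC', hne', hcl'⟩ := twpert hN' hNc hCc hCN f
    (fun a => (hf a).mono hNV) (fun a y hy => hS a y (hNV hy)) Θ hΘc hΘL hΘne he0
  -- components
  have hcc : ContinuousOn (fun y => (Θ' y).2 1) N :=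
    (continuous_apply (1 : Fin (i + 2))).comp_continuousOn (continuous_snd.comp_continuousOn hc')
  have hκ' : ContinuousOn (fun y => (Θ' y).2 0) N :=
    (continuous_apply (0 : Fin (i + 2))).comp_continuousOn (continuous_snd.comp_continuousOn hc')
  have hp' : ContinuousOn (fun y => fun l : Fin i => (Θ' y).2 l.succ.succ) N :=
    continuousOn_pi.2 fun l => (continuous_apply (l.succ.succ : Fin (i + 2))).comp_continuousOn
      (continuous_snd.comp_continuousOn hc')
  have hψ' : ∀ a, ContinuousOn (fun y => (Θ' y).1 a) N := fun a =>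
    (continuous_apply a).comp_continuousOn (continuous_fst.comp_continuousOn hc')
  have hgc : ContinuousOn (fun y => gN ((Θ' y).2 1)) N := continuous_gN.comp_continuousOn hcc
  have hφc : ContinuousOn (fun y => (Θ' y).2 0 • lm (gN ((Θ' y).2 1))) N :=
    hκ'.smul (continuous_lm.comp_continuousOn hgc)
  have hvc : ContinuousOn (fun y => (((v y).1, fun l : Fin i => (Θ' y).2 l.succ.succ) :
      ℝ × (Fin i → ℂ))) N :=
    ((continuous_fst.comp_continuousOn hD.cv).mono hNV).prodMk hp'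
  -- closeness of components
  have hcl2 : ∀ y ∈ N, ∀ l, ‖(Θ' y).2 l - (Θ y).2 l‖ ≤ e := fun y hy l =>
    (norm_le_pi_norm ((Θ' y - Θ y).2) l).trans ((norm_snd_le _).trans (hcl' y hy))
  have hcl1 : ∀ y ∈ N, ∀ a, ‖(Θ' y).1 a - (Θ y).1 a‖ ≤ e := fun y hy a =>
    (norm_le_pi_norm ((Θ' y - Θ y).1) a).trans ((norm_fst_le _).trans (hcl' y hy))
  have hΘ0 : ∀ y, (Θ y).2 0 = κ y := fun y => rfl
  have hΘ1 : ∀ y, (Θ y).2 1 = (g y).2 := fun y => rfl
  have hΘ2 : ∀ y (l : Fin i), (Θ y).2 l.succ.succ = (v y).2 l := fun y l => rfl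
  have hcn : ∀ y ∈ N, ‖(Θ' y).2 1‖ ≤ 1 := by
    intro y hy
    have h1 := hcl2 y hy 1
    rw [hΘ1] at h1
    have h2 := hD.sg y (hNV hy)
    unfold S2 at h2
    have h3 : (g y).1 ≤ -1 / 2 := hy.2
    have h4 : ‖(g y).2‖ ≤ 9 / 10 := by
      by_contra hlt
      push Not at hlt
      nlinarith
    have h5 : ‖(Θ' y).2 1‖ ≤ ‖(Θ' y).2 1 - (g y).2‖ + ‖(g y).2‖ := by
      simpa using norm_add_le ((Θ' y).2 1 - (g y).2) (g y).2
    linarith
  -- agreement on C
  have hag : ∀ y ∈ C, gN ((Θ' y).2 1) = g y ∧ (∀ a, (Θ' y).1 a = ψ a y) ∧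
      (Θ' y).2 0 • lm (gN ((Θ' y).2 1)) = φ y ∧
      (((v y).1, fun l : Fin i => (Θ' y).2 l.succ.succ) : ℝ × (Fin i → ℂ)) = v y := by
    intro y hy
    have hyN := hCN hy
    rw [hC' y hy]
    have h1 : gN ((Θ y).2 1) = g y := by
      rw [hΘ1]
      exact gN_of_S2 (hD.sg y (hNV hyN)) (hgN0 y hyN)
    refine ⟨h1, fun a => rfl, ?_, ?_⟩
    · rw [h1, hΘ0]
      exact (hφκ y hyN).symm
    · refine Prod.ext rfl ?_
      funext l
      exact hΘ2 y l
  have hMN : ∀ y ∈ N, y ∈ M → y ∈ C := fun y hy hyM => by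
    refine ⟨hy, Or.inr ⟨hy.1, ?_⟩⟩
    have : -1 / 2 ≤ (g y).1 := hyM.2
    show -3 / 4 ≤ (g y).1
    linarith
  have hout : ∀ y ∈ V, y ∉ N → y ∈ M := fun y hy hn => by
    rw [← hNM] at hy
    exact hy.resolve_left hn
  refine ⟨fun y => if y ∈ N then gN ((Θ' y).2 1) else g y,
    fun a y => if y ∈ N then (Θ' y).1 a else ψ a y,
    fun y => if y ∈ N then (Θ' y).2 0 • lm (gN ((Θ' y).2 1)) else φ y,
    fun y => if y ∈ N then ((v y).1, fun l : Fin i => (Θ' y).2 l.succ.succ) else v y, ?_, ?_⟩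
  · refine ⟨?_, ?_, ?_, ?_, ?_, ?_, ?_, ?_, ?_⟩
    · have := glue hNc hMc hgc (hD.cg.mono (Set.inter_subset_left : M ⊆ V))
        (fun y h1 h2 => (hag y (hMN y h1 h2)).1)
      rwa [hNM] at this
    · intro a
      have := glue hNc hMc (hψ' a) ((hD.cψ a).mono (Set.inter_subset_left : M ⊆ V))
        (fun y h1 h2 => (hag y (hMN y h1 h2)).2.1 a)
      rwa [hNM] at this
    · have := glue hNc hMc hφc (hD.cφ.mono (Set.inter_subset_left : M ⊆ V))
        (fun y h1 h2 => (hag y (hMN y h1 h2)).2.2.1)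
      rwa [hNM] at this
    · have := glue hNc hMc hvc (hD.cv.mono (Set.inter_subset_left : M ⊆ V))
        (fun y h1 h2 => (hag y (hMN y h1 h2)).2.2.2)
      rwa [hNM] at this
    · intro y hy
      by_cases h : y ∈ N
      · simp only [h, if_true]
        exact S2_gN (hcn y h)
      · simp only [h, if_false]
        exact hD.sg y hy
    · intro a y hy
      by_cases h : y ∈ N
      · simp only [h, if_true]
        exact hL' a y h
      · simp only [h, if_false]
        exact hD.lψ a y hy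
    · intro y hy
      by_cases h : y ∈ N
      · simp only [h, if_true]
        exact InL1_smul _ (InL1_lm (S2_gN (hcn y h)))
      · simp only [h, if_false]
        exact hD.lφ y hy
    · intro y hy
      by_cases h : y ∈ N
      · simp only [h, if_true]
        by_contra hcon
        push Not at hcon
        obtain ⟨h1, h2, h3⟩ := hcon
        have hk0 : (Θ' y).2 0 = 0 := by
          rcases smul_eq_zero.1 h2 with h4 | h4
          · exact h4
          · exact absurd h4 (lm_ne_zero (gN_le _))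
        have hv1 : (v y).1 = 0 := congrArg Prod.fst h3
        have hv2 : ∀ l : Fin i, (Θ' y).2 l.succ.succ = 0 := fun l =>
          congrFun (congrArg Prod.snd h3) l
        have hle : ‖((fun a => ψ a y, κ y, v y) :
            (Fin j → ℂ × ℂ) × ℂ × (ℝ × (Fin i → ℂ)))‖ ≤ e := by
          rw [Prod.norm_def, Prod.norm_def, Prod.norm_def]
          simp only
          refine max_le ?_ (max_le ?_ (max_le ?_ ?_))
          · refine (pi_norm_le_iff_of_nonneg he0.le).2 fun a => ?_
            have h4 := hcl1 y h a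
            rw [h1 a, zero_sub, norm_neg] at h4
            exact h4
          · have h4 := hcl2 y h 0
            rw [hk0, zero_sub, norm_neg] at h4
            exact h4
          · rw [hv1, norm_zero]
            exact he0.le
          · refine (pi_norm_le_iff_of_nonneg he0.le).2 fun l => ?_
            have h4 := hcl2 y h l.succ.succ
            rw [hv2 l, zero_sub, norm_neg] at h4
            exact h4
        exact absurd (hm1 y h) (not_le.2 (lt_of_le_of_lt hle he2))
      · simp only [h, if_false]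
        exact hD.ne y hy
    · intro y hy h38
      by_cases h : y ∈ N
      · simp only [h, if_true]
        have hyC : y ∈ C := ⟨h, Or.inl ⟨hy, h38⟩⟩
        obtain ⟨a1, a2, a3, a4⟩ := hag y hyC
        obtain ⟨b1, b2, b3, b4⟩ := hD.bd y hy h38
        exact ⟨a1, fun a => (a2 a).trans (b2 a), a3.trans b3, a4.trans b4⟩
      · have := hD.bd y hy h38
        simpa only [h, if_false] using this
  · intro y hy h1 h2 h3 h4
    by_cases h : y ∈ N
    · simp only [h, if_true] at h1 h2 h3 h4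
      have e1 : (Θ' y).2 1 = 0 := gN_eq h1
      have e2 : (Θ' y).2 0 = 0 := by
        rcases smul_eq_zero.1 h2 with h5 | h5
        · exact h5
        · exact absurd h5 (lm_ne_zero (gN_le _))
      refine hne' y h (Prod.ext (funext h3) ?_)
      funext l
      refine Fin.cases e2 (fun l => ?_) l
      refine Fin.cases e1 (fun l => ?_) l
      exact congrFun h4 l
    · simp only [h, if_false] at h1
      have h5 : -1 / 2 ≤ (g y).1 := (hout y hy h).2
      rw [h1] at h5
      norm_num at h5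

end RC19
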