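import Pool.Agent.LibRC12.T6Dat
import Pool.Agent.LibRC12.T6B

namespace RC19

open scoped ComplexConjugate
open RC12

variable {Y : Type*} [TopologicalSpace Y]

noncomputable def uu {i : ℕ} (w : ℝ × (Fin (i + 1) → ℂ)) : ℝ × (Fin i → ℂ) :=
  (nrm (w.1 + 1) (w.2 0) - 1, fun l => w.2 l.succ)

noncomputable def gg {i : ℕ} (w : ℝ × (Fin (i + 1) → ℂ)) : ℝ × ℂ :=
  ((w.1 + 1) / nrm (w.1 + 1) (w.2 0), w.2 0 / ((nrm (w.1 + 1) (w.2 0) : ℝ) : ℂ))

private theorem continuous_nrm1 {i : ℕ} :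
    Continuous fun w : ℝ × (Fin (i + 1) → ℂ) => nrm (w.1 + 1) (w.2 0) := by
  unfold nrm
  refine Real.continuous_sqrt.comp ?_
  have h1 : Continuous fun w : ℝ × (Fin (i + 1) → ℂ) => w.2 0 :=
    (continuous_apply (0 : Fin (i + 1))).comp continuous_snd
  exact ((continuous_fst.add continuous_const).pow 2).add ((h1.norm).pow 2)

private theorem nrm_bd {i : ℕ} {w : ℝ × (Fin (i + 1) → ℂ)} (h : ‖uu w‖ ≤ 1 / 2) :
    1 / 2 ≤ nrm (w.1 + 1) (w.2 0) ∧ nrm (w.1 + 1) (w.2 0) ≤ 3 / 2 := by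
  have h1 : ‖(uu w).1‖ ≤ 1 / 2 := (norm_fst_le _).trans h
  simp only [uu, Real.norm_eq_abs] at h1
  rw [abs_le] at h1
  constructor <;> linarith [h1.1, h1.2]

private theorem nrm_sq (b : ℝ) (c : ℂ) : nrm b c ^ 2 = b ^ 2 + ‖c‖ ^ 2 := by
  unfold nrm
  exact Real.sq_sqrt (by positivity)

private theorem nrm_nonneg (b : ℝ) (c : ℂ) : 0 ≤ nrm b c := Real.sqrt_nonneg _

theorem continuous_uu {i : ℕ} : Continuous (uu : ℝ × (Fin (i + 1) → ℂ) → _) := by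
  unfold uu
  refine Continuous.prodMk (continuous_nrm1.sub continuous_const) ?_
  exact continuous_pi fun l => (continuous_apply (l.succ)).comp continuous_snd

theorem continuousOn_gg {i : ℕ} :
    ContinuousOn (gg : ℝ × (Fin (i + 1) → ℂ) → _) {w | ‖uu w‖ ≤ 1 / 2} := by
  have hne : ∀ w ∈ {w : ℝ × (Fin (i + 1) → ℂ) | ‖uu w‖ ≤ 1 / 2}, nrm (w.1 + 1) (w.2 0) ≠ 0 := by
    intro w hw
    have := (nrm_bd hw).1
    linarith
  unfold gg
  have h1 : Continuous fun w : ℝ × (Fin (i + 1) → ℂ) => w.2 0 :=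
    (continuous_apply (0 : Fin (i + 1))).comp continuous_snd
  refine ContinuousOn.prodMk ?_ ?_
  · exact (continuous_fst.add continuous_const).continuousOn.div
      continuous_nrm1.continuousOn hne
  · refine h1.continuousOn.div (Complex.continuous_ofReal.comp continuous_nrm1).continuousOn ?_
    intro w hw
    have := hne w hw
    exact_mod_cast this

theorem S2_gg {i : ℕ} {w : ℝ × (Fin (i + 1) → ℂ)} (h : ‖uu w‖ ≤ 1 / 2) : S2 (gg w) := by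
  have h0 := (nrm_bd h).1
  have hs := nrm_sq (w.1 + 1) (w.2 0)
  unfold S2 gg
  simp only
  set r := nrm (w.1 + 1) (w.2 0) with hr
  have hr0 : r ≠ 0 := by linarith
  have hrp : 0 ≤ r := by linarith
  rw [norm_div, Complex.norm_real, Real.norm_eq_abs, abs_of_nonneg hrp]
  field_simp
  linarith

theorem norm_lt_of_uu {i : ℕ} {w : ℝ × (Fin (i + 1) → ℂ)} (h : ‖uu w‖ ≤ 1 / 2) : ‖w‖ < 5 := by
  have h0 := (nrm_bd h).2
  have h00 := (nrm_bd h).1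
  have hs := nrm_sq (w.1 + 1) (w.2 0)
  set r := nrm (w.1 + 1) (w.2 0) with hr
  have hr2 : r ^ 2 ≤ 9 / 4 := by nlinarith
  have h1 : ‖w.1‖ ≤ 4 := by
    rw [Real.norm_eq_abs, abs_le]
    constructor <;> nlinarith [sq_nonneg ‖w.2 0‖]
  have h2 : ‖w.2‖ ≤ 4 := by
    rw [pi_norm_le_iff_of_nonneg (by norm_num)]
    intro l
    refine Fin.cases ?_ ?_ l
    · nlinarith [sq_nonneg (w.1 + 1), norm_nonneg (w.2 0)]
    · intro k
      have h3 : ‖(uu w).2‖ ≤ 1 / 2 := (norm_snd_le _).trans h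
      have h4 : ‖(uu w).2 k‖ ≤ 1 / 2 := (norm_le_pi_norm _ k).trans h3
      simp only [uu] at h4
      linarith
  have : ‖w‖ ≤ 4 := by
    rw [Prod.norm_def]
    exact max_le h1 h2
  linarith

theorem ne_zero_of_uu {i : ℕ} {w : ℝ × (Fin (i + 1) → ℂ)} (h : 3 / 8 ≤ ‖uu w‖) : w ≠ 0 := by
  rintro rfl
  have : uu (0 : ℝ × (Fin (i + 1) → ℂ)) = 0 := by
    unfold uu nrm
    refine Prod.ext ?_ ?_
    · simp
    · rfl
  rw [this, norm_zero] at h
  norm_num at h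

theorem XX_uu {i : ℕ} {w : ℝ × (Fin (i + 1) → ℂ)} (h : ‖uu w‖ ≤ 1 / 2) :
    XX (uu w).1 (gg w) (lm (gg w)) = (w.1, w.2 0) := by
  have h0 := (nrm_bd h).1
  have h1 : -1 ≤ (uu w).1 := by
    simp only [uu]
    linarith
  rw [XX_lm (S2_gg h) h1]
  simp only [uu, gg]
  have hr0 : nrm (w.1 + 1) (w.2 0) ≠ 0 := by linarith
  have hr1 : ((nrm (w.1 + 1) (w.2 0) : ℝ) : ℂ) ≠ 0 := by exact_mod_cast hr0
  refine Prod.ext ?_ ?_
  · simp only
    have : (1 + (nrm (w.1 + 1) (w.2 0) - 1)) * ((w.1 + 1) / nrm (w.1 + 1) (w.2 0)) = w.1 + 1 := by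
      rw [add_sub_cancel]
      exact mul_div_cancel₀ _ hr0
    rw [this]
    ring
  · simp only
    rw [add_sub_cancel]
    exact mul_div_cancel₀ _ hr1

/-- the new section on `V` -/
noncomputable def ww {i : ℕ} (g : ℝ × ℂ) (φ : ℂ × ℂ) (v : ℝ × (Fin i → ℂ)) :
    ℝ × (Fin (i + 1) → ℂ) :=
  ((XX v.1 g φ).1, Fin.cons (XX v.1 g φ).2 v.2)

theorem continuous_ww {i : ℕ} :
    Continuous fun z : (ℝ × ℂ) × (ℂ × ℂ) × (ℝ × (Fin i → ℂ)) => ww z.1 z.2.1 z.2.2 := by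
  have hX : Continuous fun z : (ℝ × ℂ) × (ℂ × ℂ) × (ℝ × (Fin i → ℂ)) =>
      XX z.2.2.1 z.1 z.2.1 := by
    have h2 : Continuous fun z : (ℝ × ℂ) × (ℂ × ℂ) × (ℝ × (Fin i → ℂ)) =>
        ((z.2.2.1, z.1, z.2.1) : ℝ × (ℝ × ℂ) × (ℂ × ℂ)) := by fun_prop
    exact continuous_XX.comp h2
  unfold ww
  refine Continuous.prodMk (continuous_fst.comp hX) ?_
  refine continuous_pi fun l => ?_
  refine Fin.cases ?_ ?_ l
  · simp only [Fin.cons_zero]
    exact continuous_snd.comp hX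
  · intro k
    simp only [Fin.cons_succ]
    exact (continuous_apply k).comp (by fun_prop)

theorem ww_bd {i : ℕ} {w : ℝ × (Fin (i + 1) → ℂ)} (h : ‖uu w‖ ≤ 1 / 2) :
    ww (gg w) (lm (gg w)) (uu w) = w := by
  unfold ww
  rw [XX_uu h]
  refine Prod.ext rfl ?_
  funext l
  refine Fin.cases ?_ ?_ l
  · simp
  · intro k
    simp [uu]

theorem ww_ne {i : ℕ} {g : ℝ × ℂ} {φ : ℂ × ℂ} {v : ℝ × (Fin i → ℂ)} (hg : S2 g) (hφ : InL1 g φ)
    (h1 : φ ≠ 0 ∨ v ≠ 0) (h2 : g.1 = -1 → φ = 0 → v.2 ≠ 0) : ww g φ v ≠ 0 := by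
  intro h0
  unfold ww at h0
  have e1 : (XX v.1 g φ).1 = 0 := congrArg Prod.fst h0
  have e2 : (Fin.cons (XX v.1 g φ).2 v.2 : Fin (i + 1) → ℂ) = 0 := congrArg Prod.snd h0
  have e3 : (XX v.1 g φ).2 = 0 := by
    have := congrFun e2 0
    simpa using this
  have e4 : v.2 = 0 := by
    funext k
    have := congrFun e2 k.succ
    simpa using this
  have hX : XX v.1 g φ = 0 := Prod.ext e1 e3
  obtain ⟨a1, a2⟩ := XX_zero hg hφ hX
  rcases a2 with a2 | a2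
  · exact h2 a2 a1 e4
  · rcases h1 with h1 | h1
    · exact h1 a1
    · exact h1 (Prod.ext a2 e4)

end RC19
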