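import Pool.Agent.LibRC12.T6D
import Pool.Agent.LibRC12.T6E
import Pool.Agent.LibRC12.T6F1

namespace RC19

open scoped ComplexConjugate
open RC12

variable {Y : Type*} [TopologicalSpace Y]

theorem TTr_scale {r r' : ℝ} (hr : 0 < r) (hr' : 0 < r') {j i : ℕ} (h : TTr r j i Y) :
    TTr r' j i Y := by
  intro V hV f hf hS w hw
  have hwc : ContinuousOn (fun y => (r / r') • w y) V :=
    (continuous_const_smul (r / r')).comp_continuousOn hw
  obtain ⟨ψ, w', h1, h2, h3, h4, h5⟩ := h V hV f hf hS (fun y => (r / r') • w y) hwc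
  have hwc' : ContinuousOn (fun y => (r' / r) • w' y) V :=
    (continuous_const_smul (r' / r)).comp_continuousOn h2
  refine ⟨ψ, fun y => (r' / r) • w' y, h1, hwc', h3, fun y hy => ?_, fun y hy hn => ?_⟩
  · rcases h4 y hy with h | h
    · exact Or.inl h
    · exact Or.inr (smul_ne_zero (by positivity) h)
  · have h6 : r ≤ ‖(r / r') • w y‖ := by
      rw [norm_smul, Real.norm_of_nonneg (by positivity), div_mul_eq_mul_div, le_div_iff₀ hr']
      exact mul_le_mul_of_nonneg_left hn hr.le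
    show (r' / r) • w' y = w y
    rw [h5 y hy h6, smul_smul]
    have : r' / r * (r / r') = 1 := by field_simp
    rw [this, one_smul]

/-- the step `T(j+1,i) ⇒ T(j,i+1)` -/
theorem step [CompactSpace Y] [T2Space Y] {j i : ℕ} (hN : Nz (Fin (j + i + 2) → ℂ) Y)
    (h : TTr (1 / 4) (j + 1) i Y) : TTr 5 j (i + 1) Y := by
  classical
  intro V hV f hf hS w hw
  have hc1 : IsClosed {z : ℝ × (Fin (i + 1) → ℂ) | ‖uu z‖ ≤ 1 / 2} :=
    isClosed_le (continuous_norm.comp continuous_uu) continuous_const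
  have hc2 : IsClosed {z : ℝ × (Fin (i + 1) → ℂ) | 3 / 8 ≤ ‖uu z‖} :=
    isClosed_le continuous_const (continuous_norm.comp continuous_uu)
  set V1 : Set Y := V ∩ w ⁻¹' {z | ‖uu z‖ ≤ 1 / 2} with hV1d
  set V2 : Set Y := V ∩ w ⁻¹' {z | 3 / 8 ≤ ‖uu z‖} with hV2d
  have hV1 : IsClosed V1 := hw.preimage_isClosed_of_isClosed hV hc1
  have hV2 : IsClosed V2 := hw.preimage_isClosed_of_isClosed hV hc2
  have hsub1 : V1 ⊆ V := Set.inter_subset_left
  have hunion : V ⊆ V1 ∪ V2 := by
    intro y hy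
    rcases le_total ‖uu (w y)‖ (1 / 2) with h1 | h1
    · exact Or.inl ⟨hy, h1⟩
    · exact Or.inr ⟨hy, le_trans (by norm_num) h1⟩
  have hg0 : ContinuousOn (fun y => gg (w y)) V1 :=
    continuousOn_gg.comp (hw.mono hsub1) (fun y hy => hy.2)
  have hu : ContinuousOn (fun y => uu (w y)) V1 :=
    continuous_uu.comp_continuousOn (hw.mono hsub1)
  obtain ⟨ψ, φ, v, hD⟩ := stepA h hV1 f (fun a => (hf a).mono hsub1)
    (fun a y hy => hS a y (hsub1 hy)) (fun y => gg (w y)) hg0 (fun y hy => S2_gg hy.2)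
    (fun y => uu (w y)) hu
  obtain ⟨g', ψ', φ', v', hD', hlast⟩ := stepB hN hV1 f (fun a => (hf a).mono hsub1)
    (fun a y hy => hS a y (hsub1 hy)) (fun y => uu (w y)) hu hD
  have hψ2 : ∀ a, ∀ y ∈ V2, (if y ∈ V1 then ψ' a y else 0) = 0 := by
    intro a y hy
    split_ifs with h1
    · exact (hD'.bd y h1 hy.2).2.1 a
    · rfl
  have hw2 : ∀ y ∈ V2, (if y ∈ V1 then ww (g' y) (φ' y) (v' y) else w y) = w y := by
    intro y hy
    split_ifs with h1
    · obtain ⟨e1, -, e2, e3⟩ := hD'.bd y h1 hy.2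
      rw [e1, e2, e3]
      exact ww_bd h1.2
    · rfl
  refine ⟨fun a y => if y ∈ V1 then ψ' a y else 0,
    fun y => if y ∈ V1 then ww (g' y) (φ' y) (v' y) else w y, fun a => ?_, ?_, ?_, ?_, ?_⟩
  · refine ContinuousOn.mono ?_ hunion
    refine ContinuousOn.union_of_isClosed ?_ ?_ hV1 hV2
    · exact (hD'.cψ a).congr (fun y hy => if_pos hy)
    · exact (continuousOn_const (c := (0 : ℂ × ℂ))).congr (fun y hy => hψ2 a y hy)
  · refine ContinuousOn.mono ?_ hunion
    refine ContinuousOn.union_of_isClosed ?_ ?_ hV1 hV2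
    · have h1 : ContinuousOn (fun y => ww (g' y) (φ' y) (v' y)) V1 :=
        continuous_ww.comp_continuousOn (hD'.cg.prodMk (hD'.cφ.prodMk hD'.cv))
      exact h1.congr (fun y hy => if_pos hy)
    · exact (hw.mono Set.inter_subset_left).congr (fun y hy => hw2 y hy)
  · intro a y hy
    show InL1 (f a y) (if y ∈ V1 then ψ' a y else 0)
    split_ifs with h1
    · exact hD'.lψ a y h1
    · exact InL1_zero _
  · intro y hy
    by_cases h1 : y ∈ V1
    · simp only [if_pos h1]
      by_cases h2 : ∃ a, ψ' a y ≠ 0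
      · exact Or.inl h2
      · right
        have h3 : φ' y ≠ 0 ∨ v' y ≠ 0 := (hD'.ne y h1).resolve_left h2
        refine ww_ne (hD'.sg y h1) (hD'.lφ y h1) h3 (fun e1 e2 => ?_)
        refine hlast y h1 e1 e2 (fun a => ?_)
        by_contra hcon
        exact h2 ⟨a, hcon⟩
    · simp only [if_neg h1]
      right
      have h2 : y ∈ V2 := (hunion hy).resolve_left h1
      exact ne_zero_of_uu h2.2
  · intro y hy hn
    show (if y ∈ V1 then ww (g' y) (φ' y) (v' y) else w y) = w y
    split_ifs with h1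
    · exact absurd hn (not_le.2 (norm_lt_of_uu h1.2))
    · rfl

theorem nz_of_TT {m : ℕ} (h : TTr 1 0 m Y) : Nz (ℝ × (Fin m → ℂ)) Y := by
  intro F e he
  obtain ⟨ψ, w', h1, h2, h3, h4, h5⟩ := h Set.univ isClosed_univ (fun a => Fin.elim0 a)
    (fun a => Fin.elim0 a) (fun a => Fin.elim0 a) (fun y => (2 / e) • F y)
    ((F.continuous.const_smul (2 / e)).continuousOn)
  have hw' : Continuous w' := by
    rw [← continuousOn_univ]
    exact h2
  have hne : ∀ y, w' y ≠ 0 := by
    intro y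
    rcases h4 y (Set.mem_univ y) with ⟨a, -⟩ | h
    · exact Fin.elim0 a
    · exact h
  have hwc : Continuous fun y => (2 / e) • F y := F.continuous.const_smul (2 / e)
  have hmpos : ∀ y, 0 < max 1 ‖w' y‖ := fun y => lt_of_lt_of_le one_pos (le_max_left _ _)
  have hmpos2 : ∀ y, 0 < max 1 ‖(2 / e) • F y‖ := fun y => lt_of_lt_of_le one_pos (le_max_left _ _)
  have hcont : Continuous fun y =>
      (e / 2) • ((max 1 ‖(2 / e) • F y‖ / max 1 ‖w' y‖) • w' y) := by
    have hq : Continuous fun y => max 1 ‖(2 / e) • F y‖ / max 1 ‖w' y‖ := by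
      refine Continuous.div ?_ ?_ (fun y => (hmpos y).ne')
      · exact continuous_const.max hwc.norm
      · exact continuous_const.max hw'.norm
    exact (continuous_const_smul (e / 2)).comp (hq.smul hw')
  refine ⟨⟨_, hcont⟩, fun y => ?_, fun y => ?_⟩
  · show (e / 2) • ((max 1 ‖(2 / e) • F y‖ / max 1 ‖w' y‖) • w' y) ≠ 0
    exact smul_ne_zero (by positivity) (smul_ne_zero (div_pos (hmpos2 y) (hmpos y)).ne' (hne y))
  · show ‖(e / 2) • ((max 1 ‖(2 / e) • F y‖ / max 1 ‖w' y‖) • w' y) - F y‖ ≤ e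
    have e1 : F y = (e / 2) • ((2 / e) • F y) := by
      rw [smul_smul]
      have : e / 2 * (2 / e) = 1 := by field_simp
      rw [this, one_smul]
    have key : ‖(max 1 ‖(2 / e) • F y‖ / max 1 ‖w' y‖) • w' y - (2 / e) • F y‖ ≤ 2 := by
      rcases le_total 1 ‖(2 / e) • F y‖ with hle | hle
      · have h6 : w' y = (2 / e) • F y := h5 y (Set.mem_univ y) hle
        rw [h6, div_self (hmpos2 y).ne', one_smul, sub_self, norm_zero]
        norm_num
      · rw [max_eq_left hle]
        have h7 : ‖(1 / max 1 ‖w' y‖) • w' y‖ ≤ 1 := by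
          rw [norm_smul, Real.norm_of_nonneg (by positivity), div_mul_eq_mul_div, one_mul,
            div_le_one (hmpos y)]
          exact le_max_right _ _
        calc ‖(1 / max 1 ‖w' y‖) • w' y - (2 / e) • F y‖
            ≤ ‖(1 / max 1 ‖w' y‖) • w' y‖ + ‖(2 / e) • F y‖ := norm_sub_le _ _
          _ ≤ 1 + 1 := add_le_add h7 hle
          _ = 2 := by norm_num
    calc ‖(e / 2) • ((max 1 ‖(2 / e) • F y‖ / max 1 ‖w' y‖) • w' y) - F y‖
        = ‖(e / 2) • ((max 1 ‖(2 / e) • F y‖ / max 1 ‖w' y‖) • w' y - (2 / e) • F y)‖ := by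
          conv_lhs => rw [e1]
          rw [smul_sub]
          congr 3
          · rw [← e1]
      _ = e / 2 * ‖(max 1 ‖(2 / e) • F y‖ / max 1 ‖w' y‖) • w' y - (2 / e) • F y‖ := by
          rw [norm_smul, Real.norm_of_nonneg (by positivity)]
      _ ≤ e / 2 * 2 := mul_le_mul_of_nonneg_left key (by positivity)
      _ = e := by ring

end RC19
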