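import Pool.Agent.LibRC12.T6A

namespace RC19

open scoped ComplexConjugate
open RC12

variable {Y : Type*} [TopologicalSpace Y]

/-- removing one maximal simplex `s` from the nerve -/
theorem reduce_one {K : ℕ} (hN : Nz (Fin K → ℝ) Y) {k : ℕ}
    (φ : Fin k → C(Y, ℝ)) (h0 : ∀ i y, 0 ≤ φ i y) (h1 : ∀ y, ∑ i, φ i y = 1)
    (hK : ∀ y, (Finset.univ.filter fun i => φ i y ≠ 0).card ≤ K + 1)
    (s : Finset (Fin k)) (hs : s.card = K + 1) :
    ∃ φ' : Fin k → C(Y, ℝ), (∀ i y, 0 ≤ φ' i y) ∧ (∀ y, ∑ i, φ' i y = 1) ∧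
      (∀ i y, φ' i y ≠ 0 → φ i y ≠ 0) ∧
      ∀ y, (Finset.univ.filter fun i => φ' i y ≠ 0) ≠ s := by
  have hne : s.Nonempty := Finset.card_pos.1 (by omega)
  obtain ⟨i0, hi0⟩ := hne
  have hne : s.Nonempty := ⟨i0, hi0⟩
  have hcard : Fintype.card {i // i ∈ s ∧ i ≠ i0} = K := by
    have h2 : (s.erase i0).card = K := by rw [Finset.card_erase_of_mem hi0]; omega
    rw [← h2]
    refine Fintype.card_of_subtype _ fun x => ?_
    rw [Finset.mem_erase]
    tauto
  have hN' : Nz ({i // i ∈ s ∧ i ≠ i0} → ℝ) Y := by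
    refine Nz_congr ?_ hN
    simp only [Module.finrank_fintype_fun_eq_card, Fintype.card_fin]
    exact hcard.symm
  have hK0 : (0 : ℝ) < (K : ℝ) + 1 := by positivity
  set e6 : ℝ := 1 / (4 * ((K : ℝ) + 1)) with he6
  have he60 : 0 < e6 := by positivity
  have he61 : 4 * e6 = 1 / ((K : ℝ) + 1) := by
    rw [he6]
    field_simp
  set F : C(Y, {i // i ∈ s ∧ i ≠ i0} → ℝ) :=
    ⟨fun y i => φ i.1 y - φ i0 y, by fun_prop⟩ with hF
  obtain ⟨F', hF'0, hF'1⟩ := hN' F (e6 / 2) (by positivity)
  classical
  let D : Fin k → Y → ℝ := fun i y => if h : i ∈ s ∧ i ≠ i0 then F' y ⟨i, h⟩ - F y ⟨i, h⟩ else 0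
  have hDc : ∀ i, Continuous (D i) := by
    intro i
    by_cases h : i ∈ s ∧ i ≠ i0
    · have : D i = fun y => F' y ⟨i, h⟩ - F y ⟨i, h⟩ := by
        funext y
        simp only [D, dif_pos h]
      rw [this]
      fun_prop
    · have : D i = fun _ => 0 := by
        funext y
        simp only [D, dif_neg h]
      rw [this]
      exact continuous_const
  have hDb : ∀ i y, |D i y| ≤ e6 / 2 := by
    intro i y
    by_cases h : i ∈ s ∧ i ≠ i0
    · simp only [D, dif_pos h]
      have := (norm_le_pi_norm (F' y - F y) ⟨i, h⟩).trans (hF'1 y)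
      simpa using this
    · simp only [D, dif_neg h]
      simp only [abs_zero]
      positivity
  let m : Y → ℝ := fun y => s.inf' hne (fun i => φ i y)
  have hmc : Continuous m := by
    have := Continuous.finset_inf'_apply (f := fun (i : Fin k) (y : Y) => φ i y) hne
      (fun i _ => (φ i).continuous)
    exact this
  have hm0 : ∀ y, 0 ≤ m y := fun y => Finset.le_inf' hne _ fun i _ => h0 i y
  let χ : Y → ℝ := fun y => min 1 (m y / e6)
  have hχc : Continuous χ := continuous_const.min (hmc.div_const _)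
  have hχ0 : ∀ y, 0 ≤ χ y := fun y => le_min zero_le_one (div_nonneg (hm0 y) he60.le)
  have hχ1 : ∀ y, χ y ≤ 1 := fun y => min_le_left _ _
  let G : Fin k → Y → ℝ := fun i y => φ i y + χ y * D i y
  have hGc : ∀ i, Continuous (G i) := fun i => (φ i).continuous.add (hχc.mul (hDc i))
  let Mi : Y → ℝ := fun y => s.inf' hne (fun i => G i y)
  have hMc : Continuous Mi := by
    have := Continuous.finset_inf'_apply (f := fun (i : Fin k) (y : Y) => G i y) hne
      (fun i _ => hGc i)
    exact this
  let n : Fin k → Y → ℝ := fun i y => if i ∈ s then G i y - Mi y else φ i y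
  have hnc : ∀ i, Continuous (n i) := by
    intro i
    by_cases h : i ∈ s
    · have : n i = fun y => G i y - Mi y := by
        funext y
        simp only [n, if_pos h]
      rw [this]
      exact (hGc i).sub hMc
    · have : n i = fun y => φ i y := by
        funext y
        simp only [n, if_neg h]
      rw [this]
      exact (φ i).continuous
  have hGb : ∀ i y, |G i y - φ i y| ≤ e6 / 2 := by
    intro i y
    have : G i y - φ i y = χ y * D i y := by simp only [G]; ring
    rw [this, abs_mul, abs_of_nonneg (hχ0 y)]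
    calc χ y * |D i y| ≤ 1 * (e6 / 2) :=
          mul_le_mul (hχ1 y) (hDb i y) (abs_nonneg _) zero_le_one
      _ = e6 / 2 := one_mul _
  -- case m = 0
  have hcase0 : ∀ y, m y = 0 → ∀ i, n i y = φ i y := by
    intro y hy i
    have hχy : χ y = 0 := by
      simp only [χ, hy, zero_div]
      exact min_eq_right zero_le_one
    have hG : ∀ i, G i y = φ i y := fun i => by simp only [G, hχy, zero_mul, add_zero]
    have hM : Mi y = 0 := by
      simp only [Mi, hG]
      exact hy
    by_cases h : i ∈ s
    · simp only [n, if_pos h, hG, hM, sub_zero]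
    · simp only [n, if_neg h]
  -- case m > 0
  have hsupp : ∀ y, 0 < m y → (Finset.univ.filter fun i => φ i y ≠ 0) = s := by
    intro y hy
    symm
    refine Finset.eq_of_subset_of_card_le ?_ (by rw [hs]; exact hK y)
    intro i hi
    rw [Finset.mem_filter]
    refine ⟨Finset.mem_univ _, ?_⟩
    have : m y ≤ φ i y := Finset.inf'_le _ hi
    exact (lt_of_lt_of_le hy this).ne'
  have hout : ∀ y, 0 < m y → ∀ i, i ∉ s → φ i y = 0 := by
    intro y hy i hi
    by_contra hcon
    apply hi
    rw [← hsupp y hy, Finset.mem_filter]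
    exact ⟨Finset.mem_univ _, hcon⟩
  have hn0 : ∀ i y, 0 ≤ n i y := by
    intro i y
    by_cases h : i ∈ s
    · simp only [n, if_pos h]
      have : Mi y ≤ G i y := Finset.inf'_le _ h
      linarith
    · simp only [n, if_neg h]
      exact h0 i y
  have hshrink : ∀ i y, n i y ≠ 0 → φ i y ≠ 0 := by
    intro i y hn
    rcases (hm0 y).eq_or_lt with h | h
    · rwa [hcase0 y h.symm] at hn
    · by_cases hi : i ∈ s
      · have : m y ≤ φ i y := Finset.inf'_le _ hi
        exact (lt_of_lt_of_le h this).ne'
      · simpa only [n, if_neg hi] using hn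
  have hsum : ∀ y, 0 < ∑ i, n i y := by
    intro y
    rcases (hm0 y).eq_or_lt with h | h
    · rw [Finset.sum_congr rfl fun i _ => hcase0 y h.symm i, h1]
      exact one_pos
    · refine lt_of_le_of_ne (Finset.sum_nonneg fun i _ => hn0 i y) fun heq => ?_
      have hall : ∀ i, n i y = 0 := fun i =>
        (Finset.sum_eq_zero_iff_of_nonneg fun i _ => hn0 i y).1 heq.symm i (Finset.mem_univ _)
      have hGM : ∀ i ∈ s, G i y = Mi y := by
        intro i hi
        have := hall i
        simp only [n, if_pos hi] at this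
        linarith
      rcases le_or_gt e6 (m y) with h6 | h6
      · have hχy : χ y = 1 := by
          simp only [χ]
          exact min_eq_left ((one_le_div he60).2 h6)
        apply hF'0 y
        funext i
        have h3 := hGM i.1 i.2.1
        have h4 := hGM i0 hi0
        have h5 : D i0 y = 0 := by
          simp only [D]
          rw [dif_neg]
          rintro ⟨_, h⟩
          exact h rfl
        have h7 : D i.1 y = F' y i - F y i := by
          simp only [D]
          rw [dif_pos i.2]
        have h8 : F y i = φ i.1 y - φ i0 y := rfl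
        simp only [G, hχy, h5, h7, h8] at h3 h4
        simp only [Pi.zero_apply]
        linarith
      · -- max
        have hsum1 : ∑ i ∈ s, φ i y = 1 := by
          rw [← h1 y]
          refine Finset.sum_subset (Finset.subset_univ _) fun i _ hi => hout y h i hi
        obtain ⟨l, hl, hl1⟩ : ∃ l ∈ s, 4 * e6 ≤ φ l y := by
          by_contra hcon
          push Not at hcon
          have : ∑ i ∈ s, φ i y < ∑ _i ∈ s, 4 * e6 :=
            Finset.sum_lt_sum_of_nonempty hne fun i hi => hcon i hi
          rw [hsum1, Finset.sum_const, hs, he61, nsmul_eq_mul] at this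
          push_cast at this
          rw [mul_one_div_cancel hK0.ne'] at this
          exact lt_irrefl _ this
        obtain ⟨l', hl', hl1'⟩ := Finset.exists_mem_eq_inf' hne (fun i => φ i y)
        have h9 : φ l' y < e6 := by
          rw [← hl1']
          exact h6
        have h10 := abs_le.1 (hGb l y)
        have h11 := abs_le.1 (hGb l' y)
        have h12 := hGM l hl
        have h13 := hGM l' hl'
        linarith [h10.1, h11.2]
  have hns : ∀ y, (Finset.univ.filter fun i => n i y ≠ 0) ≠ s := by
    intro y heq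
    rcases (hm0 y).eq_or_lt with h | h
    · obtain ⟨l, hl, hl1⟩ := Finset.exists_mem_eq_inf' hne (fun i => φ i y)
      rw [← heq, Finset.mem_filter, hcase0 y h.symm] at hl
      apply hl.2
      rw [← hl1]
      exact h.symm
    · obtain ⟨l, hl, hl1⟩ := Finset.exists_mem_eq_inf' hne (fun i => G i y)
      have h2 : n l y = 0 := by
        simp only [n, if_pos hl]
        have : Mi y = G l y := hl1
        linarith
      rw [← heq, Finset.mem_filter] at hl
      exact hl.2 h2
  refine ⟨fun i => ⟨fun y => n i y / ∑ l, n l y,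
    (hnc i).div (continuous_finset_sum _ fun l _ => hnc l) fun y => (hsum y).ne'⟩, ?_, ?_, ?_, ?_⟩
  · intro i y
    exact div_nonneg (hn0 i y) (hsum y).le
  · intro y
    show ∑ i, n i y / ∑ l, n l y = 1
    rw [← Finset.sum_div]
    exact div_self (hsum y).ne'
  · intro i y h
    refine hshrink i y fun h2 => h ?_
    show n i y / ∑ l, n l y = 0
    rw [h2, zero_div]
  · intro y heq
    apply hns y
    rw [← heq]
    ext i
    simp only [Finset.mem_filter, Finset.mem_univ, true_and, ContinuousMap.coe_mk]
    constructor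
    · intro h h2
      rcases div_eq_zero_iff.1 h2 with h3 | h3
      · exact h h3
      · exact (hsum y).ne' h3
    · intro h h2
      exact h (by rw [h2, zero_div])

/-- reduction of the order of a partition of unity from `K+1` to `K` -/
theorem reduce [CompactSpace Y] [T2Space Y] {K : ℕ} (hN : Nz (Fin K → ℝ) Y) {k : ℕ}
    (φ : Fin k → C(Y, ℝ)) (h0 : ∀ i y, 0 ≤ φ i y) (h1 : ∀ y, ∑ i, φ i y = 1)
    (hK : ∀ y, (Finset.univ.filter fun i => φ i y ≠ 0).card ≤ K + 1) :
    ∃ φ' : Fin k → C(Y, ℝ), (∀ i y, 0 ≤ φ' i y) ∧ (∀ y, ∑ i, φ' i y = 1) ∧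
      (∀ i y, φ' i y ≠ 0 → φ i y ≠ 0) ∧
      ∀ y, (Finset.univ.filter fun i => φ' i y ≠ 0).card ≤ K := by
  classical
  have key : ∀ T : Finset (Finset (Fin k)), (∀ s ∈ T, s.card = K + 1) →
      ∃ φ' : Fin k → C(Y, ℝ), (∀ i y, 0 ≤ φ' i y) ∧ (∀ y, ∑ i, φ' i y = 1) ∧
      (∀ i y, φ' i y ≠ 0 → φ i y ≠ 0) ∧
      (∀ y, (Finset.univ.filter fun i => φ' i y ≠ 0).card ≤ K + 1) ∧
      ∀ y, (Finset.univ.filter fun i => φ' i y ≠ 0) ∉ T := by
    intro T
    induction T using Finset.induction_on with
    | empty => exact fun _ => ⟨φ, h0, h1, fun _ _ h => h, hK, fun y => Finset.notMem_empty _⟩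
    | insert s T hsT ih =>
      intro hT
      obtain ⟨φ', a0, a1, a2, a3, a4⟩ := ih fun t ht => hT t (Finset.mem_insert_of_mem ht)
      obtain ⟨φ'', b0, b1, b2, b3⟩ := reduce_one hN φ' a0 a1 a3 s (hT s (Finset.mem_insert_self _ _))
      have hsub : ∀ y, (Finset.univ.filter fun i => φ'' i y ≠ 0) ⊆
          (Finset.univ.filter fun i => φ' i y ≠ 0) := by
        intro y i hi
        rw [Finset.mem_filter] at hi ⊢
        exact ⟨hi.1, b2 i y hi.2⟩
      refine ⟨φ'', b0, b1, fun i y h => a2 i y (b2 i y h),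
        fun y => (Finset.card_le_card (hsub y)).trans (a3 y), fun y hy => ?_⟩
      rcases Finset.mem_insert.1 hy with h | h
      · exact b3 y h
      · have h2 : (Finset.univ.filter fun i => φ'' i y ≠ 0).card = K + 1 :=
          hT _ (Finset.mem_insert_of_mem h)
        have h3 := Finset.eq_of_subset_of_card_le (hsub y) (by rw [h2]; exact a3 y)
        rw [h3] at h
        exact a4 y h
  obtain ⟨φ', a0, a1, a2, a3, a4⟩ := key (Finset.powersetCard (K + 1) Finset.univ)
    fun s hs => (Finset.mem_powersetCard.1 hs).2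
  refine ⟨φ', a0, a1, a2, fun y => ?_⟩
  have h2 := a3 y
  have h3 := a4 y
  rw [Finset.mem_powersetCard] at h3
  have h4 : (Finset.univ.filter fun i => φ' i y ≠ 0).card ≠ K + 1 := fun h =>
    h3 ⟨Finset.subset_univ _, h⟩
  omega

end RC19
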