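import Mathlib

/-! definitions for [RC12-T7 B1, B3, B4] -/

namespace RC47

/-- the coefficient vector with value `1` at `i0`, free values on `S` and `0` elsewhere -/
noncomputable def lam {I : ℕ} (S : Finset (Fin I)) (i0 : Fin I) (x : S → ℝ) (i : Fin I) : ℝ :=
  open Classical in if i = i0 then 1 else if h : i ∈ S then x ⟨i, h⟩ else 0

/-- the parametrisation of the bad coefficient families `T : Fin I × Fin J → E`: all `T q`,
`q ≠ (i0, j0)`, are free and `T (i0, j0) = f (parameter) - ∑_{q ≠ (i0, j0)} lam_q.1 lam_q.2 T q`. -/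
noncomputable def Phi {E P : Type*} [NormedAddCommGroup E] [NormedSpace ℝ E] {I J : ℕ}
    (f : P → E) (S : Finset (Fin I)) (R : Finset (Fin J)) (i0 : Fin I) (j0 : Fin J)
    (z : (S → ℝ) × (R → ℝ) × P × ({p : Fin I × Fin J // p ≠ (i0, j0)} → E)) :
    Fin I × Fin J → E :=
  open Classical in fun p => if h : p = (i0, j0) then
    f z.2.2.1 - ∑ q : {p : Fin I × Fin J // p ≠ (i0, j0)},
      (lam S i0 z.1 q.1.1 * lam R j0 z.2.1 q.1.2) • z.2.2.2 q
  else z.2.2.2 ⟨p, h⟩

end RC47
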