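import Pool.Agent.LibRC12.T7B0

/-! [RC12-T7 B1]  the parametrisation `Phi` is `C^1`, so its range has small Hausdorff dimension -/

namespace RC47

open Module

theorem lam_contDiff {I : ℕ} (S : Finset (Fin I)) (i0 i : Fin I) :
    ContDiff ℝ 1 (fun x : S → ℝ => lam S i0 x i) := by
  classical
  unfold lam
  by_cases h : i = i0
  · simp only [h, if_true]
    exact contDiff_const
  · by_cases h' : i ∈ S
    · simp only [h, h', if_false, dif_pos]
      exact contDiff_apply ℝ ℝ (⟨i, h'⟩ : S)
    · simp only [h, h', if_false, dif_neg, not_false_iff]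
      exact contDiff_const

/-- HINT. `contDiff_pi`, then `by_cases` on `p = (i0, j0)`; `lam S i0 z.1 i` is `C^1` in `z` for
each fixed `i` (three cases); sums, products and `smul` of `C^1` maps. -/
theorem Phi_contDiff {E P : Type*} [NormedAddCommGroup E] [NormedSpace ℝ E]
    [NormedAddCommGroup P] [NormedSpace ℝ P] {I J : ℕ}
    (f : P → E) (hf : ContDiff ℝ 1 f) (S : Finset (Fin I)) (R : Finset (Fin J))
    (i0 : Fin I) (j0 : Fin J) : ContDiff ℝ 1 (Phi f S R i0 j0) := by
  classical
  rw [contDiff_pi]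
  intro p
  have h4 : ContDiff ℝ 1 (fun z : (S → ℝ) × (R → ℝ) × P × ({p : Fin I × Fin J // p ≠ (i0, j0)} → E) =>
      z.2.2.2) := contDiff_snd.comp (contDiff_snd.comp contDiff_snd)
  have happ : ∀ q : {p : Fin I × Fin J // p ≠ (i0, j0)}, ContDiff ℝ 1
      (fun z : (S → ℝ) × (R → ℝ) × P × ({p : Fin I × Fin J // p ≠ (i0, j0)} → E) =>
      z.2.2.2 q) := fun q => (contDiff_pi.1 h4) q
  by_cases h : p = (i0, j0)
  · simp only [Phi, h, dif_pos]
    refine ContDiff.sub (hf.comp (contDiff_fst.comp (contDiff_snd.comp contDiff_snd))) ?_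
    refine ContDiff.sum fun q _ => ?_
    refine ContDiff.smul (ContDiff.mul ?_ ?_) (happ q)
    · exact (lam_contDiff S i0 q.1.1).comp contDiff_fst
    · exact (lam_contDiff R j0 q.1.2).comp (contDiff_fst.comp contDiff_snd)
  · simp only [Phi, h, dif_neg, not_false_iff]
    exact happ ⟨p, h⟩

/-- HINT. `ContDiff.dimH_range_le` and the dimension count
`|S| + |R| + finrank P + (I J - 1) finrank E < I J finrank E` (`Module.finrank_prod`,
`Module.finrank_pi_fintype` / `finrank_fintype_fun_eq_card`, `Fintype.card_subtype_compl`...). -/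
theorem Phi_dimH {E P : Type*} [NormedAddCommGroup E] [NormedSpace ℝ E] [FiniteDimensional ℝ E]
    [NormedAddCommGroup P] [NormedSpace ℝ P] [FiniteDimensional ℝ P] {I J : ℕ}
    (f : P → E) (hf : ContDiff ℝ 1 f) (S : Finset (Fin I)) (R : Finset (Fin J))
    (i0 : Fin I) (j0 : Fin J) (h : S.card + R.card + finrank ℝ P < finrank ℝ E) :
    dimH (Set.range (Phi f S R i0 j0)) < finrank ℝ (Fin I × Fin J → E) := by
  classical
  refine lt_of_le_of_lt (ContDiff.dimH_range_le (Phi_contDiff f hf S R i0 j0)) ?_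
  have hc : Fintype.card {p : Fin I × Fin J // p ≠ (i0, j0)} + 1 = I * J := by
    have h1 : Fintype.card {p : Fin I × Fin J // p ≠ (i0, j0)} =
        Fintype.card (Fin I × Fin J) - Fintype.card {p : Fin I × Fin J // p = (i0, j0)} := by
      rw [← Fintype.card_subtype_compl]
    rw [h1, Fintype.card_subtype_eq, Fintype.card_prod, Fintype.card_fin, Fintype.card_fin]
    have h2 : 0 < I * J := Nat.mul_pos (Fin.pos i0) (Fin.pos j0)
    omega
  have e1 : finrank ℝ ((S → ℝ) × (R → ℝ) × P × ({p : Fin I × Fin J // p ≠ (i0, j0)} → E)) =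
      S.card + (R.card + (finrank ℝ P +
        Fintype.card {p : Fin I × Fin J // p ≠ (i0, j0)} * finrank ℝ E)) := by
    rw [Module.finrank_prod, Module.finrank_prod, Module.finrank_prod,
      Module.finrank_fintype_fun_eq_card, Module.finrank_fintype_fun_eq_card,
      Module.finrank_pi_fintype]
    simp
  have e2 : finrank ℝ (Fin I × Fin J → E) = (I * J) * finrank ℝ E := by
    rw [Module.finrank_pi_fintype]
    simp
  rw [e1, e2]
  have : S.card + (R.card + (finrank ℝ P +
        Fintype.card {p : Fin I × Fin J // p ≠ (i0, j0)} * finrank ℝ E)) < (I * J) * finrank ℝ E := by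
    rw [← hc]
    have : (Fintype.card {p : Fin I × Fin J // p ≠ (i0, j0)} + 1) * finrank ℝ E =
      Fintype.card {p : Fin I × Fin J // p ≠ (i0, j0)} * finrank ℝ E + finrank ℝ E := by ring
    omega
  exact_mod_cast this

end RC47
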