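import Mathlib

/-! definition for [RC12-T7 D1, D2, D3] -/

namespace RC47

/-- the `K × (k+1)` matrices whose column `l` is the combination (coefficients `z.2`) of the other
columns (given by `z.1`) -/
noncomputable def colPar {K k : ℕ} (l : Fin (k + 1)) (z : (Fin K → Fin k → ℂ) × (Fin k → ℂ)) :
    Fin K → Fin (k + 1) → ℂ :=
  fun i => Fin.insertNth l (∑ m, z.2 m * z.1 i m) (z.1 i)

end RC47
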