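import Mathlib

/-! [RC12-T7 E] -/

namespace RC47

open Matrix

/-- a continuous matrix field, invertible at `w0`, has a globally defined continuous field
which is its inverse near `w0`. -/
theorem ext_inv {W : Type*} [TopologicalSpace W] {R : ℕ}
    (D : C(W, Matrix (Fin R) (Fin R) ℂ)) (w0 : W) (h : (D w0).det ≠ 0) :
    ∃ (O : Set W) (Iv : C(W, Matrix (Fin R) (Fin R) ℂ)), IsOpen O ∧ w0 ∈ O ∧
      ∀ w ∈ O, D w * Iv w = 1 := by
  have hdc : Continuous fun w => (D w).det := D.continuous.matrix_det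
  have hr : 0 < ‖(D w0).det‖ := norm_pos_iff.2 h
  set r : ℝ := ‖(D w0).det‖ / 2 with hrdef
  have hr0 : 0 < r := by positivity
  have hden : ∀ w, ((max (‖(D w).det‖ ^ 2) (r ^ 2) : ℝ) : ℂ) ≠ 0 := by
    intro w
    have : 0 < max (‖(D w).det‖ ^ 2) (r ^ 2) := lt_max_of_lt_right (by positivity)
    exact_mod_cast this.ne'
  have hcont : Continuous fun w => ((starRingEnd ℂ) (D w).det /
      ((max (‖(D w).det‖ ^ 2) (r ^ 2) : ℝ) : ℂ)) • (D w).adjugate := by
    refine Continuous.smul (Continuous.div ?_ ?_ hden) D.continuous.matrix_adjugate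
    · exact Complex.continuous_conj.comp hdc
    · exact Complex.continuous_ofReal.comp ((hdc.norm.pow 2).max continuous_const)
  refine ⟨{w | r < ‖(D w).det‖}, ⟨_, hcont⟩, isOpen_lt continuous_const hdc.norm, ?_, ?_⟩
  · show r < ‖(D w0).det‖
    rw [hrdef]; linarith
  · intro w hw
    have hw' : r < ‖(D w).det‖ := hw
    have hmax : max (‖(D w).det‖ ^ 2) (r ^ 2) = ‖(D w).det‖ ^ 2 :=
      max_eq_left (pow_le_pow_left₀ hr0.le hw'.le 2)
    have hne : (D w).det ≠ 0 := norm_pos_iff.1 (hr0.trans hw')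
    show D w * (((starRingEnd ℂ) (D w).det / ((max (‖(D w).det‖ ^ 2) (r ^ 2) : ℝ) : ℂ)) •
      (D w).adjugate) = 1
    rw [Matrix.mul_smul, Matrix.mul_adjugate, smul_smul, hmax]
    have : (starRingEnd ℂ) (D w).det / ((‖(D w).det‖ ^ 2 : ℝ) : ℂ) * (D w).det = 1 := by
      have h2 : ((‖(D w).det‖ ^ 2 : ℝ) : ℂ) = (starRingEnd ℂ) (D w).det * (D w).det := by
        rw [mul_comm, Complex.mul_conj, Complex.normSq_eq_norm_sq]
      rw [h2]
      have h3 : (starRingEnd ℂ) (D w).det ≠ 0 := by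
        simpa using hne
      field_simp
    rw [this, one_smul]

end RC47
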