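import Mathlib

/-! [RC12-T7 F]  rank factorisation -/

namespace RC47

open Matrix

theorem rank_factor {N : ℕ} (M : Matrix (Fin N) (Fin N) ℂ) :
    ∃ (P : Matrix (Fin M.rank) (Fin N) ℂ) (Q : Matrix (Fin N) (Fin M.rank) ℂ),
      P * M * Q = 1 := by
  obtain ⟨V, U, e, -, -, h⟩ := Matrix.exists_rank_normal_form M
  refine ⟨V.submatrix (fun i => e.symm (Sum.inl i)) id, U.submatrix id (fun i => e.symm (Sum.inl i)),
    ?_⟩
  have h1 : V.submatrix (fun i => e.symm (Sum.inl i)) id * M *
      U.submatrix id (fun i => e.symm (Sum.inl i)) =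
      (V * M * U).submatrix (fun i => e.symm (Sum.inl i)) (fun i => e.symm (Sum.inl i)) := by
    ext i j
    simp [Matrix.mul_apply]
  rw [h1, h]
  ext i j
  simp [Matrix.one_apply]

end RC47
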