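import Pool.Agent.LibRC12.T7F
import Pool.Agent.LibRC12.T7R

/-! [RC12-T7 G]  completion of a pair `C0 * C1 = 1` -/

namespace RC47

open Matrix

theorem rank_factor' {N k : ℕ} (M : Matrix (Fin N) (Fin N) ℂ) (h : M.rank = k) :
    ∃ (P : Matrix (Fin k) (Fin N) ℂ) (Q : Matrix (Fin N) (Fin k) ℂ), P * M * Q = 1 := by
  subst h
  exact rank_factor M

theorem compl_factor {N R : ℕ} (C0 : Matrix (Fin R) (Fin N) ℂ) (C1 : Matrix (Fin N) (Fin R) ℂ)
    (h : C0 * C1 = 1) :
    ∃ (A0 : Matrix (Fin N) (Fin (N - R)) ℂ) (A1 : Matrix (Fin (N - R)) (Fin N) ℂ),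
      A1 * A0 = 1 ∧ A1 * C1 = 0 ∧ C0 * A0 = 0 ∧ A0 * A1 + C1 * C0 = 1 := by
  set E : Matrix (Fin N) (Fin N) ℂ := C1 * C0 with hE
  have hEE : E * E = E := by
    rw [hE]
    calc C1 * C0 * (C1 * C0) = C1 * (C0 * C1) * C0 := by simp only [Matrix.mul_assoc]
      _ = C1 * C0 := by rw [h, Matrix.mul_one]
  have hrE : E.rank = R := by
    apply le_antisymm
    · calc E.rank ≤ C1.rank := Matrix.rank_mul_le_left _ _
        _ ≤ R := Matrix.rank_le_width _
    · have h1 : C0 * E * C1 = 1 := by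
        rw [hE]
        calc C0 * (C1 * C0) * C1 = (C0 * C1) * (C0 * C1) := by simp only [Matrix.mul_assoc]
          _ = 1 := by rw [h, Matrix.mul_one]
      calc R = (1 : Matrix (Fin R) (Fin R) ℂ).rank := by rw [Matrix.rank_one, Fintype.card_fin]
        _ = (C0 * E * C1).rank := by rw [h1]
        _ ≤ (C0 * E).rank := Matrix.rank_mul_le_left _ _
        _ ≤ E.rank := Matrix.rank_mul_le_right _ _
  have hRN : R ≤ N := by
    rw [← hrE]
    exact Matrix.rank_le_width _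
  have hrP : (1 - E).rank = N - R := by
    have h1 := rank_compl E 1
    rw [Matrix.one_mul, hrE] at h1
    have h2 : (1 - E) * E = 0 := by
      rw [Matrix.sub_mul, Matrix.one_mul, hEE, sub_self]
    have h3 := Matrix.rank_add_rank_le_card_of_mul_eq_zero h2
    rw [hrE, Fintype.card_fin] at h3
    omega
  obtain ⟨P, Q, hPQ⟩ := rank_factor' (1 - E) hrP
  have hpp : (1 - E) * (1 - E) = 1 - E := by
    rw [Matrix.sub_mul, Matrix.one_mul, Matrix.mul_sub, Matrix.mul_one, hEE, sub_self, sub_zero]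
  have hEC : (1 - E) * C1 = 0 := by
    rw [Matrix.sub_mul, Matrix.one_mul, hE, Matrix.mul_assoc, h, Matrix.mul_one, sub_self]
  have hCE : C0 * (1 - E) = 0 := by
    rw [Matrix.mul_sub, Matrix.mul_one, hE, ← Matrix.mul_assoc, h, Matrix.one_mul, sub_self]
  have e1 : (P * (1 - E)) * ((1 - E) * Q) = 1 := by
    calc (P * (1 - E)) * ((1 - E) * Q) = P * ((1 - E) * (1 - E)) * Q := by
          simp only [Matrix.mul_assoc]
      _ = 1 := by rw [hpp, hPQ]
  have e2 : (P * (1 - E)) * C1 = 0 := by rw [Matrix.mul_assoc, hEC, Matrix.mul_zero]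
  have e3 : C0 * ((1 - E) * Q) = 0 := by rw [← Matrix.mul_assoc, hCE, Matrix.zero_mul]
  refine ⟨(1 - E) * Q, P * (1 - E), e1, e2, e3, ?_⟩
  have hLS : Matrix.fromRows (P * (1 - E)) C0 * Matrix.fromCols ((1 - E) * Q) C1 = 1 := by
    rw [Matrix.fromRows_mul_fromCols, e1, e2, e3, h, Matrix.fromBlocks_one]
  have hcard : Fin (N - R) ⊕ Fin R ≃ Fin N :=
    finSumFinEquiv.trans (finCongr (by omega))
  have hSL := (Matrix.mul_eq_one_comm_of_equiv hcard).1 hLS
  rw [Matrix.fromCols_mul_fromRows] at hSL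
  exact hSL

end RC47
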