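import Pool.Agent.LibRC12.T7Defs
import Pool.Agent.LibRC12.T7E
import Pool.Agent.LibRC12.T7F
import Pool.Agent.LibRC12.T7G

/-! [RC12-T7 H]  local density of good fields -/

namespace RC47

open Matrix

theorem T7H_mul_entry_le {m n p : ℕ} (M : Matrix (Fin m) (Fin n) ℂ) (X : Matrix (Fin n) (Fin p) ℂ)
    {a b : ℝ} (ha0 : 0 ≤ a) (ha : ∀ i j, ‖M i j‖ ≤ a) (hb : ∀ i j, ‖X i j‖ ≤ b) (i : Fin m)
    (j : Fin p) : ‖(M * X) i j‖ ≤ n * (a * b) := by
  rw [Matrix.mul_apply]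
  refine (norm_sum_le _ _).trans ?_
  refine (Finset.sum_le_sum (fun l _ => ?_ : ∀ l ∈ Finset.univ, ‖M i l * X l j‖ ≤ a * b)).trans ?_
  · rw [norm_mul]
    exact mul_le_mul (ha i l) (hb l j) (norm_nonneg _) ha0
  · simp

theorem T7H_bound {W : Type*} [TopologicalSpace W] [CompactSpace W] {m n : ℕ}
    (F : W → Matrix (Fin m) (Fin n) ℂ) (hF : Continuous F) :
    ∃ C : ℝ, 0 ≤ C ∧ ∀ w i j, ‖F w i j‖ ≤ C := by
  have hc : Continuous (fun w => ∑ i, ∑ j, ‖F w i j‖) := by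
    refine continuous_finsetSum _ fun i _ => continuous_finsetSum _ fun j _ => ?_
    exact (hF.matrix_elem i j).norm
  obtain ⟨C, hC⟩ := isCompact_univ.exists_bound_of_continuousOn hc.continuousOn
  refine ⟨max C 0, le_max_right _ _, fun w i j => ?_⟩
  refine le_trans ?_ ((le_trans (le_abs_self _) (hC w (Set.mem_univ w))).trans (le_max_left _ _))
  have h1 : ‖F w i j‖ ≤ ∑ j, ‖F w i j‖ :=
    Finset.single_le_sum (f := fun j => ‖F w i j‖) (fun _ _ => norm_nonneg _) (Finset.mem_univ j)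
  have h2 : ∑ j, ‖F w i j‖ ≤ ∑ i, ∑ j, ‖F w i j‖ :=
    Finset.single_le_sum (f := fun i => ∑ j, ‖F w i j‖)
      (fun _ _ => Finset.sum_nonneg fun _ _ => norm_nonneg _) (Finset.mem_univ i)
  exact h1.trans h2

/-- HINT. `B0 * b w0 * B1 = 1` (`K = rank (b w0)`) and `C0' * c w0 * C1 = 1` (`R = rank (c w0)`) by
`rank_factor`; `A0, A1` from `compl_factor` for `C0 = C0' * c w0` and `C1` (`k = N - R`, and
`k + g ≤ K`). Let `Ib`, `Ic` be the extended inverses (`ext_inv`) of the fields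
`Db w = B0 * b w * B1` and `Dc w = C0' * c w * C1` (determinant 1 at `w0`), `O` the intersection of
the two open sets. Put `A w = (1 - C1 * Ic w * C0' * c w) * A0` (continuous on all of `W`).
Facts: `A1 * A w = 1` for all `w` (`A1 * C1 = 0`); for `w ∈ O` and `c w *ᵥ ξ = 0`:
`A w *ᵥ (A1 *ᵥ ξ) = ξ` (because `A0 * A1 = 1 - C1 * C0`, `(1 - C1 Ic C0' c) ξ = ξ` and
`(1 - C1 Ic C0' c w) C1 = C1 - C1 (Ic Dc) = 0`, `Ic Dc = 1` by `Matrix.mul_eq_one_comm`).
Given `v` and `ε`: `T w = B0 * b w * v w * A w` is a field of `K × k` matrices; `hG` gives an injective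
field `T'` with entries within `ε'` of `T`; `v' w = v w + B1 * Ib w * (T' w - T w) * A1`. For `w ∈ O`:
`B0 * b w * v' w * A w = T w + (Db w * Ib w) * (T' w - T w) * (A1 * A w) = T' w`. So if
`b w *ᵥ (v' w *ᵥ ξ) = 0` and `c w *ᵥ ξ = 0` then, with `ζ = A1 *ᵥ ξ`, `ξ = A w *ᵥ ζ`, `T' w *ᵥ ζ = 0`,
`ζ = 0`, `ξ = 0`. Norm: the entries of `B1 * Ib w` are bounded on the compact space `W` by some `C`,
those of `A1` by `C`; take `ε' = ε / (K * k * C ^ 2 + 1)`. -/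
theorem local_dense {W : Type*} [TopologicalSpace W] [CompactSpace W] (g : ℕ)
    (hG : InjGen W g) {N : ℕ} (b c : C(W, Matrix (Fin N) (Fin N) ℂ)) (w0 : W)
    (hr : N + g ≤ (b w0).rank + (c w0).rank) :
    ∃ O : Set W, IsOpen O ∧ w0 ∈ O ∧
      ∀ (v : C(W, Matrix (Fin N) (Fin N) ℂ)) (ε : ℝ), 0 < ε →
        ∃ v' : C(W, Matrix (Fin N) (Fin N) ℂ), (∀ w ∈ O, GoodAt b c v' w) ∧
          ∀ w i j, ‖v' w i j - v w i j‖ ≤ ε := by
  obtain ⟨B0, B1, hB⟩ := rank_factor (b w0)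
  obtain ⟨C0', C1, hC⟩ := rank_factor (c w0)
  obtain ⟨A0, A1, hA10, hA1C, hCA, hsum⟩ := compl_factor (C0' * c w0) C1 hC
  have hRN : (c w0).rank ≤ N := by simpa using Matrix.rank_le_card_width (c w0)
  have hkK : (N - (c w0).rank) + g ≤ (b w0).rank := by omega
  let Db : C(W, Matrix (Fin (b w0).rank) (Fin (b w0).rank) ℂ) :=
    ⟨fun w => B0 * b w * B1, by fun_prop⟩
  let Dc : C(W, Matrix (Fin (c w0).rank) (Fin (c w0).rank) ℂ) :=
    ⟨fun w => C0' * c w * C1, by fun_prop⟩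
  obtain ⟨Ob, Ib, hOb, hwb, hIb⟩ := ext_inv Db w0 (by
    show (B0 * b w0 * B1).det ≠ 0
    rw [hB, Matrix.det_one]
    exact one_ne_zero)
  obtain ⟨Oc, Ic, hOc, hwc, hIc⟩ := ext_inv Dc w0 (by
    show (C0' * c w0 * C1).det ≠ 0
    rw [hC, Matrix.det_one]
    exact one_ne_zero)
  refine ⟨Ob ∩ Oc, hOb.inter hOc, ⟨hwb, hwc⟩, ?_⟩
  intro v ε hε
  have hIb' : ∀ w ∈ Ob, B0 * b w * B1 * Ib w = 1 := fun w hw => hIb w hw
  have hIc' : ∀ w ∈ Oc, Ic w * (C0' * c w * C1) = 1 := fun w hw =>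
    mul_eq_one_comm.1 (hIc w hw)
  let A : W → Matrix (Fin N) (Fin (N - (c w0).rank)) ℂ :=
    fun w => (1 - C1 * Ic w * C0' * c w) * A0
  have hAcont : Continuous A := by
    show Continuous fun w => (1 - C1 * Ic w * C0' * c w) * A0
    fun_prop
  have hA1A : ∀ w, A1 * A w = 1 := by
    intro w
    have h1 : A1 * (C1 * Ic w * C0' * c w) = 0 := by
      simp only [← Matrix.mul_assoc]
      rw [hA1C]
      simp
    show A1 * ((1 - C1 * Ic w * C0' * c w) * A0) = 1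
    rw [← Matrix.mul_assoc, Matrix.mul_sub, Matrix.mul_one, h1, sub_zero, hA10]
  have hAξ : ∀ w ∈ Oc, ∀ ξ : Fin N → ℂ, (c w) *ᵥ ξ = 0 → (A w) *ᵥ (A1 *ᵥ ξ) = ξ := by
    intro w hw ξ hξ
    have h2 : (1 - C1 * Ic w * C0' * c w) * C1 = 0 := by
      rw [Matrix.sub_mul, Matrix.one_mul]
      have h3 : C1 * Ic w * C0' * c w * C1 = C1 * (Ic w * (C0' * c w * C1)) := by
        simp only [Matrix.mul_assoc]
      rw [h3, hIc' w hw, Matrix.mul_one, sub_self]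
    have h3 : A w * A1 = 1 - C1 * Ic w * C0' * c w := by
      show (1 - C1 * Ic w * C0' * c w) * A0 * A1 = _
      rw [Matrix.mul_assoc, eq_sub_of_add_eq hsum, Matrix.mul_sub, Matrix.mul_one,
        ← Matrix.mul_assoc, h2, Matrix.zero_mul, sub_zero]
    rw [Matrix.mulVec_mulVec, h3, Matrix.sub_mulVec, Matrix.one_mulVec, ← Matrix.mulVec_mulVec,
      hξ, Matrix.mulVec_zero, sub_zero]
  let T : C(W, Matrix (Fin (b w0).rank) (Fin (N - (c w0).rank)) ℂ) :=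
    ⟨fun w => B0 * b w * v w * A w, by fun_prop⟩
  obtain ⟨C, hC0, hCb⟩ := T7H_bound (fun w => B1 * Ib w) (by fun_prop)
  obtain ⟨C', hC0', hCb'⟩ := T7H_bound (W := W) (fun _ => A1) continuous_const
  have hD : 0 < ((N - (c w0).rank : ℕ) : ℝ) * (((b w0).rank : ℝ) * C) * C' + 1 := by positivity
  obtain ⟨T', hT', hTT⟩ := hG (b w0).rank (N - (c w0).rank) hkK T
    (ε / (((N - (c w0).rank : ℕ) : ℝ) * (((b w0).rank : ℝ) * C) * C' + 1)) (div_pos hε hD)
  let v' : C(W, Matrix (Fin N) (Fin N) ℂ) :=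
    ⟨fun w => v w + B1 * Ib w * (T' w - T w) * A1, by fun_prop⟩
  have hv' : ∀ w, v' w = v w + B1 * Ib w * (T' w - T w) * A1 := fun w => rfl
  refine ⟨v', ?_, ?_⟩
  · rintro w ⟨hw1, hw2⟩ ξ h1 h2
    have h3 : B0 * b w * v' w * A w = T' w := by
      have h4 : B0 * b w * (B1 * Ib w * (T' w - T w) * A1) * A w
          = (B0 * b w * B1 * Ib w) * (T' w - T w) * (A1 * A w) := by
        simp only [Matrix.mul_assoc]
      rw [hv', Matrix.mul_add, Matrix.add_mul, h4, hIb' w hw1, hA1A, Matrix.one_mul,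
        Matrix.mul_one]
      show T w + (T' w - T w) = T' w
      abel
    have h5 : (T' w) *ᵥ (A1 *ᵥ ξ) = 0 := by
      rw [← h3, ← Matrix.mulVec_mulVec, hAξ w hw2 ξ h2, ← Matrix.mulVec_mulVec,
        ← Matrix.mulVec_mulVec, h1, Matrix.mulVec_zero]
    rw [← hAξ w hw2 ξ h2, hT' w _ h5, Matrix.mulVec_zero]
  · intro w i j
    have h1 : v' w i j - v w i j = (B1 * Ib w * (T' w - T w) * A1) i j := by
      rw [hv']
      simp
    rw [h1]
    have h2 := T7H_mul_entry_le (B1 * Ib w) (T' w - T w) hC0 (hCb w) (fun i j => hTT w i j)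
    have h3 := T7H_mul_entry_le (B1 * Ib w * (T' w - T w)) A1 (by positivity) h2 (hCb' w) i j
    refine h3.trans ?_
    have h4 : ((N - (c w0).rank : ℕ) : ℝ) * ((((b w0).rank : ℝ) * (C * (ε /
        (((N - (c w0).rank : ℕ) : ℝ) * (((b w0).rank : ℝ) * C) * C' + 1)))) * C')
        = ε * ((((N - (c w0).rank : ℕ) : ℝ) * (((b w0).rank : ℝ) * C) * C') /
        (((N - (c w0).rank : ℕ) : ℝ) * (((b w0).rank : ℝ) * C) * C' + 1)) := by
      ring
    rw [h4]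
    refine mul_le_of_le_one_right hε.le ?_
    rw [div_le_one hD]
    linarith

end RC47
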