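import Mathlib

/-! definitions for [RC12-T7 K1, K2, K4] -/

namespace RC47

/-- the cut off function `h(t) = max (1 - t / e) 0` -/
noncomputable def hcut (e t : ℝ) : ℝ := max (1 - t / e) 0

/-- `k(t) = 1 / max t e`, so that `h(t) = 1 - k(t) * t` -/
noncomputable def kcut (e t : ℝ) : ℝ := (max t e)⁻¹

/-- `t ↦ (t - e)_+` -/
noncomputable def gcut (e t : ℝ) : ℝ := max (t - e) 0

/-- `t ↦ (max t 0 + κ)^(-1/2)` -/
noncomputable def rcut (κ t : ℝ) : ℝ := (Real.sqrt (max t 0 + κ))⁻¹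

/-- `t ↦ ((t - e)_+)^(1/2)` -/
noncomputable def scut (e t : ℝ) : ℝ := Real.sqrt (max (t - e) 0)

/-- `V = v g (g Z g + κ)^(-1/2) g^(1/2)`, `g = (a - e)_+`, `Z = v* b v` -/
noncomputable def VV {M : Type*} [CStarAlgebra M] (a b v : M) (e κ : ℝ) : M :=
  v * cfc (gcut e) a *
    cfc (rcut κ) (cfc (gcut e) a * (star v * b * v) * cfc (gcut e) a) * cfc (scut e) a

end RC47
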