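import Pool.Agent.LibRC12.T7K0

/-! [RC12-T7 K1]  small facts of functional calculus -/

open scoped ComplexOrder

namespace RC47

theorem hcut_eq {M : Type*} [CStarAlgebra M] [PartialOrder M] [StarOrderedRing M]
    (a : M) (ha : 0 ≤ a) (e : ℝ) (he : 0 < e) :
    0 ≤ cfc (hcut e) a ∧ cfc (hcut e) a = 1 - cfc (kcut e) a * a ∧
      cfc (hcut e) a * cfc (gcut e) a = 0 := by
  have hsa : IsSelfAdjoint a := IsSelfAdjoint.of_nonneg ha
  have hch : Continuous (hcut e) := by unfold hcut; fun_prop
  have hcg : Continuous (gcut e) := by unfold gcut; fun_prop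
  have hck : Continuous (kcut e) := by
    unfold kcut
    exact (continuous_id.max continuous_const).inv₀ fun t => (lt_max_of_lt_right he).ne'
  refine ⟨cfc_nonneg fun t _ => le_max_right _ _, ?_, ?_⟩
  · have h1 : cfc (kcut e) a * a = cfc (fun t => kcut e t * t) a := by
      rw [cfc_mul (kcut e) (fun t => t) a hck.continuousOn continuousOn_id, cfc_id' ℝ a]
    have h2 : (1 : M) - cfc (fun t => kcut e t * t) a = cfc (fun t => 1 - kcut e t * t) a := by
      rw [cfc_sub (fun _ => (1 : ℝ)) (fun t => kcut e t * t) a continuousOn_const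
        (hck.mul continuous_id).continuousOn, cfc_const_one ℝ a]
    rw [h1, h2]
    refine cfc_congr fun t _ => ?_
    simp only [hcut, kcut]
    rcases le_total e t with h | h
    · have ht : 0 < t := lt_of_lt_of_le he h
      rw [max_eq_left h, inv_mul_cancel₀ ht.ne', sub_self, max_eq_right]
      have : 1 ≤ t / e := (one_le_div he).2 h
      linarith
    · rw [max_eq_right h, max_eq_left]
      · rw [div_eq_inv_mul]
      · have : t / e ≤ 1 := (div_le_one he).2 h
        linarith
  · rw [← cfc_mul (hcut e) (gcut e) a hch.continuousOn hcg.continuousOn]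
    have : (fun t => hcut e t * gcut e t) = fun _ => (0 : ℝ) := by
      funext t
      simp only [hcut, gcut]
      rcases le_total e t with h | h
      · rw [max_eq_right, zero_mul]
        have : 1 ≤ t / e := (one_le_div he).2 h
        linarith
      · rw [max_eq_right (a := t - e), mul_zero]
        linarith
    rw [this, cfc_const_zero ℝ a]

theorem gcut_approx {M : Type*} [CStarAlgebra M] [PartialOrder M] [StarOrderedRing M]
    (a : M) (ha : 0 ≤ a) (e : ℝ) (he : 0 < e) : ‖cfc (gcut e) a - a‖ ≤ e := by
  have hsa : IsSelfAdjoint a := IsSelfAdjoint.of_nonneg ha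
  have hcg : Continuous (gcut e) := by unfold gcut; fun_prop
  have h1 : cfc (gcut e) a - a = cfc (fun t => gcut e t - t) a := by
    rw [cfc_sub (gcut e) (fun t => t) a hcg.continuousOn continuousOn_id, cfc_id' ℝ a]
  rw [h1]
  refine norm_cfc_le he.le fun t ht => ?_
  have ht0 : 0 ≤ t := spectrum_nonneg_of_nonneg ha ht
  rw [Real.norm_eq_abs, abs_le]
  simp only [gcut]
  rcases le_total e t with h | h
  · rw [max_eq_left (by linarith)]
    constructor <;> linarith
  · rw [max_eq_right (by linarith)]
    constructor <;> linarith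

end RC47
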