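import Pool.Agent.LibRC12.Core

open Filter Topology WeakDual
open scoped ENNReal NNReal ComplexOrder ComplexConjugate

set_option linter.unusedSectionVars false

namespace RC19

open RC12

variable {A : Type*} [CStarAlgebra A] [PartialOrder A] [StarOrderedRing A]

theorem char_sa (φ : characterSpace ℂ A) {a : A} (ha : IsSelfAdjoint a) :
    (((φ a).re : ℝ) : ℂ) = φ a := by
  have h : star (φ a) = φ a := by
    rw [← map_star, ha.star_eq]
  exact Complex.conj_eq_iff_re.1 h

/-- a character as a star homomorphism -/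
noncomputable def U0_hom (φ : characterSpace ℂ A) : A →⋆ₐ[ℂ] ℂ where
  toFun a := φ a
  map_one' := map_one φ
  map_mul' := map_mul φ
  map_zero' := map_zero φ
  map_add' := map_add φ
  commutes' c := by
    rw [Algebra.algebraMap_eq_smul_one, map_smul, map_one]
    simp
  map_star' := map_star φ

/-- a character evaluates the functional calculus -/
theorem char_cfc (φ : characterSpace ℂ A) {a : A} (ha : IsSelfAdjoint a) {f : ℝ → ℝ}
    (hf : Continuous f) : φ (cfc f a) = ((f (φ a).re : ℝ) : ℂ) := by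
  have hc : Continuous (U0_hom φ) := by
    have : Continuous fun a => φ a := φ.1.continuous
    exact this
  have h := StarAlgHomClass.map_cfc (U0_hom φ) f a hf.continuousOn hc ha (ha.map (U0_hom φ))
  have h1 : U0_hom φ (cfc f a) = φ (cfc f a) := rfl
  have h2 : U0_hom φ a = algebraMap ℝ ℂ (φ a).re := (char_sa φ ha).symm
  rw [h1, h2, cfc_algebraMap] at h
  exact h

/-- Stone-Weierstrass -/
theorem exists_lift (F : C(characterSpace ℂ A, ℂ)) {e : ℝ} (he : 0 < e) :
    ∃ a : A, ∀ φ : characterSpace ℂ A, ‖φ a - F φ‖ ≤ e := by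
  let g : A →⋆ₐ[ℂ] C(characterSpace ℂ A, ℂ) :=
    { gelfandTransform ℂ A with map_star' := fun a => ContinuousMap.ext fun φ => map_star φ a }
  have hg : ∀ a φ, g a φ = φ a := fun a φ => rfl
  have hsep : (g.range).toSubalgebra.SeparatesPoints := by
    intro φ ψ hne
    have : ∃ a, φ a ≠ ψ a := by
      by_contra hcon
      push Not at hcon
      exact hne (Subtype.ext (ContinuousLinearMap.ext hcon))
    obtain ⟨a, ha⟩ := this
    exact ⟨g a, ⟨g a, ⟨a, rfl⟩, rfl⟩, ha⟩
  have htop := ContinuousMap.starSubalgebra_topologicalClosure_eq_top_of_separatesPoints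
    g.range hsep
  have hF : F ∈ g.range.topologicalClosure := by
    rw [htop]
    trivial
  have hF' : F ∈ closure (g.range : Set C(characterSpace ℂ A, ℂ)) := hF
  rw [Metric.mem_closure_iff] at hF'
  obtain ⟨G, ⟨a, rfl⟩, hG⟩ := hF' e he
  refine ⟨a, fun φ => ?_⟩
  have h1 : dist (F φ) (g a φ) ≤ dist F (g a) := ContinuousMap.dist_apply_le_dist φ
  have h2 : ‖φ a - F φ‖ = dist (F φ) (g a φ) := by
    rw [dist_comm, dist_eq_norm]
    rfl
  rw [h2]
  exact h1.trans hG.le

theorem exists_lift_sa (F : C(characterSpace ℂ A, ℝ)) {e : ℝ} (he : 0 < e) :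
    ∃ a : A, IsSelfAdjoint a ∧ ∀ φ : characterSpace ℂ A, |(φ a).re - F φ| ≤ e := by
  obtain ⟨a, ha⟩ := exists_lift (A := A) (⟨fun φ => (F φ : ℂ),
    Complex.continuous_ofReal.comp F.continuous⟩ : C(characterSpace ℂ A, ℂ)) he
  refine ⟨(2 : ℂ)⁻¹ • (a + star a), ?_, fun φ => ?_⟩
  · rw [IsSelfAdjoint, star_smul, star_add, star_star, add_comm (star a)]
    congr 1
    simp
  · have h1 : (φ ((2 : ℂ)⁻¹ • (a + star a))).re = (φ a).re := by
      rw [map_smul, map_add, map_star, smul_eq_mul]
      have : φ a + star (φ a) = ((2 * (φ a).re : ℝ) : ℂ) := by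
        apply Complex.ext <;> simp
        ring
      rw [this]
      have h2 : (2 : ℂ)⁻¹ * ((2 * (φ a).re : ℝ) : ℂ) = (((φ a).re : ℝ) : ℂ) := by
        push_cast
        ring
      rw [h2, Complex.ofReal_re]
    rw [h1]
    have h2 : (φ a).re - F φ = (φ a - (F φ : ℂ)).re := by simp
    rw [h2]
    exact (Complex.abs_re_le_norm _).trans (ha φ)

end RC19
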