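import Pool.Agent.LibRC12.S1All

open Filter Topology WeakDual
open scoped ENNReal NNReal ComplexOrder ComplexConjugate

set_option linter.unusedSectionVars false

namespace RC19

open RC12

variable {A : Type*} [CStarAlgebra A] [PartialOrder A] [StarOrderedRing A]

private theorem U1a_char_norm (φ : characterSpace ℂ A) (a : A) : ‖φ a‖ ≤ ‖a‖ := by
  have hnt : Nontrivial A := by
    refine ⟨⟨0, 1, fun h => ?_⟩⟩
    have h1 : φ (0 : A) = φ (1 : A) := congrArg φ h
    rw [map_zero, map_one] at h1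
    exact zero_ne_one h1
  have h := AlgHom.norm_apply_le_self_mul_norm_one (𝕜 := ℂ) φ a
  rwa [CStarRing.norm_one, mul_one] at h

/-- if `d_τ(b) > 1 + r` for all `τ` then some `b x` has no zero on the characters -/
theorem exists_vec {r : ℝ} (hr : ∀ (n : ℕ) (a b : Mn n A), 0 ≤ a → 0 ≤ b →
      (∀ τ : QuasiTrace A, τ.dq a + r < τ.dq b) → Cu a b) {n : ℕ} (hn : 0 < n) (b : Mn n A) (hb : 0 ≤ b)
    (h : ∀ τ : QuasiTrace A, 1 + r < τ.dq b) :
    ∃ x : Fin n → A, ∀ φ : characterSpace ℂ A, ∃ i, φ (∑ k, b.mat i k * x k) ≠ 0 := by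
  have ha0 : 0 ≤ cor n (1 : Mn 1 A) := by
    rw [cor_eq_emb hn]
    exact emb_nonneg _ _ zero_le_one
  have hCu : Cu (cor n (1 : Mn 1 A)) b := by
    refine hr n _ b ha0 hb fun τ => ?_
    rw [dq_cor τ hn zero_le_one, dq_one τ]
    have := h τ
    simpa using this
  obtain ⟨v, hv⟩ := hCu (1 / 2) (by norm_num)
  let o : Fin n := ⟨0, hn⟩
  refine ⟨fun i => v.mat i o, fun φ => ?_⟩
  by_contra hcon
  push Not at hcon
  have h1 : ‖(star v * b * v - cor n (1 : Mn 1 A)).mat o o‖ < 1 / 2 :=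
    (Mn.norm_entry_le _ o o).trans_lt hv
  have h2 : (cor n (1 : Mn 1 A)).mat o o = 1 := by
    show corner n (1 : Mn 1 A).mat o o = 1
    unfold corner
    rw [dif_pos ⟨by simp [o], by simp [o]⟩]
    rfl
  have h3 : φ ((star v * b * v).mat o o) = 0 := by
    have e : (star v * b * v).mat o o = ∑ i, star (v.mat i o) * ∑ k, b.mat i k * v.mat k o := by
      rw [mul_assoc, Mn.mat_mul, Matrix.mul_apply]
      rfl
    rw [e, map_sum]
    refine Finset.sum_eq_zero fun i _ => ?_
    rw [map_mul, hcon i, mul_zero]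
  rw [Mn.mat_sub, Matrix.sub_apply, h2] at h1
  have h4 := (U1a_char_norm φ ((star v * b * v).mat o o - 1)).trans_lt h1
  rw [map_sub, h3, map_one] at h4
  norm_num at h4

end RC19
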