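import Mathlib

namespace RC19

/-- clamp to `[0,1]` -/
noncomputable def clampf (x : ℝ) : ℝ := max 0 (min 1 x)

/-- centres of the bands -/
noncomputable def cen (N : ℕ) (j : Fin N) : ℝ := -(1 / 8) + (2 * (j : ℝ) + 1) / (8 * N)

noncomputable def chp (N : ℕ) (j : Fin N) (t : ℝ) : ℝ := clampf (8 * N * (t - cen N j))

noncomputable def chm (N : ℕ) (j : Fin N) (t : ℝ) : ℝ := clampf (8 * N * (cen N j - t))

noncomputable def qf (N : ℕ) (j : Fin N) (t : ℝ) : ℝ := chp N j t ^ 2 + chm N j t ^ 2

private theorem V0_clampf_nonneg (x : ℝ) : 0 ≤ clampf x := le_max_left _ _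

private theorem V0_clampf_le_one (x : ℝ) : clampf x ≤ 1 :=
  max_le zero_le_one (min_le_left _ _)

private theorem V0_clampf_zero {x : ℝ} (h : x ≤ 0) : clampf x = 0 :=
  max_eq_left ((min_le_right _ _).trans h)

private theorem V0_clampf_one {x : ℝ} (h : 1 ≤ x) : clampf x = 1 := by
  unfold clampf
  rw [min_eq_left h]
  exact max_eq_right zero_le_one

private theorem V0_continuous_clampf : Continuous clampf :=
  continuous_const.max (continuous_const.min continuous_id)

private theorem V0_N_pos {N : ℕ} (j : Fin N) : (0 : ℝ) < N :=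
  Nat.cast_pos.2 (lt_of_le_of_lt (Nat.zero_le _) j.2)

theorem continuous_chp (N : ℕ) (j : Fin N) : Continuous (chp N j) :=
  V0_continuous_clampf.comp (continuous_const.mul (continuous_id.sub continuous_const))

theorem continuous_chm (N : ℕ) (j : Fin N) : Continuous (chm N j) :=
  V0_continuous_clampf.comp (continuous_const.mul (continuous_const.sub continuous_id))

theorem continuous_qf (N : ℕ) (j : Fin N) : Continuous (qf N j) :=
  ((continuous_chp N j).pow 2).add ((continuous_chm N j).pow 2)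

theorem chp_mul_chm (N : ℕ) (j : Fin N) (t : ℝ) : chp N j t * chm N j t = 0 := by
  have hN := V0_N_pos j
  rcases le_total t (cen N j) with h | h
  · have : chp N j t = 0 := V0_clampf_zero (by nlinarith)
    rw [this, zero_mul]
  · have : chm N j t = 0 := V0_clampf_zero (by nlinarith)
    rw [this, mul_zero]

theorem qf_nonneg (N : ℕ) (j : Fin N) (t : ℝ) : 0 ≤ qf N j t :=
  add_nonneg (sq_nonneg _) (sq_nonneg _)

theorem qf_le_one (N : ℕ) (j : Fin N) (t : ℝ) : qf N j t ≤ 1 := by
  have h1 : 0 ≤ chp N j t := V0_clampf_nonneg _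
  have h2 : 0 ≤ chm N j t := V0_clampf_nonneg _
  have h3 : chp N j t ≤ 1 := V0_clampf_le_one _
  have h4 : chm N j t ≤ 1 := V0_clampf_le_one _
  unfold qf
  rcases mul_eq_zero.1 (chp_mul_chm N j t) with h | h
  · rw [h]
    nlinarith
  · rw [h]
    nlinarith

theorem chp_ne {N : ℕ} {j : Fin N} {t : ℝ} (h : chp N j t ≠ 0) : -(1 / 8) ≤ t := by
  have hN := V0_N_pos j
  have h1 : 0 < 8 * N * (t - cen N j) := by
    by_contra h2
    exact h (V0_clampf_zero (not_lt.1 h2))
  have h2 : 0 < t - cen N j := by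
    by_contra h3
    have h4 : 8 * (N : ℝ) * (t - cen N j) ≤ 0 :=
      mul_nonpos_of_nonneg_of_nonpos (by positivity) (not_lt.1 h3)
    linarith
  have h3 : -(1 / 8) ≤ cen N j := by
    unfold cen
    have : (0 : ℝ) ≤ (2 * (j : ℝ) + 1) / (8 * N) := by positivity
    linarith
  linarith

theorem chm_ne {N : ℕ} {j : Fin N} {t : ℝ} (h : chm N j t ≠ 0) : t ≤ 1 / 8 := by
  have hN := V0_N_pos j
  have h1 : 0 < 8 * N * (cen N j - t) := by
    by_contra h2
    exact h (V0_clampf_zero (not_lt.1 h2))
  have h2 : 0 < cen N j - t := by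
    by_contra h3
    have h4 : 8 * (N : ℝ) * (cen N j - t) ≤ 0 :=
      mul_nonpos_of_nonneg_of_nonpos (by positivity) (not_lt.1 h3)
    linarith
  have h3 : cen N j ≤ 1 / 8 := by
    unfold cen
    have h5 : ((j : ℕ) : ℝ) + 1 ≤ N := by exact_mod_cast j.2
    have : (2 * (j : ℝ) + 1) / (8 * N) ≤ 1 / 4 := by
      rw [div_le_div_iff₀ (by positivity) (by norm_num)]
      nlinarith
    linarith
  linarith

private theorem V0_qf_eq_one {N : ℕ} {j : Fin N} {t : ℝ} (h : 1 ≤ 8 * N * |t - cen N j|) :
    qf N j t = 1 := by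
  have hN := V0_N_pos j
  rcases le_total (cen N j) t with h1 | h1
  · rw [abs_of_nonneg (by linarith)] at h
    have h2 : chp N j t = 1 := V0_clampf_one h
    have h3 : chm N j t = 0 := V0_clampf_zero (by nlinarith)
    unfold qf
    rw [h2, h3]
    norm_num
  · rw [abs_of_nonpos (by linarith)] at h
    have h2 : chm N j t = 1 := V0_clampf_one (by linarith)
    have h3 : chp N j t = 0 := V0_clampf_zero (by nlinarith)
    unfold qf
    rw [h2, h3]
    norm_num

theorem sum_qf {N : ℕ} (t : ℝ) : ∑ j : Fin N, (1 - qf N j t) ≤ 1 := by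
  by_cases hex : ∃ j0 : Fin N, 8 * N * |t - cen N j0| < 1
  · obtain ⟨j0, hj0⟩ := hex
    have hN := V0_N_pos j0
    have h1 : ∀ j : Fin N, j ≠ j0 → 1 - qf N j t = 0 := by
      intro j hj
      rw [V0_qf_eq_one, sub_self]
      have h2 : 2 ≤ 8 * N * |cen N j - cen N j0| := by
        have h3 : cen N j - cen N j0 = 2 * ((j : ℝ) - (j0 : ℝ)) / (8 * N) := by
          unfold cen
          ring
        have h4 : (1 : ℝ) ≤ |(j : ℝ) - (j0 : ℝ)| := by
          have h5 : (1 : ℤ) ≤ |((j : ℕ) : ℤ) - ((j0 : ℕ) : ℤ)| := by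
            refine Int.one_le_abs ?_
            intro h6
            apply hj
            ext
            omega
          exact_mod_cast h5
        have h7 : |cen N j - cen N j0| = 2 * |(j : ℝ) - (j0 : ℝ)| / (8 * N) := by
          rw [h3, abs_div, abs_mul, abs_of_pos (by positivity : (0 : ℝ) < 8 * N)]
          norm_num
        rw [h7]
        have h8 : 8 * (N : ℝ) * (2 * |(j : ℝ) - (j0 : ℝ)| / (8 * N)) =
            2 * |(j : ℝ) - (j0 : ℝ)| := by
          field_simp
        rw [h8]
        linarith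
      have h9 : |cen N j - cen N j0| ≤ |t - cen N j| + |t - cen N j0| := by
        have h10 := abs_sub_le (cen N j) t (cen N j0)
        rwa [abs_sub_comm (cen N j) t] at h10
      nlinarith [mul_le_mul_of_nonneg_left h9 (by positivity : (0 : ℝ) ≤ 8 * N)]
    rw [Finset.sum_eq_single j0 (fun j _ hj => h1 j hj) (fun h => absurd (Finset.mem_univ _) h)]
    linarith [qf_nonneg N j0 t]
  · have h1 : ∀ j : Fin N, 1 - qf N j t = 0 := by
      intro j
      rw [V0_qf_eq_one, sub_self]
      by_contra h2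
      exact hex ⟨j, not_le.1 h2⟩
    rw [Finset.sum_eq_zero fun j _ => h1 j]
    exact zero_le_one

end RC19
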