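import Pool.Agent.LibRC12.S1All
import Pool.Agent.LibRC12.V0

open Filter Topology WeakDual
open scoped ENNReal NNReal ComplexOrder ComplexConjugate

set_option linter.unusedSectionVars false

namespace RC19

open RC12

variable {A : Type*} [CStarAlgebra A] [PartialOrder A] [StarOrderedRing A]

/-- element of `A` as a `1 × 1` matrix -/
noncomputable def M1 (a : A) : Mn 1 A := Mn.of fun _ _ => a

private noncomputable def M1h : A →⋆ₐ[ℂ] Mn 1 A where
  toFun a := M1 a
  map_one' := by
    refine Mn.ext ?_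
    ext i j
    have hij : i = j := Subsingleton.elim _ _
    subst hij
    simp [M1]
  map_mul' a b := by
    refine Mn.ext ?_
    ext i j
    simp [M1, Matrix.mul_apply]
  map_zero' := rfl
  map_add' _ _ := rfl
  commutes' c := by
    refine Mn.ext ?_
    ext i j
    have hij : i = j := Subsingleton.elim _ _
    subst hij
    simp [M1, Algebra.algebraMap_eq_smul_one]
  map_star' a := by
    refine Mn.ext ?_
    ext i j
    simp [M1, Matrix.star_apply]

private theorem M1h_apply (a : A) : (M1h a : Mn 1 A) = M1 a := rfl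

theorem M1_nonneg {a : A} (h : 0 ≤ a) : 0 ≤ M1 a := by
  obtain ⟨x, rfl⟩ := CStarAlgebra.nonneg_iff_eq_star_mul_self.mp h
  rw [← M1h_apply, map_mul, map_star]
  exact star_mul_self_nonneg _

theorem M1_add (a b : A) : M1 (a + b) = M1 a + M1 b := rfl

theorem M1_mono {a b : A} (h : a ≤ b) : M1 a ≤ M1 b := by
  have h1 := M1_nonneg (sub_nonneg.mpr h)
  have h2 : M1 (b - a) = M1 b - M1 a := rfl
  rw [h2] at h1
  exact sub_nonneg.mp h1

private theorem M1_sa {a : A} (ha : IsSelfAdjoint a) : IsSelfAdjoint (M1 a) := by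
  have := ha.map (M1h (A := A))
  exact this

private theorem M1_cfc {f : ℝ → ℝ} (hf : Continuous f) {a : A} (ha : IsSelfAdjoint a) :
    M1 (cfc f a) = cfc f (M1 a) := by
  have h1 := StarAlgHomClass.map_cfc (S := ℂ) (M1h (A := A)) f a hf.continuousOn
    (map_continuous M1h) ha (ha.map M1h)
  exact h1

theorem M1_psi (e : ℝ) {a : A} (ha : IsSelfAdjoint a) : psi e (M1 a) = M1 (psi e a) := by
  unfold psi
  exact (M1_cfc (by fun_prop) ha).symm

/-- for one of the `N` bands the quasitrace of the bump is at most `1/N` -/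
theorem band {N : ℕ} (hN : 0 < N) {b : A} (hb : IsSelfAdjoint b) (τ : QuasiTrace A) :
    ∃ j : Fin N, 1 - 1 / (N : ℝ) ≤ τ.dq (M1 (cfc (qf N j) b)) := by
  have hB : IsSelfAdjoint (M1 b) := M1_sa hb
  set B := M1 b with hBdef
  have ht := τ.qtr 1
  have hcont : ∀ j : Fin N, Continuous (fun t => 1 - qf N j t) := fun j =>
    continuous_const.sub (continuous_qf N j)
  have h1 : τ.t (1 : Mn 1 A) = 1 := by
    have := t_one τ (n := 1)
    simpa using this
  -- the sum of the traces of the bumps
  have hsum : ∑ j : Fin N, τ.t (cfc (fun t => 1 - qf N j t) B) ≤ 1 := by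
    have e1 : τ.t (∑ j : Fin N, cfc (fun t => 1 - qf N j t) B) =
        ∑ j : Fin N, τ.t (cfc (fun t => 1 - qf N j t) B) :=
      QTr.sum ht Finset.univ _ (fun j _ => cfc_predicate _ _)
        (fun i _ j _ => cfc_commute_cfc _ _ _)
    have e2 : ∑ j : Fin N, cfc (fun t => 1 - qf N j t) B =
        cfc (fun t => ∑ j : Fin N, (1 - qf N j t)) B := by
      rw [← cfc_sum (fun (j : Fin N) t => 1 - qf N j t) B Finset.univ
        (fun j _ => (hcont j).continuousOn)]
      congr 1
      funext t
      rw [Finset.sum_apply]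
    have e3 : τ.t (cfc (fun t => ∑ j : Fin N, (1 - qf N j t)) B) ≤ τ.t (cfc (fun _ => (1 : ℝ)) B) := by
      refine QTr.cfc_mono ht ?_ continuous_const (fun s _ => sum_qf s)
      exact continuous_finsetSum _ fun j _ => hcont j
    rw [cfc_const_one ℝ B hB, h1] at e3
    rw [← e1, e2]
    exact e3
  have hNR : (0 : ℝ) < N := by exact_mod_cast hN
  obtain ⟨j, hj⟩ : ∃ j : Fin N, τ.t (cfc (fun t => 1 - qf N j t) B) ≤ 1 / (N : ℝ) := by
    by_contra hcon
    push Not at hcon
    have hne : (Finset.univ : Finset (Fin N)).Nonempty := ⟨⟨0, hN⟩, Finset.mem_univ _⟩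
    have := Finset.sum_lt_sum_of_nonempty hne (fun j _ => hcon j)
    rw [Finset.sum_const, Finset.card_univ, Fintype.card_fin, nsmul_eq_mul,
      mul_one_div_cancel hNR.ne'] at this
    linarith
  refine ⟨j, ?_⟩
  rw [M1_cfc (continuous_qf N j) hb]
  have hq0 : 0 ≤ cfc (qf N j) B := cfc_nonneg fun t _ => qf_nonneg N j t
  have hq1 : cfc (qf N j) B ≤ 1 := cfc_le_one _ _ fun t _ => qf_le_one N j t
  have h2 : τ.t (cfc (qf N j) B) ≤ τ.dq (cfc (qf N j) B) := ht.le_dd hq0 hq1
  have h3 : τ.t (cfc (fun t => (1 - qf N j t) + qf N j t) B) =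
      τ.t (cfc (fun t => 1 - qf N j t) B) + τ.t (cfc (qf N j) B) :=
    QTr.cfc_add ht (hcont j) (continuous_qf N j)
  have h4 : (fun t => (1 - qf N j t) + qf N j t) = fun _ => (1 : ℝ) := by
    funext t
    ring
  rw [h4, cfc_const_one ℝ B hB, h1] at h3
  linarith

end RC19
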