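import Pool.Agent.LibRC12.V1

open Filter Topology WeakDual
open scoped ENNReal NNReal ComplexOrder ComplexConjugate

set_option linter.unusedSectionVars false

namespace RC19

open RC12

variable {A : Type*} [CStarAlgebra A] [PartialOrder A] [StarOrderedRing A]

/-- `ρ + β·σ` -/
noncomputable def TM (ρ b c : A) : Mn 2 A := Mn.of !![ρ + b, star c; c, ρ - b]

theorem TM_star {ρ b : A} (hρ : IsSelfAdjoint ρ) (hb : IsSelfAdjoint b) (c : A) :
    star (TM ρ b c) = TM ρ b c := by
  apply Mn.ext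
  rw [Mn.mat_star]
  ext i j
  fin_cases i <;> fin_cases j <;> simp [TM, Matrix.star_apply, hρ.star_eq, hb.star_eq]

theorem TM_sq_nonneg {ρ b : A} (hρ : IsSelfAdjoint ρ) (hb : IsSelfAdjoint b) (c : A) :
    0 ≤ TM ρ b c * TM ρ b c := by
  have h := star_mul_self_nonneg (TM ρ b c)
  rwa [TM_star hρ hb c] at h

/-- `y*y ≾ T²` for `y = T (p, m)ᵗ` -/
theorem dq_TM {ρ b : A} (hρ : IsSelfAdjoint ρ) (hb : IsSelfAdjoint b) (c p m : A)
    (τ : QuasiTrace A) :
    τ.dq (M1 (star ((ρ + b) * p + star c * m) * ((ρ + b) * p + star c * m) +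
      star (c * p + (ρ - b) * m) * (c * p + (ρ - b) * m))) ≤ τ.dq (TM ρ b c * TM ρ b c) := by
  have hmat : star (TM ρ b c * Mn.of !![p, 0; m, 0]) * (TM ρ b c * Mn.of !![p, 0; m, 0]) =
      cor 2 (M1 (star ((ρ + b) * p + star c * m) * ((ρ + b) * p + star c * m) +
      star (c * p + (ρ - b) * m) * (c * p + (ρ - b) * m))) := by
    apply Mn.ext
    ext i j
    fin_cases i <;> fin_cases j
    · simp only [Fin.zero_eta]
      simp [TM, cor, corner, M1, Matrix.mul_apply, Fin.sum_univ_two, Matrix.star_apply]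
    all_goals simp [TM, cor, corner, M1, Matrix.mul_apply, Fin.sum_univ_two, Matrix.star_apply]
  have hq : 0 ≤ M1 (star ((ρ + b) * p + star c * m) * ((ρ + b) * p + star c * m) +
      star (c * p + (ρ - b) * m) * (c * p + (ρ - b) * m)) :=
    M1_nonneg (add_nonneg (star_mul_self_nonneg _) (star_mul_self_nonneg _))
  have h2 : star (TM ρ b c * Mn.of !![p, 0; m, 0]) * (TM ρ b c * Mn.of !![p, 0; m, 0]) =
      star (Mn.of !![p, 0; m, 0]) * (TM ρ b c * TM ρ b c) * Mn.of !![p, 0; m, 0] := by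
    rw [star_mul, TM_star hρ hb c]
    simp only [mul_assoc]
  rw [← dq_cor τ one_le_two hq]
  refine dq_mono τ ?_ (TM_sq_nonneg hρ hb c) ?_
  · rw [← hmat]
    exact star_mul_self_nonneg _
  · rw [← hmat, h2]
    exact Cu_conj _ _

end RC19
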