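import Pool.Agent.LibRC12.V3a
import Pool.Agent.LibRC12.V2

open Filter Topology WeakDual
open scoped ENNReal NNReal ComplexOrder ComplexConjugate

set_option linter.unusedSectionVars false

namespace RC19

open RC12

variable {A : Type*} [CStarAlgebra A] [PartialOrder A] [StarOrderedRing A]

private theorem v3_M1_smul (c : ℝ) (a : A) : M1 (c • a) = c • M1 a := by
  refine Mn.ext ?_
  rw [Mn.mat_smul_real]
  ext i j
  show c • a = (c : ℂ) • a
  exact (Complex.coe_smul c a).symm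

/-- the scalar inequality -/
private theorem v3_scalar {N : ℕ} (j : Fin N) (β : ℝ) (γ : ℂ) :
    qf N j β / 64 ≤
      ‖((√(max (β ^ 2 + ‖γ‖ ^ 2) (1 / 16)) + β : ℝ) : ℂ) * (chp N j β : ℝ) +
        conj γ * (chm N j β : ℝ)‖ ^ 2 +
      ‖γ * (chp N j β : ℝ) +
        ((√(max (β ^ 2 + ‖γ‖ ^ 2) (1 / 16)) - β : ℝ) : ℂ) * (chm N j β : ℝ)‖ ^ 2 := by
  set r : ℝ := √(max (β ^ 2 + ‖γ‖ ^ 2) (1 / 16)) with hr
  have hr4 : 1 / 4 ≤ r := by
    apply Real.le_sqrt_of_sq_le
    refine le_trans ?_ (le_max_right _ _)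
    norm_num
  have h0 := chp_mul_chm N j β
  unfold qf
  by_cases hP : chp N j β = 0
  · rw [hP]
    by_cases hM : chm N j β = 0
    · rw [hM]
      simp
    · have h1 := chm_ne hM
      have h2 : 1 / 8 ≤ r - β := by linarith
      have h3 : ‖γ * ((0 : ℝ) : ℂ) + ((r - β : ℝ) : ℂ) * (chm N j β : ℝ)‖ ^ 2 =
          (r - β) ^ 2 * chm N j β ^ 2 := by
        rw [Complex.ofReal_zero, mul_zero, zero_add, norm_mul, Complex.norm_real,
          Complex.norm_real, mul_pow, Real.norm_eq_abs, Real.norm_eq_abs, sq_abs, sq_abs]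
      rw [h3]
      have h4 : (1 / 8) ^ 2 ≤ (r - β) ^ 2 := pow_le_pow_left₀ (by norm_num) h2 2
      have h5 : 0 ≤ ‖((r + β : ℝ) : ℂ) * ((0 : ℝ) : ℂ) + conj γ * (chm N j β : ℝ)‖ ^ 2 :=
        sq_nonneg _
      have h6 : 0 ≤ chm N j β ^ 2 := sq_nonneg _
      nlinarith
  · have hM : chm N j β = 0 := by
      rcases mul_eq_zero.1 h0 with h | h
      · exact absurd h hP
      · exact h
    rw [hM]
    have h1 := chp_ne hP
    have h2 : 1 / 8 ≤ r + β := by linarith
    have h3 : ‖((r + β : ℝ) : ℂ) * (chp N j β : ℝ) + conj γ * ((0 : ℝ) : ℂ)‖ ^ 2 =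
        (r + β) ^ 2 * chp N j β ^ 2 := by
      rw [Complex.ofReal_zero, mul_zero, add_zero, norm_mul, Complex.norm_real,
        Complex.norm_real, mul_pow, Real.norm_eq_abs, Real.norm_eq_abs, sq_abs, sq_abs]
    rw [h3]
    have h4 : (1 / 8) ^ 2 ≤ (r + β) ^ 2 := pow_le_pow_left₀ (by norm_num) h2 2
    have h5 : 0 ≤ ‖γ * (chp N j β : ℝ) + ((r - β : ℝ) : ℂ) * ((0 : ℝ) : ℂ)‖ ^ 2 :=
      sq_nonneg _
    have h6 : 0 ≤ chp N j β ^ 2 := sq_nonneg _
    nlinarith

/-- the correction `e` in `J0` -/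
theorem exists_e {b : A} (hb : IsSelfAdjoint b) (c : A) {κ : ℝ} (hκ : 0 < κ) :
    ∃ e : A, 0 ≤ e ∧ e ∈ J0 A ∧ ∀ τ : QuasiTrace A,
      1 - κ ≤ τ.dq (TM (rhoe b c) b c * TM (rhoe b c) b c) + τ.dq (M1 e) := by
  obtain ⟨N, hN⟩ := exists_nat_gt (1 / κ)
  have hN0 : (0 : ℝ) < N := lt_trans (by positivity) hN
  have hNpos : 0 < N := Nat.cast_pos.1 hN0
  have hNκ : 1 / (N : ℝ) ≤ κ := by
    rw [div_le_iff₀ hN0]
    have := (div_lt_iff₀ hκ).1 hN
    linarith
  set ρ : A := rhoe b c with hρ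
  have hρsa : IsSelfAdjoint ρ := rhoe_sa b c
  -- the columns
  let p : Fin N → A := fun j => cfc (chp N j) b
  let m : Fin N → A := fun j => cfc (chm N j) b
  let y0 : Fin N → A := fun j => (ρ + b) * p j + star c * m j
  let y1 : Fin N → A := fun j => c * p j + (ρ - b) * m j
  let Y : Fin N → A := fun j => star (y0 j) * y0 j + star (y1 j) * y1 j
  let q' : Fin N → A := fun j => cfc (fun t => qf N j t / 64) b
  let E : Fin N → A := fun j => q' j - Y j
  have hY0 : ∀ j, 0 ≤ Y j := fun j =>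
    add_nonneg (star_mul_self_nonneg _) (star_mul_self_nonneg _)
  have hq'sa : ∀ j, IsSelfAdjoint (q' j) := fun j => cfc_predicate _ _
  have hEsa : ∀ j, IsSelfAdjoint (E j) := fun j =>
    (hq'sa j).sub (IsSelfAdjoint.of_nonneg (hY0 j))
  let e : Fin N → A := fun j => cfc (fun t : ℝ => max t 0) (E j)
  have he0 : ∀ j, 0 ≤ e j := fun j => cfc_nonneg fun _ _ => le_max_right _ _
  have hmaxc : Continuous fun t : ℝ => max t 0 := by fun_prop
  have hEe : ∀ j, E j ≤ e j := by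
    intro j
    have h1 : E j = cfc (fun t : ℝ => t) (E j) := (cfc_id' ℝ (E j) (hEsa j)).symm
    calc E j = cfc (fun t : ℝ => t) (E j) := h1
      _ ≤ cfc (fun t : ℝ => max t 0) (E j) :=
        cfc_mono (fun t _ => le_max_left _ _) continuous_id.continuousOn hmaxc.continuousOn
  have hsum0 : 0 ≤ ∑ j, e j := Finset.sum_nonneg fun j _ => he0 j
  refine ⟨∑ j, e j, hsum0, ?_, ?_⟩
  · -- in `J0`
    intro φ
    rw [map_sum]
    refine Finset.sum_eq_zero fun j _ => ?_
    show φ (cfc (fun t : ℝ => max t 0) (E j)) = 0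
    rw [char_cfc φ (hEsa j) hmaxc]
    have hle : (φ (E j)).re ≤ 0 := by
      have hqc : Continuous fun t => qf N j t / 64 := (continuous_qf N j).div_const _
      have e1 : φ (q' j) = ((qf N j (φ b).re / 64 : ℝ) : ℂ) := char_cfc φ hb hqc
      have e2 : φ (p j) = ((chp N j (φ b).re : ℝ) : ℂ) := char_cfc φ hb (continuous_chp N j)
      have e3 : φ (m j) = ((chm N j (φ b).re : ℝ) : ℂ) := char_cfc φ hb (continuous_chm N j)
      have e4 : φ b = (((φ b).re : ℝ) : ℂ) := (char_sa φ hb).symm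
      have e5 := char_rhoe hb c φ
      rw [← hρ] at e5
      have hstar : ∀ x : A, φ (star x) = conj (φ x) := fun x => map_star φ x
      have e6 : φ (y0 j) = ((√(max ((φ b).re ^ 2 + ‖φ c‖ ^ 2) (1 / 16)) + (φ b).re : ℝ) : ℂ) *
          (chp N j (φ b).re : ℝ) + conj (φ c) * (chm N j (φ b).re : ℝ) := by
        show φ ((ρ + b) * p j + star c * m j) = _
        rw [map_add, map_mul, map_mul, map_add, hstar, e2, e3, e5]
        rw [Complex.ofReal_add, ← e4]
      have e7 : φ (y1 j) = φ c * (chp N j (φ b).re : ℝ) +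
          ((√(max ((φ b).re ^ 2 + ‖φ c‖ ^ 2) (1 / 16)) - (φ b).re : ℝ) : ℂ) *
          (chm N j (φ b).re : ℝ) := by
        show φ (c * p j + (ρ - b) * m j) = _
        rw [map_add, map_mul, map_mul, map_sub, e2, e3, e5]
        rw [Complex.ofReal_sub, ← e4]
      have e8 : ∀ x : A, φ (star x * x) = ((‖φ x‖ ^ 2 : ℝ) : ℂ) := by
        intro x
        rw [map_mul, hstar, mul_comm, Complex.mul_conj, Complex.normSq_eq_norm_sq]
      have e9 : φ (E j) = ((qf N j (φ b).re / 64 - (‖φ (y0 j)‖ ^ 2 + ‖φ (y1 j)‖ ^ 2) : ℝ) : ℂ) := by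
        show φ (q' j - (star (y0 j) * y0 j + star (y1 j) * y1 j)) = _
        rw [map_sub, map_add, e1, e8, e8]
        push_cast
        ring
      rw [e9, Complex.ofReal_re, e6, e7]
      have := v3_scalar j (φ b).re (φ c)
      linarith
    rw [max_eq_right hle, Complex.ofReal_zero]
  · intro τ
    obtain ⟨j, hj⟩ := band hNpos hb τ
    have hq'0 : 0 ≤ q' j := cfc_nonneg fun t _ => div_nonneg (qf_nonneg N j t) (by norm_num)
    have h1 : q' j ≤ Y j + ∑ j, e j := by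
      have h2 : e j ≤ ∑ j, e j := Finset.single_le_sum (fun i _ => he0 i) (Finset.mem_univ j)
      have h3 : q' j - Y j ≤ ∑ j, e j := (hEe j).trans h2
      exact sub_le_iff_le_add'.1 h3
    have h2 : cfc (qf N j) b = (64 : ℝ) • q' j := by
      show _ = (64 : ℝ) • cfc (fun t => qf N j t / 64) b
      rw [← cfc_const_mul (64 : ℝ) (fun t => qf N j t / 64) b
        (((continuous_qf N j).div_const _).continuousOn)]
      refine cfc_congr fun t _ => ?_
      show qf N j t = 64 * (qf N j t / 64)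
      ring
    have h3 : τ.dq (M1 (cfc (qf N j) b)) ≤ τ.dq (M1 (q' j)) := by
      rw [h2, v3_M1_smul]
      exact dq_mono τ (smul_nonneg (by norm_num) (M1_nonneg hq'0)) (M1_nonneg hq'0)
        (Cu_smul_left (by norm_num))
    have h4 : τ.dq (M1 (q' j)) ≤ τ.dq (M1 (Y j)) + τ.dq (M1 (∑ j, e j)) := by
      refine le_trans (dq_mono τ (M1_nonneg hq'0) (M1_nonneg (add_nonneg (hY0 j) hsum0))
        (Cu_of_le (M1_nonneg hq'0) (M1_mono h1))) ?_
      rw [M1_add]
      exact dq_add_le τ (M1_nonneg (hY0 j)) (M1_nonneg hsum0)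
    have h5 : τ.dq (M1 (Y j)) ≤ τ.dq (TM ρ b c * TM ρ b c) := dq_TM hρsa hb c (p j) (m j) τ
    linarith

end RC19
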