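import Pool.Agent.LibRC12.U0


open Filter Topology WeakDual
open scoped ENNReal NNReal ComplexOrder ComplexConjugate

set_option linter.unusedSectionVars false

namespace RC19

open RC12

variable {A : Type*} [CStarAlgebra A] [PartialOrder A] [StarOrderedRing A]

/-- `ρ = max(|β|, 1/4)` -/
noncomputable def rhoe (b c : A) : A := cfc (fun t : ℝ => √(max t (1 / 16))) (b * b + star c * c)

theorem rhoe_sa (b c : A) : IsSelfAdjoint (rhoe b c) := cfc_predicate _ _

theorem char_rhoe {b : A} (hb : IsSelfAdjoint b) (c : A) (φ : characterSpace ℂ A) :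
    φ (rhoe b c) = ((√(max ((φ b).re ^ 2 + ‖φ c‖ ^ 2) (1 / 16)) : ℝ) : ℂ) := by
  have h1 : IsSelfAdjoint (b * b + star c * c) := by
    refine IsSelfAdjoint.add ?_ (IsSelfAdjoint.star_mul_self c)
    rw [isSelfAdjoint_iff, star_mul, hb.star_eq]
  have h2 : (φ (b * b + star c * c)).re = (φ b).re ^ 2 + ‖φ c‖ ^ 2 := by
    rw [map_add, map_mul, map_mul, map_star, ← char_sa φ hb]
    have h3 : star (φ c) * φ c = ((‖φ c‖ ^ 2 : ℝ) : ℂ) := by
      rw [mul_comm, Complex.star_def, Complex.mul_conj, Complex.normSq_eq_norm_sq]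
    rw [h3, ← Complex.ofReal_mul, ← Complex.ofReal_add, Complex.ofReal_re, Complex.ofReal_re]
    ring
  unfold rhoe
  rw [char_cfc φ h1 (f := fun t : ℝ => √(max t (1 / 16))) (by fun_prop), h2]

end RC19
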